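import Mathlib
set_option autoImplicit false
set_option linter.unusedSectionVars false

/-! Even Schatten norms of square matrices and the Hölder inequality for them. -/

namespace TH364.SG

open Matrix Finset
open scoped ComplexOrder

universe u
variable {ι : Type u} [Fintype ι] [DecidableEq ι]

/-- the power sum of singular values, Re tr((Aᴴ A)^K) -/
noncomputable def pw (K : ℕ) (A : Matrix ι ι ℂ) : ℝ := ((Aᴴ * A) ^ K).trace.re

/-- the Schatten norm with exponent 2^(r+1) -/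
noncomputable def nm (r : ℕ) (A : Matrix ι ι ℂ) : ℝ :=
  (pw (2 ^ r) A) ^ (((2 ^ (r + 1) : ℕ) : ℝ)⁻¹)

theorem mul_pow_cyc (A B : Matrix ι ι ℂ) (k : ℕ) : (A * B) ^ (k + 1) = A * ((B * A) ^ k * B) := by
  induction k with
  | zero => simp
  | succ k ih =>
    rw [pow_succ, ih, pow_succ (B * A)]
    simp only [Matrix.mul_assoc]

theorem trace_cyc (A B : Matrix ι ι ℂ) (k : ℕ) : ((A * B) ^ k).trace = ((B * A) ^ k).trace := by
  cases k with
  | zero => simp
  | succ k =>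
    rw [mul_pow_cyc, Matrix.trace_mul_comm, pow_succ, Matrix.mul_assoc]

theorem pw_nonneg (K : ℕ) (A : Matrix ι ι ℂ) : 0 ≤ pw K A := by
  have h := ((Matrix.posSemidef_conjTranspose_mul_self A).pow K).trace_nonneg
  exact (Complex.le_def.1 h).1

theorem nm_nonneg (r : ℕ) (A : Matrix ι ι ℂ) : 0 ≤ nm r A := Real.rpow_nonneg (pw_nonneg _ _) _

theorem nm_pow (r : ℕ) (A : Matrix ι ι ℂ) : nm r A ^ (2 ^ (r + 1)) = pw (2 ^ r) A :=
  Real.rpow_inv_natCast_pow (pw_nonneg _ _) (by positivity)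

theorem pw_conj (K : ℕ) (A : Matrix ι ι ℂ) : pw K Aᴴ = pw K A := by
  unfold pw
  rw [Matrix.conjTranspose_conjTranspose, trace_cyc]

theorem nm_conj (r : ℕ) (A : Matrix ι ι ℂ) : nm r Aᴴ = nm r A := by
  unfold nm; rw [pw_conj]

theorem pw_unit_mul (K : ℕ) {V : Matrix ι ι ℂ} (hV : Vᴴ * V = 1) (A : Matrix ι ι ℂ) :
    pw K (V * A) = pw K A := by
  unfold pw
  rw [Matrix.conjTranspose_mul, Matrix.mul_assoc, ← Matrix.mul_assoc Vᴴ, hV, Matrix.one_mul]

theorem pw_mul_unit (K : ℕ) {V : Matrix ι ι ℂ} (hV : V * Vᴴ = 1) (A : Matrix ι ι ℂ) :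
    pw K (A * V) = pw K A := by
  rw [← pw_conj, Matrix.conjTranspose_mul, pw_unit_mul _ (by rwa [Matrix.conjTranspose_conjTranspose]),
    pw_conj]

theorem nm_unit_mul (r : ℕ) {V : Matrix ι ι ℂ} (hV : Vᴴ * V = 1) (A : Matrix ι ι ℂ) :
    nm r (V * A) = nm r A := by
  unfold nm; rw [pw_unit_mul _ hV]

theorem nm_mul_unit (r : ℕ) {V : Matrix ι ι ℂ} (hV : V * Vᴴ = 1) (A : Matrix ι ι ℂ) :
    nm r (A * V) = nm r A := by
  unfold nm; rw [pw_mul_unit _ hV]

theorem gram_diag (A : Matrix ι ι ℂ) (i : ι) : ((Aᴴ * A) i i) = ((∑ j, ‖A j i‖ ^ 2 : ℝ) : ℂ) := by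
  rw [Matrix.mul_apply]
  push_cast
  apply Finset.sum_congr rfl
  intro j _
  rw [Matrix.conjTranspose_apply, Complex.star_def, Complex.conj_mul']

theorem pw_one (A : Matrix ι ι ℂ) : pw 1 A = ∑ i, ∑ j, ‖A j i‖ ^ 2 := by
  unfold pw
  rw [pow_one, Matrix.trace]
  simp only [Matrix.diag_apply, gram_diag]
  rw [← Complex.ofReal_sum, Complex.ofReal_re]

theorem cs_base (A B : Matrix ι ι ℂ) : ‖(A * B).trace‖ ≤ nm 0 A * nm 0 B := by
  have h1 : ‖(A * B).trace‖ ≤ ∑ i, ∑ j, ‖A i j‖ * ‖B j i‖ := by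
    rw [Matrix.trace]
    refine (norm_sum_le _ _).trans (Finset.sum_le_sum fun i _ => ?_)
    rw [Matrix.diag_apply, Matrix.mul_apply]
    refine (norm_sum_le _ _).trans (Finset.sum_le_sum fun j _ => ?_)
    rw [norm_mul]
  have h2 : (∑ i, ∑ j, ‖A i j‖ * ‖B j i‖) ^ 2 ≤ (∑ i, ∑ j, ‖A i j‖ ^ 2) * (∑ i, ∑ j, ‖B j i‖ ^ 2) := by
    rw [← Finset.sum_product', ← Finset.sum_product', ← Finset.sum_product']
    exact Finset.sum_mul_sq_le_sq_mul_sq _ _ _
  have h3 : (∑ i, ∑ j, ‖A i j‖ ^ 2) = pw 1 A := by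
    rw [pw_one, Finset.sum_comm]
  have h4 : (∑ i, ∑ j, ‖B j i‖ ^ 2) = pw 1 B := by
    rw [pw_one]
  rw [h3, h4] at h2
  have h5 : (nm 0 A * nm 0 B) ^ 2 = pw 1 A * pw 1 B := by
    rw [mul_pow]
    have ha := nm_pow 0 A
    have hb := nm_pow 0 B
    simp only [zero_add, pow_one, pow_zero] at ha hb
    rw [ha, hb]
  refine h1.trans (abs_le_of_sq_le_sq' (h2.trans_eq h5.symm) (mul_nonneg (nm_nonneg _ _) (nm_nonneg _ _))).2

/-- Hölder for products of `2^(r+1)` matrices -/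
def Hol (ι : Type u) [Fintype ι] [DecidableEq ι] (r : ℕ) : Prop :=
  ∀ l : List (Matrix ι ι ℂ), l.length = 2 ^ (r + 1) → ‖l.prod.trace‖ ≤ (l.map (nm r)).prod

/-- the alternating list X, Y, X, Y, ... of length 2m -/
def alt (X Y : Matrix ι ι ℂ) : ℕ → List (Matrix ι ι ℂ)
  | 0 => []
  | m + 1 => X :: Y :: alt X Y m

theorem alt_length (X Y : Matrix ι ι ℂ) (m : ℕ) : (alt X Y m).length = 2 * m := by
  induction m with
  | zero => rfl
  | succ m ih => simp only [alt, List.length_cons, ih]; ring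

theorem alt_prod (X Y : Matrix ι ι ℂ) (m : ℕ) : (alt X Y m).prod = (X * Y) ^ m := by
  induction m with
  | zero => simp [alt]
  | succ m ih => simp only [alt, List.prod_cons, ih]; rw [pow_succ', Matrix.mul_assoc]

theorem alt_map (X Y : Matrix ι ι ℂ) (g : Matrix ι ι ℂ → ℝ) (m : ℕ) :
    ((alt X Y m).map g).prod = (g X * g Y) ^ m := by
  induction m with
  | zero => simp [alt]
  | succ m ih => simp only [alt, List.map_cons, List.prod_cons, ih]; rw [pow_succ', mul_assoc]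

theorem pow_inj {a b : ℝ} {n : ℕ} (hn : n ≠ 0) (ha : 0 ≤ a) (hb : 0 ≤ b) (h : a ^ n = b ^ n) :
    a = b := (pow_left_inj₀ ha hb hn).1 h

theorem pow_le {a b : ℝ} {n : ℕ} (hn : n ≠ 0) (hb : 0 ≤ b) (h : a ^ n ≤ b ^ n) :
    a ≤ b := by
  by_contra hcon
  push Not at hcon
  exact absurd h (not_le.2 (pow_lt_pow_left₀ hcon hb hn))

theorem nm_gram (r : ℕ) (A : Matrix ι ι ℂ) : nm r (Aᴴ * A) = nm (r + 1) A ^ 2 := by
  apply pow_inj (n := 2 ^ (r + 1)) (by positivity) (nm_nonneg _ _) (sq_nonneg _)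
  rw [nm_pow, ← pow_mul, show 2 * 2 ^ (r + 1) = 2 ^ (r + 1 + 1) by ring, nm_pow]
  unfold pw
  rw [Matrix.conjTranspose_mul, Matrix.conjTranspose_conjTranspose, ← sq, ← pow_mul,
    show 2 * 2 ^ r = 2 ^ (r + 1) by ring]

theorem nm_mul_le {r : ℕ} (h : Hol ι r) (A B : Matrix ι ι ℂ) :
    nm r (A * B) ≤ nm (r + 1) A * nm (r + 1) B := by
  apply pow_le (n := 2 ^ (r + 1)) (by positivity) (mul_nonneg (nm_nonneg _ _) (nm_nonneg _ _))
  rw [nm_pow]
  have e : pw (2 ^ r) (A * B) = (((Aᴴ * A) * (B * Bᴴ)) ^ (2 ^ r)).trace.re := by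
    unfold pw
    rw [Matrix.conjTranspose_mul]
    have : Bᴴ * Aᴴ * (A * B) = Bᴴ * ((Aᴴ * A) * B) := by simp only [Matrix.mul_assoc]
    rw [this, trace_cyc, Matrix.mul_assoc]
  rw [e, ← alt_prod]
  have h1 := h (alt (Aᴴ * A) (B * Bᴴ) (2 ^ r)) (by rw [alt_length]; ring)
  refine (Complex.re_le_norm _).trans (h1.trans ?_)
  rw [alt_map, nm_gram]
  have h2 := nm_gram r Bᴴ
  rw [Matrix.conjTranspose_conjTranspose, nm_conj] at h2
  rw [h2, ← mul_pow, ← pow_mul]
  exact le_of_eq (by congr 1; ring)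

theorem pair_list {r : ℕ} (h : Hol ι r) : ∀ (m : ℕ) (l : List (Matrix ι ι ℂ)), l.length = 2 * m →
    ∃ l' : List (Matrix ι ι ℂ), l'.length = m ∧ l'.prod = l.prod ∧ 0 ≤ (l'.map (nm r)).prod ∧
      (l'.map (nm r)).prod ≤ (l.map (nm (r + 1))).prod := by
  intro m
  induction m with
  | zero =>
    intro l hl
    have : l = [] := List.length_eq_zero_iff.1 (by simpa using hl)
    subst this
    exact ⟨[], rfl, rfl, by simp, by simp⟩
  | succ m ih =>
    intro l hl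
    match l, hl with
    | [], hl => simp at hl
    | [a], hl => simp at hl; omega
    | a :: b :: t, hl =>
      obtain ⟨l', h1, h2, h3, h4⟩ := ih t (by simp only [List.length_cons] at hl; omega)
      refine ⟨(a * b) :: l', by simp [h1], ?_, ?_, ?_⟩
      · simp only [List.prod_cons, h2, Matrix.mul_assoc]
      · simp only [List.map_cons, List.prod_cons]
        exact mul_nonneg (nm_nonneg _ _) h3
      · simp only [List.map_cons, List.prod_cons]
        rw [← mul_assoc]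
        exact mul_le_mul (nm_mul_le h a b) h4 h3 (mul_nonneg (nm_nonneg _ _) (nm_nonneg _ _))

/-- Hölder's inequality for the trace of a product of `2^(r+1)` matrices. -/
theorem hol (ι : Type u) [Fintype ι] [DecidableEq ι] (r : ℕ) : Hol ι r := by
  induction r with
  | zero =>
    intro l hl
    match l, hl with
    | [a, b], _ =>
      simp only [List.prod_cons, List.prod_nil, List.map_cons, List.map_nil, mul_one]
      exact cs_base a b
  | succ r ih =>
    intro l hl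
    obtain ⟨l', h1, h2, _, h4⟩ := pair_list ih (2 ^ (r + 1)) l (by rw [hl]; ring)
    rw [← h2]
    exact (ih l' h1).trans h4

/-- diagonal entries of a Hermitian matrix: `(P k k)^(2^r) ≤ (P^(2^r)) k k`. -/
theorem herm_diag_pow (r : ℕ) : ∀ {P : Matrix ι ι ℂ}, P.IsHermitian → ∀ k, 0 ≤ (P k k).re →
    (P k k).re ^ (2 ^ r) ≤ ((P ^ (2 ^ r)) k k).re := by
  induction r with
  | zero => intro P _ k _; simp
  | succ r ih =>
    intro P hP k hk
    have hP2 : (P ^ 2).IsHermitian := hP.pow 2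
    have e : P ^ 2 = Pᴴ * P := by rw [hP.eq, sq]
    have e1 : ((P ^ 2) k k).re = ∑ j, ‖P j k‖ ^ 2 := by
      rw [e, gram_diag, Complex.ofReal_re]
    have e2 : (P k k).re ^ 2 ≤ ((P ^ 2) k k).re := by
      rw [e1]
      have h1 : (P k k).re ^ 2 ≤ ‖P k k‖ ^ 2 := by
        apply sq_le_sq'
        · have := Complex.abs_re_le_norm (P k k)
          linarith [neg_abs_le (P k k).re]
        · exact Complex.re_le_norm _
      exact h1.trans (Finset.single_le_sum (f := fun j => ‖P j k‖ ^ 2) (fun j _ => sq_nonneg _)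
        (Finset.mem_univ k))
    have h3 := ih hP2 k ((sq_nonneg _).trans e2)
    calc (P k k).re ^ 2 ^ (r + 1) = ((P k k).re ^ 2) ^ (2 ^ r) := by rw [← pow_mul]; congr 1; ring
      _ ≤ (((P ^ 2) k k).re) ^ (2 ^ r) := pow_le_pow_left₀ (sq_nonneg _) e2 _
      _ ≤ _ := h3
      _ = _ := by rw [← pow_mul, ← pow_succ']

/-- column norms are dominated by the Schatten norm. -/
theorem col_le (r : ℕ) (A : Matrix ι ι ℂ) :
    ∑ k, (∑ j, ‖A j k‖ ^ 2) ^ (2 ^ r) ≤ pw (2 ^ r) A := by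
  unfold pw
  rw [Matrix.trace, Complex.re_sum]
  refine Finset.sum_le_sum fun k _ => ?_
  have h := herm_diag_pow r (Matrix.isHermitian_conjTranspose_mul_self A) k
  rw [gram_diag, Complex.ofReal_re] at h
  exact h (Finset.sum_nonneg fun _ _ => sq_nonneg _)

theorem diag_le (r : ℕ) (A : Matrix ι ι ℂ) :
    ∑ k, ‖A k k‖ ^ (2 ^ (r + 1)) ≤ pw (2 ^ r) A := by
  refine (Finset.sum_le_sum fun k _ => ?_).trans (col_le r A)
  rw [show 2 ^ (r + 1) = 2 * 2 ^ r by ring, pow_mul]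
  exact pow_le_pow_left₀ (sq_nonneg _) (Finset.single_le_sum (f := fun j => ‖A j k‖ ^ 2)
    (fun j _ => sq_nonneg _) (Finset.mem_univ k)) _

end TH364.SG
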