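import Mathlib
import Pool.Agent.TH364.SG.Norm
set_option autoImplicit false
set_option linter.unusedSectionVars false

/-! A Khintchine inequality for even Schatten norms, by comparison with the scalar case. -/

namespace TH364.SG

open Matrix Finset
open scoped ComplexOrder

universe u v
variable {ι : Type u} [Fintype ι] [DecidableEq ι] {J : Type v} [Fintype J] [DecidableEq J]

/-- the sign of a boolean -/
noncomputable def sg (b : Bool) : ℝ := bif b then 1 else -1

theorem sg_sq (b : Bool) : sg b * sg b = 1 := by cases b <;> simp [sg]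

theorem sg_not (b : Bool) : sg (!b) = - sg b := by cases b <;> simp [sg]

/-- characters of the sign group -/
noncomputable def chi (k : J → ℕ) (ε : J → Bool) : ℝ := ∏ j, sg (ε j) ^ (k j)

theorem chi_sum_nonneg (k : J → ℕ) : 0 ≤ ∑ ε : J → Bool, chi k ε := by
  unfold chi
  rw [← Fintype.prod_sum (fun j (b : Bool) => sg b ^ (k j))]
  refine Finset.prod_nonneg fun j _ => ?_
  rw [Fintype.sum_bool]
  simp only [sg, cond_true, cond_false, one_pow]
  have h : |(-1 : ℝ) ^ (k j)| = 1 := by rw [abs_pow]; simp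
  have := neg_abs_le ((-1 : ℝ) ^ (k j))
  linarith

theorem chi_succ (k : J → ℕ) (ε : J → Bool) (j : J) :
    chi (k + Pi.single j 1) ε = chi k ε * sg (ε j) := by
  unfold chi
  simp only [Pi.add_apply, pow_add, Finset.prod_mul_distrib]
  congr 1
  rw [Finset.prod_eq_single j]
  · simp
  · intro b _ hb; simp [Pi.single_eq_of_ne hb]
  · intro h; exact absurd (Finset.mem_univ j) h

/-- the matrix in slot `m` -/
noncomputable def slot (H : J → Matrix ι ι ℂ) (m : ℕ) (j : J) : Matrix ι ι ℂ :=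
  if Even m then (H j)ᴴ else H j

/-- the signed sum -/
noncomputable def ssum (H : J → Matrix ι ι ℂ) (ε : J → Bool) : Matrix ι ι ℂ :=
  ∑ j, ((sg (ε j) : ℝ) : ℂ) • H j

/-- the product of the first `m` slots of signed sums -/
noncomputable def Pm (H : J → Matrix ι ι ℂ) (ε : J → Bool) : ℕ → Matrix ι ι ℂ
  | 0 => 1
  | m + 1 => Pm H ε m * ssum (slot H m) ε

theorem ssum_conj (H : J → Matrix ι ι ℂ) (ε : J → Bool) :
    (ssum H ε)ᴴ = ssum (fun j => (H j)ᴴ) ε := by
  unfold ssum
  rw [Matrix.conjTranspose_sum]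
  refine Finset.sum_congr rfl fun j _ => ?_
  rw [Matrix.conjTranspose_smul, Complex.star_def, Complex.conj_ofReal]

theorem Pm_even (H : J → Matrix ι ι ℂ) (ε : J → Bool) (m : ℕ) :
    Pm H ε (2 * m) = ((ssum H ε)ᴴ * ssum H ε) ^ m := by
  induction m with
  | zero => rfl
  | succ m ih =>
    rw [show 2 * (m + 1) = 2 * m + 1 + 1 by ring]
    simp only [Pm]
    rw [ih, pow_succ, Matrix.mul_assoc]
    congr 2
    · rw [ssum_conj]
      unfold slot
      simp
    · unfold slot
      have : ¬ Even (2 * m + 1) := by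
        rw [Nat.not_even_iff_odd]; exact odd_two_mul_add_one m
      simp [this]

theorem nm_slot (r : ℕ) (H : J → Matrix ι ι ℂ) (m : ℕ) (j : J) :
    nm r (slot H m j) = nm r (H j) := by
  unfold slot
  split_ifs
  · exact nm_conj _ _
  · rfl

theorem khin_ind (r : ℕ) (H : J → Matrix ι ι ℂ) (m : ℕ) : ∀ (C : List (Matrix ι ι ℂ)) (k : J → ℕ),
    m + C.length = 2 ^ (r + 1) →
    ‖∑ ε : J → Bool, ((chi k ε : ℝ) : ℂ) * (Pm H ε m * C.prod).trace‖ ≤
      (∑ ε : J → Bool, chi k ε * (∑ j, sg (ε j) * nm r (H j)) ^ m) * (C.map (nm r)).prod := by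
  induction m with
  | zero =>
    intro C k hC
    have h0 : ∑ ε : J → Bool, ((chi k ε : ℝ) : ℂ) * (Pm H ε 0 * C.prod).trace
        = ((∑ ε : J → Bool, chi k ε : ℝ) : ℂ) * C.prod.trace := by
      push_cast
      rw [Finset.sum_mul]
      refine Finset.sum_congr rfl fun ε _ => ?_
      simp [Pm]
    rw [h0, norm_mul, Complex.norm_real, Real.norm_of_nonneg (chi_sum_nonneg k)]
    simp only [pow_zero, mul_one]
    exact mul_le_mul_of_nonneg_left (hol ι r C (by omega)) (chi_sum_nonneg k)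
  | succ m ih =>
    intro C k hC
    have h0 : ∑ ε : J → Bool, ((chi k ε : ℝ) : ℂ) * (Pm H ε (m + 1) * C.prod).trace
        = ∑ j, ∑ ε : J → Bool, ((chi (k + Pi.single j 1) ε : ℝ) : ℂ) *
            (Pm H ε m * (slot H m j :: C).prod).trace := by
      rw [Finset.sum_comm]
      refine Finset.sum_congr rfl fun ε _ => ?_
      simp only [Pm, ssum]
      rw [Matrix.mul_sum, Matrix.sum_mul, Matrix.trace_sum, Finset.mul_sum]
      refine Finset.sum_congr rfl fun j _ => ?_
      rw [chi_succ, List.prod_cons, Matrix.mul_smul, Matrix.smul_mul, Matrix.trace_smul,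
        Matrix.mul_assoc]
      push_cast
      rw [smul_eq_mul]
      ring
    rw [h0]
    refine (norm_sum_le _ _).trans ((Finset.sum_le_sum fun j _ =>
      ih (slot H m j :: C) (k + Pi.single j 1) (by rw [List.length_cons]; omega)).trans_eq ?_)
    simp only [List.map_cons, List.prod_cons, nm_slot]
    simp only [← mul_assoc]
    rw [← Finset.sum_mul]
    congr 1
    simp only [Finset.sum_mul]
    rw [Finset.sum_comm]
    refine Finset.sum_congr rfl fun ε _ => ?_
    rw [pow_succ, ← mul_assoc, Finset.mul_sum]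
    refine Finset.sum_congr rfl fun j _ => ?_
    rw [chi_succ]; ring

theorem khin_scalar (r : ℕ) (H : J → Matrix ι ι ℂ) :
    ∑ ε : J → Bool, pw (2 ^ r) (ssum H ε) ≤
      ∑ ε : J → Bool, (∑ j, sg (ε j) * nm r (H j)) ^ (2 ^ (r + 1)) := by
  have h := khin_ind r H (2 ^ (r + 1)) [] 0 (by simp)
  have e0 : ∀ ε : J → Bool, chi (0 : J → ℕ) ε = 1 := by intro ε; simp [chi]
  simp only [e0, List.prod_nil, List.map_nil, mul_one, Complex.ofReal_one, one_mul] at h
  refine le_trans ?_ h
  refine le_trans ?_ (Complex.re_le_norm _)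
  rw [Complex.re_sum]
  refine Finset.sum_le_sum fun ε _ => ?_
  rw [show 2 ^ (r + 1) = 2 * 2 ^ r by ring, Pm_even]
  exact le_refl _

theorem sum_exp (a : J → ℝ) (t : ℝ) :
    ∑ ε : J → Bool, Real.exp (t * ∑ j, sg (ε j) * a j) ≤
      2 ^ (Fintype.card J) * Real.exp (t ^ 2 * (∑ j, a j ^ 2) / 2) := by
  have e1 : ∑ ε : J → Bool, Real.exp (t * ∑ j, sg (ε j) * a j)
      = ∏ j, ∑ b : Bool, Real.exp (t * (sg b * a j)) := by
    rw [Fintype.prod_sum]
    refine Finset.sum_congr rfl fun ε _ => ?_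
    rw [Finset.mul_sum, Real.exp_sum]
  rw [e1]
  have e2 : (2 : ℝ) ^ (Fintype.card J) * Real.exp (t ^ 2 * (∑ j, a j ^ 2) / 2)
      = ∏ j, (2 * Real.exp ((t * a j) ^ 2 / 2)) := by
    rw [Finset.prod_mul_distrib, Finset.prod_const, Finset.card_univ, ← Real.exp_sum]
    congr 2
    rw [Finset.mul_sum, Finset.sum_div]
    refine Finset.sum_congr rfl fun j _ => ?_
    ring
  rw [e2]
  refine Finset.prod_le_prod (fun j _ => Finset.sum_nonneg fun b _ => (Real.exp_pos _).le)
    fun j _ => ?_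
  rw [Fintype.sum_bool]
  simp only [sg, cond_true, cond_false]
  have h := Real.cosh_le_exp_half_sq (t * a j)
  rw [Real.cosh_eq] at h
  have e3 : t * (1 * a j) = t * a j := by ring
  have e4 : t * (-1 * a j) = -(t * a j) := by ring
  rw [e3, e4]
  linarith

theorem scalar_moment (a : J → ℝ) {K : ℕ} (hK : 0 < K) :
    ∑ ε : J → Bool, (∑ j, sg (ε j) * a j) ^ (2 * K) ≤
      2 ^ (Fintype.card J) * (2 * (2 * K * Real.exp 1) ^ K) * (∑ j, a j ^ 2) ^ K := by
  set A := ∑ j, a j ^ 2 with hA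
  have hA0 : 0 ≤ A := Finset.sum_nonneg fun _ _ => sq_nonneg _
  rcases hA0.eq_or_lt with h | h
  · have ha : ∀ j, a j = 0 := by
      intro j
      have := (Finset.sum_eq_zero_iff_of_nonneg (fun j _ => sq_nonneg (a j))).1 (hA.symm.trans h.symm) j
        (Finset.mem_univ j)
      exact pow_eq_zero_iff (two_ne_zero) |>.1 this
    rw [← h]
    simp [ha, hK.ne']
  · have hKr : (0 : ℝ) < K := by exact_mod_cast hK
    set t := Real.sqrt (2 * K / A) with ht
    have ht2 : t ^ 2 = 2 * K / A := Real.sq_sqrt (by positivity)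
    have ht0 : 0 < t := Real.sqrt_pos.2 (by positivity)
    have h1 : ∀ s : ℝ, s ^ (2 * K) ≤ ((2 * K) ^ (2 * K)) * (t ^ (2 * K))⁻¹ *
        (Real.exp (t * s) + Real.exp (-t * s)) := by
      intro s
      have e1 : |t * s| ^ (2 * K) / ((2 * K).factorial : ℝ) ≤ Real.exp |t * s| :=
        Real.pow_div_factorial_le_exp _ (abs_nonneg _) _
      have e2 : Real.exp |t * s| ≤ Real.exp (t * s) + Real.exp (-t * s) := by
        rcases abs_cases (t * s) with h | h
        · rw [h.1]; linarith [Real.exp_pos (-t * s)]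
        · rw [h.1, ← neg_mul]; linarith [Real.exp_pos (t * s)]
      have e3 : (((2 * K).factorial : ℕ) : ℝ) ≤ (2 * K) ^ (2 * K) := by
        exact_mod_cast Nat.factorial_le_pow (2 * K)
      have e4 : |t * s| ^ (2 * K) = t ^ (2 * K) * s ^ (2 * K) := by
        rw [← mul_pow, Even.pow_abs (by simp)]
      have hf : (0 : ℝ) < (((2 * K).factorial : ℕ) : ℝ) := by exact_mod_cast Nat.factorial_pos _
      rw [div_le_iff₀ hf, e4] at e1
      have e5 : t ^ (2 * K) * s ^ (2 * K) ≤ (2 * K) ^ (2 * K) * (Real.exp (t * s) + Real.exp (-t * s)) := by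
        calc _ ≤ _ := e1
          _ ≤ (Real.exp (t * s) + Real.exp (-t * s)) * (2 * K) ^ (2 * K) :=
            mul_le_mul e2 e3 hf.le (by positivity)
          _ = _ := by ring
      have htp : 0 < t ^ (2 * K) := by positivity
      rw [mul_right_comm, ← div_eq_mul_inv, le_div_iff₀ htp]
      linarith
    calc ∑ ε : J → Bool, (∑ j, sg (ε j) * a j) ^ (2 * K)
        ≤ ∑ ε : J → Bool, ((2 * K) ^ (2 * K)) * (t ^ (2 * K))⁻¹ *
          (Real.exp (t * ∑ j, sg (ε j) * a j) + Real.exp (-t * ∑ j, sg (ε j) * a j)) :=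
          Finset.sum_le_sum fun ε _ => h1 _
      _ = ((2 * K) ^ (2 * K)) * (t ^ (2 * K))⁻¹ *
          (∑ ε : J → Bool, Real.exp (t * ∑ j, sg (ε j) * a j) +
            ∑ ε : J → Bool, Real.exp (-t * ∑ j, sg (ε j) * a j)) := by
          rw [← Finset.mul_sum, Finset.sum_add_distrib]
      _ ≤ ((2 * K) ^ (2 * K)) * (t ^ (2 * K))⁻¹ *
          (2 ^ (Fintype.card J) * Real.exp (t ^ 2 * A / 2) +
            2 ^ (Fintype.card J) * Real.exp (t ^ 2 * A / 2)) := by
          refine mul_le_mul_of_nonneg_left (add_le_add (sum_exp a t) ?_) (by positivity)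
          have := sum_exp a (-t)
          rwa [neg_sq] at this
      _ = 2 ^ (Fintype.card J) * (2 * (2 * K * Real.exp 1) ^ K) * A ^ K := by
          have e6 : t ^ 2 * A / 2 = K := by rw [ht2]; field_simp
          rw [e6, pow_mul t, ht2, ← Real.exp_one_pow K]
          rw [pow_mul, div_pow, mul_pow (2 * (K : ℝ)) (Real.exp 1)]
          field_simp
          ring_nf
          rw [show (4 : ℝ) ^ K = 2 ^ (K * 2) by rw [mul_comm K, pow_mul]; norm_num]

theorem power_mean (a : J → ℝ) {K : ℕ} (hK : 0 < K) :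
    (∑ j, a j ^ 2) ^ K ≤ (Fintype.card J : ℝ) ^ (K - 1) * ∑ j, a j ^ (2 * K) := by
  obtain ⟨k, rfl⟩ : ∃ k, K = k + 1 := ⟨K - 1, by omega⟩
  have h := pow_sum_div_card_le_sum_pow (s := (Finset.univ : Finset J)) (f := fun j => a j ^ 2)
    (fun j _ => sq_nonneg _) k
  rw [Finset.card_univ] at h
  simp only [Nat.add_sub_cancel]
  simp only [← pow_mul] at h
  rcases Nat.eq_zero_or_pos (Fintype.card J) with h0 | h0
  · have := Fintype.card_eq_zero_iff.1 h0
    simp
  · rw [div_le_iff₀ (by positivity)] at h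
    linarith

/-- the constant of the Khintchine inequality -/
noncomputable def ck (r : ℕ) : ℝ := 2 * (2 * (2 ^ r : ℕ) * Real.exp 1) ^ (2 ^ r)

theorem khin (r : ℕ) (H : J → Matrix ι ι ℂ) :
    ∑ ε : J → Bool, pw (2 ^ r) (ssum H ε) ≤
      2 ^ (Fintype.card J) * ck r * ((Fintype.card J : ℝ) ^ (2 ^ r - 1) * ∑ j, pw (2 ^ r) (H j)) := by
  refine (khin_scalar r H).trans ?_
  have h1 := scalar_moment (fun j => nm r (H j)) (K := 2 ^ r) (by positivity)
  rw [show 2 ^ (r + 1) = 2 * 2 ^ r by ring]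
  refine h1.trans ?_
  have h2 := power_mean (fun j => nm r (H j)) (K := 2 ^ r) (by positivity)
  unfold ck
  refine mul_le_mul_of_nonneg_left (h2.trans_eq ?_) (by positivity)
  congr 1
  refine Finset.sum_congr rfl fun j _ => ?_
  rw [show 2 * 2 ^ r = 2 ^ (r + 1) by ring, nm_pow]

end TH364.SG
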