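import Mathlib
import Pool.Agent.TH364.SG.Khin
set_option autoImplicit false
set_option linter.unusedSectionVars false

/-! The smoothing and telescoping inequality on a finite abelian group. -/

namespace TH364.SG

open Matrix Finset
open scoped ComplexOrder

universe u v
variable {ι : Type u} [Fintype ι] [DecidableEq ι] {J : Type v} [Fintype J] [DecidableEq J]

/-- integer sign -/
def sgz (b : Bool) : ℤ := bif b then 1 else -1

theorem sg_eq (b : Bool) : sg b = ((sgz b : ℤ) : ℝ) := by cases b <;> simp [sg, sgz]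

/-- flip one coordinate -/
def flp (j : J) (ε : J → Bool) : J → Bool := Function.update ε j (!ε j)

theorem flp_same (j : J) (ε : J → Bool) : flp j ε j = !ε j := by simp [flp]

theorem flp_ne {j k : J} (h : k ≠ j) (ε : J → Bool) : flp j ε k = ε k := by
  simp [flp, Function.update_of_ne h]

theorem flp_flp (j : J) (ε : J → Bool) : flp j (flp j ε) = ε := by
  funext k
  by_cases h : k = j
  · subst h; simp [flp_same]
  · rw [flp_ne h, flp_ne h]

/-- the flip as an equivalence -/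
def flpE (j : J) : (J → Bool) ≃ (J → Bool) := ⟨flp j, flp j, flp_flp j, flp_flp j⟩

section group
variable {Γ : Type*} [AddCommGroup Γ] (e : J → Γ)

/-- full shift -/
def sft (ε : J → Bool) : Γ := ∑ k, sgz (ε k) • e k

/-- shift without coordinate `j` -/
def sfj (j : J) (ε : J → Bool) : Γ := ∑ k, (if k = j then 0 else sgz (ε k)) • e k

theorem sft_eq (j : J) (ε : J → Bool) : sft e ε = sfj e j ε + sgz (ε j) • e j := by
  unfold sft sfj
  have h : sgz (ε j) • e j = ∑ k, (if k = j then sgz (ε j) • e j else 0) := by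
    rw [Finset.sum_ite_eq' Finset.univ j]; simp
  rw [h, ← Finset.sum_add_distrib]
  refine Finset.sum_congr rfl fun k _ => ?_
  split_ifs with hk
  · subst hk; simp
  · simp

theorem sfj_flp (j : J) (ε : J → Bool) : sfj e j (flp j ε) = sfj e j ε := by
  unfold sfj
  refine Finset.sum_congr rfl fun k _ => ?_
  split_ifs with hk
  · rfl
  · rw [flp_ne hk]

variable {M : Type*} [AddCommGroup M] [Module ℝ M]

theorem flip_pair (j : J) (V : Γ → M) (y : Γ) (ε : J → Bool) :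
    V (y + e j + sfj e j ε) - V (y - e j + sfj e j ε) =
      sg (ε j) • V (y + sft e ε) + sg (flp j ε j) • V (y + sft e (flp j ε)) := by
  rw [sft_eq e j ε, sft_eq e j (flp j ε), sfj_flp, flp_same]
  cases h : ε j
  · simp only [sg, sgz, Bool.not_false, cond_true, cond_false, one_smul, neg_smul]
    rw [show y + (sfj e j ε + -e j) = y - e j + sfj e j ε by abel,
      show y + (sfj e j ε + e j) = y + e j + sfj e j ε by abel]
    abel
  · simp only [sg, sgz, Bool.not_true, cond_true, cond_false, one_smul, neg_smul]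
    rw [show y + (sfj e j ε + -e j) = y - e j + sfj e j ε by abel,
      show y + (sfj e j ε + e j) = y + e j + sfj e j ε by abel]
    abel

theorem flip_sum (j : J) (V : Γ → M) (y : Γ) :
    ∑ ε : J → Bool, (V (y + e j + sfj e j ε) - V (y - e j + sfj e j ε)) =
      ∑ ε : J → Bool, (2 * sg (ε j)) • (V (y + sft e ε) - V y) := by
  have h1 : ∑ ε : J → Bool, sg (flp j ε j) • V (y + sft e (flp j ε))
      = ∑ ε : J → Bool, sg (ε j) • V (y + sft e ε) :=
    Equiv.sum_comp (flpE j) (fun ε => sg (ε j) • V (y + sft e ε))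
  have h2 : ∑ ε : J → Bool, sg (ε j) • V y = 0 := by
    have h3 : ∑ ε : J → Bool, sg (flp j ε j) • V y = ∑ ε : J → Bool, sg (ε j) • V y :=
      Equiv.sum_comp (flpE j) (fun ε => sg (ε j) • V y)
    have h4 : ∑ ε : J → Bool, sg (flp j ε j) • V y = - ∑ ε : J → Bool, sg (ε j) • V y := by
      rw [← Finset.sum_neg_distrib]
      refine Finset.sum_congr rfl fun ε _ => ?_
      rw [flp_same, sg_not, neg_smul]
    rw [h4] at h3
    have h5 : (2 : ℝ) • (∑ ε : J → Bool, sg (ε j) • V y) = 0 := by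
      rw [two_smul]
      nth_rewrite 1 [← h3]
      exact neg_add_cancel _
    exact (smul_eq_zero.1 h5).resolve_left (by norm_num)
  simp only [flip_pair]
  rw [Finset.sum_add_distrib, h1]
  simp only [smul_sub, Finset.sum_sub_distrib, mul_smul]
  rw [← Finset.smul_sum, ← Finset.smul_sum, h2, smul_zero, sub_zero, two_smul]

theorem telescope (j : J) (V : Γ → M) (x : Γ) (l : ℕ) :
    ∑ ε : J → Bool, (V (x + (2 * l) • e j + sfj e j ε) - V (x + sfj e j ε)) =
      ∑ m ∈ Finset.range l, ∑ ε : J → Bool,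
        (2 * sg (ε j)) • (V (x + (2 * m + 1) • e j + sft e ε) - V (x + (2 * m + 1) • e j)) := by
  rw [Finset.sum_comm]
  have h1 : ∀ m : ℕ, ∑ ε : J → Bool, (2 * sg (ε j)) •
      (V (x + (2 * m + 1) • e j + sft e ε) - V (x + (2 * m + 1) • e j)) =
      ∑ ε : J → Bool, (V (x + (2 * (m + 1)) • e j + sfj e j ε) - V (x + (2 * m) • e j + sfj e j ε)) := by
    intro m
    rw [← flip_sum]
    refine Finset.sum_congr rfl fun ε _ => ?_
    congr 2
    · rw [show 2 * (m + 1) = (2 * m + 1) + 1 by ring, add_smul (2 * m + 1), one_smul]; abel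
    · rw [add_smul (2 * m), one_smul]; abel
  rw [Finset.sum_comm]
  simp only [h1]
  rw [Finset.sum_comm]
  refine Finset.sum_congr rfl fun ε _ => ?_
  rw [Finset.sum_range_sub (fun m => V (x + (2 * m) • e j + sfj e j ε))]
  simp

end group

theorem whol {α : Type*} (s : Finset α) (w N E : α → ℝ) (hw : ∀ a, 0 ≤ w a) (hN : ∀ a, 0 ≤ N a)
    (hE : ∀ a, 0 ≤ E a) {P : ℕ} (hP : 2 ≤ P) :
    ∑ a ∈ s, w a * (N a * E a ^ (1 - (P : ℝ)⁻¹)) ≤
      (∑ a ∈ s, w a * N a ^ P) ^ ((P : ℝ)⁻¹) * (∑ a ∈ s, w a * E a) ^ (1 - (P : ℝ)⁻¹) := by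
  have hP1 : (1 : ℝ) < P := by exact_mod_cast hP
  have hP0 : (0 : ℝ) < P := by linarith
  have hβ : 0 < 1 - (P : ℝ)⁻¹ := by
    have := inv_lt_one_of_one_lt₀ hP1
    linarith
  have hc := Real.HolderConjugate.conjExponent hP1
  have hq : (Real.conjExponent (P : ℝ)) = (1 - (P : ℝ)⁻¹)⁻¹ := by
    unfold Real.conjExponent
    rw [eq_comm, inv_eq_iff_eq_inv, inv_div]
    field_simp
  have h := Real.inner_le_Lp_mul_Lq_of_nonneg s hc
    (f := fun a => w a ^ ((P : ℝ)⁻¹) * N a) (g := fun a => (w a * E a) ^ (1 - (P : ℝ)⁻¹))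
    (fun a _ => mul_nonneg (Real.rpow_nonneg (hw a) _) (hN a))
    (fun a _ => Real.rpow_nonneg (mul_nonneg (hw a) (hE a)) _)
  have e1 : ∀ a, w a ^ ((P : ℝ)⁻¹) * N a * (w a * E a) ^ (1 - (P : ℝ)⁻¹) =
      w a * (N a * E a ^ (1 - (P : ℝ)⁻¹)) := by
    intro a
    rw [Real.mul_rpow (hw a) (hE a)]
    have : w a ^ ((P : ℝ)⁻¹) * w a ^ (1 - (P : ℝ)⁻¹) = w a := by
      rcases (hw a).eq_or_lt with h0 | h0
      · rw [← h0, Real.zero_rpow (by positivity)]; simp
      · rw [← Real.rpow_add h0]; simp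
    calc _ = (w a ^ ((P : ℝ)⁻¹) * w a ^ (1 - (P : ℝ)⁻¹)) * (N a * E a ^ (1 - (P : ℝ)⁻¹)) := by ring
      _ = _ := by rw [this]
  have e2 : ∀ a, (w a ^ ((P : ℝ)⁻¹) * N a) ^ (P : ℝ) = w a * N a ^ P := by
    intro a
    rw [Real.mul_rpow (Real.rpow_nonneg (hw a) _) (hN a), ← Real.rpow_mul (hw a),
      inv_mul_cancel₀ hP0.ne', Real.rpow_one, Real.rpow_natCast]
  have e3 : ∀ a, ((w a * E a) ^ (1 - (P : ℝ)⁻¹)) ^ (Real.conjExponent (P : ℝ)) = w a * E a := by
    intro a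
    rw [hq, ← Real.rpow_mul (mul_nonneg (hw a) (hE a)), mul_inv_cancel₀ hβ.ne', Real.rpow_one]
  simp only [e1, e2, e3] at h
  rw [one_div, hq, one_div, inv_inv] at h
  exact h

section main
variable {Γ : Type*} [AddCommGroup Γ] [Fintype Γ] (e : J → Γ)

/-- two points which differ by a combination of the `e j` with coefficients in {-1,0,1} -/
def near (e : J → Γ) (x y : Γ) : Prop :=
  ∃ c : J → ℤ, (∀ j, |c j| ≤ 1) ∧ x = y + ∑ j, c j • e j

theorem sgz_abs (b : Bool) : |sgz b| ≤ 1 := by cases b <;> simp [sgz]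

theorem near_sft (y : Γ) (ε : J → Bool) : near e (y + sft e ε) y :=
  ⟨fun j => sgz (ε j), fun j => sgz_abs _, rfl⟩

theorem near_sfj (y : Γ) (j : J) (ε : J → Bool) : near e (y + sfj e j ε) y :=
  ⟨fun k => if k = j then 0 else sgz (ε k), fun k => by
    dsimp only; split_ifs
    · simp
    · exact sgz_abs _, rfl⟩

theorem near_symm {x y : Γ} (h : near e x y) : near e y x := by
  obtain ⟨c, hc, rfl⟩ := h
  refine ⟨fun j => - c j, fun j => by rw [abs_neg]; exact hc j, ?_⟩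
  simp only [neg_smul, Finset.sum_neg_distrib]
  abel

variable {e}
variable {r M : ℕ} {w : ℕ → ℝ} (hw : ∀ i, 0 ≤ w i)
  {H : ℕ → J → Γ → Matrix ι ι ℂ} {V : ℕ → Γ → Matrix ι ι ℂ} {E : ℕ → Γ → Γ → ℝ}
  (hE : ∀ i x y, 0 ≤ E i x y)
  (hloc : ∀ i Z x y, ‖(Z * (V i x - V i y)).trace‖ ≤
    nm r Z * (E i x y) ^ (1 - (((2 ^ (r + 1) : ℕ) : ℝ))⁻¹))
  {κ h : ℝ} (h0 : 0 ≤ h) (κ0 : 0 ≤ κ)
  (hκ : ∀ x y, near e x y → ∑ i ∈ Finset.range M, w i * E i x y ≤ κ)
  (hh : ∀ j x, ∑ i ∈ Finset.range M, w i * pw (2 ^ r) (H i j x) ≤ h)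

include hw hE hloc h0 κ0 hκ hh

theorem end_bound (Y Y' : J → (J → Bool) → Γ → Γ) (hY : ∀ j ε x, near e (Y j ε x) (Y' j ε x)) :
    ‖∑ i ∈ Finset.range M, (w i : ℂ) * ∑ x, ∑ j, ∑ ε : J → Bool,
      (H i j x * (V i (Y j ε x) - V i (Y' j ε x))).trace‖ ≤
    (Fintype.card Γ : ℝ) * Fintype.card J * 2 ^ (Fintype.card J) *
      (h ^ ((((2 ^ (r + 1) : ℕ) : ℝ))⁻¹) * κ ^ (1 - (((2 ^ (r + 1) : ℕ) : ℝ))⁻¹)) := by
  have h1 : ∀ i ∈ Finset.range M, ‖(w i : ℂ) * ∑ x, ∑ j, ∑ ε : J → Bool,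
      (H i j x * (V i (Y j ε x) - V i (Y' j ε x))).trace‖ ≤
      ∑ x, ∑ j, ∑ ε : J → Bool, w i * (nm r (H i j x) *
        (E i (Y j ε x) (Y' j ε x)) ^ (1 - (((2 ^ (r + 1) : ℕ) : ℝ))⁻¹)) := by
    intro i _
    rw [norm_mul, Complex.norm_real, Real.norm_of_nonneg (hw i)]
    simp only [← Finset.mul_sum]
    refine mul_le_mul_of_nonneg_left ?_ (hw i)
    refine (norm_sum_le _ _).trans (Finset.sum_le_sum fun x _ => ?_)
    refine (norm_sum_le _ _).trans (Finset.sum_le_sum fun j _ => ?_)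
    refine (norm_sum_le _ _).trans ?_
    rw [Finset.mul_sum]
    exact Finset.sum_le_sum fun ε _ => hloc _ _ _ _
  refine (norm_sum_le _ _).trans ((Finset.sum_le_sum h1).trans ?_)
  rw [Finset.sum_comm]
  have h2 : ∀ x j, ∀ ε : J → Bool, ∑ i ∈ Finset.range M, w i * (nm r (H i j x) *
        (E i (Y j ε x) (Y' j ε x)) ^ (1 - (((2 ^ (r + 1) : ℕ) : ℝ))⁻¹)) ≤
      h ^ ((((2 ^ (r + 1) : ℕ) : ℝ))⁻¹) * κ ^ (1 - (((2 ^ (r + 1) : ℕ) : ℝ))⁻¹) := by
    intro x j ε
    have hP : 2 ≤ 2 ^ (r + 1) := by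
      rw [pow_succ]; have := Nat.one_le_two_pow (n := r); omega
    refine (whol (Finset.range M) w (fun i => nm r (H i j x)) (fun i => E i (Y j ε x) (Y' j ε x)) hw
      (fun i => nm_nonneg _ _) (fun i => hE _ _ _) hP).trans ?_
    simp only [nm_pow]
    have hβ : 0 ≤ 1 - (((2 ^ (r + 1) : ℕ) : ℝ))⁻¹ := by
      have : (((2 ^ (r + 1) : ℕ) : ℝ))⁻¹ ≤ 1 := by
        apply inv_le_one_of_one_le₀
        exact_mod_cast Nat.one_le_two_pow
      linarith
    exact mul_le_mul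
      (Real.rpow_le_rpow (Finset.sum_nonneg fun i _ => mul_nonneg (hw i) (pw_nonneg _ _))
        (hh j x) (by positivity))
      (Real.rpow_le_rpow (Finset.sum_nonneg fun i _ => mul_nonneg (hw i) (hE _ _ _))
        (hκ _ _ (hY j ε x)) hβ)
      (Real.rpow_nonneg (Finset.sum_nonneg fun i _ => mul_nonneg (hw i) (hE _ _ _)) _)
      (Real.rpow_nonneg h0 _)
  have h3 : ∀ x, ∑ i ∈ Finset.range M, ∑ j, ∑ ε : J → Bool, w i * (nm r (H i j x) *
        (E i (Y j ε x) (Y' j ε x)) ^ (1 - (((2 ^ (r + 1) : ℕ) : ℝ))⁻¹)) ≤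
      Fintype.card J * (2 ^ (Fintype.card J) * (h ^ ((((2 ^ (r + 1) : ℕ) : ℝ))⁻¹) *
        κ ^ (1 - (((2 ^ (r + 1) : ℕ) : ℝ))⁻¹))) := by
    intro x
    rw [Finset.sum_comm]
    refine (Finset.sum_le_card_nsmul _ _ (2 ^ (Fintype.card J) *
      (h ^ ((((2 ^ (r + 1) : ℕ) : ℝ))⁻¹) * κ ^ (1 - (((2 ^ (r + 1) : ℕ) : ℝ))⁻¹))) fun j _ => ?_).trans_eq ?_
    · rw [Finset.sum_comm]
      refine (Finset.sum_le_card_nsmul _ _ _ fun ε _ => h2 x j ε).trans_eq ?_
      rw [Finset.card_univ, Fintype.card_fun, Fintype.card_bool, nsmul_eq_mul]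
      push_cast; rfl
    · rw [Finset.card_univ, nsmul_eq_mul]
  refine (Finset.sum_le_card_nsmul _ _ _ fun x _ => h3 x).trans_eq ?_
  rw [Finset.card_univ, nsmul_eq_mul]
  ring

theorem mid_bound (Y : J → Γ → Γ) (hY : ∀ j, Function.Bijective (Y j)) :
    ‖∑ i ∈ Finset.range M, (w i : ℂ) * ∑ y, ∑ ε : J → Bool,
      (ssum (fun j => H i j (Y j y)) ε * (V i (y + sft e ε) - V i y)).trace‖ ≤
    (Fintype.card Γ : ℝ) * 2 ^ (Fintype.card J) *
      (ck r * (Fintype.card J : ℝ) ^ (2 ^ r)) ^ ((((2 ^ (r + 1) : ℕ) : ℝ))⁻¹) *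
      (h ^ ((((2 ^ (r + 1) : ℕ) : ℝ))⁻¹) * κ ^ (1 - (((2 ^ (r + 1) : ℕ) : ℝ))⁻¹)) := by
  have hP : 2 ≤ 2 ^ (r + 1) := by
    rw [pow_succ]; have := Nat.one_le_two_pow (n := r); omega
  have hP1 : (((2 ^ (r + 1) : ℕ) : ℝ))⁻¹ ≤ 1 := by
    apply inv_le_one_of_one_le₀
    exact_mod_cast Nat.one_le_two_pow
  have hβ : 0 ≤ 1 - (((2 ^ (r + 1) : ℕ) : ℝ))⁻¹ := by linarith
  have hα : 0 ≤ (((2 ^ (r + 1) : ℕ) : ℝ))⁻¹ := by positivity
  have h1 : ∀ i ∈ Finset.range M, ‖(w i : ℂ) * ∑ y, ∑ ε : J → Bool,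
      (ssum (fun j => H i j (Y j y)) ε * (V i (y + sft e ε) - V i y)).trace‖ ≤
      ∑ q ∈ (Finset.univ : Finset (Γ × (J → Bool))), w i * (nm r (ssum (fun j => H i j (Y j q.1)) q.2) *
        (E i (q.1 + sft e q.2) q.1) ^ (1 - (((2 ^ (r + 1) : ℕ) : ℝ))⁻¹)) := by
    intro i _
    rw [norm_mul, Complex.norm_real, Real.norm_of_nonneg (hw i), Fintype.sum_prod_type]
    simp only [← Finset.mul_sum]
    refine mul_le_mul_of_nonneg_left ?_ (hw i)
    refine (norm_sum_le _ _).trans (Finset.sum_le_sum fun y _ => ?_)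
    refine (norm_sum_le _ _).trans (Finset.sum_le_sum fun ε _ => ?_)
    exact hloc _ _ _ _
  refine (norm_sum_le _ _).trans ((Finset.sum_le_sum h1).trans ?_)
  rw [← Finset.sum_product']
  refine (whol _ (fun p : ℕ × (Γ × (J → Bool)) => w p.1)
    (fun p => nm r (ssum (fun j => H p.1 j (Y j p.2.1)) p.2.2))
    (fun p => E p.1 (p.2.1 + sft e p.2.2) p.2.1) (fun p => hw _) (fun p => nm_nonneg _ _)
    (fun p => hE _ _ _) hP).trans ?_
  simp only [nm_pow]
  have hA : ∑ p ∈ Finset.range M ×ˢ (Finset.univ : Finset (Γ × (J → Bool))),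
      w p.1 * pw (2 ^ r) (ssum (fun j => H p.1 j (Y j p.2.1)) p.2.2) ≤
      (Fintype.card Γ : ℝ) * 2 ^ (Fintype.card J) * (ck r * (Fintype.card J : ℝ) ^ (2 ^ r)) * h := by
    rw [Finset.sum_product]
    have a1 : ∀ i ∈ Finset.range M, ∑ q : Γ × (J → Bool),
        w i * pw (2 ^ r) (ssum (fun j => H i j (Y j q.1)) q.2) ≤
        2 ^ (Fintype.card J) * ck r * ((Fintype.card J : ℝ) ^ (2 ^ r - 1) *
          ∑ j, ∑ x, w i * pw (2 ^ r) (H i j x)) := by
      intro i _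
      rw [Fintype.sum_prod_type]
      simp only [← Finset.mul_sum]
      have a2 : ∑ y, ∑ ε : J → Bool, pw (2 ^ r) (ssum (fun j => H i j (Y j y)) ε) ≤
          ∑ y, 2 ^ (Fintype.card J) * ck r * ((Fintype.card J : ℝ) ^ (2 ^ r - 1) *
            ∑ j, pw (2 ^ r) (H i j (Y j y))) := Finset.sum_le_sum fun y _ => khin r _
      have a3 : ∀ j, ∑ y, pw (2 ^ r) (H i j (Y j y)) = ∑ x, pw (2 ^ r) (H i j x) := fun j =>
        Equiv.sum_comp (Equiv.ofBijective (Y j) (hY j)) (fun x => pw (2 ^ r) (H i j x))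
      have a5 : ∑ y, ∑ j, pw (2 ^ r) (H i j (Y j y)) = ∑ j, ∑ x, pw (2 ^ r) (H i j x) := by
        rw [Finset.sum_comm]
        exact Finset.sum_congr rfl fun j _ => a3 j
      rw [← Finset.mul_sum, ← Finset.mul_sum, a5] at a2
      calc _ ≤ w i * (2 ^ (Fintype.card J) * ck r * ((Fintype.card J : ℝ) ^ (2 ^ r - 1) *
            ∑ j, ∑ x, pw (2 ^ r) (H i j x))) := mul_le_mul_of_nonneg_left a2 (hw i)
        _ = _ := by ring
    refine (Finset.sum_le_sum a1).trans ?_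
    rw [← Finset.mul_sum, ← Finset.mul_sum]
    have a4 : ∑ i ∈ Finset.range M, ∑ j, ∑ x, w i * pw (2 ^ r) (H i j x) ≤
        Fintype.card J * (Fintype.card Γ * h) := by
      rw [Finset.sum_comm]
      refine (Finset.sum_le_card_nsmul _ _ (Fintype.card Γ * h) fun j _ => ?_).trans_eq ?_
      · rw [Finset.sum_comm]
        refine (Finset.sum_le_card_nsmul _ _ _ fun x _ => hh j x).trans_eq ?_
        rw [Finset.card_univ, nsmul_eq_mul]
      · rw [Finset.card_univ, nsmul_eq_mul]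
    have hc : 0 ≤ ck r := by unfold ck; positivity
    calc _ ≤ 2 ^ (Fintype.card J) * ck r * ((Fintype.card J : ℝ) ^ (2 ^ r - 1) *
          (Fintype.card J * (Fintype.card Γ * h))) :=
          mul_le_mul_of_nonneg_left (mul_le_mul_of_nonneg_left a4 (by positivity)) (by positivity)
      _ = _ := by
        have : (Fintype.card J : ℝ) ^ (2 ^ r) = (Fintype.card J : ℝ) ^ (2 ^ r - 1) * Fintype.card J := by
          rw [← pow_succ, Nat.sub_add_cancel Nat.one_le_two_pow]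
        rw [this]; ring
  have hB : ∑ p ∈ Finset.range M ×ˢ (Finset.univ : Finset (Γ × (J → Bool))),
      w p.1 * E p.1 (p.2.1 + sft e p.2.2) p.2.1 ≤
      (Fintype.card Γ : ℝ) * 2 ^ (Fintype.card J) * κ := by
    rw [Finset.sum_product, Finset.sum_comm]
    refine (Finset.sum_le_card_nsmul _ _ _ fun (q : Γ × (J → Bool)) _ =>
      hκ _ _ (near_sft e q.1 q.2)).trans_eq ?_
    rw [Finset.card_univ, Fintype.card_prod, Fintype.card_fun, Fintype.card_bool, nsmul_eq_mul]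
    push_cast; ring
  have hc : 0 ≤ ck r := by unfold ck; positivity
  refine (mul_le_mul
    (Real.rpow_le_rpow (Finset.sum_nonneg fun i _ => mul_nonneg (hw _) (pw_nonneg _ _)) hA hα)
    (Real.rpow_le_rpow (Finset.sum_nonneg fun i _ => mul_nonneg (hw _) (hE _ _ _)) hB hβ)
    (Real.rpow_nonneg (Finset.sum_nonneg fun i _ => mul_nonneg (hw _) (hE _ _ _)) _)
    (Real.rpow_nonneg (by positivity) _)).trans_eq ?_
  have hG : (0 : ℝ) < (Fintype.card Γ : ℝ) * 2 ^ (Fintype.card J) := by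
    have : 0 < Fintype.card Γ := Fintype.card_pos_iff.2 ⟨0⟩
    positivity
  rw [Real.mul_rpow (by positivity) h0, Real.mul_rpow hG.le (by positivity), Real.mul_rpow hG.le κ0]
  have hGG : ((Fintype.card Γ : ℝ) * 2 ^ (Fintype.card J)) ^ ((((2 ^ (r + 1) : ℕ) : ℝ))⁻¹) *
      ((Fintype.card Γ : ℝ) * 2 ^ (Fintype.card J)) ^ (1 - (((2 ^ (r + 1) : ℕ) : ℝ))⁻¹) =
      (Fintype.card Γ : ℝ) * 2 ^ (Fintype.card J) := by
    rw [← Real.rpow_add hG]; simp
  calc _ = (((Fintype.card Γ : ℝ) * 2 ^ (Fintype.card J)) ^ ((((2 ^ (r + 1) : ℕ) : ℝ))⁻¹) *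
      ((Fintype.card Γ : ℝ) * 2 ^ (Fintype.card J)) ^ (1 - (((2 ^ (r + 1) : ℕ) : ℝ))⁻¹)) *
      (ck r * (Fintype.card J : ℝ) ^ (2 ^ r)) ^ ((((2 ^ (r + 1) : ℕ) : ℝ))⁻¹) *
      (h ^ ((((2 ^ (r + 1) : ℕ) : ℝ))⁻¹) * κ ^ (1 - (((2 ^ (r + 1) : ℕ) : ℝ))⁻¹)) := by ring
    _ = _ := by rw [hGG]

theorem mc (l : ℕ) :
    ‖∑ i ∈ Finset.range M, (w i : ℂ) * ∑ x, ∑ j,
      (H i j x * (V i (x + (2 * l) • e j) - V i x)).trace‖ ≤
    (Fintype.card Γ : ℝ) * (2 * Fintype.card J + 2 * l *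
      (ck r * (Fintype.card J : ℝ) ^ (2 ^ r)) ^ ((((2 ^ (r + 1) : ℕ) : ℝ))⁻¹)) *
      (h ^ ((((2 ^ (r + 1) : ℕ) : ℝ))⁻¹) * κ ^ (1 - (((2 ^ (r + 1) : ℕ) : ℝ))⁻¹)) := by
  set B := h ^ ((((2 ^ (r + 1) : ℕ) : ℝ))⁻¹) * κ ^ (1 - (((2 ^ (r + 1) : ℕ) : ℝ))⁻¹) with hB
  set C := (ck r * (Fintype.card J : ℝ) ^ (2 ^ r)) ^ ((((2 ^ (r + 1) : ℕ) : ℝ))⁻¹) with hC
  -- the three parts
  have s1 := end_bound hw hE hloc h0 κ0 hκ hh (fun j _ x => x + (2 * l) • e j)
    (fun j ε x => x + (2 * l) • e j + sfj e j ε)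
    (fun j ε x => near_symm e (near_sfj e _ j ε))
  have s2 := end_bound hw hE hloc h0 κ0 hκ hh (fun j ε x => x + sfj e j ε)
    (fun j _ x => x) (fun j ε x => near_sfj e _ j ε)
  have s3 : ∀ m : ℕ, _ := fun m => mid_bound hw hE hloc h0 κ0 hκ hh
    (fun j y => y - (2 * m + 1) • e j) (fun j => (Equiv.subRight ((2 * m + 1) • e j)).bijective)
  -- the decomposition
  have d1 : ∀ i, (2 ^ (Fintype.card J) : ℂ) * ∑ x, ∑ j,
      (H i j x * (V i (x + (2 * l) • e j) - V i x)).trace =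
      (∑ x, ∑ j, ∑ ε : J → Bool,
        (H i j x * (V i (x + (2 * l) • e j) - V i (x + (2 * l) • e j + sfj e j ε))).trace) +
      (∑ x, ∑ j, ∑ ε : J → Bool, (H i j x * (V i (x + sfj e j ε) - V i x)).trace) +
      ∑ x, ∑ j, ∑ ε : J → Bool,
        (H i j x * (V i (x + (2 * l) • e j + sfj e j ε) - V i (x + sfj e j ε))).trace := by
    intro i
    rw [← Finset.sum_add_distrib, ← Finset.sum_add_distrib, Finset.mul_sum]
    refine Finset.sum_congr rfl fun x _ => ?_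
    rw [← Finset.sum_add_distrib, ← Finset.sum_add_distrib, Finset.mul_sum]
    refine Finset.sum_congr rfl fun j _ => ?_
    rw [← Finset.sum_add_distrib, ← Finset.sum_add_distrib]
    have : ∀ ε : J → Bool,
        (H i j x * (V i (x + (2 * l) • e j) - V i (x + (2 * l) • e j + sfj e j ε))).trace +
        (H i j x * (V i (x + sfj e j ε) - V i x)).trace +
        (H i j x * (V i (x + (2 * l) • e j + sfj e j ε) - V i (x + sfj e j ε))).trace =
        (H i j x * (V i (x + (2 * l) • e j) - V i x)).trace := by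
      intro ε
      rw [← Matrix.trace_add, ← Matrix.mul_add, ← Matrix.trace_add, ← Matrix.mul_add]
      congr 2
      abel
    simp only [this]
    rw [Finset.sum_const, Finset.card_univ, Fintype.card_fun, Fintype.card_bool, nsmul_eq_mul]
    push_cast; rfl
  have d2 : ∀ i, ∑ x, ∑ j, ∑ ε : J → Bool,
        (H i j x * (V i (x + (2 * l) • e j + sfj e j ε) - V i (x + sfj e j ε))).trace =
      2 * ∑ m ∈ Finset.range l, ∑ y, ∑ ε : J → Bool,
        (ssum (fun j => H i j (y - (2 * m + 1) • e j)) ε * (V i (y + sft e ε) - V i y)).trace := by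
    intro i
    have t1 : ∀ x j, ∑ ε : J → Bool,
        (H i j x * (V i (x + (2 * l) • e j + sfj e j ε) - V i (x + sfj e j ε))).trace =
        ∑ m ∈ Finset.range l, ∑ ε : J → Bool, (2 * ((sg (ε j) : ℝ) : ℂ)) *
          (H i j x * (V i (x + (2 * m + 1) • e j + sft e ε) - V i (x + (2 * m + 1) • e j))).trace := by
      intro x j
      rw [← Matrix.trace_sum, ← Matrix.mul_sum, telescope e j (V i) x l, Matrix.mul_sum,
        Matrix.trace_sum]
      refine Finset.sum_congr rfl fun m _ => ?_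
      rw [Matrix.mul_sum, Matrix.trace_sum]
      refine Finset.sum_congr rfl fun ε _ => ?_
      rw [Matrix.mul_smul, Matrix.trace_smul, Complex.real_smul]
      push_cast; rfl
    simp only [t1]
    have t2 : ∑ x, ∑ j, ∑ m ∈ Finset.range l, ∑ ε : J → Bool, (2 * ((sg (ε j) : ℝ) : ℂ)) *
          (H i j x * (V i (x + (2 * m + 1) • e j + sft e ε) - V i (x + (2 * m + 1) • e j))).trace =
        ∑ m ∈ Finset.range l, ∑ j, ∑ x, ∑ ε : J → Bool, (2 * ((sg (ε j) : ℝ) : ℂ)) *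
          (H i j x * (V i (x + (2 * m + 1) • e j + sft e ε) - V i (x + (2 * m + 1) • e j))).trace := by
      rw [Finset.sum_comm]
      rw [Finset.sum_comm (s := Finset.range l)]
      refine Finset.sum_congr rfl fun j _ => ?_
      rw [Finset.sum_comm]
    rw [t2, Finset.mul_sum]
    refine Finset.sum_congr rfl fun m _ => ?_
    have t3 : ∀ j, ∑ x, ∑ ε : J → Bool, (2 * ((sg (ε j) : ℝ) : ℂ)) *
          (H i j x * (V i (x + (2 * m + 1) • e j + sft e ε) - V i (x + (2 * m + 1) • e j))).trace =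
        ∑ y, ∑ ε : J → Bool, (2 * ((sg (ε j) : ℝ) : ℂ)) *
          (H i j (y - (2 * m + 1) • e j) * (V i (y + sft e ε) - V i y)).trace := by
      intro j
      rw [← Equiv.sum_comp (Equiv.subRight ((2 * m + 1) • e j))]
      refine Finset.sum_congr rfl fun y _ => ?_
      refine Finset.sum_congr rfl fun ε _ => ?_
      simp only [Equiv.subRight_apply, sub_add_cancel]
    simp only [t3]
    rw [Finset.sum_comm, Finset.mul_sum]
    refine Finset.sum_congr rfl fun y _ => ?_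
    rw [Finset.sum_comm, Finset.mul_sum]
    refine Finset.sum_congr rfl fun ε _ => ?_
    unfold ssum
    rw [Matrix.sum_mul, Matrix.trace_sum, Finset.mul_sum]
    refine Finset.sum_congr rfl fun j _ => ?_
    rw [Matrix.smul_mul, Matrix.trace_smul, smul_eq_mul]
    ring
  have d3 : (2 ^ (Fintype.card J) : ℂ) * ∑ i ∈ Finset.range M, (w i : ℂ) * ∑ x, ∑ j,
      (H i j x * (V i (x + (2 * l) • e j) - V i x)).trace =
      (∑ i ∈ Finset.range M, (w i : ℂ) * ∑ x, ∑ j, ∑ ε : J → Bool,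
        (H i j x * (V i (x + (2 * l) • e j) - V i (x + (2 * l) • e j + sfj e j ε))).trace) +
      (∑ i ∈ Finset.range M, (w i : ℂ) * ∑ x, ∑ j, ∑ ε : J → Bool,
        (H i j x * (V i (x + sfj e j ε) - V i x)).trace) +
      ∑ m ∈ Finset.range l, 2 * ∑ i ∈ Finset.range M, (w i : ℂ) * ∑ y, ∑ ε : J → Bool,
        (ssum (fun j => H i j (y - (2 * m + 1) • e j)) ε * (V i (y + sft e ε) - V i y)).trace := by
    rw [← Finset.sum_add_distrib, Finset.mul_sum]
    have t4 : ∑ m ∈ Finset.range l, 2 * ∑ i ∈ Finset.range M, (w i : ℂ) * ∑ y, ∑ ε : J → Bool,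
        (ssum (fun j => H i j (y - (2 * m + 1) • e j)) ε * (V i (y + sft e ε) - V i y)).trace =
        ∑ i ∈ Finset.range M, (w i : ℂ) * (2 * ∑ m ∈ Finset.range l, ∑ y, ∑ ε : J → Bool,
        (ssum (fun j => H i j (y - (2 * m + 1) • e j)) ε * (V i (y + sft e ε) - V i y)).trace) := by
      simp only [Finset.mul_sum]
      rw [Finset.sum_comm]
      refine Finset.sum_congr rfl fun i _ => ?_
      refine Finset.sum_congr rfl fun m _ => ?_
      refine Finset.sum_congr rfl fun y _ => ?_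
      refine Finset.sum_congr rfl fun ε _ => ?_
      ring
    rw [t4, ← Finset.sum_add_distrib]
    refine Finset.sum_congr rfl fun i _ => ?_
    rw [← d2 i, mul_left_comm, d1 i]
    ring
  have hG : (0 : ℝ) ≤ Fintype.card Γ := by positivity
  have hT : (0 : ℝ) < 2 ^ (Fintype.card J) := by positivity
  have n3 : ‖∑ m ∈ Finset.range l, 2 * ∑ i ∈ Finset.range M, (w i : ℂ) * ∑ y, ∑ ε : J → Bool,
        (ssum (fun j => H i j (y - (2 * m + 1) • e j)) ε * (V i (y + sft e ε) - V i y)).trace‖ ≤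
      l * (2 * ((Fintype.card Γ : ℝ) * 2 ^ (Fintype.card J) * C * B)) := by
    refine (norm_sum_le _ _).trans ?_
    refine (Finset.sum_le_card_nsmul _ _ (2 * ((Fintype.card Γ : ℝ) * 2 ^ (Fintype.card J) * C * B))
      fun m _ => ?_).trans_eq ?_
    · rw [norm_mul, Complex.norm_two]
      exact mul_le_mul_of_nonneg_left (s3 m) (by norm_num)
    · rw [Finset.card_range, nsmul_eq_mul]
  have n4 : ‖(2 ^ (Fintype.card J) : ℂ) * ∑ i ∈ Finset.range M, (w i : ℂ) * ∑ x, ∑ j,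
      (H i j x * (V i (x + (2 * l) • e j) - V i x)).trace‖ ≤
      (Fintype.card Γ : ℝ) * Fintype.card J * 2 ^ (Fintype.card J) * B +
      (Fintype.card Γ : ℝ) * Fintype.card J * 2 ^ (Fintype.card J) * B +
      l * (2 * ((Fintype.card Γ : ℝ) * 2 ^ (Fintype.card J) * C * B)) := by
    rw [d3]
    exact (norm_add_le _ _).trans (add_le_add ((norm_add_le _ _).trans (add_le_add s1 s2)) n3)
  rw [norm_mul, norm_pow, Complex.norm_two] at n4
  have n5 : (2 : ℝ) ^ (Fintype.card J) * ‖∑ i ∈ Finset.range M, (w i : ℂ) * ∑ x, ∑ j,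
      (H i j x * (V i (x + (2 * l) • e j) - V i x)).trace‖ ≤ 2 ^ (Fintype.card J) *
      ((Fintype.card Γ : ℝ) * (2 * Fintype.card J + 2 * l * C) * B) := by
    refine n4.trans_eq ?_
    ring
  exact le_of_mul_le_mul_left n5 hT

end main

end TH364.SG
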