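import Mathlib
import Pool.Agent.TH364.SG.MC
set_option autoImplicit false
set_option linter.unusedSectionVars false

/-! Failure of cotype `q` produces long families of almost normalised vectors with small
Rademacher average. -/

namespace TH364.SG

open Finset

universe u
variable {X : Type u} [NormedAddCommGroup X] [NormedSpace ℝ X]

/-- Rademacher sums -/
noncomputable def rs {J : Type*} [Fintype J] (y : J → X) (ε : J → Bool) : X := ∑ j, sg (ε j) • y j

/-- the average over signs of the q-th power -/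
noncomputable def rav {J : Type*} [Fintype J] [DecidableEq J] (q : ℝ) (y : J → X) : ℝ :=
  (2 ^ (Fintype.card J) : ℝ)⁻¹ * ∑ ε : J → Bool, ‖rs y ε‖ ^ q

theorem rav_nonneg {J : Type*} [Fintype J] [DecidableEq J] (q : ℝ) (y : J → X) : 0 ≤ rav q y := by
  unfold rav
  have : 0 ≤ ∑ ε : J → Bool, ‖rs y ε‖ ^ q :=
    Finset.sum_nonneg fun _ _ => Real.rpow_nonneg (norm_nonneg _) _
  positivity

theorem rpow_mid {q : ℝ} (hq : 1 ≤ q) {a b : ℝ} (ha : 0 ≤ a) (hb : 0 ≤ b) :
    ((a + b) / 2) ^ q ≤ (a ^ q + b ^ q) / 2 := by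
  have h := (convexOn_rpow hq).2 (Set.mem_Ici.2 ha) (Set.mem_Ici.2 hb)
    (show (0 : ℝ) ≤ 1 / 2 by norm_num) (show (0 : ℝ) ≤ 1 / 2 by norm_num) (by norm_num)
  simp only [smul_eq_mul] at h
  have e1 : (1 / 2 * a + 1 / 2 * b) = (a + b) / 2 := by ring
  rw [e1] at h
  linarith

variable {J : Type*} [Fintype J] [DecidableEq J]

/-- flip all coordinates outside `A` -/
def flo (A : Finset J) (ε : J → Bool) : J → Bool := fun j => if j ∈ A then ε j else !ε j

theorem flo_flo (A : Finset J) (ε : J → Bool) : flo A (flo A ε) = ε := by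
  funext j
  unfold flo
  split_ifs <;> simp

/-- contraction -/
theorem contraction {q : ℝ} (hq : 1 ≤ q) (y : J → X) (A : Finset J) :
    ∑ ε : J → Bool, ‖∑ j ∈ A, sg (ε j) • y j‖ ^ q ≤ ∑ ε : J → Bool, ‖rs y ε‖ ^ q := by
  have h1 : ∀ ε : J → Bool, ‖∑ j ∈ A, sg (ε j) • y j‖ ^ q ≤
      (‖rs y ε‖ ^ q + ‖rs y (flo A ε)‖ ^ q) / 2 := by
    intro ε
    have e : ∑ j ∈ A, sg (ε j) • y j = (1 / 2 : ℝ) • (rs y ε + rs y (flo A ε)) := by
      unfold rs
      rw [← Finset.sum_add_distrib, Finset.smul_sum, ← Finset.sum_subset (Finset.subset_univ A)]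
      · refine Finset.sum_congr rfl fun j hj => ?_
        unfold flo
        rw [if_pos hj, ← two_smul ℝ, smul_smul]
        norm_num
      · intro j _ hj
        unfold flo
        rw [if_neg hj, sg_not, neg_smul, add_neg_cancel, smul_zero]
    rw [e, norm_smul]
    have h2 : ‖(1 / 2 : ℝ)‖ * ‖rs y ε + rs y (flo A ε)‖ ≤ (‖rs y ε‖ + ‖rs y (flo A ε)‖) / 2 := by
      rw [Real.norm_of_nonneg (by norm_num)]
      have := norm_add_le (rs y ε) (rs y (flo A ε))
      linarith
    refine (Real.rpow_le_rpow (by positivity) h2 (by linarith)).trans ?_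
    exact rpow_mid hq (norm_nonneg _) (norm_nonneg _)
  refine (Finset.sum_le_sum fun ε _ => h1 ε).trans (le_of_eq ?_)
  rw [← Finset.sum_div, Finset.sum_add_distrib]
  have h3 : ∑ ε : J → Bool, ‖rs y (flo A ε)‖ ^ q = ∑ ε : J → Bool, ‖rs y ε‖ ^ q :=
    Equiv.sum_comp (⟨flo A, flo A, flo_flo A, flo_flo A⟩ : (J → Bool) ≃ (J → Bool))
      (fun ε => ‖rs y ε‖ ^ q)
  rw [h3]
  ring

theorem single_le {q : ℝ} (hq : 1 ≤ q) (y : J → X) (j : J) : ‖y j‖ ^ q ≤ rav q y := by
  have h := contraction hq y {j}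
  simp only [Finset.sum_singleton] at h
  have h2 : ∀ ε : J → Bool, ‖sg (ε j) • y j‖ = ‖y j‖ := by
    intro ε
    rw [norm_smul]
    cases ε j <;> simp [sg]
  simp only [h2, Finset.sum_const, Finset.card_univ, Fintype.card_fun, Fintype.card_bool,
    nsmul_eq_mul] at h
  unfold rav
  rw [inv_mul_eq_div, le_div_iff₀ (by positivity)]
  push_cast at h
  linarith

/-- Rademacher cotype `q` -/
def HasCotype (q : ℝ) (X : Type u) [NormedAddCommGroup X] [NormedSpace ℝ X] : Prop :=
  ∃ C : ℝ, 0 < C ∧ ∀ (n : ℕ) (y : Fin n → X), ∑ j, ‖y j‖ ^ q ≤ C ^ q * rav q y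

/-- the restriction of a family to a subset -/
theorem rav_sub {q : ℝ} (hq : 1 ≤ q) (y : J → X) (A : Finset J) {n : ℕ} (f : Fin n ≃ A) :
    rav q (fun k => y (f k)) ≤ rav q y := by
  unfold rav
  rw [Fintype.card_fin]
  have hn : n = A.card := by
    have := Fintype.card_congr f
    simpa using this
  -- sum over all signs of a function of the signs in A
  have h1 : ∑ ε : J → Bool, ‖∑ j ∈ A, sg (ε j) • y j‖ ^ q =
      2 ^ (Fintype.card J - n) * ∑ δ : Fin n → Bool, ‖rs (fun k => y (f k)) δ‖ ^ q := by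
    let g : (J → Bool) → (Fin n → Bool) := fun ε k => ε (f k)
    have h2 : ∀ ε : J → Bool, ‖∑ j ∈ A, sg (ε j) • y j‖ ^ q = ‖rs (fun k => y (f k)) (g ε)‖ ^ q := by
      intro ε
      congr 2
      unfold rs
      rw [← Finset.sum_coe_sort A (fun j => sg (ε j) • y j), ← Equiv.sum_comp f]
    simp only [h2]
    rw [← Finset.sum_fiberwise (s := Finset.univ) (g := g)]
    rw [Finset.mul_sum]
    refine Finset.sum_congr rfl fun δ _ => ?_
    have h3 : ∀ ε ∈ Finset.univ.filter (fun ε => g ε = δ),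
        ‖rs (fun k => y (f k)) (g ε)‖ ^ q = ‖rs (fun k => y (f k)) δ‖ ^ q := by
      intro ε hε
      rw [(Finset.mem_filter.1 hε).2]
    rw [Finset.sum_congr rfl h3, Finset.sum_const, nsmul_eq_mul]
    congr 1
    -- card of the fibre
    have h4 : (Finset.univ.filter (fun ε => g ε = δ)).card = 2 ^ (Fintype.card J - n) := by
      let E : {ε : J → Bool // g ε = δ} ≃ ({j : J // j ∉ A} → Bool) :=
        { toFun := fun ε j => ε.1 j.1
          invFun := fun ζ => ⟨fun j => if h : j ∈ A then δ (f.symm ⟨j, h⟩) else ζ ⟨j, h⟩, by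
            funext k
            simp only [g]
            rw [dif_pos (f k).2]
            simp⟩
          left_inv := by
            rintro ⟨ε, hε⟩
            apply Subtype.ext
            funext j
            by_cases h : j ∈ A
            · simp only [dif_pos h]
              rw [← hε]
              simp only [g]
              simp
            · simp only [dif_neg h]
          right_inv := by
            intro ζ
            funext j
            simp only [dif_neg j.2] }
      rw [← Fintype.card_subtype, Fintype.card_congr E, Fintype.card_fun, Fintype.card_bool]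
      congr 1
      rw [Fintype.card_subtype_compl, Fintype.card_coe, hn]
    rw [h4]
    push_cast; rfl
  have h5 := contraction hq y A
  rw [h1] at h5
  have hle : n ≤ Fintype.card J := by
    rw [hn]; exact Finset.card_le_univ _
  have e2 : (2 : ℝ) ^ (Fintype.card J) = 2 ^ n * 2 ^ (Fintype.card J - n) := by
    rw [← pow_add, Nat.add_sub_cancel' hle]
  rw [e2, mul_inv]
  have p1 : (0 : ℝ) < 2 ^ n := by positivity
  have p2 : (0 : ℝ) < 2 ^ (Fintype.card J - n) := by positivity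
  rw [mul_assoc]
  refine mul_le_mul_of_nonneg_left ?_ (by positivity)
  rw [inv_mul_eq_div, le_div_iff₀ p2]
  linarith

theorem rav_smul {q : ℝ} (y : J → X) {t : ℝ} (ht : 0 ≤ t) :
    rav q (fun j => t • y j) = t ^ q * rav q y := by
  unfold rav
  have : ∀ ε : J → Bool, ‖rs (fun j => t • y j) ε‖ ^ q = t ^ q * ‖rs y ε‖ ^ q := by
    intro ε
    have e : rs (fun j => t • y j) ε = t • rs y ε := by
      unfold rs
      rw [Finset.smul_sum]
      refine Finset.sum_congr rfl fun j _ => ?_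
      rw [smul_comm]
    rw [e, norm_smul, Real.norm_of_nonneg ht, Real.mul_rpow ht (norm_nonneg _)]
  simp only [this]
  rw [← Finset.mul_sum]
  ring

/-- The extraction lemma. -/
theorem extract {q q' : ℝ} (hq' : 0 < q') (hqq : q' < q) (hq1 : 1 ≤ q) (h : ¬ HasCotype q X)
    (N : ℕ) : ∃ (n : ℕ) (y : Fin n → X), N ≤ n ∧ (∀ j, 1 / 2 < ‖y j‖ ∧ ‖y j‖ ≤ 1) ∧
      rav q y ≤ (n : ℝ) ^ (q / q') := by
  classical
  set ρ : ℝ := (1 / 2 : ℝ) ^ (q - q') with hρ
  have hρ0 : 0 < ρ := by positivity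
  have hρ1 : ρ < 1 := Real.rpow_lt_one (by norm_num) (by norm_num) (by linarith)
  set K0 : ℝ := N + 1 with hK0
  have hK01 : 1 ≤ K0 := by rw [hK0]; have : (0 : ℝ) ≤ N := Nat.cast_nonneg N; linarith
  have hq0 : 0 < q := by linarith
  -- the constant
  set C : ℝ := (K0 * (1 - ρ)⁻¹) ^ q⁻¹ with hC
  have hC0 : 0 < C := by
    have : 0 < 1 - ρ := by linarith
    rw [hC]; positivity
  have hCq : C ^ q = K0 * (1 - ρ)⁻¹ := by
    have : 0 < 1 - ρ := by linarith
    rw [hC, ← Real.rpow_mul (by positivity), inv_mul_cancel₀ hq0.ne', Real.rpow_one]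
  unfold HasCotype at h
  push Not at h
  obtain ⟨m, y, hy⟩ := h C hC0
  -- normalise
  have hR0 : 0 ≤ rav q y := rav_nonneg q y
  have hRpos : 0 < rav q y := by
    rcases hR0.eq_or_lt with h0 | h0
    · exfalso
      have h1 : ∑ j, ‖y j‖ ^ q ≤ 0 := by
        refine Finset.sum_nonpos fun j _ => ?_
        rw [h0]; exact single_le hq1 y j
      rw [← h0] at hy
      linarith
    · exact h0
  set R := (rav q y) ^ q⁻¹ with hR
  have hRp : 0 < R := by rw [hR]; positivity
  have hRq : R ^ q = rav q y := by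
    rw [hR, ← Real.rpow_mul hR0, inv_mul_cancel₀ hq0.ne', Real.rpow_one]
  set z : Fin m → X := fun j => R⁻¹ • y j with hz
  have hzr : rav q z = 1 := by
    rw [hz, rav_smul y (by positivity), Real.inv_rpow hRp.le, hRq, inv_mul_cancel₀ hRpos.ne']
  have hz1 : ∀ j, ‖z j‖ ≤ 1 := by
    intro j
    have h1 := single_le hq1 z j
    rw [hzr] at h1
    by_contra hcon
    push Not at hcon
    have := Real.one_lt_rpow hcon hq0
    linarith
  have hzs : C ^ q < ∑ j, ‖z j‖ ^ q := by
    have h1 : ∑ j, ‖z j‖ ^ q = R⁻¹ ^ q * ∑ j, ‖y j‖ ^ q := by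
      rw [Finset.mul_sum]
      refine Finset.sum_congr rfl fun j _ => ?_
      rw [hz]; dsimp only
      rw [norm_smul, Real.norm_of_nonneg (by positivity), Real.mul_rpow (by positivity) (norm_nonneg _)]
    rw [h1, Real.inv_rpow hRp.le, hRq, inv_mul_eq_div, lt_div_iff₀ hRpos]
    exact hy
  -- levels
  have hlev : ∀ j, z j ≠ 0 → ∃ k : ℕ, (1 / 2 : ℝ) ^ (k + 1) < ‖z j‖ ∧ ‖z j‖ ≤ (1 / 2 : ℝ) ^ k :=
    fun j hj => exists_nat_pow_near_of_lt_one (norm_pos_iff.2 hj) (hz1 j) (by norm_num) (by norm_num)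
  choose! κ hκ1 hκ2 using hlev
  set nz := (Finset.univ : Finset (Fin m)).filter (fun j => z j ≠ 0) with hnz
  set A : ℕ → Finset (Fin m) := fun k => nz.filter (fun j => κ j = k) with hA
  have hex : ∃ k : ℕ, K0 * (2 : ℝ) ^ ((k : ℝ) * q') < ((A k).card : ℝ) := by
    by_contra hcon
    push Not at hcon
    have h1 : ∑ j, ‖z j‖ ^ q = ∑ j ∈ nz, ‖z j‖ ^ q := by
      rw [hnz, Finset.sum_filter]
      refine Finset.sum_congr rfl fun j _ => ?_
      split_ifs with hj
      · rfl
      · push Not at hj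
        rw [hj, norm_zero, Real.zero_rpow hq0.ne']
    have h2 : ∑ j ∈ nz, ‖z j‖ ^ q ≤ ∑ j ∈ nz, ((1 / 2 : ℝ) ^ (κ j)) ^ q := by
      refine Finset.sum_le_sum fun j hj => ?_
      exact Real.rpow_le_rpow (norm_nonneg _) (hκ2 j (Finset.mem_filter.1 hj).2) hq0.le
    have h3 : ∑ j ∈ nz, ((1 / 2 : ℝ) ^ (κ j)) ^ q =
        ∑ k ∈ nz.image κ, ((A k).card : ℝ) * ((1 / 2 : ℝ) ^ k) ^ q := by
      rw [← Finset.sum_fiberwise_of_maps_to (t := nz.image κ) (g := κ)
        (fun j hj => Finset.mem_image_of_mem κ hj)]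
      refine Finset.sum_congr rfl fun k _ => ?_
      have : ∀ j ∈ nz.filter (fun j => κ j = k), ((1 / 2 : ℝ) ^ (κ j)) ^ q = ((1 / 2 : ℝ) ^ k) ^ q := by
        intro j hj
        rw [(Finset.mem_filter.1 hj).2]
      rw [Finset.sum_congr rfl this, Finset.sum_const, nsmul_eq_mul]
    have h4 : ∀ k : ℕ, ((A k).card : ℝ) * ((1 / 2 : ℝ) ^ k) ^ q ≤ K0 * ρ ^ k := by
      intro k
      have e1 : (2 : ℝ) ^ (k * q') * ((1 / 2 : ℝ) ^ k) ^ q = ρ ^ k := by
        rw [hρ, ← Real.rpow_natCast, ← Real.rpow_natCast, ← Real.rpow_mul (by norm_num),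
          ← Real.rpow_mul (by norm_num)]
        rw [show (1 / 2 : ℝ) = (2 : ℝ)⁻¹ by norm_num, Real.inv_rpow (by norm_num),
          Real.inv_rpow (by norm_num), ← Real.rpow_neg (by norm_num), ← Real.rpow_neg (by norm_num),
          ← Real.rpow_add (by norm_num)]
        congr 1
        ring
      calc ((A k).card : ℝ) * ((1 / 2 : ℝ) ^ k) ^ q ≤ (K0 * (2 : ℝ) ^ (k * q')) * ((1 / 2 : ℝ) ^ k) ^ q :=
            mul_le_mul_of_nonneg_right (hcon k) (by positivity)
        _ = K0 * ρ ^ k := by rw [mul_assoc, e1]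
    have h5 : ∑ k ∈ nz.image κ, K0 * ρ ^ k ≤ K0 * (1 - ρ)⁻¹ := by
      rw [← Finset.mul_sum]
      refine mul_le_mul_of_nonneg_left ?_ (by linarith)
      rw [← tsum_geometric_of_lt_one hρ0.le hρ1]
      exact (summable_geometric_of_lt_one hρ0.le hρ1).sum_le_tsum _ (fun k _ => by positivity)
    have h6 : ∑ j, ‖z j‖ ^ q ≤ C ^ q := by
      rw [h1, hCq]
      refine h2.trans (h3.le.trans ?_)
      exact (Finset.sum_le_sum fun k _ => h4 k).trans h5
    linarith
  obtain ⟨k, hk⟩ := hex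
  set n := (A k).card with hn
  let f : Fin n ≃ (A k) := (A k).equivFin.symm
  have h2k : (1 : ℝ) ≤ (2 : ℝ) ^ (k * q') := Real.one_le_rpow (by norm_num) (by positivity)
  have hnK : K0 < n := by nlinarith
  refine ⟨n, fun i => (2 : ℝ) ^ k • z (f i), ?_, ?_, ?_⟩
  · have : (N : ℝ) ≤ n := by linarith
    exact_mod_cast this
  · intro i
    have hmem : ((f i : Fin m)) ∈ nz.filter (fun j => κ j = k) := (f i).2
    have hm := Finset.mem_filter.1 hmem
    have hm2 := (Finset.mem_filter.1 hm.1).2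
    have b1 := hκ1 _ hm2
    have b2 := hκ2 _ hm2
    rw [hm.2] at b1 b2
    rw [norm_smul, Real.norm_of_nonneg (by positivity)]
    have e1 : (2 : ℝ) ^ k * (1 / 2) ^ k = 1 := by rw [← mul_pow]; norm_num
    have e2 : (2 : ℝ) ^ k * (1 / 2) ^ (k + 1) = 1 / 2 := by
      rw [pow_succ, ← mul_assoc, e1]; norm_num
    have p : (0 : ℝ) < 2 ^ k := by positivity
    constructor
    · rw [← e2]; exact mul_lt_mul_of_pos_left b1 p
    · rw [← e1]; exact mul_le_mul_of_nonneg_left b2 p.le
  · have h1 := rav_sub hq1 z (A k) f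
    rw [hzr] at h1
    have h2 := rav_smul (q := q) (fun i => z (f i)) (t := (2 : ℝ) ^ k) (by positivity)
    rw [h2]
    have h3 : ((2 : ℝ) ^ k) ^ q ≤ (n : ℝ) ^ (q / q') := by
      have h4 : (2 : ℝ) ^ (k * q') ≤ n := by nlinarith
      have h5 : ((2 : ℝ) ^ (k * q')) ^ (q / q') ≤ (n : ℝ) ^ (q / q') :=
        Real.rpow_le_rpow (by positivity) h4 (by positivity)
      refine le_trans (le_of_eq ?_) h5
      rw [← Real.rpow_natCast, ← Real.rpow_mul (by norm_num), ← Real.rpow_mul (by norm_num)]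
      congr 1
      field_simp
    calc ((2 : ℝ) ^ k) ^ q * rav q (fun i => z (f i)) ≤ ((2 : ℝ) ^ k) ^ q * 1 :=
          mul_le_mul_of_nonneg_left h1 (by positivity)
      _ ≤ _ := by rw [mul_one]; exact h3

end TH364.SG
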