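import Mathlib
import Pool.Agent.TH364.SG.Cot
set_option autoImplicit false
set_option linter.unusedSectionVars false

/-! The space L_p(0,1) fails Rademacher cotype q for q < p. -/

namespace TH364.SG

open Finset MeasureTheory
open scoped ENNReal

/-- the measure of (0,1) -/
noncomputable abbrev mu01 : Measure ℝ := volume.restrict (Set.Icc (0 : ℝ) 1)

theorem ae_sum {J : Type*} {p : ℝ≥0∞} {μ : Measure ℝ} (s : Finset J) (F : J → Lp ℝ p μ) :
    ⇑(∑ j ∈ s, F j) =ᵐ[μ] fun x => ∑ j ∈ s, F j x := by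
  classical
  induction s using Finset.induction_on with
  | empty =>
    simp only [Finset.sum_empty]
    exact Lp.coeFn_zero ℝ p μ
  | insert j s hj ih =>
    rw [Finset.sum_insert hj]
    filter_upwards [Lp.coeFn_add (F j) (∑ j ∈ s, F j), ih] with x h1 h2
    rw [h1, Pi.add_apply, h2, Finset.sum_insert hj]

/-- the interval -/
def Iv (n : ℕ) (j : Fin n) : Set ℝ := Set.Ico ((j : ℝ) / n) (((j : ℝ) + 1) / n)

theorem Iv_meas (n : ℕ) (j : Fin n) : MeasurableSet (Iv n j) := measurableSet_Ico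

theorem Iv_disj {n : ℕ} {j k : Fin n} {x : ℝ} (h1 : x ∈ Iv n j) (h2 : x ∈ Iv n k) : j = k := by
  have hn : (0 : ℝ) < n := by
    have := j.pos
    exact_mod_cast this
  obtain ⟨a1, a2⟩ := h1
  obtain ⟨b1, b2⟩ := h2
  have c1 : (j : ℝ) < k + 1 := (div_lt_div_iff_of_pos_right hn).1 (a1.trans_lt b2)
  have c2 : (k : ℝ) < j + 1 := (div_lt_div_iff_of_pos_right hn).1 (b1.trans_lt a2)
  have d1 : (j : ℕ) < k + 1 := by exact_mod_cast c1
  have d2 : (k : ℕ) < j + 1 := by exact_mod_cast c2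
  apply Fin.ext
  omega

theorem mu_Iv (n : ℕ) (j : Fin n) : mu01 (Iv n j) = ENNReal.ofReal (1 / n) := by
  have hn : (0 : ℝ) < n := by
    have := j.pos
    exact_mod_cast this
  have hsub : Iv n j ⊆ Set.Icc (0 : ℝ) 1 := by
    rintro x ⟨h1, h2⟩
    refine ⟨le_trans (by positivity) h1, h2.le.trans ?_⟩
    rw [div_le_one hn]
    have := j.isLt
    exact_mod_cast this
  rw [Measure.restrict_apply (Iv_meas n j), Set.inter_eq_left.2 hsub, Iv, Real.volume_Ico]
  congr 1
  ring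

/-- the normalised indicator functions -/
noncomputable def yv (p : ℝ≥0∞) (n : ℕ) (j : Fin n) : Lp ℝ p mu01 :=
  indicatorConstLp p (Iv_meas n j) (measure_ne_top _ _) (1 : ℝ)

theorem yv_norm (p : ℝ≥0∞) (hp : p ≠ 0) (n : ℕ) (j : Fin n) :
    ‖yv p n j‖ = (1 / n : ℝ) ^ (1 / p.toReal) := by
  have hn : (0 : ℝ) < n := by
    have := j.pos
    exact_mod_cast this
  unfold yv
  rw [norm_indicatorConstLp' hp, norm_one, one_mul, measureReal_def, mu_Iv,
    ENNReal.toReal_ofReal (by positivity)]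
  rw [mu_Iv]
  exact (ENNReal.ofReal_pos.2 (by positivity)).ne'

theorem yv_rs (p : ℝ≥0∞) [Fact (1 ≤ p)] (n : ℕ) (ε : Fin n → Bool) : ‖rs (yv p n) ε‖ ≤ 1 := by
  have h1 : ∀ᵐ x ∂mu01, ‖(rs (yv p n) ε) x‖ ≤ 1 := by
    have a1 := ae_sum (μ := mu01) (Finset.univ : Finset (Fin n)) (fun j => sg (ε j) • yv p n j)
    have a2 : ∀ᵐ x ∂mu01, ∀ j : Fin n, (sg (ε j) • yv p n j) x =
        sg (ε j) * (Iv n j).indicator (fun _ => (1 : ℝ)) x := by
      rw [ae_all_iff]
      intro j
      filter_upwards [Lp.coeFn_smul (sg (ε j)) (yv p n j),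
        indicatorConstLp_coeFn (p := p) (hs := Iv_meas n j)
          (hμs := (measure_ne_top mu01 _)) (c := (1 : ℝ))] with x b1 b2
      rw [b1, Pi.smul_apply, smul_eq_mul]
      unfold yv
      rw [b2]
    filter_upwards [a1, a2] with x b1 b2
    unfold rs
    rw [b1]
    simp only [b2]
    by_cases hx : ∃ k, x ∈ Iv n k
    · obtain ⟨k, hk⟩ := hx
      rw [Finset.sum_eq_single k]
      · rw [Set.indicator_of_mem hk, mul_one]
        cases ε k <;> simp [sg]
      · intro j _ hj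
        rw [Set.indicator_of_notMem, mul_zero]
        intro hxj
        exact hj (Iv_disj hxj hk)
      · intro h; exact absurd (Finset.mem_univ k) h
    · push Not at hx
      rw [Finset.sum_eq_zero]
      · simp
      · intro j _
        rw [Set.indicator_of_notMem (hx j), mul_zero]
  have h2 := Lp.norm_le_of_ae_bound (f := rs (yv p n) ε) zero_le_one h1
  refine h2.trans ?_
  have hm : measureUnivNNReal mu01 = 1 := by
    unfold measureUnivNNReal
    simp
  rw [hm]
  simp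

theorem not_cotype_Lp (p : ℝ≥0∞) [Fact (1 ≤ p)] {q : ℝ} (hq : 0 < q) (hqp : q / p.toReal < 1) :
    ¬ HasCotype q (Lp ℝ p mu01) := by
  rintro ⟨C, hC, h⟩
  have hp0 : p ≠ 0 := by
    have : (1 : ℝ≥0∞) ≤ p := Fact.out
    intro h0
    rw [h0] at this
    simp at this
  obtain ⟨δ, hδ⟩ : ∃ δ, δ = 1 - q / p.toReal := ⟨_, rfl⟩
  have hδ0 : 0 < δ := by linarith
  obtain ⟨N, hN⟩ := exists_nat_gt ((C ^ q) ^ (1 / δ))
  obtain ⟨n, hn⟩ : ∃ n, n = N + 1 := ⟨_, rfl⟩
  have hn0 : (0 : ℝ) < n := by rw [hn]; positivity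
  have h1 := h n (yv p n)
  have h2 : ∑ j, ‖yv p n j‖ ^ q = (n : ℝ) ^ δ := by
    have : ∀ j, ‖yv p n j‖ ^ q = (1 / n : ℝ) ^ (q / p.toReal) := by
      intro j
      rw [yv_norm p hp0, ← Real.rpow_mul (by positivity)]
      congr 1
      ring
    simp only [this]
    rw [Finset.sum_const, Finset.card_univ, Fintype.card_fin, nsmul_eq_mul, one_div,
      Real.inv_rpow hn0.le, ← Real.rpow_neg hn0.le, hδ]
    rw [sub_eq_add_neg, Real.rpow_add hn0, Real.rpow_one]
  have h3 : rav q (yv p n) ≤ 1 := by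
    unfold rav
    rw [inv_mul_eq_div, div_le_one (by positivity)]
    refine (Finset.sum_le_card_nsmul _ _ 1 fun ε _ => ?_).trans_eq ?_
    · exact Real.rpow_le_one (norm_nonneg _) (yv_rs p n ε) hq.le
    · rw [Finset.card_univ, nsmul_eq_mul, mul_one, Fintype.card_fun, Fintype.card_bool]
      push_cast; rfl
  rw [h2] at h1
  have h4 : (n : ℝ) ^ δ ≤ C ^ q := by
    refine h1.trans ?_
    calc C ^ q * rav q (yv p n) ≤ C ^ q * 1 := mul_le_mul_of_nonneg_left h3 (by positivity)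
      _ = C ^ q := mul_one _
  have h5 : C ^ q < (n : ℝ) ^ δ := by
    have h6 : (C ^ q) ^ (1 / δ) < n := by
      have : (N : ℝ) ≤ n := by rw [hn]; push_cast; linarith
      linarith
    have h7 := Real.rpow_lt_rpow (by positivity) h6 hδ0
    rwa [← Real.rpow_mul (by positivity), one_div, inv_mul_cancel₀ hδ0.ne', Real.rpow_one] at h7
  linarith

end TH364.SG
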