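import Mathlib
import Pool.Agent.TH364.SG.MC
set_option autoImplicit false
set_option linter.unusedSectionVars false

/-! Functional calculus for spectral data, and the local estimate for the bounded transform
`A (A + i s)⁻¹` of a Hermitian matrix. -/

namespace TH364.SG

open Matrix Finset
open scoped ComplexOrder

universe u
variable {ι : Type u} [Fintype ι] [DecidableEq ι]

/-- spectral data: a unitary matrix and real eigenvalues -/
structure Sd (ι : Type u) [Fintype ι] [DecidableEq ι] where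
  U : Matrix ι ι ℂ
  hU : Uᴴ * U = 1
  ev : ι → ℝ

namespace Sd

variable (S : Sd ι)

theorem hU' : S.U * S.Uᴴ = 1 := mul_eq_one_comm.1 S.hU

/-- functional calculus -/
noncomputable def fc (g : ℝ → ℂ) : Matrix ι ι ℂ :=
  S.U * Matrix.diagonal (fun k => g (S.ev k)) * S.Uᴴ

/-- the matrix of the data -/
noncomputable def mat : Matrix ι ι ℂ := S.fc (fun t => (t : ℂ))

theorem fc_mul (g h : ℝ → ℂ) : S.fc g * S.fc h = S.fc (fun t => g t * h t) := by
  unfold fc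
  calc _ = S.U * Matrix.diagonal (fun k => g (S.ev k)) * (S.Uᴴ * S.U) *
      Matrix.diagonal (fun k => h (S.ev k)) * S.Uᴴ := by simp only [Matrix.mul_assoc]
    _ = _ := by
      rw [S.hU, Matrix.mul_one, Matrix.mul_assoc S.U, Matrix.diagonal_mul_diagonal]

theorem fc_add (g h : ℝ → ℂ) : S.fc g + S.fc h = S.fc (fun t => g t + h t) := by
  unfold fc
  rw [← Matrix.add_mul, ← Matrix.mul_add, Matrix.diagonal_add]

theorem fc_sub (g h : ℝ → ℂ) : S.fc g - S.fc h = S.fc (fun t => g t - h t) := by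
  unfold fc
  rw [← Matrix.sub_mul, ← Matrix.mul_sub, Matrix.diagonal_sub]

theorem fc_smul (c : ℂ) (g : ℝ → ℂ) : c • S.fc g = S.fc (fun t => c * g t) := by
  unfold fc
  rw [← Matrix.smul_mul, ← Matrix.mul_smul, ← Matrix.diagonal_smul]
  rfl

theorem fc_one : S.fc (fun _ => 1) = 1 := by
  unfold fc
  rw [Matrix.diagonal_one, Matrix.mul_one, S.hU']

theorem fc_conj (g : ℝ → ℂ) : (S.fc g)ᴴ = S.fc (fun t => star (g t)) := by
  unfold fc
  rw [Matrix.conjTranspose_mul, Matrix.conjTranspose_mul, Matrix.conjTranspose_conjTranspose,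
    Matrix.diagonal_conjTranspose, Matrix.mul_assoc]
  rfl

theorem fc_unit (g : ℝ → ℂ) (hg : ∀ t, star (g t) * g t = 1) : (S.fc g)ᴴ * S.fc g = 1 := by
  rw [fc_conj, fc_mul]
  simp only [hg]
  exact S.fc_one

theorem fc_congr {g h : ℝ → ℂ} (H : ∀ t, g t = h t) : S.fc g = S.fc h := by
  rw [funext H]

theorem mat_herm : S.mat.IsHermitian := by
  unfold mat
  rw [Matrix.IsHermitian, fc_conj]
  refine S.fc_congr fun t => ?_
  rw [Complex.star_def, Complex.conj_ofReal]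

theorem fc_pow (g : ℝ → ℂ) (K : ℕ) : (S.fc g) ^ K = S.fc (fun t => g t ^ K) := by
  induction K with
  | zero => simp only [pow_zero]; exact S.fc_one.symm
  | succ K ih =>
    rw [pow_succ, ih, fc_mul]
    refine S.fc_congr fun t => ?_
    rw [pow_succ]

theorem trace_mul_fc (Z : Matrix ι ι ℂ) (g : ℝ → ℂ) :
    (Z * S.fc g).trace = ∑ k, (S.Uᴴ * Z * S.U) k k * g (S.ev k) := by
  unfold fc
  have : (Z * (S.U * Matrix.diagonal (fun k => g (S.ev k)) * S.Uᴴ)).trace =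
      (S.Uᴴ * Z * S.U * Matrix.diagonal (fun k => g (S.ev k))).trace := by
    rw [← Matrix.mul_assoc, Matrix.trace_mul_comm]
    congr 1
    simp only [Matrix.mul_assoc]
  rw [this, Matrix.trace]
  refine Finset.sum_congr rfl fun k _ => ?_
  rw [Matrix.diag_apply, Matrix.mul_diagonal]

theorem trace_fc (g : ℝ → ℂ) : (S.fc g).trace = ∑ k, g (S.ev k) := by
  have h := S.trace_mul_fc 1 g
  rw [Matrix.one_mul, Matrix.mul_one, S.hU] at h
  rw [h]
  simp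

theorem pw_fc (K : ℕ) (g : ℝ → ℂ) : pw K (S.fc g) = ∑ k, ‖g (S.ev k)‖ ^ (2 * K) := by
  unfold pw
  rw [fc_conj, fc_mul, fc_pow, trace_fc, Complex.re_sum]
  refine Finset.sum_congr rfl fun k _ => ?_
  rw [Complex.star_def, Complex.conj_mul', ← Complex.ofReal_pow, ← Complex.ofReal_pow,
    Complex.ofReal_re, ← pow_mul]

end Sd

theorem exists_sd {A : Matrix ι ι ℂ} (hA : A.IsHermitian) : ∃ S : Sd ι, S.mat = A := by
  refine ⟨⟨(hA.eigenvectorUnitary : Matrix ι ι ℂ), ?_, hA.eigenvalues⟩, ?_⟩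
  · exact Matrix.mem_unitaryGroup_iff'.1 hA.eigenvectorUnitary.2
  · exact hA.spectral_theorem.symm

theorem unit_diag {W : Matrix ι ι ℂ} (hW : Wᴴ * W = 1) (k : ι) : ‖W k k‖ ≤ 1 := by
  have h := gram_diag W k
  rw [hW, Matrix.one_apply_eq] at h
  have h1 : ∑ j, ‖W j k‖ ^ 2 = 1 := by exact_mod_cast h.symm
  have h2 : ‖W k k‖ ^ 2 ≤ 1 := by
    rw [← h1]
    exact Finset.single_le_sum (f := fun j => ‖W j k‖ ^ 2) (fun j _ => sq_nonneg _)
      (Finset.mem_univ k)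
  nlinarith [norm_nonneg (W k k)]

theorem unit_mul {V W : Matrix ι ι ℂ} (hV : Vᴴ * V = 1) (hW : Wᴴ * W = 1) :
    (V * W)ᴴ * (V * W) = 1 := by
  rw [Matrix.conjTranspose_mul, Matrix.mul_assoc, ← Matrix.mul_assoc Vᴴ, hV, Matrix.one_mul, hW]

theorem unit_conj {V : Matrix ι ι ℂ} (hV : Vᴴ * V = 1) : (Vᴴ)ᴴ * Vᴴ = 1 := by
  rw [Matrix.conjTranspose_conjTranspose]
  exact mul_eq_one_comm.1 hV

theorem trace_unit_fc (S : Sd ι) {W : Matrix ι ι ℂ} (hW : Wᴴ * W = 1) (g : ℝ → ℂ) :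
    ‖(W * S.fc g).trace‖ ≤ ∑ k, ‖g (S.ev k)‖ := by
  rw [S.trace_mul_fc]
  refine (norm_sum_le _ _).trans (Finset.sum_le_sum fun k _ => ?_)
  rw [norm_mul]
  have h := unit_diag (unit_mul (unit_mul (unit_conj S.hU) hW) S.hU) k
  nlinarith [norm_nonneg (g (S.ev k))]

/-- the exponent 1 - 1/P -/
noncomputable def be (r : ℕ) : ℝ := 1 - (((2 ^ (r + 1) : ℕ) : ℝ))⁻¹

theorem two_le_P (r : ℕ) : 2 ≤ 2 ^ (r + 1) := by
  rw [pow_succ]; have := Nat.one_le_two_pow (n := r); omega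

theorem be_pos (r : ℕ) : 0 < be r := by
  unfold be
  have h : (2 : ℝ) ≤ ((2 ^ (r + 1) : ℕ) : ℝ) := by exact_mod_cast two_le_P r
  have : (((2 ^ (r + 1) : ℕ) : ℝ))⁻¹ ≤ 2⁻¹ := inv_anti₀ (by norm_num) h
  linarith

theorem be_lt (r : ℕ) : be r < 1 := by
  unfold be
  have : 0 < (((2 ^ (r + 1) : ℕ) : ℝ))⁻¹ := by positivity
  linarith

/-- Hölder against a function of a Hermitian matrix -/
theorem trace_fc_le (r : ℕ) (S : Sd ι) (Z : Matrix ι ι ℂ) (g : ℝ → ℂ) :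
    ‖(Z * S.fc g).trace‖ ≤ nm r Z * (∑ k, ‖g (S.ev k)‖ ^ (be r)⁻¹) ^ be r := by
  rw [S.trace_mul_fc]
  have h1 : ‖∑ k, (S.Uᴴ * Z * S.U) k k * g (S.ev k)‖ ≤
      ∑ k, (1 : ℝ) * (‖(S.Uᴴ * Z * S.U) k k‖ * (‖g (S.ev k)‖ ^ (be r)⁻¹) ^ be r) := by
    refine (norm_sum_le _ _).trans (Finset.sum_le_sum fun k _ => ?_)
    rw [norm_mul, ← Real.rpow_mul (norm_nonneg _), inv_mul_cancel₀ (be_pos r).ne', Real.rpow_one,
      one_mul]
  refine h1.trans ?_
  have h2 := whol (Finset.univ : Finset ι) (fun _ => (1 : ℝ)) (fun k => ‖(S.Uᴴ * Z * S.U) k k‖)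
    (fun k => ‖g (S.ev k)‖ ^ (be r)⁻¹) (fun _ => zero_le_one) (fun _ => norm_nonneg _)
    (fun _ => Real.rpow_nonneg (norm_nonneg _) _) (two_le_P r)
  simp only [one_mul] at h2 ⊢
  refine h2.trans (mul_le_mul_of_nonneg_right ?_ (Real.rpow_nonneg
    (Finset.sum_nonneg fun _ _ => Real.rpow_nonneg (norm_nonneg _) _) _))
  have h3 : ∑ k, ‖(S.Uᴴ * Z * S.U) k k‖ ^ (2 ^ (r + 1)) ≤ pw (2 ^ r) Z := by
    refine (diag_le r _).trans_eq ?_
    rw [pw_mul_unit _ S.hU', pw_unit_mul _ (unit_conj S.hU)]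
  exact Real.rpow_le_rpow (Finset.sum_nonneg fun _ _ => by positivity) h3 (by positivity)

/-- Hölder against a difference of two unitary matrices of small rank -/
theorem rank_bound (r : ℕ) {C C' : Matrix ι ι ℂ} (hC : Cᴴ * C = 1) (hC' : C'ᴴ * C' = 1)
    (Z : Matrix ι ι ℂ) {D : Matrix ι ι ℂ} (hD : D = (1 / 2 : ℂ) • (C - C')) {ρ : ℕ}
    (hρ : D.rank ≤ ρ) :
    ‖(Z * D).trace‖ ≤ nm r Z * (ρ : ℝ) ^ be r := by
  obtain ⟨S, hS⟩ := exists_sd (Matrix.isHermitian_mul_conjTranspose_self D)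
  set X := S.Uᴴ * D with hX
  set W := Z * S.U with hW
  have e1 : (Z * D).trace = ∑ i, ∑ l, X i l * W l i := by
    have : (Z * D).trace = (X * W).trace := by
      rw [hX, hW, Matrix.trace_mul_comm Z D]
      have : S.Uᴴ * D * (Z * S.U) = S.Uᴴ * (D * Z * S.U) := by simp only [Matrix.mul_assoc]
      rw [this, Matrix.trace_mul_comm S.Uᴴ, Matrix.mul_assoc, S.hU', Matrix.mul_one]
    rw [this, Matrix.trace]
    refine Finset.sum_congr rfl fun i _ => ?_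
    rw [Matrix.diag_apply, Matrix.mul_apply]
  have hXX : X * Xᴴ = Matrix.diagonal (fun k => ((S.ev k : ℝ) : ℂ)) := by
    rw [hX, Matrix.conjTranspose_mul, Matrix.conjTranspose_conjTranspose]
    have : S.Uᴴ * D * (Dᴴ * S.U) = S.Uᴴ * (D * Dᴴ) * S.U := by simp only [Matrix.mul_assoc]
    rw [this, ← hS, Sd.mat, Sd.fc]
    have : S.Uᴴ * (S.U * Matrix.diagonal (fun k => ((S.ev k : ℝ) : ℂ)) * S.Uᴴ) * S.U =
      (S.Uᴴ * S.U) * Matrix.diagonal (fun k => ((S.ev k : ℝ) : ℂ)) * (S.Uᴴ * S.U) := by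
      simp only [Matrix.mul_assoc]
    rw [this, S.hU, Matrix.one_mul, Matrix.mul_one]
  have hrow : ∀ (A : Matrix ι ι ℂ) i, (A * Aᴴ) i i = ((∑ l, ‖A i l‖ ^ 2 : ℝ) : ℂ) := by
    intro A i
    have := gram_diag Aᴴ i
    rw [Matrix.conjTranspose_conjTranspose] at this
    rw [this]
    congr 1
    refine Finset.sum_congr rfl fun l _ => ?_
    rw [Matrix.conjTranspose_apply, norm_star]
  have hy : ∀ i, ∑ l, ‖X i l‖ ^ 2 = S.ev i := by
    intro i
    have h := hrow X i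
    rw [hXX, Matrix.diagonal_apply_eq] at h
    exact_mod_cast h.symm
  have hunit : ∀ {V : Matrix ι ι ℂ}, Vᴴ * V = 1 → ∀ i, ∑ l, ‖V i l‖ ^ 2 = 1 := by
    intro V hV i
    have h := hrow V i
    rw [mul_eq_one_comm.1 hV, Matrix.one_apply_eq] at h
    exact_mod_cast h.symm
  have hy1 : ∀ i, ∑ l, ‖X i l‖ ^ 2 ≤ 1 := by
    intro i
    have h1 := hunit (unit_mul (unit_conj S.hU) hC) i
    have h2 := hunit (unit_mul (unit_conj S.hU) hC') i
    have h3 : ∀ l, ‖X i l‖ ^ 2 ≤ (1 / 2) * ‖(S.Uᴴ * C) i l‖ ^ 2 + (1 / 2) * ‖(S.Uᴴ * C') i l‖ ^ 2 := by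
      intro l
      have e : X i l = (1 / 2 : ℂ) * ((S.Uᴴ * C) i l - (S.Uᴴ * C') i l) := by
        rw [hX, hD, Matrix.mul_smul, Matrix.mul_sub, Matrix.smul_apply, Matrix.sub_apply, smul_eq_mul]
      rw [e, norm_mul]
      have h4 := norm_sub_le ((S.Uᴴ * C) i l) ((S.Uᴴ * C') i l)
      have h5 : ‖(1 / 2 : ℂ)‖ = 1 / 2 := by simp
      rw [h5]
      have h6 : (1 / 2 * ‖(S.Uᴴ * C) i l - (S.Uᴴ * C') i l‖) ^ 2 ≤
          (1 / 2 * (‖(S.Uᴴ * C) i l‖ + ‖(S.Uᴴ * C') i l‖)) ^ 2 := by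
        apply pow_le_pow_left₀ (by positivity)
        linarith
      nlinarith [sq_nonneg (‖(S.Uᴴ * C) i l‖ - ‖(S.Uᴴ * C') i l‖)]
    refine (Finset.sum_le_sum fun l _ => h3 l).trans ?_
    rw [Finset.sum_add_distrib, ← Finset.mul_sum, ← Finset.mul_sum, h1, h2]
    norm_num
  have hcard : ((Finset.univ.filter fun k => S.ev k ≠ 0).card) ≤ ρ := by
    have h1 : (Matrix.diagonal (fun k => ((S.ev k : ℝ) : ℂ))).rank ≤ D.rank := by
      rw [← hXX, hX]
      exact (Matrix.rank_mul_le_left _ _).trans (Matrix.rank_mul_le_right _ _)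
    rw [Matrix.rank_diagonal] at h1
    refine le_trans (le_of_eq ?_) (h1.trans hρ)
    rw [Fintype.card_subtype]
    congr 1
    ext k
    simp
  rw [e1]
  have h1 : ‖∑ i, ∑ l, X i l * W l i‖ ≤ ∑ i, (1 : ℝ) *
      (Real.sqrt (∑ l, ‖W l i‖ ^ 2) * (if S.ev i ≠ 0 then (1 : ℝ) else 0) ^ be r) := by
    refine (norm_sum_le _ _).trans (Finset.sum_le_sum fun i _ => ?_)
    rw [one_mul]
    have h2 : ‖∑ l, X i l * W l i‖ ≤ ∑ l, ‖X i l‖ * ‖W l i‖ := by
      refine (norm_sum_le _ _).trans (Finset.sum_le_sum fun l _ => ?_)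
      rw [norm_mul]
    have h3 := Real.sum_mul_le_sqrt_mul_sqrt Finset.univ (fun l => ‖X i l‖) (fun l => ‖W l i‖)
    refine h2.trans (h3.trans ?_)
    split_ifs with hi
    · rw [Real.one_rpow, mul_one]
      have h4 : Real.sqrt (∑ l, ‖X i l‖ ^ 2) ≤ 1 := Real.sqrt_le_one.2 (hy1 i)
      calc _ ≤ 1 * Real.sqrt (∑ l, ‖W l i‖ ^ 2) :=
            mul_le_mul_of_nonneg_right h4 (Real.sqrt_nonneg _)
        _ = _ := one_mul _
    · rw [not_not] at hi
      rw [hy i, hi, Real.sqrt_zero, zero_mul, Real.zero_rpow (be_pos r).ne', mul_zero]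
  refine h1.trans ?_
  have h2 := whol (Finset.univ : Finset ι) (fun _ => (1 : ℝ)) (fun i => Real.sqrt (∑ l, ‖W l i‖ ^ 2))
    (fun i => if S.ev i ≠ 0 then (1 : ℝ) else 0) (fun _ => zero_le_one) (fun _ => Real.sqrt_nonneg _)
    (fun i => by split_ifs <;> norm_num) (two_le_P r)
  refine h2.trans ?_
  simp only [one_mul]
  rw [Finset.sum_boole]
  have h3 : ∑ i, Real.sqrt (∑ l, ‖W l i‖ ^ 2) ^ (2 ^ (r + 1)) ≤ pw (2 ^ r) Z := by
    have h4 : pw (2 ^ r) Z = pw (2 ^ r) W := by rw [hW, pw_mul_unit _ S.hU']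
    rw [h4]
    refine le_trans (le_of_eq ?_) (col_le r W)
    refine Finset.sum_congr rfl fun i _ => ?_
    rw [show 2 ^ (r + 1) = 2 * 2 ^ r by ring, pow_mul, Real.sq_sqrt
      (Finset.sum_nonneg fun _ _ => sq_nonneg _)]
  refine mul_le_mul (Real.rpow_le_rpow (Finset.sum_nonneg fun _ _ => by positivity) h3 (by positivity))
    (Real.rpow_le_rpow (by positivity) (by exact_mod_cast hcard) (be_pos r).le)
    (Real.rpow_nonneg (by positivity) _) (nm_nonneg _ _)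

end TH364.SG
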