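import Mathlib
import Pool.Agent.TH364.SG.Sd
set_option autoImplicit false
set_option linter.unusedSectionVars false

/-! The local estimate for the bounded transform `A (A + i s)⁻¹`. -/

namespace TH364.SG

open Matrix Finset
open scoped ComplexOrder

universe u
variable {ι : Type u} [Fintype ι] [DecidableEq ι]

/-- resolvent function -/
noncomputable def gT (s t : ℝ) : ℂ := ((t : ℂ) + s * Complex.I)⁻¹

/-- Cayley function -/
noncomputable def gC (s t : ℝ) : ℂ := ((t : ℂ) - s * Complex.I) * gT s t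

/-- bounded transform -/
noncomputable def gG (s t : ℝ) : ℂ := (t : ℂ) * gT s t

theorem den_ne {s : ℝ} (hs : 0 < s) (t : ℝ) : (t : ℂ) + s * Complex.I ≠ 0 := by
  intro h
  have := congrArg Complex.im h
  simp at this
  exact hs.ne' this

theorem gT_mul {s : ℝ} (hs : 0 < s) (t : ℝ) : gT s t * ((t : ℂ) + s * Complex.I) = 1 :=
  inv_mul_cancel₀ (den_ne hs t)

theorem gG_eq {s : ℝ} (hs : 0 < s) (t : ℝ) : gG s t = (1 + gC s t) / 2 := by
  unfold gG gC
  have h := gT_mul hs t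
  linear_combination (1 / 2 : ℂ) * h

theorem gC_eq {s : ℝ} (hs : 0 < s) (t : ℝ) : gT s t = (1 - gC s t) / (2 * (s * Complex.I)) := by
  have h := gT_mul hs t
  have hs' : (2 * (s * Complex.I) : ℂ) ≠ 0 := by
    have : (s : ℂ) ≠ 0 := by exact_mod_cast hs.ne'
    simp [this, Complex.I_ne_zero]
  rw [eq_div_iff hs']
  unfold gC
  nth_rewrite 1 [← h]
  ring

theorem gC_unit {s : ℝ} (hs : 0 < s) (t : ℝ) : star (gC s t) * gC s t = 1 := by
  have h := gT_mul hs t
  have h' : star (gT s t) * ((t : ℂ) - s * Complex.I) = 1 := by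
    have := congrArg (starRingEnd ℂ) h
    simp only [map_mul, map_add, map_one, Complex.conj_ofReal, Complex.conj_I] at this
    rw [Complex.star_def]
    rw [← this]
    ring
  unfold gC
  rw [star_mul]
  have e : star ((t : ℂ) - s * Complex.I) = (t : ℂ) + s * Complex.I := by
    rw [Complex.star_def]
    simp only [map_sub, map_mul, Complex.conj_ofReal, Complex.conj_I]
    ring
  rw [e]
  calc _ = (star (gT s t) * ((t : ℂ) - s * Complex.I)) * (gT s t * ((t : ℂ) + s * Complex.I)) := by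
        ring
    _ = 1 := by rw [h, h']; ring

/-- the energy of a difference at scale `s` -/
noncomputable def en (r : ℕ) (s : ℝ) (S : Sd ι) : ℝ := ∑ k, (min 1 (|S.ev k| / s)) ^ (be r)⁻¹

theorem en_nonneg (r : ℕ) {s : ℝ} (hs : 0 < s) (S : Sd ι) : 0 ≤ en r s S :=
  Finset.sum_nonneg fun _ _ => Real.rpow_nonneg (le_min zero_le_one (by positivity)) _

theorem resolvent {s : ℝ} (hs : 0 < s) (S S' : Sd ι) :
    S.fc (gT s) - S'.fc (gT s) = - (S.fc (gT s) * (S.mat - S'.mat) * S'.fc (gT s)) := by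
  have h1 : S.fc (gT s) * (S.mat + ((s : ℂ) * Complex.I) • (1 : Matrix ι ι ℂ)) = 1 := by
    rw [← S.fc_one, S.fc_smul, Sd.mat, S.fc_add, S.fc_mul]
    refine S.fc_congr fun t => ?_
    rw [mul_one]
    exact gT_mul hs t
  have h2 : (S'.mat + ((s : ℂ) * Complex.I) • (1 : Matrix ι ι ℂ)) * S'.fc (gT s) = 1 := by
    rw [← S'.fc_one, S'.fc_smul, Sd.mat, S'.fc_add, S'.fc_mul]
    refine S'.fc_congr fun t => ?_
    rw [mul_one, mul_comm]
    exact gT_mul hs t
  have e : S.mat - S'.mat = (S.mat + ((s : ℂ) * Complex.I) • (1 : Matrix ι ι ℂ)) -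
      (S'.mat + ((s : ℂ) * Complex.I) • (1 : Matrix ι ι ℂ)) := by abel
  rw [e, Matrix.mul_sub, h1, Matrix.sub_mul, Matrix.one_mul, Matrix.mul_assoc, h2, Matrix.mul_one]
  abel

theorem gG_T {s : ℝ} (hs : 0 < s) (S : Sd ι) :
    S.fc (gG s) = 1 - ((s : ℂ) * Complex.I) • S.fc (gT s) := by
  rw [← S.fc_one, S.fc_smul, S.fc_sub]
  refine S.fc_congr fun t => ?_
  have h := gT_mul hs t
  unfold gG
  rw [← h]
  ring

theorem gG_sub {s : ℝ} (hs : 0 < s) (S S' : Sd ι) :
    S.fc (gG s) - S'.fc (gG s) =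
      ((s : ℂ) * Complex.I) • (S.fc (gT s) * (S.mat - S'.mat) * S'.fc (gT s)) := by
  rw [gG_T hs, gG_T hs]
  have h := resolvent hs S S'
  have : (1 - ((s : ℂ) * Complex.I) • S.fc (gT s)) - (1 - ((s : ℂ) * Complex.I) • S'.fc (gT s)) =
      -(((s : ℂ) * Complex.I) • (S.fc (gT s) - S'.fc (gT s))) := by
    rw [smul_sub]; abel
  rw [this, h, smul_neg, neg_neg]

theorem local_G (r : ℕ) {s : ℝ} (hs : 0 < s) (S S' Sδ : Sd ι) (hδ : Sδ.mat = S.mat - S'.mat)
    (Z : Matrix ι ι ℂ) :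
    ‖(Z * (S.fc (gG s) - S'.fc (gG s))).trace‖ ≤ 2 * nm r Z * (en r s Sδ) ^ be r := by
  classical
  -- the split
  set g1 : ℝ → ℂ := fun t => if |t| ≤ s then (t : ℂ) else 0 with hg1
  set g2 : ℝ → ℂ := fun t => if |t| ≤ s then 0 else (t : ℂ) with hg2
  have hsplit : Sδ.mat = Sδ.fc g1 + Sδ.fc g2 := by
    rw [Sδ.fc_add]
    refine Sδ.fc_congr fun t => ?_
    simp only [hg1, hg2]
    split_ifs <;> simp
  have hherm : (S'.mat + Sδ.fc g1).IsHermitian := by
    refine S'.mat_herm.add ?_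
    rw [Matrix.IsHermitian, Sδ.fc_conj]
    refine Sδ.fc_congr fun t => ?_
    simp only [hg1]
    split_ifs
    · rw [Complex.star_def, Complex.conj_ofReal]
    · simp
  obtain ⟨S'', hS''⟩ := exists_sd hherm
  have hd1 : S''.mat - S'.mat = Sδ.fc g1 := by rw [hS'']; abel
  have hd2 : S.mat - S''.mat = Sδ.fc g2 := by
    rw [hS'']
    have : S.mat - S'.mat = Sδ.fc g1 + Sδ.fc g2 := by rw [← hδ, hsplit]
    rw [← sub_sub, this]
    abel
  have hE0 := en_nonneg r hs Sδ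
  -- part 2: small rank
  have p2 : ‖(Z * (S.fc (gG s) - S''.fc (gG s))).trace‖ ≤ nm r Z * (en r s Sδ) ^ be r := by
    set ρ := (Finset.univ.filter fun k => ¬ |Sδ.ev k| ≤ s).card with hρ
    have hrank : (S.fc (gG s) - S''.fc (gG s)).rank ≤ ρ := by
      rw [gG_sub hs, hd2]
      have : ((s : ℂ) * Complex.I) • (S.fc (gT s) * Sδ.fc g2 * S''.fc (gT s)) =
        (((s : ℂ) * Complex.I) • S.fc (gT s)) * (Sδ.fc g2 * S''.fc (gT s)) := by
        rw [Matrix.smul_mul, Matrix.mul_assoc]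
      rw [this]
      refine (Matrix.rank_mul_le_right _ _).trans ((Matrix.rank_mul_le_left _ _).trans ?_)
      unfold Sd.fc
      refine (Matrix.rank_mul_le_left _ _).trans ((Matrix.rank_mul_le_right _ _).trans ?_)
      rw [Matrix.rank_diagonal, Fintype.card_subtype]
      refine Finset.card_le_card fun k hk => ?_
      rw [Finset.mem_filter] at hk ⊢
      refine ⟨hk.1, fun hc => hk.2 ?_⟩
      simp only [hg2, hc, if_true]
    have hD : S.fc (gG s) - S''.fc (gG s) = (1 / 2 : ℂ) • (S.fc (gC s) - S''.fc (gC s)) := by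
      have h1 : ∀ R : Sd ι, R.fc (gG s) = (1 / 2 : ℂ) • (1 + R.fc (gC s)) := by
        intro R
        rw [← R.fc_one, R.fc_add, R.fc_smul]
        refine R.fc_congr fun t => ?_
        rw [gG_eq hs]; ring
      rw [h1, h1, ← smul_sub]
      congr 1
      abel
    refine (rank_bound r (S.fc_unit _ (gC_unit hs)) (S''.fc_unit _ (gC_unit hs)) Z hD hrank).trans ?_
    refine mul_le_mul_of_nonneg_left ?_ (nm_nonneg _ _)
    refine Real.rpow_le_rpow (by positivity) ?_ (be_pos r).le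
    unfold en
    have h2 : (ρ : ℝ) = ∑ k, if ¬ |Sδ.ev k| ≤ s then (1 : ℝ) else 0 := by
      rw [Finset.sum_boole]
    rw [h2]
    refine Finset.sum_le_sum fun k _ => ?_
    split_ifs with hk
    · exact Real.rpow_nonneg (le_min zero_le_one (by positivity)) _
    · push Not at hk
      rw [min_eq_left ((one_le_div hs).2 hk.le), Real.one_rpow]
  -- part 1: small entries
  have p1 : ‖(Z * (S''.fc (gG s) - S'.fc (gG s))).trace‖ ≤ nm r Z * (en r s Sδ) ^ be r := by
    set g3 : ℝ → ℂ := fun t => if |t| ≤ s then ((t / s : ℝ) : ℂ) else 0 with hg3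
    set F := Sδ.fc g3 with hF
    have hC1 := S''.fc_unit _ (gC_unit hs)
    have hC2 := S'.fc_unit _ (gC_unit hs)
    set C1 := S''.fc (gC s) with hC1d
    set C2 := S'.fc (gC s) with hC2d
    have hs' : (s : ℂ) ≠ 0 := by exact_mod_cast hs.ne'
    have hT : ∀ R : Sd ι, R.fc (gT s) = (1 / (2 * (s * Complex.I)) : ℂ) • (1 - R.fc (gC s)) := by
      intro R
      rw [← R.fc_one, R.fc_sub, R.fc_smul]
      refine R.fc_congr fun t => ?_
      rw [gC_eq hs]; ring
    have hF1 : Sδ.fc g1 = (s : ℂ) • F := by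
      rw [hF, Sδ.fc_smul]
      refine Sδ.fc_congr fun t => ?_
      simp only [hg1, hg3]
      split_ifs
      · push_cast; field_simp
      · simp
    have e1 : S''.fc (gG s) - S'.fc (gG s) = (-(Complex.I / 4)) • ((1 - C1) * F * (1 - C2)) := by
      rw [gG_sub hs, hd1, hF1, hT, hT]
      simp only [Matrix.smul_mul, Matrix.mul_smul, smul_smul]
      congr 1
      have hI := Complex.I_mul_I
      field_simp
      rw [Complex.I_sq]
      ring
    have e2 : (Z * ((1 - C1) * F * (1 - C2))).trace = (Z * F).trace - (Z * C1 * F).trace -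
        (C2 * Z * F).trace + (C2 * (Z * C1) * F).trace := by
      have h1 : (Z * F * C2).trace = (C2 * Z * F).trace := by
        rw [Matrix.trace_mul_comm, ← Matrix.mul_assoc]
      have h2 : (Z * C1 * F * C2).trace = (C2 * (Z * C1) * F).trace := by
        rw [Matrix.trace_mul_comm, ← Matrix.mul_assoc]
      rw [← h1, ← h2, ← Matrix.trace_sub, ← Matrix.trace_sub, ← Matrix.trace_add]
      congr 1
      noncomm_ring
    set Q := (∑ k, ‖g3 (Sδ.ev k)‖ ^ (be r)⁻¹) ^ be r with hQ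
    have b0 : ‖(Z * F).trace‖ ≤ nm r Z * Q := trace_fc_le r Sδ Z g3
    have b1 : ‖(Z * C1 * F).trace‖ ≤ nm r Z * Q := by
      have := trace_fc_le r Sδ (Z * C1) g3
      rwa [nm_mul_unit _ (mul_eq_one_comm.1 hC1)] at this
    have b2 : ‖(C2 * Z * F).trace‖ ≤ nm r Z * Q := by
      have := trace_fc_le r Sδ (C2 * Z) g3
      rwa [nm_unit_mul _ hC2] at this
    have b3 : ‖(C2 * (Z * C1) * F).trace‖ ≤ nm r Z * Q := by
      have := trace_fc_le r Sδ (C2 * (Z * C1)) g3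
      rwa [nm_unit_mul _ hC2, nm_mul_unit _ (mul_eq_one_comm.1 hC1)] at this
    have b4 : ‖(Z * ((1 - C1) * F * (1 - C2))).trace‖ ≤ 4 * (nm r Z * Q) := by
      rw [e2]
      have := norm_add_le ((Z * F).trace - (Z * C1 * F).trace - (C2 * Z * F).trace)
        (C2 * (Z * C1) * F).trace
      have := norm_sub_le ((Z * F).trace - (Z * C1 * F).trace) (C2 * Z * F).trace
      have := norm_sub_le (Z * F).trace (Z * C1 * F).trace
      linarith
    rw [e1, Matrix.mul_smul, Matrix.trace_smul, smul_eq_mul, norm_mul, norm_neg, norm_div,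
      Complex.norm_I]
    have hQE : Q ≤ (en r s Sδ) ^ be r := by
      refine Real.rpow_le_rpow (Finset.sum_nonneg fun _ _ => Real.rpow_nonneg (norm_nonneg _) _) ?_
        (be_pos r).le
      unfold en
      refine Finset.sum_le_sum fun k _ => ?_
      refine Real.rpow_le_rpow (norm_nonneg _) ?_ (inv_nonneg.2 (be_pos r).le)
      simp only [hg3]
      split_ifs with hk
      · rw [Complex.norm_real, Real.norm_eq_abs, abs_div, abs_of_pos hs]
        exact le_min ((div_le_one hs).2 hk) (le_refl _)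
      · rw [norm_zero]; exact le_min zero_le_one (by positivity)
    have h4 : ‖(4 : ℂ)‖ = 4 := by simp
    rw [h4]
    have := mul_le_mul_of_nonneg_left hQE (nm_nonneg r Z)
    linarith
  have e : Z * (S.fc (gG s) - S'.fc (gG s)) = Z * (S.fc (gG s) - S''.fc (gG s)) +
      Z * (S''.fc (gG s) - S'.fc (gG s)) := by
    rw [← Matrix.mul_add]; congr 1; abel
  rw [e, Matrix.trace_add]
  refine (norm_add_le _ _).trans ?_
  linarith

/-- the even part function -/
noncomputable def gP (s t : ℝ) : ℝ := t ^ 2 / (t ^ 2 + s ^ 2)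

/-- the odd part function -/
noncomputable def gQ (s t : ℝ) : ℝ := -(s * t) / (t ^ 2 + s ^ 2)

theorem gG_PQ {s : ℝ} (hs : 0 < s) (t : ℝ) : gG s t = (gP s t : ℂ) + Complex.I * (gQ s t : ℂ) := by
  have h := gT_mul hs t
  have hd : ((t : ℂ) ^ 2 + (s : ℂ) ^ 2) ≠ 0 := by
    have : 0 < t ^ 2 + s ^ 2 := by positivity
    exact_mod_cast this.ne'
  unfold gG gP gQ gT
  push_cast
  have h1 := den_ne hs t
  rw [← div_eq_mul_inv, div_eq_iff h1]
  field_simp
  ring_nf
  rw [Complex.I_sq]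
  ring

theorem fc_P {s : ℝ} (hs : 0 < s) (S : Sd ι) :
    S.fc (fun t => (gP s t : ℂ)) = (1 / 2 : ℂ) • (S.fc (gG s) + (S.fc (gG s))ᴴ) := by
  rw [S.fc_conj, S.fc_add, S.fc_smul]
  refine S.fc_congr fun t => ?_
  rw [gG_PQ hs]
  simp only [Complex.star_def, map_add, map_mul, Complex.conj_ofReal, Complex.conj_I]
  ring

theorem fc_Q {s : ℝ} (hs : 0 < s) (S : Sd ι) :
    S.fc (fun t => (gQ s t : ℂ)) = (-Complex.I / 2 : ℂ) • (S.fc (gG s) - (S.fc (gG s))ᴴ) := by
  rw [S.fc_conj, S.fc_sub, S.fc_smul]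
  refine S.fc_congr fun t => ?_
  rw [gG_PQ hs]
  simp only [Complex.star_def, map_add, map_mul, Complex.conj_ofReal, Complex.conj_I]
  ring_nf
  rw [Complex.I_sq]
  ring

theorem local_Gc (r : ℕ) {s : ℝ} (hs : 0 < s) (S S' Sδ : Sd ι) (hδ : Sδ.mat = S.mat - S'.mat)
    (Z : Matrix ι ι ℂ) :
    ‖(Z * ((S.fc (gG s))ᴴ - (S'.fc (gG s))ᴴ)).trace‖ ≤ 2 * nm r Z * (en r s Sδ) ^ be r := by
  have h := local_G r hs S S' Sδ hδ Zᴴ
  rw [nm_conj] at h
  refine le_trans (le_of_eq ?_) h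
  rw [← Matrix.conjTranspose_sub]
  have : Z * (S.fc (gG s) - S'.fc (gG s))ᴴ = ((S.fc (gG s) - S'.fc (gG s)) * Zᴴ)ᴴ := by
    rw [Matrix.conjTranspose_mul, Matrix.conjTranspose_conjTranspose]
  rw [this, Matrix.trace_conjTranspose, norm_star, Matrix.trace_mul_comm]

theorem local_P (r : ℕ) {s : ℝ} (hs : 0 < s) (S S' Sδ : Sd ι) (hδ : Sδ.mat = S.mat - S'.mat)
    (Z : Matrix ι ι ℂ) :
    ‖(Z * (S.fc (fun t => (gP s t : ℂ)) - S'.fc (fun t => (gP s t : ℂ)))).trace‖ ≤
      2 * nm r Z * (en r s Sδ) ^ be r := by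
  have h1 := local_G r hs S S' Sδ hδ Z
  have h2 := local_Gc r hs S S' Sδ hδ Z
  have e : Z * (S.fc (fun t => (gP s t : ℂ)) - S'.fc (fun t => (gP s t : ℂ))) =
      (1 / 2 : ℂ) • (Z * (S.fc (gG s) - S'.fc (gG s)) + Z * ((S.fc (gG s))ᴴ - (S'.fc (gG s))ᴴ)) := by
    rw [fc_P hs, fc_P hs, ← smul_sub, Matrix.mul_smul, ← Matrix.mul_add]
    congr 2
    abel
  rw [e, Matrix.trace_smul, smul_eq_mul, norm_mul, Matrix.trace_add]
  have h3 := norm_add_le (Z * (S.fc (gG s) - S'.fc (gG s))).trace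
    (Z * ((S.fc (gG s))ᴴ - (S'.fc (gG s))ᴴ)).trace
  have h5 : ‖(1 / 2 : ℂ)‖ = 1 / 2 := by simp
  rw [h5]
  linarith

theorem local_Q (r : ℕ) {s : ℝ} (hs : 0 < s) (S S' Sδ : Sd ι) (hδ : Sδ.mat = S.mat - S'.mat)
    (Z : Matrix ι ι ℂ) :
    ‖(Z * (S.fc (fun t => (gQ s t : ℂ)) - S'.fc (fun t => (gQ s t : ℂ)))).trace‖ ≤
      2 * nm r Z * (en r s Sδ) ^ be r := by
  have h1 := local_G r hs S S' Sδ hδ Z
  have h2 := local_Gc r hs S S' Sδ hδ Z
  have e : Z * (S.fc (fun t => (gQ s t : ℂ)) - S'.fc (fun t => (gQ s t : ℂ))) =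
      (-Complex.I / 2 : ℂ) •
        (Z * (S.fc (gG s) - S'.fc (gG s)) - Z * ((S.fc (gG s))ᴴ - (S'.fc (gG s))ᴴ)) := by
    rw [fc_Q hs, fc_Q hs, ← smul_sub, Matrix.mul_smul, ← Matrix.mul_sub]
    congr 2
    abel
  rw [e, Matrix.trace_smul, smul_eq_mul, norm_mul, Matrix.trace_sub]
  have h3 := norm_sub_le (Z * (S.fc (gG s) - S'.fc (gG s))).trace
    (Z * ((S.fc (gG s))ᴴ - (S'.fc (gG s))ᴴ)).trace
  have h5 : ‖(-Complex.I / 2 : ℂ)‖ = 1 / 2 := by simp
  rw [h5]
  linarith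

end TH364.SG
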