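import Mathlib
import Pool.Agent.TH364.SG.Loc
set_option autoImplicit false
set_option linter.unusedSectionVars false

/-! Scalar estimates: dyadic sums over scales. -/

namespace TH364.SG

open Matrix Finset

/-- the telescoping function -/
noncomputable def tel (θ δ a : ℝ) : ℝ := δ * (1 - (δ / (a + δ)) ^ θ)

theorem tel_step {θ : ℝ} (h0 : 0 < θ) (h1 : θ ≤ 1) {δ a : ℝ} (hδ : 0 ≤ δ) (ha : 0 < a) :
    a * (min 1 (δ / a)) ^ (1 + θ) ≤ 6 / θ * (tel θ δ (2 * a) - tel θ δ a) := by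
  rcases hδ.eq_or_lt with h | hd
  · rw [← h]
    unfold tel
    simp [Real.zero_rpow (by linarith : (1 + θ) ≠ 0)]
  · set u := δ / (a + δ) with hu
    set v := δ / (2 * a + δ) with hv
    have hu0 : 0 < u := by positivity
    have hv0 : 0 < v := by positivity
    have hvu : v = u * (1 + (-(a / (2 * a + δ)))) := by
      rw [hu, hv]; field_simp; ring
    have hx1 : -1 ≤ -(a / (2 * a + δ)) := by
      have : a / (2 * a + δ) ≤ 1 := by rw [div_le_one (by positivity)]; linarith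
      linarith
    have hb := _root_.rpow_one_add_le_one_add_mul_self hx1 h0.le h1
    have hnn : 0 ≤ 1 + (-(a / (2 * a + δ))) := by linarith
    have e1 : v ^ θ ≤ u ^ θ * (1 + θ * (-(a / (2 * a + δ)))) := by
      rw [hvu, Real.mul_rpow hu0.le hnn]
      exact mul_le_mul_of_nonneg_left hb (Real.rpow_nonneg hu0.le _)
    have e2 : tel θ δ (2 * a) - tel θ δ a = δ * (u ^ θ - v ^ θ) := by
      unfold tel; rw [← hu, ← hv]; ring
    have e3 : δ * (θ * u ^ θ * (a / (2 * a + δ))) ≤ tel θ δ (2 * a) - tel θ δ a := by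
      rw [e2]
      refine mul_le_mul_of_nonneg_left ?_ hd.le
      nlinarith
    have e4 : a * (min 1 (δ / a)) ^ (1 + θ) ≤ 6 * (δ * (u ^ θ * (a / (2 * a + δ)))) := by
      rcases le_total a δ with hc | hc
      · rw [min_eq_left ((one_le_div ha).2 hc), Real.one_rpow, mul_one]
        have h2 : (1 / 2 : ℝ) ≤ u ^ θ := by
          have h3 : (1 / 2 : ℝ) ≤ u := by
            rw [hu, div_le_div_iff₀ (by norm_num) (by positivity)]; linarith
          have h4 : u ≤ u ^ θ := by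
            have hu1 : u ≤ 1 := by rw [hu, div_le_one (by positivity)]; linarith
            have := Real.rpow_le_rpow_of_exponent_ge hu0 hu1 h1
            rwa [Real.rpow_one] at this
          linarith
        have h5 : a / (3 * δ) ≤ a / (2 * a + δ) :=
          div_le_div_of_nonneg_left ha.le (by positivity) (by linarith)
        have h6 : 1 / 2 * (a / (3 * δ)) ≤ u ^ θ * (a / (2 * a + δ)) :=
          mul_le_mul h2 h5 (by positivity) (by positivity)
        have h7 : a = 6 * (δ * (1 / 2 * (a / (3 * δ)))) := by field_simp; ring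
        calc a = 6 * (δ * (1 / 2 * (a / (3 * δ)))) := h7
          _ ≤ _ := by
            refine mul_le_mul_of_nonneg_left (mul_le_mul_of_nonneg_left h6 hd.le) (by norm_num)
      · rw [min_eq_right ((div_le_one ha).2 hc)]
        have h2 : (1 / 2 : ℝ) * (δ / a) ^ θ ≤ u ^ θ := by
          have h3 : (1 / 2 : ℝ) * (δ / a) ≤ u := by
            have : (1 / 2 : ℝ) * (δ / a) = δ / (a + a) := by field_simp; ring
            rw [this, hu]
            exact div_le_div_of_nonneg_left hd.le (by positivity) (by linarith)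
          have h4 : (1 / 2 : ℝ) ≤ (1 / 2 : ℝ) ^ θ := by
            have := Real.rpow_le_rpow_of_exponent_ge (by norm_num : (0 : ℝ) < 1 / 2)
              (by norm_num : (1 / 2 : ℝ) ≤ 1) h1
            rwa [Real.rpow_one] at this
          calc (1 / 2 : ℝ) * (δ / a) ^ θ ≤ (1 / 2 : ℝ) ^ θ * (δ / a) ^ θ :=
                mul_le_mul_of_nonneg_right h4 (Real.rpow_nonneg (by positivity) _)
            _ = ((1 / 2 : ℝ) * (δ / a)) ^ θ := by
                rw [Real.mul_rpow (by norm_num) (by positivity)]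
            _ ≤ u ^ θ := Real.rpow_le_rpow (by positivity) h3 h0.le
        have h5 : a / (3 * a) ≤ a / (2 * a + δ) :=
          div_le_div_of_nonneg_left ha.le (by positivity) (by linarith)
        have h6 : 1 / 2 * (δ / a) ^ θ * (a / (3 * a)) ≤ u ^ θ * (a / (2 * a + δ)) :=
          mul_le_mul h2 h5 (by positivity) (by positivity)
        have h7 : a * (δ / a) ^ (1 + θ) = 6 * (δ * (1 / 2 * (δ / a) ^ θ * (a / (3 * a)))) := by
          rw [Real.rpow_add (by positivity), Real.rpow_one]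
          field_simp
          ring
        rw [h7]
        exact mul_le_mul_of_nonneg_left (mul_le_mul_of_nonneg_left h6 hd.le) (by norm_num)
    refine e4.trans ?_
    rw [div_mul_eq_mul_div, le_div_iff₀ h0]
    nlinarith

theorem tel_range {θ : ℝ} (h0 : 0 < θ) {δ a : ℝ} (hδ : 0 ≤ δ) (ha : 0 < a) :
    0 ≤ tel θ δ a ∧ tel θ δ a ≤ δ := by
  have h1 : 0 ≤ (δ / (a + δ)) ^ θ := by positivity
  have h2 : (δ / (a + δ)) ^ θ ≤ 1 := by
    apply Real.rpow_le_one (by positivity) _ h0.le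
    rw [div_le_one (by positivity)]; linarith
  unfold tel
  constructor
  · exact mul_nonneg hδ (by linarith)
  · nlinarith

/-- dyadic scales -/
noncomputable def sc (s0 : ℝ) (i : ℕ) : ℝ := s0 * 2 ^ i

theorem sc_pos {s0 : ℝ} (h : 0 < s0) (i : ℕ) : 0 < sc s0 i := by unfold sc; positivity

theorem sc_succ (s0 : ℝ) (i : ℕ) : sc s0 (i + 1) = 2 * sc s0 i := by unfold sc; ring

theorem scale_sum {θ : ℝ} (h0 : 0 < θ) (h1 : θ ≤ 1) {s0 : ℝ} (hs : 0 < s0) {δ : ℝ} (hδ : 0 ≤ δ)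
    (M : ℕ) : ∑ i ∈ Finset.range M, sc s0 i * (min 1 (δ / sc s0 i)) ^ (1 + θ) ≤ 6 / θ * δ := by
  have h2 : ∀ i ∈ Finset.range M, sc s0 i * (min 1 (δ / sc s0 i)) ^ (1 + θ) ≤
      6 / θ * (tel θ δ (sc s0 (i + 1)) - tel θ δ (sc s0 i)) := by
    intro i _
    rw [sc_succ]
    exact tel_step h0 h1 hδ (sc_pos hs i)
  refine (Finset.sum_le_sum h2).trans ?_
  rw [← Finset.mul_sum, Finset.sum_range_sub (fun i => tel θ δ (sc s0 i))]
  refine mul_le_mul_of_nonneg_left ?_ (by positivity)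
  have a1 := (tel_range h0 hδ (sc_pos hs M)).2
  have a2 := (tel_range h0 hδ (sc_pos hs 0)).1
  linarith

theorem gP_le {s : ℝ} (hs : 0 < s) (t : ℝ) : |gP s t| ≤ min 1 (|t| / s) := by
  unfold gP
  rw [abs_of_nonneg (by positivity)]
  refine le_min ?_ ?_
  · rw [div_le_one (by positivity)]; nlinarith
  · rw [div_le_div_iff₀ (by positivity) hs]
    have h := abs_nonneg t
    have h2 : t ^ 2 = |t| ^ 2 := (sq_abs t).symm
    rw [h2]
    nlinarith [mul_nonneg h (sq_nonneg (|t| - s)), mul_nonneg h (mul_nonneg h hs.le), mul_nonneg h (sq_nonneg |t|), mul_nonneg h (sq_nonneg s)]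

theorem gQ_le {s : ℝ} (hs : 0 < s) (t : ℝ) : |gQ (2 * s) t| ≤ min 1 (|t| / s) := by
  unfold gQ
  rw [abs_div, abs_neg, abs_mul, abs_of_pos (by positivity : (0 : ℝ) < 2 * s),
    abs_of_pos (by positivity : (0 : ℝ) < t ^ 2 + (2 * s) ^ 2)]
  have h := abs_nonneg t
  have h2 : t ^ 2 = |t| ^ 2 := (sq_abs t).symm
  rw [h2]
  refine le_min ?_ ?_
  · rw [div_le_one (by positivity)]
    nlinarith [sq_nonneg (|t| - 2 * s)]
  · rw [div_le_div_iff₀ (by positivity) hs]
    nlinarith [mul_nonneg h (sq_nonneg |t|), mul_nonneg h (sq_nonneg s)]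

theorem pow_min_le {x y : ℝ} (hx : 0 ≤ x) (hxy : x ≤ min 1 y) (r : ℕ) :
    x ^ (2 * 2 ^ r) ≤ (min 1 y) ^ (1 + (1 : ℝ)) := by
  have h1 : x ≤ 1 := hxy.trans (min_le_left _ _)
  have h2 : x ^ (2 * 2 ^ r) ≤ x ^ 2 := by
    apply pow_le_pow_of_le_one hx h1
    have := Nat.one_le_two_pow (n := r)
    omega
  have h3 : (min 1 y) ^ (1 + (1 : ℝ)) = (min 1 y) ^ 2 := by
    rw [show (1 + (1 : ℝ)) = ((2 : ℕ) : ℝ) by norm_num, Real.rpow_natCast]
  rw [h3]
  exact h2.trans (pow_le_pow_left₀ hx hxy 2)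

theorem sumP_le (r : ℕ) {s0 : ℝ} (hs : 0 < s0) (t : ℝ) (M : ℕ) :
    ∑ i ∈ Finset.range M, sc s0 i * |gP (sc s0 i) t| ^ (2 * 2 ^ r) ≤ 6 * |t| := by
  have h := scale_sum one_pos le_rfl hs (abs_nonneg t) M
  rw [div_one] at h
  refine le_trans (Finset.sum_le_sum fun i _ => ?_) h
  exact mul_le_mul_of_nonneg_left (pow_min_le (abs_nonneg _) (gP_le (sc_pos hs i) t) r)
    (sc_pos hs i).le

theorem sumQ_le (r : ℕ) {s0 : ℝ} (hs : 0 < s0) (t : ℝ) (M : ℕ) :
    ∑ i ∈ Finset.range M, sc s0 i * |gQ (2 * sc s0 i) t| ^ (2 * 2 ^ r) ≤ 6 * |t| := by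
  have h := scale_sum one_pos le_rfl hs (abs_nonneg t) M
  rw [div_one] at h
  refine le_trans (Finset.sum_le_sum fun i _ => ?_) h
  exact mul_le_mul_of_nonneg_left (pow_min_le (abs_nonneg _) (gQ_le (sc_pos hs i) t) r)
    (sc_pos hs i).le

/-- the error function -/
noncomputable def er (s0 : ℝ) (M : ℕ) (t : ℝ) : ℝ :=
  t - ∑ i ∈ Finset.range M, (-(3 * sc s0 i / 2)) * (gP (sc s0 i) t * gQ (2 * sc s0 i) t)

/-- the resolvent truncation -/
noncomputable def tr (s t : ℝ) : ℝ := s ^ 2 * t / (s ^ 2 + t ^ 2)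

theorem tr_step {s : ℝ} (hs : 0 < s) (t : ℝ) :
    (-(3 * s / 2)) * (gP s t * gQ (2 * s) t) = tr (2 * s) t - tr s t := by
  unfold gP gQ tr
  have h1 : t ^ 2 + s ^ 2 ≠ 0 := by positivity
  have h2 : t ^ 2 + (2 * s) ^ 2 ≠ 0 := by positivity
  have h3 : s ^ 2 + t ^ 2 ≠ 0 := by positivity
  have h4 : (2 * s) ^ 2 + t ^ 2 ≠ 0 := by positivity
  field_simp
  ring

theorem er_le {s0 : ℝ} (hs : 0 < s0) (M : ℕ) (t : ℝ) :
    |er s0 M t| ≤ |t| ^ 3 / (sc s0 M) ^ 2 + s0 := by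
  have e1 : ∑ i ∈ Finset.range M, (-(3 * sc s0 i / 2)) * (gP (sc s0 i) t * gQ (2 * sc s0 i) t) =
      tr (sc s0 M) t - tr s0 t := by
    have : ∀ i ∈ Finset.range M, (-(3 * sc s0 i / 2)) * (gP (sc s0 i) t * gQ (2 * sc s0 i) t) =
        tr (sc s0 (i + 1)) t - tr (sc s0 i) t := by
      intro i _
      rw [tr_step (sc_pos hs i), sc_succ]
    rw [Finset.sum_congr rfl this, Finset.sum_range_sub (fun i => tr (sc s0 i) t)]
    congr 2
    unfold sc; simp
  unfold er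
  rw [e1]
  have hM := sc_pos hs M
  have e2 : t - (tr (sc s0 M) t - tr s0 t) = t ^ 3 / ((sc s0 M) ^ 2 + t ^ 2) + tr s0 t := by
    unfold tr
    have : (sc s0 M) ^ 2 + t ^ 2 ≠ 0 := by positivity
    field_simp
    ring
  rw [e2]
  refine (abs_add_le _ _).trans (add_le_add ?_ ?_)
  · rw [abs_div, abs_pow, abs_of_pos (by positivity : (0 : ℝ) < (sc s0 M) ^ 2 + t ^ 2)]
    exact div_le_div_of_nonneg_left (by positivity) (by positivity) (by nlinarith)
  · unfold tr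
    rw [abs_div, abs_mul, abs_of_nonneg (sq_nonneg s0),
      abs_of_pos (by positivity : (0 : ℝ) < s0 ^ 2 + t ^ 2), div_le_iff₀ (by positivity)]
    have h2 : t ^ 2 = |t| ^ 2 := (sq_abs t).symm
    rw [h2]
    have h := abs_nonneg t
    nlinarith [mul_nonneg hs.le (sq_nonneg (s0 - |t|)), mul_nonneg hs.le (mul_nonneg hs.le h)]

theorem exists_scales (B : ℝ) {η : ℝ} (hη : 0 < η) :
    ∃ s0 : ℝ, 0 < s0 ∧ ∃ M : ℕ, ∀ t : ℝ, |t| ≤ B → |er s0 M t| ≤ η := by
  refine ⟨η / 2, by positivity, ?_⟩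
  obtain ⟨M, hM⟩ := pow_unbounded_of_one_lt (B ^ 3 / (η / 2) ^ 3) (by norm_num : (1 : ℝ) < 2)
  refine ⟨M, fun t ht => (er_le (by positivity) M t).trans ?_⟩
  have h1 : |t| ^ 3 / (sc (η / 2) M) ^ 2 ≤ η / 2 := by
    have hsc := sc_pos (show 0 < η / 2 by positivity) M
    rw [div_le_iff₀ (by positivity)]
    have h2 : |t| ^ 3 ≤ B ^ 3 := pow_le_pow_left₀ (abs_nonneg _) ht 3
    have h3 : B ^ 3 < 2 ^ M * (η / 2) ^ 3 := by
      rwa [div_lt_iff₀ (by positivity)] at hM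
    have h4 : (2 : ℝ) ^ M ≤ (2 ^ M) ^ 2 := by
      have : (1 : ℝ) ≤ 2 ^ M := one_le_pow₀ (by norm_num)
      nlinarith
    have h5 : η / 2 * (sc (η / 2) M) ^ 2 = (2 ^ M) ^ 2 * (η / 2) ^ 3 := by unfold sc; ring
    rw [h5]
    have h6 : (2 : ℝ) ^ M * (η / 2) ^ 3 ≤ (2 ^ M) ^ 2 * (η / 2) ^ 3 :=
      mul_le_mul_of_nonneg_right h4 (by positivity)
    linarith
  linarith

end TH364.SG
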