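import Mathlib
import Pool.Agent.TH364.SG.Scal
set_option autoImplicit false
set_option linter.unusedSectionVars false

/-! Assembly: the metric inequality for the trace norm on a finite abelian group. -/

namespace TH364.SG

open Matrix Finset
open scoped ComplexOrder

universe u v
variable {ι : Type u} [Fintype ι] [DecidableEq ι] {J : Type v} [Fintype J] [DecidableEq J]

/-- spectral data of the difference -/
noncomputable def dif (S S' : Sd ι) : Sd ι := (exists_sd (S.mat_herm.sub S'.mat_herm)).choose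

theorem dif_spec (S S' : Sd ι) : (dif S S').mat = S.mat - S'.mat :=
  (exists_sd (S.mat_herm.sub S'.mat_herm)).choose_spec

/-- the trace norm of a Hermitian matrix given by spectral data -/
noncomputable def tn (S : Sd ι) : ℝ := ∑ k, |S.ev k|

theorem tn_nonneg (S : Sd ι) : 0 ≤ tn S := Finset.sum_nonneg fun _ _ => abs_nonneg _

/-- sign function -/
noncomputable def gs (t : ℝ) : ℂ := if 0 ≤ t then 1 else -1

theorem gs_unit (t : ℝ) : star (gs t) * gs t = 1 := by
  unfold gs; split_ifs <;> simp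

theorem sign_unit (S : Sd ι) : (S.fc gs)ᴴ * S.fc gs = 1 := S.fc_unit _ gs_unit

theorem tn_eq (S : Sd ι) : (S.fc gs * S.mat).trace = ((tn S : ℝ) : ℂ) := by
  unfold Sd.mat tn
  rw [S.fc_mul, S.trace_fc]
  push_cast
  refine Finset.sum_congr rfl fun k _ => ?_
  unfold gs
  split_ifs with h
  · rw [abs_of_nonneg h, one_mul]
  · push Not at h
    rw [abs_of_neg h]; push_cast; ring

/-- the exponent theta -/
noncomputable def th (r : ℕ) : ℝ := (be r)⁻¹ - 1

theorem th_eq (r : ℕ) : th r = ((((2 ^ (r + 1) : ℕ) : ℝ)) - 1)⁻¹ := by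
  have h : (2 : ℝ) ≤ ((2 ^ (r + 1) : ℕ) : ℝ) := by exact_mod_cast two_le_P r
  unfold th be
  set P := (((2 ^ (r + 1) : ℕ) : ℝ)) with hP
  have h1 : P ≠ 0 := by positivity
  have h2 : P - 1 ≠ 0 := by linarith
  have h3 : 1 - P⁻¹ ≠ 0 := by
    intro h4
    have h5 : P⁻¹ = 1 := by linarith
    have h6 : P = 1 := inv_eq_one.1 h5
    linarith
  field_simp
  ring

theorem th_pos (r : ℕ) : 0 < th r := by
  have h : (2 : ℝ) ≤ ((2 ^ (r + 1) : ℕ) : ℝ) := by exact_mod_cast two_le_P r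
  rw [th_eq]
  apply inv_pos.2
  linarith

theorem th_le (r : ℕ) : th r ≤ 1 := by
  have h : (2 : ℝ) ≤ ((2 ^ (r + 1) : ℕ) : ℝ) := by exact_mod_cast two_le_P r
  rw [th_eq]
  apply inv_le_one_of_one_le₀
  linarith

theorem six_th (r : ℕ) : 6 / th r ≤ 6 * (((2 ^ (r + 1) : ℕ) : ℝ)) := by
  rw [th_eq, div_inv_eq_mul]
  linarith

theorem en_sum (r : ℕ) {s0 : ℝ} (hs : 0 < s0) (S : Sd ι) (M : ℕ) :
    ∑ i ∈ Finset.range M, sc s0 i * en r (sc s0 i) S ≤ 6 / th r * tn S := by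
  unfold en tn
  simp only [Finset.mul_sum]
  rw [Finset.sum_comm]
  refine Finset.sum_le_sum fun k _ => ?_
  have h := scale_sum (th_pos r) (th_le r) hs (abs_nonneg (S.ev k)) M
  have e : 1 + th r = (be r)⁻¹ := by unfold th; ring
  rwa [e] at h

theorem en_mono (r : ℕ) {s : ℝ} (hs : 0 < s) (S : Sd ι) : en r (2 * s) S ≤ en r s S := by
  unfold en
  refine Finset.sum_le_sum fun k _ => ?_
  refine Real.rpow_le_rpow (le_min zero_le_one (by positivity)) ?_ (inv_nonneg.2 (be_pos r).le)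
  refine min_le_min le_rfl ?_
  exact div_le_div_of_nonneg_left (abs_nonneg _) hs (by linarith)

/-- P at scale s -/
noncomputable def MP (S : Sd ι) (s : ℝ) : Matrix ι ι ℂ := S.fc (fun t => (gP s t : ℂ))

/-- Q at scale 2s -/
noncomputable def MQ (S : Sd ι) (s : ℝ) : Matrix ι ι ℂ := S.fc (fun t => (gQ (2 * s) t : ℂ))

theorem loc_MP (r : ℕ) {s : ℝ} (hs : 0 < s) (S S' : Sd ι) (Z : Matrix ι ι ℂ) :
    ‖(Z * ((1 / 2 : ℂ) • MP S s - (1 / 2 : ℂ) • MP S' s)).trace‖ ≤
      nm r Z * (en r s (dif S S')) ^ be r := by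
  have h := local_P r hs S S' (dif S S') (dif_spec S S') Z
  unfold MP
  rw [← smul_sub, Matrix.mul_smul, Matrix.trace_smul, smul_eq_mul, norm_mul]
  have h5 : ‖(1 / 2 : ℂ)‖ = 1 / 2 := by simp
  rw [h5]
  linarith

theorem loc_MQ (r : ℕ) {s : ℝ} (hs : 0 < s) (S S' : Sd ι) (Z : Matrix ι ι ℂ) :
    ‖(Z * ((1 / 2 : ℂ) • MQ S s - (1 / 2 : ℂ) • MQ S' s)).trace‖ ≤
      nm r Z * (en r s (dif S S')) ^ be r := by
  have h := local_Q r (s := 2 * s) (by positivity) S S' (dif S S') (dif_spec S S') Z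
  unfold MQ
  rw [← smul_sub, Matrix.mul_smul, Matrix.trace_smul, smul_eq_mul, norm_mul]
  have h5 : ‖(1 / 2 : ℂ)‖ = 1 / 2 := by simp
  rw [h5]
  have h6 : (en r (2 * s) (dif S S')) ^ be r ≤ (en r s (dif S S')) ^ be r :=
    Real.rpow_le_rpow (en_nonneg r (by positivity) _) (en_mono r hs _) (be_pos r).le
  have h7 := mul_le_mul_of_nonneg_left h6 (nm_nonneg r Z)
  linarith

theorem pw_MP (r : ℕ) {s0 : ℝ} (hs : 0 < s0) (S : Sd ι) (M : ℕ) :
    ∑ i ∈ Finset.range M, sc s0 i * pw (2 ^ r) (MP S (sc s0 i)) ≤ 6 * tn S := by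
  unfold MP tn
  simp only [Sd.pw_fc, Finset.mul_sum]
  rw [Finset.sum_comm]
  refine Finset.sum_le_sum fun k _ => ?_
  refine le_trans (le_of_eq ?_) (sumP_le r hs (S.ev k) M)
  refine Finset.sum_congr rfl fun i _ => ?_
  rw [Complex.norm_real, Real.norm_eq_abs]

theorem pw_MQ (r : ℕ) {s0 : ℝ} (hs : 0 < s0) (S : Sd ι) (M : ℕ) :
    ∑ i ∈ Finset.range M, sc s0 i * pw (2 ^ r) (MQ S (sc s0 i)) ≤ 6 * tn S := by
  unfold MQ tn
  simp only [Sd.pw_fc, Finset.mul_sum]
  rw [Finset.sum_comm]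
  refine Finset.sum_le_sum fun k _ => ?_
  refine le_trans (le_of_eq ?_) (sumQ_le r hs (S.ev k) M)
  refine Finset.sum_congr rfl fun i _ => ?_
  rw [Complex.norm_real, Real.norm_eq_abs]

theorem mat_decomp (S : Sd ι) (s0 : ℝ) (M : ℕ) :
    S.mat = ∑ i ∈ Finset.range M, ((-(3 * sc s0 i / 2) : ℝ) : ℂ) • (MP S (sc s0 i) * MQ S (sc s0 i)) +
      S.fc (fun t => (er s0 M t : ℂ)) := by
  have h1 : ∀ N : ℕ, ∑ i ∈ Finset.range N, ((-(3 * sc s0 i / 2) : ℝ) : ℂ) •
      (MP S (sc s0 i) * MQ S (sc s0 i)) =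
      S.fc (fun t => ((∑ i ∈ Finset.range N, (-(3 * sc s0 i / 2)) *
        (gP (sc s0 i) t * gQ (2 * sc s0 i) t) : ℝ) : ℂ)) := by
    intro N
    induction N with
    | zero =>
      simp only [Finset.range_zero, Finset.sum_empty, Complex.ofReal_zero]
      unfold Sd.fc
      simp
    | succ N ih =>
      rw [Finset.sum_range_succ, ih]
      unfold MP MQ
      rw [S.fc_mul, S.fc_smul, S.fc_add]
      refine S.fc_congr fun t => ?_
      rw [Finset.sum_range_succ]
      push_cast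
      ring
  rw [h1, S.fc_add, Sd.mat]
  refine S.fc_congr fun t => ?_
  unfold er
  push_cast
  ring

section main
variable {Γ : Type*} [AddCommGroup Γ] [Fintype Γ] {e : J → Γ}

/-- the constant of the metric inequality -/
noncomputable def Cn (r n : ℕ) : ℝ := (ck r * (n : ℝ) ^ (2 ^ r)) ^ ((((2 ^ (r + 1) : ℕ) : ℝ))⁻¹)

theorem swap (M : ℕ) (w : ℕ → ℂ) (f : ℕ → J → Γ → ℂ) :
    ∑ x, ∑ j, ∑ i ∈ Finset.range M, w i * f i j x = ∑ i ∈ Finset.range M, w i * ∑ x, ∑ j, f i j x := by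
  simp only [Finset.mul_sum]
  rw [Finset.sum_comm (s := Finset.range M)]
  refine Finset.sum_congr rfl fun x _ => ?_
  rw [Finset.sum_comm]

theorem asm_err (r l : ℕ) (S : Γ → Sd ι) {a b : ℝ} (a0 : 0 ≤ a) (b0 : 0 ≤ b)
    (ha : ∀ x, tn (S x) ≤ a) (hb : ∀ x y, near e x y → tn (dif (S x) (S y)) ≤ b)
    {η : ℝ} (hη : 0 < η) :
    ∑ x, ∑ j, tn (dif (S (x + (2 * l) • e j)) (S x)) ≤
      (Fintype.card Γ : ℝ) * (6 * (2 * Fintype.card J + 2 * l * Cn r (Fintype.card J))) *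
      ((6 * a) ^ ((((2 ^ (r + 1) : ℕ) : ℝ))⁻¹) * (6 / th r * b) ^ be r) +
      (Fintype.card Γ : ℝ) * (Fintype.card J * (2 * (Fintype.card ι * η))) := by
  obtain ⟨s0, hs, M, hM⟩ := exists_scales a hη
  set W : J → Γ → Matrix ι ι ℂ := fun j x => (dif (S (x + (2 * l) • e j)) (S x)).fc gs with hW
  have hWu : ∀ j x, (W j x)ᴴ * W j x = 1 := fun j x => sign_unit _
  set κ := 6 / th r * b with hκ
  have κ0 : 0 ≤ κ := by have := th_pos r; positivity
  have h60 : 0 ≤ 6 * a := by positivity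
  have hκs : ∀ x y, near e x y → ∑ i ∈ Finset.range M, sc s0 i * en r (sc s0 i) (dif (S x) (S y)) ≤ κ := by
    intro x y hxy
    refine (en_sum r hs _ M).trans ?_
    exact mul_le_mul_of_nonneg_left (hb x y hxy) (by have := th_pos r; positivity)
  -- first application
  have m1 := mc (r := r) (M := M) (e := e) (w := sc s0) (fun i => (sc_pos hs i).le)
    (H := fun i j x => MQ (S (x + (2 * l) • e j)) (sc s0 i) * W j x)
    (V := fun i x => (1 / 2 : ℂ) • MP (S x) (sc s0 i))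
    (E := fun i x y => en r (sc s0 i) (dif (S x) (S y)))
    (fun i x y => en_nonneg r (sc_pos hs i) _)
    (fun i Z x y => loc_MP r (sc_pos hs i) _ _ _)
    (h := 6 * a) (κ := κ) h60 κ0 hκs
    (fun j x => by
      simp only [pw_mul_unit _ (mul_eq_one_comm.1 (hWu j x))]
      exact (pw_MQ r hs _ M).trans (by linarith [ha (x + (2 * l) • e j)])) l
  have m2 := mc (r := r) (M := M) (e := e) (w := sc s0) (fun i => (sc_pos hs i).le)
    (H := fun i j x => W j x * MP (S x) (sc s0 i))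
    (V := fun i x => (1 / 2 : ℂ) • MQ (S x) (sc s0 i))
    (E := fun i x y => en r (sc s0 i) (dif (S x) (S y)))
    (fun i x y => en_nonneg r (sc_pos hs i) _)
    (fun i Z x y => loc_MQ r (sc_pos hs i) _ _ _)
    (h := 6 * a) (κ := κ) h60 κ0 hκs
    (fun j x => by
      simp only [pw_unit_mul _ (hWu j x)]
      exact (pw_MP r hs _ M).trans (by linarith [ha x])) l
  -- pointwise identity
  have id1 : ∀ x j, ((tn (dif (S (x + (2 * l) • e j)) (S x)) : ℝ) : ℂ) =
      (-3 : ℂ) * (∑ i ∈ Finset.range M, ((sc s0 i : ℝ) : ℂ) *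
        (MQ (S (x + (2 * l) • e j)) (sc s0 i) * W j x *
          ((1 / 2 : ℂ) • MP (S (x + (2 * l) • e j)) (sc s0 i) - (1 / 2 : ℂ) • MP (S x) (sc s0 i))).trace) +
      (-3 : ℂ) * (∑ i ∈ Finset.range M, ((sc s0 i : ℝ) : ℂ) *
        (W j x * MP (S x) (sc s0 i) *
          ((1 / 2 : ℂ) • MQ (S (x + (2 * l) • e j)) (sc s0 i) - (1 / 2 : ℂ) • MQ (S x) (sc s0 i))).trace) +
      ((W j x * (S (x + (2 * l) • e j)).fc (fun t => (er s0 M t : ℂ))).trace -
        (W j x * (S x).fc (fun t => (er s0 M t : ℂ))).trace) := by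
    intro x j
    rw [← tn_eq, dif_spec]
    change (W j x * ((S (x + (2 * l) • e j)).mat - (S x).mat)).trace = _
    rw [mat_decomp (S (x + (2 * l) • e j)) s0 M, mat_decomp (S x) s0 M]
    have : ∀ (A B A' B' : Matrix ι ι ℂ), W j x * (A + B - (A' + B')) = W j x * (A - A') +
        (W j x * B - W j x * B') := by
      intro A B A' B'
      noncomm_ring
    rw [this, Matrix.trace_add, Matrix.trace_sub]
    congr 1
    rw [← Finset.sum_sub_distrib, Matrix.mul_sum, Matrix.trace_sum, Finset.mul_sum, Finset.mul_sum,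
      ← Finset.sum_add_distrib]
    refine Finset.sum_congr rfl fun i _ => ?_
    set P := MP (S x) (sc s0 i)
    set Q := MQ (S x) (sc s0 i)
    set P' := MP (S (x + (2 * l) • e j)) (sc s0 i)
    set Q' := MQ (S (x + (2 * l) • e j)) (sc s0 i)
    have e1 : (Q' * W j x * ((1 / 2 : ℂ) • P' - (1 / 2 : ℂ) • P)).trace =
        (1 / 2 : ℂ) * (W j x * ((P' - P) * Q')).trace := by
      rw [← smul_sub, Matrix.mul_smul, Matrix.trace_smul, smul_eq_mul]
      congr 1
      rw [Matrix.mul_assoc, Matrix.trace_mul_comm, Matrix.mul_assoc]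
    have e2 : (W j x * P * ((1 / 2 : ℂ) • Q' - (1 / 2 : ℂ) • Q)).trace =
        (1 / 2 : ℂ) * (W j x * (P * (Q' - Q))).trace := by
      rw [← smul_sub, Matrix.mul_smul, Matrix.trace_smul, smul_eq_mul, Matrix.mul_assoc]
    rw [e1, e2, ← smul_sub, Matrix.mul_smul, Matrix.trace_smul, smul_eq_mul]
    have e3 : P' * Q' - P * Q = (P' - P) * Q' + P * (Q' - Q) := by noncomm_ring
    rw [e3, Matrix.mul_add, Matrix.trace_add]
    push_cast
    ring
  -- sum
  have id2 : ((∑ x, ∑ j, tn (dif (S (x + (2 * l) • e j)) (S x)) : ℝ) : ℂ) =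
      (-3 : ℂ) * (∑ i ∈ Finset.range M, ((sc s0 i : ℝ) : ℂ) * ∑ x, ∑ j,
        (MQ (S (x + (2 * l) • e j)) (sc s0 i) * W j x *
          ((1 / 2 : ℂ) • MP (S (x + (2 * l) • e j)) (sc s0 i) - (1 / 2 : ℂ) • MP (S x) (sc s0 i))).trace) +
      (-3 : ℂ) * (∑ i ∈ Finset.range M, ((sc s0 i : ℝ) : ℂ) * ∑ x, ∑ j,
        (W j x * MP (S x) (sc s0 i) *
          ((1 / 2 : ℂ) • MQ (S (x + (2 * l) • e j)) (sc s0 i) - (1 / 2 : ℂ) • MQ (S x) (sc s0 i))).trace) +
      ∑ x, ∑ j, ((W j x * (S (x + (2 * l) • e j)).fc (fun t => (er s0 M t : ℂ))).trace -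
        (W j x * (S x).fc (fun t => (er s0 M t : ℂ))).trace) := by
    rw [← swap, ← swap, Finset.mul_sum, Finset.mul_sum, ← Finset.sum_add_distrib,
      ← Finset.sum_add_distrib]
    push_cast
    refine Finset.sum_congr rfl fun x _ => ?_
    rw [Finset.mul_sum, Finset.mul_sum, ← Finset.sum_add_distrib, ← Finset.sum_add_distrib]
    exact Finset.sum_congr rfl fun j _ => id1 x j
  have hE : ‖∑ x, ∑ j, ((W j x * (S (x + (2 * l) • e j)).fc (fun t => (er s0 M t : ℂ))).trace -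
        (W j x * (S x).fc (fun t => (er s0 M t : ℂ))).trace)‖ ≤
      (Fintype.card Γ : ℝ) * (Fintype.card J * (2 * (Fintype.card ι * η))) := by
    have h1 : ∀ (y : Γ) (j : J) (x : Γ), ‖(W j x * (S y).fc (fun t => (er s0 M t : ℂ))).trace‖ ≤
        Fintype.card ι * η := by
      intro y j x
      refine (trace_unit_fc (S y) (hWu j x) _).trans ?_
      refine (Finset.sum_le_card_nsmul _ _ η fun k _ => ?_).trans_eq ?_
      · rw [Complex.norm_real, Real.norm_eq_abs]
        refine hM _ (le_trans ?_ (ha y))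
        exact Finset.single_le_sum (f := fun k => |(S y).ev k|) (fun _ _ => abs_nonneg _)
          (Finset.mem_univ k)
      · rw [Finset.card_univ, nsmul_eq_mul]
    refine (norm_sum_le _ _).trans ?_
    refine (Finset.sum_le_card_nsmul _ _ (Fintype.card J * (2 * (Fintype.card ι * η)))
      fun x _ => ?_).trans_eq ?_
    · refine (norm_sum_le _ _).trans ?_
      refine (Finset.sum_le_card_nsmul _ _ (2 * (Fintype.card ι * η)) fun j _ => ?_).trans_eq ?_
      · refine (norm_sub_le _ _).trans ?_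
        have := h1 (x + (2 * l) • e j) j x
        have := h1 x j x
        linarith
      · rw [Finset.card_univ, nsmul_eq_mul]
    · rw [Finset.card_univ, nsmul_eq_mul]
  have hL0 : 0 ≤ ∑ x, ∑ j, tn (dif (S (x + (2 * l) • e j)) (S x)) :=
    Finset.sum_nonneg fun x _ => Finset.sum_nonneg fun j _ => tn_nonneg _
  have hfin := congrArg norm id2
  rw [Complex.norm_real, Real.norm_of_nonneg hL0] at hfin
  rw [hfin]
  refine (norm_add_le _ _).trans (add_le_add ((norm_add_le _ _).trans ?_) hE)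
  rw [norm_mul, norm_mul]
  have h3 : ‖(-3 : ℂ)‖ = 3 := by simp
  rw [h3]
  have m1' := m1
  have m2' := m2
  unfold Cn be
  linarith

theorem asm (r l : ℕ) (S : Γ → Sd ι) {a b : ℝ} (a0 : 0 ≤ a) (b0 : 0 ≤ b)
    (ha : ∀ x, tn (S x) ≤ a) (hb : ∀ x y, near e x y → tn (dif (S x) (S y)) ≤ b) :
    ∑ x, ∑ j, tn (dif (S (x + (2 * l) • e j)) (S x)) ≤
      (Fintype.card Γ : ℝ) * (6 * (2 * Fintype.card J + 2 * l * Cn r (Fintype.card J))) *
      ((6 * a) ^ ((((2 ^ (r + 1) : ℕ) : ℝ))⁻¹) * (6 / th r * b) ^ be r) := by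
  apply le_of_forall_pos_le_add
  intro δ hδ
  set X := (Fintype.card Γ : ℝ) * (Fintype.card J * (2 * Fintype.card ι)) with hX
  have hX0 : 0 ≤ X := by positivity
  have h := asm_err r l S a0 b0 ha hb (η := δ / (X + 1)) (by positivity)
  refine h.trans (add_le_add le_rfl ?_)
  have e1 : (Fintype.card Γ : ℝ) * (Fintype.card J * (2 * (Fintype.card ι * (δ / (X + 1))))) =
      X / (X + 1) * δ := by rw [hX]; ring
  rw [e1]
  have h2 : X / (X + 1) ≤ 1 := by rw [div_le_one (by positivity)]; linarith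
  calc X / (X + 1) * δ ≤ 1 * δ := mul_le_mul_of_nonneg_right h2 hδ.le
    _ = δ := one_mul δ

end main

end TH364.SG
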