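import Mathlib
import Pool.Agent.TH364.SG.Asm
set_option autoImplicit false
set_option linter.unusedSectionVars false

/-! Folding the discrete torus onto the grid. -/

namespace TH364.SG

open Matrix Finset
open scoped ComplexOrder

section fold
variable (l : ℕ) [NeZero l]

instance : NeZero (4 * l) := ⟨by have := NeZero.ne l; omega⟩

/-- folding map from the cycle of length 4l to {0,...,2l} -/
def fo (v : ZMod (4 * l)) : ℕ := min v.val (4 * l - v.val)

theorem fo_le (v : ZMod (4 * l)) : fo l v ≤ 2 * l := by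
  unfold fo
  have := ZMod.val_lt v
  omega

theorem val_add_nat (v : ZMod (4 * l)) (k : ℕ) : (v + (k : ZMod (4 * l))).val = (v.val + k) % (4 * l) := by
  rw [ZMod.val_add, ZMod.val_natCast, Nat.add_mod_mod]

theorem fo_half (v : ZMod (4 * l)) : fo l (v + ((2 * l : ℕ) : ZMod (4 * l))) = 2 * l - fo l v := by
  unfold fo
  rw [val_add_nat]
  have h := ZMod.val_lt v
  rcases Nat.lt_or_ge (v.val + 2 * l) (4 * l) with hc | hc
  · rw [Nat.mod_eq_of_lt hc]; omega
  · rw [Nat.mod_eq_sub_mod hc, Nat.mod_eq_of_lt (by omega)]; omega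

theorem fo_one (v : ZMod (4 * l)) : fo l (v + 1) ≤ fo l v + 1 ∧ fo l v ≤ fo l (v + 1) + 1 := by
  have h1 : v + 1 = v + ((1 : ℕ) : ZMod (4 * l)) := by simp
  rw [h1]
  unfold fo
  rw [val_add_nat]
  have h := ZMod.val_lt v
  rcases Nat.lt_or_ge (v.val + 1) (4 * l) with hc | hc
  · rw [Nat.mod_eq_of_lt hc]; omega
  · rw [Nat.mod_eq_sub_mod hc, Nat.mod_eq_of_lt (by omega)]; omega

theorem fo_lip (v : ZMod (4 * l)) (c : ℤ) (hc : |c| ≤ 1) :
    |(fo l (v + (c : ZMod (4 * l))) : ℝ) - fo l v| ≤ 1 := by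
  have hc' : c = -1 ∨ c = 0 ∨ c = 1 := by
    rw [abs_le] at hc; omega
  rcases hc' with rfl | rfl | rfl
  · have h := fo_one l (v + ((-1 : ℤ) : ZMod (4 * l)))
    have e : v + ((-1 : ℤ) : ZMod (4 * l)) + 1 = v := by push_cast; ring
    rw [e] at h
    rw [abs_le]
    have h1 : (fo l v : ℝ) ≤ fo l (v + ((-1 : ℤ) : ZMod (4 * l))) + 1 := by exact_mod_cast h.1
    have h2 : (fo l (v + ((-1 : ℤ) : ZMod (4 * l))) : ℝ) ≤ fo l v + 1 := by exact_mod_cast h.2
    constructor <;> linarith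
  · simp
  · have h := fo_one l v
    have e : ((1 : ℤ) : ZMod (4 * l)) = 1 := by simp
    rw [e, abs_le]
    have h1 : (fo l (v + 1) : ℝ) ≤ fo l v + 1 := by exact_mod_cast h.1
    have h2 : (fo l v : ℝ) ≤ fo l (v + 1) + 1 := by exact_mod_cast h.2
    constructor <;> linarith

/-- the antipodal distance -/
def ad (v : ZMod (4 * l)) : ℝ := |(2 * l : ℝ) - 2 * fo l v|

theorem ad_pair (v : ZMod (4 * l)) : ad l v + ad l (v + (l : ZMod (4 * l))) = 2 * l := by
  unfold ad
  have h := ZMod.val_lt v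
  have hl : 0 < l := Nat.pos_of_ne_zero (NeZero.ne l)
  have key : (fo l v ≤ l ∧ l ≤ fo l (v + (l : ZMod (4 * l))) ∧ fo l (v + (l : ZMod (4 * l))) = fo l v + l) ∨
      (fo l v ≤ l ∧ l ≥ fo l (v + (l : ZMod (4 * l))) ∧ fo l (v + (l : ZMod (4 * l))) + fo l v = l) ∨
      (l ≤ fo l v ∧ l ≤ fo l (v + (l : ZMod (4 * l))) ∧ fo l (v + (l : ZMod (4 * l))) + fo l v = 3 * l) ∨
      (l ≤ fo l v ∧ l ≥ fo l (v + (l : ZMod (4 * l))) ∧ fo l v = fo l (v + (l : ZMod (4 * l))) + l) := by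
    unfold fo
    rw [val_add_nat]
    rcases Nat.lt_or_ge (v.val + l) (4 * l) with hc | hc
    · rw [Nat.mod_eq_of_lt hc]; omega
    · rw [Nat.mod_eq_sub_mod hc, Nat.mod_eq_of_lt (by omega)]; omega
  generalize fo l v = p at key ⊢
  generalize fo l (v + (l : ZMod (4 * l))) = q at key ⊢
  rcases key with ⟨h1, h2, h3⟩ | ⟨h1, h2, h3⟩ | ⟨h1, h2, h3⟩ | ⟨h1, h2, h3⟩
  · have h1' : (p : ℝ) ≤ l := by exact_mod_cast h1
    have h2' : (l : ℝ) ≤ q := by exact_mod_cast h2
    have h3' : (q : ℝ) = p + l := by exact_mod_cast h3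
    rw [abs_of_nonneg (by linarith), abs_of_nonpos (by linarith)]; linarith
  · have h1' : (p : ℝ) ≤ l := by exact_mod_cast h1
    have h2' : (q : ℝ) ≤ l := by exact_mod_cast h2
    have h3' : (q : ℝ) + p = l := by exact_mod_cast h3
    rw [abs_of_nonneg (by linarith), abs_of_nonneg (by linarith)]; linarith
  · have h1' : (l : ℝ) ≤ p := by exact_mod_cast h1
    have h2' : (l : ℝ) ≤ q := by exact_mod_cast h2
    have h3' : (q : ℝ) + p = 3 * l := by exact_mod_cast h3
    rw [abs_of_nonpos (by linarith), abs_of_nonpos (by linarith)]; linarith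
  · have h1' : (l : ℝ) ≤ p := by exact_mod_cast h1
    have h2' : (q : ℝ) ≤ l := by exact_mod_cast h2
    have h3' : (p : ℝ) = q + l := by exact_mod_cast h3
    rw [abs_of_nonpos (by linarith), abs_of_nonneg (by linarith)]; linarith

end fold

/-- distance on integer points -/
noncomputable def gd {n : ℕ} (x y : Fin n → ℕ) : ℝ := dist x y

theorem gd_le {n : ℕ} {x y : Fin n → ℕ} {c : ℝ} (hc : 0 ≤ c) (h : ∀ j, |(x j : ℝ) - y j| ≤ c) :
    gd x y ≤ c := by
  unfold gd
  rw [dist_pi_le_iff hc]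
  intro j
  rw [Nat.dist_eq]
  exact h j

theorem le_gd {n : ℕ} (x y : Fin n → ℕ) (j : Fin n) : |(x j : ℝ) - y j| ≤ gd x y := by
  unfold gd
  have := dist_le_pi_dist x y j
  rwa [Nat.dist_eq] at this

section main
variable {ι : Type} [Fintype ι] [DecidableEq ι]

theorem tn_unique {S S' : Sd ι} (h : S.mat = S'.mat) : tn S ≤ tn S' := by
  have h1 := tn_eq S
  rw [h] at h1
  have h2 := trace_unit_fc S' (sign_unit S) (fun t => (t : ℂ))
  change ‖(S.fc gs * S'.mat).trace‖ ≤ _ at h2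
  rw [h1, Complex.norm_real, Real.norm_of_nonneg (tn_nonneg _)] at h2
  refine h2.trans (le_of_eq ?_)
  unfold tn
  refine Finset.sum_congr rfl fun k _ => ?_
  rw [Complex.norm_real, Real.norm_eq_abs]

variable (l : ℕ) [NeZero l] {n : ℕ}

/-- folding in all coordinates -/
def fold (x : Fin n → ZMod (4 * l)) : Fin n → ℕ := fun j => fo l (x j)

/-- the coordinate vectors -/
def ev (n : ℕ) (j : Fin n) : Fin n → ZMod (4 * l) := Pi.single j 1

theorem sum_ev (c : Fin n → ℤ) (i : Fin n) : (∑ j, c j • ev l n j) i = (c i : ZMod (4 * l)) := by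
  rw [Finset.sum_apply, Finset.sum_eq_single i]
  · simp [ev]
  · intro b _ hb; simp [ev, hb.symm]
  · intro h; exact absurd (Finset.mem_univ i) h

theorem fold_near {x y : Fin n → ZMod (4 * l)} (h : near (ev l n) x y) :
    gd (fold l x) (fold l y) ≤ 1 := by
  obtain ⟨c, hc, rfl⟩ := h
  refine gd_le zero_le_one fun j => ?_
  unfold fold
  rw [Pi.add_apply, sum_ev]
  exact fo_lip l (y j) (c j) (hc j)

theorem fold_anti (x : Fin n → ZMod (4 * l)) (j : Fin n) :
    ad l (x j) ≤ gd (fold l (x + (2 * l) • ev l n j)) (fold l x) := by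
  refine le_trans (le_of_eq ?_) (le_gd _ _ j)
  unfold fold ad
  have e : (x + (2 * l) • ev l n j) j = x j + ((2 * l : ℕ) : ZMod (4 * l)) := by
    simp [ev]
  rw [e, fo_half, Nat.cast_sub (fo_le l _)]
  push_cast
  congr 1
  ring

theorem sum_ad (j : Fin n) :
    ∑ x : Fin n → ZMod (4 * l), ad l (x j) = l * Fintype.card (Fin n → ZMod (4 * l)) := by
  have h1 : ∑ x : Fin n → ZMod (4 * l), ad l ((x + l • ev l n j) j) =
      ∑ x : Fin n → ZMod (4 * l), ad l (x j) :=
    Equiv.sum_comp (Equiv.addRight (l • ev l n j)) (fun x : Fin n → ZMod (4 * l) => ad l (x j))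
  have h2 : ∀ x : Fin n → ZMod (4 * l), ad l (x j) + ad l ((x + l • ev l n j) j) = 2 * l := by
    intro x
    have : (x + l • ev l n j) j = x j + (l : ZMod (4 * l)) := by simp [ev]
    rw [this, ad_pair]
  have h3 : ∑ x : Fin n → ZMod (4 * l), (ad l (x j) + ad l ((x + l • ev l n j) j)) =
      Fintype.card (Fin n → ZMod (4 * l)) * (2 * l) := by
    simp only [h2]
    rw [Finset.sum_const, Finset.card_univ, nsmul_eq_mul]
  rw [Finset.sum_add_distrib, h1] at h3
  linarith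

/-- The metric inequality on the grid for Hermitian matrices. -/
theorem grid_herm (r : ℕ) (A : (Fin n → ℕ) → Matrix ι ι ℂ)
    (hA : ∀ x, (A x).IsHermitian) {c1 c2 : ℝ} (hc2 : 0 ≤ c2)
    (hlow : ∀ x y, (∀ j, x j ≤ 2 * l) → (∀ j, y j ≤ 2 * l) → ∀ T : Sd ι, T.mat = A x - A y →
      c1 * gd x y ≤ tn T)
    (hupp : ∀ x y, (∀ j, x j ≤ 2 * l) → (∀ j, y j ≤ 2 * l) → ∀ T : Sd ι, T.mat = A x - A y →
      tn T ≤ c2 * gd x y) (hc1 : 0 ≤ c1) :
    c1 * (n * l) ≤ (6 * (2 * n + 2 * l * Cn r n)) *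
      ((6 * (c2 * (2 * l))) ^ ((((2 ^ (r + 1) : ℕ) : ℝ))⁻¹) * (6 / th r * c2) ^ be r) := by
  classical
  have hH : ∀ x : Fin n → ZMod (4 * l), (A (fold l x) - A 0).IsHermitian := fun x =>
    (hA _).sub (hA _)
  choose S hS using fun x : Fin n → ZMod (4 * l) => exists_sd (hH x)
  have hfl : ∀ (x : Fin n → ZMod (4 * l)) j, fold l x j ≤ 2 * l := fun x j => fo_le l _
  have ha : ∀ x, tn (S x) ≤ c2 * (2 * l) := by
    intro x
    refine (hupp (fold l x) 0 (hfl x) (fun j => Nat.zero_le _) (S x) (hS x)).trans ?_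
    refine mul_le_mul_of_nonneg_left ?_ hc2
    refine gd_le (by positivity) fun j => ?_
    have := hfl x j
    have h2 : ((fold l x j : ℕ) : ℝ) ≤ 2 * l := by exact_mod_cast this
    rw [Pi.zero_apply, Nat.cast_zero, sub_zero, abs_of_nonneg (Nat.cast_nonneg _)]
    exact h2
  have hd : ∀ x y, (dif (S x) (S y)).mat = A (fold l x) - A (fold l y) := by
    intro x y
    rw [dif_spec, hS, hS]; abel
  have hb : ∀ x y, near (ev l n) x y → tn (dif (S x) (S y)) ≤ c2 := by
    intro x y hxy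
    refine (hupp _ _ (hfl x) (hfl y) _ (hd x y)).trans ?_
    calc c2 * gd (fold l x) (fold l y) ≤ c2 * 1 :=
          mul_le_mul_of_nonneg_left (fold_near l hxy) hc2
      _ = c2 := mul_one _
  have hmain := asm (e := ev l n) r l S (a := c2 * (2 * l)) (b := c2) (by positivity) hc2 ha hb
  have hG : (0 : ℝ) < Fintype.card (Fin n → ZMod (4 * l)) := by
    have : 0 < Fintype.card (Fin n → ZMod (4 * l)) := Fintype.card_pos
    exact_mod_cast this
  have hlo : c1 * (n * (l * Fintype.card (Fin n → ZMod (4 * l)))) ≤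
      ∑ x : Fin n → ZMod (4 * l), ∑ j, tn (dif (S (x + (2 * l) • ev l n j)) (S x)) := by
    have h1 : ∑ x : Fin n → ZMod (4 * l), ∑ j, c1 * ad l (x j) ≤
        ∑ x : Fin n → ZMod (4 * l), ∑ j, tn (dif (S (x + (2 * l) • ev l n j)) (S x)) := by
      refine Finset.sum_le_sum fun x _ => Finset.sum_le_sum fun j _ => ?_
      refine le_trans ?_ (hlow _ _ (hfl _) (hfl _) _ (hd _ _))
      exact mul_le_mul_of_nonneg_left (fold_anti l x j) hc1
    refine le_trans (le_of_eq ?_) h1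
    rw [Finset.sum_comm]
    simp only [← Finset.mul_sum]
    congr 1
    simp only [sum_ad]
    rw [Finset.sum_const, Finset.card_univ, Fintype.card_fin, nsmul_eq_mul]
  have h2 := hlo.trans hmain
  rw [Fintype.card_fin] at h2
  have h3 : (Fintype.card (Fin n → ZMod (4 * l)) : ℝ) * (c1 * (n * l)) ≤
      (Fintype.card (Fin n → ZMod (4 * l)) : ℝ) * ((6 * (2 * n + 2 * l * Cn r n)) *
      ((6 * (c2 * (2 * l))) ^ ((((2 ^ (r + 1) : ℕ) : ℝ))⁻¹) * (6 / th r * c2) ^ be r)) := by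
    calc _ = c1 * (n * (l * Fintype.card (Fin n → ZMod (4 * l)))) := by ring
      _ ≤ _ := h2
      _ = _ := by ring
  exact le_of_mul_le_mul_left h3 hG

end main

end TH364.SG
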