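import Mathlib
import Pool.Agent.TH364.SG.Grid
import Pool.Agent.Results.MP_fd02da_an.SchattenIsometries
set_option autoImplicit false
set_option linter.unusedSectionVars false

/-! Reduction from the trace class on a Hilbert space to Hermitian matrices. -/

namespace TH364.SG

open scoped ENNReal InnerProductSpace
open ContinuousLinearMap Finset
open Pool.Agent.Helper872.Sch
open Pool.Agent.Results.MP_fd02da_an.SchattenIsometries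

universe u
variable {H : Type u} [NormedAddCommGroup H] [InnerProductSpace ℂ H] [CompleteSpace H]

theorem bes_le {κ : Type*} [Fintype κ] {e f : κ → H}
    (he : ∀ z, ∑ j, ‖⟪e j, z⟫_ℂ‖ₑ ^ 2 ≤ ‖z‖ₑ ^ 2) (hf : ∀ z, ∑ j, ‖⟪f j, z⟫_ℂ‖ₑ ^ 2 ≤ ‖z‖ₑ ^ 2)
    {a : H →L[ℂ] H} (hc : IsCompactOperator (adjoint a ∘L a)) :
    ∑ j, ‖⟪f j, a (e j)⟫_ℂ‖ₑ ≤ trPow 1 a := by
  obtain ⟨ι, b, hb⟩ := exists_singBasis a hc
  rw [trPow_eq hb hc one_pos]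
  let ω : κ → ι → ℝ≥0∞ := fun j k => (‖⟪b k, e j⟫_ℂ‖ₑ ^ 2 + ‖⟪lsv b a k, f j⟫_ℂ‖ₑ ^ 2) / 2
  have hω2 : ∀ k, ∑ j, ω j k ≤ 1 := by
    intro k
    simp only [ω, ENNReal.div_eq_inv_mul]
    rw [← Finset.mul_sum, Finset.sum_add_distrib, ← ENNReal.div_eq_inv_mul]
    apply ENNReal.div_le_of_le_mul
    rw [one_mul]
    have h1 := he (b k)
    have h2 := (hf (lsv b a k)).trans (pow_le_pow_left' (lsv_norm_le b a k) 2)
    rw [enorm_eq_one b.orthonormal] at h1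
    simp only [enorm_inner_symm (b k), enorm_inner_symm (lsv b a k)]
    calc _ ≤ (1 : ℝ≥0∞) ^ 2 + 1 ^ 2 := add_le_add h1 h2
      _ = 2 := by norm_num
  have hterm : ∀ j, ‖⟪f j, a (e j)⟫_ℂ‖ₑ ≤ ∑' k, ω j k * ‖a (b k)‖ₑ := by
    intro j
    have h1 := ((b.hasSum_repr (e j)).mapL a).mapL (innerSL ℂ (f j))
    have h2 : HasSum (fun k => ⟪b k, e j⟫_ℂ * ⟪f j, a (b k)⟫_ℂ) ⟪f j, a (e j)⟫_ℂ := by
      simpa [HilbertBasis.repr_apply_apply] using h1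
    rw [← h2.tsum_eq]
    refine (enorm_tsum_le_tsum_enorm).trans ?_
    refine ENNReal.tsum_le_tsum fun k => ?_
    rw [enorm_mul]
    have h3 : ‖⟪f j, a (b k)⟫_ℂ‖ₑ = ‖a (b k)‖ₑ * ‖⟪lsv b a k, f j⟫_ℂ‖ₑ := by
      conv_lhs => rw [lsv_spec b a k]
      rw [inner_smul_right, enorm_mul, enorm_inner_symm]
      congr 1
      rw [← ofReal_norm, Complex.norm_real, norm_norm, ofReal_norm]
    rw [h3]
    calc ‖⟪b k, e j⟫_ℂ‖ₑ * (‖a (b k)‖ₑ * ‖⟪lsv b a k, f j⟫_ℂ‖ₑ)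
        = (‖⟪b k, e j⟫_ℂ‖ₑ * ‖⟪lsv b a k, f j⟫_ℂ‖ₑ) * ‖a (b k)‖ₑ := by ring
      _ ≤ _ := by
        gcongr
        exact mul_le_half _ _
  calc ∑ j, ‖⟪f j, a (e j)⟫_ℂ‖ₑ
      ≤ ∑ j, ∑' k, ω j k * ‖a (b k)‖ₑ := Finset.sum_le_sum fun j _ => hterm j
    _ = ∑' k, (∑ j, ω j k) * ‖a (b k)‖ₑ := by
        simp only [Finset.sum_mul]
        rw [Summable.tsum_finsetSum (fun _ _ => ENNReal.summable)]
    _ ≤ ∑' k, 1 * ‖a (b k)‖ₑ := by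
        refine ENNReal.tsum_le_tsum fun k => ?_
        gcongr
        exact hω2 k
    _ = _ := by simp only [one_mul, ENNReal.rpow_one]

theorem bes_real {κ : Type*} [Fintype κ] {e : κ → H} (he : ∀ z, ∑ j, ‖⟪e j, z⟫_ℂ‖ ^ 2 ≤ ‖z‖ ^ 2)
    (z : H) : ∑ j, ‖⟪e j, z⟫_ℂ‖ₑ ^ 2 ≤ ‖z‖ₑ ^ 2 := by
  have h4 : ∀ y : ℂ, ‖y‖ₑ ^ 2 = ENNReal.ofReal (‖y‖ ^ 2) := fun y => by
    rw [ENNReal.ofReal_pow (norm_nonneg _), ofReal_norm]
  simp_rw [h4]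
  rw [← ENNReal.ofReal_sum_of_nonneg (fun i _ => by positivity)]
  rw [← ofReal_norm, ← ENNReal.ofReal_pow (norm_nonneg _)]
  exact ENNReal.ofReal_le_ofReal (he z)

instance factOne : Fact ((1 : ℝ) ≤ 1) := ⟨le_rfl⟩

theorem norm_one (a : SchattenClass 1 H) : ENNReal.ofReal ‖a‖ = trPow 1 (toOp a) := by
  have h := norm_rpow a
  rwa [Real.rpow_one] at h

/-- the trace norm bounds bi-Bessel sums -/
theorem bes_norm {κ : Type*} [Fintype κ] {e f : κ → H}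
    (he : ∀ z, ∑ j, ‖⟪e j, z⟫_ℂ‖ ^ 2 ≤ ‖z‖ ^ 2) (hf : ∀ z, ∑ j, ‖⟪f j, z⟫_ℂ‖ ^ 2 ≤ ‖z‖ ^ 2)
    (a : SchattenClass 1 H) : ∑ j, ‖⟪f j, toOp a (e j)⟫_ℂ‖ ≤ ‖a‖ := by
  have h := bes_le (bes_real he) (bes_real hf) (compact_star_mul (toOp_compact a))
  rw [← norm_one] at h
  simp only [← ofReal_norm] at h
  rw [← ENNReal.ofReal_sum_of_nonneg (fun _ _ => norm_nonneg _)] at h
  exact (ENNReal.ofReal_le_ofReal_iff (norm_nonneg _)).1 h

/-- half of the trace norm is attained on finite orthonormal families -/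
theorem exists_fam (a : SchattenClass 1 H) : ∃ (m : ℕ) (u w : Fin m → H), Orthonormal ℂ u ∧
    Orthonormal ℂ w ∧ ‖a‖ / 2 ≤ ∑ k, ‖⟪w k, toOp a (u k)⟫_ℂ‖ := by
  classical
  have hc := compact_star_mul (toOp_compact a)
  obtain ⟨ι, b, hb⟩ := exists_singBasis (toOp a) hc
  have h1 := biorth_eq hb hc (p := 1) one_pos
  simp only [ENNReal.rpow_one] at h1
  rw [← norm_one] at h1
  rcases (norm_nonneg a).eq_or_lt with h0 | h0
  · refine ⟨0, fun k => k.elim0, fun k => k.elim0, ?_, ?_, ?_⟩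
    · exact ⟨fun k => k.elim0, fun k => k.elim0⟩
    · exact ⟨fun k => k.elim0, fun k => k.elim0⟩
    · rw [← h0]; simp
  · have h2 : ENNReal.ofReal (‖a‖ / 2) < ∑' k : {k // toOp a (b k) ≠ 0},
        ‖⟪lsv b (toOp a) k, toOp a (b k)⟫_ℂ‖ₑ := by
      rw [← h1]
      exact (ENNReal.ofReal_lt_ofReal_iff h0).2 (by linarith)
    rw [ENNReal.tsum_eq_iSup_sum, lt_iSup_iff] at h2
    obtain ⟨s, hs⟩ := h2
    let eq := (Fintype.equivFin s).symm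
    refine ⟨Fintype.card s, fun k => b (eq k).1.1, fun k => lsv b (toOp a) (eq k).1.1, ?_, ?_, ?_⟩
    · exact b.orthonormal.comp _ (Subtype.val_injective.comp (Subtype.val_injective.comp eq.injective))
    · exact (lsv_orthonormal hb).comp _ (Subtype.val_injective.comp eq.injective)
    · have h3 : ∑ k, ‖⟪lsv b (toOp a) (eq k).1.1, toOp a (b (eq k).1.1)⟫_ℂ‖ =
          ∑ k ∈ s, ‖⟪lsv b (toOp a) k.1, toOp a (b k.1)⟫_ℂ‖ := by
        rw [Equiv.sum_comp eq (fun k : s => ‖⟪lsv b (toOp a) k.1.1, toOp a (b k.1.1)⟫_ℂ‖)]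
        exact Finset.sum_coe_sort s (fun k => ‖⟪lsv b (toOp a) k.1, toOp a (b k.1)⟫_ℂ‖)
      rw [h3]
      simp only [← ofReal_norm] at hs
      rw [← ENNReal.ofReal_sum_of_nonneg (fun _ _ => norm_nonneg _)] at hs
      exact (ENNReal.ofReal_lt_ofReal_iff_of_nonneg (by positivity)).1 hs |>.le

end TH364.SG
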