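import Mathlib
import Pool.Agent.TH364.SG.Op
set_option autoImplicit false
set_option linter.unusedSectionVars false

/-! Finite-dimensional reduction. -/

namespace TH364.SG

open scoped ENNReal InnerProductSpace
open ContinuousLinearMap Finset Module
open Pool.Agent.Helper872.Sch
open Pool.Agent.Results.MP_fd02da_an.SchattenIsometries

theorem unit_vec {ι : Type*} [Fintype ι] [DecidableEq ι] {W : Matrix ι ι ℂ}
    (hW : W.conjTranspose * W = 1) (ζ : ι → ℂ) :
    ∑ i, ‖∑ j, W i j * ζ j‖ ^ 2 = ∑ i, ‖ζ i‖ ^ 2 := by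
  have h1 : ∀ c : ι → ℂ, dotProduct (star c) c = ((∑ i, ‖c i‖ ^ 2 : ℝ) : ℂ) := by
    intro c
    rw [dotProduct]
    push_cast
    refine Finset.sum_congr rfl fun i _ => ?_
    rw [Pi.star_apply, Complex.star_def, Complex.conj_mul']
  have h2 : dotProduct (star (W.mulVec ζ)) (W.mulVec ζ) = dotProduct (star ζ) ζ := by
    rw [Matrix.star_mulVec, Matrix.dotProduct_mulVec, Matrix.vecMul_vecMul, hW, Matrix.vecMul_one]
  rw [h1, h1] at h2
  have h3 : ∑ i, ‖(W.mulVec ζ) i‖ ^ 2 = ∑ i, ‖ζ i‖ ^ 2 := by exact_mod_cast h2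
  exact h3

theorem unit_transpose {ι : Type*} [Fintype ι] [DecidableEq ι] {W : Matrix ι ι ℂ}
    (hW : W.conjTranspose * W = 1) : (W.transpose).conjTranspose * W.transpose = 1 := by
  have h : W * W.conjTranspose = 1 := mul_eq_one_comm.1 hW
  have h2 := congrArg Matrix.transpose h
  rw [Matrix.transpose_mul, Matrix.transpose_one] at h2
  exact h2

theorem low {ι : Type} [Fintype ι] [DecidableEq ι] (T : Sd ι) {m : ℕ} (p q : Fin m → ι → ℂ)
    (hp : ∀ c : ι → ℂ, ∑ k, ‖∑ i, star (p k i) * c i‖ ^ 2 ≤ ∑ i, ‖c i‖ ^ 2)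
    (hq : ∀ c : ι → ℂ, ∑ k, ‖∑ i, star (q k i) * c i‖ ^ 2 ≤ ∑ i, ‖c i‖ ^ 2) :
    ∑ k, ‖∑ i, ∑ j, star (p k i) * T.mat i j * q k j‖ ≤ tn T := by
  have hcol : ∀ l, ∑ i, ‖T.U i l‖ ^ 2 = 1 := by
    intro l
    have h := gram_diag T.U l
    rw [T.hU, Matrix.one_apply_eq] at h
    exact_mod_cast h.symm
  have e1 : ∀ k, ∑ i, ∑ j, star (p k i) * T.mat i j * q k j =
      ∑ l, (∑ i, star (p k i) * T.U i l) * (T.ev l : ℂ) * (∑ j, star (T.U j l) * q k j) := by
    intro k
    have h : ∀ i j, T.mat i j = ∑ l, T.U i l * (T.ev l : ℂ) * star (T.U j l) := by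
      intro i j
      unfold Sd.mat Sd.fc
      rw [Matrix.mul_apply]
      refine Finset.sum_congr rfl fun l _ => ?_
      rw [Matrix.mul_diagonal, Matrix.conjTranspose_apply]
    simp only [h, Finset.mul_sum, Finset.sum_mul]
    rw [Finset.sum_comm]
    have : ∀ j, ∑ i, ∑ l, star (p k i) * (T.U i l * (T.ev l : ℂ) * star (T.U j l)) * q k j =
        ∑ l, ∑ i, star (p k i) * T.U i l * (T.ev l : ℂ) * (star (T.U j l) * q k j) := by
      intro j
      rw [Finset.sum_comm]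
      refine Finset.sum_congr rfl fun l _ => Finset.sum_congr rfl fun i _ => ?_
      ring
    simp only [this]
    rw [Finset.sum_comm]
  have e2 : ∀ k, ‖∑ i, ∑ j, star (p k i) * T.mat i j * q k j‖ ≤
      ∑ l, |T.ev l| * ((‖∑ i, star (p k i) * T.U i l‖ ^ 2 + ‖∑ i, star (q k i) * T.U i l‖ ^ 2) / 2) := by
    intro k
    rw [e1]
    refine (norm_sum_le _ _).trans (Finset.sum_le_sum fun l _ => ?_)
    rw [norm_mul, norm_mul, Complex.norm_real, Real.norm_eq_abs]
    have h1 : ‖∑ j, star (T.U j l) * q k j‖ = ‖∑ i, star (q k i) * T.U i l‖ := by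
      rw [← norm_star (∑ j, star (T.U j l) * q k j), star_sum]
      congr 1
      refine Finset.sum_congr rfl fun j _ => ?_
      rw [star_mul, star_star]
    rw [h1]
    have h2 := two_mul_le_add_sq ‖∑ i, star (p k i) * T.U i l‖ ‖∑ i, star (q k i) * T.U i l‖
    have h3 := abs_nonneg (T.ev l)
    nlinarith
  refine (Finset.sum_le_sum fun k _ => e2 k).trans ?_
  rw [Finset.sum_comm]
  unfold tn
  refine Finset.sum_le_sum fun l _ => ?_
  rw [← Finset.mul_sum, ← Finset.sum_div, Finset.sum_add_distrib]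
  have h1 := hp (fun i => T.U i l)
  have h2 := hq (fun i => T.U i l)
  rw [hcol] at h1 h2
  have h3 := abs_nonneg (T.ev l)
  nlinarith

universe u
variable {H : Type u} [NormedAddCommGroup H] [InnerProductSpace ℂ H] [CompleteSpace H]

theorem norm_comb {d : ℕ} {v : Fin d → H} (hv : Orthonormal ℂ v) (c : Fin d → ℂ) :
    ‖∑ s, c s • v s‖ ^ 2 = ∑ s, ‖c s‖ ^ 2 := by
  have h := hv.inner_sum c c Finset.univ
  have h3 : RCLike.re (⟪∑ s, c s • v s, ∑ s, c s • v s⟫_ℂ) = ‖∑ s, c s • v s‖ ^ 2 :=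
    inner_self_eq_norm_sq _
  have h2 : ∑ i, (starRingEnd ℂ) (c i) * c i = ((∑ s, ‖c s‖ ^ 2 : ℝ) : ℂ) := by
    push_cast
    refine Finset.sum_congr rfl fun i _ => ?_
    rw [Complex.conj_mul']
  rw [h, h2] at h3
  exact h3.symm

theorem bes_orth {m : ℕ} {g : Fin m → H} (hg : Orthonormal ℂ g) (z : H) :
    ∑ j, ‖⟪g j, z⟫_ℂ‖ ^ 2 ≤ ‖z‖ ^ 2 := hg.sum_inner_products_le z

/-- contractions give bounded pairings -/
theorem con_bound {d : ℕ} {v : Fin d → H} (hv : Orthonormal ℂ v) (C : Fin d → Fin d → ℂ)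
    (hC : ∀ ζ : Fin d → ℂ, ∑ s, ‖∑ t, C s t * ζ t‖ ^ 2 ≤ ∑ t, ‖ζ t‖ ^ 2) (a : SchattenClass 1 H) :
    ‖∑ s, ∑ t, C s t * ⟪v s, toOp a (v t)⟫_ℂ‖ ≤ ‖a‖ := by
  have h1 : ∀ s, ∑ t, C s t * ⟪v s, toOp a (v t)⟫_ℂ = ⟪v s, toOp a (∑ t, C s t • v t)⟫_ℂ := by
    intro s
    rw [map_sum, inner_sum]
    refine Finset.sum_congr rfl fun t _ => ?_
    rw [map_smul, inner_smul_right]
  simp only [h1]
  refine (norm_sum_le _ _).trans ?_
  refine bes_norm (e := fun s => ∑ t, C s t • v t) (f := v) ?_ (fun z => bes_orth hv z) a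
  intro z
  have h2 : ∀ s, ‖⟪∑ t, C s t • v t, z⟫_ℂ‖ = ‖∑ t, C s t * star ⟪v t, z⟫_ℂ‖ := by
    intro s
    rw [← norm_star (∑ t, C s t * star ⟪v t, z⟫_ℂ), star_sum, sum_inner]
    congr 1
    refine Finset.sum_congr rfl fun t _ => ?_
    rw [inner_smul_left, star_mul, star_star, mul_comm]
    rfl
  simp only [h2]
  refine (hC _).trans ?_
  simp only [norm_star]
  exact bes_orth hv z

/-- the compression matrix -/
noncomputable def cm {d : ℕ} (v : Fin d → H) (a : SchattenClass 1 H) : Matrix (Fin d) (Fin d) ℂ :=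
  Matrix.of fun s t => ⟪v s, toOp a (v t)⟫_ℂ

/-- the Hermitian dilation -/
noncomputable def dil {d : ℕ} (M : Matrix (Fin d) (Fin d) ℂ) :
    Matrix (Fin d ⊕ Fin d) (Fin d ⊕ Fin d) ℂ := Matrix.fromBlocks 0 M M.conjTranspose 0

theorem dil_herm {d : ℕ} (M : Matrix (Fin d) (Fin d) ℂ) : (dil M).IsHermitian := by
  unfold dil
  rw [Matrix.IsHermitian, Matrix.fromBlocks_conjTranspose]
  simp

theorem dil_sub {d : ℕ} (v : Fin d → H) (a b : SchattenClass 1 H) :
    dil (cm v a) - dil (cm v b) = dil (cm v (a - b)) := by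
  have h : cm v (a - b) = cm v a - cm v b := by
    ext s t
    simp only [cm, Matrix.of_apply, Matrix.sub_apply, map_sub, _root_.sub_apply,
      inner_sub_right]
  unfold dil
  rw [h]
  ext i j
  rcases i with i | i <;> rcases j with j | j <;> simp [Matrix.fromBlocks]

theorem upper {d : ℕ} {v : Fin d → H} (hv : Orthonormal ℂ v) (a : SchattenClass 1 H)
    (T : Sd (Fin d ⊕ Fin d)) (hT : T.mat = dil (cm v a)) : tn T ≤ 2 * ‖a‖ := by
  have h1 := tn_eq T
  have hW := sign_unit T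
  set W := T.fc gs with hWd
  rw [hT] at h1
  have h2 : (W * dil (cm v a)).trace = (∑ s, ∑ t, W (Sum.inr t) (Sum.inl s) * cm v a s t) +
      star (∑ s, ∑ t, star (W (Sum.inl s) (Sum.inr t)) * cm v a s t) := by
    rw [Matrix.trace, Fintype.sum_sum_type]
    simp only [Matrix.diag_apply, Matrix.mul_apply, Fintype.sum_sum_type, dil,
      Matrix.fromBlocks_apply₁₁, Matrix.fromBlocks_apply₁₂, Matrix.fromBlocks_apply₂₁,
      Matrix.fromBlocks_apply₂₂, Matrix.zero_apply, mul_zero, Finset.sum_const_zero, zero_add,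
      add_zero, Matrix.conjTranspose_apply]
    rw [add_comm, Finset.sum_comm, star_sum]
    congr 1
    refine Finset.sum_congr rfl fun s _ => ?_
    rw [star_sum]
    refine Finset.sum_congr rfl fun t _ => ?_
    rw [star_mul, star_star, mul_comm]
  have c1 : ‖∑ s, ∑ t, W (Sum.inr t) (Sum.inl s) * cm v a s t‖ ≤ ‖a‖ := by
    refine con_bound hv (fun s t => W (Sum.inr t) (Sum.inl s)) (fun ζ => ?_) a
    have h := unit_vec (unit_transpose hW) (Sum.elim (0 : Fin d → ℂ) ζ)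
    rw [Fintype.sum_sum_type, Fintype.sum_sum_type] at h
    simp only [Fintype.sum_sum_type, Sum.elim_inl, Sum.elim_inr, Pi.zero_apply, mul_zero,
      Finset.sum_const_zero, zero_add, Matrix.transpose_apply, norm_zero, ne_eq, OfNat.ofNat_ne_zero,
      not_false_eq_true, zero_pow] at h
    rw [← h]
    have : 0 ≤ ∑ x, ‖∑ y, W (Sum.inr y) (Sum.inr x) * ζ y‖ ^ 2 :=
      Finset.sum_nonneg fun _ _ => sq_nonneg _
    linarith
  have c2 : ‖∑ s, ∑ t, star (W (Sum.inl s) (Sum.inr t)) * cm v a s t‖ ≤ ‖a‖ := by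
    refine con_bound hv (fun s t => star (W (Sum.inl s) (Sum.inr t))) (fun ζ => ?_) a
    have h := unit_vec hW (Sum.elim (0 : Fin d → ℂ) (fun t => star (ζ t)))
    rw [Fintype.sum_sum_type, Fintype.sum_sum_type] at h
    simp only [Fintype.sum_sum_type, Sum.elim_inl, Sum.elim_inr, Pi.zero_apply, mul_zero,
      Finset.sum_const_zero, zero_add, norm_zero, ne_eq, OfNat.ofNat_ne_zero,
      not_false_eq_true, zero_pow, norm_star] at h
    rw [← h]
    have e : ∀ s, ‖∑ t, star (W (Sum.inl s) (Sum.inr t)) * ζ t‖ =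
        ‖∑ t, W (Sum.inl s) (Sum.inr t) * star (ζ t)‖ := by
      intro s
      rw [← norm_star, star_sum]
      congr 1
      refine Finset.sum_congr rfl fun t _ => ?_
      rw [star_mul, star_star, mul_comm]
    simp only [e]
    have : 0 ≤ ∑ x, ‖∑ y, W (Sum.inr x) (Sum.inr y) * star (ζ y)‖ ^ 2 :=
      Finset.sum_nonneg fun _ _ => sq_nonneg _
    linarith
  have h3 := congrArg norm h1
  rw [Complex.norm_real, Real.norm_of_nonneg (tn_nonneg _)] at h3
  rw [← h3, h2]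
  refine (norm_add_le _ _).trans ?_
  rw [norm_star]
  linarith

theorem lower {d : ℕ} {v : Fin d → H} (hv : Orthonormal ℂ v) (a : SchattenClass 1 H)
    {m : ℕ} {u w : Fin m → H} (hu : Orthonormal ℂ u) (hw : Orthonormal ℂ w)
    (eu : ∀ k, u k = ∑ s, ⟪v s, u k⟫_ℂ • v s) (ew : ∀ k, w k = ∑ s, ⟪v s, w k⟫_ℂ • v s)
    (T : Sd (Fin d ⊕ Fin d)) (hT : T.mat = dil (cm v a)) :
    ∑ k, ‖⟪w k, toOp a (u k)⟫_ℂ‖ ≤ tn T := by
  have hbes : ∀ (g : Fin m → H), Orthonormal ℂ g → ∀ c : Fin d → ℂ,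
      ∑ k, ‖∑ s, star ⟪v s, g k⟫_ℂ * c s‖ ^ 2 ≤ ∑ s, ‖c s‖ ^ 2 := by
    intro g hg c
    have h1 : ∀ k, ∑ s, star ⟪v s, g k⟫_ℂ * c s = ⟪g k, ∑ s, c s • v s⟫_ℂ := by
      intro k
      rw [inner_sum]
      refine Finset.sum_congr rfl fun s _ => ?_
      rw [inner_smul_right, mul_comm]
      congr 1
      exact inner_conj_symm _ _
    simp only [h1]
    rw [← norm_comb hv c]
    exact bes_orth hg _
  have h := low T (fun k => Sum.elim (fun s => ⟪v s, w k⟫_ℂ) (0 : Fin d → ℂ))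
    (fun k => Sum.elim (0 : Fin d → ℂ) (fun s => ⟪v s, u k⟫_ℂ)) ?_ ?_
  · refine le_trans (le_of_eq ?_) h
    refine Finset.sum_congr rfl fun k _ => ?_
    congr 1
    rw [hT]
    simp only [Fintype.sum_sum_type, Sum.elim_inl, Sum.elim_inr, Pi.zero_apply, star_zero, zero_mul,
      mul_zero, Finset.sum_const_zero, add_zero, zero_add, dil, Matrix.fromBlocks_apply₁₂, cm,
      Matrix.of_apply]
    conv_lhs => rw [ew k, eu k]
    rw [map_sum, sum_inner]
    refine Finset.sum_congr rfl fun s _ => ?_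
    rw [inner_sum]
    refine Finset.sum_congr rfl fun t _ => ?_
    rw [map_smul, inner_smul_left, inner_smul_right]
    simp only [Complex.star_def]
    ring
  · intro c
    have h1 := hbes w hw (fun s => c (Sum.inl s))
    rw [Fintype.sum_sum_type]
    simp only [Fintype.sum_sum_type, Sum.elim_inl, Sum.elim_inr, Pi.zero_apply, star_zero, zero_mul,
      Finset.sum_const_zero, add_zero]
    have : 0 ≤ ∑ x, ‖c (Sum.inr x)‖ ^ 2 := Finset.sum_nonneg fun _ _ => sq_nonneg _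
    linarith
  · intro c
    have h1 := hbes u hu (fun s => c (Sum.inr s))
    rw [Fintype.sum_sum_type]
    simp only [Fintype.sum_sum_type, Sum.elim_inl, Sum.elim_inr, Pi.zero_apply, star_zero, zero_mul,
      Finset.sum_const_zero, zero_add]
    have : 0 ≤ ∑ x, ‖c (Sum.inl x)‖ ^ 2 := Finset.sum_nonneg fun _ _ => sq_nonneg _
    linarith

theorem reduce {X : Type*} [Finite X] (F : X → SchattenClass 1 H) :
    ∃ (d : ℕ) (A : X → Matrix (Fin d ⊕ Fin d) (Fin d ⊕ Fin d) ℂ), (∀ x, (A x).IsHermitian) ∧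
      ∀ x y, ∀ T : Sd (Fin d ⊕ Fin d), T.mat = A x - A y →
        ‖F x - F y‖ / 2 ≤ tn T ∧ tn T ≤ 2 * ‖F x - F y‖ := by
  classical
  choose m u w hu hw hm using fun p : X × X => exists_fam (F p.1 - F p.2)
  let V : Submodule ℂ H := Submodule.span ℂ
    (Set.range (fun q : Σ p : X × X, Fin (m p) => u q.1 q.2) ∪
      Set.range (fun q : Σ p : X × X, Fin (m p) => w q.1 q.2))
  have hfd : FiniteDimensional ℂ V := FiniteDimensional.span_of_finite ℂ
    ((Set.finite_range _).union (Set.finite_range _))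
  let bV := stdOrthonormalBasis ℂ V
  let v : Fin (finrank ℂ V) → H := fun i => (bV i : H)
  have hv : Orthonormal ℂ v := by
    have := bV.orthonormal
    exact this.comp_linearIsometry V.subtypeₗᵢ
  have hex : ∀ z ∈ V, z = ∑ s, ⟪v s, z⟫_ℂ • v s := by
    intro z hz
    have h := bV.sum_repr' (⟨z, hz⟩ : V)
    have h2 := congrArg (Submodule.subtype V) h
    rw [map_sum] at h2
    simp only [map_smul, Submodule.subtype_apply] at h2
    exact h2.symm
  have hVu : ∀ p k, u p k ∈ V := fun p k =>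
    Submodule.subset_span (Or.inl ⟨⟨p, k⟩, rfl⟩)
  have hVw : ∀ p k, w p k ∈ V := fun p k =>
    Submodule.subset_span (Or.inr ⟨⟨p, k⟩, rfl⟩)
  refine ⟨finrank ℂ V, fun x => dil (cm v (F x)), fun x => dil_herm _, fun x y T hT => ?_⟩
  rw [dil_sub] at hT
  refine ⟨?_, upper hv _ T hT⟩
  exact (hm (x, y)).trans (lower hv _ (hu (x, y)) (hw (x, y)) (fun k => hex _ (hVu _ k))
    (fun k => hex _ (hVw _ k)) T hT)

end TH364.SG
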