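import Mathlib
import Pool.Agent.TH364.SG.Red
set_option autoImplicit false
set_option linter.unusedSectionVars false

/-! The averaged form of the smoothing and telescoping inequality. -/

namespace TH364.SG

open Matrix Finset
open scoped ComplexOrder

universe u v
variable {ι : Type u} [Fintype ι] [DecidableEq ι] {J : Type v} [Fintype J] [DecidableEq J]

section mcavg
variable {Γ : Type*} [AddCommGroup Γ] [Fintype Γ] {e : J → Γ}
variable {r M : ℕ} {w : ℕ → ℝ} (hw : ∀ i, 0 ≤ w i)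
  {H : ℕ → J → Γ → Matrix ι ι ℂ} {V : ℕ → Γ → Matrix ι ι ℂ} {E : ℕ → Γ → Γ → ℝ}
  (hE : ∀ i x y, 0 ≤ E i x y)
  (hloc : ∀ i Z x y, ‖(Z * (V i x - V i y)).trace‖ ≤
    nm r Z * (E i x y) ^ (1 - (((2 ^ (r + 1) : ℕ) : ℝ))⁻¹))
  {κ h : ℝ} (h0 : 0 ≤ h) (κ0 : 0 ≤ κ)
  (hh : ∑ i ∈ Finset.range M, ∑ x, ∑ j, w i * pw (2 ^ r) (H i j x) ≤
    (Fintype.card Γ : ℝ) * Fintype.card J * h)

include hw hE hloc h0 κ0 hh

theorem end_avg (Y Y' : J → (J → Bool) → Γ → Γ)
    (hκ : ∑ x, ∑ j, ∑ ε : J → Bool, ∑ i ∈ Finset.range M, w i * E i (Y j ε x) (Y' j ε x) ≤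
      (Fintype.card Γ : ℝ) * Fintype.card J * 2 ^ (Fintype.card J) * κ) :
    ‖∑ i ∈ Finset.range M, (w i : ℂ) * ∑ x, ∑ j, ∑ ε : J → Bool,
      (H i j x * (V i (Y j ε x) - V i (Y' j ε x))).trace‖ ≤
    (Fintype.card Γ : ℝ) * Fintype.card J * 2 ^ (Fintype.card J) *
      (h ^ ((((2 ^ (r + 1) : ℕ) : ℝ))⁻¹) * κ ^ (1 - (((2 ^ (r + 1) : ℕ) : ℝ))⁻¹)) := by
  have hP : 2 ≤ 2 ^ (r + 1) := two_le_P r
  have hP1 : (((2 ^ (r + 1) : ℕ) : ℝ))⁻¹ ≤ 1 := by
    apply inv_le_one_of_one_le₀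
    exact_mod_cast Nat.one_le_two_pow
  have hβ : 0 ≤ 1 - (((2 ^ (r + 1) : ℕ) : ℝ))⁻¹ := by linarith
  have hα : 0 ≤ (((2 ^ (r + 1) : ℕ) : ℝ))⁻¹ := by positivity
  have h1 : ∀ i ∈ Finset.range M, ‖(w i : ℂ) * ∑ x, ∑ j, ∑ ε : J → Bool,
      (H i j x * (V i (Y j ε x) - V i (Y' j ε x))).trace‖ ≤
      ∑ q : Γ × J × (J → Bool), w i * (nm r (H i q.2.1 q.1) *
        (E i (Y q.2.1 q.2.2 q.1) (Y' q.2.1 q.2.2 q.1)) ^ (1 - (((2 ^ (r + 1) : ℕ) : ℝ))⁻¹)) := by
    intro i _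
    rw [norm_mul, Complex.norm_real, Real.norm_of_nonneg (hw i), Fintype.sum_prod_type]
    simp only [Fintype.sum_prod_type, ← Finset.mul_sum]
    refine mul_le_mul_of_nonneg_left ?_ (hw i)
    refine (norm_sum_le _ _).trans (Finset.sum_le_sum fun x _ => ?_)
    refine (norm_sum_le _ _).trans (Finset.sum_le_sum fun j _ => ?_)
    refine (norm_sum_le _ _).trans ?_
    rw [Finset.mul_sum]
    exact Finset.sum_le_sum fun ε _ => hloc _ _ _ _
  refine (norm_sum_le _ _).trans ((Finset.sum_le_sum h1).trans ?_)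
  rw [← Finset.sum_product']
  refine (whol _ (fun p : ℕ × (Γ × J × (J → Bool)) => w p.1)
    (fun p => nm r (H p.1 p.2.2.1 p.2.1))
    (fun p => E p.1 (Y p.2.2.1 p.2.2.2 p.2.1) (Y' p.2.2.1 p.2.2.2 p.2.1))
    (fun p => hw _) (fun p => nm_nonneg _ _) (fun p => hE _ _ _) hP).trans ?_
  simp only [nm_pow]
  have hA : ∑ p ∈ Finset.range M ×ˢ (Finset.univ : Finset (Γ × J × (J → Bool))),
      w p.1 * pw (2 ^ r) (H p.1 p.2.2.1 p.2.1) ≤
      (Fintype.card Γ : ℝ) * Fintype.card J * 2 ^ (Fintype.card J) * h := by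
    rw [Finset.sum_product]
    simp only [Fintype.sum_prod_type, Finset.sum_const, Finset.card_univ, Fintype.card_fun,
      Fintype.card_bool, nsmul_eq_mul]
    push_cast
    simp only [← Finset.mul_sum] at hh ⊢
    have := mul_le_mul_of_nonneg_left hh (show (0 : ℝ) ≤ 2 ^ (Fintype.card J) by positivity)
    refine le_trans (le_of_eq ?_) (this.trans_eq (by ring))
    rw [Finset.mul_sum]
  have hB : ∑ p ∈ Finset.range M ×ˢ (Finset.univ : Finset (Γ × J × (J → Bool))),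
      w p.1 * E p.1 (Y p.2.2.1 p.2.2.2 p.2.1) (Y' p.2.2.1 p.2.2.2 p.2.1) ≤
      (Fintype.card Γ : ℝ) * Fintype.card J * 2 ^ (Fintype.card J) * κ := by
    rw [Finset.sum_product, Finset.sum_comm]
    simp only [Fintype.sum_prod_type]
    exact hκ
  refine (mul_le_mul
    (Real.rpow_le_rpow (Finset.sum_nonneg fun i _ => mul_nonneg (hw _) (pw_nonneg _ _)) hA hα)
    (Real.rpow_le_rpow (Finset.sum_nonneg fun i _ => mul_nonneg (hw _) (hE _ _ _)) hB hβ)
    (Real.rpow_nonneg (Finset.sum_nonneg fun i _ => mul_nonneg (hw _) (hE _ _ _)) _)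
    (Real.rpow_nonneg (by positivity) _)).trans_eq ?_
  set G := (Fintype.card Γ : ℝ) * Fintype.card J * 2 ^ (Fintype.card J) with hG
  have hG0 : 0 ≤ G := by positivity
  rw [Real.mul_rpow hG0 h0, Real.mul_rpow hG0 κ0]
  have hGG : G ^ ((((2 ^ (r + 1) : ℕ) : ℝ))⁻¹) * G ^ (1 - (((2 ^ (r + 1) : ℕ) : ℝ))⁻¹) = G := by
    rcases hG0.eq_or_lt with h00 | h00
    · rw [← h00, Real.zero_rpow (by positivity), zero_mul]
    · rw [← Real.rpow_add h00]; simp
  calc _ = (G ^ ((((2 ^ (r + 1) : ℕ) : ℝ))⁻¹) * G ^ (1 - (((2 ^ (r + 1) : ℕ) : ℝ))⁻¹)) *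
      (h ^ ((((2 ^ (r + 1) : ℕ) : ℝ))⁻¹) * κ ^ (1 - (((2 ^ (r + 1) : ℕ) : ℝ))⁻¹)) := by ring
    _ = _ := by rw [hGG]

theorem mid_avg (Y : J → Γ → Γ) (hY : ∀ j, Function.Bijective (Y j))
    (hκ : ∑ x, ∑ ε : J → Bool, ∑ i ∈ Finset.range M, w i * E i (x + sft e ε) x ≤
      (Fintype.card Γ : ℝ) * 2 ^ (Fintype.card J) * κ) :
    ‖∑ i ∈ Finset.range M, (w i : ℂ) * ∑ y, ∑ ε : J → Bool,
      (ssum (fun j => H i j (Y j y)) ε * (V i (y + sft e ε) - V i y)).trace‖ ≤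
    (Fintype.card Γ : ℝ) * 2 ^ (Fintype.card J) *
      (ck r * (Fintype.card J : ℝ) ^ (2 ^ r)) ^ ((((2 ^ (r + 1) : ℕ) : ℝ))⁻¹) *
      (h ^ ((((2 ^ (r + 1) : ℕ) : ℝ))⁻¹) * κ ^ (1 - (((2 ^ (r + 1) : ℕ) : ℝ))⁻¹)) := by
  have hP : 2 ≤ 2 ^ (r + 1) := two_le_P r
  have hP1 : (((2 ^ (r + 1) : ℕ) : ℝ))⁻¹ ≤ 1 := by
    apply inv_le_one_of_one_le₀
    exact_mod_cast Nat.one_le_two_pow
  have hβ : 0 ≤ 1 - (((2 ^ (r + 1) : ℕ) : ℝ))⁻¹ := by linarith
  have hα : 0 ≤ (((2 ^ (r + 1) : ℕ) : ℝ))⁻¹ := by positivity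
  have h1 : ∀ i ∈ Finset.range M, ‖(w i : ℂ) * ∑ y, ∑ ε : J → Bool,
      (ssum (fun j => H i j (Y j y)) ε * (V i (y + sft e ε) - V i y)).trace‖ ≤
      ∑ q ∈ (Finset.univ : Finset (Γ × (J → Bool))), w i * (nm r (ssum (fun j => H i j (Y j q.1)) q.2) *
        (E i (q.1 + sft e q.2) q.1) ^ (1 - (((2 ^ (r + 1) : ℕ) : ℝ))⁻¹)) := by
    intro i _
    rw [norm_mul, Complex.norm_real, Real.norm_of_nonneg (hw i), Fintype.sum_prod_type]
    simp only [← Finset.mul_sum]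
    refine mul_le_mul_of_nonneg_left ?_ (hw i)
    refine (norm_sum_le _ _).trans (Finset.sum_le_sum fun y _ => ?_)
    refine (norm_sum_le _ _).trans (Finset.sum_le_sum fun ε _ => ?_)
    exact hloc _ _ _ _
  refine (norm_sum_le _ _).trans ((Finset.sum_le_sum h1).trans ?_)
  rw [← Finset.sum_product']
  refine (whol _ (fun p : ℕ × (Γ × (J → Bool)) => w p.1)
    (fun p => nm r (ssum (fun j => H p.1 j (Y j p.2.1)) p.2.2))
    (fun p => E p.1 (p.2.1 + sft e p.2.2) p.2.1) (fun p => hw _) (fun p => nm_nonneg _ _)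
    (fun p => hE _ _ _) hP).trans ?_
  simp only [nm_pow]
  have hc : 0 ≤ ck r := by unfold ck; positivity
  have hA : ∑ p ∈ Finset.range M ×ˢ (Finset.univ : Finset (Γ × (J → Bool))),
      w p.1 * pw (2 ^ r) (ssum (fun j => H p.1 j (Y j p.2.1)) p.2.2) ≤
      (Fintype.card Γ : ℝ) * 2 ^ (Fintype.card J) * (ck r * (Fintype.card J : ℝ) ^ (2 ^ r)) * h := by
    rw [Finset.sum_product]
    have a1 : ∀ i ∈ Finset.range M, ∑ q : Γ × (J → Bool),
        w i * pw (2 ^ r) (ssum (fun j => H i j (Y j q.1)) q.2) ≤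
        2 ^ (Fintype.card J) * ck r * ((Fintype.card J : ℝ) ^ (2 ^ r - 1) *
          ∑ j, ∑ x, w i * pw (2 ^ r) (H i j x)) := by
      intro i _
      rw [Fintype.sum_prod_type]
      simp only [← Finset.mul_sum]
      have a2 : ∑ y, ∑ ε : J → Bool, pw (2 ^ r) (ssum (fun j => H i j (Y j y)) ε) ≤
          ∑ y, 2 ^ (Fintype.card J) * ck r * ((Fintype.card J : ℝ) ^ (2 ^ r - 1) *
            ∑ j, pw (2 ^ r) (H i j (Y j y))) := Finset.sum_le_sum fun y _ => khin r _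
      have a3 : ∀ j, ∑ y, pw (2 ^ r) (H i j (Y j y)) = ∑ x, pw (2 ^ r) (H i j x) := fun j =>
        Equiv.sum_comp (Equiv.ofBijective (Y j) (hY j)) (fun x => pw (2 ^ r) (H i j x))
      have a5 : ∑ y, ∑ j, pw (2 ^ r) (H i j (Y j y)) = ∑ j, ∑ x, pw (2 ^ r) (H i j x) := by
        rw [Finset.sum_comm]
        exact Finset.sum_congr rfl fun j _ => a3 j
      rw [← Finset.mul_sum, ← Finset.mul_sum, a5] at a2
      calc _ ≤ w i * (2 ^ (Fintype.card J) * ck r * ((Fintype.card J : ℝ) ^ (2 ^ r - 1) *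
            ∑ j, ∑ x, pw (2 ^ r) (H i j x))) := mul_le_mul_of_nonneg_left a2 (hw i)
        _ = _ := by ring
    refine (Finset.sum_le_sum a1).trans ?_
    rw [← Finset.mul_sum, ← Finset.mul_sum]
    have a4 : ∑ i ∈ Finset.range M, ∑ j, ∑ x, w i * pw (2 ^ r) (H i j x) ≤
        (Fintype.card Γ : ℝ) * Fintype.card J * h := by
      refine le_trans (le_of_eq ?_) hh
      refine Finset.sum_congr rfl fun i _ => ?_
      rw [Finset.sum_comm]
    calc _ ≤ 2 ^ (Fintype.card J) * ck r * ((Fintype.card J : ℝ) ^ (2 ^ r - 1) *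
          ((Fintype.card Γ : ℝ) * Fintype.card J * h)) :=
          mul_le_mul_of_nonneg_left (mul_le_mul_of_nonneg_left a4 (by positivity)) (by positivity)
      _ = _ := by
        have : (Fintype.card J : ℝ) ^ (2 ^ r) = (Fintype.card J : ℝ) ^ (2 ^ r - 1) * Fintype.card J := by
          rw [← pow_succ, Nat.sub_add_cancel Nat.one_le_two_pow]
        rw [this]; ring
  have hB : ∑ p ∈ Finset.range M ×ˢ (Finset.univ : Finset (Γ × (J → Bool))),
      w p.1 * E p.1 (p.2.1 + sft e p.2.2) p.2.1 ≤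
      (Fintype.card Γ : ℝ) * 2 ^ (Fintype.card J) * κ := by
    rw [Finset.sum_product, Finset.sum_comm]
    simp only [Fintype.sum_prod_type]
    exact hκ
  refine (mul_le_mul
    (Real.rpow_le_rpow (Finset.sum_nonneg fun i _ => mul_nonneg (hw _) (pw_nonneg _ _)) hA hα)
    (Real.rpow_le_rpow (Finset.sum_nonneg fun i _ => mul_nonneg (hw _) (hE _ _ _)) hB hβ)
    (Real.rpow_nonneg (Finset.sum_nonneg fun i _ => mul_nonneg (hw _) (hE _ _ _)) _)
    (Real.rpow_nonneg (by positivity) _)).trans_eq ?_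
  have hG : (0 : ℝ) < (Fintype.card Γ : ℝ) * 2 ^ (Fintype.card J) := by
    have : 0 < Fintype.card Γ := Fintype.card_pos_iff.2 ⟨0⟩
    positivity
  rw [Real.mul_rpow (by positivity) h0, Real.mul_rpow hG.le (by positivity), Real.mul_rpow hG.le κ0]
  have hGG : ((Fintype.card Γ : ℝ) * 2 ^ (Fintype.card J)) ^ ((((2 ^ (r + 1) : ℕ) : ℝ))⁻¹) *
      ((Fintype.card Γ : ℝ) * 2 ^ (Fintype.card J)) ^ (1 - (((2 ^ (r + 1) : ℕ) : ℝ))⁻¹) =
      (Fintype.card Γ : ℝ) * 2 ^ (Fintype.card J) := by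
    rw [← Real.rpow_add hG]; simp
  calc _ = (((Fintype.card Γ : ℝ) * 2 ^ (Fintype.card J)) ^ ((((2 ^ (r + 1) : ℕ) : ℝ))⁻¹) *
      ((Fintype.card Γ : ℝ) * 2 ^ (Fintype.card J)) ^ (1 - (((2 ^ (r + 1) : ℕ) : ℝ))⁻¹)) *
      (ck r * (Fintype.card J : ℝ) ^ (2 ^ r)) ^ ((((2 ^ (r + 1) : ℕ) : ℝ))⁻¹) *
      (h ^ ((((2 ^ (r + 1) : ℕ) : ℝ))⁻¹) * κ ^ (1 - (((2 ^ (r + 1) : ℕ) : ℝ))⁻¹)) := by ring
    _ = _ := by rw [hGG]

theorem mc_avg (l : ℕ)
    (hκ0 : ∑ x, ∑ ε : J → Bool, ∑ i ∈ Finset.range M, w i * E i (x + sft e ε) x ≤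
      (Fintype.card Γ : ℝ) * 2 ^ (Fintype.card J) * κ)
    (hκ1 : ∑ x, ∑ j, ∑ ε : J → Bool, ∑ i ∈ Finset.range M, w i * E i (x + sfj e j ε) x ≤
      (Fintype.card Γ : ℝ) * Fintype.card J * 2 ^ (Fintype.card J) * κ)
    (hκ2 : ∑ x, ∑ j, ∑ ε : J → Bool, ∑ i ∈ Finset.range M, w i *
      E i (x + (2 * l) • e j) (x + (2 * l) • e j + sfj e j ε) ≤
      (Fintype.card Γ : ℝ) * Fintype.card J * 2 ^ (Fintype.card J) * κ) :
    ‖∑ i ∈ Finset.range M, (w i : ℂ) * ∑ x, ∑ j,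
      (H i j x * (V i (x + (2 * l) • e j) - V i x)).trace‖ ≤
    (Fintype.card Γ : ℝ) * (2 * Fintype.card J + 2 * l *
      (ck r * (Fintype.card J : ℝ) ^ (2 ^ r)) ^ ((((2 ^ (r + 1) : ℕ) : ℝ))⁻¹)) *
      (h ^ ((((2 ^ (r + 1) : ℕ) : ℝ))⁻¹) * κ ^ (1 - (((2 ^ (r + 1) : ℕ) : ℝ))⁻¹)) := by
  set B := h ^ ((((2 ^ (r + 1) : ℕ) : ℝ))⁻¹) * κ ^ (1 - (((2 ^ (r + 1) : ℕ) : ℝ))⁻¹) with hB
  set C := (ck r * (Fintype.card J : ℝ) ^ (2 ^ r)) ^ ((((2 ^ (r + 1) : ℕ) : ℝ))⁻¹) with hC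
  -- the three parts
  have s1 := end_avg hw hE hloc h0 κ0 hh (fun j _ x => x + (2 * l) • e j)
    (fun j ε x => x + (2 * l) • e j + sfj e j ε) hκ2
  have s2 := end_avg hw hE hloc h0 κ0 hh (fun j ε x => x + sfj e j ε)
    (fun j _ x => x) hκ1
  have s3 : ∀ m : ℕ, _ := fun m => mid_avg (e := e) hw hE hloc h0 κ0 hh
    (fun j y => y - (2 * m + 1) • e j) (fun j => (Equiv.subRight ((2 * m + 1) • e j)).bijective) hκ0
  -- the decomposition
  have d1 : ∀ i, (2 ^ (Fintype.card J) : ℂ) * ∑ x, ∑ j,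
      (H i j x * (V i (x + (2 * l) • e j) - V i x)).trace =
      (∑ x, ∑ j, ∑ ε : J → Bool,
        (H i j x * (V i (x + (2 * l) • e j) - V i (x + (2 * l) • e j + sfj e j ε))).trace) +
      (∑ x, ∑ j, ∑ ε : J → Bool, (H i j x * (V i (x + sfj e j ε) - V i x)).trace) +
      ∑ x, ∑ j, ∑ ε : J → Bool,
        (H i j x * (V i (x + (2 * l) • e j + sfj e j ε) - V i (x + sfj e j ε))).trace := by
    intro i
    rw [← Finset.sum_add_distrib, ← Finset.sum_add_distrib, Finset.mul_sum]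
    refine Finset.sum_congr rfl fun x _ => ?_
    rw [← Finset.sum_add_distrib, ← Finset.sum_add_distrib, Finset.mul_sum]
    refine Finset.sum_congr rfl fun j _ => ?_
    rw [← Finset.sum_add_distrib, ← Finset.sum_add_distrib]
    have : ∀ ε : J → Bool,
        (H i j x * (V i (x + (2 * l) • e j) - V i (x + (2 * l) • e j + sfj e j ε))).trace +
        (H i j x * (V i (x + sfj e j ε) - V i x)).trace +
        (H i j x * (V i (x + (2 * l) • e j + sfj e j ε) - V i (x + sfj e j ε))).trace =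
        (H i j x * (V i (x + (2 * l) • e j) - V i x)).trace := by
      intro ε
      rw [← Matrix.trace_add, ← Matrix.mul_add, ← Matrix.trace_add, ← Matrix.mul_add]
      congr 2
      abel
    simp only [this]
    rw [Finset.sum_const, Finset.card_univ, Fintype.card_fun, Fintype.card_bool, nsmul_eq_mul]
    push_cast; rfl
  have d2 : ∀ i, ∑ x, ∑ j, ∑ ε : J → Bool,
        (H i j x * (V i (x + (2 * l) • e j + sfj e j ε) - V i (x + sfj e j ε))).trace =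
      2 * ∑ m ∈ Finset.range l, ∑ y, ∑ ε : J → Bool,
        (ssum (fun j => H i j (y - (2 * m + 1) • e j)) ε * (V i (y + sft e ε) - V i y)).trace := by
    intro i
    have t1 : ∀ x j, ∑ ε : J → Bool,
        (H i j x * (V i (x + (2 * l) • e j + sfj e j ε) - V i (x + sfj e j ε))).trace =
        ∑ m ∈ Finset.range l, ∑ ε : J → Bool, (2 * ((sg (ε j) : ℝ) : ℂ)) *
          (H i j x * (V i (x + (2 * m + 1) • e j + sft e ε) - V i (x + (2 * m + 1) • e j))).trace := by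
      intro x j
      rw [← Matrix.trace_sum, ← Matrix.mul_sum, telescope e j (V i) x l, Matrix.mul_sum,
        Matrix.trace_sum]
      refine Finset.sum_congr rfl fun m _ => ?_
      rw [Matrix.mul_sum, Matrix.trace_sum]
      refine Finset.sum_congr rfl fun ε _ => ?_
      rw [Matrix.mul_smul, Matrix.trace_smul, Complex.real_smul]
      push_cast; rfl
    simp only [t1]
    have t2 : ∑ x, ∑ j, ∑ m ∈ Finset.range l, ∑ ε : J → Bool, (2 * ((sg (ε j) : ℝ) : ℂ)) *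
          (H i j x * (V i (x + (2 * m + 1) • e j + sft e ε) - V i (x + (2 * m + 1) • e j))).trace =
        ∑ m ∈ Finset.range l, ∑ j, ∑ x, ∑ ε : J → Bool, (2 * ((sg (ε j) : ℝ) : ℂ)) *
          (H i j x * (V i (x + (2 * m + 1) • e j + sft e ε) - V i (x + (2 * m + 1) • e j))).trace := by
      rw [Finset.sum_comm]
      rw [Finset.sum_comm (s := Finset.range l)]
      refine Finset.sum_congr rfl fun j _ => ?_
      rw [Finset.sum_comm]
    rw [t2, Finset.mul_sum]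
    refine Finset.sum_congr rfl fun m _ => ?_
    have t3 : ∀ j, ∑ x, ∑ ε : J → Bool, (2 * ((sg (ε j) : ℝ) : ℂ)) *
          (H i j x * (V i (x + (2 * m + 1) • e j + sft e ε) - V i (x + (2 * m + 1) • e j))).trace =
        ∑ y, ∑ ε : J → Bool, (2 * ((sg (ε j) : ℝ) : ℂ)) *
          (H i j (y - (2 * m + 1) • e j) * (V i (y + sft e ε) - V i y)).trace := by
      intro j
      rw [← Equiv.sum_comp (Equiv.subRight ((2 * m + 1) • e j))]
      refine Finset.sum_congr rfl fun y _ => ?_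
      refine Finset.sum_congr rfl fun ε _ => ?_
      simp only [Equiv.subRight_apply, sub_add_cancel]
    simp only [t3]
    rw [Finset.sum_comm, Finset.mul_sum]
    refine Finset.sum_congr rfl fun y _ => ?_
    rw [Finset.sum_comm, Finset.mul_sum]
    refine Finset.sum_congr rfl fun ε _ => ?_
    unfold ssum
    rw [Matrix.sum_mul, Matrix.trace_sum, Finset.mul_sum]
    refine Finset.sum_congr rfl fun j _ => ?_
    rw [Matrix.smul_mul, Matrix.trace_smul, smul_eq_mul]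
    ring
  have d3 : (2 ^ (Fintype.card J) : ℂ) * ∑ i ∈ Finset.range M, (w i : ℂ) * ∑ x, ∑ j,
      (H i j x * (V i (x + (2 * l) • e j) - V i x)).trace =
      (∑ i ∈ Finset.range M, (w i : ℂ) * ∑ x, ∑ j, ∑ ε : J → Bool,
        (H i j x * (V i (x + (2 * l) • e j) - V i (x + (2 * l) • e j + sfj e j ε))).trace) +
      (∑ i ∈ Finset.range M, (w i : ℂ) * ∑ x, ∑ j, ∑ ε : J → Bool,
        (H i j x * (V i (x + sfj e j ε) - V i x)).trace) +
      ∑ m ∈ Finset.range l, 2 * ∑ i ∈ Finset.range M, (w i : ℂ) * ∑ y, ∑ ε : J → Bool,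
        (ssum (fun j => H i j (y - (2 * m + 1) • e j)) ε * (V i (y + sft e ε) - V i y)).trace := by
    rw [← Finset.sum_add_distrib, Finset.mul_sum]
    have t4 : ∑ m ∈ Finset.range l, 2 * ∑ i ∈ Finset.range M, (w i : ℂ) * ∑ y, ∑ ε : J → Bool,
        (ssum (fun j => H i j (y - (2 * m + 1) • e j)) ε * (V i (y + sft e ε) - V i y)).trace =
        ∑ i ∈ Finset.range M, (w i : ℂ) * (2 * ∑ m ∈ Finset.range l, ∑ y, ∑ ε : J → Bool,
        (ssum (fun j => H i j (y - (2 * m + 1) • e j)) ε * (V i (y + sft e ε) - V i y)).trace) := by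
      simp only [Finset.mul_sum]
      rw [Finset.sum_comm]
      refine Finset.sum_congr rfl fun i _ => ?_
      refine Finset.sum_congr rfl fun m _ => ?_
      refine Finset.sum_congr rfl fun y _ => ?_
      refine Finset.sum_congr rfl fun ε _ => ?_
      ring
    rw [t4, ← Finset.sum_add_distrib]
    refine Finset.sum_congr rfl fun i _ => ?_
    rw [← d2 i, mul_left_comm, d1 i]
    ring
  have hG : (0 : ℝ) ≤ Fintype.card Γ := by positivity
  have hT : (0 : ℝ) < 2 ^ (Fintype.card J) := by positivity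
  have n3 : ‖∑ m ∈ Finset.range l, 2 * ∑ i ∈ Finset.range M, (w i : ℂ) * ∑ y, ∑ ε : J → Bool,
        (ssum (fun j => H i j (y - (2 * m + 1) • e j)) ε * (V i (y + sft e ε) - V i y)).trace‖ ≤
      l * (2 * ((Fintype.card Γ : ℝ) * 2 ^ (Fintype.card J) * C * B)) := by
    refine (norm_sum_le _ _).trans ?_
    refine (Finset.sum_le_card_nsmul _ _ (2 * ((Fintype.card Γ : ℝ) * 2 ^ (Fintype.card J) * C * B))
      fun m _ => ?_).trans_eq ?_
    · rw [norm_mul, Complex.norm_two]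
      exact mul_le_mul_of_nonneg_left (s3 m) (by norm_num)
    · rw [Finset.card_range, nsmul_eq_mul]
  have n4 : ‖(2 ^ (Fintype.card J) : ℂ) * ∑ i ∈ Finset.range M, (w i : ℂ) * ∑ x, ∑ j,
      (H i j x * (V i (x + (2 * l) • e j) - V i x)).trace‖ ≤
      (Fintype.card Γ : ℝ) * Fintype.card J * 2 ^ (Fintype.card J) * B +
      (Fintype.card Γ : ℝ) * Fintype.card J * 2 ^ (Fintype.card J) * B +
      l * (2 * ((Fintype.card Γ : ℝ) * 2 ^ (Fintype.card J) * C * B)) := by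
    rw [d3]
    exact (norm_add_le _ _).trans (add_le_add ((norm_add_le _ _).trans (add_le_add s1 s2)) n3)
  rw [norm_mul, norm_pow, Complex.norm_two] at n4
  have n5 : (2 : ℝ) ^ (Fintype.card J) * ‖∑ i ∈ Finset.range M, (w i : ℂ) * ∑ x, ∑ j,
      (H i j x * (V i (x + (2 * l) • e j) - V i x)).trace‖ ≤ 2 ^ (Fintype.card J) *
      ((Fintype.card Γ : ℝ) * (2 * Fintype.card J + 2 * l * C) * B) := by
    refine n4.trans_eq ?_
    ring
  exact le_of_mul_le_mul_left n5 hT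

end mcavg

end TH364.SG
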