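import Mathlib
import Pool.Agent.TH364.SG.Avg
set_option autoImplicit false
set_option linter.unusedSectionVars false

/-! Averaged metric inequality for the trace norm on a finite abelian group. -/

namespace TH364.SG

open Matrix Finset
open scoped ComplexOrder

universe u v
variable {ι : Type u} [Fintype ι] [DecidableEq ι] {J : Type v} [Fintype J] [DecidableEq J]
variable {Γ : Type*} [AddCommGroup Γ] [Fintype Γ] {e : J → Γ}

theorem asm_avg_err (r l : ℕ) (S : Γ → Sd ι) {a b : ℝ} (a0 : 0 ≤ a) (b0 : 0 ≤ b)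
    (ha : ∑ x, tn (S x) ≤ (Fintype.card Γ : ℝ) * a)
    (hb0 : ∑ x, ∑ ε : J → Bool, tn (dif (S (x + sft e ε)) (S x)) ≤
      (Fintype.card Γ : ℝ) * 2 ^ (Fintype.card J) * b)
    (hb1 : ∑ x, ∑ j, ∑ ε : J → Bool, tn (dif (S (x + sfj e j ε)) (S x)) ≤
      (Fintype.card Γ : ℝ) * Fintype.card J * 2 ^ (Fintype.card J) * b)
    (hb2 : ∑ x, ∑ j, ∑ ε : J → Bool, tn (dif (S (x + (2 * l) • e j))
      (S (x + (2 * l) • e j + sfj e j ε))) ≤
      (Fintype.card Γ : ℝ) * Fintype.card J * 2 ^ (Fintype.card J) * b)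
    {η : ℝ} (hη : 0 < η) :
    ∑ x, ∑ j, tn (dif (S (x + (2 * l) • e j)) (S x)) ≤
      (Fintype.card Γ : ℝ) * (6 * (2 * Fintype.card J + 2 * l * Cn r (Fintype.card J))) *
      ((6 * a) ^ ((((2 ^ (r + 1) : ℕ) : ℝ))⁻¹) * (6 / th r * b) ^ be r) +
      (Fintype.card Γ : ℝ) * (Fintype.card J * (2 * (Fintype.card ι * η))) := by
  obtain ⟨s0, hs, M, hM⟩ := exists_scales (∑ x, tn (S x)) hη
  set W : J → Γ → Matrix ι ι ℂ := fun j x => (dif (S (x + (2 * l) • e j)) (S x)).fc gs with hW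
  have hWu : ∀ j x, (W j x)ᴴ * W j x = 1 := fun j x => sign_unit _
  set κ := 6 / th r * b with hκ
  have κ0 : 0 ≤ κ := by have := th_pos r; positivity
  have h60 : 0 ≤ 6 * a := by positivity
  have hth : 0 ≤ 6 / th r := by have := th_pos r; positivity
  have hκs : ∀ T : Sd ι, ∑ i ∈ Finset.range M, sc s0 i * en r (sc s0 i) T ≤ 6 / th r * tn T :=
    fun T => en_sum r hs _ M
  have k0 : ∑ x, ∑ ε : J → Bool, ∑ i ∈ Finset.range M,
      sc s0 i * en r (sc s0 i) (dif (S (x + sft e ε)) (S x)) ≤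
      (Fintype.card Γ : ℝ) * 2 ^ (Fintype.card J) * κ := by
    refine (Finset.sum_le_sum fun x _ => Finset.sum_le_sum fun ε _ => hκs _).trans ?_
    simp only [← Finset.mul_sum]
    refine (mul_le_mul_of_nonneg_left hb0 hth).trans_eq ?_
    rw [hκ]; ring
  have k1 : ∑ x, ∑ j, ∑ ε : J → Bool, ∑ i ∈ Finset.range M,
      sc s0 i * en r (sc s0 i) (dif (S (x + sfj e j ε)) (S x)) ≤
      (Fintype.card Γ : ℝ) * Fintype.card J * 2 ^ (Fintype.card J) * κ := by
    refine (Finset.sum_le_sum fun x _ => Finset.sum_le_sum fun j _ =>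
      Finset.sum_le_sum fun ε _ => hκs _).trans ?_
    simp only [← Finset.mul_sum]
    refine (mul_le_mul_of_nonneg_left hb1 hth).trans_eq ?_
    rw [hκ]; ring
  have k2 : ∑ x, ∑ j, ∑ ε : J → Bool, ∑ i ∈ Finset.range M,
      sc s0 i * en r (sc s0 i) (dif (S (x + (2 * l) • e j)) (S (x + (2 * l) • e j + sfj e j ε))) ≤
      (Fintype.card Γ : ℝ) * Fintype.card J * 2 ^ (Fintype.card J) * κ := by
    refine (Finset.sum_le_sum fun x _ => Finset.sum_le_sum fun j _ =>
      Finset.sum_le_sum fun ε _ => hκs _).trans ?_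
    simp only [← Finset.mul_sum]
    refine (mul_le_mul_of_nonneg_left hb2 hth).trans_eq ?_
    rw [hκ]; ring
  have tot : ∑ x, ∑ j : J, 6 * tn (S x) ≤ (Fintype.card Γ : ℝ) * Fintype.card J * (6 * a) := by
    simp only [Finset.sum_const, Finset.card_univ, nsmul_eq_mul, ← Finset.mul_sum]
    have := mul_le_mul_of_nonneg_left ha (show (0 : ℝ) ≤ Fintype.card J * 6 by positivity)
    calc _ = (Fintype.card J : ℝ) * 6 * ∑ x, tn (S x) := by ring
      _ ≤ _ := this
      _ = _ := by ring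
  have tot' : ∑ x, ∑ j, 6 * tn (S (x + (2 * l) • e j)) ≤
      (Fintype.card Γ : ℝ) * Fintype.card J * (6 * a) := by
    refine le_trans (le_of_eq ?_) tot
    rw [Finset.sum_comm]
    rw [Finset.sum_comm (s := (Finset.univ : Finset Γ))]
    refine Finset.sum_congr rfl fun j _ => ?_
    exact Equiv.sum_comp (Equiv.addRight ((2 * l) • e j)) (fun x => 6 * tn (S x))
  have swp : ∀ f : ℕ → Γ → J → ℝ, ∑ i ∈ Finset.range M, ∑ x, ∑ j, f i x j =
      ∑ x, ∑ j, ∑ i ∈ Finset.range M, f i x j := by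
    intro f
    rw [Finset.sum_comm]
    refine Finset.sum_congr rfl fun x _ => ?_
    rw [Finset.sum_comm]
  -- first application
  have m1 := mc_avg (r := r) (M := M) (e := e) (w := sc s0) (fun i => (sc_pos hs i).le)
    (H := fun i j x => MQ (S (x + (2 * l) • e j)) (sc s0 i) * W j x)
    (V := fun i x => (1 / 2 : ℂ) • MP (S x) (sc s0 i))
    (E := fun i x y => en r (sc s0 i) (dif (S x) (S y)))
    (fun i x y => en_nonneg r (sc_pos hs i) _)
    (fun i Z x y => loc_MP r (sc_pos hs i) _ _ _)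
    (h := 6 * a) (κ := κ) h60 κ0
    (by
      rw [swp]
      refine (Finset.sum_le_sum fun x _ => Finset.sum_le_sum fun j _ => ?_).trans tot'
      simp only [pw_mul_unit _ (mul_eq_one_comm.1 (hWu j x))]
      exact pw_MQ r hs _ M) l k0 k1 k2
  have m2 := mc_avg (r := r) (M := M) (e := e) (w := sc s0) (fun i => (sc_pos hs i).le)
    (H := fun i j x => W j x * MP (S x) (sc s0 i))
    (V := fun i x => (1 / 2 : ℂ) • MQ (S x) (sc s0 i))
    (E := fun i x y => en r (sc s0 i) (dif (S x) (S y)))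
    (fun i x y => en_nonneg r (sc_pos hs i) _)
    (fun i Z x y => loc_MQ r (sc_pos hs i) _ _ _)
    (h := 6 * a) (κ := κ) h60 κ0
    (by
      rw [swp]
      refine (Finset.sum_le_sum fun x _ => Finset.sum_le_sum fun j _ => ?_).trans tot
      simp only [pw_unit_mul _ (hWu j x)]
      exact pw_MP r hs _ M) l k0 k1 k2
  -- pointwise identity
  have id1 : ∀ x j, ((tn (dif (S (x + (2 * l) • e j)) (S x)) : ℝ) : ℂ) =
      (-3 : ℂ) * (∑ i ∈ Finset.range M, ((sc s0 i : ℝ) : ℂ) *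
        (MQ (S (x + (2 * l) • e j)) (sc s0 i) * W j x *
          ((1 / 2 : ℂ) • MP (S (x + (2 * l) • e j)) (sc s0 i) - (1 / 2 : ℂ) • MP (S x) (sc s0 i))).trace) +
      (-3 : ℂ) * (∑ i ∈ Finset.range M, ((sc s0 i : ℝ) : ℂ) *
        (W j x * MP (S x) (sc s0 i) *
          ((1 / 2 : ℂ) • MQ (S (x + (2 * l) • e j)) (sc s0 i) - (1 / 2 : ℂ) • MQ (S x) (sc s0 i))).trace) +
      ((W j x * (S (x + (2 * l) • e j)).fc (fun t => (er s0 M t : ℂ))).trace -
        (W j x * (S x).fc (fun t => (er s0 M t : ℂ))).trace) := by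
    intro x j
    rw [← tn_eq, dif_spec]
    change (W j x * ((S (x + (2 * l) • e j)).mat - (S x).mat)).trace = _
    rw [mat_decomp (S (x + (2 * l) • e j)) s0 M, mat_decomp (S x) s0 M]
    have : ∀ (A B A' B' : Matrix ι ι ℂ), W j x * (A + B - (A' + B')) = W j x * (A - A') +
        (W j x * B - W j x * B') := by
      intro A B A' B'
      noncomm_ring
    rw [this, Matrix.trace_add, Matrix.trace_sub]
    congr 1
    rw [← Finset.sum_sub_distrib, Matrix.mul_sum, Matrix.trace_sum, Finset.mul_sum, Finset.mul_sum,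
      ← Finset.sum_add_distrib]
    refine Finset.sum_congr rfl fun i _ => ?_
    set P := MP (S x) (sc s0 i)
    set Q := MQ (S x) (sc s0 i)
    set P' := MP (S (x + (2 * l) • e j)) (sc s0 i)
    set Q' := MQ (S (x + (2 * l) • e j)) (sc s0 i)
    have e1 : (Q' * W j x * ((1 / 2 : ℂ) • P' - (1 / 2 : ℂ) • P)).trace =
        (1 / 2 : ℂ) * (W j x * ((P' - P) * Q')).trace := by
      rw [← smul_sub, Matrix.mul_smul, Matrix.trace_smul, smul_eq_mul]
      congr 1
      rw [Matrix.mul_assoc, Matrix.trace_mul_comm, Matrix.mul_assoc]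
    have e2 : (W j x * P * ((1 / 2 : ℂ) • Q' - (1 / 2 : ℂ) • Q)).trace =
        (1 / 2 : ℂ) * (W j x * (P * (Q' - Q))).trace := by
      rw [← smul_sub, Matrix.mul_smul, Matrix.trace_smul, smul_eq_mul, Matrix.mul_assoc]
    rw [e1, e2, ← smul_sub, Matrix.mul_smul, Matrix.trace_smul, smul_eq_mul]
    have e3 : P' * Q' - P * Q = (P' - P) * Q' + P * (Q' - Q) := by noncomm_ring
    rw [e3, Matrix.mul_add, Matrix.trace_add]
    push_cast
    ring
  -- sum
  have id2 : ((∑ x, ∑ j, tn (dif (S (x + (2 * l) • e j)) (S x)) : ℝ) : ℂ) =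
      (-3 : ℂ) * (∑ i ∈ Finset.range M, ((sc s0 i : ℝ) : ℂ) * ∑ x, ∑ j,
        (MQ (S (x + (2 * l) • e j)) (sc s0 i) * W j x *
          ((1 / 2 : ℂ) • MP (S (x + (2 * l) • e j)) (sc s0 i) - (1 / 2 : ℂ) • MP (S x) (sc s0 i))).trace) +
      (-3 : ℂ) * (∑ i ∈ Finset.range M, ((sc s0 i : ℝ) : ℂ) * ∑ x, ∑ j,
        (W j x * MP (S x) (sc s0 i) *
          ((1 / 2 : ℂ) • MQ (S (x + (2 * l) • e j)) (sc s0 i) - (1 / 2 : ℂ) • MQ (S x) (sc s0 i))).trace) +
      ∑ x, ∑ j, ((W j x * (S (x + (2 * l) • e j)).fc (fun t => (er s0 M t : ℂ))).trace -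
        (W j x * (S x).fc (fun t => (er s0 M t : ℂ))).trace) := by
    rw [← swap, ← swap, Finset.mul_sum, Finset.mul_sum, ← Finset.sum_add_distrib,
      ← Finset.sum_add_distrib]
    push_cast
    refine Finset.sum_congr rfl fun x _ => ?_
    rw [Finset.mul_sum, Finset.mul_sum, ← Finset.sum_add_distrib, ← Finset.sum_add_distrib]
    exact Finset.sum_congr rfl fun j _ => id1 x j
  have hE : ‖∑ x, ∑ j, ((W j x * (S (x + (2 * l) • e j)).fc (fun t => (er s0 M t : ℂ))).trace -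
        (W j x * (S x).fc (fun t => (er s0 M t : ℂ))).trace)‖ ≤
      (Fintype.card Γ : ℝ) * (Fintype.card J * (2 * (Fintype.card ι * η))) := by
    have h1 : ∀ (y : Γ) (j : J) (x : Γ), ‖(W j x * (S y).fc (fun t => (er s0 M t : ℂ))).trace‖ ≤
        Fintype.card ι * η := by
      intro y j x
      refine (trace_unit_fc (S y) (hWu j x) _).trans ?_
      refine (Finset.sum_le_card_nsmul _ _ η fun k _ => ?_).trans_eq ?_
      · rw [Complex.norm_real, Real.norm_eq_abs]
        refine hM _ (le_trans ?_ (Finset.single_le_sum (f := fun x => tn (S x))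
          (fun x _ => tn_nonneg _) (Finset.mem_univ y)))
        exact Finset.single_le_sum (f := fun k => |(S y).ev k|) (fun _ _ => abs_nonneg _)
          (Finset.mem_univ k)
      · rw [Finset.card_univ, nsmul_eq_mul]
    refine (norm_sum_le _ _).trans ?_
    refine (Finset.sum_le_card_nsmul _ _ (Fintype.card J * (2 * (Fintype.card ι * η)))
      fun x _ => ?_).trans_eq ?_
    · refine (norm_sum_le _ _).trans ?_
      refine (Finset.sum_le_card_nsmul _ _ (2 * (Fintype.card ι * η)) fun j _ => ?_).trans_eq ?_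
      · refine (norm_sub_le _ _).trans ?_
        have := h1 (x + (2 * l) • e j) j x
        have := h1 x j x
        linarith
      · rw [Finset.card_univ, nsmul_eq_mul]
    · rw [Finset.card_univ, nsmul_eq_mul]
  have hL0 : 0 ≤ ∑ x, ∑ j, tn (dif (S (x + (2 * l) • e j)) (S x)) :=
    Finset.sum_nonneg fun x _ => Finset.sum_nonneg fun j _ => tn_nonneg _
  have hfin := congrArg norm id2
  rw [Complex.norm_real, Real.norm_of_nonneg hL0] at hfin
  rw [hfin]
  refine (norm_add_le _ _).trans (add_le_add ((norm_add_le _ _).trans ?_) hE)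
  rw [norm_mul, norm_mul]
  have h3 : ‖(-3 : ℂ)‖ = 3 := by simp
  rw [h3]
  have m1' := m1
  have m2' := m2
  unfold Cn be
  linarith

theorem asm_avg (r l : ℕ) (S : Γ → Sd ι) {a b : ℝ} (a0 : 0 ≤ a) (b0 : 0 ≤ b)
    (ha : ∑ x, tn (S x) ≤ (Fintype.card Γ : ℝ) * a)
    (hb0 : ∑ x, ∑ ε : J → Bool, tn (dif (S (x + sft e ε)) (S x)) ≤
      (Fintype.card Γ : ℝ) * 2 ^ (Fintype.card J) * b)
    (hb1 : ∑ x, ∑ j, ∑ ε : J → Bool, tn (dif (S (x + sfj e j ε)) (S x)) ≤
      (Fintype.card Γ : ℝ) * Fintype.card J * 2 ^ (Fintype.card J) * b)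
    (hb2 : ∑ x, ∑ j, ∑ ε : J → Bool, tn (dif (S (x + (2 * l) • e j))
      (S (x + (2 * l) • e j + sfj e j ε))) ≤
      (Fintype.card Γ : ℝ) * Fintype.card J * 2 ^ (Fintype.card J) * b) :
    ∑ x, ∑ j, tn (dif (S (x + (2 * l) • e j)) (S x)) ≤
      (Fintype.card Γ : ℝ) * (6 * (2 * Fintype.card J + 2 * l * Cn r (Fintype.card J))) *
      ((6 * a) ^ ((((2 ^ (r + 1) : ℕ) : ℝ))⁻¹) * (6 / th r * b) ^ be r) := by
  apply le_of_forall_pos_le_add
  intro δ hδ
  set X := (Fintype.card Γ : ℝ) * (Fintype.card J * (2 * Fintype.card ι)) with hX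
  have hX0 : 0 ≤ X := by positivity
  have h := asm_avg_err r l S a0 b0 ha hb0 hb1 hb2 (η := δ / (X + 1)) (by positivity)
  refine h.trans (add_le_add le_rfl ?_)
  have e1 : (Fintype.card Γ : ℝ) * (Fintype.card J * (2 * (Fintype.card ι * (δ / (X + 1))))) =
      X / (X + 1) * δ := by rw [hX]; ring
  rw [e1]
  have h2 : X / (X + 1) ≤ 1 := by rw [div_le_one (by positivity)]; linarith
  calc X / (X + 1) * δ ≤ 1 * δ := mul_le_mul_of_nonneg_right h2 hδ.le
    _ = δ := one_mul δ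


end TH364.SG
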