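import Mathlib
import Pool.Agent.TH364.SG.AsmAvg
set_option autoImplicit false
set_option linter.unusedSectionVars false

/-! The averaged metric inequality for functions with values in the trace class. -/

namespace TH364.SG

open scoped ENNReal InnerProductSpace
open Finset
open Pool.Agent.Results.MP_fd02da_an.SchattenIsometries

universe u v
variable {H : Type u} [NormedAddCommGroup H] [InnerProductSpace ℂ H] [CompleteSpace H]
variable {J : Type v} [Fintype J] [DecidableEq J]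
variable {Γ : Type*} [AddCommGroup Γ] [Fintype Γ] {e : J → Γ}

theorem torus (r l : ℕ) (F : Γ → SchattenClass 1 H) {M b : ℝ} (hM0 : 0 ≤ M) (hb : 0 ≤ b)
    (hM : ∑ x, ‖F x - F 0‖ ≤ (Fintype.card Γ : ℝ) * M)
    (hb0 : ∑ x, ∑ ε : J → Bool, ‖F (x + sft e ε) - F x‖ ≤
      (Fintype.card Γ : ℝ) * 2 ^ (Fintype.card J) * b)
    (hb1 : ∑ x, ∑ j, ∑ ε : J → Bool, ‖F (x + sfj e j ε) - F x‖ ≤
      (Fintype.card Γ : ℝ) * Fintype.card J * 2 ^ (Fintype.card J) * b) :
    ∑ x, ∑ j, ‖F (x + (2 * l) • e j) - F x‖ ≤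
      (Fintype.card Γ : ℝ) * (288 * ((2 ^ (r + 1) : ℕ) : ℝ) *
        (Fintype.card J + l * Cn r (Fintype.card J))) *
      (M ^ ((((2 ^ (r + 1) : ℕ) : ℝ))⁻¹) * b ^ be r) := by
  classical
  obtain ⟨d, A, hA, hAT⟩ := reduce F
  choose S hS using fun x : Γ => exists_sd ((hA x).sub (hA 0))
  have hd : ∀ x y, (dif (S x) (S y)).mat = A x - A y := by
    intro x y
    rw [dif_spec, hS, hS]; abel
  have u0 : ∀ x, tn (S x) ≤ 2 * ‖F x - F 0‖ := fun x => (hAT x 0 (S x) (hS x)).2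
  have u1 : ∀ x y, tn (dif (S x) (S y)) ≤ 2 * ‖F x - F y‖ := fun x y => (hAT x y _ (hd x y)).2
  have u2 : ∀ x y, ‖F x - F y‖ ≤ 2 * tn (dif (S x) (S y)) := by
    intro x y
    have := (hAT x y _ (hd x y)).1
    linarith
  have ha : ∑ x, tn (S x) ≤ (Fintype.card Γ : ℝ) * (2 * M) := by
    refine (Finset.sum_le_sum fun x _ => u0 x).trans ?_
    rw [← Finset.mul_sum]
    linarith
  have k0 : ∑ x, ∑ ε : J → Bool, tn (dif (S (x + sft e ε)) (S x)) ≤
      (Fintype.card Γ : ℝ) * 2 ^ (Fintype.card J) * (2 * b) := by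
    refine (Finset.sum_le_sum fun x _ => Finset.sum_le_sum fun ε _ => u1 _ _).trans ?_
    simp only [← Finset.mul_sum]
    linarith
  have k1 : ∑ x, ∑ j, ∑ ε : J → Bool, tn (dif (S (x + sfj e j ε)) (S x)) ≤
      (Fintype.card Γ : ℝ) * Fintype.card J * 2 ^ (Fintype.card J) * (2 * b) := by
    refine (Finset.sum_le_sum fun x _ => Finset.sum_le_sum fun j _ =>
      Finset.sum_le_sum fun ε _ => u1 _ _).trans ?_
    simp only [← Finset.mul_sum]
    linarith
  have k2 : ∑ x, ∑ j, ∑ ε : J → Bool, tn (dif (S (x + (2 * l) • e j))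
      (S (x + (2 * l) • e j + sfj e j ε))) ≤
      (Fintype.card Γ : ℝ) * Fintype.card J * 2 ^ (Fintype.card J) * (2 * b) := by
    have h1 : ∑ x, ∑ j, ∑ ε : J → Bool, tn (dif (S (x + (2 * l) • e j))
        (S (x + (2 * l) • e j + sfj e j ε))) ≤
        2 * ∑ x, ∑ j, ∑ ε : J → Bool, ‖F (x + sfj e j ε) - F x‖ := by
      refine (Finset.sum_le_sum fun x _ => Finset.sum_le_sum fun j _ =>
        Finset.sum_le_sum fun ε _ => u1 _ _).trans ?_
      simp only [← Finset.mul_sum]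
      refine mul_le_mul_of_nonneg_left (le_of_eq ?_) (by norm_num)
      rw [Finset.sum_comm]
      rw [Finset.sum_comm (s := (Finset.univ : Finset Γ))]
      refine Finset.sum_congr rfl fun j _ => ?_
      rw [← Equiv.sum_comp (Equiv.addRight ((2 * l) • e j))
        (fun x => ∑ ε : J → Bool, ‖F (x + sfj e j ε) - F x‖)]
      refine Finset.sum_congr rfl fun x _ => Finset.sum_congr rfl fun ε _ => ?_
      rw [norm_sub_rev]
      rfl
    refine h1.trans ?_
    linarith
  have h := asm_avg r l S (a := 2 * M) (b := 2 * b) (by positivity) (by positivity) ha k0 k1 k2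
  set P := ((2 ^ (r + 1) : ℕ) : ℝ) with hPd
  have hP : (2 : ℝ) ≤ P := by rw [hPd]; exact_mod_cast two_le_P r
  have hbe : P⁻¹ + be r = 1 := by unfold be; rw [← hPd]; ring
  have hth := th_pos r
  have h6 := six_th r
  rw [← hPd] at h6
  have hX : (6 * (2 * M)) ^ P⁻¹ * (6 / th r * (2 * b)) ^ be r ≤
      12 * P * (M ^ P⁻¹ * b ^ be r) := by
    have a1 : (6 * (2 * M)) ^ P⁻¹ ≤ (12 * P) ^ P⁻¹ * M ^ P⁻¹ := by
      rw [← Real.mul_rpow (by positivity) hM0]
      refine Real.rpow_le_rpow (by positivity) ?_ (by positivity)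
      nlinarith
    have a2 : (6 / th r * (2 * b)) ^ be r ≤ (12 * P) ^ be r * b ^ be r := by
      rw [← Real.mul_rpow (by positivity) hb]
      refine Real.rpow_le_rpow (by positivity) ?_ (be_pos r).le
      have h7 : 6 / th r * (2 * b) ≤ 6 * P * (2 * b) :=
        mul_le_mul_of_nonneg_right h6 (by positivity)
      nlinarith
    calc _ ≤ ((12 * P) ^ P⁻¹ * M ^ P⁻¹) * ((12 * P) ^ be r * b ^ be r) :=
          mul_le_mul a1 a2 (by positivity) (by positivity)
      _ = ((12 * P) ^ P⁻¹ * (12 * P) ^ be r) * (M ^ P⁻¹ * b ^ be r) := by ring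
      _ = _ := by rw [← Real.rpow_add (by positivity), hbe, Real.rpow_one]
  have hC0 : 0 ≤ Cn r (Fintype.card J) := by
    unfold Cn; exact Real.rpow_nonneg (by unfold ck; positivity) _
  calc ∑ x, ∑ j, ‖F (x + (2 * l) • e j) - F x‖
      ≤ ∑ x, ∑ j, 2 * tn (dif (S (x + (2 * l) • e j)) (S x)) :=
        Finset.sum_le_sum fun x _ => Finset.sum_le_sum fun j _ => u2 _ _
    _ = 2 * ∑ x, ∑ j, tn (dif (S (x + (2 * l) • e j)) (S x)) := by simp only [← Finset.mul_sum]
    _ ≤ 2 * ((Fintype.card Γ : ℝ) * (6 * (2 * Fintype.card J + 2 * l * Cn r (Fintype.card J))) *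
        ((6 * (2 * M)) ^ P⁻¹ * (6 / th r * (2 * b)) ^ be r)) :=
        mul_le_mul_of_nonneg_left h (by norm_num)
    _ ≤ 2 * ((Fintype.card Γ : ℝ) * (6 * (2 * Fintype.card J + 2 * l * Cn r (Fintype.card J))) *
        (12 * P * (M ^ P⁻¹ * b ^ be r))) :=
        mul_le_mul_of_nonneg_left (mul_le_mul_of_nonneg_left hX (by positivity)) (by norm_num)
    _ = _ := by ring

end TH364.SG
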