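import Mathlib
import Pool.Agent.TH364.SG.Torus
import Pool.Agent.TH364.SG.Cot
set_option autoImplicit false
set_option linter.unusedSectionVars false

/-! The torus in a normed space. -/

namespace TH364.SG

open Finset

universe u
variable {X : Type u} [NormedAddCommGroup X] [NormedSpace ℝ X]
variable (l : ℕ) [NeZero l] {n : ℕ}

theorem fo_step (v : ZMod (4 * l)) :
    (fo l (v + 1) : ℝ) - fo l v = sg (decide (v.val < 2 * l)) := by
  have h1 : v + 1 = v + ((1 : ℕ) : ZMod (4 * l)) := by simp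
  have hv := ZMod.val_lt v
  have hl : 0 < l := Nat.pos_of_ne_zero (NeZero.ne l)
  by_cases h : v.val < 2 * l
  · have key : fo l (v + 1) = fo l v + 1 := by
      rw [h1]; unfold fo
      rw [val_add_nat, Nat.mod_eq_of_lt (by omega)]; omega
    rw [key]
    simp [h, sg]
  · have key : fo l (v + 1) + 1 = fo l v := by
      rw [h1]; unfold fo
      rw [val_add_nat]
      rcases Nat.lt_or_ge (v.val + 1) (4 * l) with hc | hc
      · rw [Nat.mod_eq_of_lt hc]; omega
      · rw [Nat.mod_eq_sub_mod hc, Nat.mod_eq_of_lt (by omega)]; omega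
    rw [← key]
    simp [h, sg]

/-- the sign of the increment of the folding map -/
def dl (v : ZMod (4 * l)) (b : Bool) : Bool :=
  bif b then decide (v.val < 2 * l) else !decide ((v - 1).val < 2 * l)

theorem fo_dl (v : ZMod (4 * l)) (b : Bool) :
    (fo l (v + ((sgz b : ℤ) : ZMod (4 * l))) : ℝ) - fo l v = sg (dl l v b) := by
  cases b
  · have h := fo_step l (v - 1)
    rw [sub_add_cancel] at h
    have e : v + ((sgz false : ℤ) : ZMod (4 * l)) = v - 1 := by
      simp [sgz, sub_eq_add_neg]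
    rw [e]
    unfold dl
    rw [cond_false, sg_not, ← h]
    ring
  · have h := fo_step l v
    have e : v + ((sgz true : ℤ) : ZMod (4 * l)) = v + 1 := by simp [sgz]
    rw [e, h]
    rfl

/-- the torus map -/
noncomputable def psi (y : Fin n → X) (x : Fin n → ZMod (4 * l)) : X := ∑ j, (fo l (x j) : ℝ) • y j

theorem psi_sft (y : Fin n → X) (x : Fin n → ZMod (4 * l)) (ε : Fin n → Bool) :
    psi l y (x + sft (ev l n) ε) - psi l y x = rs y (fun j => dl l (x j) (ε j)) := by
  unfold psi rs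
  rw [← Finset.sum_sub_distrib]
  refine Finset.sum_congr rfl fun j _ => ?_
  rw [← sub_smul]
  congr 1
  rw [← fo_dl]
  congr 3
  rw [Pi.add_apply]
  congr 1
  exact sum_ev l (fun k => sgz (ε k)) j

theorem psi_sfj (y : Fin n → X) (x : Fin n → ZMod (4 * l)) (j : Fin n) (ε : Fin n → Bool) :
    psi l y (x + sfj (ev l n) j ε) - psi l y x =
      rs y (fun j => dl l (x j) (ε j)) - sg (dl l (x j) (ε j)) • y j := by
  have h1 : rs y (fun j => dl l (x j) (ε j)) - sg (dl l (x j) (ε j)) • y j =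
      ∑ k, (if k = j then (0 : ℝ) else sg (dl l (x k) (ε k))) • y k := by
    unfold rs
    have h2 : sg (dl l (x j) (ε j)) • y j = ∑ k, (if k = j then sg (dl l (x k) (ε k)) else 0) • y k := by
      rw [Finset.sum_eq_single j]
      · simp
      · intro k _ hk; simp [hk]
      · intro h; exact absurd (Finset.mem_univ j) h
    rw [h2, ← Finset.sum_sub_distrib]
    refine Finset.sum_congr rfl fun k _ => ?_
    rw [← sub_smul]
    congr 1
    split_ifs <;> simp
  rw [h1]
  unfold psi
  rw [← Finset.sum_sub_distrib]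
  refine Finset.sum_congr rfl fun k _ => ?_
  rw [← sub_smul]
  congr 1
  have h3 : (x + sfj (ev l n) j ε) k = x k + (((if k = j then 0 else sgz (ε k)) : ℤ) : ZMod (4 * l)) := by
    rw [Pi.add_apply]
    congr 1
    exact sum_ev l (fun k => if k = j then 0 else sgz (ε k)) k
  rw [h3]
  split_ifs with hk
  · simp
  · exact fo_dl l (x k) (ε k)

theorem psi_far (y : Fin n → X) (x : Fin n → ZMod (4 * l)) (j : Fin n) :
    ‖psi l y (x + (2 * l) • ev l n j) - psi l y x‖ = ad l (x j) * ‖y j‖ := by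
  have h1 : psi l y (x + (2 * l) • ev l n j) - psi l y x = ((2 * l : ℝ) - 2 * fo l (x j)) • y j := by
    unfold psi
    rw [← Finset.sum_sub_distrib, Finset.sum_eq_single j]
    · rw [← sub_smul]
      congr 1
      have e : (x + (2 * l) • ev l n j) j = x j + ((2 * l : ℕ) : ZMod (4 * l)) := by
        simp [ev]
      rw [e, fo_half, Nat.cast_sub (fo_le l _)]
      push_cast
      ring
    · intro k _ hk
      have e : (x + (2 * l) • ev l n j) k = x k := by
        simp [ev, hk]
      rw [e, sub_self]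
    · intro h; exact absurd (Finset.mem_univ j) h
  rw [h1, norm_smul, Real.norm_eq_abs]
  rfl

theorem psi_diam (y : Fin n → X) (hy : ∀ j, ‖y j‖ ≤ 1) (x x' : Fin n → ZMod (4 * l)) :
    ‖psi l y x - psi l y x'‖ ≤ 2 * l * n := by
  unfold psi
  rw [← Finset.sum_sub_distrib]
  refine (norm_sum_le _ _).trans ?_
  refine (Finset.sum_le_card_nsmul _ _ (2 * l : ℝ) fun j _ => ?_).trans_eq ?_
  · rw [← sub_smul, norm_smul, Real.norm_eq_abs]
    have h1 : |(fo l (x j) : ℝ) - fo l (x' j)| ≤ 2 * l := by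
      have a1 : (fo l (x j) : ℝ) ≤ 2 * l := by exact_mod_cast fo_le l (x j)
      have a2 : (fo l (x' j) : ℝ) ≤ 2 * l := by exact_mod_cast fo_le l (x' j)
      have a3 : (0 : ℝ) ≤ fo l (x j) := Nat.cast_nonneg _
      have a4 : (0 : ℝ) ≤ fo l (x' j) := Nat.cast_nonneg _
      rw [abs_le]; constructor <;> linarith
    calc _ ≤ (2 * l : ℝ) * 1 := mul_le_mul h1 (hy j) (norm_nonneg _) (by positivity)
      _ = _ := mul_one _
  · rw [Finset.card_univ, Fintype.card_fin, nsmul_eq_mul]; ring

/-- edges of the cycle with orientation -/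
def edgeE : ZMod (4 * l) × Bool ≃ ZMod (4 * l) × Bool where
  toFun p := (bif p.2 then p.1 else p.1 - 1, dl l p.1 p.2)
  invFun p := (bif (p.2 == decide (p.1.val < 2 * l)) then p.1 else p.1 + 1,
    (p.2 == decide (p.1.val < 2 * l)))
  left_inv := by
    rintro ⟨v, b⟩
    cases b
    · simp only [dl, cond_false]
      cases decide ((v - 1).val < 2 * l) <;> simp
    · simp only [dl, cond_true]
      cases decide (v.val < 2 * l) <;> simp
  right_inv := by
    rintro ⟨k, c⟩
    have hk : k + 1 - 1 = k := add_sub_cancel_right k 1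
    cases hd : decide (k.val < 2 * l) <;> cases c <;>
      simp only [dl, hd, hk, cond_true, cond_false, Bool.not_true, Bool.not_false, beq_self_eq_true,
        Bool.true_beq, Bool.false_beq]

theorem sum_dl (G : (Fin n → Bool) → ℝ) :
    ∑ x : Fin n → ZMod (4 * l), ∑ ε : Fin n → Bool, G (fun j => dl l (x j) (ε j)) =
      Fintype.card (Fin n → ZMod (4 * l)) * ∑ θ : Fin n → Bool, G θ := by
  have h1 : ∑ p : Fin n → ZMod (4 * l) × Bool, G (fun j => (edgeE l (p j)).2) =
      ∑ p : Fin n → ZMod (4 * l) × Bool, G (fun j => (p j).2) :=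
    Equiv.sum_comp (Equiv.piCongrRight fun _ : Fin n => edgeE l)
      (fun p : Fin n → ZMod (4 * l) × Bool => G (fun j => (p j).2))
  have h2 : ∑ x : Fin n → ZMod (4 * l), ∑ ε : Fin n → Bool, G (fun j => dl l (x j) (ε j)) =
      ∑ p : Fin n → ZMod (4 * l) × Bool, G (fun j => (edgeE l (p j)).2) := by
    rw [← Fintype.sum_prod_type']
    rw [← Equiv.sum_comp (Equiv.arrowProdEquivProdArrow (Fin n) (fun _ => ZMod (4 * l)) (fun _ => Bool))]
    rfl
  have h3 : ∑ p : Fin n → ZMod (4 * l) × Bool, G (fun j => (p j).2) =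
      ∑ _x : Fin n → ZMod (4 * l), ∑ θ : Fin n → Bool, G θ := by
    rw [← Fintype.sum_prod_type']
    rw [← Equiv.sum_comp (Equiv.arrowProdEquivProdArrow (Fin n) (fun _ => ZMod (4 * l)) (fun _ => Bool))]
    rfl
  rw [h2, h1, h3, Finset.sum_const, Finset.card_univ, nsmul_eq_mul]

theorem good_count (j : Fin n) : (Fintype.card (Fin n → ZMod (4 * l)) : ℝ) ≤
    2 * ∑ x : Fin n → ZMod (4 * l), (if (l : ℝ) ≤ ad l (x j) then (1 : ℝ) else 0) := by
  have h1 : ∑ x : Fin n → ZMod (4 * l), (if (l : ℝ) ≤ ad l ((x + l • ev l n j) j) then (1 : ℝ) else 0) =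
      ∑ x : Fin n → ZMod (4 * l), (if (l : ℝ) ≤ ad l (x j) then (1 : ℝ) else 0) :=
    Equiv.sum_comp (Equiv.addRight (l • ev l n j))
      (fun x : Fin n → ZMod (4 * l) => (if (l : ℝ) ≤ ad l (x j) then (1 : ℝ) else 0))
  have h2 : ∀ x : Fin n → ZMod (4 * l), (1 : ℝ) ≤ (if (l : ℝ) ≤ ad l (x j) then (1 : ℝ) else 0) +
      (if (l : ℝ) ≤ ad l ((x + l • ev l n j) j) then (1 : ℝ) else 0) := by
    intro x
    have e : (x + l • ev l n j) j = x j + (l : ZMod (4 * l)) := by simp [ev]
    rw [e]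
    have h := ad_pair l (x j)
    split_ifs with a b b
    · norm_num
    · norm_num
    · norm_num
    · push Not at a b; linarith
  have h3 : ∑ x : Fin n → ZMod (4 * l), (1 : ℝ) ≤ ∑ x : Fin n → ZMod (4 * l),
      ((if (l : ℝ) ≤ ad l (x j) then (1 : ℝ) else 0) +
      (if (l : ℝ) ≤ ad l ((x + l • ev l n j) j) then (1 : ℝ) else 0)) :=
    Finset.sum_le_sum fun x _ => h2 x
  rw [Finset.sum_add_distrib, h1, Finset.sum_const, Finset.card_univ, nsmul_eq_mul, mul_one] at h3
  linarith

end TH364.SG
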