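import Mathlib
import Pool.Agent.TH364.SG.Red
set_option autoImplicit false
set_option linter.unusedSectionVars false

/-! The quantitative inequality for grids in the trace class. -/

namespace TH364.SG

open scoped ENNReal InnerProductSpace
open Finset
open Pool.Agent.Results.MP_fd02da_an.SchattenIsometries

universe u
variable {H : Type u} [NormedAddCommGroup H] [InnerProductSpace ℂ H] [CompleteSpace H]

/-- the grid {0,...,m}^n with the sup metric -/
abbrev Grid (m n : ℕ) : Type := {x : Fin n → ℕ // ∀ j, x j ≤ m}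

theorem Cn_le (r n : ℕ) :
    Cn r n ≤ Real.sqrt (6 * ((2 ^ (r + 1) : ℕ) : ℝ)) * Real.sqrt n := by
  unfold Cn ck
  have hP : (0 : ℝ) < ((2 ^ (r + 1) : ℕ) : ℝ) := by positivity
  set P := ((2 ^ (r + 1) : ℕ) : ℝ) with hPd
  have hK : (2 * ((2 ^ r : ℕ) : ℝ)) = P := by
    rw [hPd]; push_cast; ring
  have e1 : 2 * (2 * ((2 ^ r : ℕ) : ℝ) * Real.exp 1) ^ (2 ^ r) * (n : ℝ) ^ (2 ^ r) ≤
      (6 * P * n) ^ (2 ^ r) := by
    rw [hK]
    have h1 : (2 : ℝ) ≤ 2 ^ (2 ^ r) := by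
      calc (2 : ℝ) = 2 ^ 1 := by norm_num
        _ ≤ 2 ^ (2 ^ r) := pow_le_pow_right₀ (by norm_num) Nat.one_le_two_pow
    have h2 : Real.exp 1 ≤ 3 := by
      have := Real.exp_one_lt_d9
      linarith
    calc 2 * (P * Real.exp 1) ^ (2 ^ r) * (n : ℝ) ^ (2 ^ r)
        ≤ 2 ^ (2 ^ r) * (P * 3) ^ (2 ^ r) * (n : ℝ) ^ (2 ^ r) := by gcongr
      _ = (6 * P * n) ^ (2 ^ r) := by rw [← mul_pow, ← mul_pow]; congr 1; ring
  have e2 : (2 * (2 * ((2 ^ r : ℕ) : ℝ) * Real.exp 1) ^ (2 ^ r) * (n : ℝ) ^ (2 ^ r)) ^ P⁻¹ ≤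
      ((6 * P * n) ^ (2 ^ r)) ^ P⁻¹ := Real.rpow_le_rpow (by positivity) e1 (by positivity)
  refine e2.trans (le_of_eq ?_)
  rw [← Real.rpow_natCast, ← Real.rpow_mul (by positivity), ← Real.sqrt_mul (by positivity),
    Real.sqrt_eq_rpow]
  congr 1
  rw [← hK]
  push_cast
  have : ((2 : ℝ) ^ r) ≠ 0 := by positivity
  field_simp

/-- clipping to the grid -/
def clip (m : ℕ) {n : ℕ} (x : Fin n → ℕ) : Grid m n := ⟨fun j => min (x j) m, fun _ => min_le_right _ _⟩

theorem clip_eq {m n : ℕ} {x : Fin n → ℕ} (hx : ∀ j, x j ≤ m) : (clip m x).1 = x := by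
  funext j
  exact min_eq_left (hx j)

theorem quant (r l n : ℕ) [NeZero l] (f : Grid (2 * l) n → SchattenClass 1 H) {lam D : ℝ}
    (hlam : 0 < lam) (hD : 0 ≤ D)
    (hf : ∀ x y, lam * dist x y ≤ dist (f x) (f y) ∧ dist (f x) (f y) ≤ D * lam * dist x y) :
    (n * l : ℝ) ≤ 288 * ((n + l * Cn r n) * (((2 ^ (r + 1) : ℕ) : ℝ)) * D *
      (l : ℝ) ^ ((((2 ^ (r + 1) : ℕ) : ℝ))⁻¹)) * 2 := by
  have hP : (2 : ℝ) ≤ ((2 ^ (r + 1) : ℕ) : ℝ) := by exact_mod_cast two_le_P r
  have hfin : Finite (Grid (2 * l) n) := by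
    have : Finite (Fin n → Fin (2 * l + 1)) := inferInstance
    refine Finite.of_injective (fun x : Grid (2 * l) n => fun j => (⟨x.1 j, Nat.lt_succ_of_le (x.2 j)⟩ : Fin (2 * l + 1))) ?_
    intro x y hxy
    apply Subtype.ext
    funext j
    have := congrFun hxy j
    simpa using this
  obtain ⟨d, A, hA, hAT⟩ := reduce f
  have h := grid_herm (ι := Fin d ⊕ Fin d) l (n := n) r (fun x => A (clip (2 * l) x))
    (fun x => hA _) (c1 := lam / 2) (c2 := 2 * (D * lam)) (by positivity)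
    (fun x y hx hy T hT => by
      have h1 := (hAT _ _ T hT).1
      have h2 := (hf (clip (2 * l) x) (clip (2 * l) y)).1
      rw [dist_eq_norm, Subtype.dist_eq, clip_eq hx, clip_eq hy] at h2
      change lam / 2 * dist x y ≤ _
      linarith)
    (fun x y hx hy T hT => by
      have h1 := (hAT _ _ T hT).2
      have h2 := (hf (clip (2 * l) x) (clip (2 * l) y)).2
      rw [dist_eq_norm, Subtype.dist_eq, clip_eq hx, clip_eq hy] at h2
      change _ ≤ 2 * (D * lam) * dist x y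
      linarith)
    (by positivity)
  set P := ((2 ^ (r + 1) : ℕ) : ℝ) with hPd
  have hl : (0 : ℝ) ≤ l := Nat.cast_nonneg l
  have hbe : P⁻¹ + be r = 1 := by unfold be; rw [← hPd]; ring
  have hth := th_pos r
  have h6 := six_th r
  rw [← hPd] at h6
  have hX : (6 * (2 * (D * lam) * (2 * l))) ^ P⁻¹ * (6 / th r * (2 * (D * lam))) ^ be r ≤
      24 * P * (D * lam) * (l : ℝ) ^ P⁻¹ := by
    have hDl : 0 ≤ D * lam := by positivity
    have a1 : (6 * (2 * (D * lam) * (2 * l))) ^ P⁻¹ ≤ (24 * P * (D * lam)) ^ P⁻¹ * (l : ℝ) ^ P⁻¹ := by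
      rw [← Real.mul_rpow (by positivity) hl]
      refine Real.rpow_le_rpow (by positivity) ?_ (by positivity)
      have : 0 ≤ (D * lam) * l := by positivity
      nlinarith
    have a2 : (6 / th r * (2 * (D * lam))) ^ be r ≤ (24 * P * (D * lam)) ^ be r := by
      refine Real.rpow_le_rpow (by positivity) ?_ (be_pos r).le
      have h7 : 6 / th r * (2 * (D * lam)) ≤ 6 * P * (2 * (D * lam)) :=
        mul_le_mul_of_nonneg_right h6 (by positivity)
      nlinarith
    calc _ ≤ ((24 * P * (D * lam)) ^ P⁻¹ * (l : ℝ) ^ P⁻¹) * (24 * P * (D * lam)) ^ be r :=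
          mul_le_mul a1 a2 (by positivity) (by positivity)
      _ = ((24 * P * (D * lam)) ^ P⁻¹ * (24 * P * (D * lam)) ^ be r) * (l : ℝ) ^ P⁻¹ := by ring
      _ = _ := by
        rcases hDl.eq_or_lt with h0 | h0
        · rw [← h0]
          have : P⁻¹ ≠ 0 := by positivity
          simp [Real.zero_rpow this]
        · rw [← Real.rpow_add (by positivity), hbe, Real.rpow_one]
  have hC0 : 0 ≤ Cn r n := by unfold Cn; exact Real.rpow_nonneg (by unfold ck; positivity) _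
  have h2 := h.trans (mul_le_mul_of_nonneg_left hX (by positivity))
  have h3 : lam * (n * l : ℝ) ≤ lam * (288 * ((n + l * Cn r n) * P * D * (l : ℝ) ^ P⁻¹) * 2) := by
    have e : lam * (n * l : ℝ) = 2 * (lam / 2 * (n * l)) := by ring
    rw [e]
    calc _ ≤ 2 * (6 * (2 * n + 2 * l * Cn r n) * (24 * P * (D * lam) * (l : ℝ) ^ P⁻¹)) :=
          mul_le_mul_of_nonneg_left h2 (by norm_num)
      _ = _ := by ring
  exact le_of_mul_le_mul_left h3 hlam

end TH364.SG
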