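import Mathlib
import Pool.Agent.TH364.SG.Geom
import Pool.Agent.TH364.SG.Num
set_option autoImplicit false
set_option linter.unusedSectionVars false

/-! Maps into the trace class with polynomial compression. -/

namespace TH364.SG

open Finset
open Pool.Agent.Results.MP_fd02da_an.SchattenIsometries

universe u v
variable {X : Type u} [NormedAddCommGroup X] [NormedSpace ℝ X]
variable {H : Type v} [NormedAddCommGroup H] [InnerProductSpace ℂ H] [CompleteSpace H]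

/-- Lipschitz in the large implies a bound at all distances. -/
theorem large_lip {g : X → SchattenClass 1 H} {C : ℝ} (hC : 0 ≤ C)
    (hg : ∀ x y, 1 ≤ ‖x - y‖ → ‖g x - g y‖ ≤ C * ‖x - y‖) {u : X} (hu : ‖u‖ = 1) (x y : X) :
    ‖g x - g y‖ ≤ 7 * C * (1 + ‖x - y‖) := by
  rcases le_or_gt 1 ‖x - y‖ with h | h
  · refine (hg x y h).trans ?_
    nlinarith
  · set z := x + (3 : ℝ) • u with hz
    have h1 : ‖x - z‖ = 3 := by
      rw [hz, sub_add_cancel_left, norm_neg, norm_smul, hu]; norm_num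
    have h2 : ‖z - y‖ ≤ 4 := by
      have e : z - y = (x - y) + (3 : ℝ) • u := by rw [hz]; abel
      rw [e]
      refine (norm_add_le _ _).trans ?_
      rw [norm_smul, hu]
      norm_num
      linarith
    have h3 : 1 ≤ ‖z - y‖ := by
      have e : (3 : ℝ) • u = (z - y) - (x - y) := by rw [hz]; abel
      have h4 : ‖(3 : ℝ) • u‖ = 3 := by rw [norm_smul, hu]; norm_num
      have h5 := norm_sub_le (z - y) (x - y)
      rw [← e, h4] at h5
      linarith
    have e : g x - g y = (g x - g z) + (g z - g y) := by abel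
    rw [e]
    refine (norm_add_le _ _).trans ?_
    have a1 := hg x z (by rw [h1]; norm_num)
    have a2 := hg z y h3
    rw [h1] at a1
    have a3 : C * ‖z - y‖ ≤ C * 4 := mul_le_mul_of_nonneg_left h2 hC
    have a4 : 0 ≤ ‖x - y‖ := norm_nonneg _
    nlinarith

theorem le_one_add_rpow {q : ℝ} (hq : 1 ≤ q) {s : ℝ} (hs : 0 ≤ s) : s ≤ 1 + s ^ q := by
  rcases le_or_gt s 1 with h | h
  · have := Real.rpow_nonneg hs q
    linarith
  · have := Real.self_le_rpow_of_one_le h.le hq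
    linarith


/-- the scaled average of the Rademacher sums over the torus -/
theorem avg_t {q q' : ℝ} (hq' : 2 < q') (hqq : q' < q) {n : ℕ} (hn0 : (1 : ℝ) ≤ n) (l : ℕ)
    [NeZero l] (y : Fin n → X) (hr : rav q y ≤ (n : ℝ) ^ (q / q')) :
    ∑ x : Fin n → ZMod (4 * l), ∑ ε : Fin n → Bool,
      (n : ℝ) ^ (-(1 / q')) * ‖rs y (fun j => dl l (x j) (ε j))‖ ≤
      (Fintype.card (Fin n → ZMod (4 * l)) : ℝ) * 2 ^ n * 2 := by
  have hq'0 : 0 < q' := by linarith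
  have hq0 : 0 < q := by linarith
  set t : ℝ := (n : ℝ) ^ (-(1 / q')) with ht
  have ht0 : 0 < t := by rw [ht]; positivity
  rw [sum_dl l (fun θ => t * ‖rs y θ‖)]
  have h1 : ∑ θ : Fin n → Bool, t * ‖rs y θ‖ ≤ 2 ^ n * 2 := by
    have h2 : ∀ θ : Fin n → Bool, t * ‖rs y θ‖ ≤ 1 + t ^ q * ‖rs y θ‖ ^ q := by
      intro θ
      rw [← Real.mul_rpow ht0.le (norm_nonneg _)]
      exact le_one_add_rpow (by linarith) (by positivity)
    refine (Finset.sum_le_sum fun θ _ => h2 θ).trans ?_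
    rw [Finset.sum_add_distrib, ← Finset.mul_sum, Finset.sum_const, Finset.card_univ,
      Fintype.card_fun, Fintype.card_bool, Fintype.card_fin, nsmul_eq_mul, mul_one]
    push_cast
    have h3 : ∑ θ : Fin n → Bool, ‖rs y θ‖ ^ q ≤ 2 ^ n * (n : ℝ) ^ (q / q') := by
      unfold rav at hr
      rw [Fintype.card_fin, inv_mul_eq_div, div_le_iff₀ (by positivity)] at hr
      linarith
    have h4 : t ^ q * (n : ℝ) ^ (q / q') = 1 := by
      rw [ht, ← Real.rpow_mul (by linarith), ← Real.rpow_add (by linarith)]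
      have : -(1 / q') * q + q / q' = 0 := by field_simp; ring
      rw [this, Real.rpow_zero]
    have h5 : t ^ q * ∑ θ : Fin n → Bool, ‖rs y θ‖ ^ q ≤ 2 ^ n := by
      calc _ ≤ t ^ q * (2 ^ n * (n : ℝ) ^ (q / q')) :=
            mul_le_mul_of_nonneg_left h3 (by positivity)
        _ = 2 ^ n * (t ^ q * (n : ℝ) ^ (q / q')) := by ring
        _ = 2 ^ n := by rw [h4, mul_one]
    linarith
  calc _ ≤ (Fintype.card (Fin n → ZMod (4 * l)) : ℝ) * (2 ^ n * 2) :=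
        mul_le_mul_of_nonneg_left h1 (by positivity)
    _ = _ := by ring

theorem sum_const_torus {n : ℕ} (l : ℕ) [NeZero l] (c : ℝ) :
    ∑ _x : Fin n → ZMod (4 * l), ∑ _ε : Fin n → Bool, c =
      c * ((Fintype.card (Fin n → ZMod (4 * l)) : ℝ) * 2 ^ n) := by
  rw [Finset.sum_const, Finset.sum_const, Finset.card_univ, Finset.card_univ, Fintype.card_fun (α := Fin n) (β := Bool),
    Fintype.card_bool, Fintype.card_fin, nsmul_eq_mul, nsmul_eq_mul]
  push_cast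
  ring

/-- local averages for functions with a linear bound -/
theorem local_avgs {n : ℕ} (l : ℕ) [NeZero l] {y : Fin n → X} (hy : ∀ j, ‖y j‖ ≤ 1)
    {F : (Fin n → ZMod (4 * l)) → SchattenClass 1 H} {C t : ℝ} (hC : 0 ≤ C) (ht0 : 0 ≤ t)
    (ht1 : t ≤ 1)
    (hFd : ∀ x x', ‖F x - F x'‖ ≤ C * (1 + t * ‖psi l y x - psi l y x'‖))
    (havg : ∑ x : Fin n → ZMod (4 * l), ∑ ε : Fin n → Bool,
      t * ‖rs y (fun j => dl l (x j) (ε j))‖ ≤
      (Fintype.card (Fin n → ZMod (4 * l)) : ℝ) * 2 ^ n * 2) :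
    (∑ x, ∑ ε : Fin n → Bool, ‖F (x + sft (ev l n) ε) - F x‖ ≤
      (Fintype.card (Fin n → ZMod (4 * l)) : ℝ) * 2 ^ (Fintype.card (Fin n)) * (4 * C)) ∧
    (∑ x, ∑ j, ∑ ε : Fin n → Bool, ‖F (x + sfj (ev l n) j ε) - F x‖ ≤
      (Fintype.card (Fin n → ZMod (4 * l)) : ℝ) * Fintype.card (Fin n) *
        2 ^ (Fintype.card (Fin n)) * (4 * C)) := by
  have key : ∑ x : Fin n → ZMod (4 * l), ∑ ε : Fin n → Bool,
      C * (2 + t * ‖rs y (fun j => dl l (x j) (ε j))‖) ≤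
      (Fintype.card (Fin n → ZMod (4 * l)) : ℝ) * 2 ^ n * (4 * C) := by
    have e : ∀ (x : Fin n → ZMod (4 * l)) (ε : Fin n → Bool),
        C * (2 + t * ‖rs y (fun j => dl l (x j) (ε j))‖) =
        2 * C + C * (t * ‖rs y (fun j => dl l (x j) (ε j))‖) := fun x ε => by ring
    simp only [e, Finset.sum_add_distrib]
    rw [sum_const_torus]
    have h3 := mul_le_mul_of_nonneg_left havg hC
    have e2 : ∑ x : Fin n → ZMod (4 * l), ∑ ε : Fin n → Bool,
        C * (t * ‖rs y (fun j => dl l (x j) (ε j))‖) = C * ∑ x : Fin n → ZMod (4 * l),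
        ∑ ε : Fin n → Bool, t * ‖rs y (fun j => dl l (x j) (ε j))‖ := by
      rw [Finset.mul_sum]
      exact Finset.sum_congr rfl fun x _ => by rw [Finset.mul_sum]
    rw [e2]
    linarith
  constructor
  · rw [Fintype.card_fin]
    refine le_trans (Finset.sum_le_sum fun x _ => Finset.sum_le_sum fun ε _ => ?_) key
    refine (hFd _ _).trans ?_
    rw [psi_sft]
    exact mul_le_mul_of_nonneg_left (by linarith) hC
  · have h1 : ∀ x (j : Fin n) ε, ‖F (x + sfj (ev l n) j ε) - F x‖ ≤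
        C * (2 + t * ‖rs y (fun j => dl l (x j) (ε j))‖) := by
      intro x j ε
      refine (hFd _ _).trans ?_
      rw [psi_sfj]
      have h2 : ‖rs y (fun j => dl l (x j) (ε j)) - sg (dl l (x j) (ε j)) • y j‖ ≤
          ‖rs y (fun j => dl l (x j) (ε j))‖ + 1 := by
        refine (norm_sub_le _ _).trans (add_le_add le_rfl ?_)
        rw [norm_smul]
        have : ‖sg (dl l (x j) (ε j))‖ = 1 := by cases dl l (x j) (ε j) <;> simp [sg]
        rw [this, one_mul]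
        exact hy j
      refine mul_le_mul_of_nonneg_left ?_ hC
      have h3 := mul_le_mul_of_nonneg_left h2 ht0
      linarith
    rw [Finset.sum_comm]
    have h5 : ∀ j ∈ (Finset.univ : Finset (Fin n)), ∑ x, ∑ ε : Fin n → Bool,
        ‖F (x + sfj (ev l n) j ε) - F x‖ ≤
        (Fintype.card (Fin n → ZMod (4 * l)) : ℝ) * 2 ^ n * (4 * C) := by
      intro j _
      exact (Finset.sum_le_sum fun x _ => Finset.sum_le_sum fun ε _ => h1 x j ε).trans key
    refine (Finset.sum_le_card_nsmul _ _ _ h5).trans_eq ?_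
    rw [Finset.card_univ, Fintype.card_fin, nsmul_eq_mul]
    ring

theorem poly_num {C X0 P G n l Cn0 s : ℝ} {β : ℝ} (hC : 1 ≤ C) (hP : 2 ≤ P) (hG : 0 < G)
    (hn : 1 ≤ n) (hl : l ≤ 2 * s) (hl0 : 0 ≤ l) (hss : s * s = n) (hs : 1 ≤ s)
    (hβ : P⁻¹ + β = 1) (hβ0 : 0 < β)
    (hCn : Cn0 ≤ Real.sqrt (6 * P) * s)
    (h1 : n * (G / 2 * X0) ≤ G * (288 * P * (n + l * Cn0)) * ((C * (5 * n ^ 2)) ^ P⁻¹ * (4 * C) ^ β)) :
    X0 ≤ 3456 * P ^ 2 * (5 * C) * n ^ (2 * P⁻¹) := by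
  have h6P : Real.sqrt (6 * P) ≤ 2 * P := by
    rw [Real.sqrt_le_left (by linarith)]
    nlinarith
  have hk1 : n + l * Cn0 ≤ 6 * P * n := by
    have a1 : Cn0 ≤ 2 * P * s := hCn.trans (mul_le_mul_of_nonneg_right h6P (by linarith))
    have a2 : l * Cn0 ≤ l * (2 * P * s) := mul_le_mul_of_nonneg_left a1 hl0
    have a3 : l * (2 * P * s) ≤ 2 * s * (2 * P * s) :=
      mul_le_mul_of_nonneg_right hl (by positivity)
    have a4 : 2 * s * (2 * P * s) = 4 * P * n := by rw [← hss]; ring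
    nlinarith
  have hk2 : (C * (5 * n ^ 2)) ^ P⁻¹ * (4 * C) ^ β ≤ 5 * C * n ^ (2 * P⁻¹) := by
    have a1 : (C * (5 * n ^ 2)) ^ P⁻¹ = (5 * C) ^ P⁻¹ * n ^ (2 * P⁻¹) := by
      rw [show C * (5 * n ^ 2) = (5 * C) * n ^ 2 by ring,
        Real.mul_rpow (by positivity) (by positivity)]
      congr 1
      rw [← Real.rpow_natCast, ← Real.rpow_mul (by linarith)]
      norm_num
    have a2 : (4 * C) ^ β ≤ (5 * C) ^ β :=
      Real.rpow_le_rpow (by positivity) (by linarith) hβ0.le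
    rw [a1]
    calc (5 * C) ^ P⁻¹ * n ^ (2 * P⁻¹) * (4 * C) ^ β
        ≤ (5 * C) ^ P⁻¹ * n ^ (2 * P⁻¹) * (5 * C) ^ β :=
          mul_le_mul_of_nonneg_left a2 (by positivity)
      _ = ((5 * C) ^ P⁻¹ * (5 * C) ^ β) * n ^ (2 * P⁻¹) := by ring
      _ = _ := by rw [← Real.rpow_add (by positivity), hβ, Real.rpow_one]
  have h2 : n * (G / 2 * X0) ≤ G * (288 * P * (6 * P * n)) * (5 * C * n ^ (2 * P⁻¹)) := by
    refine h1.trans ?_
    refine mul_le_mul ?_ hk2 (by positivity) (by positivity)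
    refine mul_le_mul_of_nonneg_left ?_ hG.le
    exact mul_le_mul_of_nonneg_left hk1 (by positivity)
  have h3 : (G * n / 2) * X0 ≤ (G * n / 2) * (3456 * P ^ 2 * (5 * C) * n ^ (2 * P⁻¹)) := by
    refine le_trans (le_of_eq (by ring)) (h2.trans (le_of_eq ?_))
    ring
  exact le_of_mul_le_mul_left h3 (by positivity)

/-- lower bound of the antipodal sum -/
theorem far_sum {n : ℕ} (l : ℕ) [NeZero l] {F : (Fin n → ZMod (4 * l)) → SchattenClass 1 H}
    {B : ℝ} (hB : 0 ≤ B)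
    (hlow : ∀ (x : Fin n → ZMod (4 * l)) (j : Fin n), (l : ℝ) ≤ ad l (x j) →
      B ≤ ‖F (x + (2 * l) • ev l n j) - F x‖) :
    n * ((Fintype.card (Fin n → ZMod (4 * l)) : ℝ) / 2 * B) ≤
      ∑ x, ∑ j, ‖F (x + (2 * l) • ev l n j) - F x‖ := by
  have h0 : ∀ (x : Fin n → ZMod (4 * l)) (j : Fin n),
      (if (l : ℝ) ≤ ad l (x j) then (1 : ℝ) else 0) * B ≤
      ‖F (x + (2 * l) • ev l n j) - F x‖ := by
    intro x j
    split_ifs with h
    · rw [one_mul]; exact hlow x j h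
    · rw [zero_mul]; exact norm_nonneg _
  refine le_trans ?_ (Finset.sum_le_sum fun x _ => Finset.sum_le_sum fun j _ => h0 x j)
  rw [Finset.sum_comm]
  simp only [← Finset.sum_mul]
  rw [← mul_assoc]
  refine mul_le_mul_of_nonneg_right ?_ hB
  have h1 : ∀ j ∈ (Finset.univ : Finset (Fin n)), (Fintype.card (Fin n → ZMod (4 * l)) : ℝ) / 2 ≤
      ∑ x : Fin n → ZMod (4 * l), (if (l : ℝ) ≤ ad l (x j) then (1 : ℝ) else 0) := by
    intro j _
    have := good_count l j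
    linarith
  have h2 := Finset.card_nsmul_le_sum _ _ _ h1
  rw [Finset.card_univ, Fintype.card_fin, nsmul_eq_mul] at h2
  exact h2

/-- The key estimate for one family of vectors. -/
theorem poly_key {g : X → SchattenClass 1 H} {C c θ : ℝ} (hC : 1 ≤ C) (hc : 0 < c) (hθ : 0 < θ)
    (hlow : ∀ x y, 1 ≤ ‖x - y‖ → c * ‖x - y‖ ^ θ ≤ ‖g x - g y‖)
    (hupp : ∀ x y, ‖g x - g y‖ ≤ C * (1 + ‖x - y‖))
    {q q' : ℝ} (hq' : 2 < q') (hqq : q' < q) (r : ℕ) {n : ℕ} (hn : 1 ≤ n) (y : Fin n → X)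
    (hy : ∀ j, 1 / 2 < ‖y j‖ ∧ ‖y j‖ ≤ 1) (hr : rav q y ≤ (n : ℝ) ^ (q / q'))
    (hbig : 4 ≤ (n : ℝ) ^ (1 / 2 - 1 / q')) :
    c * ((n : ℝ) ^ (1 / 2 - 1 / q') / 4) ^ θ ≤
      3456 * ((2 ^ (r + 1) : ℕ) : ℝ) ^ 2 * (5 * C) * (n : ℝ) ^ (2 * (((2 ^ (r + 1) : ℕ) : ℝ))⁻¹) := by
  have hn0 : (1 : ℝ) ≤ n := by exact_mod_cast hn
  obtain ⟨s, hs⟩ : ∃ s, s = Real.sqrt n := ⟨_, rfl⟩
  have hs1 : 1 ≤ s := by rw [hs]; exact Real.one_le_sqrt.2 hn0
  have hss : s * s = n := by rw [hs]; exact Real.mul_self_sqrt (by linarith)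
  obtain ⟨l, hl⟩ : ∃ l, l = ⌈s⌉₊ := ⟨_, rfl⟩
  have hl1 : s ≤ l := by rw [hl]; exact Nat.le_ceil s
  have hl2 : (l : ℝ) ≤ 2 * s := by
    have := Nat.ceil_lt_add_one (a := s) (by linarith)
    rw [hl]
    linarith
  have hlpos : 0 < l := by
    have : (0 : ℝ) < l := by linarith
    exact_mod_cast this
  have : NeZero l := ⟨hlpos.ne'⟩
  obtain ⟨t, ht⟩ : ∃ t : ℝ, t = (n : ℝ) ^ (-(1 / q')) := ⟨_, rfl⟩
  have ht0 : 0 < t := by rw [ht]; positivity
  have hq'0 : 0 < q' := by linarith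
  have ht1 : t ≤ 1 := by
    rw [ht]
    exact Real.rpow_le_one_of_one_le_of_nonpos hn0 (by
      have : 0 < 1 / q' := by positivity
      linarith)
  obtain ⟨F, hF⟩ : ∃ F : (Fin n → ZMod (4 * l)) → SchattenClass 1 H, F = fun x => g (t • psi l y x) :=
    ⟨_, rfl⟩
  have hFd : ∀ x x', ‖F x - F x'‖ ≤ C * (1 + t * ‖psi l y x - psi l y x'‖) := by
    intro x x'
    rw [hF]
    refine (hupp _ _).trans (le_of_eq ?_)
    rw [← smul_sub, norm_smul, Real.norm_of_nonneg ht0.le]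
  have havg := avg_t hq' hqq hn0 l y hr
  rw [← ht] at havg
  obtain ⟨hb0, hb1⟩ := local_avgs l (fun j => (hy j).2) (by linarith) ht0.le ht1 hFd havg
  have hM : ∑ x, ‖F x - F 0‖ ≤ (Fintype.card (Fin n → ZMod (4 * l)) : ℝ) * (C * (5 * (n : ℝ) ^ 2)) := by
    have hMx : ∀ x, ‖F x - F 0‖ ≤ C * (5 * (n : ℝ) ^ 2) := by
      intro x
      refine (hFd x 0).trans (mul_le_mul_of_nonneg_left ?_ (by linarith))
      have h1 := psi_diam l y (fun j => (hy j).2) x 0
      have h2 : t * ‖psi l y x - psi l y 0‖ ≤ 1 * (2 * l * n) :=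
        mul_le_mul ht1 h1 (norm_nonneg _) zero_le_one
      have h3 : s ≤ n := by nlinarith
      have h4 : (2 : ℝ) * l * n ≤ 4 * n * n := by nlinarith
      nlinarith
    refine (Finset.sum_le_card_nsmul _ _ _ fun x _ => hMx x).trans_eq ?_
    rw [Finset.card_univ, nsmul_eq_mul]
  have hT := torus (e := ev l n) r l F (M := C * (5 * (n : ℝ) ^ 2)) (b := 4 * C) (by positivity)
    (by linarith) hM hb0 hb1
  rw [Fintype.card_fin] at hT
  have htl : (n : ℝ) ^ (1 / 2 - 1 / q') / 4 ≤ t * l / 4 := by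
    have h1 : (n : ℝ) ^ (1 / 2 - 1 / q') = t * s := by
      rw [ht, hs, Real.sqrt_eq_rpow, ← Real.rpow_add (by linarith)]
      congr 1; ring
    rw [h1]
    have := mul_le_mul_of_nonneg_left hl1 ht0.le
    linarith
  have hL := far_sum l (F := F) (B := c * ((n : ℝ) ^ (1 / 2 - 1 / q') / 4) ^ θ) (by positivity)
    (by
      intro x j h
      have h1 : ‖t • psi l y (x + (2 * l) • ev l n j) - t • psi l y x‖ = t * (ad l (x j) * ‖y j‖) := by
        rw [← smul_sub, norm_smul, Real.norm_of_nonneg ht0.le, psi_far]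
      have h2 : t * l / 2 ≤ t * (ad l (x j) * ‖y j‖) := by
        have : (l : ℝ) * (1 / 2) ≤ ad l (x j) * ‖y j‖ :=
          mul_le_mul h (hy j).1.le (by norm_num) (by linarith [Nat.cast_nonneg (α := ℝ) l])
        have := mul_le_mul_of_nonneg_left this ht0.le
        linarith
      have h3 : (n : ℝ) ^ (1 / 2 - 1 / q') / 4 ≤ t * (ad l (x j) * ‖y j‖) := by
        have : 0 ≤ t * l / 4 := by positivity
        linarith
      have h4 : 1 ≤ ‖t • psi l y (x + (2 * l) • ev l n j) - t • psi l y x‖ := by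
        rw [h1]; linarith
      rw [hF]
      refine le_trans ?_ (hlow _ _ h4)
      rw [h1]
      exact mul_le_mul_of_nonneg_left (Real.rpow_le_rpow (by positivity) h3 hθ.le) hc.le)
  have hGpos : 0 < (Fintype.card (Fin n → ZMod (4 * l)) : ℝ) := by
    have : 0 < Fintype.card (Fin n → ZMod (4 * l)) := Fintype.card_pos
    exact_mod_cast this
  have hP2 : (2 : ℝ) ≤ ((2 ^ (r + 1) : ℕ) : ℝ) := by exact_mod_cast two_le_P r
  have hCn := Cn_le r n
  rw [← hs] at hCn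
  exact poly_num hC hP2 hGpos hn0 hl2 (Nat.cast_nonneg l) hss hs1
    (by unfold be; ring) (be_pos r) hCn (hL.trans hT)

/-- A map into the trace class which is Lipschitz in the large and has polynomial compression
forces cotype `q` for all `q > 2`. -/
theorem poly_compression {g : X → SchattenClass 1 H} {C c θ : ℝ} (hC : 0 < C) (hc : 0 < c)
    (hθ : 0 < θ) (hg : ∀ x y, 1 ≤ ‖x - y‖ →
      c * ‖x - y‖ ^ θ ≤ ‖g x - g y‖ ∧ ‖g x - g y‖ ≤ C * ‖x - y‖)
    {q : ℝ} (hq : 2 < q) : HasCotype q X := by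
  by_contra hcon
  set q' := (2 + q) / 2 with hq'
  have hq'2 : 2 < q' := by rw [hq']; linarith
  have hqq : q' < q := by rw [hq']; linarith
  set c0 := 1 / 2 - 1 / q' with hc0
  have hc0p : 0 < c0 := by
    rw [hc0]
    have : 1 / q' < 1 / 2 := one_div_lt_one_div_of_lt (by norm_num) hq'2
    linarith
  -- choose r
  obtain ⟨r, hr⟩ : ∃ r : ℕ, 4 / (c0 * θ) < (2 : ℝ) ^ r := pow_unbounded_of_one_lt _ (by norm_num)
  set P := ((2 ^ (r + 1) : ℕ) : ℝ) with hP
  have hPp : 0 < P := by rw [hP]; positivity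
  have hP1 : 2 * P⁻¹ ≤ c0 * θ / 2 := by
    have h1 : 4 / (c0 * θ) < P := by
      rw [hP]; push_cast; rw [pow_succ]
      have : (0 : ℝ) < 2 ^ r := by positivity
      linarith
    rw [div_lt_iff₀ (by positivity)] at h1
    rw [← div_eq_mul_inv, div_le_iff₀ hPp]
    linarith
  -- the constants
  obtain ⟨C', hC'⟩ : ∃ C' : ℝ, C' = 7 * C + 1 := ⟨_, rfl⟩
  have hC'1 : 1 ≤ C' := by rw [hC']; linarith
  obtain ⟨D, hD⟩ : ∃ D : ℝ, D = 3456 * P ^ 2 * (5 * C') / c * 4 ^ θ := ⟨_, rfl⟩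
  have hD0 : 0 < D := by rw [hD]; positivity
  obtain ⟨N1, hN1⟩ := exists_nat_gt (D ^ (2 / (c0 * θ)))
  obtain ⟨N2, hN2⟩ := exists_nat_gt ((4 : ℝ) ^ (1 / c0))
  obtain ⟨n, y, hn, hy, hrav⟩ := extract (X := X) (q := q) (q' := q') (by linarith) hqq (by linarith)
    hcon (N1 + N2 + 1)
  have hn1 : 1 ≤ n := by omega
  have hnN1 : (N1 : ℝ) ≤ n := by exact_mod_cast (by omega : N1 ≤ n)
  have hnN2 : (N2 : ℝ) ≤ n := by exact_mod_cast (by omega : N2 ≤ n)
  have hn0 : (1 : ℝ) ≤ n := by exact_mod_cast hn1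
  -- a unit vector
  have hy0 := hy ⟨0, hn1⟩
  set u := (‖y ⟨0, hn1⟩‖)⁻¹ • y ⟨0, hn1⟩ with hu
  have hu1 : ‖u‖ = 1 := by
    rw [hu, norm_smul, norm_inv, norm_norm, inv_mul_cancel₀]
    linarith [hy0.1]
  have hupp : ∀ a b, ‖g a - g b‖ ≤ C' * (1 + ‖a - b‖) := by
    intro a b
    refine (large_lip hC.le (fun x y h => (hg x y h).2) hu1 a b).trans ?_
    refine mul_le_mul_of_nonneg_right ?_ (by positivity)
    rw [hC']; linarith
  have hbig : 4 ≤ (n : ℝ) ^ c0 := by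
    have h1 : ((4 : ℝ) ^ (1 / c0)) ^ c0 ≤ (n : ℝ) ^ c0 :=
      Real.rpow_le_rpow (by positivity) (hN2.le.trans hnN2) hc0p.le
    rwa [← Real.rpow_mul (by norm_num), one_div, inv_mul_cancel₀ hc0p.ne', Real.rpow_one] at h1
  have key := poly_key (H := H) hC'1 hc hθ (fun x y h => (hg x y h).1) hupp hq'2 hqq r hn1 y hy hrav hbig
  rw [← hP, ← hc0] at key
  rw [Real.div_rpow (by positivity) (by norm_num), ← Real.rpow_mul (by positivity)] at key
  have h1 : (n : ℝ) ^ (2 * P⁻¹) ≤ (n : ℝ) ^ (c0 * θ / 2) := Real.rpow_le_rpow_of_exponent_le hn0 hP1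
  have h2 : (n : ℝ) ^ (c0 * θ) = (n : ℝ) ^ (c0 * θ / 2) * (n : ℝ) ^ (c0 * θ / 2) := by
    rw [← Real.rpow_add (by positivity)]; congr 1; ring
  have h3 : (n : ℝ) ^ (c0 * θ) ≤ D * (n : ℝ) ^ (c0 * θ / 2) := by
    have h4 : c * ((n : ℝ) ^ (c0 * θ) / 4 ^ θ) ≤
        3456 * P ^ 2 * (5 * C') * (n : ℝ) ^ (c0 * θ / 2) :=
      key.trans (mul_le_mul_of_nonneg_left h1 (by positivity))
    have h5 : (n : ℝ) ^ (c0 * θ) = (c * ((n : ℝ) ^ (c0 * θ) / 4 ^ θ)) * (4 ^ θ / c) := by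
      field_simp
    rw [h5, hD]
    calc _ ≤ (3456 * P ^ 2 * (5 * C') * (n : ℝ) ^ (c0 * θ / 2)) * (4 ^ θ / c) :=
          mul_le_mul_of_nonneg_right h4 (by positivity)
      _ = _ := by ring
  rw [h2] at h3
  have h6 : (n : ℝ) ^ (c0 * θ / 2) ≤ D := le_of_mul_le_mul_right h3 (by positivity)
  have h7 : D < (n : ℝ) ^ (c0 * θ / 2) := by
    have h8 : D ^ (2 / (c0 * θ)) < n := hN1.trans_le hnN1
    have h9 := Real.rpow_lt_rpow (by positivity) h8 (show 0 < c0 * θ / 2 by positivity)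
    rw [← Real.rpow_mul hD0.le] at h9
    have e : 2 / (c0 * θ) * (c0 * θ / 2) = 1 := by field_simp
    rwa [e, Real.rpow_one] at h9
  linarith

end TH364.SG
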