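import Mathlib
import Pool.Agent.TH364.SG.AsmAvg
set_option autoImplicit false
set_option linter.unusedSectionVars false

/-! Windows: scales with a large ratio, and the exact resolvent identity. -/

namespace TH364.SG

open Matrix Finset
open scoped ComplexOrder

universe u v
variable {ι : Type u} [Fintype ι] [DecidableEq ι] {J : Type v} [Fintype J] [DecidableEq J]

/-- scales with ratio `ρ` -/
noncomputable def wsc (ρ s0 : ℝ) (i : ℕ) : ℝ := s0 * ρ ^ i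

theorem wsc_pos {ρ s0 : ℝ} (hρ : 0 < ρ) (h : 0 < s0) (i : ℕ) : 0 < wsc ρ s0 i := by
  unfold wsc; positivity

theorem wsc_succ (ρ s0 : ℝ) (i : ℕ) : wsc ρ s0 (i + 1) = ρ * wsc ρ s0 i := by unfold wsc; ring

/-- the telescoping function for windows -/
noncomputable def wtel (ρ θ δ a : ℝ) : ℝ := 2 * min (a / ρ) δ - 2 * (δ * (min 1 (δ / a)) ^ θ)

theorem wtel_step {ρ θ : ℝ} (hρ : 2 ≤ ρ) (hθ : 0 < θ) (hρθ : 2 ≤ ρ ^ θ) {δ a : ℝ} (hδ : 0 ≤ δ)
    (ha : 0 < a) :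
    a * (min 1 (δ / a)) ^ (1 + θ) ≤ wtel ρ θ δ (ρ * a) - wtel ρ θ δ a := by
  have hρ0 : 0 < ρ := by linarith
  have e1 : ρ * a / ρ = a := by field_simp
  have hm : 0 ≤ min 1 (δ / a) := le_min zero_le_one (by positivity)
  have hm' : 0 ≤ min 1 (δ / (ρ * a)) := le_min zero_le_one (by positivity)
  unfold wtel
  rw [e1]
  rcases lt_or_ge a δ with hc | hc
  · have h1 : min 1 (δ / a) = 1 := min_eq_left ((one_le_div ha).2 hc.le)
    have h2 : a / ρ ≤ a / 2 := div_le_div_of_nonneg_left ha.le (by norm_num) hρ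
    have h3 : min (a / ρ) δ ≤ a / 2 := (min_le_left _ _).trans h2
    have h4 : min a δ = a := min_eq_left hc.le
    have h5 : (min 1 (δ / (ρ * a))) ^ θ ≤ 1 := Real.rpow_le_one hm' (min_le_left _ _) hθ.le
    rw [h1, h4, Real.one_rpow, Real.one_rpow]
    nlinarith
  · have h1 : min 1 (δ / a) = δ / a := min_eq_right ((div_le_one ha).2 hc)
    have h4 : min a δ = δ := min_eq_right hc
    have h5 : min (a / ρ) δ ≤ δ := min_le_right _ _
    have h6 : (min 1 (δ / (ρ * a))) ^ θ ≤ (δ / a) ^ θ / 2 := by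
      have h7 : min 1 (δ / (ρ * a)) ≤ (δ / a) * ρ⁻¹ := by
        refine (min_le_right _ _).trans (le_of_eq ?_)
        field_simp
      refine (Real.rpow_le_rpow hm' h7 hθ.le).trans ?_
      rw [Real.mul_rpow (by positivity) (by positivity), Real.inv_rpow hρ0.le]
      have h8 : (ρ ^ θ)⁻¹ ≤ 2⁻¹ := inv_anti₀ (by norm_num) hρθ
      have h9 : 0 ≤ (δ / a) ^ θ := by positivity
      nlinarith
    rw [h1, h4, Real.rpow_add' (by positivity) (by linarith), Real.rpow_one]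
    have h10 : a * (δ / a * (δ / a) ^ θ) = δ * (δ / a) ^ θ := by field_simp
    rw [h10]
    nlinarith [mul_le_mul_of_nonneg_left h6 hδ]

theorem wtel_range {ρ θ : ℝ} (hρ : 2 ≤ ρ) (hθ : 0 < θ) {δ a : ℝ} (hδ : 0 ≤ δ) (ha : 0 < a) :
    -(2 * δ) ≤ wtel ρ θ δ a ∧ wtel ρ θ δ a ≤ 2 * δ := by
  have hm : 0 ≤ min 1 (δ / a) := le_min zero_le_one (by positivity)
  have h1 : (min 1 (δ / a)) ^ θ ≤ 1 := Real.rpow_le_one hm (min_le_left _ _) hθ.le
  have h2 : 0 ≤ (min 1 (δ / a)) ^ θ := Real.rpow_nonneg hm _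
  have h3 : min (a / ρ) δ ≤ δ := min_le_right _ _
  have h4 : 0 ≤ min (a / ρ) δ := le_min (by positivity) hδ
  unfold wtel
  constructor
  · nlinarith
  · nlinarith [mul_nonneg hδ h2]

theorem win_sum {ρ θ : ℝ} (hρ : 2 ≤ ρ) (hθ : 0 < θ) (hρθ : 2 ≤ ρ ^ θ) {s0 : ℝ} (hs : 0 < s0)
    {δ : ℝ} (hδ : 0 ≤ δ) (M : ℕ) :
    ∑ i ∈ Finset.range M, wsc ρ s0 i * (min 1 (δ / wsc ρ s0 i)) ^ (1 + θ) ≤ 4 * δ := by
  have hρ0 : 0 < ρ := by linarith
  have h2 : ∀ i ∈ Finset.range M, wsc ρ s0 i * (min 1 (δ / wsc ρ s0 i)) ^ (1 + θ) ≤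
      wtel ρ θ δ (wsc ρ s0 (i + 1)) - wtel ρ θ δ (wsc ρ s0 i) := by
    intro i _
    rw [wsc_succ]
    exact wtel_step hρ hθ hρθ hδ (wsc_pos hρ0 hs i)
  refine (Finset.sum_le_sum h2).trans ?_
  rw [Finset.sum_range_sub (fun i => wtel ρ θ δ (wsc ρ s0 i))]
  have a1 := (wtel_range hρ hθ hδ (wsc_pos hρ0 hs M)).2
  have a2 := (wtel_range hρ hθ hδ (wsc_pos hρ0 hs 0)).1
  linarith

/-- the window ratio -/
noncomputable def wr (r : ℕ) : ℝ := (2 : ℝ) ^ (2 ^ (r + 1))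

theorem wr_ge (r : ℕ) : 2 ≤ wr r := by
  unfold wr
  calc (2 : ℝ) = 2 ^ 1 := by norm_num
    _ ≤ 2 ^ (2 ^ (r + 1)) := pow_le_pow_right₀ (by norm_num) Nat.one_le_two_pow

theorem wr_pos (r : ℕ) : 0 < wr r := by have := wr_ge r; linarith

theorem wr_root (r : ℕ) : wr r ^ ((((2 ^ (r + 1) : ℕ) : ℝ))⁻¹) = 2 := by
  unfold wr
  rw [← Real.rpow_natCast, ← Real.rpow_mul (by norm_num), mul_inv_cancel₀, Real.rpow_one]
  positivity

theorem wr_th (r : ℕ) : 2 ≤ wr r ^ th r := by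
  have h1 : (((2 ^ (r + 1) : ℕ) : ℝ))⁻¹ ≤ th r := by
    rw [th_eq]
    have h : (2 : ℝ) ≤ ((2 ^ (r + 1) : ℕ) : ℝ) := by exact_mod_cast two_le_P r
    exact inv_anti₀ (by linarith) (by linarith)
  calc (2 : ℝ) = wr r ^ ((((2 ^ (r + 1) : ℕ) : ℝ))⁻¹) := (wr_root r).symm
    _ ≤ wr r ^ th r := Real.rpow_le_rpow_of_exponent_le (by have := wr_ge r; linarith) h1

theorem gG_norm {s : ℝ} (hs : 0 < s) (t : ℝ) : ‖gG s t‖ ≤ min 1 (|t| / s) := by
  unfold gG gT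
  rw [norm_mul, norm_inv, Complex.norm_real, Real.norm_eq_abs]
  have h1 : |t| ≤ ‖(t : ℂ) + s * Complex.I‖ := by
    have := Complex.abs_re_le_norm ((t : ℂ) + s * Complex.I)
    simpa using this
  have h2 : s ≤ ‖(t : ℂ) + s * Complex.I‖ := by
    have := Complex.abs_im_le_norm ((t : ℂ) + s * Complex.I)
    simp only [Complex.add_im, Complex.ofReal_im, Complex.mul_im, Complex.ofReal_re, Complex.I_im,
      mul_one, Complex.I_re, mul_zero, add_zero, zero_add] at this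
    rwa [abs_of_pos hs] at this
  rw [← div_eq_mul_inv]
  refine le_min ?_ ?_
  · exact div_le_one_of_le₀ h1 (norm_nonneg _)
  · exact div_le_div_of_nonneg_left (abs_nonneg _) hs h2

theorem sumG_le (r : ℕ) {ρ : ℝ} (hρ : 2 ≤ ρ) {s0 : ℝ} (hs : 0 < s0) (t : ℝ) (M : ℕ) :
    ∑ i ∈ Finset.range M, wsc ρ s0 i * ‖gG (wsc ρ s0 i) t‖ ^ (2 * 2 ^ r) ≤ 4 * |t| := by
  have h := win_sum hρ one_pos (by rw [Real.rpow_one]; exact hρ) hs (abs_nonneg t) M
  refine le_trans (Finset.sum_le_sum fun i _ => ?_) h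
  have hp := wsc_pos (by linarith : 0 < ρ) hs i
  exact mul_le_mul_of_nonneg_left (pow_min_le (norm_nonneg _) (gG_norm hp t) r) hp.le

/-- bounded transform at scale s -/
noncomputable def MG (S : Sd ι) (s : ℝ) : Matrix ι ι ℂ := S.fc (gG s)

/-- Cayley transform at scale s -/
noncomputable def MU (S : Sd ι) (s : ℝ) : Matrix ι ι ℂ := S.fc (gC s)

theorem MU_unit {s : ℝ} (hs : 0 < s) (S : Sd ι) : (MU S s)ᴴ * MU S s = 1 :=
  S.fc_unit _ (gC_unit hs)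

theorem loc_MG (r : ℕ) {s : ℝ} (hs : 0 < s) (S S' : Sd ι) (Z : Matrix ι ι ℂ) :
    ‖(Z * ((1 / 2 : ℂ) • MG S s - (1 / 2 : ℂ) • MG S' s)).trace‖ ≤
      nm r Z * (en r s (dif S S')) ^ be r := by
  have h := local_G r hs S S' (dif S S') (dif_spec S S') Z
  unfold MG
  rw [← smul_sub, Matrix.mul_smul, Matrix.trace_smul, smul_eq_mul, norm_mul]
  have h5 : ‖(1 / 2 : ℂ)‖ = 1 / 2 := by simp
  rw [h5]
  linarith

theorem pw_MG (r : ℕ) {ρ : ℝ} (hρ : 2 ≤ ρ) {s0 : ℝ} (hs : 0 < s0) (S : Sd ι) (M : ℕ) :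
    ∑ i ∈ Finset.range M, wsc ρ s0 i * pw (2 ^ r) (MG S (wsc ρ s0 i)) ≤ 4 * tn S := by
  unfold MG tn
  simp only [Sd.pw_fc, Finset.mul_sum]
  rw [Finset.sum_comm]
  refine Finset.sum_le_sum fun k _ => ?_
  exact sumG_le r hρ hs (S.ev k) M

theorem en_win (r : ℕ) {s0 : ℝ} (hs : 0 < s0) (S : Sd ι) (M : ℕ) :
    ∑ i ∈ Finset.range M, wsc (wr r) s0 i * en r (wsc (wr r) s0 i) S ≤ 4 * tn S := by
  unfold en tn
  simp only [Finset.mul_sum]
  rw [Finset.sum_comm]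
  refine Finset.sum_le_sum fun k _ => ?_
  have h := win_sum (wr_ge r) (th_pos r) (wr_th r) hs (abs_nonneg (S.ev k)) M
  have e : 1 + th r = (be r)⁻¹ := by unfold th; ring
  rwa [e] at h

/-- the two resolvent functions -/
noncomputable def gR (s t : ℝ) : ℂ := 1 - gG s t

theorem gR_eq {s : ℝ} (hs : 0 < s) (t : ℝ) : gR s t = (s * Complex.I) * gT s t := by
  unfold gR gG
  have h := gT_mul hs t
  linear_combination -h

/-- the multiplier between consecutive windows -/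
noncomputable def gc (ρ s t : ℝ) : ℂ := 1 - (1 - 1 / ρ) * gG s t

theorem gR_step {ρ s : ℝ} (hρ : 0 < ρ) (hs : 0 < s) (t : ℝ) :
    gR s t = gc ρ s t * gR (ρ * s) t := by
  rw [gR_eq hs, gR_eq (by positivity)]
  unfold gc gG
  have h1 := gT_mul hs t
  have h2 := gT_mul (show 0 < ρ * s by positivity) t
  have hρ' : (ρ : ℂ) ≠ 0 := by exact_mod_cast hρ.ne'
  have e : (1 : ℂ) - (1 - 1 / ρ) * (t * gT s t) = (1 / ρ) * (t + ρ * s * Complex.I) * gT s t := by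
    field_simp
    linear_combination (-(ρ : ℂ)) * h1
  rw [e]
  push_cast at h2 ⊢
  have : (1 / (ρ : ℂ)) * (t + ρ * s * Complex.I) * gT s t * ((ρ * s) * Complex.I * gT (ρ * s) t) =
      (gT (ρ * s) t * (t + ρ * s * Complex.I)) * ((1 / ρ) * ρ * (s * Complex.I * gT s t)) := by ring
  rw [this, h2]
  field_simp

/-- the sandwiched difference -/
noncomputable def Xs (S S' : Sd ι) (s : ℝ) : Matrix ι ι ℂ :=
  S.fc (gR s) * (S.mat - S'.mat) * S'.fc (gR s)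

theorem Xs_eq {s : ℝ} (hs : 0 < s) (S S' : Sd ι) :
    Xs S S' s = ((s : ℂ) * Complex.I) • (MG S s - MG S' s) := by
  unfold Xs MG
  rw [gG_sub hs]
  have e : ∀ R : Sd ι, R.fc (gR s) = ((s : ℂ) * Complex.I) • R.fc (gT s) := by
    intro R
    rw [R.fc_smul]
    exact R.fc_congr fun t => gR_eq hs t
  rw [e, e]
  simp only [Matrix.smul_mul, Matrix.mul_smul, smul_smul]

theorem Xs_step {ρ s : ℝ} (hρ : 0 < ρ) (hs : 0 < s) (S S' : Sd ι) :
    Xs S S' (ρ * s) - Xs S S' s = ((1 - 1 / ρ : ℝ) : ℂ) •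
      (MG S s * Xs S S' (ρ * s) + S.fc (gc ρ s) * Xs S S' (ρ * s) * MG S' s) := by
  have e0 : ∀ R : Sd ι, R.fc (gR s) = R.fc (gc ρ s) * R.fc (gR (ρ * s)) := by
    intro R
    rw [R.fc_mul]
    exact R.fc_congr fun t => gR_step hρ hs t
  have e0' : ∀ R : Sd ι, R.fc (gR s) = R.fc (gR (ρ * s)) * R.fc (gc ρ s) := by
    intro R
    rw [R.fc_mul]
    refine R.fc_congr fun t => ?_
    rw [gR_step hρ hs t, mul_comm]
  have e1 : Xs S S' s = S.fc (gc ρ s) * Xs S S' (ρ * s) * S'.fc (gc ρ s) := by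
    unfold Xs
    rw [e0 S, e0' S']
    simp only [Matrix.mul_assoc]
  have e2 : ∀ R : Sd ι, R.fc (gc ρ s) = 1 - ((1 - 1 / ρ : ℝ) : ℂ) • MG R s := by
    intro R
    unfold MG
    rw [← R.fc_one, R.fc_smul, R.fc_sub]
    refine R.fc_congr fun t => ?_
    unfold gc
    push_cast
    ring
  set Y := Xs S S' (ρ * s) with hY
  set c : ℂ := ((1 - 1 / ρ : ℝ) : ℂ) with hc
  rw [e1, e2 S, e2 S']
  simp only [Matrix.sub_mul, Matrix.mul_sub, Matrix.one_mul, Matrix.mul_one, Matrix.smul_mul,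
    Matrix.mul_smul, smul_add, smul_sub, smul_smul]
  abel

theorem gc_eq {ρ s : ℝ} (hs : 0 < s) (t : ℝ) :
    gc ρ s t = ((1 + 1 / ρ) / 2 : ℝ) - ((1 - 1 / ρ) / 2 : ℝ) * gC s t := by
  unfold gc
  rw [gG_eq hs]
  push_cast
  ring

theorem fc_gc {ρ s : ℝ} (hs : 0 < s) (S : Sd ι) : S.fc (gc ρ s) =
    (((1 + 1 / ρ) / 2 : ℝ) : ℂ) • (1 : Matrix ι ι ℂ) - (((1 - 1 / ρ) / 2 : ℝ) : ℂ) • MU S s := by
  unfold MU
  rw [← S.fc_one, S.fc_smul, S.fc_smul, S.fc_sub]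
  refine S.fc_congr fun t => ?_
  rw [gc_eq hs, mul_one]

/-- the error function -/
noncomputable def we (s0 s1 t : ℝ) : ℂ := (s0 * Complex.I) * gG s0 t + t * gG s1 t

theorem we_le {s0 s1 : ℝ} (h0 : 0 < s0) (h1 : 0 < s1) (t : ℝ) : ‖we s0 s1 t‖ ≤ s0 + t ^ 2 / s1 := by
  unfold we
  refine (norm_add_le _ _).trans (add_le_add ?_ ?_)
  · rw [norm_mul, norm_mul, Complex.norm_I, mul_one, Complex.norm_real, Real.norm_of_nonneg h0.le]
    have := (gG_norm h0 t).trans (min_le_left _ _)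
    nlinarith
  · rw [norm_mul, Complex.norm_real, Real.norm_eq_abs]
    have := (gG_norm h1 t).trans (min_le_right _ _)
    calc |t| * ‖gG s1 t‖ ≤ |t| * (|t| / s1) := mul_le_mul_of_nonneg_left this (abs_nonneg _)
      _ = t ^ 2 / s1 := by rw [← sq_abs]; ring

theorem win_scales {ρ : ℝ} (hρ : 2 ≤ ρ) (B : ℝ) {η : ℝ} (hη : 0 < η) :
    ∃ s0 : ℝ, 0 < s0 ∧ ∃ M : ℕ, ∀ t : ℝ, |t| ≤ B → ‖we s0 (wsc ρ s0 M) t‖ ≤ η := by
  refine ⟨η / 2, by positivity, ?_⟩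
  obtain ⟨M, hM⟩ := pow_unbounded_of_one_lt (B ^ 2 / (η / 2) ^ 2) (by linarith : (1 : ℝ) < ρ)
  refine ⟨M, fun t ht => ?_⟩
  have hp := wsc_pos (by linarith : 0 < ρ) (show 0 < η / 2 by positivity) M
  refine (we_le (by positivity) hp t).trans ?_
  have h1 : t ^ 2 / wsc ρ (η / 2) M ≤ η / 2 := by
    rw [div_le_iff₀ hp]
    have h2 : t ^ 2 ≤ B ^ 2 := by
      rw [← sq_abs]
      exact pow_le_pow_left₀ (abs_nonneg _) ht 2
    rw [div_lt_iff₀ (by positivity)] at hM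
    have : η / 2 * wsc ρ (η / 2) M = ρ ^ M * (η / 2) ^ 2 := by unfold wsc; ring
    rw [this]
    linarith
  linarith

theorem we_decomp {ρ : ℝ} (hρ : 0 < ρ) {s0 : ℝ} (hs : 0 < s0) (S S' : Sd ι) (M : ℕ) :
    S.mat - S'.mat = ∑ i ∈ Finset.range M, (Xs S S' (wsc ρ s0 (i + 1)) - Xs S S' (wsc ρ s0 i)) +
      (S.fc (we s0 (wsc ρ s0 M)) - S'.fc (we s0 (wsc ρ s0 M))) := by
  rw [Finset.sum_range_sub (fun i => Xs S S' (wsc ρ s0 i))]
  have h0 : wsc ρ s0 0 = s0 := by unfold wsc; simp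
  have hp := wsc_pos hρ hs M
  set s1 := wsc ρ s0 M with hs1
  rw [h0, Xs_eq hs, Xs_eq hp]
  have e : ∀ R : Sd ι, R.mat = ((s1 : ℂ) * Complex.I) • MG R s1 - ((s0 : ℂ) * Complex.I) • MG R s0 +
      R.fc (we s0 s1) := by
    intro R
    unfold MG Sd.mat
    rw [R.fc_smul, R.fc_smul, R.fc_sub, R.fc_add]
    refine R.fc_congr fun t => ?_
    unfold we
    have h1 := gT_mul hp t
    unfold gG
    linear_combination (-(t : ℂ)) * h1
  nth_rewrite 1 [e S]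
  nth_rewrite 1 [e S']
  simp only [smul_sub]
  abel

end TH364.SG
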