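import Mathlib
import Pool.Agent.TH364.SG.Win
set_option autoImplicit false
set_option linter.unusedSectionVars false

/-! The averaged metric inequality for the trace norm, without loss. -/

namespace TH364.SG

open Matrix Finset
open scoped ComplexOrder

universe u v
variable {ι : Type u} [Fintype ι] [DecidableEq ι] {J : Type v} [Fintype J] [DecidableEq J]

/-- the contribution of one window -/
theorem win_trace {ρ s : ℝ} (hρ : 2 ≤ ρ) (hs : 0 < s) (S S' : Sd ι) (W : Matrix ι ι ℂ) :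
    (W * (Xs S S' (ρ * s) - Xs S S' s)).trace =
      ((2 * (1 - 1 / ρ) : ℝ) : ℂ) * Complex.I * (((ρ * s : ℝ) : ℂ) *
        (W * MG S s * ((1 / 2 : ℂ) • MG S (ρ * s) - (1 / 2 : ℂ) • MG S' (ρ * s))).trace) +
      ((2 * (1 - 1 / ρ) * ((1 + 1 / ρ) / 2) : ℝ) : ℂ) * Complex.I * (((ρ * s : ℝ) : ℂ) *
        (MG S' s * W * ((1 / 2 : ℂ) • MG S (ρ * s) - (1 / 2 : ℂ) • MG S' (ρ * s))).trace) +
      ((-(2 * (1 - 1 / ρ) * ((1 - 1 / ρ) / 2)) : ℝ) : ℂ) * Complex.I * (((ρ * s : ℝ) : ℂ) *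
        (MG S' s * W * MU S s * ((1 / 2 : ℂ) • MG S (ρ * s) - (1 / 2 : ℂ) • MG S' (ρ * s))).trace) := by
  have hρ0 : 0 < ρ := by linarith
  rw [Xs_step hρ0 hs, Xs_eq (show 0 < ρ * s by positivity), fc_gc hs]
  set D := MG S (ρ * s) - MG S' (ρ * s) with hD
  have e1 : ((1 / 2 : ℂ) • MG S (ρ * s) - (1 / 2 : ℂ) • MG S' (ρ * s)) = (1 / 2 : ℂ) • D := by
    rw [hD, smul_sub]
  rw [e1]
  have t1 : (W * (S.fc (gG s) * D)).trace = (W * MG S s * D).trace := by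
    rw [← Matrix.mul_assoc]; rfl
  have t2 : (W * (D * MG S' s)).trace = (MG S' s * W * D).trace := by
    rw [← Matrix.mul_assoc, Matrix.trace_mul_comm, ← Matrix.mul_assoc]
  have t3 : (W * (MU S s * D * MG S' s)).trace = (MG S' s * W * MU S s * D).trace := by
    rw [← Matrix.mul_assoc, Matrix.trace_mul_comm, ← Matrix.mul_assoc, ← Matrix.mul_assoc]
  simp only [Matrix.mul_smul, Matrix.smul_mul, Matrix.mul_add, Matrix.sub_mul,
    Matrix.mul_sub, Matrix.one_mul, Matrix.trace_smul, Matrix.trace_add, Matrix.trace_sub,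
    smul_eq_mul, smul_sub, smul_add]
  have t1' : (W * (MG S s * D)).trace = (W * MG S s * D).trace := by rw [← Matrix.mul_assoc]
  rw [t1', t2, t3]
  push_cast
  ring

theorem norm_three {ρ : ℝ} (hρ : 2 ≤ ρ) {c1 c2 c3 z1 z2 z3 : ℂ} {B : ℝ}
    (hc1 : c1 = ((2 * (1 - 1 / ρ) : ℝ) : ℂ) * Complex.I)
    (hc2 : c2 = ((2 * (1 - 1 / ρ) * ((1 + 1 / ρ) / 2) : ℝ) : ℂ) * Complex.I)
    (hc3 : c3 = ((-(2 * (1 - 1 / ρ) * ((1 - 1 / ρ) / 2)) : ℝ) : ℂ) * Complex.I)
    (m1 : ‖z1‖ ≤ B) (m2 : ‖z2‖ ≤ B) (m3 : ‖z3‖ ≤ B) : ‖c1 * z1 + c2 * z2 + c3 * z3‖ ≤ 4 * B := by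
  have hρ0 : 0 < ρ := by linarith
  have hi : 1 / ρ ≤ 1 := by rw [div_le_one hρ0]; linarith
  have hi0 : 0 < 1 / ρ := by positivity
  have hB0 : 0 ≤ B := (norm_nonneg _).trans m1
  have nc1 : ‖c1‖ ≤ 2 := by
    rw [hc1, norm_mul, Complex.norm_I, mul_one, Complex.norm_real, Real.norm_eq_abs,
      abs_of_nonneg (by nlinarith)]
    linarith
  have nc2 : ‖c2‖ ≤ 2 * ((1 + 1 / ρ) / 2) := by
    rw [hc2, norm_mul, Complex.norm_I, mul_one, Complex.norm_real, Real.norm_eq_abs,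
      abs_of_nonneg (by nlinarith)]
    nlinarith
  have nc3 : ‖c3‖ ≤ 2 * ((1 - 1 / ρ) / 2) := by
    rw [hc3, norm_mul, Complex.norm_I, mul_one, Complex.norm_real, Real.norm_eq_abs, abs_neg,
      abs_of_nonneg (by nlinarith)]
    nlinarith
  have q1 : ‖c1 * z1‖ ≤ 2 * B := by
    rw [norm_mul]
    exact mul_le_mul nc1 m1 (norm_nonneg _) (by norm_num)
  have q2 : ‖c2 * z2‖ ≤ 2 * ((1 + 1 / ρ) / 2) * B := by
    rw [norm_mul]
    exact mul_le_mul nc2 m2 (norm_nonneg _) (by positivity)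
  have q3 : ‖c3 * z3‖ ≤ 2 * ((1 - 1 / ρ) / 2) * B := by
    rw [norm_mul]
    exact mul_le_mul nc3 m3 (norm_nonneg _) (by linarith)
  refine (norm_add_le _ _).trans ((add_le_add ((norm_add_le _ _).trans (add_le_add q1 q2)) q3).trans ?_)
  exact le_of_eq (by ring)

variable {Γ : Type*} [AddCommGroup Γ] [Fintype Γ] {e : J → Γ}

theorem asm2_err (r l : ℕ) (S : Γ → Sd ι) {a b : ℝ} (a0 : 0 ≤ a) (b0 : 0 ≤ b)
    (ha : ∑ x, tn (S x) ≤ (Fintype.card Γ : ℝ) * a)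
    (hb0 : ∑ x, ∑ ε : J → Bool, tn (dif (S (x + sft e ε)) (S x)) ≤
      (Fintype.card Γ : ℝ) * 2 ^ (Fintype.card J) * b)
    (hb1 : ∑ x, ∑ j, ∑ ε : J → Bool, tn (dif (S (x + sfj e j ε)) (S x)) ≤
      (Fintype.card Γ : ℝ) * Fintype.card J * 2 ^ (Fintype.card J) * b)
    (hb2 : ∑ x, ∑ j, ∑ ε : J → Bool, tn (dif (S (x + (2 * l) • e j))
      (S (x + (2 * l) • e j + sfj e j ε))) ≤
      (Fintype.card Γ : ℝ) * Fintype.card J * 2 ^ (Fintype.card J) * b)
    {η : ℝ} (hη : 0 < η) :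
    ∑ x, ∑ j, tn (dif (S (x + (2 * l) • e j)) (S x)) ≤
      (Fintype.card Γ : ℝ) * (4 * (2 * Fintype.card J + 2 * l * Cn r (Fintype.card J))) *
      ((4 * wr r * a) ^ ((((2 ^ (r + 1) : ℕ) : ℝ))⁻¹) * (4 * b) ^ be r) +
      (Fintype.card Γ : ℝ) * (Fintype.card J * (2 * (Fintype.card ι * η))) := by
  have hρ := wr_ge r
  have hρ0 := wr_pos r
  obtain ⟨s0, hs, M, hM⟩ := win_scales hρ (∑ x, tn (S x)) hη
  set ρ := wr r with hρd
  have hρs : 0 < ρ * s0 := by positivity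
  set W : J → Γ → Matrix ι ι ℂ := fun j x => (dif (S (x + (2 * l) • e j)) (S x)).fc gs with hW
  have hWu : ∀ j x, (W j x)ᴴ * W j x = 1 := fun j x => sign_unit _
  set κ := 4 * b with hκ
  have κ0 : 0 ≤ κ := by positivity
  set h := 4 * ρ * a with hh
  have h0 : 0 ≤ h := by positivity
  have hws : ∀ i, wsc ρ (ρ * s0) i = ρ * wsc ρ s0 i := by
    intro i; unfold wsc; ring
  have hwp : ∀ i, 0 < wsc ρ s0 i := fun i => wsc_pos hρ0 hs i
  have hκs : ∀ T : Sd ι, ∑ i ∈ Finset.range M, (ρ * wsc ρ s0 i) * en r (ρ * wsc ρ s0 i) T ≤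
      4 * tn T := by
    intro T
    have := en_win r hρs T M
    rw [← hρd] at this
    simpa only [hws] using this
  have k0 : ∑ x, ∑ ε : J → Bool, ∑ i ∈ Finset.range M,
      (ρ * wsc ρ s0 i) * en r (ρ * wsc ρ s0 i) (dif (S (x + sft e ε)) (S x)) ≤
      (Fintype.card Γ : ℝ) * 2 ^ (Fintype.card J) * κ := by
    refine (Finset.sum_le_sum fun x _ => Finset.sum_le_sum fun ε _ => hκs _).trans ?_
    simp only [← Finset.mul_sum]
    refine (mul_le_mul_of_nonneg_left hb0 (by norm_num : (0 : ℝ) ≤ 4)).trans_eq ?_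
    rw [hκ]; ring
  have k1 : ∑ x, ∑ j, ∑ ε : J → Bool, ∑ i ∈ Finset.range M,
      (ρ * wsc ρ s0 i) * en r (ρ * wsc ρ s0 i) (dif (S (x + sfj e j ε)) (S x)) ≤
      (Fintype.card Γ : ℝ) * Fintype.card J * 2 ^ (Fintype.card J) * κ := by
    refine (Finset.sum_le_sum fun x _ => Finset.sum_le_sum fun j _ =>
      Finset.sum_le_sum fun ε _ => hκs _).trans ?_
    simp only [← Finset.mul_sum]
    refine (mul_le_mul_of_nonneg_left hb1 (by norm_num : (0 : ℝ) ≤ 4)).trans_eq ?_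
    rw [hκ]; ring
  have k2 : ∑ x, ∑ j, ∑ ε : J → Bool, ∑ i ∈ Finset.range M,
      (ρ * wsc ρ s0 i) * en r (ρ * wsc ρ s0 i)
        (dif (S (x + (2 * l) • e j)) (S (x + (2 * l) • e j + sfj e j ε))) ≤
      (Fintype.card Γ : ℝ) * Fintype.card J * 2 ^ (Fintype.card J) * κ := by
    refine (Finset.sum_le_sum fun x _ => Finset.sum_le_sum fun j _ =>
      Finset.sum_le_sum fun ε _ => hκs _).trans ?_
    simp only [← Finset.mul_sum]
    refine (mul_le_mul_of_nonneg_left hb2 (by norm_num : (0 : ℝ) ≤ 4)).trans_eq ?_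
    rw [hκ]; ring
  have pwb : ∀ T : Sd ι, ∑ i ∈ Finset.range M, (ρ * wsc ρ s0 i) * pw (2 ^ r) (MG T (wsc ρ s0 i)) ≤
      4 * ρ * tn T := by
    intro T
    have h1 := pw_MG r hρ hs T M
    have h2 := mul_le_mul_of_nonneg_left h1 hρ0.le
    rw [Finset.mul_sum] at h2
    simp only [← mul_assoc] at h2
    linarith
  have tot : ∑ x, ∑ j : J, 4 * ρ * tn (S x) ≤ (Fintype.card Γ : ℝ) * Fintype.card J * h := by
    simp only [Finset.sum_const, Finset.card_univ, nsmul_eq_mul, ← Finset.mul_sum]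
    have := mul_le_mul_of_nonneg_left ha (show (0 : ℝ) ≤ Fintype.card J * (4 * ρ) by positivity)
    calc _ = (Fintype.card J : ℝ) * (4 * ρ) * ∑ x, tn (S x) := by ring
      _ ≤ _ := this
      _ = _ := by rw [hh]; ring
  have tot' : ∑ x, ∑ j, 4 * ρ * tn (S (x + (2 * l) • e j)) ≤
      (Fintype.card Γ : ℝ) * Fintype.card J * h := by
    refine le_trans (le_of_eq ?_) tot
    rw [Finset.sum_comm]
    rw [Finset.sum_comm (s := (Finset.univ : Finset Γ))]
    refine Finset.sum_congr rfl fun j _ => ?_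
    exact Equiv.sum_comp (Equiv.addRight ((2 * l) • e j)) (fun x => 4 * ρ * tn (S x))
  have swp : ∀ f : ℕ → Γ → J → ℝ, ∑ i ∈ Finset.range M, ∑ x, ∑ j, f i x j =
      ∑ x, ∑ j, ∑ i ∈ Finset.range M, f i x j := by
    intro f
    rw [Finset.sum_comm]
    refine Finset.sum_congr rfl fun x _ => ?_
    rw [Finset.sum_comm]
  have hρw : ∀ i, 0 < ρ * wsc ρ s0 i := fun i => mul_pos hρ0 (hwp i)
  -- three applications
  have m1 := mc_avg (r := r) (M := M) (e := e) (w := fun i => ρ * wsc ρ s0 i)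
    (fun i => (hρw i).le)
    (H := fun i j x => W j x * MG (S (x + (2 * l) • e j)) (wsc ρ s0 i))
    (V := fun i x => (1 / 2 : ℂ) • MG (S x) (ρ * wsc ρ s0 i))
    (E := fun i x y => en r (ρ * wsc ρ s0 i) (dif (S x) (S y)))
    (fun i x y => en_nonneg r (hρw i) _)
    (fun i Z x y => loc_MG r (hρw i) _ _ _)
    (h := h) (κ := κ) h0 κ0
    (by
      rw [swp]
      refine (Finset.sum_le_sum fun x _ => Finset.sum_le_sum fun j _ => ?_).trans tot'
      simp only [pw_unit_mul _ (hWu j x)]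
      exact pwb _) l k0 k1 k2
  have m2 := mc_avg (r := r) (M := M) (e := e) (w := fun i => ρ * wsc ρ s0 i)
    (fun i => (hρw i).le)
    (H := fun i j x => MG (S x) (wsc ρ s0 i) * W j x)
    (V := fun i x => (1 / 2 : ℂ) • MG (S x) (ρ * wsc ρ s0 i))
    (E := fun i x y => en r (ρ * wsc ρ s0 i) (dif (S x) (S y)))
    (fun i x y => en_nonneg r (hρw i) _)
    (fun i Z x y => loc_MG r (hρw i) _ _ _)
    (h := h) (κ := κ) h0 κ0
    (by
      rw [swp]
      refine (Finset.sum_le_sum fun x _ => Finset.sum_le_sum fun j _ => ?_).trans tot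
      simp only [pw_mul_unit _ (mul_eq_one_comm.1 (hWu j x))]
      exact pwb _) l k0 k1 k2
  have m3 := mc_avg (r := r) (M := M) (e := e) (w := fun i => ρ * wsc ρ s0 i)
    (fun i => (hρw i).le)
    (H := fun i j x => MG (S x) (wsc ρ s0 i) * W j x * MU (S (x + (2 * l) • e j)) (wsc ρ s0 i))
    (V := fun i x => (1 / 2 : ℂ) • MG (S x) (ρ * wsc ρ s0 i))
    (E := fun i x y => en r (ρ * wsc ρ s0 i) (dif (S x) (S y)))
    (fun i x y => en_nonneg r (hρw i) _)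
    (fun i Z x y => loc_MG r (hρw i) _ _ _)
    (h := h) (κ := κ) h0 κ0
    (by
      rw [swp]
      refine (Finset.sum_le_sum fun x _ => Finset.sum_le_sum fun j _ => ?_).trans tot
      have hU : ∀ i, MU (S (x + (2 * l) • e j)) (wsc ρ s0 i) *
          (MU (S (x + (2 * l) • e j)) (wsc ρ s0 i))ᴴ = 1 :=
        fun i => mul_eq_one_comm.1 (MU_unit (hwp i) _)
      have : ∀ i, pw (2 ^ r) (MG (S x) (wsc ρ s0 i) * W j x *
          MU (S (x + (2 * l) • e j)) (wsc ρ s0 i)) = pw (2 ^ r) (MG (S x) (wsc ρ s0 i)) := by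
        intro i
        rw [pw_mul_unit _ (hU i), pw_mul_unit _ (mul_eq_one_comm.1 (hWu j x))]
      simp only [this]
      exact pwb _) l k0 k1 k2
  set c1 : ℂ := ((2 * (1 - 1 / ρ) : ℝ) : ℂ) * Complex.I with hc1
  set c2 : ℂ := ((2 * (1 - 1 / ρ) * ((1 + 1 / ρ) / 2) : ℝ) : ℂ) * Complex.I with hc2
  set c3 : ℂ := ((-(2 * (1 - 1 / ρ) * ((1 - 1 / ρ) / 2)) : ℝ) : ℂ) * Complex.I with hc3
  -- pointwise identity
  have id1 : ∀ x j, ((tn (dif (S (x + (2 * l) • e j)) (S x)) : ℝ) : ℂ) =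
      c1 * (∑ i ∈ Finset.range M, ((ρ * wsc ρ s0 i : ℝ) : ℂ) *
        (W j x * MG (S (x + (2 * l) • e j)) (wsc ρ s0 i) *
          ((1 / 2 : ℂ) • MG (S (x + (2 * l) • e j)) (ρ * wsc ρ s0 i) -
            (1 / 2 : ℂ) • MG (S x) (ρ * wsc ρ s0 i))).trace) +
      c2 * (∑ i ∈ Finset.range M, ((ρ * wsc ρ s0 i : ℝ) : ℂ) *
        (MG (S x) (wsc ρ s0 i) * W j x *
          ((1 / 2 : ℂ) • MG (S (x + (2 * l) • e j)) (ρ * wsc ρ s0 i) -
            (1 / 2 : ℂ) • MG (S x) (ρ * wsc ρ s0 i))).trace) +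
      c3 * (∑ i ∈ Finset.range M, ((ρ * wsc ρ s0 i : ℝ) : ℂ) *
        (MG (S x) (wsc ρ s0 i) * W j x * MU (S (x + (2 * l) • e j)) (wsc ρ s0 i) *
          ((1 / 2 : ℂ) • MG (S (x + (2 * l) • e j)) (ρ * wsc ρ s0 i) -
            (1 / 2 : ℂ) • MG (S x) (ρ * wsc ρ s0 i))).trace) +
      ((W j x * (S (x + (2 * l) • e j)).fc (we s0 (wsc ρ s0 M))).trace -
        (W j x * (S x).fc (we s0 (wsc ρ s0 M))).trace) := by
    intro x j
    rw [← tn_eq, dif_spec]
    change (W j x * ((S (x + (2 * l) • e j)).mat - (S x).mat)).trace = _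
    rw [we_decomp hρ0 hs _ _ M, Matrix.mul_add, Matrix.trace_add, Matrix.mul_sub, Matrix.trace_sub]
    congr 1
    rw [Matrix.mul_sum, Matrix.trace_sum, Finset.mul_sum, Finset.mul_sum, Finset.mul_sum,
      ← Finset.sum_add_distrib, ← Finset.sum_add_distrib]
    refine Finset.sum_congr rfl fun i _ => ?_
    rw [wsc_succ, win_trace hρ (hwp i)]
  have id2 : ((∑ x, ∑ j, tn (dif (S (x + (2 * l) • e j)) (S x)) : ℝ) : ℂ) =
      c1 * (∑ i ∈ Finset.range M, ((ρ * wsc ρ s0 i : ℝ) : ℂ) * ∑ x, ∑ j,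
        (W j x * MG (S (x + (2 * l) • e j)) (wsc ρ s0 i) *
          ((1 / 2 : ℂ) • MG (S (x + (2 * l) • e j)) (ρ * wsc ρ s0 i) -
            (1 / 2 : ℂ) • MG (S x) (ρ * wsc ρ s0 i))).trace) +
      c2 * (∑ i ∈ Finset.range M, ((ρ * wsc ρ s0 i : ℝ) : ℂ) * ∑ x, ∑ j,
        (MG (S x) (wsc ρ s0 i) * W j x *
          ((1 / 2 : ℂ) • MG (S (x + (2 * l) • e j)) (ρ * wsc ρ s0 i) -
            (1 / 2 : ℂ) • MG (S x) (ρ * wsc ρ s0 i))).trace) +
      c3 * (∑ i ∈ Finset.range M, ((ρ * wsc ρ s0 i : ℝ) : ℂ) * ∑ x, ∑ j,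
        (MG (S x) (wsc ρ s0 i) * W j x * MU (S (x + (2 * l) • e j)) (wsc ρ s0 i) *
          ((1 / 2 : ℂ) • MG (S (x + (2 * l) • e j)) (ρ * wsc ρ s0 i) -
            (1 / 2 : ℂ) • MG (S x) (ρ * wsc ρ s0 i))).trace) +
      ∑ x, ∑ j, ((W j x * (S (x + (2 * l) • e j)).fc (we s0 (wsc ρ s0 M))).trace -
        (W j x * (S x).fc (we s0 (wsc ρ s0 M))).trace) := by
    rw [← swap, ← swap, ← swap, Finset.mul_sum, Finset.mul_sum, Finset.mul_sum,
      ← Finset.sum_add_distrib, ← Finset.sum_add_distrib, ← Finset.sum_add_distrib]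
    rw [Complex.ofReal_sum]
    refine Finset.sum_congr rfl fun x _ => ?_
    rw [Complex.ofReal_sum, Finset.mul_sum, Finset.mul_sum, Finset.mul_sum, ← Finset.sum_add_distrib,
      ← Finset.sum_add_distrib, ← Finset.sum_add_distrib]
    exact Finset.sum_congr rfl fun j _ => id1 x j
  have hE : ‖∑ x, ∑ j, ((W j x * (S (x + (2 * l) • e j)).fc (we s0 (wsc ρ s0 M))).trace -
        (W j x * (S x).fc (we s0 (wsc ρ s0 M))).trace)‖ ≤
      (Fintype.card Γ : ℝ) * (Fintype.card J * (2 * (Fintype.card ι * η))) := by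
    have h1 : ∀ (y : Γ) (j : J) (x : Γ), ‖(W j x * (S y).fc (we s0 (wsc ρ s0 M))).trace‖ ≤
        Fintype.card ι * η := by
      intro y j x
      refine (trace_unit_fc (S y) (hWu j x) _).trans ?_
      refine (Finset.sum_le_card_nsmul _ _ η fun k _ => ?_).trans_eq ?_
      · refine hM _ (le_trans ?_ (Finset.single_le_sum (f := fun x => tn (S x))
          (fun x _ => tn_nonneg _) (Finset.mem_univ y)))
        exact Finset.single_le_sum (f := fun k => |(S y).ev k|) (fun _ _ => abs_nonneg _)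
          (Finset.mem_univ k)
      · rw [Finset.card_univ, nsmul_eq_mul]
    refine (norm_sum_le _ _).trans ?_
    refine (Finset.sum_le_card_nsmul _ _ (Fintype.card J * (2 * (Fintype.card ι * η)))
      fun x _ => ?_).trans_eq ?_
    · refine (norm_sum_le _ _).trans ?_
      refine (Finset.sum_le_card_nsmul _ _ (2 * (Fintype.card ι * η)) fun j _ => ?_).trans_eq ?_
      · refine (norm_sub_le _ _).trans ?_
        have := h1 (x + (2 * l) • e j) j x
        have := h1 x j x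
        linarith
      · rw [Finset.card_univ, nsmul_eq_mul]
    · rw [Finset.card_univ, nsmul_eq_mul]
  have hL0 : 0 ≤ ∑ x, ∑ j, tn (dif (S (x + (2 * l) • e j)) (S x)) :=
    Finset.sum_nonneg fun x _ => Finset.sum_nonneg fun j _ => tn_nonneg _
  have hfin := congrArg norm id2
  rw [Complex.norm_real, Real.norm_of_nonneg hL0] at hfin
  rw [hfin]
  refine (norm_add_le _ _).trans (add_le_add ?_ hE)
  refine (norm_three hρ hc1 hc2 hc3 m1 m2 m3).trans ?_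
  unfold Cn be
  exact le_of_eq (by ring)

theorem asm2 (r l : ℕ) (S : Γ → Sd ι) {a b : ℝ} (a0 : 0 ≤ a) (b0 : 0 ≤ b)
    (ha : ∑ x, tn (S x) ≤ (Fintype.card Γ : ℝ) * a)
    (hb0 : ∑ x, ∑ ε : J → Bool, tn (dif (S (x + sft e ε)) (S x)) ≤
      (Fintype.card Γ : ℝ) * 2 ^ (Fintype.card J) * b)
    (hb1 : ∑ x, ∑ j, ∑ ε : J → Bool, tn (dif (S (x + sfj e j ε)) (S x)) ≤
      (Fintype.card Γ : ℝ) * Fintype.card J * 2 ^ (Fintype.card J) * b)
    (hb2 : ∑ x, ∑ j, ∑ ε : J → Bool, tn (dif (S (x + (2 * l) • e j))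
      (S (x + (2 * l) • e j + sfj e j ε))) ≤
      (Fintype.card Γ : ℝ) * Fintype.card J * 2 ^ (Fintype.card J) * b) :
    ∑ x, ∑ j, tn (dif (S (x + (2 * l) • e j)) (S x)) ≤
      (Fintype.card Γ : ℝ) * (64 * (Fintype.card J + l * Cn r (Fintype.card J))) *
      (a ^ ((((2 ^ (r + 1) : ℕ) : ℝ))⁻¹) * b ^ be r) := by
  apply le_of_forall_pos_le_add
  intro δ hδ
  set X := (Fintype.card Γ : ℝ) * (Fintype.card J * (2 * Fintype.card ι)) with hX
  have hX0 : 0 ≤ X := by positivity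
  have h := asm2_err r l S a0 b0 ha hb0 hb1 hb2 (η := δ / (X + 1)) (by positivity)
  refine h.trans (add_le_add (le_of_eq ?_) ?_)
  · set P := ((2 ^ (r + 1) : ℕ) : ℝ) with hP
    have h1 : (4 * wr r * a) ^ P⁻¹ = 4 ^ P⁻¹ * 2 * a ^ P⁻¹ := by
      rw [Real.mul_rpow (by have := wr_pos r; positivity) a0,
        Real.mul_rpow (by norm_num) (wr_pos r).le]
      rw [hP, wr_root]
    have h2 : (4 * b) ^ be r = 4 ^ be r * b ^ be r := Real.mul_rpow (by norm_num) b0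
    have h3 : (4 : ℝ) ^ P⁻¹ * 4 ^ be r = 4 := by
      rw [← Real.rpow_add (by norm_num)]
      have : P⁻¹ + be r = 1 := by unfold be; rw [← hP]; ring
      rw [this, Real.rpow_one]
    rw [h1, h2]
    calc _ = (Fintype.card Γ : ℝ) * (16 * (Fintype.card J + l * Cn r (Fintype.card J))) *
        ((4 ^ P⁻¹ * 4 ^ be r) * (a ^ P⁻¹ * b ^ be r)) := by ring
      _ = _ := by rw [h3]; ring
  · have e1 : (Fintype.card Γ : ℝ) * (Fintype.card J * (2 * (Fintype.card ι * (δ / (X + 1))))) =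
        X / (X + 1) * δ := by rw [hX]; ring
    rw [e1]
    have h2 : X / (X + 1) ≤ 1 := by rw [div_le_one (by positivity)]; linarith
    calc X / (X + 1) * δ ≤ 1 * δ := mul_le_mul_of_nonneg_right h2 hδ.le
      _ = δ := one_mul δ

end TH364.SG
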