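import Mathlib
import Pool.Agent.TH364.SG.Torus2
import Pool.Agent.TH364.SG.Poly
set_option autoImplicit false
set_option linter.unusedSectionVars false

/-! A gap at one scale forces cotype. -/

namespace TH364.SG

open Finset
open Pool.Agent.Results.MP_fd02da_an.SchattenIsometries

universe u v
variable {X : Type u} [NormedAddCommGroup X] [NormedSpace ℝ X]
variable {H : Type v} [NormedAddCommGroup H] [InnerProductSpace ℂ H] [CompleteSpace H]

theorem chain_nat {g : X → SchattenClass 1 H} {s b : ℝ} (hs : 0 < s)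
    (hg : ∀ x y, ‖x - y‖ ≤ s → ‖g x - g y‖ ≤ b) (N : ℕ) :
    ∀ x y : X, ‖x - y‖ ≤ (N + 1 : ℝ) * s → ‖g x - g y‖ ≤ (N + 1 : ℝ) * b := by
  induction N with
  | zero =>
    intro x y h
    simp only [Nat.cast_zero, zero_add, one_mul] at h ⊢
    exact hg x y h
  | succ N ih =>
    intro x y h
    push_cast at h ⊢
    set z := x - ((1 : ℝ) / (N + 2)) • (x - y) with hz
    have hN : (0 : ℝ) < N + 2 := by positivity
    have h1 : ‖x - z‖ ≤ s := by
      have e : x - z = ((1 : ℝ) / (N + 2)) • (x - y) := by rw [hz]; abel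
      rw [e, norm_smul, Real.norm_of_nonneg (by positivity), one_div_mul_eq_div, div_le_iff₀ hN]
      linarith
    have h2 : ‖z - y‖ ≤ (N + 1 : ℝ) * s := by
      have e : z - y = (((N : ℝ) + 1) / (N + 2)) • (x - y) := by
        have : ((N : ℝ) + 1) / (N + 2) = 1 - 1 / (N + 2) := by field_simp; ring
        rw [this, sub_smul, one_smul, hz]; abel
      rw [e, norm_smul, Real.norm_of_nonneg (by positivity), div_mul_eq_mul_div, div_le_iff₀ hN]
      have := mul_le_mul_of_nonneg_left h (show (0 : ℝ) ≤ N + 1 by positivity)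
      linarith
    have e : g x - g y = (g x - g z) + (g z - g y) := by abel
    rw [e]
    refine (norm_add_le _ _).trans ?_
    have := hg x z h1
    have := ih z y h2
    linarith

theorem chain_bound {g : X → SchattenClass 1 H} {s b : ℝ} (hs : 0 < s) (hb : 0 ≤ b)
    (hg : ∀ x y, ‖x - y‖ ≤ s → ‖g x - g y‖ ≤ b) (x y : X) :
    ‖g x - g y‖ ≤ b * (1 + ‖x - y‖ / s) := by
  have h1 : ‖x - y‖ / s < (⌊‖x - y‖ / s⌋₊ : ℝ) + 1 := Nat.lt_floor_add_one _
  have h2 : (⌊‖x - y‖ / s⌋₊ : ℝ) ≤ ‖x - y‖ / s := Nat.floor_le (by positivity)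
  have h3 := chain_nat hs hg ⌊‖x - y‖ / s⌋₊ x y (by
    rw [div_lt_iff₀ hs] at h1; exact h1.le)
  refine h3.trans ?_
  rw [mul_comm]
  exact mul_le_mul_of_nonneg_left (by linarith) hb

theorem comp_num {b B P G n l Cn0 s : ℝ} {β : ℝ} (hb : 0 ≤ b) (hP : 2 ≤ P) (hG : 0 < G)
    (hn : 1 ≤ n) (hss : s * s = n) (hs : 1 ≤ s) (hPn : 6 * P ≤ n)
    (hl : l ≤ s / Real.sqrt (6 * P) + 1) (hl0 : 0 ≤ l)
    (hβ : P⁻¹ + β = 1) (hβ0 : 0 < β) (hnP : n ^ P⁻¹ ≤ 2)
    (hCn : Cn0 ≤ Real.sqrt (6 * P) * s)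
    (h1 : n * (G / 2 * B) ≤ G * (256 * (n + l * Cn0)) * ((b * (5 * n ^ 2)) ^ P⁻¹ * (4 * b) ^ β)) :
    B ≤ 30720 * b := by
  have hq0 : 0 < Real.sqrt (6 * P) := Real.sqrt_pos.2 (by linarith)
  have hqs : Real.sqrt (6 * P) ≤ s := by
    rw [Real.sqrt_le_left (by linarith)]
    nlinarith
  have hk1 : n + l * Cn0 ≤ 3 * n := by
    have a2 : l * Cn0 ≤ l * (Real.sqrt (6 * P) * s) := mul_le_mul_of_nonneg_left hCn hl0
    have a3 : l * (Real.sqrt (6 * P) * s) ≤ (s / Real.sqrt (6 * P) + 1) * (Real.sqrt (6 * P) * s) :=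
      mul_le_mul_of_nonneg_right hl (by positivity)
    have a4 : (s / Real.sqrt (6 * P) + 1) * (Real.sqrt (6 * P) * s) =
        s * s + Real.sqrt (6 * P) * s := by
      field_simp
    have a5 : Real.sqrt (6 * P) * s ≤ s * s := mul_le_mul_of_nonneg_right hqs (by linarith)
    rw [hss] at a4 a5
    linarith
  have hk2 : (b * (5 * n ^ 2)) ^ P⁻¹ * (4 * b) ^ β ≤ 20 * b := by
    have a1 : (b * (5 * n ^ 2)) ^ P⁻¹ = (5 * b) ^ P⁻¹ * (n ^ P⁻¹ * n ^ P⁻¹) := by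
      rw [← Real.mul_rpow (by positivity) (by positivity),
        ← Real.mul_rpow (by positivity) (by positivity)]
      congr 1
      ring
    have a2 : (4 * b) ^ β ≤ (5 * b) ^ β :=
      Real.rpow_le_rpow (by positivity) (by linarith) hβ0.le
    have a3 : n ^ P⁻¹ * n ^ P⁻¹ ≤ 2 * 2 :=
      mul_le_mul hnP hnP (by positivity) (by norm_num)
    rw [a1]
    calc (5 * b) ^ P⁻¹ * (n ^ P⁻¹ * n ^ P⁻¹) * (4 * b) ^ β
        ≤ (5 * b) ^ P⁻¹ * (2 * 2) * (5 * b) ^ β :=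
          mul_le_mul (mul_le_mul_of_nonneg_left a3 (by positivity)) a2 (by positivity)
            (by positivity)
      _ = 4 * ((5 * b) ^ P⁻¹ * (5 * b) ^ β) := by ring
      _ = 20 * b := by
        rw [← Real.rpow_add' (by positivity) (by rw [hβ]; norm_num), hβ, Real.rpow_one]
        ring
  have h2 : n * (G / 2 * B) ≤ G * (256 * (3 * n)) * (20 * b) := by
    refine h1.trans ?_
    refine mul_le_mul ?_ hk2 (by positivity) (by positivity)
    refine mul_le_mul_of_nonneg_left ?_ hG.le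
    exact mul_le_mul_of_nonneg_left hk1 (by norm_num)
  have h3 : (G * n / 2) * B ≤ (G * n / 2) * (30720 * b) := by
    refine le_trans (le_of_eq (by ring)) (h2.trans (le_of_eq ?_))
    ring
  exact le_of_mul_le_mul_left h3 (by positivity)

/-- The key estimate for one family of vectors. -/
theorem comp_key {g : X → SchattenClass 1 H} {s b B T : ℝ} (hs : 0 < s) (hb : 0 ≤ b) (hB : 0 ≤ B)
    (hupp : ∀ x y, ‖x - y‖ ≤ s → ‖g x - g y‖ ≤ b)
    (hlow : ∀ x y, T * s ≤ ‖x - y‖ → B ≤ ‖g x - g y‖)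
    {q q' : ℝ} (hq' : 2 < q') (hqq : q' < q) (r : ℕ) {n : ℕ} (hn : 1 ≤ n) (y : Fin n → X)
    (hy : ∀ j, 1 / 2 < ‖y j‖ ∧ ‖y j‖ ≤ 1) (hr : rav q y ≤ (n : ℝ) ^ (q / q'))
    (hnP : (n : ℝ) ≤ wr r) (hPn : 6 * ((2 ^ (r + 1) : ℕ) : ℝ) ≤ n)
    (hT : T ≤ (n : ℝ) ^ (1 / 2 - 1 / q') / (2 * Real.sqrt (6 * ((2 ^ (r + 1) : ℕ) : ℝ)))) :
    B ≤ 30720 * b := by
  have hn0 : (1 : ℝ) ≤ n := by exact_mod_cast hn
  have hP2 : (2 : ℝ) ≤ ((2 ^ (r + 1) : ℕ) : ℝ) := by exact_mod_cast two_le_P r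
  obtain ⟨P, hP⟩ : ∃ P, P = ((2 ^ (r + 1) : ℕ) : ℝ) := ⟨_, rfl⟩
  rw [← hP] at hPn hT hP2
  obtain ⟨σ, hσ⟩ : ∃ σ, σ = Real.sqrt n := ⟨_, rfl⟩
  have hσ1 : 1 ≤ σ := by rw [hσ]; exact Real.one_le_sqrt.2 hn0
  have hσσ : σ * σ = n := by rw [hσ]; exact Real.mul_self_sqrt (by linarith)
  obtain ⟨κ, hκ⟩ : ∃ κ, κ = Real.sqrt (6 * P) := ⟨_, rfl⟩
  have hκ1 : 1 ≤ κ := by rw [hκ]; exact Real.one_le_sqrt.2 (by linarith)
  rw [← hκ] at hT
  obtain ⟨l, hl⟩ : ∃ l, l = ⌈σ / κ⌉₊ := ⟨_, rfl⟩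
  have hl1 : σ / κ ≤ l := by rw [hl]; exact Nat.le_ceil _
  have hl2 : (l : ℝ) ≤ σ / κ + 1 := by
    have := Nat.ceil_lt_add_one (a := σ / κ) (by positivity)
    rw [hl]
    linarith
  have hlpos : 0 < l := by
    have : (0 : ℝ) < l := lt_of_lt_of_le (by positivity) hl1
    exact_mod_cast this
  have : NeZero l := ⟨hlpos.ne'⟩
  obtain ⟨t, ht⟩ : ∃ t : ℝ, t = (n : ℝ) ^ (-(1 / q')) := ⟨_, rfl⟩
  have ht0 : 0 < t := by rw [ht]; positivity
  have hq'0 : 0 < q' := by linarith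
  have ht1 : t ≤ 1 := by
    rw [ht]
    exact Real.rpow_le_one_of_one_le_of_nonpos hn0 (by
      have : 0 < 1 / q' := by positivity
      linarith)
  obtain ⟨F, hF⟩ : ∃ F : (Fin n → ZMod (4 * l)) → SchattenClass 1 H,
    F = fun x => g ((s * t) • psi l y x) := ⟨_, rfl⟩
  have hst : 0 < s * t := by positivity
  have hFd : ∀ x x', ‖F x - F x'‖ ≤ b * (1 + t * ‖psi l y x - psi l y x'‖) := by
    intro x x'
    rw [hF]
    refine (chain_bound hs hb hupp _ _).trans (le_of_eq ?_)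
    rw [← smul_sub, norm_smul, Real.norm_of_nonneg hst.le]
    field_simp
  have havg := avg_t hq' hqq hn0 l y hr
  rw [← ht] at havg
  obtain ⟨hb0, hb1⟩ := local_avgs l (fun j => (hy j).2) hb ht0.le ht1 hFd havg
  have hσn : σ ≤ n := by nlinarith
  have hln : (l : ℝ) ≤ 2 * n := by
    have : σ / κ ≤ σ := div_le_self (by linarith) hκ1
    linarith
  have hM : ∑ x, ‖F x - F 0‖ ≤ (Fintype.card (Fin n → ZMod (4 * l)) : ℝ) * (b * (5 * (n : ℝ) ^ 2)) := by
    have hMx : ∀ x, ‖F x - F 0‖ ≤ b * (5 * (n : ℝ) ^ 2) := by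
      intro x
      refine (hFd x 0).trans (mul_le_mul_of_nonneg_left ?_ hb)
      have h1 := psi_diam l y (fun j => (hy j).2) x 0
      have h2 : t * ‖psi l y x - psi l y 0‖ ≤ 1 * (2 * l * n) :=
        mul_le_mul ht1 h1 (norm_nonneg _) zero_le_one
      have h4 : (2 : ℝ) * l * n ≤ 4 * n * n := by nlinarith
      nlinarith
    refine (Finset.sum_le_card_nsmul _ _ _ fun x _ => hMx x).trans_eq ?_
    rw [Finset.card_univ, nsmul_eq_mul]
  have hT2 := torus2 (e := ev l n) r l F (M := b * (5 * (n : ℝ) ^ 2)) (b := 4 * b) (by positivity)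
    (by positivity) hM hb0 hb1
  rw [Fintype.card_fin] at hT2
  have htl : T ≤ t * l / 2 := by
    have h1 : (n : ℝ) ^ (1 / 2 - 1 / q') = t * σ := by
      rw [ht, hσ, Real.sqrt_eq_rpow, ← Real.rpow_add (by linarith)]
      congr 1; ring
    rw [h1] at hT
    have h2 := mul_le_mul_of_nonneg_left hl1 ht0.le
    have h3 : t * σ / (2 * κ) = t * (σ / κ) / 2 := by field_simp
    rw [h3] at hT
    linarith
  have hL := far_sum l (F := F) (B := B) hB
    (by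
      intro x j h
      rw [hF]
      refine hlow _ _ ?_
      rw [← smul_sub, norm_smul, Real.norm_of_nonneg hst.le, psi_far]
      have h5 : (l : ℝ) * (1 / 2) ≤ ad l (x j) * ‖y j‖ :=
        mul_le_mul h (hy j).1.le (by norm_num) (by linarith [Nat.cast_nonneg (α := ℝ) l])
      have h6 := mul_le_mul_of_nonneg_left h5 hst.le
      have h7 := mul_le_mul_of_nonneg_left htl hs.le
      nlinarith)
  have hGpos : 0 < (Fintype.card (Fin n → ZMod (4 * l)) : ℝ) := by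
    have : 0 < Fintype.card (Fin n → ZMod (4 * l)) := Fintype.card_pos
    exact_mod_cast this
  have hCn := Cn_le r n
  rw [← hσ] at hCn
  rw [← hP] at hT2 hCn
  have hnP' : (n : ℝ) ^ P⁻¹ ≤ 2 := by
    have h1 : (n : ℝ) ^ P⁻¹ ≤ (wr r) ^ P⁻¹ := Real.rpow_le_rpow (by positivity) hnP (by positivity)
    refine h1.trans (le_of_eq ?_)
    rw [hP]
    exact wr_root r
  rw [hκ] at hl2
  exact comp_num hb hP2 hGpos hn0 hσσ hσ1 hPn hl2 (Nat.cast_nonneg l)
    (by unfold be; rw [← hP]; ring) (be_pos r) hnP' hCn (hL.trans hT2)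

end TH364.SG
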