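import Mathlib
import Pool.Agent.TH364.SG.Comp
set_option autoImplicit false
set_option linter.unusedSectionVars false

/-! A gap at one scale forces cotype: the final theorem. -/

namespace TH364.SG

open Finset
open Pool.Agent.Results.MP_fd02da_an.SchattenIsometries

universe u v
variable {X : Type u} [NormedAddCommGroup X] [NormedSpace ℝ X]
variable {H : Type v} [NormedAddCommGroup H] [InnerProductSpace ℂ H] [CompleteSpace H]

theorem choose_r {c0 : ℝ} (hc : 0 < c0) (hc2 : c0 ≤ 1 / 2) (T : ℝ) : ∃ N : ℕ, ∀ n : ℕ, N ≤ n →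
    ∃ r : ℕ, (n : ℝ) ≤ wr r ∧ 6 * ((2 ^ (r + 1) : ℕ) : ℝ) ≤ n ∧
      T ≤ (n : ℝ) ^ c0 / (2 * Real.sqrt (6 * ((2 ^ (r + 1) : ℕ) : ℝ))) := by
  obtain ⟨A0, hA0⟩ : ∃ A0 : ℝ, A0 = 96 * (T ^ 2 + 1) / c0 := ⟨_, rfl⟩
  have hA0p : 0 < A0 := by rw [hA0]; positivity
  obtain ⟨N, hN⟩ := exists_nat_gt (A0 ^ (1 / c0))
  refine ⟨N + 2, fun n hn => ⟨Nat.log 2 (Nat.log 2 n), ?_, ?_⟩⟩
  · have h1 : Nat.log 2 n < 2 ^ (Nat.log 2 (Nat.log 2 n) + 1) := Nat.lt_pow_succ_log_self (by norm_num) _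
    have h2 : n < 2 ^ (Nat.log 2 n + 1) := Nat.lt_pow_succ_log_self (by norm_num) _
    have h3 : n ≤ 2 ^ (2 ^ (Nat.log 2 (Nat.log 2 n) + 1)) :=
      h2.le.trans (Nat.pow_le_pow_right (by norm_num) h1)
    unfold wr
    exact_mod_cast h3
  · obtain ⟨r, hr⟩ : ∃ r, r = Nat.log 2 (Nat.log 2 n) := ⟨_, rfl⟩
    rw [← hr]
    have hn2 : 2 ≤ n := by omega
    have hn0 : (1 : ℝ) ≤ n := by exact_mod_cast (by omega : 1 ≤ n)
    have hlog : Nat.log 2 n ≠ 0 := by
      have := Nat.log_pos (b := 2) (by norm_num) hn2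
      omega
    have h1 : 2 ^ r ≤ Nat.log 2 n := by rw [hr]; exact Nat.pow_log_le_self 2 hlog
    have h2 : ((Nat.log 2 n : ℕ) : ℝ) ≤ 2 * Real.log n := by
      have h3 : (2 : ℝ) ^ (Nat.log 2 n) ≤ n := by
        exact_mod_cast Nat.pow_log_le_self 2 (by omega : n ≠ 0)
      have h4 := Real.log_le_log (by positivity) h3
      rw [Real.log_pow] at h4
      have h5 : (1 / 2 : ℝ) ≤ Real.log 2 := by have := Real.log_two_gt_d9; linarith
      have h6 : (0 : ℝ) ≤ (Nat.log 2 n : ℕ) := Nat.cast_nonneg _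
      nlinarith
    obtain ⟨a, ha⟩ : ∃ a : ℝ, a = (n : ℝ) ^ c0 := ⟨_, rfl⟩
    have h7 : Real.log n ≤ a / c0 := by rw [ha]; exact Real.log_le_rpow_div (by linarith) hc
    obtain ⟨P, hP⟩ : ∃ P, P = ((2 ^ (r + 1) : ℕ) : ℝ) := ⟨_, rfl⟩
    have hP0 : 0 < P := by rw [hP]; positivity
    have h8 : P ≤ 4 * (a / c0) := by
      have h9 : P = 2 * ((2 ^ r : ℕ) : ℝ) := by rw [hP]; push_cast; ring
      have h10 : ((2 ^ r : ℕ) : ℝ) ≤ ((Nat.log 2 n : ℕ) : ℝ) := by exact_mod_cast h1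
      rw [h9]; linarith
    have haA : A0 ≤ a := by
      have h9 : A0 ^ (1 / c0) ≤ n := by
        have : (N : ℝ) ≤ n := by exact_mod_cast (by omega : N ≤ n)
        linarith
      have h10 := Real.rpow_le_rpow (by positivity) h9 hc.le
      rw [← Real.rpow_mul hA0p.le, one_div, inv_mul_cancel₀ hc.ne', Real.rpow_one] at h10
      rw [ha]; exact h10
    have ha0 : 0 < a := by linarith
    have h11 : 96 * (T ^ 2 + 1) ≤ a * c0 := by
      have := haA
      rw [hA0, div_le_iff₀ hc] at this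
      exact this
    have haa : a * a ≤ n := by
      rw [ha, ← Real.rpow_add (by linarith)]
      calc (n : ℝ) ^ (c0 + c0) ≤ (n : ℝ) ^ (1 : ℝ) :=
            Real.rpow_le_rpow_of_exponent_le hn0 (by linarith)
        _ = n := Real.rpow_one _
    have h6P : 6 * P * c0 ≤ 24 * a := by
      have := mul_le_mul_of_nonneg_right h8 hc.le
      have e : 4 * (a / c0) * c0 = 4 * a := by field_simp
      rw [e] at this
      linarith
    rw [← hP, ← ha]
    constructor
    · -- 6P ≤ a * a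
      have h12 : 6 * P * c0 ≤ a * a * c0 := by nlinarith [sq_nonneg T]
      have := le_of_mul_le_mul_right h12 hc
      linarith
    · have hs0 : 0 < Real.sqrt (6 * P) := Real.sqrt_pos.2 (by linarith)
      rw [le_div_iff₀ (by positivity)]
      have h13 : (T * (2 * Real.sqrt (6 * P))) ^ 2 ≤ a ^ 2 := by
        have e : (T * (2 * Real.sqrt (6 * P))) ^ 2 = 4 * T ^ 2 * (Real.sqrt (6 * P)) ^ 2 := by ring
        rw [e, Real.sq_sqrt (by linarith)]
        have h14 : 4 * T ^ 2 * (6 * P) * c0 ≤ a ^ 2 * c0 := by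
          have h15 : 4 * T ^ 2 * (6 * P * c0) ≤ 4 * T ^ 2 * (24 * a) :=
            mul_le_mul_of_nonneg_left h6P (by positivity)
          nlinarith
        exact le_of_mul_le_mul_right h14 hc
      exact abs_le_of_sq_le_sq' h13 ha0.le |>.2

/-- **Gap theorem.** If a map into the trace class moves points at distance at most `s` by at
most `b`, and points at distance at least `T s` by at least `30721 b`, then the space has
Rademacher cotype `q` for every `q > 2`. -/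
theorem gap_cotype {g : X → SchattenClass 1 H} {s b T : ℝ} (hs : 0 < s) (hb : 0 < b)
    (hupp : ∀ x y, ‖x - y‖ ≤ s → ‖g x - g y‖ ≤ b)
    (hlow : ∀ x y, T * s ≤ ‖x - y‖ → 30721 * b ≤ ‖g x - g y‖) {q : ℝ} (hq : 2 < q) :
    HasCotype q X := by
  by_contra hcon
  obtain ⟨q', hq'⟩ : ∃ q', q' = (2 + q) / 2 := ⟨_, rfl⟩
  have hq'2 : 2 < q' := by rw [hq']; linarith
  have hqq : q' < q := by rw [hq']; linarith
  have hc0 : 0 < 1 / 2 - 1 / q' := by
    have : 1 / q' < 1 / 2 := one_div_lt_one_div_of_lt (by norm_num) hq'2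
    linarith
  have hc1 : 1 / 2 - 1 / q' ≤ 1 / 2 := by
    have : 0 < 1 / q' := by positivity
    linarith
  obtain ⟨N, hN⟩ := choose_r hc0 hc1 T
  obtain ⟨n, y, hn, hy, hrav⟩ := extract (X := X) (q := q) (q' := q') (by linarith) hqq (by linarith)
    hcon (N + 1)
  obtain ⟨r, h1, h2, h3⟩ := hN n (by omega)
  have key := comp_key (H := H) hs hb.le (by positivity) hupp hlow hq'2 hqq r (by omega) y hy hrav
    h1 h2 h3
  linarith

end TH364.SG
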