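import Mathlib
import Pool.Agent.TH364.SG.Cot
import Pool.Agent.W666.GB.Hyper
set_option autoImplicit false
set_option linter.unusedSectionVars false

/-! Kahane's inequality for even moments of Rademacher sums. -/

namespace TH364.SG

open Finset

universe u
variable {X : Type u} [NormedAddCommGroup X] [NormedSpace ℝ X]

theorem sum_cons {n : ℕ} (f : (Fin (n + 1) → Bool) → ℝ) :
    ∑ ε : Fin (n + 1) → Bool, f ε = ∑ ε : Fin n → Bool, f (Fin.cons true ε) +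
      ∑ ε : Fin n → Bool, f (Fin.cons false ε) := by
  rw [← Equiv.sum_comp (Fin.consEquiv fun _ : Fin (n + 1) => Bool), Fintype.sum_prod_type,
    Fintype.sum_bool]
  rfl

theorem rs_cons {n : ℕ} (y : Fin (n + 1) → X) (b : Bool) (ε : Fin n → Bool) :
    rs y (Fin.cons b ε) = sg b • y 0 + rs (fun k => y k.succ) ε := by
  unfold rs
  rw [Fin.sum_univ_succ]
  simp only [Fin.cons_zero, Fin.cons_succ]

/-- the even moment of a shifted Rademacher sum, as a norm -/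
noncomputable def Nm (m : ℕ) (ρ : ℝ) {n : ℕ} (y : Fin n → X) (x : X) : ℝ :=
  ((2 ^ n : ℝ)⁻¹ * ∑ ε : Fin n → Bool, ‖x + ρ • rs y ε‖ ^ (2 * m)) ^ (((2 * m : ℕ) : ℝ)⁻¹)

theorem Nm_nonneg (m : ℕ) (ρ : ℝ) {n : ℕ} (y : Fin n → X) (x : X) : 0 ≤ Nm m ρ y x := by
  unfold Nm; positivity

theorem Nm_pow {m : ℕ} (hm : 1 ≤ m) (ρ : ℝ) {n : ℕ} (y : Fin n → X) (x : X) :
    (Nm m ρ y x) ^ (2 * m) = (2 ^ n : ℝ)⁻¹ * ∑ ε : Fin n → Bool, ‖x + ρ • rs y ε‖ ^ (2 * m) := by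
  unfold Nm
  rw [← Real.rpow_natCast, ← Real.rpow_mul (by positivity), inv_mul_cancel₀, Real.rpow_one]
  have : (0 : ℝ) < ((2 * m : ℕ) : ℝ) := by exact_mod_cast (by omega : 0 < 2 * m)
  exact this.ne'

/-- Minkowski for the finite average -/
theorem mink {m : ℕ} (hm : 1 ≤ m) {n : ℕ} (f g : (Fin n → Bool) → ℝ) (hf : ∀ ε, 0 ≤ f ε)
    (hg : ∀ ε, 0 ≤ g ε) :
    ((2 ^ n : ℝ)⁻¹ * ∑ ε, (f ε + g ε) ^ (2 * m)) ^ (((2 * m : ℕ) : ℝ)⁻¹) ≤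
      ((2 ^ n : ℝ)⁻¹ * ∑ ε, (f ε) ^ (2 * m)) ^ (((2 * m : ℕ) : ℝ)⁻¹) +
      ((2 ^ n : ℝ)⁻¹ * ∑ ε, (g ε) ^ (2 * m)) ^ (((2 * m : ℕ) : ℝ)⁻¹) := by
  have hp : (1 : ℝ) ≤ ((2 * m : ℕ) : ℝ) := by exact_mod_cast (by omega : 1 ≤ 2 * m)
  have h := Real.Lp_add_le_of_nonneg (Finset.univ : Finset (Fin n → Bool)) hp
    (fun ε _ => hf ε) (fun ε _ => hg ε)
  simp only [Real.rpow_natCast, one_div] at h
  have h0 : (0 : ℝ) ≤ (2 ^ n : ℝ)⁻¹ := by positivity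
  rw [Real.mul_rpow h0 (Finset.sum_nonneg fun ε _ => pow_nonneg (add_nonneg (hf ε) (hg ε)) _),
    Real.mul_rpow h0 (Finset.sum_nonneg fun ε _ => pow_nonneg (hf ε) _),
    Real.mul_rpow h0 (Finset.sum_nonneg fun ε _ => pow_nonneg (hg ε) _), ← mul_add]
  exact mul_le_mul_of_nonneg_left h (by positivity)

theorem Nm_conv {m : ℕ} (hm : 1 ≤ m) (ρ : ℝ) {n : ℕ} (y : Fin n → X) {s t : ℝ} (hs : 0 ≤ s)
    (ht : 0 ≤ t) (hst : s + t = 1) (a b : X) :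
    Nm m ρ y (s • a + t • b) ≤ s * Nm m ρ y a + t * Nm m ρ y b := by
  have hp : (0 : ℝ) < ((2 * m : ℕ) : ℝ) := by exact_mod_cast (by omega : 0 < 2 * m)
  have h1 : Nm m ρ y (s • a + t • b) ≤
      ((2 ^ n : ℝ)⁻¹ * ∑ ε : Fin n → Bool, (s * ‖a + ρ • rs y ε‖ + t * ‖b + ρ • rs y ε‖) ^ (2 * m)) ^
        (((2 * m : ℕ) : ℝ)⁻¹) := by
    unfold Nm
    refine Real.rpow_le_rpow (by positivity) ?_ (by positivity)
    refine mul_le_mul_of_nonneg_left ?_ (by positivity)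
    refine Finset.sum_le_sum fun ε _ => pow_le_pow_left₀ (norm_nonneg _) ?_ _
    have e : s • a + t • b + ρ • rs y ε = s • (a + ρ • rs y ε) + t • (b + ρ • rs y ε) := by
      rw [smul_add, smul_add]
      have : ρ • rs y ε = s • (ρ • rs y ε) + t • (ρ • rs y ε) := by
        rw [← add_smul, hst, one_smul]
      nth_rewrite 1 [this]
      abel
    rw [e]
    refine (norm_add_le _ _).trans ?_
    rw [norm_smul, norm_smul, Real.norm_of_nonneg hs, Real.norm_of_nonneg ht]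
  refine h1.trans ((mink hm _ _ (fun ε => by positivity) (fun ε => by positivity)).trans ?_)
  have h2 : ∀ (c : ℝ) (z : X), 0 ≤ c → ((2 ^ n : ℝ)⁻¹ * ∑ ε : Fin n → Bool,
      (c * ‖z + ρ • rs y ε‖) ^ (2 * m)) ^ (((2 * m : ℕ) : ℝ)⁻¹) = c * Nm m ρ y z := by
    intro c z hc
    unfold Nm
    simp only [mul_pow]
    rw [← Finset.mul_sum, mul_left_comm, Real.mul_rpow (by positivity) (by positivity)]
    congr 1
    rw [← Real.rpow_natCast, ← Real.rpow_mul hc, mul_inv_cancel₀ hp.ne', Real.rpow_one]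
  rw [h2 s a hs, h2 t b ht]

theorem kah_ind {m : ℕ} (hm : 1 ≤ m) {ρ : ℝ} (hρ0 : 0 ≤ ρ) (hρ1 : ρ ≤ 1)
    (hρ : 2 * m * ρ ^ 2 ≤ 1) : ∀ (n : ℕ) (y : Fin n → X) (x : X),
    (2 ^ n : ℝ)⁻¹ * ∑ ε : Fin n → Bool, ‖x + ρ • rs y ε‖ ^ (2 * m) ≤
      ((2 ^ n : ℝ)⁻¹ * ∑ ε : Fin n → Bool, ‖x + rs y ε‖ ^ 2) ^ m := by
  intro n
  induction n with
  | zero =>
    intro y x
    have h : ∀ ε : Fin 0 → Bool, rs y ε = 0 := fun ε => by unfold rs; simp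
    simp only [h, smul_zero, add_zero, pow_zero, inv_one, one_mul, Finset.sum_const,
      Finset.card_univ, Fintype.card_unique, one_smul]
    rw [← pow_mul]
  | succ n ih =>
    intro y x
    set y' : Fin n → X := fun k => y k.succ with hy'
    have e1 : ∀ b : Bool, ∑ ε : Fin n → Bool, ‖x + ρ • rs y (Fin.cons b ε)‖ ^ (2 * m) =
        2 ^ n * (Nm m ρ y' (x + (ρ * sg b) • y 0)) ^ (2 * m) := by
      intro b
      rw [Nm_pow hm, ← mul_assoc, mul_inv_cancel₀ (by positivity), one_mul]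
      refine Finset.sum_congr rfl fun ε _ => ?_
      rw [rs_cons, smul_add, ← add_assoc, smul_smul]
    have e2 : ∀ b : Bool, (Nm m 1 y' (x + sg b • y 0)) = Nm m 1 y' (x + sg b • y 0) := fun b => rfl
    -- convexity
    set Np := Nm m ρ y' (x + y 0) with hNp
    set Nn := Nm m ρ y' (x - y 0) with hNn
    have c1 : Nm m ρ y' (x + (ρ * sg true) • y 0) ≤ (1 + ρ) / 2 * Np + (1 - ρ) / 2 * Nn := by
      have h := Nm_conv hm ρ y' (s := (1 + ρ) / 2) (t := (1 - ρ) / 2) (by linarith) (by linarith)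
        (by ring) (x + y 0) (x - y 0)
      have e : ((1 + ρ) / 2) • (x + y 0) + ((1 - ρ) / 2) • (x - y 0) = x + (ρ * sg true) • y 0 := by
        simp only [sg, cond_true, mul_one]
        module
      rw [e] at h
      exact h
    have c2 : Nm m ρ y' (x + (ρ * sg false) • y 0) ≤ (1 - ρ) / 2 * Np + (1 + ρ) / 2 * Nn := by
      have h := Nm_conv hm ρ y' (s := (1 - ρ) / 2) (t := (1 + ρ) / 2) (by linarith) (by linarith)
        (by ring) (x + y 0) (x - y 0)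
      have e : ((1 - ρ) / 2) • (x + y 0) + ((1 + ρ) / 2) • (x - y 0) = x + (ρ * sg false) • y 0 := by
        simp only [sg, cond_false]
        module
      rw [e] at h
      exact h
    have hNp0 : 0 ≤ Np := Nm_nonneg _ _ _ _
    have hNn0 : 0 ≤ Nn := Nm_nonneg _ _ _ _
    -- two point
    have tp := Pool.Agent.W666.GB.two_point ((Np + Nn) / 2) (ρ * ((Np - Nn) / 2)) m
    have d1 : (Np + Nn) / 2 + ρ * ((Np - Nn) / 2) = (1 + ρ) / 2 * Np + (1 - ρ) / 2 * Nn := by ring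
    have d2 : (Np + Nn) / 2 - ρ * ((Np - Nn) / 2) = (1 - ρ) / 2 * Np + (1 + ρ) / 2 * Nn := by ring
    rw [d1, d2] at tp
    have i1 : Np ^ 2 ≤ (2 ^ n : ℝ)⁻¹ * ∑ ε : Fin n → Bool, ‖x + y 0 + rs y' ε‖ ^ 2 := by
      have h := ih y' (x + y 0)
      rw [← Nm_pow hm, pow_mul] at h
      exact le_of_pow_le_pow_left₀ (by omega) (by positivity) h
    have i2 : Nn ^ 2 ≤ (2 ^ n : ℝ)⁻¹ * ∑ ε : Fin n → Bool, ‖x - y 0 + rs y' ε‖ ^ 2 := by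
      have h := ih y' (x - y 0)
      rw [← Nm_pow hm, pow_mul] at h
      exact le_of_pow_le_pow_left₀ (by omega) (by positivity) h
    have h3 : ((Np + Nn) / 2) ^ 2 + 2 * m * (ρ * ((Np - Nn) / 2)) ^ 2 ≤ (Np ^ 2 + Nn ^ 2) / 2 := by
      have : 2 * m * (ρ * ((Np - Nn) / 2)) ^ 2 ≤ ((Np - Nn) / 2) ^ 2 := by
        have := mul_le_mul_of_nonneg_right hρ (sq_nonneg ((Np - Nn) / 2))
        nlinarith
      nlinarith
    have h4 : (2 ^ (n + 1) : ℝ)⁻¹ * ∑ ε : Fin (n + 1) → Bool, ‖x + rs y ε‖ ^ 2 =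
        ((2 ^ n : ℝ)⁻¹ * ∑ ε : Fin n → Bool, ‖x + y 0 + rs y' ε‖ ^ 2 +
          (2 ^ n : ℝ)⁻¹ * ∑ ε : Fin n → Bool, ‖x - y 0 + rs y' ε‖ ^ 2) / 2 := by
      rw [sum_cons]
      simp only [rs_cons, sg, cond_true, cond_false, one_smul, neg_smul, ← add_assoc,
        ← sub_eq_add_neg]
      rw [pow_succ, mul_inv]
      ring
    have h5 : (2 ^ (n + 1) : ℝ)⁻¹ * ∑ ε : Fin (n + 1) → Bool, ‖x + ρ • rs y ε‖ ^ (2 * m) =
        ((Nm m ρ y' (x + (ρ * sg true) • y 0)) ^ (2 * m) +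
          (Nm m ρ y' (x + (ρ * sg false) • y 0)) ^ (2 * m)) / 2 := by
      rw [sum_cons, e1, e1, pow_succ]
      field_simp
    rw [h4, h5]
    have h6 : (Nm m ρ y' (x + (ρ * sg true) • y 0)) ^ (2 * m) ≤
        ((1 + ρ) / 2 * Np + (1 - ρ) / 2 * Nn) ^ (2 * m) := pow_le_pow_left₀ (Nm_nonneg _ _ _ _) c1 _
    have h7 : (Nm m ρ y' (x + (ρ * sg false) • y 0)) ^ (2 * m) ≤
        ((1 - ρ) / 2 * Np + (1 + ρ) / 2 * Nn) ^ (2 * m) := pow_le_pow_left₀ (Nm_nonneg _ _ _ _) c2 _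
    calc _ ≤ (((1 + ρ) / 2 * Np + (1 - ρ) / 2 * Nn) ^ (2 * m) +
          ((1 - ρ) / 2 * Np + (1 + ρ) / 2 * Nn) ^ (2 * m)) / 2 := by linarith
      _ ≤ (((Np + Nn) / 2) ^ 2 + 2 * m * (ρ * ((Np - Nn) / 2)) ^ 2) ^ m := tp
      _ ≤ ((Np ^ 2 + Nn ^ 2) / 2) ^ m := pow_le_pow_left₀ (by positivity) h3 _
      _ ≤ _ := pow_le_pow_left₀ (by positivity) (by linarith) _

/-- Kahane's inequality for even moments. -/
theorem kahane {m : ℕ} (hm : 1 ≤ m) {n : ℕ} (y : Fin n → X) :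
    (2 ^ n : ℝ)⁻¹ * ∑ ε : Fin n → Bool, ‖rs y ε‖ ^ (2 * m) ≤
      (2 * m : ℝ) ^ m * ((2 ^ n : ℝ)⁻¹ * ∑ ε : Fin n → Bool, ‖rs y ε‖ ^ 2) ^ m := by
  have hm0 : (1 : ℝ) ≤ m := by exact_mod_cast hm
  obtain ⟨ρ, hρ⟩ : ∃ ρ : ℝ, ρ = (Real.sqrt (2 * m))⁻¹ := ⟨_, rfl⟩
  have hs : 1 ≤ Real.sqrt (2 * m) := Real.one_le_sqrt.2 (by linarith)
  have hρ0 : 0 < ρ := by rw [hρ]; positivity
  have hρ1 : ρ ≤ 1 := by rw [hρ]; exact inv_le_one_of_one_le₀ hs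
  have hρ2 : ρ ^ 2 = (2 * m : ℝ)⁻¹ := by
    rw [hρ, inv_pow, Real.sq_sqrt (by positivity)]
  have h := kah_ind (X := X) hm hρ0.le hρ1 (by rw [hρ2, mul_inv_cancel₀ (by positivity)]) n y 0
  simp only [zero_add, norm_smul, Real.norm_of_nonneg hρ0.le, mul_pow] at h
  rw [← Finset.mul_sum] at h
  have h2 : ρ ^ (2 * m) = ((2 * m : ℝ) ^ m)⁻¹ := by rw [pow_mul, hρ2, inv_pow]
  rw [h2] at h
  have hp : (0 : ℝ) < (2 * m : ℝ) ^ m := by positivity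
  have h3 := mul_le_mul_of_nonneg_left h hp.le
  have h4 : ((2 ^ n : ℝ)⁻¹ * ∑ ε : Fin n → Bool, ‖rs y ε‖ ^ 2) ^ m =
      (2 ^ n : ℝ)⁻¹ ^ m * (∑ ε : Fin n → Bool, ‖rs y ε‖ ^ 2) ^ m := mul_pow _ _ _
  rw [h4]
  refine le_trans (le_of_eq ?_) h3
  field_simp

end TH364.SG
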