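import Mathlib
import Pool.Agent.TH364.SG.Gap
import Pool.Agent.TH364.SG.Kah
set_option autoImplicit false
set_option linter.unusedSectionVars false

/-! Quasisymmetric embeddings into the trace class: the key inequality. -/

namespace TH364.SG

open Finset
open Pool.Agent.Results.MP_fd02da_an.SchattenIsometries

universe u v
variable {X : Type u} [NormedAddCommGroup X] [NormedSpace ℝ X]
variable {H : Type v} [NormedAddCommGroup H] [InnerProductSpace ℂ H] [CompleteSpace H]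

/-- the three point condition -/
structure QSym (g : X → SchattenClass 1 H) (η : ℝ → ℝ) : Prop where
  pos : ∀ t, 0 < t → 0 < η t
  mono : ∀ s t, 0 < s → s ≤ t → η s ≤ η t
  inj : Function.Injective g
  three : ∀ x y z : X, x ≠ y → y ≠ z → x ≠ z →
    ‖g x - g y‖ ≤ η (‖x - y‖ / ‖x - z‖) * ‖g x - g z‖

variable {g : X → SchattenClass 1 H} {η : ℝ → ℝ}

theorem QSym.basic (h : QSym g η) {R : ℝ} (hR : 0 < R) {x y z : X} (hxz : x ≠ z)
    (hd : ‖x - y‖ ≤ R * ‖x - z‖) : ‖g x - g y‖ ≤ max (η R) 1 * ‖g x - g z‖ := by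
  have hn : 0 ≤ ‖g x - g z‖ := norm_nonneg _
  have hz : 0 < ‖x - z‖ := norm_pos_iff.2 (sub_ne_zero.2 hxz)
  by_cases hxy : x = y
  · subst hxy
    rw [sub_self, norm_zero]
    have : 0 ≤ max (η R) 1 := le_max_of_le_right zero_le_one
    positivity
  · by_cases hyz : y = z
    · subst hyz
      have := le_max_right (η R) 1
      nlinarith
    · refine (h.three x y z hxy hyz hxz).trans (mul_le_mul_of_nonneg_right ?_ hn)
      have hy : 0 < ‖x - y‖ := norm_pos_iff.2 (sub_ne_zero.2 hxy)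
      refine (h.mono _ R (by positivity) ?_).trans (le_max_left _ _)
      rw [div_le_iff₀ hz]; exact hd

theorem QSym.small (h : QSym g η) {R : ℝ} (hR : 0 < R) (hR1 : R < 1) {x y z : X} (hxz : x ≠ z)
    (hd : ‖x - y‖ ≤ R * ‖x - z‖) : ‖g x - g y‖ ≤ η R * ‖g x - g z‖ := by
  have hn : 0 ≤ ‖g x - g z‖ := norm_nonneg _
  have hz : 0 < ‖x - z‖ := norm_pos_iff.2 (sub_ne_zero.2 hxz)
  have hp := h.pos R hR
  by_cases hxy : x = y
  · subst hxy
    rw [sub_self, norm_zero]
    positivity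
  · by_cases hyz : y = z
    · subst hyz
      exfalso
      nlinarith
    · refine (h.three x y z hxy hyz hxz).trans (mul_le_mul_of_nonneg_right ?_ hn)
      have hy : 0 < ‖x - y‖ := norm_pos_iff.2 (sub_ne_zero.2 hxy)
      refine h.mono _ R (by positivity) ?_
      rw [div_le_iff₀ hz]; exact hd

theorem QSym.doubling (h : QSym g η) {x z : X} (hxz : x ≠ z) (k : ℕ) :
    ‖g x - g (x + (2 : ℝ) ^ k • (z - x))‖ ≤ (max (η 2) 1) ^ k * ‖g x - g z‖ := by
  induction k with
  | zero => simp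
  | succ k ih =>
    have hz : z - x ≠ 0 := sub_ne_zero.2 hxz.symm
    have hne : x ≠ x + (2 : ℝ) ^ k • (z - x) := by
      intro hc
      have : (2 : ℝ) ^ k • (z - x) = 0 := by
        have := hc.symm
        rwa [add_eq_left] at this
      rw [smul_eq_zero] at this
      rcases this with h1 | h1
      · exact absurd h1 (by positivity)
      · exact hz h1
    have hd : ‖x - (x + (2 : ℝ) ^ (k + 1) • (z - x))‖ ≤ 2 * ‖x - (x + (2 : ℝ) ^ k • (z - x))‖ := by
      rw [sub_add_cancel_left, sub_add_cancel_left, norm_neg, norm_neg, norm_smul, norm_smul,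
        Real.norm_of_nonneg (by positivity), Real.norm_of_nonneg (by positivity), pow_succ]
      exact le_of_eq (by ring)
    refine (h.basic (by norm_num : (0 : ℝ) < 2) hne hd).trans ?_
    rw [pow_succ]
    have h1 : 0 ≤ max (η 2) 1 := le_max_of_le_right zero_le_one
    calc max (η 2) 1 * ‖g x - g (x + (2 : ℝ) ^ k • (z - x))‖
        ≤ max (η 2) 1 * ((max (η 2) 1) ^ k * ‖g x - g z‖) := mul_le_mul_of_nonneg_left ih h1
      _ = _ := by ring

theorem QSym.power (h : QSym g η) {x y z : X} (hxz : x ≠ z) (k : ℕ)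
    (hd : ‖x - y‖ ≤ 2 ^ k * ‖x - z‖) :
    ‖g x - g y‖ ≤ max (η 1) 1 * (max (η 2) 1) ^ k * ‖g x - g z‖ := by
  have hz : z - x ≠ 0 := sub_ne_zero.2 hxz.symm
  have hne : x ≠ x + (2 : ℝ) ^ k • (z - x) := by
    intro hc
    have : (2 : ℝ) ^ k • (z - x) = 0 := by
      have := hc.symm
      rwa [add_eq_left] at this
    rw [smul_eq_zero] at this
    rcases this with h1 | h1
    · exact absurd h1 (by positivity)
    · exact hz h1
  have hd2 : ‖x - y‖ ≤ 1 * ‖x - (x + (2 : ℝ) ^ k • (z - x))‖ := by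
    rw [one_mul, sub_add_cancel_left, norm_neg, norm_smul, Real.norm_of_nonneg (by positivity),
      norm_sub_rev z x]
    exact hd
  refine (h.basic one_pos hne hd2).trans ?_
  rw [mul_assoc]
  exact mul_le_mul_of_nonneg_left (h.doubling hxz k) (le_max_of_le_right zero_le_one)

theorem QSym.refl (h : QSym g η) {L : ℝ} (hL : 0 < L) {p w1 w2 : X} (h12 : L ≤ ‖w1 - w2‖)
    (h1 : ‖w1 - p‖ ≤ 4 * L) (h2 : ‖w2 - p‖ ≤ 4 * L) :
    ∃ w, L / 2 ≤ ‖p - w‖ ∧ ‖g p - g w‖ ≤ max (η 4) 1 * ‖g w1 - g w2‖ := by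
  have hne : w1 ≠ w2 := by
    rintro rfl
    rw [sub_self, norm_zero] at h12
    linarith
  have h3 : L ≤ ‖w1 - p‖ + ‖w2 - p‖ := by
    have e : w1 - w2 = (w1 - p) - (w2 - p) := by abel
    rw [e] at h12
    exact h12.trans (norm_sub_le _ _)
  rcases le_or_gt (L / 2) ‖w1 - p‖ with hc | hc
  · refine ⟨w1, by rw [norm_sub_rev]; exact hc, ?_⟩
    rw [norm_sub_rev (g p)]
    exact h.basic (by norm_num : (0 : ℝ) < 4) hne (by linarith)
  · refine ⟨w2, by rw [norm_sub_rev]; linarith, ?_⟩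
    rw [norm_sub_rev (g p), norm_sub_rev (g w1)]
    refine h.basic (by norm_num : (0 : ℝ) < 4) hne.symm ?_
    rw [norm_sub_rev w2 w1]
    linarith

section torus
variable (l : ℕ) [NeZero l] {n : ℕ}

/-- antipodal differences -/
noncomputable def Rj (g : X → SchattenClass 1 H) (y : Fin n → X) (j : Fin n)
    (x : Fin n → ZMod (4 * l)) : ℝ := ‖g (psi l y (x + (2 * l) • ev l n j)) - g (psi l y x)‖

/-- symmetrised antipodal differences -/
noncomputable def Ref (g : X → SchattenClass 1 H) (y : Fin n → X) (j : Fin n)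
    (x : Fin n → ZMod (4 * l)) : ℝ := Rj l g y j x + Rj l g y j (x + l • ev l n j)

theorem Rj_nonneg (g : X → SchattenClass 1 H) (y : Fin n → X) (j : Fin n)
    (x : Fin n → ZMod (4 * l)) : 0 ≤ Rj l g y j x := norm_nonneg _

theorem Ref_nonneg (g : X → SchattenClass 1 H) (y : Fin n → X) (j : Fin n)
    (x : Fin n → ZMod (4 * l)) : 0 ≤ Ref l g y j x := add_nonneg (norm_nonneg _) (norm_nonneg _)

theorem Ref_sum (g : X → SchattenClass 1 H) (y : Fin n → X) (j : Fin n) :
    ∑ x, Ref l g y j x = 2 * ∑ x, Rj l g y j x := by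
  unfold Ref
  rw [Finset.sum_add_distrib]
  have : ∑ x : Fin n → ZMod (4 * l), Rj l g y j (x + l • ev l n j) = ∑ x, Rj l g y j x :=
    Equiv.sum_comp (Equiv.addRight (l • ev l n j)) (fun x => Rj l g y j x)
  rw [this]; ring

theorem psi_coord (y : Fin n → X) (hy : ∀ j, ‖y j‖ ≤ 1) (x : Fin n → ZMod (4 * l)) (j : Fin n)
    (k : ℕ) : ‖psi l y (x + k • ev l n j) - psi l y x‖ ≤ 2 * l := by
  have h1 : psi l y (x + k • ev l n j) - psi l y x =
      ((fo l (x j + (k : ZMod (4 * l))) : ℝ) - fo l (x j)) • y j := by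
    unfold psi
    rw [← Finset.sum_sub_distrib, Finset.sum_eq_single j]
    · rw [← sub_smul]
      congr 3
      simp [ev]
    · intro i _ hi
      have e : (x + k • ev l n j) i = x i := by
        simp [ev, hi]
      rw [e, sub_self]
    · intro h; exact absurd (Finset.mem_univ j) h
  rw [h1, norm_smul, Real.norm_eq_abs]
  have h2 : |(fo l (x j + (k : ZMod (4 * l))) : ℝ) - fo l (x j)| ≤ 2 * l := by
    have a1 : (fo l (x j + (k : ZMod (4 * l))) : ℝ) ≤ 2 * l := by exact_mod_cast fo_le l _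
    have a2 : (fo l (x j) : ℝ) ≤ 2 * l := by exact_mod_cast fo_le l (x j)
    have a3 : (0 : ℝ) ≤ fo l (x j) := Nat.cast_nonneg _
    have a4 : (0 : ℝ) ≤ fo l (x j + (k : ZMod (4 * l))) := Nat.cast_nonneg _
    rw [abs_le]; constructor <;> linarith
  calc _ ≤ (2 * l : ℝ) * 1 := mul_le_mul h2 (hy j) (norm_nonneg _) (by positivity)
    _ = _ := mul_one _

theorem QSym.center (h : QSym g η) {y : Fin n → X} (hy : ∀ j, 1 / 2 < ‖y j‖ ∧ ‖y j‖ ≤ 1)
    (x : Fin n → ZMod (4 * l)) (j : Fin n) :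
    ∃ w, (l : ℝ) / 4 ≤ ‖psi l y x - w‖ ∧ ‖g (psi l y x) - g w‖ ≤ max (η 4) 1 * Ref l g y j x := by
  have hl : (0 : ℝ) < l := by
    have : 0 < l := Nat.pos_of_ne_zero (NeZero.ne l)
    exact_mod_cast this
  have hm : 0 ≤ max (η 4) 1 := le_max_of_le_right zero_le_one
  have key : ∀ (i : ℕ), (l : ℝ) ≤ ad l ((x + i • ev l n j) j) →
      ∃ w, (l : ℝ) / 4 ≤ ‖psi l y x - w‖ ∧
        ‖g (psi l y x) - g w‖ ≤ max (η 4) 1 * Rj l g y j (x + i • ev l n j) := by
    intro i hi
    have h1 := psi_far l y (x + i • ev l n j) j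
    have h2 : (l : ℝ) / 2 ≤ ‖psi l y (x + i • ev l n j + (2 * l) • ev l n j) -
        psi l y (x + i • ev l n j)‖ := by
      rw [h1]
      have := mul_le_mul hi (hy j).1.le (by norm_num) (by linarith)
      linarith
    have h3 : ‖psi l y (x + i • ev l n j) - psi l y x‖ ≤ 4 * ((l : ℝ) / 2) := by
      have := psi_coord l y (fun j => (hy j).2) x j i
      linarith
    have h4 : ‖psi l y (x + i • ev l n j + (2 * l) • ev l n j) - psi l y x‖ ≤ 4 * ((l : ℝ) / 2) := by
      have := psi_coord l y (fun j => (hy j).2) x j (i + 2 * l)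
      rw [add_smul, ← add_assoc] at this
      linarith
    obtain ⟨w, hw1, hw2⟩ := h.refl (by positivity) h2 h4 h3
    exact ⟨w, by linarith, hw2⟩
  have hp := ad_pair l (x j)
  rcases le_or_gt (l : ℝ) (ad l (x j)) with hc | hc
  · obtain ⟨w, hw1, hw2⟩ := key 0 (by simpa using hc)
    refine ⟨w, hw1, hw2.trans (mul_le_mul_of_nonneg_left ?_ hm)⟩
    rw [zero_smul, add_zero]
    unfold Ref
    have := Rj_nonneg l g y j (x + l • ev l n j)
    linarith
  · obtain ⟨w, hw1, hw2⟩ := key l (by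
      have e : (x + l • ev l n j) j = x j + (l : ZMod (4 * l)) := by simp [ev]
      rw [e]; linarith)
    refine ⟨w, hw1, hw2.trans (mul_le_mul_of_nonneg_left ?_ hm)⟩
    unfold Ref
    have := Rj_nonneg l g y j x
    linarith

theorem QSym.good (h : QSym g η) {y : Fin n → X} (hy : ∀ j, 1 / 2 < ‖y j‖ ∧ ‖y j‖ ≤ 1)
    (x : Fin n → ZMod (4 * l)) (j : Fin n) {δ : ℝ} (hδ0 : 0 < δ) (hδ1 : 4 * δ < 1) {v : X}
    (hv : ‖v - psi l y x‖ ≤ δ * l) :
    ‖g v - g (psi l y x)‖ ≤ η (4 * δ) * max (η 4) 1 * Ref l g y j x := by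
  have hl : (0 : ℝ) < l := by
    have : 0 < l := Nat.pos_of_ne_zero (NeZero.ne l)
    exact_mod_cast this
  obtain ⟨w, hw1, hw2⟩ := h.center l hy x j
  have hne : psi l y x ≠ w := by
    rintro rfl
    rw [sub_self, norm_zero] at hw1
    linarith
  rw [norm_sub_rev]
  refine (h.small (by positivity) hδ1 hne (y := v) ?_).trans ?_
  · rw [norm_sub_rev]
    refine hv.trans ?_
    nlinarith
  · rw [mul_assoc]
    exact mul_le_mul_of_nonneg_left hw2 (h.pos _ (by positivity)).le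

theorem QSym.any (h : QSym g η) {y : Fin n → X} (hy : ∀ j, 1 / 2 < ‖y j‖ ∧ ‖y j‖ ≤ 1)
    (x : Fin n → ZMod (4 * l)) (j : Fin n) {k : ℕ} (hk : 8 * (n : ℝ) ≤ 2 ^ k) {v : X}
    (hv : ‖v - psi l y x‖ ≤ 2 * l * n) :
    ‖g v - g (psi l y x)‖ ≤ max (η 1) 1 * (max (η 2) 1) ^ k * max (η 4) 1 * Ref l g y j x := by
  have hl : (0 : ℝ) < l := by
    have : 0 < l := Nat.pos_of_ne_zero (NeZero.ne l)
    exact_mod_cast this
  obtain ⟨w, hw1, hw2⟩ := h.center l hy x j
  have hne : psi l y x ≠ w := by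
    rintro rfl
    rw [sub_self, norm_zero] at hw1
    linarith
  rw [norm_sub_rev]
  refine (h.power hne k (y := v) ?_).trans ?_
  · rw [norm_sub_rev]
    refine hv.trans ?_
    have h1 : (8 * (n : ℝ)) * (l / 4) ≤ 2 ^ k * ‖psi l y x - w‖ :=
      mul_le_mul hk hw1 (by positivity) (by positivity)
    nlinarith
  · rw [mul_assoc (max (η 1) 1 * (max (η 2) 1) ^ k)]
    refine mul_le_mul_of_nonneg_left hw2 ?_
    have := le_max_right (η 1) 1
    have := le_max_right (η 2) 1
    positivity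

end torus

end TH364.SG
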