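import Mathlib
import Pool.Agent.TH364.SG.QS
set_option autoImplicit false
set_option linter.unusedSectionVars false

/-! Quasisymmetric embeddings into the trace class: the torus argument. -/

namespace TH364.SG

open Finset
open Pool.Agent.Results.MP_fd02da_an.SchattenIsometries

universe u v
variable {X : Type u} [NormedAddCommGroup X] [NormedSpace ℝ X]
variable {H : Type v} [NormedAddCommGroup H] [InnerProductSpace ℂ H] [CompleteSpace H]
variable {g : X → SchattenClass 1 H} {η : ℝ → ℝ}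

/-- indicator of large Rademacher sums -/
noncomputable def ind {n : ℕ} (y : Fin n → X) (t : ℝ) (θ : Fin n → Bool) : ℝ :=
  if ‖rs y θ‖ ≤ t then 0 else 1

theorem ind_nonneg {n : ℕ} (y : Fin n → X) (t : ℝ) (θ : Fin n → Bool) : 0 ≤ ind y t θ := by
  unfold ind; split_ifs <;> norm_num

variable (l : ℕ) [NeZero l] {n : ℕ}

theorem QSym.step (h : QSym g η) {y : Fin n → X} (hy : ∀ j, 1 / 2 < ‖y j‖ ∧ ‖y j‖ ≤ 1)
    {δ : ℝ} (hδ0 : 0 < δ) (hδ1 : 4 * δ < 1) {k : ℕ} (hk : 8 * (n : ℝ) ≤ 2 ^ k) {K κ : ℝ}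
    (hK : K = max (η 1) 1 * (max (η 2) 1) ^ k * max (η 4) 1)
    (hκ : κ = η (4 * δ) * max (η 4) 1) (x : Fin n → ZMod (4 * l)) (j : Fin n) {v : X}
    (hv : ‖v - psi l y x‖ ≤ 2 * l * n) {i : ℝ} (hi0 : 0 ≤ i)
    (hi : ‖v - psi l y x‖ ≤ δ * l ∨ i = 1) :
    ‖g v - g (psi l y x)‖ ≤ κ * Ref l g y j x + i * (K * Ref l g y j x) := by
  have hR := Ref_nonneg l g y j x
  have hK0 : 0 ≤ K := by
    rw [hK]
    have := le_max_right (η 1) 1
    have := le_max_right (η 2) 1
    have := le_max_right (η 4) 1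
    positivity
  have hκ0 : 0 ≤ κ := by
    rw [hκ]
    have := le_max_right (η 4) 1
    have := h.pos (4 * δ) (by positivity)
    positivity
  rcases hi with hi | hi
  · have h1 := h.good l hy x j hδ0 hδ1 hi
    rw [← hκ] at h1
    have : 0 ≤ i * (K * Ref l g y j x) := by positivity
    linarith
  · have h1 := h.any l hy x j hk hv
    rw [← hK] at h1
    rw [hi]
    have : 0 ≤ κ * Ref l g y j x := by positivity
    linarith

theorem QSym.key (h : QSym g η) (r : ℕ) (hn : 1 ≤ n) {y : Fin n → X}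
    (hy : ∀ j, 1 / 2 < ‖y j‖ ∧ ‖y j‖ ≤ 1)
    {δ : ℝ} (hδ0 : 0 < δ) (hδ1 : 4 * δ < 1) {k : ℕ} (hk : 8 * (n : ℝ) ≤ 2 ^ k) {K κ p : ℝ}
    (hK : K = max (η 1) 1 * (max (η 2) 1) ^ k * max (η 4) 1)
    (hκ : κ = η (4 * δ) * max (η 4) 1) (hp0 : 0 ≤ p)
    (hp : ∑ θ : Fin n → Bool, ind y (δ * l - 1) θ ≤ 2 ^ n * p) :
    (n : ℝ) ≤ 256 * (n + l * Cn r n) *
      ((2 * K) ^ ((((2 ^ (r + 1) : ℕ) : ℝ))⁻¹) * (2 * κ + 8 * K ^ 2 * p) ^ be r) := by
  classical
  have hK0 : 0 < K := by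
    rw [hK]
    have := le_max_right (η 1) 1
    have := le_max_right (η 2) 1
    have := le_max_right (η 4) 1
    positivity
  have hκ0 : 0 ≤ κ := by
    rw [hκ]
    have := le_max_right (η 4) 1
    have := h.pos (4 * δ) (by positivity)
    positivity
  have hn0 : (0 : ℝ) < n := by exact_mod_cast hn
  have hl : (0 : ℝ) < l := by
    have : 0 < l := Nat.pos_of_ne_zero (NeZero.ne l)
    exact_mod_cast this
  obtain ⟨G, hG⟩ : ∃ G : ℝ, G = (Fintype.card (Fin n → ZMod (4 * l)) : ℝ) := ⟨_, rfl⟩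
  have hG0 : 0 < G := by
    have : 0 < Fintype.card (Fin n → ZMod (4 * l)) := Fintype.card_pos
    rw [hG]; exact_mod_cast this
  obtain ⟨S, hS⟩ : ∃ S : Fin n → ℝ, S = fun j => ∑ x, Rj l g y j x := ⟨_, rfl⟩
  have hS0 : ∀ j, 0 ≤ S j := by
    intro j; rw [hS]; exact Finset.sum_nonneg fun x _ => Rj_nonneg l g y j x
  obtain ⟨tot, htot⟩ : ∃ tot : ℝ, tot = ∑ j, S j := ⟨_, rfl⟩
  have hRsum : ∀ j, ∑ x, Ref l g y j x = 2 * S j := by
    intro j; rw [hS]; exact Ref_sum l g y j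
  -- comparison of different base points
  have c1 : ∀ x x0 (j : Fin n), Rj l g y j x ≤ 2 * K * Ref l g y j x0 := by
    intro x x0 j
    have a1 := h.any l hy x0 j hk (v := psi l y (x + (2 * l) • ev l n j))
      (psi_diam l y (fun j => (hy j).2) _ _)
    have a2 := h.any l hy x0 j hk (v := psi l y x) (psi_diam l y (fun j => (hy j).2) _ _)
    rw [← hK] at a1 a2
    have e : g (psi l y (x + (2 * l) • ev l n j)) - g (psi l y x) =
        (g (psi l y (x + (2 * l) • ev l n j)) - g (psi l y x0)) -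
          (g (psi l y x) - g (psi l y x0)) := by abel
    unfold Rj
    rw [e]
    refine (norm_sub_le _ _).trans ?_
    linarith
  have c2 : ∀ x (j : Fin n), Ref l g y j x ≤ 8 * K * (S j / G) := by
    intro x j
    have a1 : ∀ x0, Ref l g y j x ≤ 4 * K * Ref l g y j x0 := by
      intro x0
      unfold Ref
      have b1 := c1 x x0 j
      have b2 := c1 (x + l • ev l n j) x0 j
      unfold Ref at b1 b2
      linarith
    have a2 : ∑ _x0 : Fin n → ZMod (4 * l), Ref l g y j x ≤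
        ∑ x0, 4 * K * Ref l g y j x0 := Finset.sum_le_sum fun x0 _ => a1 x0
    rw [Finset.sum_const, Finset.card_univ, nsmul_eq_mul, ← Finset.mul_sum, hRsum, ← hG] at a2
    rw [← mul_div_assoc, le_div_iff₀ hG0]
    linarith
  -- averages of steps
  have st : ∀ (j : Fin n) (Vv : (Fin n → ZMod (4 * l)) → (Fin n → Bool) → X),
      (∀ x ε, ‖Vv x ε - psi l y x‖ ≤ 2 * l * n) →
      (∀ x ε, ‖rs y (fun i => dl l (x i) (ε i))‖ ≤ δ * l - 1 → ‖Vv x ε - psi l y x‖ ≤ δ * l) →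
      ∑ x, ∑ ε, ‖g (Vv x ε) - g (psi l y x)‖ ≤ S j * 2 ^ n * (2 * κ + 8 * K ^ 2 * p) := by
    intro j Vv h1 h2
    have b1 : ∀ x ε, ‖g (Vv x ε) - g (psi l y x)‖ ≤ κ * Ref l g y j x +
        (8 * K ^ 2 * (S j / G)) * ind y (δ * l - 1) (fun i => dl l (x i) (ε i)) := by
      intro x ε
      have b2 := h.step l hy hδ0 hδ1 hk hK hκ x j (h1 x ε)
        (ind_nonneg y (δ * l - 1) (fun i => dl l (x i) (ε i)))
        (by
          by_cases hc : ‖rs y (fun i => dl l (x i) (ε i))‖ ≤ δ * l - 1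
          · left; exact h2 x ε hc
          · right; unfold ind; rw [if_neg hc])
      refine b2.trans (add_le_add le_rfl ?_)
      rw [mul_comm]
      refine mul_le_mul_of_nonneg_right ?_ (ind_nonneg _ _ _)
      have := mul_le_mul_of_nonneg_left (c2 x j) hK0.le
      calc K * Ref l g y j x ≤ K * (8 * K * (S j / G)) := this
        _ = _ := by ring
    refine (Finset.sum_le_sum fun x _ => Finset.sum_le_sum fun ε _ => b1 x ε).trans ?_
    simp only [Finset.sum_add_distrib, ← Finset.mul_sum]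
    have b3 : κ * ∑ x : Fin n → ZMod (4 * l), ∑ _ε : Fin n → Bool, Ref l g y j x =
        2 ^ n * (κ * (2 * S j)) := by
      have b7 : ∑ x : Fin n → ZMod (4 * l), ∑ _ε : Fin n → Bool, Ref l g y j x =
          2 ^ n * (2 * S j) := by
        simp only [Finset.sum_const, Finset.card_univ, nsmul_eq_mul, ← Finset.mul_sum, hRsum]
        rw [Fintype.card_fun, Fintype.card_bool, Fintype.card_fin]
        push_cast; rfl
      rw [b7]; ring
    have b4 := sum_dl l (n := n) (fun θ => ind y (δ * l - 1) θ)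
    rw [b3, b4, ← hG]
    have b5 : 8 * K ^ 2 * (S j / G) * (G * ∑ θ : Fin n → Bool, ind y (δ * l - 1) θ) ≤
        8 * K ^ 2 * (S j / G) * (G * (2 ^ n * p)) := by
      have := hS0 j
      exact mul_le_mul_of_nonneg_left (mul_le_mul_of_nonneg_left hp hG0.le) (by positivity)
    have b6 : 8 * K ^ 2 * (S j / G) * (G * (2 ^ n * p)) = 8 * K ^ 2 * S j * (2 ^ n * p) := by
      field_simp
    rw [b6] at b5
    linarith
  obtain ⟨κ', hκ'⟩ : ∃ κ', κ' = 2 * κ + 8 * K ^ 2 * p := ⟨_, rfl⟩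
  have hκ'0 : 0 ≤ κ' := by rw [hκ']; positivity
  rw [← hκ'] at st ⊢
  obtain ⟨F, hF⟩ : ∃ F : (Fin n → ZMod (4 * l)) → SchattenClass 1 H, F = fun x => g (psi l y x) :=
    ⟨_, rfl⟩
  have s0 : ∀ j : Fin n, ∑ x, ∑ ε : Fin n → Bool, ‖F (x + sft (ev l n) ε) - F x‖ ≤
      S j * 2 ^ n * κ' := by
    intro j
    rw [hF]
    refine st j (fun x ε => psi l y (x + sft (ev l n) ε)) (fun x ε => psi_diam l y (fun j => (hy j).2) _ _) ?_
    intro x ε hx
    rw [psi_sft]
    linarith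
  have s1 : ∀ j : Fin n, ∑ x, ∑ ε : Fin n → Bool, ‖F (x + sfj (ev l n) j ε) - F x‖ ≤
      S j * 2 ^ n * κ' := by
    intro j
    rw [hF]
    refine st j (fun x ε => psi l y (x + sfj (ev l n) j ε))
      (fun x ε => psi_diam l y (fun j => (hy j).2) _ _) ?_
    intro x ε hx
    rw [psi_sfj]
    refine (norm_sub_le _ _).trans ?_
    have h3 : ‖sg (dl l (x j) (ε j)) • y j‖ ≤ 1 := by
      rw [norm_smul]
      have : ‖sg (dl l (x j) (ε j))‖ = 1 := by cases dl l (x j) (ε j) <;> simp [sg]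
      rw [this, one_mul]
      exact (hy j).2
    linarith
  have s2 : ∀ j : Fin n, ∑ x, ‖F x - F 0‖ ≤ 2 * K * S j := by
    intro j
    have h1 : ∀ x, ‖F x - F 0‖ ≤ K * Ref l g y j x := by
      intro x
      have a1 := h.any l hy x j hk (v := psi l y 0) (psi_diam l y (fun j => (hy j).2) _ _)
      rw [← hK] at a1
      rw [hF, norm_sub_rev]
      exact a1
    refine (Finset.sum_le_sum fun x _ => h1 x).trans ?_
    rw [← Finset.mul_sum, hRsum]
    linarith
  -- the total is positive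
  have htotp : 0 < tot := by
    have j0 : Fin n := ⟨0, hn⟩
    have h1 : 0 < Rj l g y j0 0 := by
      unfold Rj
      rw [norm_pos_iff, sub_ne_zero]
      intro hc
      have h2 := h.inj hc
      have h3 := psi_far l y 0 j0
      rw [h2, sub_self, norm_zero] at h3
      have h4 : ad l ((0 : Fin n → ZMod (4 * l)) j0) = 2 * l := by
        unfold ad fo
        simp
      rw [h4] at h3
      have h5 := (hy j0).1
      have : 0 < 2 * (l : ℝ) * ‖y j0‖ := by positivity
      linarith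
    have h2 : Rj l g y j0 0 ≤ S j0 := by
      rw [hS]
      exact Finset.single_le_sum (f := fun x => Rj l g y j0 x) (fun x _ => Rj_nonneg l g y j0 x)
        (Finset.mem_univ 0)
    have h3 : S j0 ≤ tot := by
      rw [htot]
      exact Finset.single_le_sum (f := fun j => S j) (fun j _ => hS0 j) (Finset.mem_univ j0)
    linarith
  obtain ⟨V, hV⟩ : ∃ V, V = tot / (n * G) := ⟨_, rfl⟩
  have hVp : 0 < V := by rw [hV]; positivity
  have htV : tot = n * G * V := by rw [hV]; field_simp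
  have nsum : ∀ (A : ℝ) (c : ℝ), (∀ j : Fin n, A ≤ S j * c) → n * A ≤ tot * c := by
    intro A c hA
    have := Finset.sum_le_sum (fun (j : Fin n) (_ : j ∈ Finset.univ) => hA j)
    rw [Finset.sum_const, Finset.card_univ, Fintype.card_fin, nsmul_eq_mul, ← Finset.sum_mul,
      ← htot] at this
    exact this
  have hM : ∑ x, ‖F x - F 0‖ ≤ (Fintype.card (Fin n → ZMod (4 * l)) : ℝ) * (2 * K * V) := by
    rw [← hG]
    have h1 := nsum (∑ x, ‖F x - F 0‖) (2 * K) (fun j => (s2 j).trans_eq (by ring))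
    rw [htV] at h1
    have h2 : (n : ℝ) * ∑ x, ‖F x - F 0‖ ≤ n * (G * (2 * K * V)) := h1.trans_eq (by ring)
    exact le_of_mul_le_mul_left h2 hn0
  have hb0 : ∑ x, ∑ ε : Fin n → Bool, ‖F (x + sft (ev l n) ε) - F x‖ ≤
      (Fintype.card (Fin n → ZMod (4 * l)) : ℝ) * 2 ^ (Fintype.card (Fin n)) * (κ' * V) := by
    rw [← hG, Fintype.card_fin]
    have h1 := nsum _ (2 ^ n * κ') (fun j => (s0 j).trans_eq (by ring))
    rw [htV] at h1
    have h2 : (n : ℝ) * ∑ x, ∑ ε : Fin n → Bool, ‖F (x + sft (ev l n) ε) - F x‖ ≤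
      n * (G * 2 ^ n * (κ' * V)) := h1.trans_eq (by ring)
    exact le_of_mul_le_mul_left h2 hn0
  have hb1 : ∑ x, ∑ j, ∑ ε : Fin n → Bool, ‖F (x + sfj (ev l n) j ε) - F x‖ ≤
      (Fintype.card (Fin n → ZMod (4 * l)) : ℝ) * Fintype.card (Fin n) *
        2 ^ (Fintype.card (Fin n)) * (κ' * V) := by
    rw [← hG, Fintype.card_fin, Finset.sum_comm]
    refine (Finset.sum_le_sum fun j _ => s1 j).trans (le_of_eq ?_)
    rw [← Finset.sum_mul, ← Finset.sum_mul, ← htot, htV]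
    ring
  have hT := torus2 (e := ev l n) r l F (M := 2 * K * V) (b := κ' * V) (by positivity)
    (by positivity) hM hb0 hb1
  rw [Fintype.card_fin, ← hG] at hT
  have hL : ∑ x, ∑ j, ‖F (x + (2 * l) • ev l n j) - F x‖ = tot := by
    rw [htot, hS, Finset.sum_comm, hF]
    rfl
  rw [hL, htV] at hT
  obtain ⟨P, hP⟩ : ∃ P, P = ((2 ^ (r + 1) : ℕ) : ℝ) := ⟨_, rfl⟩
  rw [← hP] at hT ⊢
  have hbe : P⁻¹ + be r = 1 := by unfold be; rw [← hP]; ring
  have e1 : (2 * K * V) ^ P⁻¹ * (κ' * V) ^ be r = ((2 * K) ^ P⁻¹ * κ' ^ be r) * V := by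
    rw [Real.mul_rpow (by positivity) hVp.le, Real.mul_rpow hκ'0 hVp.le]
    calc _ = ((2 * K) ^ P⁻¹ * κ' ^ be r) * (V ^ P⁻¹ * V ^ be r) := by ring
      _ = _ := by rw [← Real.rpow_add hVp, hbe, Real.rpow_one]
  rw [e1] at hT
  have hfin : (G * V) * n ≤ (G * V) * (256 * (n + l * Cn r n) * ((2 * K) ^ P⁻¹ * κ' ^ be r)) := by
    refine le_trans (le_of_eq (by ring)) (hT.trans (le_of_eq ?_))
    ring
  exact le_of_mul_le_mul_left hfin (by positivity)

end TH364.SG
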