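import Mathlib
import Pool.Agent.TH364.SG.QS2
set_option autoImplicit false
set_option linter.unusedSectionVars false

/-! Quasisymmetric embeddings into the trace class: the final estimate. -/

namespace TH364.SG

open Finset
open Pool.Agent.Results.MP_fd02da_an.SchattenIsometries

universe u v
variable {X : Type u} [NormedAddCommGroup X] [NormedSpace ℝ X]
variable {H : Type v} [NormedAddCommGroup H] [InnerProductSpace ℂ H] [CompleteSpace H]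
variable {g : X → SchattenClass 1 H} {η : ℝ → ℝ}

theorem choose_r2 {c0 : ℝ} (hc : 0 < c0) (hc2 : c0 ≤ 1 / 2) : ∃ N : ℕ, ∀ n : ℕ, N ≤ n →
    ∃ r : ℕ, (n : ℝ) ≤ wr r ∧ 6 * ((2 ^ (r + 1) : ℕ) : ℝ) ≤ n ∧
      6 * ((2 ^ (r + 1) : ℕ) : ℝ) ≤ 24 / c0 * (n : ℝ) ^ c0 ∧
      (2 : ℝ) ^ (2 ^ (r + 1)) ≤ (n : ℝ) ^ 2 := by
  obtain ⟨A0, hA0⟩ : ∃ A0 : ℝ, A0 = 24 / c0 := ⟨_, rfl⟩
  have hA0p : 0 < A0 := by rw [hA0]; positivity
  obtain ⟨N, hN⟩ := exists_nat_gt (A0 ^ (1 / c0))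
  refine ⟨N + 2, fun n hn => ⟨Nat.log 2 (Nat.log 2 n), ?_, ?_⟩⟩
  · have h1 : Nat.log 2 n < 2 ^ (Nat.log 2 (Nat.log 2 n) + 1) := Nat.lt_pow_succ_log_self (by norm_num) _
    have h2 : n < 2 ^ (Nat.log 2 n + 1) := Nat.lt_pow_succ_log_self (by norm_num) _
    have h3 : n ≤ 2 ^ (2 ^ (Nat.log 2 (Nat.log 2 n) + 1)) :=
      h2.le.trans (Nat.pow_le_pow_right (by norm_num) h1)
    unfold wr
    exact_mod_cast h3
  · obtain ⟨r, hr⟩ : ∃ r, r = Nat.log 2 (Nat.log 2 n) := ⟨_, rfl⟩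
    rw [← hr]
    have hn2 : 2 ≤ n := by omega
    have hn0 : (1 : ℝ) ≤ n := by exact_mod_cast (by omega : 1 ≤ n)
    have hlog : Nat.log 2 n ≠ 0 := by
      have := Nat.log_pos (b := 2) (by norm_num) hn2
      omega
    have h1 : 2 ^ r ≤ Nat.log 2 n := by rw [hr]; exact Nat.pow_log_le_self 2 hlog
    have h2 : ((Nat.log 2 n : ℕ) : ℝ) ≤ 2 * Real.log n := by
      have h3 : (2 : ℝ) ^ (Nat.log 2 n) ≤ n := by
        exact_mod_cast Nat.pow_log_le_self 2 (by omega : n ≠ 0)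
      have h4 := Real.log_le_log (by positivity) h3
      rw [Real.log_pow] at h4
      have h5 : (1 / 2 : ℝ) ≤ Real.log 2 := by have := Real.log_two_gt_d9; linarith
      have h6 : (0 : ℝ) ≤ (Nat.log 2 n : ℕ) := Nat.cast_nonneg _
      nlinarith
    obtain ⟨a, ha⟩ : ∃ a : ℝ, a = (n : ℝ) ^ c0 := ⟨_, rfl⟩
    have h7 : Real.log n ≤ a / c0 := by rw [ha]; exact Real.log_le_rpow_div (by linarith) hc
    obtain ⟨P, hP⟩ : ∃ P, P = ((2 ^ (r + 1) : ℕ) : ℝ) := ⟨_, rfl⟩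
    have h8 : P ≤ 4 * (a / c0) := by
      have h9 : P = 2 * ((2 ^ r : ℕ) : ℝ) := by rw [hP]; push_cast; ring
      have h10 : ((2 ^ r : ℕ) : ℝ) ≤ ((Nat.log 2 n : ℕ) : ℝ) := by exact_mod_cast h1
      rw [h9]; linarith
    have haA : A0 ≤ a := by
      have h9 : A0 ^ (1 / c0) ≤ n := by
        have : (N : ℝ) ≤ n := by exact_mod_cast (by omega : N ≤ n)
        linarith
      have h10 := Real.rpow_le_rpow (by positivity) h9 hc.le
      rw [← Real.rpow_mul hA0p.le, one_div, inv_mul_cancel₀ hc.ne', Real.rpow_one] at h10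
      rw [ha]; exact h10
    have ha0 : 0 < a := by linarith
    have haa : a * a ≤ n := by
      rw [ha, ← Real.rpow_add (by linarith)]
      calc (n : ℝ) ^ (c0 + c0) ≤ (n : ℝ) ^ (1 : ℝ) :=
            Real.rpow_le_rpow_of_exponent_le hn0 (by linarith)
        _ = n := Real.rpow_one _
    have h6P : 6 * P ≤ 24 / c0 * a := by
      have e : 24 / c0 * a = 6 * (4 * (a / c0)) := by ring
      rw [e]; linarith
    rw [← hP, ← ha]
    refine ⟨?_, h6P, ?_⟩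
    · have : 24 / c0 * a ≤ a * a := by
        rw [← hA0]
        exact mul_le_mul_of_nonneg_right haA ha0.le
      linarith
    · have h11 : 2 ^ (2 ^ (r + 1)) ≤ n ^ 2 := by
        calc 2 ^ (2 ^ (r + 1)) = (2 ^ (2 ^ r)) ^ 2 := by rw [← pow_mul, pow_succ]
          _ ≤ (2 ^ (Nat.log 2 n)) ^ 2 :=
            Nat.pow_le_pow_left (Nat.pow_le_pow_right (by norm_num) h1) 2
          _ ≤ n ^ 2 := Nat.pow_le_pow_left (Nat.pow_log_le_self 2 (by omega)) 2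
      exact_mod_cast h11

/-- second moment from the q-th moment -/
theorem second_moment {q q' : ℝ} (hq : 2 ≤ q) (hq' : 0 < q') {n : ℕ} (y : Fin n → X)
    (hr : rav q y ≤ (n : ℝ) ^ (q / q')) :
    (2 ^ n : ℝ)⁻¹ * ∑ θ : Fin n → Bool, ‖rs y θ‖ ^ 2 ≤ (n : ℝ) ^ (2 / q') := by
  obtain ⟨A, hA⟩ : ∃ A, A = (2 ^ n : ℝ)⁻¹ * ∑ θ : Fin n → Bool, ‖rs y θ‖ ^ 2 := ⟨_, rfl⟩
  have hA0 : 0 ≤ A := by rw [hA]; positivity
  have h1 := Real.rpow_arith_mean_le_arith_mean_rpow (Finset.univ : Finset (Fin n → Bool))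
    (fun _ => (2 ^ n : ℝ)⁻¹) (fun θ => ‖rs y θ‖ ^ 2) (fun _ _ => by positivity)
    (by
      rw [Finset.sum_const, Finset.card_univ, Fintype.card_fun, Fintype.card_bool, Fintype.card_fin,
        nsmul_eq_mul]
      push_cast
      exact mul_inv_cancel₀ (by positivity)) (fun _ _ => by positivity)
    (p := q / 2) (by linarith)
  rw [← Finset.mul_sum, ← Finset.mul_sum, ← hA] at h1
  have h2 : (2 ^ n : ℝ)⁻¹ * ∑ θ : Fin n → Bool, (‖rs y θ‖ ^ 2) ^ (q / 2) = rav q y := by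
    unfold rav
    rw [Fintype.card_fin]
    congr 1
    refine Finset.sum_congr rfl fun θ _ => ?_
    rw [← Real.rpow_natCast, ← Real.rpow_mul (norm_nonneg _)]
    congr 1
    push_cast
    ring
  rw [h2] at h1
  have h3 := h1.trans hr
  have h4 := Real.rpow_le_rpow (Real.rpow_nonneg hA0 _) h3 (show (0 : ℝ) ≤ 2 / q by positivity)
  rw [← Real.rpow_mul hA0, ← Real.rpow_mul (Nat.cast_nonneg n)] at h4
  have e1 : q / 2 * (2 / q) = 1 := by field_simp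
  have e2 : q / q' * (2 / q) = 2 / q' := by field_simp
  rw [e1, e2, Real.rpow_one] at h4
  rw [← hA]
  exact h4

/-- Markov with the 2m-th moment -/
theorem markov {m : ℕ} (hm : 1 ≤ m) {n : ℕ} (y : Fin n → X) {t τ Q : ℝ} (hτ : 0 < τ) (hτt : τ ≤ t)
    (hQ : (2 ^ n : ℝ)⁻¹ * ∑ θ : Fin n → Bool, ‖rs y θ‖ ^ 2 ≤ Q) :
    ∑ θ : Fin n → Bool, ind y t θ ≤ 2 ^ n * (2 * m * Q / τ ^ 2) ^ m := by
  have h1 : ∀ θ : Fin n → Bool, ind y t θ ≤ (τ ^ (2 * m))⁻¹ * ‖rs y θ‖ ^ (2 * m) := by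
    intro θ
    unfold ind
    split_ifs with hc
    · positivity
    · push Not at hc
      have h2 : τ ^ (2 * m) ≤ ‖rs y θ‖ ^ (2 * m) :=
        pow_le_pow_left₀ hτ.le (by linarith) _
      rw [inv_mul_eq_div, le_div_iff₀ (by positivity), one_mul]
      exact h2
  have h3 := kahane (X := X) hm y
  have hA0 : 0 ≤ (2 ^ n : ℝ)⁻¹ * ∑ θ : Fin n → Bool, ‖rs y θ‖ ^ 2 := by positivity
  have h4 : ∑ θ : Fin n → Bool, ‖rs y θ‖ ^ (2 * m) ≤ 2 ^ n * ((2 * m : ℝ) ^ m * Q ^ m) := by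
    have h5 : (2 * m : ℝ) ^ m * ((2 ^ n : ℝ)⁻¹ * ∑ ε : Fin n → Bool, ‖rs y ε‖ ^ 2) ^ m ≤
        (2 * m : ℝ) ^ m * Q ^ m :=
      mul_le_mul_of_nonneg_left (pow_le_pow_left₀ hA0 hQ _) (by positivity)
    have h6 := h3.trans h5
    rw [inv_mul_eq_div, div_le_iff₀ (by positivity)] at h6
    linarith
  refine (Finset.sum_le_sum fun θ _ => h1 θ).trans ?_
  rw [← Finset.mul_sum]
  refine (mul_le_mul_of_nonneg_left h4 (by positivity)).trans (le_of_eq ?_)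
  have e : (2 * m * Q / τ ^ 2) ^ m = (2 * m : ℝ) ^ m * Q ^ m * (τ ^ (2 * m))⁻¹ := by
    rw [div_pow, mul_pow (2 * m : ℝ) Q, ← pow_mul, div_eq_mul_inv]
  rw [e]
  ring

/-- the numerical contradiction -/
theorem qs_num {e1 a E4 D κ K p P β n s l Cn0 : ℝ} (he1 : 1 ≤ e1) (ha : 1 ≤ a) (hE4 : 1 ≤ E4)
    (hD : D = 1536 * (e1 * E4 * a ^ 3)) (hκ0 : 0 ≤ κ) (hp0 : 0 ≤ p) (hP : 2 ≤ P)
    (hβ : P⁻¹ + β = 1) (hn : 1 ≤ n) (hss : s * s = n) (hs : 1 ≤ s) (hPn : 6 * P ≤ n)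
    (hl : l ≤ s / Real.sqrt (6 * P) + 1) (hl0 : 0 ≤ l) (hCn : Cn0 ≤ Real.sqrt (6 * P) * s)
    (hK : K = e1 * a ^ (P + 3) * E4)
    (hκ : 2 * κ ≤ (D ^ 2)⁻¹ / 4) (hKp : 8 * K ^ 2 * p ≤ (D ^ 2)⁻¹ / 4)
    (key : n ≤ 256 * (n + l * Cn0) * ((2 * K) ^ P⁻¹ * (2 * κ + 8 * K ^ 2 * p) ^ β)) : False := by
  have hq0 : 0 < Real.sqrt (6 * P) := Real.sqrt_pos.2 (by linarith)
  have hqs : Real.sqrt (6 * P) ≤ s := by
    rw [Real.sqrt_le_left (by linarith)]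
    nlinarith
  have hk1 : n + l * Cn0 ≤ 3 * n := by
    have a2 : l * Cn0 ≤ l * (Real.sqrt (6 * P) * s) := mul_le_mul_of_nonneg_left hCn hl0
    have a3 : l * (Real.sqrt (6 * P) * s) ≤ (s / Real.sqrt (6 * P) + 1) * (Real.sqrt (6 * P) * s) :=
      mul_le_mul_of_nonneg_right hl (by positivity)
    have a4 : (s / Real.sqrt (6 * P) + 1) * (Real.sqrt (6 * P) * s) =
        s * s + Real.sqrt (6 * P) * s := by
      field_simp
    have a5 : Real.sqrt (6 * P) * s ≤ s * s := mul_le_mul_of_nonneg_right hqs (by linarith)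
    rw [hss] at a4 a5
    linarith
  have hP0 : 0 < P := by linarith
  have hPi : P⁻¹ ≤ 1 / 2 := by
    rw [inv_eq_one_div]
    exact one_div_le_one_div_of_le (by norm_num) hP
  have hPi0 : 0 < P⁻¹ := by positivity
  have haE : 1 ≤ e1 * E4 := one_le_mul_of_one_le_of_one_le he1 hE4
  have ha3 : 1 ≤ a ^ 3 := one_le_pow₀ ha
  have hc : 1 ≤ e1 * E4 * a ^ 3 := one_le_mul_of_one_le_of_one_le haE ha3
  have hD1 : 1 ≤ D := by rw [hD]; linarith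
  have hK0 : 0 < K := by rw [hK]; positivity
  have h1 : (2 * K) ^ P⁻¹ ≤ 2 * (e1 * E4) * a ^ 3 := by
    have e : 2 * K = (2 * (e1 * E4)) * a ^ (P + 3) := by rw [hK]; ring
    rw [e, Real.mul_rpow (by positivity) (by positivity)]
    refine mul_le_mul ?_ ?_ (by positivity) (by positivity)
    · calc (2 * (e1 * E4)) ^ P⁻¹ ≤ (2 * (e1 * E4)) ^ (1 : ℝ) :=
            Real.rpow_le_rpow_of_exponent_le (by linarith) (by linarith)
        _ = _ := Real.rpow_one _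
    · rw [← Real.rpow_mul (by linarith)]
      have h2 : (P + 3) * P⁻¹ ≤ 3 := by
        have : (P + 3) * P⁻¹ = 1 + 3 * P⁻¹ := by field_simp
        rw [this]; linarith
      calc a ^ ((P + 3) * P⁻¹) ≤ a ^ (3 : ℝ) := Real.rpow_le_rpow_of_exponent_le ha h2
        _ = a ^ 3 := by rw [show (3 : ℝ) = ((3 : ℕ) : ℝ) by norm_num, Real.rpow_natCast]
  have hx0 : 0 ≤ 2 * κ + 8 * K ^ 2 * p := by positivity
  have hD2 : 0 < (D ^ 2)⁻¹ := by positivity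
  have hD21 : (D ^ 2)⁻¹ ≤ 1 := inv_le_one_of_one_le₀ (one_le_pow₀ hD1)
  have hx1 : 2 * κ + 8 * K ^ 2 * p ≤ (D ^ 2)⁻¹ / 2 := by linarith
  have hx2 : (2 * κ + 8 * K ^ 2 * p) ^ β ≤ ((D ^ 2)⁻¹ / 2) ^ (1 / 2 : ℝ) := by
    have hβ2 : 1 / 2 ≤ β := by linarith
    calc (2 * κ + 8 * K ^ 2 * p) ^ β ≤ (2 * κ + 8 * K ^ 2 * p) ^ (1 / 2 : ℝ) :=
          Real.rpow_le_rpow_of_exponent_ge' hx0 (by linarith) (by norm_num) hβ2
      _ ≤ _ := Real.rpow_le_rpow hx0 hx1 (by norm_num)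
  have hx3 : ((D ^ 2)⁻¹ / 2) ^ (1 / 2 : ℝ) < D⁻¹ := by
    have h3 : ((D ^ 2)⁻¹ / 2) ^ (1 / 2 : ℝ) < ((D ^ 2)⁻¹) ^ (1 / 2 : ℝ) :=
      Real.rpow_lt_rpow (by positivity) (by linarith) (by norm_num)
    have h4 : ((D ^ 2)⁻¹) ^ (1 / 2 : ℝ) = D⁻¹ := by
      rw [← inv_pow, ← Real.sqrt_eq_rpow, Real.sqrt_sq (by positivity)]
    rw [h4] at h3
    exact h3
  have hfin : n < n := by
    calc n ≤ 256 * (n + l * Cn0) * ((2 * K) ^ P⁻¹ * (2 * κ + 8 * K ^ 2 * p) ^ β) := key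
      _ ≤ 256 * (3 * n) * ((2 * (e1 * E4) * a ^ 3) * ((D ^ 2)⁻¹ / 2) ^ (1 / 2 : ℝ)) := by
          refine mul_le_mul (mul_le_mul_of_nonneg_left hk1 (by norm_num))
            (mul_le_mul h1 hx2 (by positivity) (by positivity)) (by positivity) (by positivity)
      _ = n * D * ((D ^ 2)⁻¹ / 2) ^ (1 / 2 : ℝ) := by rw [hD]; ring
      _ < n * D * D⁻¹ := mul_lt_mul_of_pos_left hx3 (by positivity)
      _ = n := by field_simp
  exact lt_irrefl _ hfin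

end TH364.SG
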