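import Mathlib
import Pool.Agent.TH364.SG.QS3
set_option autoImplicit false
set_option linter.unusedSectionVars false

/-! Quasisymmetric embeddings into the trace class force cotype. -/

namespace TH364.SG

open Finset
open Pool.Agent.Results.MP_fd02da_an.SchattenIsometries

universe u v
variable {X : Type u} [NormedAddCommGroup X] [NormedSpace ℝ X]
variable {H : Type v} [NormedAddCommGroup H] [InnerProductSpace ℂ H] [CompleteSpace H]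
variable {g : X → SchattenClass 1 H} {η : ℝ → ℝ}

theorem p_bound {c0 δ P n Q l q' : ℝ} {m : ℕ} (hc : 0 < c0) (hδ : 0 < δ) (hP : 0 < P) (hn : 1 ≤ n)
    (hQ : Q = n ^ (2 / q')) (hq' : 1 - 2 / q' = 2 * c0) (h6P : 6 * P ≤ 24 / c0 * n ^ c0)
    (hl : n ≤ 6 * P * l ^ 2) (hl0 : 0 < l) :
    (2 * m * Q / (δ * l / 2) ^ 2) ^ m ≤ (192 * m / (c0 * δ ^ 2)) ^ m * n ^ (-(c0 * m)) := by
  have hn0 : 0 < n := by linarith
  have hQ0 : 0 < Q := by rw [hQ]; positivity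
  have h1 : 2 * m * Q / (δ * l / 2) ^ 2 ≤ (192 * m / (c0 * δ ^ 2)) * n ^ (-c0) := by
    have e1 : (192 * m / (c0 * δ ^ 2)) * n ^ (-c0) =
        8 * m / δ ^ 2 * ((24 / c0 * n ^ c0) * n ^ (-(2 * c0))) := by
      have : n ^ (-c0) = n ^ c0 * n ^ (-(2 * c0)) := by
        rw [← Real.rpow_add hn0]; congr 1; ring
      rw [this]
      field_simp
      ring
    have e2 : n ^ (-(2 * c0)) = Q / n := by
      rw [← hq', hQ, show -(1 - 2 / q') = 2 / q' - 1 by ring, Real.rpow_sub hn0, Real.rpow_one]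
    rw [e1, e2]
    have h2 : 2 * m * Q / (δ * l / 2) ^ 2 ≤ 8 * m / δ ^ 2 * ((6 * P) * (Q / n)) := by
      have e3 : 2 * m * Q / (δ * l / 2) ^ 2 = 8 * m / δ ^ 2 * (Q * (1 / l ^ 2)) := by
        field_simp
        ring
      rw [e3]
      refine mul_le_mul_of_nonneg_left ?_ (by positivity)
      have h3 : 1 / l ^ 2 ≤ 6 * P / n := by
        rw [div_le_div_iff₀ (by positivity) hn0]
        linarith
      calc Q * (1 / l ^ 2) ≤ Q * (6 * P / n) := mul_le_mul_of_nonneg_left h3 hQ0.le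
        _ = _ := by ring
    refine h2.trans (mul_le_mul_of_nonneg_left ?_ (by positivity))
    exact mul_le_mul_of_nonneg_right h6P (by positivity)
  refine (pow_le_pow_left₀ (by positivity) h1 m).trans (le_of_eq ?_)
  rw [mul_pow]
  congr 1
  rw [← Real.rpow_natCast, ← Real.rpow_mul hn0.le]
  congr 1
  ring

theorem kp_bound {e1 a E4 D B c0 n p K : ℝ} {A0 m L : ℕ} (he1 : 1 ≤ e1) (ha : 1 ≤ a)
    (hE4 : 1 ≤ E4) (hD : 1 ≤ D) (hB : 0 ≤ B) (hn : 1 ≤ n) (haA : a ≤ 2 ^ A0)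
    (hL : (2 : ℝ) ^ L ≤ n ^ 2) (hm : 4 * (A0 : ℝ) + 1 ≤ c0 * m)
    (hp : p ≤ B ^ m * n ^ (-(c0 * m))) (hK : K = e1 * a ^ (L + 3) * E4)
    (hbig : 32 * (e1 * E4 * a ^ 3) ^ 2 * B ^ m * D ^ 2 ≤ n) :
    8 * K ^ 2 * p ≤ (D ^ 2)⁻¹ / 4 := by
  have hn0 : 0 < n := by linarith
  have h1 : a ^ L ≤ n ^ (2 * A0) := by
    calc a ^ L ≤ (2 ^ A0) ^ L := pow_le_pow_left₀ (by linarith) haA L
      _ = (2 ^ L) ^ A0 := by rw [← pow_mul, ← pow_mul, mul_comm]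
      _ ≤ (n ^ 2) ^ A0 := pow_le_pow_left₀ (by positivity) hL A0
      _ = _ := by rw [← pow_mul]
  have h2 : K ^ 2 ≤ (e1 * E4 * a ^ 3) ^ 2 * n ^ (4 * A0) := by
    have e : K ^ 2 = (e1 * E4 * a ^ 3) ^ 2 * (a ^ L) ^ 2 := by rw [hK, pow_add]; ring
    rw [e]
    refine mul_le_mul_of_nonneg_left ?_ (by positivity)
    calc (a ^ L) ^ 2 ≤ (n ^ (2 * A0)) ^ 2 := pow_le_pow_left₀ (by positivity) h1 2
      _ = _ := by rw [← pow_mul]; congr 1; ring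
  have h3 : n ^ (4 * A0) * n ^ (-(c0 * m)) ≤ n⁻¹ := by
    rw [← Real.rpow_natCast, ← Real.rpow_add hn0, ← Real.rpow_neg_one]
    refine Real.rpow_le_rpow_of_exponent_le hn ?_
    push_cast
    linarith
  have h4 : 8 * K ^ 2 * p ≤ 8 * (e1 * E4 * a ^ 3) ^ 2 * B ^ m * n⁻¹ := by
    calc 8 * K ^ 2 * p ≤ 8 * K ^ 2 * (B ^ m * n ^ (-(c0 * m))) :=
          mul_le_mul_of_nonneg_left hp (by positivity)
      _ ≤ 8 * ((e1 * E4 * a ^ 3) ^ 2 * n ^ (4 * A0)) * (B ^ m * n ^ (-(c0 * m))) := by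
          refine mul_le_mul_of_nonneg_right ?_ (by positivity)
          linarith
      _ = 8 * (e1 * E4 * a ^ 3) ^ 2 * B ^ m * (n ^ (4 * A0) * n ^ (-(c0 * m))) := by ring
      _ ≤ _ := mul_le_mul_of_nonneg_left h3 (by positivity)
  refine h4.trans ?_
  have hD0 : 0 < D := by linarith
  rw [← sub_nonneg]
  have e : (D ^ 2)⁻¹ / 4 - 8 * (e1 * E4 * a ^ 3) ^ 2 * B ^ m * n⁻¹ =
      (n - 32 * (e1 * E4 * a ^ 3) ^ 2 * B ^ m * D ^ 2) / (4 * D ^ 2 * n) := by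
    field_simp
    ring
  rw [e]
  exact div_nonneg (by linarith) (by positivity)

/-- A quasisymmetric embedding into the trace class forces cotype `q` for every `q > 2`. -/
theorem qs_cotype (h : QSym g η) (hlim : ∀ ε > 0, ∃ d > 0, η d ≤ ε) {q : ℝ} (hq : 2 < q) :
    HasCotype q X := by
  by_contra hcon
  obtain ⟨q', hq'⟩ : ∃ q', q' = (2 + q) / 2 := ⟨_, rfl⟩
  have hq'2 : 2 < q' := by rw [hq']; linarith
  have hqq : q' < q := by rw [hq']; linarith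
  obtain ⟨c0, hc0d⟩ : ∃ c0, c0 = 1 / 2 - 1 / q' := ⟨_, rfl⟩
  have hc0 : 0 < c0 := by
    have : 1 / q' < 1 / 2 := one_div_lt_one_div_of_lt (by norm_num) hq'2
    rw [hc0d]; linarith
  have hc1 : c0 ≤ 1 / 2 := by
    have : 0 < 1 / q' := by positivity
    rw [hc0d]; linarith
  have hq'c : 1 - 2 / q' = 2 * c0 := by rw [hc0d]; ring
  -- constants
  obtain ⟨e1, he1⟩ : ∃ e1, e1 = max (η 1) 1 := ⟨_, rfl⟩
  obtain ⟨a, ha⟩ : ∃ a, a = max (η 2) 1 := ⟨_, rfl⟩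
  obtain ⟨E4, hE4⟩ : ∃ E4, E4 = max (η 4) 1 := ⟨_, rfl⟩
  have he11 : 1 ≤ e1 := by rw [he1]; exact le_max_right _ _
  have ha1 : 1 ≤ a := by rw [ha]; exact le_max_right _ _
  have hE41 : 1 ≤ E4 := by rw [hE4]; exact le_max_right _ _
  obtain ⟨D, hD⟩ : ∃ D, D = 1536 * (e1 * E4 * a ^ 3) := ⟨_, rfl⟩
  have hD1 : 1 ≤ D := by
    have := one_le_mul_of_one_le_of_one_le (one_le_mul_of_one_le_of_one_le he11 hE41)
      (one_le_pow₀ ha1 : 1 ≤ a ^ 3)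
    rw [hD]; linarith
  obtain ⟨d, hd0, hd⟩ := hlim ((D ^ 2)⁻¹ / (8 * E4)) (by positivity)
  obtain ⟨δ, hδ⟩ : ∃ δ, δ = min (d / 4) (1 / 8) := ⟨_, rfl⟩
  have hδ0 : 0 < δ := by rw [hδ]; exact lt_min (by positivity) (by norm_num)
  have hδ1 : 4 * δ < 1 := by
    have : δ ≤ 1 / 8 := by rw [hδ]; exact min_le_right _ _
    linarith
  have hδd : 4 * δ ≤ d := by
    have : δ ≤ d / 4 := by rw [hδ]; exact min_le_left _ _
    linarith
  obtain ⟨κ, hκ⟩ : ∃ κ, κ = η (4 * δ) * E4 := ⟨_, rfl⟩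
  have hκ0 : 0 ≤ κ := by
    have := h.pos (4 * δ) (by positivity)
    rw [hκ]; positivity
  have hκ2 : 2 * κ ≤ (D ^ 2)⁻¹ / 4 := by
    have h1 : η (4 * δ) ≤ (D ^ 2)⁻¹ / (8 * E4) := (h.mono _ _ (by positivity) hδd).trans hd
    have h2 := mul_le_mul_of_nonneg_right h1 (show 0 ≤ E4 by linarith)
    have e : (D ^ 2)⁻¹ / (8 * E4) * E4 = (D ^ 2)⁻¹ / 8 := by field_simp
    rw [e, ← hκ] at h2
    linarith
  obtain ⟨A0, hA0⟩ := pow_unbounded_of_one_lt a (by norm_num : (1 : ℝ) < 2)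
  obtain ⟨m, hm⟩ := exists_nat_gt ((4 * (A0 : ℝ) + 1) / c0)
  have hm2 : 4 * (A0 : ℝ) + 1 ≤ c0 * m := by
    rw [div_lt_iff₀ hc0] at hm
    linarith
  have hm1 : 1 ≤ m := by
    have : (0 : ℝ) < m := lt_of_le_of_lt (by positivity) hm
    exact_mod_cast this
  obtain ⟨B, hB⟩ : ∃ B, B = 192 * m / (c0 * δ ^ 2) := ⟨_, rfl⟩
  have hB0 : 0 ≤ B := by rw [hB]; positivity
  obtain ⟨N1, hN1⟩ := choose_r2 hc0 hc1
  obtain ⟨N2, hN2⟩ := exists_nat_gt (32 * (e1 * E4 * a ^ 3) ^ 2 * B ^ m * D ^ 2)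
  obtain ⟨N3, hN3⟩ := exists_nat_gt ((96 / (c0 * δ ^ 2)) ^ 2)
  obtain ⟨n, y, hn, hy, hrav⟩ := extract (X := X) (q := q) (q' := q') (by linarith) hqq (by linarith)
    hcon (N1 + N2 + N3 + 1)
  obtain ⟨r, hr1, hr2, hr3, hr4⟩ := hN1 n (by omega)
  have hn1 : 1 ≤ n := by omega
  have hn0 : (1 : ℝ) ≤ n := by exact_mod_cast hn1
  have hnN2 : (N2 : ℝ) ≤ n := by exact_mod_cast (by omega : N2 ≤ n)
  have hnN3 : (N3 : ℝ) ≤ n := by exact_mod_cast (by omega : N3 ≤ n)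
  obtain ⟨P, hP⟩ : ∃ P, P = ((2 ^ (r + 1) : ℕ) : ℝ) := ⟨_, rfl⟩
  have hP2 : (2 : ℝ) ≤ P := by rw [hP]; exact_mod_cast two_le_P r
  rw [← hP] at hr2 hr3
  obtain ⟨σ, hσ⟩ : ∃ σ, σ = Real.sqrt n := ⟨_, rfl⟩
  have hσ1 : 1 ≤ σ := by rw [hσ]; exact Real.one_le_sqrt.2 hn0
  have hσσ : σ * σ = n := by rw [hσ]; exact Real.mul_self_sqrt (by linarith)
  obtain ⟨k, hk⟩ : ∃ k, k = Real.sqrt (6 * P) := ⟨_, rfl⟩
  have hk1 : 1 ≤ k := by rw [hk]; exact Real.one_le_sqrt.2 (by linarith)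
  have hkk : k * k = 6 * P := by rw [hk]; exact Real.mul_self_sqrt (by linarith)
  obtain ⟨l, hl⟩ : ∃ l, l = ⌈σ / k⌉₊ := ⟨_, rfl⟩
  have hl1 : σ / k ≤ l := by rw [hl]; exact Nat.le_ceil _
  have hl2 : (l : ℝ) ≤ σ / k + 1 := by
    have := Nat.ceil_lt_add_one (a := σ / k) (by positivity)
    rw [hl]
    linarith
  have hlr : (0 : ℝ) < l := lt_of_lt_of_le (by positivity) hl1
  have hlpos : 0 < l := by exact_mod_cast hlr
  have : NeZero l := ⟨hlpos.ne'⟩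
  have hl3 : (n : ℝ) ≤ 6 * P * (l : ℝ) ^ 2 := by
    have h1 : σ ≤ k * l := by rwa [div_le_iff₀' (by linarith)] at hl1
    calc (n : ℝ) = σ * σ := hσσ.symm
      _ ≤ (k * l) * (k * l) := mul_le_mul h1 h1 (by linarith) (by positivity)
      _ = (k * k) * (l : ℝ) ^ 2 := by ring
      _ = _ := by rw [hkk]
  -- δ l ≥ 2
  have hδl : 2 ≤ δ * l := by
    have h1 : (96 / (c0 * δ ^ 2)) ≤ (n : ℝ) ^ (1 / 2 : ℝ) := by
      have h2 : (96 / (c0 * δ ^ 2)) ^ 2 ≤ (n : ℝ) := by linarith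
      rw [← Real.sqrt_eq_rpow]
      exact Real.le_sqrt_of_sq_le h2
    have h3 : (n : ℝ) ^ c0 ≤ (n : ℝ) ^ (1 / 2 : ℝ) := Real.rpow_le_rpow_of_exponent_le hn0 hc1
    have h4 : (n : ℝ) ^ (1 / 2 : ℝ) * (n : ℝ) ^ (1 / 2 : ℝ) = n := by
      rw [← Real.rpow_add (by linarith)]; norm_num
    obtain ⟨w, hw⟩ : ∃ w, w = (n : ℝ) ^ (1 / 2 : ℝ) := ⟨_, rfl⟩
    rw [← hw] at h1 h3 h4
    have hw0 : 0 < w := lt_of_lt_of_le (by positivity) h1
    have h5 : 6 * P ≤ 24 / c0 * w :=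
      hr3.trans (mul_le_mul_of_nonneg_left h3 (by positivity))
    have h6 : w * w ≤ 24 / c0 * w * (l : ℝ) ^ 2 := by
      rw [h4]
      exact hl3.trans (mul_le_mul_of_nonneg_right h5 (by positivity))
    have h7 : w ≤ 24 / c0 * (l : ℝ) ^ 2 := by
      have : w * w ≤ w * (24 / c0 * (l : ℝ) ^ 2) := by linarith
      exact le_of_mul_le_mul_left this hw0
    have h8 : 96 / (c0 * δ ^ 2) ≤ 24 / c0 * (l : ℝ) ^ 2 := h1.trans h7
    have h9 : (2 : ℝ) ^ 2 ≤ (δ * l) ^ 2 := by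
      have e : 96 / (c0 * δ ^ 2) = 24 / c0 * (4 / δ ^ 2) := by field_simp; ring
      rw [e] at h8
      have h10 := le_of_mul_le_mul_left h8 (by positivity)
      rw [div_le_iff₀ (by positivity)] at h10
      nlinarith
    exact le_of_sq_le_sq h9 (by positivity)
  -- Markov
  have hQ := second_moment (X := X) (q := q) (q' := q') (by linarith) (by linarith) y hrav
  obtain ⟨p, hp⟩ : ∃ p, p = (2 * m * (n : ℝ) ^ (2 / q') / (δ * l / 2) ^ 2) ^ m := ⟨_, rfl⟩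
  have hp0 : 0 ≤ p := by rw [hp]; positivity
  have hmk := markov hm1 y (t := δ * l - 1) (τ := δ * l / 2) (by positivity) (by linarith) hQ
  rw [← hp] at hmk
  have hpb : p ≤ B ^ m * (n : ℝ) ^ (-(c0 * m)) := by
    rw [hp, hB]
    exact p_bound hc0 hδ0 (by linarith) hn0 rfl hq'c hr3 hl3 hlr
  obtain ⟨K, hK⟩ : ∃ K, K = e1 * a ^ (2 ^ (r + 1) + 3) * E4 := ⟨_, rfl⟩
  have h8n : 8 * (n : ℝ) ≤ 2 ^ (2 ^ (r + 1) + 3) := by
    unfold wr at hr1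
    rw [pow_add]
    linarith
  have key := h.key l r hn1 hy hδ0 hδ1 h8n (K := K) (κ := κ) (p := p)
    (by rw [hK, he1, ha, hE4]) (by rw [hκ, hE4]) hp0 hmk
  have hKp : 8 * K ^ 2 * p ≤ (D ^ 2)⁻¹ / 4 :=
    kp_bound he11 ha1 hE41 hD1 hB0 hn0 hA0.le hr4 hm2 hpb hK (hN2.le.trans hnN2)
  have hCn := Cn_le r n
  rw [← hσ] at hCn
  rw [← hP] at hCn key
  rw [hk] at hl2
  have hK2 : K = e1 * a ^ (P + 3) * E4 := by
    rw [hK]
    congr 2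
    rw [← Real.rpow_natCast, hP]
    congr 1
    push_cast
    ring
  exact qs_num he11 ha1 hE41 hD hκ0 hp0 hP2 (by unfold be; rw [← hP]; ring) hn0 hσσ hσ1 hr2 hl2
    hlr.le hCn hK2 hκ2 hKp key

end TH364.SG
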