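import Mathlib
import Pool.Agent.TH364.SG.Num
set_option autoImplicit false
set_option linter.unusedSectionVars false

/-! Optimisation of the exponent. -/

namespace TH364.SG

open scoped ENNReal InnerProductSpace
open Finset
open Pool.Agent.Results.MP_fd02da_an.SchattenIsometries

universe u
variable {H : Type u} [NormedAddCommGroup H] [InnerProductSpace ℂ H] [CompleteSpace H]

theorem exists_r {n : ℕ} (hn : 2 ≤ n) : ∃ r : ℕ, Real.log n ≤ ((2 ^ (r + 1) : ℕ) : ℝ) ∧
    ((2 ^ (r + 1) : ℕ) : ℝ) ≤ 3 * Real.log n := by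
  classical
  have hn' : (2 : ℝ) ≤ n := by exact_mod_cast hn
  have hlog : 0.6931 ≤ Real.log n := by
    have h1 := Real.log_two_gt_d9
    have h2 := Real.log_le_log (by norm_num) hn'
    linarith
  have hex : ∃ r : ℕ, Real.log n ≤ ((2 ^ (r + 1) : ℕ) : ℝ) := by
    obtain ⟨k, hk⟩ := pow_unbounded_of_one_lt (Real.log n) (by norm_num : (1 : ℝ) < 2)
    refine ⟨k, hk.le.trans ?_⟩
    push_cast
    rw [pow_succ]
    have : (0 : ℝ) ≤ 2 ^ k := by positivity
    linarith
  refine ⟨Nat.find hex, Nat.find_spec hex, ?_⟩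
  rcases Nat.eq_zero_or_pos (Nat.find hex) with h0 | h0
  · rw [h0]
    push_cast
    linarith
  · have h1 := Nat.find_min hex (Nat.sub_lt h0 one_pos)
    push Not at h1
    have h2 : Nat.find hex - 1 + 1 = Nat.find hex := Nat.sub_add_cancel h0
    rw [h2] at h1
    have h3 : ((2 ^ (Nat.find hex + 1) : ℕ) : ℝ) = 2 * ((2 ^ (Nat.find hex) : ℕ) : ℝ) := by
      push_cast; ring
    rw [h3]
    linarith

theorem dist_ge_one {m n : ℕ} (hm : 1 ≤ m) (hn : 1 ≤ n) : ∃ x y : Grid m n, 0 < dist x y := by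
  refine ⟨⟨fun _ => 0, fun _ => Nat.zero_le _⟩, ⟨fun _ => 1, fun _ => hm⟩, ?_⟩
  rw [dist_pos]
  intro h
  have := congrFun (congrArg Subtype.val h) ⟨0, hn⟩
  simp at this

theorem main (n m : ℕ) (hn : 2 ≤ n) (hm : 1 ≤ m) (f : Grid m n → SchattenClass 1 H) {lam D : ℝ}
    (hlam : 0 < lam)
    (hf : ∀ x y, lam * dist x y ≤ dist (f x) (f y) ∧ dist (f x) (f y) ≤ D * lam * dist x y) :
    min (m : ℝ) (Real.sqrt n) ≤ 100000 * (Real.log n) ^ (3 / 2 : ℝ) * D := by
  have hn' : (2 : ℝ) ≤ n := by exact_mod_cast hn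
  have hlog : 0.6931 ≤ Real.log n := by
    have h1 := Real.log_two_gt_d9
    have h2 := Real.log_le_log (by norm_num) hn'
    linarith
  have hlog0 : 0 < Real.log n := by linarith
  have hD : 1 ≤ D := by
    obtain ⟨x, y, hxy⟩ := dist_ge_one (m := m) (n := n) hm (by omega)
    have h := (hf x y).1.trans (hf x y).2
    have h1 : 0 < lam * dist x y := by positivity
    by_contra hcon
    push Not at hcon
    nlinarith
  have h32 : (Real.log n) ^ (3 / 2 : ℝ) = Real.log n * Real.sqrt (Real.log n) := by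
    rw [Real.sqrt_eq_rpow, show (3 / 2 : ℝ) = 1 + 1 / 2 by norm_num, Real.rpow_add hlog0,
      Real.rpow_one]
  have hsq : 0.5 ≤ Real.sqrt (Real.log n) := by
    apply Real.le_sqrt_of_sq_le
    linarith [show (0.5 : ℝ) ^ 2 = 0.25 by norm_num]
  rw [h32]
  have hlp : 0.3 ≤ Real.log n * Real.sqrt (Real.log n) := by nlinarith
  rcases Nat.lt_or_ge m 2 with hm2 | hm2
  · have hm1 : (m : ℝ) ≤ 1 := by
      have : m = 1 := by omega
      rw [this]; norm_num
    have : (1 : ℝ) ≤ 100000 * (Real.log n * Real.sqrt (Real.log n)) * D := by nlinarith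
    exact (min_le_left _ _).trans (hm1.trans this)
  · set s := Real.sqrt n with hs
    have hs1 : 1 < s := by
      rw [hs]
      exact Real.lt_sqrt_of_sq_lt (by linarith)
    have hss : s * s = n := Real.mul_self_sqrt (by linarith)
    set c := ⌈s⌉₊ with hc
    have hc2 : 2 ≤ c := Nat.lt_ceil.2 (by push_cast; linarith)
    have hcs : s ≤ c := Nat.le_ceil s
    have hcs2 : (c : ℝ) < s + 1 := Nat.ceil_lt_add_one (by linarith)
    set m' := min m c with hm'
    set l := m' / 2 with hl
    have hm'2 : 2 ≤ m' := le_min hm2 hc2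
    have hl1 : 1 ≤ l := by omega
    have hl3 : m' ≤ 3 * l := by omega
    have hl2 : 2 * l ≤ m' := by omega
    have hlm : 2 * l ≤ m := hl2.trans (min_le_left _ _)
    have hlc : 2 * l ≤ c := hl2.trans (min_le_right _ _)
    have hls : (l : ℝ) ≤ s := by
      have : (2 * l : ℝ) ≤ c := by exact_mod_cast hlc
      linarith
    have hmin : min (m : ℝ) s ≤ 3 * l := by
      have h1 : min (m : ℝ) s ≤ min (m : ℝ) c := min_le_min le_rfl hcs
      have h2 : min (m : ℝ) c = (m' : ℝ) := by rw [hm']; push_cast; rfl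
      have h3 : (m' : ℝ) ≤ 3 * l := by exact_mod_cast hl3
      linarith
    have : NeZero l := ⟨by omega⟩
    let g : Grid (2 * l) n → Grid m n := fun x => ⟨x.1, fun j => (x.2 j).trans hlm⟩
    obtain ⟨r, hr1, hr2⟩ := exists_r hn
    have hq := quant r l n (fun x => f (g x)) hlam (by linarith) (fun x y => hf (g x) (g y))
    have hC := Cn_le r n
    set P := ((2 ^ (r + 1) : ℕ) : ℝ) with hPd
    have hP2 : 2 ≤ P := by rw [hPd]; exact_mod_cast two_le_P r
    have hl0 : (0 : ℝ) < l := by exact_mod_cast hl1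
    -- l * Cn <= n sqrt (6P)
    set w := Real.sqrt P with hw
    have hw1 : 1 ≤ w := by rw [hw]; exact Real.one_le_sqrt.2 (by linarith)
    have hww : w * w = P := Real.mul_self_sqrt (by linarith)
    have h6 : Real.sqrt (6 * P) ≤ 2.5 * w := by
      rw [Real.sqrt_mul (by norm_num)]
      have : Real.sqrt 6 ≤ 2.5 := by
        rw [Real.sqrt_le_left (by norm_num)]; norm_num
      exact mul_le_mul_of_nonneg_right this (Real.sqrt_nonneg _)
    have hCn : Cn r n ≤ 2.5 * w * s := hC.trans (mul_le_mul_of_nonneg_right h6 (by linarith))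
    have h7 : (n : ℝ) + l * Cn r n ≤ 3.5 * w * n := by
      have h8 : (l : ℝ) * Cn r n ≤ s * (2.5 * w * s) := by
        have a1 : (l : ℝ) * Cn r n ≤ l * (2.5 * w * s) := mul_le_mul_of_nonneg_left hCn hl0.le
        have a2 : (l : ℝ) * (2.5 * w * s) ≤ s * (2.5 * w * s) :=
          mul_le_mul_of_nonneg_right hls (by positivity)
        linarith
      have h9 : s * (2.5 * w * s) = 2.5 * w * n := by rw [← hss]; ring
      have h10 : (n : ℝ) ≤ w * n := by nlinarith
      linarith
    -- l^(1/P) <= 2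
    have h11 : (l : ℝ) ^ P⁻¹ ≤ 2 := by
      have a1 : (l : ℝ) ^ P⁻¹ ≤ s ^ P⁻¹ := Real.rpow_le_rpow hl0.le hls (by positivity)
      have a2 : s ^ P⁻¹ = Real.exp (Real.log n / 2 * P⁻¹) := by
        rw [Real.rpow_def_of_pos (by linarith), hs, Real.log_sqrt (by linarith)]
      have a3 : Real.log n / 2 * P⁻¹ ≤ 1 / 2 := by
        rw [← div_eq_mul_inv, div_div, div_le_div_iff₀ (by positivity) (by norm_num)]
        linarith
      have a4 : Real.exp (1 / 2) ≤ 2 := by
        have h := Real.exp_one_lt_d9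
        have h2 : Real.exp (1 / 2) * Real.exp (1 / 2) = Real.exp 1 := by
          rw [← Real.exp_add]; norm_num
        have h3 := Real.exp_pos (1 / 2 : ℝ)
        nlinarith
      calc _ ≤ s ^ P⁻¹ := a1
        _ = Real.exp (Real.log n / 2 * P⁻¹) := a2
        _ ≤ Real.exp (1 / 2) := Real.exp_le_exp.2 a3
        _ ≤ 2 := a4
    have hX : (n : ℝ) * l ≤ n * (4032 * (w * P) * D) := by
      have b1 : ((n : ℝ) + l * Cn r n) * P * D * (l : ℝ) ^ P⁻¹ ≤ (3.5 * w * n) * P * D * 2 := by
        have c1 : ((n : ℝ) + l * Cn r n) * P ≤ (3.5 * w * n) * P :=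
          mul_le_mul_of_nonneg_right h7 (by linarith)
        have c2 : ((n : ℝ) + l * Cn r n) * P * D ≤ (3.5 * w * n) * P * D :=
          mul_le_mul_of_nonneg_right c1 (by linarith)
        exact mul_le_mul c2 h11 (by positivity) (by positivity)
      calc (n : ℝ) * l ≤ 288 * (((n : ℝ) + l * Cn r n) * P * D * (l : ℝ) ^ P⁻¹) * 2 := hq
        _ ≤ 288 * ((3.5 * w * n) * P * D * 2) * 2 := by linarith
        _ = _ := by ring
    have hY : (l : ℝ) ≤ 4032 * (w * P) * D := le_of_mul_le_mul_left hX (by linarith)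
    -- w * P <= 5.2 (log n)^{3/2}
    have hw2 : w ≤ 1.74 * Real.sqrt (Real.log n) := by
      have : w ≤ Real.sqrt (3 * Real.log n) := Real.sqrt_le_sqrt hr2
      refine this.trans ?_
      rw [Real.sqrt_mul (by norm_num)]
      refine mul_le_mul_of_nonneg_right ?_ (Real.sqrt_nonneg _)
      rw [Real.sqrt_le_left (by norm_num)]; norm_num
    have hwP : w * P ≤ 5.22 * (Real.log n * Real.sqrt (Real.log n)) := by
      calc w * P ≤ (1.74 * Real.sqrt (Real.log n)) * (3 * Real.log n) :=
            mul_le_mul hw2 hr2 (by linarith) (by positivity)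
        _ = _ := by ring
    have hZ : (l : ℝ) ≤ 4032 * (5.22 * (Real.log n * Real.sqrt (Real.log n))) * D := by
      refine hY.trans ?_
      have : 4032 * (w * P) ≤ 4032 * (5.22 * (Real.log n * Real.sqrt (Real.log n))) := by linarith
      exact mul_le_mul_of_nonneg_right this (by linarith)
    have hpos : 0 ≤ (Real.log n * Real.sqrt (Real.log n)) * D := by positivity
    refine hmin.trans ?_
    linarith

end TH364.SG
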