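import Mathlib
import Pool.Agent.TH364.SG.Torus2
import Pool.Agent.TH364.SG.Fin
import Pool.Agent.TH364.SG.Poly
set_option autoImplicit false
set_option linter.unusedSectionVars false

/-! Grids in the trace class, with loss `√(log n)` only. -/

namespace TH364.SG

open scoped ENNReal InnerProductSpace
open Finset
open Pool.Agent.Results.MP_fd02da_an.SchattenIsometries

universe u
variable {H : Type u} [NormedAddCommGroup H] [InnerProductSpace ℂ H] [CompleteSpace H]

theorem quant2 (r l n : ℕ) [NeZero l] (f : Grid (2 * l) n → SchattenClass 1 H) {lam D : ℝ}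
    (hlam : 0 < lam) (hD : 0 < D)
    (hf : ∀ x y, lam * dist x y ≤ dist (f x) (f y) ∧ dist (f x) (f y) ≤ D * lam * dist x y) :
    (n * l : ℝ) ≤ 256 * (n + l * Cn r n) * (D * (2 * l : ℝ) ^ ((((2 ^ (r + 1) : ℕ) : ℝ))⁻¹)) := by
  obtain ⟨F, hF⟩ : ∃ F : (Fin n → ZMod (4 * l)) → SchattenClass 1 H,
    F = fun x => f (clip (2 * l) (fold l x)) := ⟨_, rfl⟩
  have hfl : ∀ (x : Fin n → ZMod (4 * l)) j, fold l x j ≤ 2 * l := fun x j => fo_le l _
  have hlow : ∀ x x' : Fin n → ZMod (4 * l), lam * gd (fold l x) (fold l x') ≤ ‖F x - F x'‖ := by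
    intro x x'
    have h2 := (hf (clip (2 * l) (fold l x)) (clip (2 * l) (fold l x'))).1
    rw [dist_eq_norm (f _), Subtype.dist_eq, clip_eq (hfl x), clip_eq (hfl x')] at h2
    rw [hF]
    exact h2
  have hupp : ∀ x x' : Fin n → ZMod (4 * l), ‖F x - F x'‖ ≤ D * lam * gd (fold l x) (fold l x') := by
    intro x x'
    have h2 := (hf (clip (2 * l) (fold l x)) (clip (2 * l) (fold l x'))).2
    rw [dist_eq_norm (f _), Subtype.dist_eq, clip_eq (hfl x), clip_eq (hfl x')] at h2
    rw [hF]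
    exact h2
  have hDl : 0 < D * lam := by positivity
  have hstep : ∀ x x' : Fin n → ZMod (4 * l), near (ev l n) x x' → ‖F x - F x'‖ ≤ D * lam := by
    intro x x' hx
    refine (hupp x x').trans ?_
    calc D * lam * gd (fold l x) (fold l x') ≤ D * lam * 1 :=
          mul_le_mul_of_nonneg_left (fold_near l hx) hDl.le
      _ = _ := mul_one _
  obtain ⟨G, hG⟩ : ∃ G : ℝ, G = (Fintype.card (Fin n → ZMod (4 * l)) : ℝ) := ⟨_, rfl⟩
  have hG0 : 0 < G := by
    have : 0 < Fintype.card (Fin n → ZMod (4 * l)) := Fintype.card_pos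
    rw [hG]; exact_mod_cast this
  have hM : ∑ x, ‖F x - F 0‖ ≤ (Fintype.card (Fin n → ZMod (4 * l)) : ℝ) * (D * lam * (2 * l)) := by
    have hMx : ∀ x, ‖F x - F 0‖ ≤ D * lam * (2 * l) := by
      intro x
      refine (hupp x 0).trans (mul_le_mul_of_nonneg_left ?_ hDl.le)
      refine gd_le (by positivity) fun j => ?_
      have a1 : ((fold l x j : ℕ) : ℝ) ≤ 2 * l := by exact_mod_cast hfl x j
      have a2 : ((fold l (0 : Fin n → ZMod (4 * l)) j : ℕ) : ℝ) ≤ 2 * l := by exact_mod_cast hfl 0 j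
      have a3 : (0 : ℝ) ≤ (fold l x j : ℕ) := Nat.cast_nonneg _
      have a4 : (0 : ℝ) ≤ (fold l (0 : Fin n → ZMod (4 * l)) j : ℕ) := Nat.cast_nonneg _
      rw [abs_le]; constructor <;> linarith
    refine (Finset.sum_le_card_nsmul _ _ _ fun x _ => hMx x).trans_eq ?_
    rw [Finset.card_univ, nsmul_eq_mul]
  have hb0 : ∑ x, ∑ ε : Fin n → Bool, ‖F (x + sft (ev l n) ε) - F x‖ ≤
      (Fintype.card (Fin n → ZMod (4 * l)) : ℝ) * 2 ^ (Fintype.card (Fin n)) * (D * lam) := by
    have h1 : ∀ x (ε : Fin n → Bool), ‖F (x + sft (ev l n) ε) - F x‖ ≤ D * lam := fun x ε =>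
      hstep _ _ ⟨fun k => sgz (ε k), fun k => sgz_abs _, rfl⟩
    refine (Finset.sum_le_sum fun x _ => Finset.sum_le_sum fun ε _ => h1 x ε).trans (le_of_eq ?_)
    rw [sum_const_torus, Fintype.card_fin]
    ring
  have hb1 : ∑ x, ∑ j, ∑ ε : Fin n → Bool, ‖F (x + sfj (ev l n) j ε) - F x‖ ≤
      (Fintype.card (Fin n → ZMod (4 * l)) : ℝ) * Fintype.card (Fin n) *
        2 ^ (Fintype.card (Fin n)) * (D * lam) := by
    have h1 : ∀ x (j : Fin n) (ε : Fin n → Bool), ‖F (x + sfj (ev l n) j ε) - F x‖ ≤ D * lam := by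
      intro x j ε
      refine hstep _ _ ⟨fun k => if k = j then 0 else sgz (ε k), fun k => ?_, rfl⟩
      dsimp only
      split_ifs
      · simp
      · exact sgz_abs _
    rw [Finset.sum_comm]
    have h2 : ∀ j ∈ (Finset.univ : Finset (Fin n)), ∑ x, ∑ ε : Fin n → Bool,
        ‖F (x + sfj (ev l n) j ε) - F x‖ ≤
        (Fintype.card (Fin n → ZMod (4 * l)) : ℝ) * 2 ^ n * (D * lam) := by
      intro j _
      refine (Finset.sum_le_sum fun x _ => Finset.sum_le_sum fun ε _ => h1 x j ε).trans (le_of_eq ?_)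
      rw [sum_const_torus]
      ring
    refine (Finset.sum_le_card_nsmul _ _ _ h2).trans_eq ?_
    rw [Finset.card_univ, Fintype.card_fin, nsmul_eq_mul]
    ring
  have hT := torus2 (e := ev l n) r l F (M := D * lam * (2 * l)) (b := D * lam) (by positivity)
    hDl.le hM hb0 hb1
  rw [Fintype.card_fin, ← hG] at hT
  have hlo : lam * (n * (l * G)) ≤ ∑ x, ∑ j, ‖F (x + (2 * l) • ev l n j) - F x‖ := by
    have h1 : ∑ x : Fin n → ZMod (4 * l), ∑ j, lam * ad l (x j) ≤
        ∑ x : Fin n → ZMod (4 * l), ∑ j, ‖F (x + (2 * l) • ev l n j) - F x‖ := by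
      refine Finset.sum_le_sum fun x _ => Finset.sum_le_sum fun j _ => ?_
      refine le_trans ?_ (hlow _ _)
      exact mul_le_mul_of_nonneg_left (fold_anti l x j) hlam.le
    refine le_trans (le_of_eq ?_) h1
    rw [Finset.sum_comm]
    simp only [← Finset.mul_sum]
    congr 1
    simp only [sum_ad]
    rw [Finset.sum_const, Finset.card_univ, Fintype.card_fin, nsmul_eq_mul, hG]
  obtain ⟨P, hP⟩ : ∃ P, P = ((2 ^ (r + 1) : ℕ) : ℝ) := ⟨_, rfl⟩
  rw [← hP] at hT ⊢
  have hbe : P⁻¹ + be r = 1 := by unfold be; rw [← hP]; ring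
  have e1 : (D * lam * (2 * l)) ^ P⁻¹ * (D * lam) ^ be r = D * lam * (2 * l : ℝ) ^ P⁻¹ := by
    rw [Real.mul_rpow hDl.le (by positivity)]
    calc _ = ((D * lam) ^ P⁻¹ * (D * lam) ^ be r) * (2 * l : ℝ) ^ P⁻¹ := by ring
      _ = _ := by rw [← Real.rpow_add hDl, hbe, Real.rpow_one]
  rw [e1] at hT
  have h3 := hlo.trans hT
  have h4 : (lam * G) * (n * l : ℝ) ≤ (lam * G) *
      (256 * (n + l * Cn r n) * (D * (2 * l : ℝ) ^ P⁻¹)) := by
    refine le_trans (le_of_eq (by ring)) (h3.trans (le_of_eq ?_))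
    ring
  exact le_of_mul_le_mul_left h4 (by positivity)

theorem main2 (n m : ℕ) (hn : 2 ≤ n) (hm : 1 ≤ m) (f : Grid m n → SchattenClass 1 H) {lam D : ℝ}
    (hlam : 0 < lam)
    (hf : ∀ x y, lam * dist x y ≤ dist (f x) (f y) ∧ dist (f x) (f y) ≤ D * lam * dist x y) :
    min (m : ℝ) (Real.sqrt (n / Real.log n)) ≤ 31000 * D := by
  have hn' : (2 : ℝ) ≤ n := by exact_mod_cast hn
  have hlog : 0.6931 ≤ Real.log n := by
    have h1 := Real.log_two_gt_d9
    have h2 := Real.log_le_log (by norm_num) hn'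
    linarith
  have hlog0 : 0 < Real.log n := by linarith
  have hD : 1 ≤ D := by
    obtain ⟨x, y, hxy⟩ := dist_ge_one (m := m) (n := n) hm (by omega)
    have h := (hf x y).1.trans (hf x y).2
    have h1 : 0 < lam * dist x y := by positivity
    by_contra hcon
    push Not at hcon
    nlinarith
  obtain ⟨t, ht⟩ : ∃ t, t = Real.sqrt (n / Real.log n) := ⟨_, rfl⟩
  rw [← ht]
  have ht0 : 0 ≤ t := by rw [ht]; exact Real.sqrt_nonneg _
  have htt : t * t * Real.log n = n := by
    rw [ht, Real.mul_self_sqrt (by positivity)]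
    field_simp
  obtain ⟨c, hc⟩ : ∃ c, c = ⌊t / 5⌋₊ := ⟨_, rfl⟩
  have hc1 : (c : ℝ) ≤ t / 5 := by rw [hc]; exact Nat.floor_le (by positivity)
  have hc2 : t / 5 < c + 1 := by rw [hc]; exact Nat.lt_floor_add_one _
  rcases Nat.lt_or_ge (min m c) 2 with hm2 | hm2
  · rcases le_total m c with hmc | hmc
    · rw [min_eq_left hmc] at hm2
      have : (m : ℝ) ≤ 1 := by exact_mod_cast (by omega : m ≤ 1)
      have := min_le_left (m : ℝ) t
      linarith
    · rw [min_eq_right hmc] at hm2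
      have : (c : ℝ) ≤ 1 := by exact_mod_cast (by omega : c ≤ 1)
      have := min_le_right (m : ℝ) t
      linarith
  · obtain ⟨l, hl⟩ : ∃ l, l = min m c / 2 := ⟨_, rfl⟩
    have hl1 : 1 ≤ l := by omega
    have hl3 : min m c ≤ 3 * l := by omega
    have hl2 : 2 * l ≤ min m c := by omega
    have hlm : 2 * l ≤ m := hl2.trans (min_le_left _ _)
    have hlc : 2 * l ≤ c := hl2.trans (min_le_right _ _)
    have hlt : (2 * l : ℝ) ≤ t / 5 := by
      have : (2 * l : ℝ) ≤ c := by exact_mod_cast hlc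
      linarith
    have hl0 : (1 : ℝ) ≤ l := by exact_mod_cast hl1
    have : NeZero l := ⟨by omega⟩
    obtain ⟨r, hr1, hr2⟩ := exists_r hn
    have hq := quant2 r l n (fun x => f ⟨x.1, fun j => (x.2 j).trans hlm⟩) hlam (by linarith)
      (fun x y => hf ⟨x.1, fun j => (x.2 j).trans hlm⟩ ⟨y.1, fun j => (y.2 j).trans hlm⟩)
    have hC := Cn_le r n
    obtain ⟨P, hP⟩ : ∃ P, P = ((2 ^ (r + 1) : ℕ) : ℝ) := ⟨_, rfl⟩
    have hP2 : (2 : ℝ) ≤ P := by rw [hP]; exact_mod_cast two_le_P r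
    rw [← hP] at hr1 hr2 hq hC
    -- l Cn ≤ n
    have h1 : l * Cn r n ≤ n := by
      have a1 : l * Cn r n ≤ l * (Real.sqrt (6 * P) * Real.sqrt n) :=
        mul_le_mul_of_nonneg_left hC (by linarith)
      have a2 : Real.sqrt (6 * P) * Real.sqrt n = Real.sqrt (6 * P * n) :=
        (Real.sqrt_mul (show (0 : ℝ) ≤ 6 * P by positivity) n).symm
      have a3 : (l : ℝ) * Real.sqrt (6 * P * n) ≤ n := by
        have b1 : (l : ℝ) ^ 2 * (6 * P * n) ≤ (n : ℝ) ^ 2 := by
          have b2 : (l : ℝ) ≤ t / 10 := by linarith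
          have b3 : (l : ℝ) ^ 2 ≤ (t / 10) ^ 2 := pow_le_pow_left₀ (by linarith) b2 2
          have b4 : (l : ℝ) ^ 2 * (6 * P * n) ≤ (t / 10) ^ 2 * (6 * (3 * Real.log n) * n) :=
            mul_le_mul b3 (mul_le_mul_of_nonneg_right (by linarith) (by linarith)) (by positivity)
              (by positivity)
          have b5 : (t / 10) ^ 2 * (6 * (3 * Real.log n) * n) = (18 / 100) * (n * n) := by
            calc _ = (18 / 100) * ((t * t * Real.log n) * n) := by ring
              _ = _ := by rw [htt]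
          nlinarith
        have b6 : (l : ℝ) * Real.sqrt (6 * P * n) = Real.sqrt ((l : ℝ) ^ 2 * (6 * P * n)) := by
          rw [Real.sqrt_mul (sq_nonneg (l : ℝ)) (6 * P * n), Real.sqrt_sq (by linarith)]
        rw [b6, Real.sqrt_le_left (by linarith)]
        exact b1
      rw [a2] at a1
      linarith
    -- (2l)^(1/P) ≤ 3
    have h2 : (2 * l : ℝ) ^ P⁻¹ ≤ 3 := by
      have a1 : (2 * l : ℝ) ≤ n := by
        have : t ≤ n * 2 := by
          have b1 : t * t ≤ 2 * n := by nlinarith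
          rcases le_or_gt t 1 with hc | hc
          · linarith
          · nlinarith
        linarith
      have a2 : (2 * l : ℝ) ^ P⁻¹ ≤ (Real.exp P) ^ P⁻¹ := by
        refine Real.rpow_le_rpow (by positivity) (a1.trans ?_) (by positivity)
        rw [← Real.exp_log (show (0 : ℝ) < n by linarith)]
        exact Real.exp_le_exp.2 hr1
      have a3 : (Real.exp P) ^ P⁻¹ = Real.exp 1 := by
        rw [← Real.exp_mul, mul_inv_cancel₀ (by linarith)]
      have a4 : Real.exp 1 ≤ 3 := by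
        have := Real.exp_one_lt_d9
        linarith
      linarith
    have h3 : (n * l : ℝ) ≤ 256 * (2 * n) * (D * 3) := by
      refine hq.trans ?_
      refine mul_le_mul (mul_le_mul_of_nonneg_left (by linarith) (by norm_num))
        (mul_le_mul_of_nonneg_left h2 (by linarith)) (by positivity) (by positivity)
    have h4 : (l : ℝ) ≤ 1536 * D := by
      have : (n : ℝ) * l ≤ n * (1536 * D) := h3.trans_eq (by ring)
      exact le_of_mul_le_mul_left this (by linarith)
    have h5 : ((min m c : ℕ) : ℝ) ≤ 3 * l := by exact_mod_cast hl3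
    rcases le_total m c with hmc | hmc
    · rw [min_eq_left hmc] at h5
      have := min_le_left (m : ℝ) t
      linarith
    · rw [min_eq_right hmc] at h5
      have := min_le_right (m : ℝ) t
      linarith

end TH364.SG
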