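import Mathlib
import Pool.Agent.TH364.SG.Win
set_option autoImplicit false
set_option linter.unusedSectionVars false

/-! Inequalities for the weighted (L_q-averaged) metric cotype argument. -/

namespace TH364.SG

open Matrix Finset
open scoped ComplexOrder

universe u v
variable {ι : Type u} [Fintype ι] [DecidableEq ι] {J : Type v} [Fintype J] [DecidableEq J]

/-- a Hölder inequality with three factors -/
theorem holder3 {α : Type*} (s : Finset α) (f u v : α → ℝ) (hf : ∀ a, 0 ≤ f a) (hu : ∀ a, 0 ≤ u a)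
    (hv : ∀ a, 0 ≤ v a) {q β γ : ℝ} (hq : 1 < q) (hβ : 0 < β) (hγ : 0 < γ) (hβγ : β + γ = 1) :
    ∑ a ∈ s, f a ^ (q - 1) * (u a ^ β * v a ^ γ) ≤
      (∑ a ∈ s, f a ^ q) ^ ((q - 1) / q) * ((∑ a ∈ s, u a ^ q) ^ (β / q) *
        (∑ a ∈ s, v a ^ q) ^ (γ / q)) := by
  have hq0 : 0 < q := by linarith
  have hq1 : 0 < q - 1 := by linarith
  have hF0 : 0 ≤ ∑ a ∈ s, f a ^ q := Finset.sum_nonneg fun a _ => Real.rpow_nonneg (hf a) _
  have hU0 : 0 ≤ ∑ a ∈ s, u a ^ q := Finset.sum_nonneg fun a _ => Real.rpow_nonneg (hu a) _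
  have hV0 : 0 ≤ ∑ a ∈ s, v a ^ q := Finset.sum_nonneg fun a _ => Real.rpow_nonneg (hv a) _
  have zero : ∀ g : α → ℝ, (∀ a, 0 ≤ g a) → 0 = ∑ a ∈ s, g a ^ q → ∀ a ∈ s, g a = 0 := by
    intro g hg h a ha
    have h1 := (Finset.sum_eq_zero_iff_of_nonneg (fun a _ => Real.rpow_nonneg (hg a) _)).1 h.symm a ha
    exact (Real.rpow_eq_zero (hg a) hq0.ne').1 h1
  rcases hF0.eq_or_lt with h | hF
  · have hz := zero f hf h
    refine le_trans (le_of_eq (Finset.sum_eq_zero fun a ha => ?_)) (by positivity)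
    rw [hz a ha, Real.zero_rpow hq1.ne', zero_mul]
  rcases hU0.eq_or_lt with h | hU
  · have hz := zero u hu h
    refine le_trans (le_of_eq (Finset.sum_eq_zero fun a ha => ?_)) (by positivity)
    rw [hz a ha, Real.zero_rpow hβ.ne', zero_mul, mul_zero]
  rcases hV0.eq_or_lt with h | hV
  · have hz := zero v hv h
    refine le_trans (le_of_eq (Finset.sum_eq_zero fun a ha => ?_)) (by positivity)
    rw [hz a ha, Real.zero_rpow hγ.ne', mul_zero, mul_zero]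
  set F := ∑ a ∈ s, f a ^ q with hFd
  set U := ∑ a ∈ s, u a ^ q with hUd
  set V := ∑ a ∈ s, v a ^ q with hVd
  set R := F ^ ((q - 1) / q) * (U ^ (β / q) * V ^ (γ / q)) with hR
  have key : ∀ a ∈ s, f a ^ (q - 1) * (u a ^ β * v a ^ γ) ≤
      R * ((q - 1) / q * (f a ^ q / F) + β / q * (u a ^ q / U) + γ / q * (v a ^ q / V)) := by
    intro a _
    have h := Real.geom_mean_le_arith_mean3_weighted (w₁ := (q - 1) / q) (w₂ := β / q) (w₃ := γ / q)
      (p₁ := f a ^ q / F) (p₂ := u a ^ q / U) (p₃ := v a ^ q / V) (by positivity) (by positivity)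
      (by positivity) (div_nonneg (Real.rpow_nonneg (hf a) _) hF.le)
      (div_nonneg (Real.rpow_nonneg (hu a) _) hU.le) (div_nonneg (Real.rpow_nonneg (hv a) _) hV.le)
      (by field_simp; linarith)
    have e : ∀ (x X θ : ℝ), 0 ≤ x → 0 < X → (x ^ q / X) ^ (θ / q) = x ^ θ / X ^ (θ / q) := by
      intro x X θ hx hX
      rw [Real.div_rpow (Real.rpow_nonneg hx _) hX.le, ← Real.rpow_mul hx, mul_div_cancel₀ _ hq0.ne']
    rw [e _ _ _ (hf a) hF, e _ _ _ (hu a) hU, e _ _ _ (hv a) hV] at h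
    refine le_trans (le_of_eq ?_) (mul_le_mul_of_nonneg_left h (by positivity : 0 ≤ R))
    have f1 : F ^ ((q - 1) / q) ≠ 0 := (Real.rpow_pos_of_pos hF _).ne'
    have f2 : U ^ (β / q) ≠ 0 := (Real.rpow_pos_of_pos hU _).ne'
    have f3 : V ^ (γ / q) ≠ 0 := (Real.rpow_pos_of_pos hV _).ne'
    rw [hR]
    field_simp
  refine (Finset.sum_le_sum key).trans ?_
  rw [← Finset.mul_sum, Finset.sum_add_distrib, Finset.sum_add_distrib, ← Finset.mul_sum,
    ← Finset.mul_sum, ← Finset.mul_sum, ← Finset.sum_div, ← Finset.sum_div, ← Finset.sum_div,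
    ← hFd, ← hUd, ← hVd, div_self hF.ne', div_self hU.ne', div_self hV.ne']
  have : (q - 1) / q * 1 + β / q * 1 + γ / q * 1 = 1 := by field_simp; linarith
  rw [this, mul_one]

/-- a weighted Minkowski inequality -/
theorem wmink {α : Type*} (s : Finset α) (w : α → ℝ) (a : α → J → ℝ) (c : J → ℝ)
    (hw : ∀ i, 0 < w i) {K : ℕ} (hK : K ≠ 0)
    (h : ∀ j, ∑ i ∈ s, w i * a i j ^ (2 * K) ≤ c j ^ (2 * K)) :
    ∑ i ∈ s, w i * (∑ j, a i j ^ 2) ^ K ≤ (∑ j, c j ^ 2) ^ K := by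
  have ev : ∀ x : ℝ, 0 ≤ x ^ (2 * K) := fun x => by rw [pow_mul]; positivity
  have hz : ∀ j, c j = 0 → ∀ i ∈ s, a i j = 0 := by
    intro j hj i hi
    have h1 := h j
    rw [hj, zero_pow (by omega)] at h1
    have h2 : ∑ i ∈ s, w i * a i j ^ (2 * K) = 0 :=
      le_antisymm h1 (Finset.sum_nonneg fun i _ => mul_nonneg (hw i).le (ev _))
    have h3 := (Finset.sum_eq_zero_iff_of_nonneg
      (fun i _ => mul_nonneg (hw i).le (ev _))).1 h2 i hi
    rcases mul_eq_zero.1 h3 with h4 | h4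
    · exact absurd h4 (hw i).ne'
    · exact pow_eq_zero_iff (by omega) |>.1 h4
  have hC0 : 0 ≤ ∑ j, c j ^ 2 := Finset.sum_nonneg fun _ _ => sq_nonneg _
  rcases hC0.eq_or_lt with hC | hC
  · have hc : ∀ j, c j = 0 := by
      intro j
      have := (Finset.sum_eq_zero_iff_of_nonneg (fun j _ => sq_nonneg (c j))).1 hC.symm j
        (Finset.mem_univ j)
      exact pow_eq_zero_iff two_ne_zero |>.1 this
    rw [← hC, zero_pow hK]
    refine le_of_eq (Finset.sum_eq_zero fun i hi => ?_)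
    have : ∑ j, a i j ^ 2 = 0 := Finset.sum_eq_zero fun j _ => by
      rw [hz j (hc j) i hi]; simp
    rw [this, zero_pow hK, mul_zero]
  set C := ∑ j, c j ^ 2 with hCd
  have h1 : ∀ i ∈ s, w i * (∑ j, a i j ^ 2) ^ K ≤
      C ^ K * ∑ j, (c j ^ 2 / C) * ((w i * a i j ^ (2 * K)) / (c j ^ (2 * K))) := by
    intro i hi
    have e1 : ∑ j, a i j ^ 2 = C * ∑ j, (c j ^ 2 / C) * (a i j ^ 2 / c j ^ 2) := by
      rw [Finset.mul_sum]
      refine Finset.sum_congr rfl fun j _ => ?_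
      by_cases hj : c j = 0
      · rw [hz j hj i hi, hj]; simp
      · field_simp
    have e2 := Real.pow_arith_mean_le_arith_mean_pow (s := (Finset.univ : Finset J))
      (w := fun j => c j ^ 2 / C) (z := fun j => a i j ^ 2 / c j ^ 2)
      (fun j _ => by positivity) (by rw [← Finset.sum_div, ← hCd, div_self hC.ne'])
      (fun j _ => by positivity) K
    rw [e1, mul_pow]
    calc w i * (C ^ K * (∑ j, (c j ^ 2 / C) * (a i j ^ 2 / c j ^ 2)) ^ K)
        = w i * C ^ K * (∑ j, (c j ^ 2 / C) * (a i j ^ 2 / c j ^ 2)) ^ K := by ring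
      _ ≤ w i * C ^ K * ∑ j, (c j ^ 2 / C) * (a i j ^ 2 / c j ^ 2) ^ K :=
          mul_le_mul_of_nonneg_left e2 (mul_nonneg (hw i).le (by positivity))
      _ = C ^ K * ∑ j, (c j ^ 2 / C) * ((w i * a i j ^ (2 * K)) / (c j ^ (2 * K))) := by
          rw [mul_comm (w i), mul_assoc, Finset.mul_sum]
          congr 1
          refine Finset.sum_congr rfl fun j _ => ?_
          rw [div_pow, ← pow_mul, ← pow_mul]
          ring
  refine (Finset.sum_le_sum h1).trans ?_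
  rw [← Finset.mul_sum, Finset.sum_comm]
  have h2 : ∑ j, ∑ i ∈ s, (c j ^ 2 / C) * ((w i * a i j ^ (2 * K)) / (c j ^ (2 * K))) ≤ 1 := by
    have h3 : ∀ j ∈ (Finset.univ : Finset J), ∑ i ∈ s, (c j ^ 2 / C) *
        ((w i * a i j ^ (2 * K)) / (c j ^ (2 * K))) ≤ c j ^ 2 / C := by
      intro j _
      rw [← Finset.mul_sum, ← Finset.sum_div]
      by_cases hj : c j = 0
      · rw [hj]; simp
      · have hp : 0 < c j ^ (2 * K) := by
          rw [pow_mul]; positivity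
        have h4 : (∑ i ∈ s, w i * a i j ^ (2 * K)) / c j ^ (2 * K) ≤ 1 := by
          rw [div_le_one hp]; exact h j
        have h5 : 0 ≤ c j ^ 2 / C := by positivity
        calc _ ≤ c j ^ 2 / C * 1 := mul_le_mul_of_nonneg_left h4 h5
          _ = _ := mul_one _
    refine (Finset.sum_le_sum h3).trans (le_of_eq ?_)
    rw [← Finset.sum_div, ← hCd, div_self hC.ne']
  calc _ ≤ C ^ K * 1 := mul_le_mul_of_nonneg_left h2 (by positivity)
    _ = _ := mul_one _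

theorem khin2 (r : ℕ) (H : J → Matrix ι ι ℂ) :
    ∑ ε : J → Bool, pw (2 ^ r) (ssum H ε) ≤
      2 ^ (Fintype.card J) * ck r * (∑ j, nm r (H j) ^ 2) ^ (2 ^ r) := by
  refine (khin_scalar r H).trans ?_
  have h1 := scalar_moment (fun j => nm r (H j)) (K := 2 ^ r) (by positivity)
  rw [show 2 ^ (r + 1) = 2 * 2 ^ r by ring]
  exact h1

/-- the middle term at one point -/
theorem mid_pt (r M : ℕ) (w : ℕ → ℝ) (hw : ∀ i, 0 < w i) (H : ℕ → J → Matrix ι ι ℂ)
    (E : ℕ → (J → Bool) → ℝ) (hE : ∀ i ε, 0 ≤ E i ε) (c : J → ℝ) (k : (J → Bool) → ℝ)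
    (hc : ∀ j, ∑ i ∈ Finset.range M, w i * pw (2 ^ r) (H i j) ≤ c j ^ (2 ^ (r + 1)))
    (hk : ∀ ε, ∑ i ∈ Finset.range M, w i * E i ε ≤ k ε) :
    ∑ ε : J → Bool, ∑ i ∈ Finset.range M, w i * (nm r (ssum (H i) ε) *
      E i ε ^ (1 - (((2 ^ (r + 1) : ℕ) : ℝ))⁻¹)) ≤
    (2 ^ (Fintype.card J) * ck r) ^ ((((2 ^ (r + 1) : ℕ) : ℝ))⁻¹) * Real.sqrt (∑ j, c j ^ 2) *
      (∑ ε, k ε) ^ (1 - (((2 ^ (r + 1) : ℕ) : ℝ))⁻¹) := by
  have hP : 2 ≤ 2 ^ (r + 1) := two_le_P r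
  have hck : 0 ≤ ck r := by unfold ck; positivity
  rw [← Finset.sum_product' (Finset.univ : Finset (J → Bool)) (Finset.range M)
    (fun ε i => w i * (nm r (ssum (H i) ε) * E i ε ^ (1 - (((2 ^ (r + 1) : ℕ) : ℝ))⁻¹)))]
  refine (whol _ (fun p : (J → Bool) × ℕ => w p.2) (fun p => nm r (ssum (H p.2) p.1))
    (fun p => E p.2 p.1) (fun p => (hw _).le) (fun p => nm_nonneg _ _) (fun p => hE _ _) hP).trans ?_
  simp only [nm_pow]
  have hA : ∑ p ∈ (Finset.univ : Finset (J → Bool)) ×ˢ Finset.range M,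
      w p.2 * pw (2 ^ r) (ssum (H p.2) p.1) ≤
      (2 ^ (Fintype.card J) * ck r) * (∑ j, c j ^ 2) ^ (2 ^ r) := by
    rw [Finset.sum_product, Finset.sum_comm]
    have a1 : ∀ i ∈ Finset.range M, ∑ ε : J → Bool, w i * pw (2 ^ r) (ssum (H i) ε) ≤
        (2 ^ (Fintype.card J) * ck r) * (w i * (∑ j, nm r (H i j) ^ 2) ^ (2 ^ r)) := by
      intro i _
      rw [← Finset.mul_sum]
      refine (mul_le_mul_of_nonneg_left (khin2 r (H i)) (hw i).le).trans_eq ?_
      ring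
    refine (Finset.sum_le_sum a1).trans ?_
    rw [← Finset.mul_sum]
    refine mul_le_mul_of_nonneg_left ?_ (by positivity)
    refine wmink (Finset.range M) w (fun i j => nm r (H i j)) c hw (by positivity) fun j => ?_
    rw [show 2 * 2 ^ r = 2 ^ (r + 1) by ring]
    simp only [nm_pow]
    exact hc j
  have hB : ∑ p ∈ (Finset.univ : Finset (J → Bool)) ×ˢ Finset.range M, w p.2 * E p.2 p.1 ≤
      ∑ ε, k ε := by
    rw [Finset.sum_product]
    exact Finset.sum_le_sum fun ε _ => hk ε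
  have hPp : (0 : ℝ) < ((2 ^ (r + 1) : ℕ) : ℝ) := by positivity
  have hC0 : 0 ≤ ∑ j, c j ^ 2 := Finset.sum_nonneg fun _ _ => sq_nonneg _
  have hβ := be_pos r
  unfold be at hβ
  have hroot : ((∑ j, c j ^ 2) ^ (2 ^ r)) ^ ((((2 ^ (r + 1) : ℕ) : ℝ))⁻¹) =
      Real.sqrt (∑ j, c j ^ 2) := by
    rw [← Real.rpow_natCast, ← Real.rpow_mul hC0, Real.sqrt_eq_rpow]
    congr 1
    push_cast
    have : ((2 : ℝ) ^ r) ≠ 0 := by positivity
    field_simp
    ring
  refine mul_le_mul ?_ (Real.rpow_le_rpow (Finset.sum_nonneg fun p _ =>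
    mul_nonneg (hw _).le (hE _ _)) hB hβ.le) (Real.rpow_nonneg (Finset.sum_nonneg fun p _ =>
    mul_nonneg (hw _).le (hE _ _)) _) (by positivity)
  refine (Real.rpow_le_rpow (Finset.sum_nonneg fun p _ =>
    mul_nonneg (hw _).le (pw_nonneg _ _)) hA (by positivity)).trans_eq ?_
  rw [Real.mul_rpow (by positivity) (by positivity), hroot]

/-- the end term at one point -/
theorem end_pt (r M : ℕ) (w : ℕ → ℝ) (hw : ∀ i, 0 < w i) (H : ℕ → Matrix ι ι ℂ)
    (E : ℕ → ℝ) (hE : ∀ i, 0 ≤ E i) {c k : ℝ} (hc0 : 0 ≤ c)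
    (hc : ∑ i ∈ Finset.range M, w i * pw (2 ^ r) (H i) ≤ c ^ (2 ^ (r + 1)))
    (hk : ∑ i ∈ Finset.range M, w i * E i ≤ k) :
    ∑ i ∈ Finset.range M, w i * (nm r (H i) * E i ^ (1 - (((2 ^ (r + 1) : ℕ) : ℝ))⁻¹)) ≤
    c * k ^ (1 - (((2 ^ (r + 1) : ℕ) : ℝ))⁻¹) := by
  have hP : 2 ≤ 2 ^ (r + 1) := two_le_P r
  have hβ := be_pos r
  unfold be at hβ
  refine (whol _ w (fun i => nm r (H i)) E (fun i => (hw i).le) (fun i => nm_nonneg _ _) hE hP).trans ?_
  simp only [nm_pow]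
  have h1 : (∑ i ∈ Finset.range M, w i * pw (2 ^ r) (H i)) ^ ((((2 ^ (r + 1) : ℕ) : ℝ))⁻¹) ≤ c := by
    refine (Real.rpow_le_rpow (Finset.sum_nonneg fun i _ => mul_nonneg (hw i).le (pw_nonneg _ _)) hc
      (by positivity)).trans_eq ?_
    rw [← Real.rpow_natCast, ← Real.rpow_mul hc0, mul_inv_cancel₀ (by positivity), Real.rpow_one]
  exact mul_le_mul h1 (Real.rpow_le_rpow (Finset.sum_nonneg fun i _ => mul_nonneg (hw i).le (hE i)) hk
    hβ.le) (Real.rpow_nonneg (Finset.sum_nonneg fun i _ => mul_nonneg (hw i).le (hE i)) _) hc0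

end TH364.SG
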