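import Mathlib
import Pool.Agent.TH364.SG.W1
set_option autoImplicit false
set_option linter.unusedSectionVars false

/-! The weighted smoothing and telescoping inequality. -/

namespace TH364.SG

open Matrix Finset
open scoped ComplexOrder

universe u v
variable {ι : Type u} [Fintype ι] [DecidableEq ι] {J : Type v} [Fintype J] [DecidableEq J]

section mcw
variable {Γ : Type*} [AddCommGroup Γ] [Fintype Γ] {e : J → Γ}
variable {r M : ℕ} {w : ℕ → ℝ} (hw : ∀ i, 0 < w i)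
  {H : ℕ → J → Γ → Matrix ι ι ℂ} {V : ℕ → Γ → Matrix ι ι ℂ} {E : ℕ → Γ → Γ → ℝ}
  (hE : ∀ i x y, 0 ≤ E i x y)
  (hloc : ∀ i Z x y, ‖(Z * (V i x - V i y)).trace‖ ≤
    nm r Z * (E i x y) ^ (1 - (((2 ^ (r + 1) : ℕ) : ℝ))⁻¹))
  {c : J → Γ → ℝ} (hc0 : ∀ j x, 0 ≤ c j x)
  (hc : ∀ j x, ∑ i ∈ Finset.range M, w i * pw (2 ^ r) (H i j x) ≤ c j x ^ (2 ^ (r + 1)))
  {k : Γ → Γ → ℝ} (hk : ∀ x y, ∑ i ∈ Finset.range M, w i * E i x y ≤ k x y)

include hw hE hloc hc0 hc hk

theorem end_w (Y Y' : J → (J → Bool) → Γ → Γ) :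
    ‖∑ i ∈ Finset.range M, (w i : ℂ) * ∑ x, ∑ j, ∑ ε : J → Bool,
      (H i j x * (V i (Y j ε x) - V i (Y' j ε x))).trace‖ ≤
    ∑ x, ∑ j, ∑ ε : J → Bool, c j x * k (Y j ε x) (Y' j ε x) ^
      (1 - (((2 ^ (r + 1) : ℕ) : ℝ))⁻¹) := by
  have e1 : ∑ i ∈ Finset.range M, (w i : ℂ) * ∑ x, ∑ j, ∑ ε : J → Bool,
      (H i j x * (V i (Y j ε x) - V i (Y' j ε x))).trace =
      ∑ x, ∑ j, ∑ ε : J → Bool, ∑ i ∈ Finset.range M, (w i : ℂ) *
        (H i j x * (V i (Y j ε x) - V i (Y' j ε x))).trace := by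
    simp only [Finset.mul_sum]
    rw [Finset.sum_comm]
    refine Finset.sum_congr rfl fun x _ => ?_
    rw [Finset.sum_comm]
    refine Finset.sum_congr rfl fun j _ => ?_
    rw [Finset.sum_comm]
  rw [e1]
  refine (norm_sum_le _ _).trans (Finset.sum_le_sum fun x _ => ?_)
  refine (norm_sum_le _ _).trans (Finset.sum_le_sum fun j _ => ?_)
  refine (norm_sum_le _ _).trans (Finset.sum_le_sum fun ε _ => ?_)
  refine le_trans ?_ (end_pt r M w hw (fun i => H i j x) (fun i => E i (Y j ε x) (Y' j ε x))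
    (fun i => hE _ _ _) (hc0 j x) (hc j x) (hk _ _))
  refine (norm_sum_le _ _).trans (Finset.sum_le_sum fun i _ => ?_)
  rw [norm_mul, Complex.norm_real, Real.norm_of_nonneg (hw i).le]
  exact mul_le_mul_of_nonneg_left (hloc _ _ _ _) (hw i).le

theorem mid_w (Y : J → Γ → Γ) :
    ‖∑ i ∈ Finset.range M, (w i : ℂ) * ∑ y, ∑ ε : J → Bool,
      (ssum (fun j => H i j (Y j y)) ε * (V i (y + sft e ε) - V i y)).trace‖ ≤
    ∑ y, (2 ^ (Fintype.card J) * ck r) ^ ((((2 ^ (r + 1) : ℕ) : ℝ))⁻¹) *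
      Real.sqrt (∑ j, c j (Y j y) ^ 2) *
      (∑ ε, k (y + sft e ε) y) ^ (1 - (((2 ^ (r + 1) : ℕ) : ℝ))⁻¹) := by
  have e1 : ∑ i ∈ Finset.range M, (w i : ℂ) * ∑ y, ∑ ε : J → Bool,
      (ssum (fun j => H i j (Y j y)) ε * (V i (y + sft e ε) - V i y)).trace =
      ∑ y, ∑ ε : J → Bool, ∑ i ∈ Finset.range M, (w i : ℂ) *
      (ssum (fun j => H i j (Y j y)) ε * (V i (y + sft e ε) - V i y)).trace := by
    simp only [Finset.mul_sum]
    rw [Finset.sum_comm]
    refine Finset.sum_congr rfl fun x _ => ?_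
    rw [Finset.sum_comm]
  rw [e1]
  refine (norm_sum_le _ _).trans (Finset.sum_le_sum fun y _ => ?_)
  refine le_trans ?_ (mid_pt r M w hw (fun i j => H i j (Y j y)) (fun i ε => E i (y + sft e ε) y)
    (fun i ε => hE _ _ _) (fun j => c j (Y j y)) (fun ε => k (y + sft e ε) y)
    (fun j => hc j _) (fun ε => hk _ _))
  refine (norm_sum_le _ _).trans (Finset.sum_le_sum fun ε _ => ?_)
  refine (norm_sum_le _ _).trans (Finset.sum_le_sum fun i _ => ?_)
  rw [norm_mul, Complex.norm_real, Real.norm_of_nonneg (hw i).le]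
  exact mul_le_mul_of_nonneg_left (hloc _ _ _ _) (hw i).le

theorem mc_w (l : ℕ) :
    2 ^ (Fintype.card J) * ‖∑ i ∈ Finset.range M, (w i : ℂ) * ∑ x, ∑ j,
      (H i j x * (V i (x + (2 * l) • e j) - V i x)).trace‖ ≤
    (∑ x, ∑ j, ∑ ε : J → Bool, c j x *
      k (x + (2 * l) • e j) (x + (2 * l) • e j + sfj e j ε) ^ (1 - (((2 ^ (r + 1) : ℕ) : ℝ))⁻¹)) +
    (∑ x, ∑ j, ∑ ε : J → Bool, c j x * k (x + sfj e j ε) x ^ (1 - (((2 ^ (r + 1) : ℕ) : ℝ))⁻¹)) +
    ∑ m ∈ Finset.range l, 2 * ∑ y, (2 ^ (Fintype.card J) * ck r) ^ ((((2 ^ (r + 1) : ℕ) : ℝ))⁻¹) *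
      Real.sqrt (∑ j, c j (y - (2 * m + 1) • e j) ^ 2) *
      (∑ ε, k (y + sft e ε) y) ^ (1 - (((2 ^ (r + 1) : ℕ) : ℝ))⁻¹) := by
  -- the three parts
  have s1 := end_w hw hE hloc hc0 hc hk (fun j _ x => x + (2 * l) • e j)
    (fun j ε x => x + (2 * l) • e j + sfj e j ε)
  have s2 := end_w hw hE hloc hc0 hc hk (fun j ε x => x + sfj e j ε) (fun j _ x => x)
  have s3 : ∀ m : ℕ, _ := fun m => mid_w (e := e) hw hE hloc hc0 hc hk
    (fun j y => y - (2 * m + 1) • e j)
  -- the decomposition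
  have d1 : ∀ i, (2 ^ (Fintype.card J) : ℂ) * ∑ x, ∑ j,
      (H i j x * (V i (x + (2 * l) • e j) - V i x)).trace =
      (∑ x, ∑ j, ∑ ε : J → Bool,
        (H i j x * (V i (x + (2 * l) • e j) - V i (x + (2 * l) • e j + sfj e j ε))).trace) +
      (∑ x, ∑ j, ∑ ε : J → Bool, (H i j x * (V i (x + sfj e j ε) - V i x)).trace) +
      ∑ x, ∑ j, ∑ ε : J → Bool,
        (H i j x * (V i (x + (2 * l) • e j + sfj e j ε) - V i (x + sfj e j ε))).trace := by
    intro i
    rw [← Finset.sum_add_distrib, ← Finset.sum_add_distrib, Finset.mul_sum]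
    refine Finset.sum_congr rfl fun x _ => ?_
    rw [← Finset.sum_add_distrib, ← Finset.sum_add_distrib, Finset.mul_sum]
    refine Finset.sum_congr rfl fun j _ => ?_
    rw [← Finset.sum_add_distrib, ← Finset.sum_add_distrib]
    have : ∀ ε : J → Bool,
        (H i j x * (V i (x + (2 * l) • e j) - V i (x + (2 * l) • e j + sfj e j ε))).trace +
        (H i j x * (V i (x + sfj e j ε) - V i x)).trace +
        (H i j x * (V i (x + (2 * l) • e j + sfj e j ε) - V i (x + sfj e j ε))).trace =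
        (H i j x * (V i (x + (2 * l) • e j) - V i x)).trace := by
      intro ε
      rw [← Matrix.trace_add, ← Matrix.mul_add, ← Matrix.trace_add, ← Matrix.mul_add]
      congr 2
      abel
    simp only [this]
    rw [Finset.sum_const, Finset.card_univ, Fintype.card_fun, Fintype.card_bool, nsmul_eq_mul]
    push_cast; rfl
  have d2 : ∀ i, ∑ x, ∑ j, ∑ ε : J → Bool,
        (H i j x * (V i (x + (2 * l) • e j + sfj e j ε) - V i (x + sfj e j ε))).trace =
      2 * ∑ m ∈ Finset.range l, ∑ y, ∑ ε : J → Bool,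
        (ssum (fun j => H i j (y - (2 * m + 1) • e j)) ε * (V i (y + sft e ε) - V i y)).trace := by
    intro i
    have t1 : ∀ x j, ∑ ε : J → Bool,
        (H i j x * (V i (x + (2 * l) • e j + sfj e j ε) - V i (x + sfj e j ε))).trace =
        ∑ m ∈ Finset.range l, ∑ ε : J → Bool, (2 * ((sg (ε j) : ℝ) : ℂ)) *
          (H i j x * (V i (x + (2 * m + 1) • e j + sft e ε) - V i (x + (2 * m + 1) • e j))).trace := by
      intro x j
      rw [← Matrix.trace_sum, ← Matrix.mul_sum, telescope e j (V i) x l, Matrix.mul_sum,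
        Matrix.trace_sum]
      refine Finset.sum_congr rfl fun m _ => ?_
      rw [Matrix.mul_sum, Matrix.trace_sum]
      refine Finset.sum_congr rfl fun ε _ => ?_
      rw [Matrix.mul_smul, Matrix.trace_smul, Complex.real_smul]
      push_cast; rfl
    simp only [t1]
    have t2 : ∑ x, ∑ j, ∑ m ∈ Finset.range l, ∑ ε : J → Bool, (2 * ((sg (ε j) : ℝ) : ℂ)) *
          (H i j x * (V i (x + (2 * m + 1) • e j + sft e ε) - V i (x + (2 * m + 1) • e j))).trace =
        ∑ m ∈ Finset.range l, ∑ j, ∑ x, ∑ ε : J → Bool, (2 * ((sg (ε j) : ℝ) : ℂ)) *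
          (H i j x * (V i (x + (2 * m + 1) • e j + sft e ε) - V i (x + (2 * m + 1) • e j))).trace := by
      rw [Finset.sum_comm]
      rw [Finset.sum_comm (s := Finset.range l)]
      refine Finset.sum_congr rfl fun j _ => ?_
      rw [Finset.sum_comm]
    rw [t2, Finset.mul_sum]
    refine Finset.sum_congr rfl fun m _ => ?_
    have t3 : ∀ j, ∑ x, ∑ ε : J → Bool, (2 * ((sg (ε j) : ℝ) : ℂ)) *
          (H i j x * (V i (x + (2 * m + 1) • e j + sft e ε) - V i (x + (2 * m + 1) • e j))).trace =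
        ∑ y, ∑ ε : J → Bool, (2 * ((sg (ε j) : ℝ) : ℂ)) *
          (H i j (y - (2 * m + 1) • e j) * (V i (y + sft e ε) - V i y)).trace := by
      intro j
      rw [← Equiv.sum_comp (Equiv.subRight ((2 * m + 1) • e j))]
      refine Finset.sum_congr rfl fun y _ => ?_
      refine Finset.sum_congr rfl fun ε _ => ?_
      simp only [Equiv.subRight_apply, sub_add_cancel]
    simp only [t3]
    rw [Finset.sum_comm, Finset.mul_sum]
    refine Finset.sum_congr rfl fun y _ => ?_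
    rw [Finset.sum_comm, Finset.mul_sum]
    refine Finset.sum_congr rfl fun ε _ => ?_
    unfold ssum
    rw [Matrix.sum_mul, Matrix.trace_sum, Finset.mul_sum]
    refine Finset.sum_congr rfl fun j _ => ?_
    rw [Matrix.smul_mul, Matrix.trace_smul, smul_eq_mul]
    ring
  have d3 : (2 ^ (Fintype.card J) : ℂ) * ∑ i ∈ Finset.range M, (w i : ℂ) * ∑ x, ∑ j,
      (H i j x * (V i (x + (2 * l) • e j) - V i x)).trace =
      (∑ i ∈ Finset.range M, (w i : ℂ) * ∑ x, ∑ j, ∑ ε : J → Bool,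
        (H i j x * (V i (x + (2 * l) • e j) - V i (x + (2 * l) • e j + sfj e j ε))).trace) +
      (∑ i ∈ Finset.range M, (w i : ℂ) * ∑ x, ∑ j, ∑ ε : J → Bool,
        (H i j x * (V i (x + sfj e j ε) - V i x)).trace) +
      ∑ m ∈ Finset.range l, 2 * ∑ i ∈ Finset.range M, (w i : ℂ) * ∑ y, ∑ ε : J → Bool,
        (ssum (fun j => H i j (y - (2 * m + 1) • e j)) ε * (V i (y + sft e ε) - V i y)).trace := by
    rw [← Finset.sum_add_distrib, Finset.mul_sum]
    have t4 : ∑ m ∈ Finset.range l, 2 * ∑ i ∈ Finset.range M, (w i : ℂ) * ∑ y, ∑ ε : J → Bool,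
        (ssum (fun j => H i j (y - (2 * m + 1) • e j)) ε * (V i (y + sft e ε) - V i y)).trace =
        ∑ i ∈ Finset.range M, (w i : ℂ) * (2 * ∑ m ∈ Finset.range l, ∑ y, ∑ ε : J → Bool,
        (ssum (fun j => H i j (y - (2 * m + 1) • e j)) ε * (V i (y + sft e ε) - V i y)).trace) := by
      simp only [Finset.mul_sum]
      rw [Finset.sum_comm]
      refine Finset.sum_congr rfl fun i _ => ?_
      refine Finset.sum_congr rfl fun m _ => ?_
      refine Finset.sum_congr rfl fun y _ => ?_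
      refine Finset.sum_congr rfl fun ε _ => ?_
      ring
    rw [t4, ← Finset.sum_add_distrib]
    refine Finset.sum_congr rfl fun i _ => ?_
    rw [← d2 i, mul_left_comm, d1 i]
    ring
  have n0 : (2 : ℝ) ^ (Fintype.card J) * ‖∑ i ∈ Finset.range M, (w i : ℂ) * ∑ x, ∑ j,
      (H i j x * (V i (x + (2 * l) • e j) - V i x)).trace‖ =
      ‖(2 ^ (Fintype.card J) : ℂ) * ∑ i ∈ Finset.range M, (w i : ℂ) * ∑ x, ∑ j,
      (H i j x * (V i (x + (2 * l) • e j) - V i x)).trace‖ := by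
    rw [norm_mul, norm_pow, Complex.norm_two]
  rw [n0, d3]
  refine (norm_add_le _ _).trans (add_le_add ((norm_add_le _ _).trans (add_le_add s1 s2)) ?_)
  refine (norm_sum_le _ _).trans (Finset.sum_le_sum fun m _ => ?_)
  rw [norm_mul, Complex.norm_two]
  exact mul_le_mul_of_nonneg_left (s3 m) (by norm_num)

end mcw

end TH364.SG
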