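import Mathlib
import Pool.Agent.TH364.SG.W2
set_option autoImplicit false
set_option linter.unusedSectionVars false

/-! Numerical assembly of the weighted inequality. -/

namespace TH364.SG

open Matrix Finset
open scoped ComplexOrder

universe u v
variable {ι : Type u} [Fintype ι] [DecidableEq ι] {J : Type v} [Fintype J] [DecidableEq J]

theorem comb {Tn D X a b q β γ : ℝ} (hT : 0 < Tn) (hD : 0 ≤ D) (hX : 0 ≤ X) (ha : 0 ≤ a)
    (hb : 0 ≤ b) (hq : 1 < q) (hβ : 0 ≤ β) (hγ : 0 ≤ γ) (h : β + γ = 1) :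
    (Tn * X) ^ ((q - 1) / q) * ((Tn * (D * a ^ q)) ^ (β / q) * (Tn * (D * b ^ q)) ^ (γ / q)) =
      Tn * (X ^ ((q - 1) / q) * (D ^ (1 / q) * (a ^ β * b ^ γ))) := by
  have hq0 : 0 < q := by linarith
  have haq : 0 ≤ a ^ q := Real.rpow_nonneg ha _
  have hbq : 0 ≤ b ^ q := Real.rpow_nonneg hb _
  rw [Real.mul_rpow hT.le hX, Real.mul_rpow hT.le (mul_nonneg hD haq), Real.mul_rpow hD haq,
    Real.mul_rpow hT.le (mul_nonneg hD hbq), Real.mul_rpow hD hbq, ← Real.rpow_mul ha,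
    ← Real.rpow_mul hb, mul_div_cancel₀ _ hq0.ne', mul_div_cancel₀ _ hq0.ne']
  have e1 : Tn ^ ((q - 1) / q) * Tn ^ (β / q) * Tn ^ (γ / q) = Tn := by
    rw [← Real.rpow_add hT, ← Real.rpow_add hT]
    have : (q - 1) / q + β / q + γ / q = 1 := by field_simp; linarith
    rw [this, Real.rpow_one]
  have e2 : D ^ (β / q) * D ^ (γ / q) = D ^ (1 / q) := by
    rw [← Real.rpow_add_of_nonneg hD (by positivity) (by positivity)]
    congr 1
    rw [← h]; ring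
  calc _ = (Tn ^ ((q - 1) / q) * Tn ^ (β / q) * Tn ^ (γ / q)) * (X ^ ((q - 1) / q) *
      ((D ^ (β / q) * D ^ (γ / q)) * (a ^ β * b ^ γ))) := by ring
    _ = _ := by rw [e1, e2]

theorem comb2 {n N a b q β γ : ℝ} (hn : 0 ≤ n) (hN : 0 ≤ N) (ha : 0 ≤ a)
    (hb : 0 ≤ b) (hq : 1 < q) (hβ : 0 ≤ β) (hγ : 0 ≤ γ) (h : β + γ = 1) :
    ((N * n * a ^ q) ^ (β / q) * (N * b ^ q) ^ (γ / q)) =
      (n ^ (β / q) * (N ^ (1 / q) * (a ^ β * b ^ γ))) := by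
  have hq0 : 0 < q := by linarith
  have haq : 0 ≤ a ^ q := Real.rpow_nonneg ha _
  have hbq : 0 ≤ b ^ q := Real.rpow_nonneg hb _
  rw [Real.mul_rpow (mul_nonneg hN hn) haq, Real.mul_rpow hN hn, Real.mul_rpow hN hbq,
    ← Real.rpow_mul ha, ← Real.rpow_mul hb, mul_div_cancel₀ _ hq0.ne', mul_div_cancel₀ _ hq0.ne']
  have e2 : N ^ (β / q) * N ^ (γ / q) = N ^ (1 / q) := by
    rw [← Real.rpow_add_of_nonneg hN (by positivity) (by positivity)]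
    congr 1
    rw [← h]; ring
  calc _ = n ^ (β / q) * ((N ^ (β / q) * N ^ (γ / q)) * (a ^ β * b ^ γ)) := by ring
    _ = _ := by rw [e2]

theorem le_lq (g : J → ℝ) (hg : ∀ j, 0 ≤ g j) {q : ℝ} (hq : 0 < q) (j : J) :
    g j ≤ (∑ j, g j ^ q) ^ (1 / q) := by
  have h1 : g j ^ q ≤ ∑ j, g j ^ q :=
    Finset.single_le_sum (f := fun j => g j ^ q) (fun j _ => Real.rpow_nonneg (hg j) _)
      (Finset.mem_univ j)
  have h2 := Real.rpow_le_rpow (Real.rpow_nonneg (hg j) _) h1 (by positivity : 0 ≤ 1 / q)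
  rwa [← Real.rpow_mul (hg j), mul_one_div_cancel hq.ne', Real.rpow_one] at h2

theorem sq_le_lq (g : J → ℝ) (hg : ∀ j, 0 ≤ g j) {q : ℝ} (hq : 2 ≤ q) :
    ∑ j, (g j ^ (q - 1)) ^ 2 ≤ (((∑ j, g j ^ q) ^ (1 / q)) ^ (q - 1)) ^ 2 := by
  set F := (∑ j, g j ^ q) ^ (1 / q) with hF
  have hS0 : 0 ≤ ∑ j, g j ^ q := Finset.sum_nonneg fun j _ => Real.rpow_nonneg (hg j) _
  have hF0 : 0 ≤ F := Real.rpow_nonneg hS0 _
  have hFq : F ^ q = ∑ j, g j ^ q := by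
    rw [hF, ← Real.rpow_mul hS0, one_div_mul_cancel (by linarith), Real.rpow_one]
  have e : ∀ x : ℝ, 0 ≤ x → (x ^ (q - 1)) ^ 2 = x ^ q * x ^ (q - 2) := by
    intro x hx
    rw [sq, ← Real.rpow_add_of_nonneg hx (by linarith) (by linarith),
      ← Real.rpow_add_of_nonneg hx (by linarith) (by linarith)]
    congr 1
    ring
  rw [e F hF0, hFq, Finset.sum_mul]
  refine Finset.sum_le_sum fun j _ => ?_
  rw [e _ (hg j)]
  exact mul_le_mul_of_nonneg_left (Real.rpow_le_rpow (hg j) (le_lq g hg (by linarith) j)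
    (by linarith)) (Real.rpow_nonneg (hg j) _)

theorem eight (r : ℕ) : (4 * wr r) ^ ((((2 ^ (r + 1) : ℕ) : ℝ))⁻¹) *
    4 ^ (1 - (((2 ^ (r + 1) : ℕ) : ℝ))⁻¹) = 8 := by
  rw [Real.mul_rpow (by norm_num) (wr_pos r).le, wr_root]
  have h3 : (4 : ℝ) ^ ((((2 ^ (r + 1) : ℕ) : ℝ))⁻¹) * 4 ^ (1 - (((2 ^ (r + 1) : ℕ) : ℝ))⁻¹) = 4 := by
    rw [← Real.rpow_add (by norm_num)]
    simp
  calc _ = 2 * ((4 : ℝ) ^ ((((2 ^ (r + 1) : ℕ) : ℝ))⁻¹) *
      4 ^ (1 - (((2 ^ (r + 1) : ℕ) : ℝ))⁻¹)) := by ring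
    _ = 8 := by rw [h3]; norm_num

variable {Γ : Type*} [AddCommGroup Γ] [Fintype Γ]

theorem end_sum (r : ℕ) (T t : J → Γ → ℝ) (κ : Γ → J → (J → Bool) → ℝ) (hT : ∀ j x, 0 ≤ T j x)
    (ht : ∀ j x, 0 ≤ t j x) (hκ : ∀ x j ε, 0 ≤ κ x j ε) {q a b : ℝ} (hq : 2 ≤ q) (a0 : 0 ≤ a)
    (b0 : 0 ≤ b)
    (hta : ∑ x, ∑ j, t j x ^ q ≤ (Fintype.card Γ : ℝ) * Fintype.card J * a ^ q)
    (hkb : ∑ x, ∑ j, ∑ ε : J → Bool, κ x j ε ^ q ≤
      2 ^ (Fintype.card J) * ((Fintype.card Γ : ℝ) * Fintype.card J * b ^ q)) :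
    ∑ x, ∑ j, ∑ ε : J → Bool, (T j x ^ (q - 1) * (4 * wr r * t j x) ^ ((((2 ^ (r + 1) : ℕ) : ℝ))⁻¹)) *
      (4 * κ x j ε) ^ (1 - (((2 ^ (r + 1) : ℕ) : ℝ))⁻¹) ≤
    8 * (2 ^ (Fintype.card J) * ((∑ x, ∑ j, T j x ^ q) ^ ((q - 1) / q) *
      (((Fintype.card Γ : ℝ) * Fintype.card J) ^ (1 / q) * (a ^ ((((2 ^ (r + 1) : ℕ) : ℝ))⁻¹) *
        b ^ (1 - (((2 ^ (r + 1) : ℕ) : ℝ))⁻¹))))) := by
  have hβ := be_pos r
  unfold be at hβ
  have hα : 0 < (((2 ^ (r + 1) : ℕ) : ℝ))⁻¹ := by positivity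
  have h8 := eight r
  have hwr := wr_pos r
  set α := (((2 ^ (r + 1) : ℕ) : ℝ))⁻¹ with hαd
  have e1 : ∀ x j (ε : J → Bool), (T j x ^ (q - 1) * (4 * wr r * t j x) ^ α) *
      (4 * κ x j ε) ^ (1 - α) = 8 * (T j x ^ (q - 1) * (t j x ^ α * κ x j ε ^ (1 - α))) := by
    intro x j ε
    rw [Real.mul_rpow (by positivity) (ht j x), Real.mul_rpow (by norm_num) (hκ x j ε), ← h8]
    ring
  simp only [e1, ← Finset.mul_sum]
  refine mul_le_mul_of_nonneg_left ?_ (by norm_num)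
  have h := holder3 (Finset.univ : Finset (Γ × J × (J → Bool))) (fun p => T p.2.1 p.1)
    (fun p => t p.2.1 p.1) (fun p => κ p.1 p.2.1 p.2.2) (fun p => hT _ _) (fun p => ht _ _)
    (fun p => hκ _ _ _) (q := q) (by linarith) hα hβ (by ring)
  simp only [Fintype.sum_prod_type] at h
  simp only [Finset.mul_sum]
  refine h.trans ?_
  have c1 : ∀ g : J → Γ → ℝ, ∑ x, ∑ j, ∑ _ε : J → Bool, g j x = 2 ^ (Fintype.card J) * ∑ x, ∑ j, g j x := by
    intro g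
    simp only [Finset.sum_const, Finset.card_univ, Fintype.card_fun, Fintype.card_bool,
      nsmul_eq_mul, ← Finset.mul_sum]
    push_cast; rfl
  rw [c1 (fun j x => T j x ^ q), c1 (fun j x => t j x ^ q)]
  have hX0 : 0 ≤ ∑ x, ∑ j, T j x ^ q := Finset.sum_nonneg fun x _ => Finset.sum_nonneg fun j _ =>
    Real.rpow_nonneg (hT j x) _
  have ht0 : 0 ≤ ∑ x, ∑ j, t j x ^ q := Finset.sum_nonneg fun x _ => Finset.sum_nonneg fun j _ =>
    Real.rpow_nonneg (ht j x) _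
  have hk0 : 0 ≤ ∑ x, ∑ j, ∑ ε : J → Bool, κ x j ε ^ q := Finset.sum_nonneg fun x _ =>
    Finset.sum_nonneg fun j _ => Finset.sum_nonneg fun ε _ => Real.rpow_nonneg (hκ x j ε) _
  rw [← comb (Tn := 2 ^ (Fintype.card J)) (D := (Fintype.card Γ : ℝ) * Fintype.card J)
    (by positivity) (by positivity) hX0 a0 b0 (by linarith : 1 < q) hα.le hβ.le (by ring)]
  refine mul_le_mul_of_nonneg_left ?_ (by positivity)
  refine mul_le_mul (Real.rpow_le_rpow (by positivity)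
    (mul_le_mul_of_nonneg_left hta (by positivity)) (by positivity))
    (Real.rpow_le_rpow hk0 hkb (by positivity)) (Real.rpow_nonneg hk0 _) (by positivity)

theorem mid_sum (r : ℕ) (T t : J → Γ → ℝ) (κ : Γ → (J → Bool) → ℝ) (hT : ∀ j x, 0 ≤ T j x)
    (ht : ∀ j x, 0 ≤ t j x) (hκ : ∀ x ε, 0 ≤ κ x ε) {q a b : ℝ} (hq : 2 ≤ q) (a0 : 0 ≤ a)
    (b0 : 0 ≤ b) (Y : J → Γ → Γ) (hY : ∀ j, Function.Bijective (Y j))
    (hta : ∑ x, ∑ j, t j x ^ q ≤ (Fintype.card Γ : ℝ) * Fintype.card J * a ^ q)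
    (hkb : ∑ x, ∑ ε : J → Bool, κ x ε ^ q ≤ 2 ^ (Fintype.card J) * ((Fintype.card Γ : ℝ) * b ^ q)) :
    ∑ y, (2 ^ (Fintype.card J) * ck r) ^ ((((2 ^ (r + 1) : ℕ) : ℝ))⁻¹) *
      Real.sqrt (∑ j, (T j (Y j y) ^ (q - 1) *
        (4 * wr r * t j (Y j y)) ^ ((((2 ^ (r + 1) : ℕ) : ℝ))⁻¹)) ^ 2) *
      (∑ ε : J → Bool, 4 * κ y ε) ^ (1 - (((2 ^ (r + 1) : ℕ) : ℝ))⁻¹) ≤
    8 * (2 ^ (Fintype.card J) * (ck r ^ ((((2 ^ (r + 1) : ℕ) : ℝ))⁻¹) *
      ((∑ x, ∑ j, T j x ^ q) ^ ((q - 1) / q) *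
      ((Fintype.card J : ℝ) ^ ((((2 ^ (r + 1) : ℕ) : ℝ))⁻¹ / q) * ((Fintype.card Γ : ℝ) ^ (1 / q) *
        (a ^ ((((2 ^ (r + 1) : ℕ) : ℝ))⁻¹) * b ^ (1 - (((2 ^ (r + 1) : ℕ) : ℝ))⁻¹))))))) := by
  have hβ := be_pos r
  unfold be at hβ
  have hα : 0 < (((2 ^ (r + 1) : ℕ) : ℝ))⁻¹ := by positivity
  have h8 := eight r
  have hwr := wr_pos r
  have hck : 0 ≤ ck r := by unfold ck; positivity
  have hq0 : 0 < q := by linarith
  set α := (((2 ^ (r + 1) : ℕ) : ℝ))⁻¹ with hαd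
  set Tn : ℝ := 2 ^ (Fintype.card J) with hTn
  have hTn0 : 0 < Tn := by positivity
  set f : Γ → ℝ := fun y => (∑ j, T j (Y j y) ^ q) ^ (1 / q) with hf
  set R : Γ → ℝ := fun y => (∑ j, t j (Y j y) ^ q) ^ (1 / q) with hR
  set B : Γ → ℝ := fun y => (∑ ε : J → Bool, κ y ε) / Tn with hB
  have sT : ∀ y, 0 ≤ ∑ j, T j (Y j y) ^ q := fun y =>
    Finset.sum_nonneg fun j _ => Real.rpow_nonneg (hT _ _) _
  have st : ∀ y, 0 ≤ ∑ j, t j (Y j y) ^ q := fun y =>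
    Finset.sum_nonneg fun j _ => Real.rpow_nonneg (ht _ _) _
  have f0 : ∀ y, 0 ≤ f y := fun y => Real.rpow_nonneg (sT y) _
  have R0 : ∀ y, 0 ≤ R y := fun y => Real.rpow_nonneg (st y) _
  have B0 : ∀ y, 0 ≤ B y := fun y => div_nonneg (Finset.sum_nonneg fun ε _ => hκ _ _) hTn0.le
  have fq : ∀ y, f y ^ q = ∑ j, T j (Y j y) ^ q := by
    intro y
    rw [hf]; dsimp only
    rw [← Real.rpow_mul (sT y), one_div_mul_cancel hq0.ne', Real.rpow_one]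
  have Rq : ∀ y, R y ^ q = ∑ j, t j (Y j y) ^ q := by
    intro y
    rw [hR]; dsimp only
    rw [← Real.rpow_mul (st y), one_div_mul_cancel hq0.ne', Real.rpow_one]
  have Bq : ∀ y, B y ^ q ≤ (∑ ε : J → Bool, κ y ε ^ q) / Tn := by
    intro y
    have hcard : ∑ _ε : J → Bool, (1 / Tn) = 1 := by
      rw [Finset.sum_const, Finset.card_univ, Fintype.card_fun, Fintype.card_bool, nsmul_eq_mul]
      push_cast
      rw [← hTn]
      field_simp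
    have h := Real.rpow_arith_mean_le_arith_mean_rpow (Finset.univ : Finset (J → Bool))
      (fun _ => 1 / Tn) (fun ε => κ y ε) (fun _ _ => by positivity) hcard (fun ε _ => hκ _ _)
      (p := q) (by linarith)
    rw [← Finset.mul_sum, ← Finset.mul_sum, one_div_mul_eq_div, one_div_mul_eq_div] at h
    exact h
  have pt : ∀ y, (Tn * ck r) ^ α * Real.sqrt (∑ j, (T j (Y j y) ^ (q - 1) *
        (4 * wr r * t j (Y j y)) ^ α) ^ 2) * (∑ ε : J → Bool, 4 * κ y ε) ^ (1 - α) ≤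
      8 * (Tn * (ck r ^ α * (f y ^ (q - 1) * (R y ^ α * B y ^ (1 - α))))) := by
    intro y
    have h1 : Real.sqrt (∑ j, (T j (Y j y) ^ (q - 1) * (4 * wr r * t j (Y j y)) ^ α) ^ 2) ≤
        f y ^ (q - 1) * (4 * wr r * R y) ^ α := by
      have hr0 : 0 ≤ (4 * wr r * R y) ^ α :=
        Real.rpow_nonneg (mul_nonneg (by positivity) (R0 y)) _
      refine Real.sqrt_le_iff.2 ⟨mul_nonneg (Real.rpow_nonneg (f0 y) _) hr0, ?_⟩
      rw [mul_pow]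
      have h2 := sq_le_lq (fun j => T j (Y j y)) (fun j => hT _ _) hq
      refine le_trans ?_ (mul_le_mul_of_nonneg_right h2 (sq_nonneg _))
      rw [Finset.sum_mul]
      refine Finset.sum_le_sum fun j _ => ?_
      rw [mul_pow]
      refine mul_le_mul_of_nonneg_left ?_ (sq_nonneg _)
      have h3 : t j (Y j y) ≤ R y := le_lq (fun j => t j (Y j y)) (fun j => ht _ _) hq0 j
      have h4 : 0 ≤ 4 * wr r * t j (Y j y) := mul_nonneg (by positivity) (ht _ _)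
      refine pow_le_pow_left₀ (Real.rpow_nonneg h4 _) ?_ 2
      exact Real.rpow_le_rpow h4 (mul_le_mul_of_nonneg_left h3 (by positivity)) hα.le
    have h5 : ∑ ε : J → Bool, 4 * κ y ε = 4 * (Tn * B y) := by
      rw [← Finset.mul_sum, hB]; dsimp only
      rw [mul_div_cancel₀ _ hTn0.ne']
    rw [h5]
    refine (mul_le_mul_of_nonneg_right (mul_le_mul_of_nonneg_left h1
      (Real.rpow_nonneg (mul_nonneg hTn0.le hck) _))
      (Real.rpow_nonneg (mul_nonneg (by norm_num) (mul_nonneg hTn0.le (B0 y))) _)).trans (le_of_eq ?_)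
    rw [Real.mul_rpow hTn0.le hck, Real.mul_rpow (by positivity : 0 ≤ 4 * wr r) (R0 y),
      Real.mul_rpow (by norm_num) (mul_nonneg hTn0.le (B0 y)), Real.mul_rpow hTn0.le (B0 y), ← h8]
    have h6 : Tn ^ α * Tn ^ (1 - α) = Tn := by
      rw [← Real.rpow_add hTn0]; simp
    calc _ = ((4 * wr r) ^ α * 4 ^ (1 - α)) * ((Tn ^ α * Tn ^ (1 - α)) *
        (ck r ^ α * (f y ^ (q - 1) * (R y ^ α * B y ^ (1 - α))))) := by ring
      _ = _ := by rw [h6]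
  refine (Finset.sum_le_sum fun y _ => pt y).trans ?_
  rw [← Finset.mul_sum, ← Finset.mul_sum, ← Finset.mul_sum]
  refine mul_le_mul_of_nonneg_left (mul_le_mul_of_nonneg_left (mul_le_mul_of_nonneg_left ?_
    (Real.rpow_nonneg hck _)) hTn0.le) (by norm_num)
  refine (holder3 (Finset.univ : Finset Γ) f R B f0 R0 B0 (by linarith) hα hβ (by ring)).trans ?_
  have tr : ∀ g : J → Γ → ℝ, ∑ y, ∑ j, g j (Y j y) = ∑ x, ∑ j, g j x := by
    intro g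
    rw [Finset.sum_comm]
    rw [Finset.sum_comm (s := (Finset.univ : Finset Γ))]
    refine Finset.sum_congr rfl fun j _ => ?_
    exact Equiv.sum_comp (Equiv.ofBijective (Y j) (hY j)) (fun x => g j x)
  have s1 : ∑ y, f y ^ q = ∑ x, ∑ j, T j x ^ q := by
    simp only [fq]
    exact tr (fun j x => T j x ^ q)
  have s2 : ∑ y, R y ^ q ≤ (Fintype.card Γ : ℝ) * Fintype.card J * a ^ q := by
    simp only [Rq]
    rw [tr (fun j x => t j x ^ q)]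
    exact hta
  have s3 : ∑ y, B y ^ q ≤ (Fintype.card Γ : ℝ) * b ^ q := by
    refine (Finset.sum_le_sum fun y _ => Bq y).trans ?_
    rw [← Finset.sum_div, div_le_iff₀ hTn0]
    linarith
  rw [s1]
  have hX0 : 0 ≤ ∑ x, ∑ j, T j x ^ q := Finset.sum_nonneg fun x _ => Finset.sum_nonneg fun j _ =>
    Real.rpow_nonneg (hT j x) _
  refine mul_le_mul_of_nonneg_left ?_ (Real.rpow_nonneg hX0 _)
  rw [← comb2 (n := (Fintype.card J : ℝ)) (N := (Fintype.card Γ : ℝ)) (by positivity)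
    (by positivity) a0 b0 (by linarith : 1 < q) hα.le hβ.le (by ring)]
  have sR : 0 ≤ ∑ y, R y ^ q := Finset.sum_nonneg fun y _ => Real.rpow_nonneg (R0 y) _
  have sB : 0 ≤ ∑ y, B y ^ q := Finset.sum_nonneg fun y _ => Real.rpow_nonneg (B0 y) _
  refine mul_le_mul (Real.rpow_le_rpow sR s2 (by positivity)) (Real.rpow_le_rpow sB s3
    (by positivity)) (Real.rpow_nonneg sB _) (by positivity)

end TH364.SG
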