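import Mathlib
import Pool.Agent.TH364.SG.W3
import Pool.Agent.TH364.SG.Asm2
set_option autoImplicit false
set_option linter.unusedSectionVars false

/-! The weighted metric inequality for the trace norm. -/

namespace TH364.SG

open Matrix Finset
open scoped ComplexOrder

universe u v
variable {ι : Type u} [Fintype ι] [DecidableEq ι] {J : Type v} [Fintype J] [DecidableEq J]

/-- the right-hand side of the weighted inequality -/
noncomputable def BB (r l : ℕ) (q a b b1 N n : ℝ) : ℝ :=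
  (N * n) ^ (1 / q) * (a ^ ((((2 ^ (r + 1) : ℕ) : ℝ))⁻¹) * b1 ^ (1 - (((2 ^ (r + 1) : ℕ) : ℝ))⁻¹)) +
  l * (ck r ^ ((((2 ^ (r + 1) : ℕ) : ℝ))⁻¹) * (n ^ ((((2 ^ (r + 1) : ℕ) : ℝ))⁻¹ / q) *
    (N ^ (1 / q) * (a ^ ((((2 ^ (r + 1) : ℕ) : ℝ))⁻¹) * b ^ (1 - (((2 ^ (r + 1) : ℕ) : ℝ))⁻¹)))))

theorem pw_smul (K : ℕ) (a : ℝ) (A : Matrix ι ι ℂ) : pw K ((a : ℂ) • A) = a ^ (2 * K) * pw K A := by
  unfold pw
  rw [Matrix.conjTranspose_smul, Complex.star_def, Complex.conj_ofReal, Matrix.smul_mul,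
    Matrix.mul_smul, smul_smul, smul_pow, Matrix.trace_smul, smul_eq_mul]
  have : ((a : ℂ) * a) ^ K = ((a ^ (2 * K) : ℝ) : ℂ) := by
    push_cast
    rw [pow_mul]; congr 1; ring
  rw [this, Complex.re_ofReal_mul]

section gen
variable {Γ : Type*} [AddCommGroup Γ] [Fintype Γ] {e : J → Γ}

theorem gen_w {r M : ℕ} {w : ℕ → ℝ} (hw : ∀ i, 0 < w i)
    {H : ℕ → J → Γ → Matrix ι ι ℂ} {V : ℕ → Γ → Matrix ι ι ℂ} {E : ℕ → Γ → Γ → ℝ}
    (hE : ∀ i x y, 0 ≤ E i x y)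
    (hloc : ∀ i Z x y, ‖(Z * (V i x - V i y)).trace‖ ≤
      nm r Z * (E i x y) ^ (1 - (((2 ^ (r + 1) : ℕ) : ℝ))⁻¹))
    {T t : J → Γ → ℝ} (hT : ∀ j x, 0 ≤ T j x) (ht : ∀ j x, 0 ≤ t j x)
    {κ : Γ → Γ → ℝ} (hκ : ∀ x y, 0 ≤ κ x y) {q a b b1 : ℝ} (hq : 2 ≤ q) (a0 : 0 ≤ a)
    (b0 : 0 ≤ b) (b10 : 0 ≤ b1)
    (hc : ∀ j x, ∑ i ∈ Finset.range M, w i * pw (2 ^ r) (H i j x) ≤
      (T j x ^ (q - 1) * (4 * wr r * t j x) ^ ((((2 ^ (r + 1) : ℕ) : ℝ))⁻¹)) ^ (2 ^ (r + 1)))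
    (hk : ∀ x y, ∑ i ∈ Finset.range M, w i * E i x y ≤ 4 * κ x y) (l : ℕ)
    (hta : ∑ x, ∑ j, t j x ^ q ≤ (Fintype.card Γ : ℝ) * Fintype.card J * a ^ q)
    (hb0 : ∑ x, ∑ ε : J → Bool, κ (x + sft e ε) x ^ q ≤
      2 ^ (Fintype.card J) * ((Fintype.card Γ : ℝ) * b ^ q))
    (hb1 : ∑ x, ∑ j, ∑ ε : J → Bool, κ (x + sfj e j ε) x ^ q ≤
      2 ^ (Fintype.card J) * ((Fintype.card Γ : ℝ) * Fintype.card J * b1 ^ q))
    (hb2 : ∑ x, ∑ j, ∑ ε : J → Bool, κ (x + (2 * l) • e j) (x + (2 * l) • e j + sfj e j ε) ^ q ≤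
      2 ^ (Fintype.card J) * ((Fintype.card Γ : ℝ) * Fintype.card J * b1 ^ q)) :
    ‖∑ i ∈ Finset.range M, (w i : ℂ) * ∑ x, ∑ j,
      (H i j x * (V i (x + (2 * l) • e j) - V i x)).trace‖ ≤
    16 * ((∑ x, ∑ j, T j x ^ q) ^ ((q - 1) / q) *
      BB r l q a b b1 (Fintype.card Γ) (Fintype.card J)) := by
  have hwr := wr_pos r
  have h := mc_w (e := e) hw hE hloc
    (c := fun j x => T j x ^ (q - 1) * (4 * wr r * t j x) ^ ((((2 ^ (r + 1) : ℕ) : ℝ))⁻¹))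
    (fun j x => mul_nonneg (Real.rpow_nonneg (hT j x) _)
      (Real.rpow_nonneg (mul_nonneg (by positivity) (ht j x)) _)) hc
    (k := fun x y => 4 * κ x y) hk l
  have p1 := end_sum r T t (fun x j ε => κ (x + (2 * l) • e j) (x + (2 * l) • e j + sfj e j ε))
    hT ht (fun _ _ _ => hκ _ _) hq a0 b10 hta hb2
  have p2 := end_sum r T t (fun x j ε => κ (x + sfj e j ε) x)
    hT ht (fun _ _ _ => hκ _ _) hq a0 b10 hta hb1
  have p3 : ∀ m : ℕ, _ := fun m => mid_sum r T t (fun x ε => κ (x + sft e ε) x) hT ht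
    (fun _ _ => hκ _ _) hq a0 b0 (fun j y => y - (2 * m + 1) • e j)
    (fun j => (Equiv.subRight ((2 * m + 1) • e j)).bijective) hta hb0
  have h2 := h.trans (add_le_add (add_le_add p1 p2) (Finset.sum_le_sum fun m _ =>
    mul_le_mul_of_nonneg_left (p3 m) (by norm_num : (0 : ℝ) ≤ 2)))
  rw [Finset.sum_const, Finset.card_range, nsmul_eq_mul] at h2
  have hTn : (0 : ℝ) < 2 ^ (Fintype.card J) := by positivity
  refine le_of_mul_le_mul_left (h2.trans_eq ?_) hTn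
  unfold BB
  ring

theorem asm3_err (r l : ℕ) (S : Γ → Sd ι) {q a b b1 : ℝ} (hq : 2 ≤ q) (a0 : 0 ≤ a) (b0 : 0 ≤ b)
    (b10 : 0 ≤ b1)
    (ha : ∑ x, tn (S x) ^ q ≤ (Fintype.card Γ : ℝ) * a ^ q)
    (hb0 : ∑ x, ∑ ε : J → Bool, tn (dif (S (x + sft e ε)) (S x)) ^ q ≤
      2 ^ (Fintype.card J) * ((Fintype.card Γ : ℝ) * b ^ q))
    (hb1 : ∑ x, ∑ j, ∑ ε : J → Bool, tn (dif (S (x + sfj e j ε)) (S x)) ^ q ≤
      2 ^ (Fintype.card J) * ((Fintype.card Γ : ℝ) * Fintype.card J * b1 ^ q))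
    (hb2 : ∑ x, ∑ j, ∑ ε : J → Bool, tn (dif (S (x + (2 * l) • e j))
      (S (x + (2 * l) • e j + sfj e j ε))) ^ q ≤
      2 ^ (Fintype.card J) * ((Fintype.card Γ : ℝ) * Fintype.card J * b1 ^ q))
    {η : ℝ} (hη : 0 < η) :
    ∑ x, ∑ j, tn (dif (S (x + (2 * l) • e j)) (S x)) ^ q ≤
      64 * ((∑ x, ∑ j, tn (dif (S (x + (2 * l) • e j)) (S x)) ^ q) ^ ((q - 1) / q) *
        BB r l q a b b1 (Fintype.card Γ) (Fintype.card J)) +
      (∑ x, ∑ j, tn (dif (S (x + (2 * l) • e j)) (S x)) ^ (q - 1)) *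
        (2 * (Fintype.card ι * η)) := by
  have hρ := wr_ge r
  have hρ0 := wr_pos r
  obtain ⟨s0, hs, M, hM⟩ := win_scales hρ (∑ x, tn (S x)) hη
  set ρ := wr r with hρd
  have hρs : 0 < ρ * s0 := by positivity
  set W : J → Γ → Matrix ι ι ℂ := fun j x => (dif (S (x + (2 * l) • e j)) (S x)).fc gs with hW
  have hWu : ∀ j x, (W j x)ᴴ * W j x = 1 := fun j x => sign_unit _
  set T : J → Γ → ℝ := fun j x => tn (dif (S (x + (2 * l) • e j)) (S x)) with hTd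
  have hT : ∀ j x, 0 ≤ T j x := fun j x => tn_nonneg _
  set φ : J → Γ → ℝ := fun j x => T j x ^ (q - 1) with hφd
  have hφ : ∀ j x, 0 ≤ φ j x := fun j x => Real.rpow_nonneg (hT j x) _
  have hws : ∀ i, wsc ρ (ρ * s0) i = ρ * wsc ρ s0 i := by
    intro i; unfold wsc; ring
  have hwp : ∀ i, 0 < wsc ρ s0 i := fun i => wsc_pos hρ0 hs i
  have hκs : ∀ T : Sd ι, ∑ i ∈ Finset.range M, (ρ * wsc ρ s0 i) * en r (ρ * wsc ρ s0 i) T ≤
      4 * tn T := by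
    intro T
    have := en_win r hρs T M
    rw [← hρd] at this
    simpa only [hws] using this
  have pwb : ∀ T : Sd ι, ∑ i ∈ Finset.range M, (ρ * wsc ρ s0 i) * pw (2 ^ r) (MG T (wsc ρ s0 i)) ≤
      4 * ρ * tn T := by
    intro T
    have h1 := pw_MG r hρ hs T M
    have h2 := mul_le_mul_of_nonneg_left h1 hρ0.le
    rw [Finset.mul_sum] at h2
    simp only [← mul_assoc] at h2
    linarith
  -- the weighted form
  have pwc : ∀ (j : J) (x : Γ) (T : Sd ι) (G : ℕ → Matrix ι ι ℂ),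
      (∀ i, pw (2 ^ r) (G i) = pw (2 ^ r) (MG T (wsc ρ s0 i))) →
      ∑ i ∈ Finset.range M, (ρ * wsc ρ s0 i) * pw (2 ^ r) (((φ j x : ℝ) : ℂ) • G i) ≤
      (φ j x * (4 * ρ * tn T) ^ ((((2 ^ (r + 1) : ℕ) : ℝ))⁻¹)) ^ (2 ^ (r + 1)) := by
    intro j x T G hG
    have e1 : ∀ i, (ρ * wsc ρ s0 i) * pw (2 ^ r) (((φ j x : ℝ) : ℂ) • G i) =
        φ j x ^ (2 ^ (r + 1)) * ((ρ * wsc ρ s0 i) * pw (2 ^ r) (MG T (wsc ρ s0 i))) := by
      intro i
      rw [pw_smul, hG, show 2 * 2 ^ r = 2 ^ (r + 1) by ring]; ring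
    simp only [e1, ← Finset.mul_sum]
    have h0 : 0 ≤ 4 * ρ * tn T := mul_nonneg (by positivity) (tn_nonneg _)
    have e2 : ((4 * ρ * tn T) ^ ((((2 ^ (r + 1) : ℕ) : ℝ))⁻¹)) ^ (2 ^ (r + 1)) = 4 * ρ * tn T := by
      rw [← Real.rpow_natCast, ← Real.rpow_mul h0, inv_mul_cancel₀ (by positivity), Real.rpow_one]
    rw [mul_pow, e2]
    exact mul_le_mul_of_nonneg_left (pwb T) (pow_nonneg (hφ j x) _)
  have tot : ∑ x, ∑ _j : J, tn (S x) ^ q ≤ (Fintype.card Γ : ℝ) * Fintype.card J * a ^ q := by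
    simp only [Finset.sum_const, Finset.card_univ, nsmul_eq_mul, ← Finset.mul_sum]
    have := mul_le_mul_of_nonneg_left ha (show (0 : ℝ) ≤ Fintype.card J by positivity)
    linarith
  have tot' : ∑ x, ∑ j, tn (S (x + (2 * l) • e j)) ^ q ≤
      (Fintype.card Γ : ℝ) * Fintype.card J * a ^ q := by
    refine le_trans (le_of_eq ?_) tot
    rw [Finset.sum_comm]
    rw [Finset.sum_comm (s := (Finset.univ : Finset Γ))]
    refine Finset.sum_congr rfl fun j _ => ?_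
    exact Equiv.sum_comp (Equiv.addRight ((2 * l) • e j)) (fun x => tn (S x) ^ q)
  have hρw : ∀ i, 0 < ρ * wsc ρ s0 i := fun i => mul_pos hρ0 (hwp i)
  -- three applications
  have m1 := gen_w (r := r) (M := M) (e := e) (w := fun i => ρ * wsc ρ s0 i) hρw
    (H := fun i j x => ((φ j x : ℝ) : ℂ) • (W j x * MG (S (x + (2 * l) • e j)) (wsc ρ s0 i)))
    (V := fun i x => (1 / 2 : ℂ) • MG (S x) (ρ * wsc ρ s0 i))
    (E := fun i x y => en r (ρ * wsc ρ s0 i) (dif (S x) (S y)))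
    (fun i x y => en_nonneg r (hρw i) _)
    (fun i Z x y => loc_MG r (hρw i) _ _ _)
    (T := T) (t := fun j x => tn (S (x + (2 * l) • e j))) hT (fun _ _ => tn_nonneg _)
    (κ := fun x y => tn (dif (S x) (S y))) (fun _ _ => tn_nonneg _) hq a0 b0 b10
    (fun j x => pwc j x _ _ fun i => pw_unit_mul _ (hWu j x) _)
    (fun x y => hκs _) l tot' hb0 hb1 hb2
  have m2 := gen_w (r := r) (M := M) (e := e) (w := fun i => ρ * wsc ρ s0 i) hρw
    (H := fun i j x => ((φ j x : ℝ) : ℂ) • (MG (S x) (wsc ρ s0 i) * W j x))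
    (V := fun i x => (1 / 2 : ℂ) • MG (S x) (ρ * wsc ρ s0 i))
    (E := fun i x y => en r (ρ * wsc ρ s0 i) (dif (S x) (S y)))
    (fun i x y => en_nonneg r (hρw i) _)
    (fun i Z x y => loc_MG r (hρw i) _ _ _)
    (T := T) (t := fun j x => tn (S x)) hT (fun _ _ => tn_nonneg _)
    (κ := fun x y => tn (dif (S x) (S y))) (fun _ _ => tn_nonneg _) hq a0 b0 b10
    (fun j x => pwc j x _ _ fun i => pw_mul_unit _ (mul_eq_one_comm.1 (hWu j x)) _)
    (fun x y => hκs _) l tot hb0 hb1 hb2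
  have m3 := gen_w (r := r) (M := M) (e := e) (w := fun i => ρ * wsc ρ s0 i) hρw
    (H := fun i j x => ((φ j x : ℝ) : ℂ) • (MG (S x) (wsc ρ s0 i) * W j x *
      MU (S (x + (2 * l) • e j)) (wsc ρ s0 i)))
    (V := fun i x => (1 / 2 : ℂ) • MG (S x) (ρ * wsc ρ s0 i))
    (E := fun i x y => en r (ρ * wsc ρ s0 i) (dif (S x) (S y)))
    (fun i x y => en_nonneg r (hρw i) _)
    (fun i Z x y => loc_MG r (hρw i) _ _ _)
    (T := T) (t := fun j x => tn (S x)) hT (fun _ _ => tn_nonneg _)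
    (κ := fun x y => tn (dif (S x) (S y))) (fun _ _ => tn_nonneg _) hq a0 b0 b10
    (fun j x => pwc j x _ _ fun i => by
      have hU : MU (S (x + (2 * l) • e j)) (wsc ρ s0 i) *
          (MU (S (x + (2 * l) • e j)) (wsc ρ s0 i))ᴴ = 1 := mul_eq_one_comm.1 (MU_unit (hwp i) _)
      rw [pw_mul_unit _ hU, pw_mul_unit _ (mul_eq_one_comm.1 (hWu j x))])
    (fun x y => hκs _) l tot hb0 hb1 hb2
  set c1 : ℂ := ((2 * (1 - 1 / ρ) : ℝ) : ℂ) * Complex.I with hc1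
  set c2 : ℂ := ((2 * (1 - 1 / ρ) * ((1 + 1 / ρ) / 2) : ℝ) : ℂ) * Complex.I with hc2
  set c3 : ℂ := ((-(2 * (1 - 1 / ρ) * ((1 - 1 / ρ) / 2)) : ℝ) : ℂ) * Complex.I with hc3
  -- pointwise identity
  have id1 : ∀ x j, ((T j x ^ q : ℝ) : ℂ) =
      c1 * (∑ i ∈ Finset.range M, ((ρ * wsc ρ s0 i : ℝ) : ℂ) *
        (((φ j x : ℝ) : ℂ) • (W j x * MG (S (x + (2 * l) • e j)) (wsc ρ s0 i)) *
          ((1 / 2 : ℂ) • MG (S (x + (2 * l) • e j)) (ρ * wsc ρ s0 i) -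
            (1 / 2 : ℂ) • MG (S x) (ρ * wsc ρ s0 i))).trace) +
      c2 * (∑ i ∈ Finset.range M, ((ρ * wsc ρ s0 i : ℝ) : ℂ) *
        (((φ j x : ℝ) : ℂ) • (MG (S x) (wsc ρ s0 i) * W j x) *
          ((1 / 2 : ℂ) • MG (S (x + (2 * l) • e j)) (ρ * wsc ρ s0 i) -
            (1 / 2 : ℂ) • MG (S x) (ρ * wsc ρ s0 i))).trace) +
      c3 * (∑ i ∈ Finset.range M, ((ρ * wsc ρ s0 i : ℝ) : ℂ) *
        (((φ j x : ℝ) : ℂ) • (MG (S x) (wsc ρ s0 i) * W j x *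
          MU (S (x + (2 * l) • e j)) (wsc ρ s0 i)) *
          ((1 / 2 : ℂ) • MG (S (x + (2 * l) • e j)) (ρ * wsc ρ s0 i) -
            (1 / 2 : ℂ) • MG (S x) (ρ * wsc ρ s0 i))).trace) +
      ((φ j x : ℝ) : ℂ) * ((W j x * (S (x + (2 * l) • e j)).fc (we s0 (wsc ρ s0 M))).trace -
        (W j x * (S x).fc (we s0 (wsc ρ s0 M))).trace) := by
    intro x j
    have e0 : T j x ^ q = φ j x * T j x := by
      have h1 : T j x ^ (q - 1 + 1) = T j x ^ (q - 1) * T j x ^ (1 : ℝ) :=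
        Real.rpow_add_of_nonneg (hT j x) (by linarith) (by norm_num)
      rw [Real.rpow_one] at h1
      rw [← h1]; congr 1; ring
    have e1 : ((T j x : ℝ) : ℂ) =
      c1 * (∑ i ∈ Finset.range M, ((ρ * wsc ρ s0 i : ℝ) : ℂ) *
        (W j x * MG (S (x + (2 * l) • e j)) (wsc ρ s0 i) *
          ((1 / 2 : ℂ) • MG (S (x + (2 * l) • e j)) (ρ * wsc ρ s0 i) -
            (1 / 2 : ℂ) • MG (S x) (ρ * wsc ρ s0 i))).trace) +
      c2 * (∑ i ∈ Finset.range M, ((ρ * wsc ρ s0 i : ℝ) : ℂ) *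
        (MG (S x) (wsc ρ s0 i) * W j x *
          ((1 / 2 : ℂ) • MG (S (x + (2 * l) • e j)) (ρ * wsc ρ s0 i) -
            (1 / 2 : ℂ) • MG (S x) (ρ * wsc ρ s0 i))).trace) +
      c3 * (∑ i ∈ Finset.range M, ((ρ * wsc ρ s0 i : ℝ) : ℂ) *
        (MG (S x) (wsc ρ s0 i) * W j x * MU (S (x + (2 * l) • e j)) (wsc ρ s0 i) *
          ((1 / 2 : ℂ) • MG (S (x + (2 * l) • e j)) (ρ * wsc ρ s0 i) -
            (1 / 2 : ℂ) • MG (S x) (ρ * wsc ρ s0 i))).trace) +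
      ((W j x * (S (x + (2 * l) • e j)).fc (we s0 (wsc ρ s0 M))).trace -
        (W j x * (S x).fc (we s0 (wsc ρ s0 M))).trace) := by
      change ((tn (dif (S (x + (2 * l) • e j)) (S x)) : ℝ) : ℂ) = _
      rw [← tn_eq, dif_spec]
      change (W j x * ((S (x + (2 * l) • e j)).mat - (S x).mat)).trace = _
      rw [we_decomp hρ0 hs _ _ M, Matrix.mul_add, Matrix.trace_add, Matrix.mul_sub, Matrix.trace_sub]
      congr 1
      rw [Matrix.mul_sum, Matrix.trace_sum, Finset.mul_sum, Finset.mul_sum, Finset.mul_sum,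
        ← Finset.sum_add_distrib, ← Finset.sum_add_distrib]
      refine Finset.sum_congr rfl fun i _ => ?_
      rw [wsc_succ, win_trace hρ (hwp i)]
    rw [e0, Complex.ofReal_mul, e1]
    simp only [Matrix.smul_mul, Matrix.trace_smul, smul_eq_mul]
    simp only [mul_add, Finset.mul_sum]
    congr 1
    congr 1
    congr 1
    all_goals
      refine Finset.sum_congr rfl fun i _ => ?_
      ring
  have id2 : ((∑ x, ∑ j, T j x ^ q : ℝ) : ℂ) =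
      c1 * (∑ i ∈ Finset.range M, ((ρ * wsc ρ s0 i : ℝ) : ℂ) * ∑ x, ∑ j,
        (((φ j x : ℝ) : ℂ) • (W j x * MG (S (x + (2 * l) • e j)) (wsc ρ s0 i)) *
          ((1 / 2 : ℂ) • MG (S (x + (2 * l) • e j)) (ρ * wsc ρ s0 i) -
            (1 / 2 : ℂ) • MG (S x) (ρ * wsc ρ s0 i))).trace) +
      c2 * (∑ i ∈ Finset.range M, ((ρ * wsc ρ s0 i : ℝ) : ℂ) * ∑ x, ∑ j,
        (((φ j x : ℝ) : ℂ) • (MG (S x) (wsc ρ s0 i) * W j x) *
          ((1 / 2 : ℂ) • MG (S (x + (2 * l) • e j)) (ρ * wsc ρ s0 i) -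
            (1 / 2 : ℂ) • MG (S x) (ρ * wsc ρ s0 i))).trace) +
      c3 * (∑ i ∈ Finset.range M, ((ρ * wsc ρ s0 i : ℝ) : ℂ) * ∑ x, ∑ j,
        (((φ j x : ℝ) : ℂ) • (MG (S x) (wsc ρ s0 i) * W j x *
          MU (S (x + (2 * l) • e j)) (wsc ρ s0 i)) *
          ((1 / 2 : ℂ) • MG (S (x + (2 * l) • e j)) (ρ * wsc ρ s0 i) -
            (1 / 2 : ℂ) • MG (S x) (ρ * wsc ρ s0 i))).trace) +
      ∑ x, ∑ j, ((φ j x : ℝ) : ℂ) * ((W j x * (S (x + (2 * l) • e j)).fc (we s0 (wsc ρ s0 M))).trace -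
        (W j x * (S x).fc (we s0 (wsc ρ s0 M))).trace) := by
    rw [← swap, ← swap, ← swap, Finset.mul_sum, Finset.mul_sum, Finset.mul_sum,
      ← Finset.sum_add_distrib, ← Finset.sum_add_distrib, ← Finset.sum_add_distrib]
    rw [Complex.ofReal_sum]
    refine Finset.sum_congr rfl fun x _ => ?_
    rw [Complex.ofReal_sum, Finset.mul_sum, Finset.mul_sum, Finset.mul_sum, ← Finset.sum_add_distrib,
      ← Finset.sum_add_distrib, ← Finset.sum_add_distrib]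
    exact Finset.sum_congr rfl fun j _ => id1 x j
  have hEr : ‖∑ x, ∑ j, ((φ j x : ℝ) : ℂ) *
        ((W j x * (S (x + (2 * l) • e j)).fc (we s0 (wsc ρ s0 M))).trace -
        (W j x * (S x).fc (we s0 (wsc ρ s0 M))).trace)‖ ≤
      (∑ x, ∑ j, φ j x) * (2 * (Fintype.card ι * η)) := by
    have h1 : ∀ (y : Γ) (j : J) (x : Γ), ‖(W j x * (S y).fc (we s0 (wsc ρ s0 M))).trace‖ ≤
        Fintype.card ι * η := by
      intro y j x
      refine (trace_unit_fc (S y) (hWu j x) _).trans ?_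
      refine (Finset.sum_le_card_nsmul _ _ η fun k _ => ?_).trans_eq ?_
      · refine hM _ (le_trans ?_ (Finset.single_le_sum (f := fun x => tn (S x))
          (fun x _ => tn_nonneg _) (Finset.mem_univ y)))
        exact Finset.single_le_sum (f := fun k => |(S y).ev k|) (fun _ _ => abs_nonneg _)
          (Finset.mem_univ k)
      · rw [Finset.card_univ, nsmul_eq_mul]
    simp only [Finset.sum_mul]
    refine (norm_sum_le _ _).trans (Finset.sum_le_sum fun x _ => ?_)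
    refine (norm_sum_le _ _).trans (Finset.sum_le_sum fun j _ => ?_)
    rw [norm_mul, Complex.norm_real, Real.norm_of_nonneg (hφ j x)]
    refine mul_le_mul_of_nonneg_left ?_ (hφ j x)
    refine (norm_sub_le _ _).trans ?_
    have := h1 (x + (2 * l) • e j) j x
    have := h1 x j x
    linarith
  have hL0 : 0 ≤ ∑ x, ∑ j, T j x ^ q :=
    Finset.sum_nonneg fun x _ => Finset.sum_nonneg fun j _ => Real.rpow_nonneg (hT j x) _
  have hfin := congrArg norm id2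
  rw [Complex.norm_real, Real.norm_of_nonneg hL0] at hfin
  refine hfin.le.trans ((norm_add_le _ _).trans (add_le_add ?_ hEr))
  refine (norm_three hρ hc1 hc2 hc3 m1 m2 m3).trans (le_of_eq ?_)
  ring

theorem asm3 (r l : ℕ) (S : Γ → Sd ι) {q a b b1 : ℝ} (hq : 2 ≤ q) (a0 : 0 ≤ a) (b0 : 0 ≤ b)
    (b10 : 0 ≤ b1)
    (ha : ∑ x, tn (S x) ^ q ≤ (Fintype.card Γ : ℝ) * a ^ q)
    (hb0 : ∑ x, ∑ ε : J → Bool, tn (dif (S (x + sft e ε)) (S x)) ^ q ≤
      2 ^ (Fintype.card J) * ((Fintype.card Γ : ℝ) * b ^ q))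
    (hb1 : ∑ x, ∑ j, ∑ ε : J → Bool, tn (dif (S (x + sfj e j ε)) (S x)) ^ q ≤
      2 ^ (Fintype.card J) * ((Fintype.card Γ : ℝ) * Fintype.card J * b1 ^ q))
    (hb2 : ∑ x, ∑ j, ∑ ε : J → Bool, tn (dif (S (x + (2 * l) • e j))
      (S (x + (2 * l) • e j + sfj e j ε))) ^ q ≤
      2 ^ (Fintype.card J) * ((Fintype.card Γ : ℝ) * Fintype.card J * b1 ^ q)) :
    (∑ x, ∑ j, tn (dif (S (x + (2 * l) • e j)) (S x)) ^ q) ^ (1 / q) ≤
      64 * BB r l q a b b1 (Fintype.card Γ) (Fintype.card J) := by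
  have hq0 : 0 < q := by linarith
  have hck : 0 ≤ ck r := by unfold ck; positivity
  have hBB : 0 ≤ BB r l q a b b1 (Fintype.card Γ) (Fintype.card J) := by
    unfold BB; positivity
  obtain ⟨X, hX⟩ : ∃ X, X = ∑ x, ∑ j, tn (dif (S (x + (2 * l) • e j)) (S x)) ^ q := ⟨_, rfl⟩
  obtain ⟨Φ, hΦ⟩ : ∃ Φ, Φ = ∑ x, ∑ j, tn (dif (S (x + (2 * l) • e j)) (S x)) ^ (q - 1) := ⟨_, rfl⟩
  have hX0 : 0 ≤ X := by
    rw [hX]
    exact Finset.sum_nonneg fun x _ => Finset.sum_nonneg fun j _ => Real.rpow_nonneg (tn_nonneg _) _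
  have hΦ0 : 0 ≤ Φ := by
    rw [hΦ]
    exact Finset.sum_nonneg fun x _ => Finset.sum_nonneg fun j _ => Real.rpow_nonneg (tn_nonneg _) _
  have key : X ≤ 64 * (X ^ ((q - 1) / q) * BB r l q a b b1 (Fintype.card Γ) (Fintype.card J)) := by
    apply le_of_forall_pos_le_add
    intro δ hδ
    have h := asm3_err r l S hq a0 b0 b10 ha hb0 hb1 hb2
      (η := δ / (Φ * (2 * Fintype.card ι) + 1)) (by positivity)
    rw [← hX, ← hΦ] at h
    refine h.trans (add_le_add le_rfl ?_)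
    obtain ⟨D, hD⟩ : ∃ D, D = Φ * (2 * Fintype.card ι) := ⟨_, rfl⟩
    have hD0 : 0 ≤ D := by rw [hD]; positivity
    rw [← hD]
    have e1 : Φ * (2 * (Fintype.card ι * (δ / (D + 1)))) = D / (D + 1) * δ := by rw [hD]; ring
    rw [e1]
    have h2 : D / (D + 1) ≤ 1 := by rw [div_le_one (by positivity)]; linarith
    calc D / (D + 1) * δ ≤ 1 * δ := mul_le_mul_of_nonneg_right h2 hδ.le
      _ = δ := one_mul δ
  rw [← hX]
  rcases hX0.eq_or_lt with h0 | h0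
  · rw [← h0, Real.zero_rpow (by positivity)]
    positivity
  · have hXp : 0 < X ^ ((q - 1) / q) := Real.rpow_pos_of_pos h0 _
    refine le_of_mul_le_mul_left ?_ hXp
    have e1 : X ^ ((q - 1) / q) * X ^ (1 / q) = X := by
      rw [← Real.rpow_add h0]
      have : (q - 1) / q + 1 / q = 1 := by field_simp; ring
      rw [this, Real.rpow_one]
    rw [e1]
    linarith

end gen

end TH364.SG
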