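import Mathlib
import Pool.Agent.TH364.SG.W4
import Pool.Agent.TH364.SG.Torus2
set_option autoImplicit false
set_option linter.unusedSectionVars false

/-! The weighted metric inequality for functions with values in the trace class. -/

namespace TH364.SG

open scoped ENNReal InnerProductSpace
open Finset
open Pool.Agent.Results.MP_fd02da_an.SchattenIsometries

universe u v
variable {H : Type u} [NormedAddCommGroup H] [InnerProductSpace ℂ H] [CompleteSpace H]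
variable {J : Type v} [Fintype J] [DecidableEq J]
variable {Γ : Type*} [AddCommGroup Γ] [Fintype Γ] {e : J → Γ}

theorem BB_two (r l : ℕ) {q a b b1 N n : ℝ} (a0 : 0 ≤ a) (b0 : 0 ≤ b) (b10 : 0 ≤ b1) :
    BB r l q (2 * a) (2 * b) (2 * b1) N n = 2 * BB r l q a b b1 N n := by
  have h3 : (2 : ℝ) ^ ((((2 ^ (r + 1) : ℕ) : ℝ))⁻¹) * 2 ^ (1 - (((2 ^ (r + 1) : ℕ) : ℝ))⁻¹) = 2 := by
    rw [← Real.rpow_add (by norm_num)]
    simp
  unfold BB
  rw [Real.mul_rpow (by norm_num) a0, Real.mul_rpow (by norm_num) b0,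
    Real.mul_rpow (by norm_num) b10]
  set α := (((2 ^ (r + 1) : ℕ) : ℝ))⁻¹
  calc _ = ((2 : ℝ) ^ α * 2 ^ (1 - α)) * ((N * n) ^ (1 / q) * (a ^ α * b1 ^ (1 - α)) +
      l * (ck r ^ α * (n ^ (α / q) * (N ^ (1 / q) * (a ^ α * b ^ (1 - α)))))) := by ring
    _ = _ := by rw [h3]

theorem torus3 (r l : ℕ) (F : Γ → SchattenClass 1 H) (x0 : Γ) {q a b b1 : ℝ} (hq : 2 ≤ q)
    (a0 : 0 ≤ a) (b0 : 0 ≤ b) (b10 : 0 ≤ b1)
    (ha : ∑ x, ‖F x - F x0‖ ^ q ≤ (Fintype.card Γ : ℝ) * a ^ q)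
    (hb0 : ∑ x, ∑ ε : J → Bool, ‖F (x + sft e ε) - F x‖ ^ q ≤
      2 ^ (Fintype.card J) * ((Fintype.card Γ : ℝ) * b ^ q))
    (hb1 : ∑ x, ∑ j, ∑ ε : J → Bool, ‖F (x + sfj e j ε) - F x‖ ^ q ≤
      2 ^ (Fintype.card J) * ((Fintype.card Γ : ℝ) * Fintype.card J * b1 ^ q)) :
    (∑ x, ∑ j, ‖F (x + (2 * l) • e j) - F x‖ ^ q) ^ (1 / q) ≤
      256 * BB r l q a b b1 (Fintype.card Γ) (Fintype.card J) := by
  classical
  have hq0 : 0 < q := by linarith
  obtain ⟨d, A, hA, hAT⟩ := reduce F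
  choose S hS using fun x : Γ => exists_sd ((hA x).sub (hA x0))
  have hd : ∀ x y, (dif (S x) (S y)).mat = A x - A y := by
    intro x y
    rw [dif_spec, hS, hS]; abel
  have u0 : ∀ x, tn (S x) ≤ 2 * ‖F x - F x0‖ := fun x => (hAT x x0 (S x) (hS x)).2
  have u1 : ∀ x y, tn (dif (S x) (S y)) ≤ 2 * ‖F x - F y‖ := fun x y => (hAT x y _ (hd x y)).2
  have u2 : ∀ x y, ‖F x - F y‖ ≤ 2 * tn (dif (S x) (S y)) := by
    intro x y
    have := (hAT x y _ (hd x y)).1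
    linarith
  have v0 : ∀ x, tn (S x) ^ q ≤ 2 ^ q * ‖F x - F x0‖ ^ q := fun x => by
    rw [← Real.mul_rpow (by norm_num) (norm_nonneg _)]
    exact Real.rpow_le_rpow (tn_nonneg _) (u0 x) hq0.le
  have v1 : ∀ x y, tn (dif (S x) (S y)) ^ q ≤ 2 ^ q * ‖F x - F y‖ ^ q := fun x y => by
    rw [← Real.mul_rpow (by norm_num) (norm_nonneg _)]
    exact Real.rpow_le_rpow (tn_nonneg _) (u1 x y) hq0.le
  have v2 : ∀ x y, ‖F x - F y‖ ^ q ≤ 2 ^ q * tn (dif (S x) (S y)) ^ q := fun x y => by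
    rw [← Real.mul_rpow (by norm_num) (tn_nonneg _)]
    exact Real.rpow_le_rpow (norm_nonneg _) (u2 x y) hq0.le
  have h2q : (0 : ℝ) ≤ 2 ^ q := by positivity
  have ka : ∑ x, tn (S x) ^ q ≤ (Fintype.card Γ : ℝ) * (2 * a) ^ q := by
    refine (Finset.sum_le_sum fun x _ => v0 x).trans ?_
    rw [← Finset.mul_sum, Real.mul_rpow (by norm_num) a0]
    calc _ ≤ 2 ^ q * ((Fintype.card Γ : ℝ) * a ^ q) := mul_le_mul_of_nonneg_left ha h2q
      _ = _ := by ring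
  have k0 : ∑ x, ∑ ε : J → Bool, tn (dif (S (x + sft e ε)) (S x)) ^ q ≤
      2 ^ (Fintype.card J) * ((Fintype.card Γ : ℝ) * (2 * b) ^ q) := by
    refine (Finset.sum_le_sum fun x _ => Finset.sum_le_sum fun ε _ => v1 _ _).trans ?_
    simp only [← Finset.mul_sum]
    rw [Real.mul_rpow (by norm_num) b0]
    calc _ ≤ 2 ^ q * (2 ^ (Fintype.card J) * ((Fintype.card Γ : ℝ) * b ^ q)) :=
          mul_le_mul_of_nonneg_left hb0 h2q
      _ = _ := by ring
  have k1 : ∑ x, ∑ j, ∑ ε : J → Bool, tn (dif (S (x + sfj e j ε)) (S x)) ^ q ≤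
      2 ^ (Fintype.card J) * ((Fintype.card Γ : ℝ) * Fintype.card J * (2 * b1) ^ q) := by
    refine (Finset.sum_le_sum fun x _ => Finset.sum_le_sum fun j _ =>
      Finset.sum_le_sum fun ε _ => v1 _ _).trans ?_
    simp only [← Finset.mul_sum]
    rw [Real.mul_rpow (by norm_num) b10]
    calc _ ≤ 2 ^ q * (2 ^ (Fintype.card J) * ((Fintype.card Γ : ℝ) * Fintype.card J * b1 ^ q)) :=
          mul_le_mul_of_nonneg_left hb1 h2q
      _ = _ := by ring
  have k2 : ∑ x, ∑ j, ∑ ε : J → Bool, tn (dif (S (x + (2 * l) • e j))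
      (S (x + (2 * l) • e j + sfj e j ε))) ^ q ≤
      2 ^ (Fintype.card J) * ((Fintype.card Γ : ℝ) * Fintype.card J * (2 * b1) ^ q) := by
    have h1 : ∑ x, ∑ j, ∑ ε : J → Bool, tn (dif (S (x + (2 * l) • e j))
        (S (x + (2 * l) • e j + sfj e j ε))) ^ q ≤
        2 ^ q * ∑ x, ∑ j, ∑ ε : J → Bool, ‖F (x + sfj e j ε) - F x‖ ^ q := by
      refine (Finset.sum_le_sum fun x _ => Finset.sum_le_sum fun j _ =>
        Finset.sum_le_sum fun ε _ => v1 _ _).trans ?_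
      simp only [← Finset.mul_sum]
      refine mul_le_mul_of_nonneg_left (le_of_eq ?_) h2q
      rw [Finset.sum_comm]
      rw [Finset.sum_comm (s := (Finset.univ : Finset Γ))]
      refine Finset.sum_congr rfl fun j _ => ?_
      rw [← Equiv.sum_comp (Equiv.addRight ((2 * l) • e j))
        (fun x => ∑ ε : J → Bool, ‖F (x + sfj e j ε) - F x‖ ^ q)]
      refine Finset.sum_congr rfl fun x _ => Finset.sum_congr rfl fun ε _ => ?_
      rw [norm_sub_rev]
      rfl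
    refine h1.trans ?_
    rw [Real.mul_rpow (by norm_num) b10]
    calc _ ≤ 2 ^ q * (2 ^ (Fintype.card J) * ((Fintype.card Γ : ℝ) * Fintype.card J * b1 ^ q)) :=
          mul_le_mul_of_nonneg_left hb1 h2q
      _ = _ := by ring
  have h := asm3 r l S hq (a := 2 * a) (b := 2 * b) (b1 := 2 * b1) (by positivity) (by positivity)
    (by positivity) ka k0 k1 k2
  rw [BB_two r l a0 b0 b10] at h
  have hT0 : 0 ≤ ∑ x, ∑ j, tn (dif (S (x + (2 * l) • e j)) (S x)) ^ q :=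
    Finset.sum_nonneg fun x _ => Finset.sum_nonneg fun j _ => Real.rpow_nonneg (tn_nonneg _) _
  have hF0 : 0 ≤ ∑ x, ∑ j, ‖F (x + (2 * l) • e j) - F x‖ ^ q :=
    Finset.sum_nonneg fun x _ => Finset.sum_nonneg fun j _ => Real.rpow_nonneg (norm_nonneg _) _
  calc (∑ x, ∑ j, ‖F (x + (2 * l) • e j) - F x‖ ^ q) ^ (1 / q)
      ≤ (2 ^ q * ∑ x, ∑ j, tn (dif (S (x + (2 * l) • e j)) (S x)) ^ q) ^ (1 / q) := by
        refine Real.rpow_le_rpow hF0 ?_ (by positivity)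
        simp only [Finset.mul_sum]
        exact Finset.sum_le_sum fun x _ => Finset.sum_le_sum fun j _ => v2 _ _
    _ = 2 * (∑ x, ∑ j, tn (dif (S (x + (2 * l) • e j)) (S x)) ^ q) ^ (1 / q) := by
        rw [Real.mul_rpow h2q hT0, ← Real.rpow_mul (by norm_num), mul_one_div_cancel hq0.ne',
          Real.rpow_one]
    _ ≤ 2 * (64 * (2 * BB r l q a b b1 (Fintype.card Γ) (Fintype.card J))) :=
        mul_le_mul_of_nonneg_left h (by norm_num)
    _ = _ := by ring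

end TH364.SG
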