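import Mathlib
import Pool.Agent.TH364.SG.W5
set_option autoImplicit false
set_option linter.unusedSectionVars false

/-! The translation modulus of a function on a finite group, and random sign vectors. -/

namespace TH364.SG

open Finset

universe u v

section modulus
variable {Y : Type u} [NormedAddCommGroup Y]
variable {G : Type*} [AddCommGroup G] [Fintype G]

/-- the L_q modulus of translation -/
noncomputable def hm (F : G → Y) (q : ℝ) (z : G) : ℝ := (∑ x, ‖F (x + z) - F x‖ ^ q) ^ (1 / q)

theorem gm_nonneg (F : G → Y) (q : ℝ) (z : G) : 0 ≤ ∑ x, ‖F (x + z) - F x‖ ^ q :=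
  Finset.sum_nonneg fun x _ => Real.rpow_nonneg (norm_nonneg _) _

theorem hm_nonneg (F : G → Y) (q : ℝ) (z : G) : 0 ≤ hm F q z := Real.rpow_nonneg (gm_nonneg F q z) _

theorem hm_pow (F : G → Y) {q : ℝ} (hq : 0 < q) (z : G) :
    hm F q z ^ q = ∑ x, ‖F (x + z) - F x‖ ^ q := by
  unfold hm
  rw [← Real.rpow_mul (gm_nonneg F q z), one_div_mul_cancel hq.ne', Real.rpow_one]

theorem hm_zero (F : G → Y) {q : ℝ} (hq : 0 < q) : hm F q 0 = 0 := by
  unfold hm
  simp [Real.zero_rpow hq.ne', hq.ne']

theorem hm_neg (F : G → Y) (q : ℝ) (z : G) : hm F q (-z) = hm F q z := by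
  unfold hm
  congr 1
  rw [← Equiv.sum_comp (Equiv.addRight z)]
  refine Finset.sum_congr rfl fun x _ => ?_
  rw [Equiv.coe_addRight, add_neg_cancel_right, norm_sub_rev]

theorem hm_add (F : G → Y) {q : ℝ} (hq : 1 ≤ q) (z z' : G) :
    hm F q (z + z') ≤ hm F q z + hm F q z' := by
  have h1 := Real.Lp_add_le_of_nonneg (Finset.univ : Finset G) hq
    (f := fun x => ‖F (x + z' + z) - F (x + z')‖) (g := fun x => ‖F (x + z') - F x‖)
    (fun _ _ => norm_nonneg _) (fun _ _ => norm_nonneg _)
  have h2 : ∑ x, ‖F (x + z' + z) - F (x + z')‖ ^ q = ∑ x, ‖F (x + z) - F x‖ ^ q :=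
    Equiv.sum_comp (Equiv.addRight z') (fun x => ‖F (x + z) - F x‖ ^ q)
  rw [h2] at h1
  refine le_trans ?_ h1
  unfold hm
  refine Real.rpow_le_rpow (gm_nonneg F q _) (Finset.sum_le_sum fun x _ => ?_) (by positivity)
  refine Real.rpow_le_rpow (norm_nonneg _) ?_ (by linarith)
  have e1 : F (x + (z + z')) - F x = (F (x + z' + z) - F (x + z')) + (F (x + z') - F x) := by
    rw [show x + (z + z') = x + z' + z by abel]; abel
  rw [e1]
  exact norm_add_le _ _

theorem hm_nsmul (F : G → Y) {q : ℝ} (hq : 1 ≤ q) (k : ℕ) (z : G) :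
    hm F q (k • z) ≤ k * hm F q z := by
  induction k with
  | zero => rw [zero_smul, hm_zero F (by linarith)]; simp
  | succ k ih =>
    rw [succ_nsmul]
    refine (hm_add F hq _ _).trans ?_
    push_cast
    linarith

theorem hm_sum (F : G → Y) {q : ℝ} (hq : 1 ≤ q) {α : Type*} (s : Finset α) (z : α → G) :
    hm F q (∑ i ∈ s, z i) ≤ ∑ i ∈ s, hm F q (z i) := by
  classical
  induction s using Finset.induction_on with
  | empty => rw [Finset.sum_empty, Finset.sum_empty, hm_zero F (by linarith)]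
  | insert a s ha ih =>
    rw [Finset.sum_insert ha, Finset.sum_insert ha]
    exact (hm_add F hq _ _).trans (by linarith)

/-- the power version of subadditivity under multiples -/
theorem gm_nsmul (F : G → Y) {q : ℝ} (hq : 1 ≤ q) (k : ℕ) (z : G) :
    ∑ x, ‖F (x + k • z) - F x‖ ^ q ≤ (k : ℝ) ^ q * ∑ x, ‖F (x + z) - F x‖ ^ q := by
  have hq0 : 0 < q := by linarith
  have h := hm_nsmul F hq k z
  have h2 := Real.rpow_le_rpow (hm_nonneg F q _) h hq0.le
  rw [hm_pow F hq0, Real.mul_rpow (by positivity) (hm_nonneg F q _), hm_pow F hq0] at h2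
  exact h2

/-- a good base point -/
theorem base_pt [Nonempty G] (F : G → Y) {q A : ℝ} (hA : ∀ z, ∑ x, ‖F (x + z) - F x‖ ^ q ≤ A) :
    ∃ x0, ∑ x, ‖F x - F x0‖ ^ q ≤ A := by
  have h1 : ∑ x0, ∑ x, ‖F x - F x0‖ ^ q = ∑ z : G, ∑ x, ‖F (x + z) - F x‖ ^ q := by
    have e1 : ∀ x0 : G, ∑ x, ‖F x - F x0‖ ^ q = ∑ z, ‖F (x0 + z) - F x0‖ ^ q := by
      intro x0
      exact (Equiv.sum_comp (Equiv.addLeft x0) (fun x => ‖F x - F x0‖ ^ q)).symm
    simp only [e1]
    rw [Finset.sum_comm]
  have h2 : ∑ x0, ∑ x, ‖F x - F x0‖ ^ q ≤ ∑ _x0 : G, A := by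
    rw [h1]
    exact Finset.sum_le_sum fun z _ => hA z
  obtain ⟨x0, _, h3⟩ := Finset.exists_le_of_sum_le Finset.univ_nonempty h2
  exact ⟨x0, h3⟩

end modulus

section upd
variable {J : Type v} [Fintype J] [DecidableEq J]

theorem upd_sum {K : Type*} [Fintype K] [DecidableEq K] (j : J) (c : K) (g : (J → K) → ℝ)
    (hg : ∀ a, 0 ≤ g a) :
    ∑ a : J → K, g (Function.update a j c) ≤ (Fintype.card K : ℝ) * ∑ a : J → K, g a := by
  classical
  set φ : (J → K) → K × (J → K) := fun a => (a j, Function.update a j c) with hφ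
  have hinj : Function.Injective φ := by
    intro a b hab
    rw [hφ] at hab
    simp only [Prod.mk.injEq] at hab
    funext i
    by_cases hi : i = j
    · rw [hi]; exact hab.1
    · have := congrFun hab.2 i
      simpa [Function.update_of_ne hi] using this
  have h1 : ∑ a : J → K, g (Function.update a j c) =
      ∑ p ∈ (Finset.univ : Finset (J → K)).image φ, g p.2 := by
    rw [Finset.sum_image fun a _ b _ h => hinj h]
  rw [h1]
  refine (Finset.sum_le_univ_sum_of_nonneg (fun p : K × (J → K) => hg p.2)).trans (le_of_eq ?_)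
  rw [Fintype.sum_prod_type]
  simp only [Finset.sum_const, Finset.card_univ, nsmul_eq_mul]

/-- at least half of the patterns are nonzero at a given place -/
theorem half_sum (j : J) : (3 : ℝ) ^ (Fintype.card J) ≤
    2 * ∑ a : J → Fin 3, (if a j = 0 then (0 : ℝ) else 1) := by
  have h1 : ∑ a : J → Fin 3, (if a j = 0 then (1 : ℝ) else 0) ≤
      ∑ a : J → Fin 3, (if a j = 0 then (0 : ℝ) else 1) := by
    rw [← Equiv.sum_comp (Equiv.addRight (Pi.single j (1 : Fin 3)))
      (fun a : J → Fin 3 => if a j = 0 then (0 : ℝ) else 1)]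
    refine Finset.sum_le_sum fun a _ => ?_
    rw [Equiv.coe_addRight]
    simp only [Pi.add_apply, Pi.single_eq_same]
    by_cases h : a j = 0
    · rw [h]; simp
    · rw [if_neg h]
      split_ifs <;> norm_num
  have h2 : ∑ a : J → Fin 3, ((if a j = 0 then (1 : ℝ) else 0) + (if a j = 0 then (0 : ℝ) else 1)) =
      3 ^ (Fintype.card J) := by
    have : ∀ a : J → Fin 3, (if a j = 0 then (1 : ℝ) else 0) + (if a j = 0 then (0 : ℝ) else 1) = 1 := by
      intro a; split_ifs <;> norm_num
    simp only [this, Finset.sum_const, Finset.card_univ, Fintype.card_fun, Fintype.card_fin,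
      nsmul_eq_mul, mul_one]
    push_cast; rfl
  rw [Finset.sum_add_distrib] at h2
  linarith

variable {G : Type*} [AddCommGroup G]

/-- the displacement given by a pattern and a sign vector -/
def dv (u : J → G) (a : J → Fin 3) (ε : J → Bool) : G := ∑ i, (if a i = 0 then 0 else sgz (ε i)) • u i

/-- the steps of a pattern -/
def ea (u : J → G) (k : ℕ) (a : J → Fin 3) (i : J) : G := if a i = 0 then 0 else k • u i

theorem sft_ea (u : J → G) (k : ℕ) (a : J → Fin 3) (ε : J → Bool) :
    sft (ea u k a) ε = k • dv u a ε := by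
  unfold sft ea dv
  rw [Finset.smul_sum]
  refine Finset.sum_congr rfl fun i _ => ?_
  split_ifs
  · simp
  · rw [smul_comm]

theorem sfj_ea (u : J → G) (k : ℕ) (a : J → Fin 3) (j : J) (ε : J → Bool) :
    sfj (ea u k a) j ε = k • dv u (Function.update a j 0) ε := by
  unfold sfj ea dv
  rw [Finset.smul_sum]
  refine Finset.sum_congr rfl fun i _ => ?_
  by_cases hi : i = j
  · rw [if_pos hi, hi]; simp
  · rw [if_neg hi, Function.update_of_ne hi]
    split_ifs
    · simp
    · rw [smul_comm]

theorem dv_diff (u : J → G) (a : J → Fin 3) (j : J) (ε : J → Bool) :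
    u j = dv u (Function.update a j 1) (Function.update ε j true) -
      dv u (Function.update a j 0) (Function.update ε j true) := by
  unfold dv
  rw [← Finset.sum_sub_distrib, Finset.sum_eq_single j]
  · simp [sgz]
  · intro i _ hi
    simp only [Function.update_of_ne hi, sub_self]
  · intro h; exact absurd (Finset.mem_univ j) h

end upd

end TH364.SG
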