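import Mathlib
import Pool.Agent.TH364.SG.W6
set_option autoImplicit false
set_option linter.unusedSectionVars false

/-! Averaging the weighted inequality over the patterns. -/

namespace TH364.SG

open scoped ENNReal InnerProductSpace
open Finset
open Pool.Agent.Results.MP_fd02da_an.SchattenIsometries

universe u v

theorem avg_be {A : Type*} [Fintype A] [Nonempty A] (y : A → ℝ) (hy : ∀ a, 0 ≤ y a)
    {c B q β : ℝ} (hc : 0 ≤ c) (hB : 0 ≤ B) (hq : 0 < q) (hβ : 0 < β) (hβ1 : β ≤ 1)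
    (h : ∑ a, y a ^ q ≤ (Fintype.card A : ℝ) * B ^ q) :
    (∑ a, (c * y a ^ β) ^ q) ^ (1 / q) ≤ c * ((Fintype.card A : ℝ) ^ (1 / q) * B ^ β) := by
  have hT : (0 : ℝ) < Fintype.card A := by exact_mod_cast Fintype.card_pos
  set T : ℝ := (Fintype.card A : ℝ) with hTd
  have h1 : ∑ a, y a ^ (β * q) ≤ T * B ^ (β * q) := by
    have hw : ∑ _a : A, 1 / T = 1 := by
      rw [Finset.sum_const, Finset.card_univ, nsmul_eq_mul, ← hTd]
      field_simp
    have h2 := Real.rpow_arith_mean_le_arith_mean_rpow (Finset.univ : Finset A) (fun _ => 1 / T)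
      (fun a => y a ^ (β * q)) (fun _ _ => by positivity) hw
      (fun a _ => Real.rpow_nonneg (hy a) _) (p := 1 / β) (by rw [le_div_iff₀ hβ]; linarith)
    rw [← Finset.mul_sum, ← Finset.mul_sum] at h2
    have e1 : ∀ a, (y a ^ (β * q)) ^ (1 / β) = y a ^ q := by
      intro a
      rw [← Real.rpow_mul (hy a)]
      congr 1
      field_simp
    simp only [e1] at h2
    have hS0 : 0 ≤ ∑ a, y a ^ (β * q) := Finset.sum_nonneg fun a _ => Real.rpow_nonneg (hy a) _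
    have h3 : (1 / T * ∑ a, y a ^ (β * q)) ^ (1 / β) ≤ B ^ q := by
      refine h2.trans ?_
      calc 1 / T * ∑ a, y a ^ q ≤ 1 / T * (T * B ^ q) := mul_le_mul_of_nonneg_left h (by positivity)
        _ = B ^ q := by field_simp
    have h4 := Real.rpow_le_rpow (Real.rpow_nonneg (by positivity) _) h3 hβ.le
    rw [← Real.rpow_mul (by positivity), one_div_mul_cancel hβ.ne', Real.rpow_one,
      ← Real.rpow_mul hB] at h4
    have h5 := mul_le_mul_of_nonneg_left h4 hT.le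
    have e2 : T * (1 / T * ∑ a, y a ^ (β * q)) = ∑ a, y a ^ (β * q) := by field_simp
    rw [e2, mul_comm q β] at h5
    exact h5
  have e3 : ∀ a, (c * y a ^ β) ^ q = c ^ q * y a ^ (β * q) := by
    intro a
    rw [Real.mul_rpow hc (Real.rpow_nonneg (hy a) _), ← Real.rpow_mul (hy a)]
  simp only [e3, ← Finset.mul_sum]
  have hS0 : 0 ≤ ∑ a, y a ^ (β * q) := Finset.sum_nonneg fun a _ => Real.rpow_nonneg (hy a) _
  rw [Real.mul_rpow (Real.rpow_nonneg hc _) hS0, ← Real.rpow_mul hc, mul_one_div_cancel hq.ne',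
    Real.rpow_one]
  refine mul_le_mul_of_nonneg_left ?_ hc
  refine (Real.rpow_le_rpow hS0 h1 (by positivity)).trans_eq ?_
  rw [Real.mul_rpow hT.le (Real.rpow_nonneg hB _), ← Real.rpow_mul hB]
  congr 2
  field_simp

variable {H : Type u} [NormedAddCommGroup H] [InnerProductSpace ℂ H] [CompleteSpace H]
variable {J : Type v} [Fintype J] [DecidableEq J] [Nonempty J]
variable {G : Type*} [AddCommGroup G] [Fintype G]

theorem avg_main (r k l : ℕ) (u : J → G) (F : G → SchattenClass 1 H) {q b M : ℝ} (hq : 2 ≤ q)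
    (b0 : 0 ≤ b) (M0 : 0 ≤ M)
    (hM : ∀ z, ∑ x, ‖F (x + z) - F x‖ ^ q ≤ (Fintype.card G : ℝ) * M ^ q)
    (hb : ∑ a : J → Fin 3, ∑ ε : J → Bool, ∑ x, ‖F (x + dv u a ε) - F x‖ ^ q ≤
      2 ^ (Fintype.card J) * (3 ^ (Fintype.card J) * ((Fintype.card G : ℝ) * b ^ q))) :
    (∑ j, ∑ x, ‖F (x + (2 * l) • (k • u j)) - F x‖ ^ q) ^ (1 / q) ≤
      512 * ((Fintype.card G : ℝ) ^ (1 / q) * (M ^ ((((2 ^ (r + 1) : ℕ) : ℝ))⁻¹) *
        (k * b) ^ (1 - (((2 ^ (r + 1) : ℕ) : ℝ))⁻¹)) *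
        (3 * (Fintype.card J : ℝ) ^ (1 / q) + l * (ck r ^ ((((2 ^ (r + 1) : ℕ) : ℝ))⁻¹) *
          (Fintype.card J : ℝ) ^ ((((2 ^ (r + 1) : ℕ) : ℝ))⁻¹ / q)))) := by
  have hβ := be_pos r
  have hβ1 := (be_lt r).le
  unfold be at hβ hβ1
  have hα : 0 < (((2 ^ (r + 1) : ℕ) : ℝ))⁻¹ := by positivity
  have hck : 0 ≤ ck r := by unfold ck; positivity
  have hq0 : 0 < q := by linarith
  have hq1 : 1 ≤ q := by linarith
  have hN : (0 : ℝ) < Fintype.card G := by exact_mod_cast Fintype.card_pos_iff.2 ⟨0⟩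
  have hn : (0 : ℝ) < Fintype.card J := by exact_mod_cast Fintype.card_pos
  have h2n : (0 : ℝ) < 2 ^ (Fintype.card J) := by positivity
  have h3n : (0 : ℝ) < 3 ^ (Fintype.card J) := by positivity
  have hc3 : (Fintype.card (J → Fin 3) : ℝ) = 3 ^ (Fintype.card J) := by
    rw [Fintype.card_fun, Fintype.card_fin]; push_cast; rfl
  set N : ℝ := (Fintype.card G : ℝ) with hNd
  set n : ℝ := (Fintype.card J : ℝ) with hnd
  set Tn : ℝ := 2 ^ (Fintype.card J) with hTn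
  set g : G → ℝ := fun z => ∑ x, ‖F (x + z) - F x‖ ^ q with hg
  have g0 : ∀ z, 0 ≤ g z := fun z => gm_nonneg F q z
  set A0 : (J → Fin 3) → ℝ := fun a => ∑ ε : J → Bool, g (dv u a ε) with hA0
  have A00 : ∀ a, 0 ≤ A0 a := fun a => Finset.sum_nonneg fun ε _ => g0 _
  have hAb : ∑ a, A0 a ≤ Tn * (3 ^ (Fintype.card J) * (N * b ^ q)) := hb
  set A1 : (J → Fin 3) → ℝ := fun a => ∑ j, A0 (Function.update a j 0) with hA1
  have A10 : ∀ a, 0 ≤ A1 a := fun a => Finset.sum_nonneg fun j _ => A00 _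
  set ba : (J → Fin 3) → ℝ := fun a => k * (A0 a / (Tn * N)) ^ (1 / q) with hba
  set b1 : (J → Fin 3) → ℝ := fun a => k * (A1 a / (Tn * N * n)) ^ (1 / q) with hb1
  have ba0 : ∀ a, 0 ≤ ba a := fun a => mul_nonneg (by positivity)
    (Real.rpow_nonneg (div_nonneg (A00 a) (by positivity)) _)
  have b10 : ∀ a, 0 ≤ b1 a := fun a => mul_nonneg (by positivity)
    (Real.rpow_nonneg (div_nonneg (A10 a) (by positivity)) _)
  have baq : ∀ a, ba a ^ q = (k : ℝ) ^ q * (A0 a / (Tn * N)) := by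
    intro a
    rw [hba]; dsimp only
    rw [Real.mul_rpow (by positivity) (Real.rpow_nonneg (div_nonneg (A00 a) (by positivity)) _),
      ← Real.rpow_mul (div_nonneg (A00 a) (by positivity)), one_div_mul_cancel hq0.ne',
      Real.rpow_one]
  have b1q : ∀ a, b1 a ^ q = (k : ℝ) ^ q * (A1 a / (Tn * N * n)) := by
    intro a
    rw [hb1]; dsimp only
    rw [Real.mul_rpow (by positivity) (Real.rpow_nonneg (div_nonneg (A10 a) (by positivity)) _),
      ← Real.rpow_mul (div_nonneg (A10 a) (by positivity)), one_div_mul_cancel hq0.ne',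
      Real.rpow_one]
  obtain ⟨x0, hx0⟩ := base_pt F hM
  -- each pattern
  have per : ∀ a : J → Fin 3, (∑ x, ∑ j, ‖F (x + (2 * l) • ea u k a j) - F x‖ ^ q) ^ (1 / q) ≤
      256 * BB r l q M (ba a) (b1 a) N n := by
    intro a
    refine torus3 r l F x0 hq M0 (ba0 a) (b10 a) hx0 ?_ ?_
    · rw [Finset.sum_comm]
      simp only [sft_ea]
      refine (Finset.sum_le_sum fun ε _ => gm_nsmul F hq1 k (dv u a ε)).trans ?_
      rw [← Finset.mul_sum, baq]
      refine le_of_eq ?_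
      change (k : ℝ) ^ q * A0 a = Tn * (N * ((k : ℝ) ^ q * (A0 a / (Tn * N))))
      field_simp
    · rw [Finset.sum_comm]
      have e1 : ∀ j, ∑ x, ∑ ε : J → Bool, ‖F (x + sfj (ea u k a) j ε) - F x‖ ^ q ≤
          (k : ℝ) ^ q * A0 (Function.update a j 0) := by
        intro j
        rw [Finset.sum_comm]
        simp only [sfj_ea]
        refine (Finset.sum_le_sum fun ε _ => gm_nsmul F hq1 k (dv u _ ε)).trans ?_
        rw [← Finset.mul_sum]
      refine (Finset.sum_le_sum fun j _ => e1 j).trans ?_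
      rw [← Finset.mul_sum, b1q]
      refine le_of_eq ?_
      change (k : ℝ) ^ q * A1 a = Tn * (N * n * ((k : ℝ) ^ q * (A1 a / (Tn * N * n))))
      field_simp
  -- the left side for each pattern
  have lhs : ∀ a : J → Fin 3, ∑ x, ∑ j, ‖F (x + (2 * l) • ea u k a j) - F x‖ ^ q =
      ∑ j, (if a j = 0 then (0 : ℝ) else 1) * g ((2 * l) • (k • u j)) := by
    intro a
    rw [Finset.sum_comm]
    refine Finset.sum_congr rfl fun j _ => ?_
    unfold ea
    split_ifs with h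
    · simp [Real.zero_rpow hq0.ne']
    · rw [one_mul]
  set X : (J → Fin 3) → ℝ := fun a => ∑ j, (if a j = 0 then (0 : ℝ) else 1) *
    g ((2 * l) • (k • u j)) with hX
  have X0 : ∀ a, 0 ≤ X a := fun a => Finset.sum_nonneg fun j _ => by
    refine mul_nonneg ?_ (g0 _)
    split_ifs <;> norm_num
  have low : (3 : ℝ) ^ (Fintype.card J) * ∑ j, g ((2 * l) • (k • u j)) ≤ 2 * ∑ a, X a := by
    have e1 : ∑ a, X a = ∑ j, (∑ a : J → Fin 3, (if a j = 0 then (0 : ℝ) else 1)) *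
        g ((2 * l) • (k • u j)) := by
      rw [hX]; dsimp only
      rw [Finset.sum_comm]
      refine Finset.sum_congr rfl fun j _ => ?_
      rw [Finset.sum_mul]
    rw [e1, Finset.mul_sum, Finset.mul_sum]
    refine Finset.sum_le_sum fun j _ => ?_
    rw [← mul_assoc]
    exact mul_le_mul_of_nonneg_right (half_sum j) (g0 _)
  set c1 : ℝ := 256 * ((N * n) ^ (1 / q) * M ^ ((((2 ^ (r + 1) : ℕ) : ℝ))⁻¹)) with hc1
  set c2 : ℝ := 256 * (l * (ck r ^ ((((2 ^ (r + 1) : ℕ) : ℝ))⁻¹) *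
    (n ^ ((((2 ^ (r + 1) : ℕ) : ℝ))⁻¹ / q) * (N ^ (1 / q) * M ^ ((((2 ^ (r + 1) : ℕ) : ℝ))⁻¹)))))
    with hc2
  have c10 : 0 ≤ c1 := by positivity
  have c20 : 0 ≤ c2 := by positivity
  have hXa : ∀ a, X a ≤ (c1 * b1 a ^ (1 - (((2 ^ (r + 1) : ℕ) : ℝ))⁻¹) +
      c2 * ba a ^ (1 - (((2 ^ (r + 1) : ℕ) : ℝ))⁻¹)) ^ q := by
    intro a
    have h := per a
    rw [lhs a] at h
    have h2 := Real.rpow_le_rpow (Real.rpow_nonneg (X0 a) _) h hq0.le
    rw [← Real.rpow_mul (X0 a), one_div_mul_cancel hq0.ne', Real.rpow_one] at h2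
    refine h2.trans_eq ?_
    congr 1
    rw [hc1, hc2]
    unfold BB
    ring
  have mk := Real.Lp_add_le_of_nonneg (Finset.univ : Finset (J → Fin 3)) hq1
    (f := fun a => c1 * b1 a ^ (1 - (((2 ^ (r + 1) : ℕ) : ℝ))⁻¹))
    (g := fun a => c2 * ba a ^ (1 - (((2 ^ (r + 1) : ℕ) : ℝ))⁻¹))
    (fun a _ => mul_nonneg c10 (Real.rpow_nonneg (b10 a) _))
    (fun a _ => mul_nonneg c20 (Real.rpow_nonneg (ba0 a) _))
  have kb0 : (0 : ℝ) ≤ k * b := by positivity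
  have sb : ∑ a, ba a ^ q ≤ (Fintype.card (J → Fin 3) : ℝ) * (k * b) ^ q := by
    simp only [baq]
    rw [← Finset.mul_sum, ← Finset.sum_div, hc3, Real.mul_rpow (by positivity) b0]
    calc (k : ℝ) ^ q * ((∑ a, A0 a) / (Tn * N))
        ≤ (k : ℝ) ^ q * ((Tn * (3 ^ (Fintype.card J) * (N * b ^ q))) / (Tn * N)) := by gcongr
      _ = _ := by field_simp
  have sA1 : ∑ a, A1 a ≤ n * (3 * (Tn * (3 ^ (Fintype.card J) * (N * b ^ q)))) := by
    rw [hA1]; dsimp only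
    rw [Finset.sum_comm]
    have e1 : ∀ j ∈ (Finset.univ : Finset J), ∑ a : J → Fin 3, A0 (Function.update a j 0) ≤
        3 * (Tn * (3 ^ (Fintype.card J) * (N * b ^ q))) := by
      intro j _
      have h := upd_sum j (0 : Fin 3) A0 A00
      rw [Fintype.card_fin] at h
      push_cast at h
      linarith
    refine (Finset.sum_le_card_nsmul _ _ _ e1).trans_eq ?_
    rw [Finset.card_univ, nsmul_eq_mul]
  have sb1 : ∑ a, b1 a ^ q ≤ (Fintype.card (J → Fin 3) : ℝ) * (3 * (k * b)) ^ q := by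
    simp only [b1q]
    rw [← Finset.mul_sum, ← Finset.sum_div, hc3, Real.mul_rpow (by norm_num) kb0,
      Real.mul_rpow (by positivity : (0 : ℝ) ≤ k) b0]
    have h3q : (3 : ℝ) ≤ 3 ^ q := by
      calc (3 : ℝ) = 3 ^ (1 : ℝ) := (Real.rpow_one 3).symm
        _ ≤ 3 ^ q := Real.rpow_le_rpow_of_exponent_le (by norm_num) hq1
    have hkq : (0 : ℝ) ≤ (k : ℝ) ^ q := by positivity
    have hbq : 0 ≤ b ^ q := Real.rpow_nonneg b0 _
    calc (k : ℝ) ^ q * ((∑ a, A1 a) / (Tn * N * n))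
        ≤ (k : ℝ) ^ q * ((n * (3 * (Tn * (3 ^ (Fintype.card J) * (N * b ^ q))))) / (Tn * N * n)) := by
          gcongr
      _ = 3 ^ (Fintype.card J) * (3 * ((k : ℝ) ^ q * b ^ q)) := by field_simp
      _ ≤ _ := by gcongr
  have r1 := avg_be b1 b10 c10 (by positivity : (0 : ℝ) ≤ 3 * (k * b)) hq0 hβ hβ1 sb1
  have r2 := avg_be ba ba0 c20 kb0 hq0 hβ hβ1 sb
  rw [hc3] at r1 r2
  have sX0 : 0 ≤ ∑ a, X a := Finset.sum_nonneg fun a _ => X0 a
  have sg0 : 0 ≤ ∑ j, g ((2 * l) • (k • u j)) := Finset.sum_nonneg fun j _ => g0 _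
  have tot : (∑ a, X a) ^ (1 / q) ≤ (3 ^ (Fintype.card J)) ^ (1 / q) *
      (c1 * (3 * (k * b)) ^ (1 - (((2 ^ (r + 1) : ℕ) : ℝ))⁻¹) +
        c2 * (k * b) ^ (1 - (((2 ^ (r + 1) : ℕ) : ℝ))⁻¹)) := by
    refine (Real.rpow_le_rpow sX0 (Finset.sum_le_sum fun a _ => hXa a) (by positivity)).trans ?_
    refine mk.trans ((add_le_add r1 r2).trans (le_of_eq ?_))
    ring
  have h2q : (2 : ℝ) ^ (1 / q) ≤ 2 := by
    calc (2 : ℝ) ^ (1 / q) ≤ 2 ^ (1 : ℝ) := Real.rpow_le_rpow_of_exponent_le (by norm_num)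
          (by rw [div_le_one hq0]; linarith)
      _ = 2 := Real.rpow_one 2
  have fin1 : (3 ^ (Fintype.card J)) ^ (1 / q) * (∑ j, g ((2 * l) • (k • u j))) ^ (1 / q) ≤
      (3 ^ (Fintype.card J)) ^ (1 / q) * (2 *
      (c1 * (3 * (k * b)) ^ (1 - (((2 ^ (r + 1) : ℕ) : ℝ))⁻¹) +
        c2 * (k * b) ^ (1 - (((2 ^ (r + 1) : ℕ) : ℝ))⁻¹))) := by
    rw [← Real.mul_rpow h3n.le sg0]
    refine (Real.rpow_le_rpow (by positivity) low (by positivity)).trans ?_
    rw [Real.mul_rpow (by norm_num) sX0]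
    have hpos : 0 ≤ (∑ a, X a) ^ (1 / q) := Real.rpow_nonneg sX0 _
    calc (2 : ℝ) ^ (1 / q) * (∑ a, X a) ^ (1 / q) ≤ 2 * (∑ a, X a) ^ (1 / q) :=
          mul_le_mul_of_nonneg_right h2q hpos
      _ ≤ 2 * ((3 ^ (Fintype.card J)) ^ (1 / q) *
          (c1 * (3 * (k * b)) ^ (1 - (((2 ^ (r + 1) : ℕ) : ℝ))⁻¹) +
          c2 * (k * b) ^ (1 - (((2 ^ (r + 1) : ℕ) : ℝ))⁻¹))) :=
          mul_le_mul_of_nonneg_left tot (by norm_num)
      _ = _ := by ring
  have fin2 := le_of_mul_le_mul_left fin1 (Real.rpow_pos_of_pos h3n _)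
  refine fin2.trans ?_
  have h3β : (3 * ((k : ℝ) * b)) ^ (1 - (((2 ^ (r + 1) : ℕ) : ℝ))⁻¹) ≤
      3 * (k * b) ^ (1 - (((2 ^ (r + 1) : ℕ) : ℝ))⁻¹) := by
    rw [Real.mul_rpow (by norm_num) kb0]
    refine mul_le_mul_of_nonneg_right ?_ (Real.rpow_nonneg kb0 _)
    calc (3 : ℝ) ^ (1 - (((2 ^ (r + 1) : ℕ) : ℝ))⁻¹) ≤ 3 ^ (1 : ℝ) :=
          Real.rpow_le_rpow_of_exponent_le (by norm_num) hβ1
      _ = 3 := Real.rpow_one 3
  refine (mul_le_mul_of_nonneg_left (add_le_add (mul_le_mul_of_nonneg_left h3β c10) le_rfl)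
    (by norm_num)).trans (le_of_eq ?_)
  rw [hc1, hc2, Real.mul_rpow hN.le hn.le]
  ring

end TH364.SG
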