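import Mathlib
import Pool.Agent.TH364.SG.W7
import Pool.Agent.TH364.SG.Fin
set_option autoImplicit false
set_option linter.unusedSectionVars false

/-! The final numbers. -/

namespace TH364.SG

open scoped ENNReal InnerProductSpace
open Finset
open Pool.Agent.Results.MP_fd02da_an.SchattenIsometries

universe u v

section step
variable {Y : Type u} [NormedAddCommGroup Y]
variable {J : Type v} [Fintype J] [DecidableEq J] [Nonempty J]
variable {G : Type*} [AddCommGroup G] [Fintype G]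

theorem step_bound (u : J → G) (F : G → Y) {q b : ℝ} (hq : 1 ≤ q) (b0 : 0 ≤ b)
    (hb : ∑ a : J → Fin 3, ∑ ε : J → Bool, ∑ x, ‖F (x + dv u a ε) - F x‖ ^ q ≤
      2 ^ (Fintype.card J) * (3 ^ (Fintype.card J) * ((Fintype.card G : ℝ) * b ^ q))) (j : J) :
    hm F q (u j) ≤ 24 * ((Fintype.card G : ℝ) ^ (1 / q) * b) := by
  have hq0 : 0 < q := by linarith
  have hN : (0 : ℝ) < Fintype.card G := by exact_mod_cast Fintype.card_pos_iff.2 ⟨0⟩
  set N : ℝ := (Fintype.card G : ℝ) with hNd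
  set g : G → ℝ := fun z => ∑ x, ‖F (x + z) - F x‖ ^ q with hg
  have g0 : ∀ z, 0 ≤ g z := fun z => gm_nonneg F q z
  set V : ℝ := ∑ a : J → Fin 3, ∑ ε : J → Bool, g (dv u a ε) with hV
  have key : ∀ c : Fin 3, ∑ a : J → Fin 3, ∑ ε : J → Bool,
      g (dv u (Function.update a j c) (Function.update ε j true)) ≤ 6 * V := by
    intro c
    have h1 : ∀ a ∈ (Finset.univ : Finset (J → Fin 3)), ∑ ε : J → Bool,
        g (dv u (Function.update a j c) (Function.update ε j true)) ≤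
        2 * ∑ ε : J → Bool, g (dv u (Function.update a j c) ε) := by
      intro a _
      have h := upd_sum j true (fun ε : J → Bool => g (dv u (Function.update a j c) ε))
        (fun _ => g0 _)
      rw [Fintype.card_bool] at h
      push_cast at h
      exact h
    refine (Finset.sum_le_sum h1).trans ?_
    rw [← Finset.mul_sum]
    have h := upd_sum j c (fun a : J → Fin 3 => ∑ ε : J → Bool, g (dv u a ε))
      (fun _ => Finset.sum_nonneg fun _ _ => g0 _)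
    rw [Fintype.card_fin] at h
    push_cast at h
    linarith
  have tot : ∑ p : (J → Fin 3) × (J → Bool),
      (g (dv u (Function.update p.1 j 1) (Function.update p.2 j true)) +
        g (dv u (Function.update p.1 j 0) (Function.update p.2 j true))) ≤
      ∑ _p : (J → Fin 3) × (J → Bool), 12 * (N * b ^ q) := by
    rw [Fintype.sum_prod_type]
    simp only [Finset.sum_add_distrib, Finset.sum_const, Finset.card_univ, Fintype.card_prod,
      Fintype.card_fun, Fintype.card_fin, Fintype.card_bool, nsmul_eq_mul]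
    have k1 := key 1
    have k0 := key 0
    have hb' : V ≤ 2 ^ (Fintype.card J) * (3 ^ (Fintype.card J) * (N * b ^ q)) := hb
    push_cast
    calc _ ≤ 6 * V + 6 * V := add_le_add k1 k0
      _ ≤ _ := by linarith
  obtain ⟨p, _, hp⟩ := Finset.exists_le_of_sum_le Finset.univ_nonempty tot
  have hroot : ∀ z, g z ≤ 12 * (N * b ^ q) → hm F q z ≤ 12 * (N ^ (1 / q) * b) := by
    intro z hz
    have h1 : hm F q z ≤ (12 * (N * b ^ q)) ^ (1 / q) :=
      Real.rpow_le_rpow (g0 z) hz (by positivity)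
    refine h1.trans ?_
    have hbq : 0 ≤ b ^ q := Real.rpow_nonneg b0 _
    rw [Real.mul_rpow (by norm_num) (by positivity), Real.mul_rpow hN.le hbq, ← Real.rpow_mul b0,
      mul_one_div_cancel hq0.ne', Real.rpow_one]
    have h12 : (12 : ℝ) ^ (1 / q) ≤ 12 := by
      calc (12 : ℝ) ^ (1 / q) ≤ 12 ^ (1 : ℝ) := Real.rpow_le_rpow_of_exponent_le (by norm_num)
            (by rw [div_le_one hq0]; linarith)
        _ = 12 := Real.rpow_one 12
    exact mul_le_mul_of_nonneg_right h12 (by positivity)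
  have q1 := hroot _ (le_trans (le_add_of_nonneg_right (g0 _)) hp)
  have q2 := hroot _ (le_trans (le_add_of_nonneg_left (g0 _)) hp)
  rw [dv_diff u p.1 j p.2, sub_eq_add_neg]
  refine (hm_add F hq _ _).trans ?_
  rw [hm_neg]
  linarith

end step

section num

theorem ck_root (r : ℕ) : ck r ^ ((((2 ^ (r + 1) : ℕ) : ℝ))⁻¹) ≤
    Real.sqrt (6 * ((2 ^ (r + 1) : ℕ) : ℝ)) := by
  have h := Cn_le r 1
  unfold Cn at h
  simpa using h

theorem n_root {n r : ℕ} (hn : 1 ≤ n) (hr : Real.log (n + 1 : ℕ) ≤ ((2 ^ (r + 1) : ℕ) : ℝ)) :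
    (n : ℝ) ^ ((((2 ^ (r + 1) : ℕ) : ℝ))⁻¹) ≤ 3 := by
  have hn' : (1 : ℝ) ≤ n := by exact_mod_cast hn
  have hP : (0 : ℝ) < ((2 ^ (r + 1) : ℕ) : ℝ) := by positivity
  have h1 : Real.log n ≤ ((2 ^ (r + 1) : ℕ) : ℝ) := by
    refine le_trans (Real.log_le_log (by linarith) ?_) hr
    push_cast; linarith
  rw [Real.rpow_def_of_pos (by linarith)]
  have h2 : Real.log n * ((((2 ^ (r + 1) : ℕ) : ℝ))⁻¹) ≤ 1 := by
    rw [← div_eq_mul_inv, div_le_one hP]; exact h1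
  have h3 := Real.exp_le_exp.2 h2
  have := Real.exp_one_lt_d9
  linarith

/-- arithmetic of the scales -/
theorem scales {n m : ℕ} {q : ℝ} (hq : 1 ≤ q) (hn : 1 ≤ n) (hm : (n : ℝ) ^ (1 / q) ≤ m) :
    ∃ k l s : ℕ, 1 ≤ k ∧ 2 * l * k + s = m / 2 ∧ s ≤ 2 * k ∧ 4 * (k * l) ≤ m ∧ m ≤ 2 * (k * n) ∧
      (k : ℝ) * (n : ℝ) ^ (1 / q) ≤ m := by
  have hn' : (1 : ℝ) ≤ n := by exact_mod_cast hn
  have hq0 : 0 < q := by linarith
  obtain ⟨L, hL⟩ : ∃ L, L = ⌈(n : ℝ) ^ (1 / q)⌉₊ := ⟨_, rfl⟩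
  have hroot1 : (1 : ℝ) ≤ (n : ℝ) ^ (1 / q) := Real.one_le_rpow hn' (by positivity)
  have hL1 : 1 ≤ L := by
    rw [hL]; exact Nat.one_le_ceil_iff.2 (by linarith)
  have hLm : L ≤ m := by rw [hL]; exact Nat.ceil_le.2 hm
  have hLn : L ≤ n := by
    rw [hL]
    refine Nat.ceil_le.2 ?_
    calc (n : ℝ) ^ (1 / q) ≤ (n : ℝ) ^ (1 : ℝ) := Real.rpow_le_rpow_of_exponent_le hn'
          (by rw [div_le_one hq0]; exact hq)
      _ = n := Real.rpow_one _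
  have hrL : (n : ℝ) ^ (1 / q) ≤ L := by rw [hL]; exact Nat.le_ceil _
  obtain ⟨k, hk⟩ : ∃ k, k = m / L := ⟨_, rfl⟩
  have hk1 : 1 ≤ k := by rw [hk]; exact Nat.div_pos hLm hL1
  have hkL : k * L ≤ m := by rw [hk]; exact Nat.div_mul_le_self m L
  have hmk : m < k * L + L := by
    have := Nat.lt_div_mul_add (a := m) (b := L) hL1
    rw [← hk] at this
    exact this
  refine ⟨k, (m / 2) / (2 * k), (m / 2) % (2 * k), hk1, ?_, ?_, ?_, ?_, ?_⟩
  · have := Nat.div_add_mod (m / 2) (2 * k)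
    calc _ = 2 * k * (m / 2 / (2 * k)) + (m / 2) % (2 * k) := by ring
      _ = _ := this
  · exact (Nat.mod_lt _ (by omega)).le
  · have h1 := Nat.div_mul_le_self (m / 2) (2 * k)
    have h2 : 2 * (m / 2) ≤ m := Nat.mul_div_le m 2
    calc 4 * (k * (m / 2 / (2 * k))) = 2 * (m / 2 / (2 * k) * (2 * k)) := by ring
      _ ≤ 2 * (m / 2) := by omega
      _ ≤ m := h2
  · have h1 : k * L ≤ k * n := Nat.mul_le_mul_left k hLn
    have h2 : L ≤ k * L := Nat.le_mul_of_pos_left L hk1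
    omega
  · calc (k : ℝ) * (n : ℝ) ^ (1 / q) ≤ (k : ℝ) * L := mul_le_mul_of_nonneg_left hrL (by positivity)
      _ ≤ m := by exact_mod_cast hkL

/-- the numerical estimate -/
theorem num_bound {n m k l r : ℕ} {q b : ℝ} (hq : 1 ≤ q) (hn : 1 ≤ n) (b0 : 0 ≤ b) (hk : 1 ≤ k)
    (h4 : 4 * (k * l) ≤ m) (h2 : m ≤ 2 * (k * n)) (h1 : (k : ℝ) * (n : ℝ) ^ (1 / q) ≤ m)
    (hr1 : Real.log (n + 1 : ℕ) ≤ ((2 ^ (r + 1) : ℕ) : ℝ))
    (hr2 : ((2 ^ (r + 1) : ℕ) : ℝ) ≤ 3 * Real.log (n + 1 : ℕ)) :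
    ((24 * (n * m) * b) ^ ((((2 ^ (r + 1) : ℕ) : ℝ))⁻¹) *
        (k * b) ^ (1 - (((2 ^ (r + 1) : ℕ) : ℝ))⁻¹)) *
        (3 * (n : ℝ) ^ (1 / q) + l * (ck r ^ ((((2 ^ (r + 1) : ℕ) : ℝ))⁻¹) *
          (n : ℝ) ^ ((((2 ^ (r + 1) : ℕ) : ℝ))⁻¹ / q))) ≤
      3000 * Real.sqrt (Real.log (n + 1 : ℕ)) * (m * b) := by
  have hn' : (1 : ℝ) ≤ n := by exact_mod_cast hn
  have hk' : (1 : ℝ) ≤ k := by exact_mod_cast hk
  have hk0 : (0 : ℝ) < k := by linarith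
  have hq0 : 0 < q := by linarith
  have hP2 : (2 : ℝ) ≤ ((2 ^ (r + 1) : ℕ) : ℝ) := by exact_mod_cast two_le_P r
  have hnr := n_root hn hr1
  have hck := ck_root r
  have hck0 : 0 ≤ ck r := by unfold ck; positivity
  have hβ := be_pos r
  unfold be at hβ
  set P : ℝ := ((2 ^ (r + 1) : ℕ) : ℝ) with hP
  have hP0 : 0 < P := by linarith
  have hα : 0 < P⁻¹ := by positivity
  have hα1 : P⁻¹ ≤ 1 := inv_le_one_of_one_le₀ (by linarith)
  obtain ⟨Λ, hΛ⟩ : ∃ Λ, Λ = Real.sqrt (Real.log (n + 1 : ℕ)) := ⟨_, rfl⟩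
  rw [← hΛ]
  have hlog : 0.69 ≤ Real.log (n + 1 : ℕ) := by
    have h1 := Real.log_two_gt_d9
    have h2 : Real.log 2 ≤ Real.log (n + 1 : ℕ) := by
      refine Real.log_le_log (by norm_num) ?_
      push_cast; linarith
    linarith
  have hΛ2 : Λ ^ 2 = Real.log (n + 1 : ℕ) := by rw [hΛ]; exact Real.sq_sqrt (by linarith)
  have hΛ0 : 0 ≤ Λ := by rw [hΛ]; exact Real.sqrt_nonneg _
  have hΛ8 : 0.8 ≤ Λ := by nlinarith
  have hck2 : ck r ^ P⁻¹ ≤ 4.25 * Λ := by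
    refine hck.trans ?_
    refine Real.sqrt_le_iff.2 ⟨by positivity, ?_⟩
    rw [mul_pow, hΛ2]
    nlinarith
  have hnq : (n : ℝ) ^ (P⁻¹ / q) ≤ 3 := by
    refine le_trans (Real.rpow_le_rpow_of_exponent_le hn' ?_) hnr
    rw [div_le_iff₀ hq0]
    nlinarith
  -- the factor (24 n m b)^α (k b)^β
  have hm2 : (m : ℝ) ≤ 2 * (k * n) := by exact_mod_cast h2
  have hfac : (24 * (n * m) * b) ^ P⁻¹ * (k * b) ^ (1 - P⁻¹) ≤ 432 * (k * b) := by
    have kb0 : (0 : ℝ) ≤ k * b := by positivity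
    have e1 : (24 * (n * m) * b) ≤ (48 * n ^ 2) * (k * b) := by
      have : (n : ℝ) * m ≤ n * (2 * (k * n)) := mul_le_mul_of_nonneg_left hm2 (by positivity)
      calc (24 * ((n : ℝ) * m) * b) ≤ 24 * (n * (2 * (k * n))) * b := by gcongr
        _ = _ := by ring
    have e2 : (24 * (n * m) * b) ^ P⁻¹ ≤ ((48 * n ^ 2) * (k * b)) ^ P⁻¹ :=
      Real.rpow_le_rpow (by positivity) e1 hα.le
    have e3 : ((48 * (n : ℝ) ^ 2) * (k * b)) ^ P⁻¹ = (48 * (n : ℝ) ^ 2) ^ P⁻¹ * (k * b) ^ P⁻¹ :=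
      Real.mul_rpow (by positivity) kb0
    have e4 : (48 * (n : ℝ) ^ 2) ^ P⁻¹ ≤ 432 := by
      rw [Real.mul_rpow (by norm_num) (by positivity)]
      have f1 : (48 : ℝ) ^ P⁻¹ ≤ 48 := by
        calc (48 : ℝ) ^ P⁻¹ ≤ 48 ^ (1 : ℝ) := Real.rpow_le_rpow_of_exponent_le (by norm_num) hα1
          _ = 48 := Real.rpow_one _
      have f2 : ((n : ℝ) ^ 2) ^ P⁻¹ ≤ 9 := by
        have : ((n : ℝ) ^ 2) ^ P⁻¹ = ((n : ℝ) ^ P⁻¹) ^ 2 := by
          rw [← Real.rpow_natCast, ← Real.rpow_mul (by positivity), ← Real.rpow_natCast,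
            ← Real.rpow_mul (by positivity), mul_comm]
        rw [this]
        have h0 : 0 ≤ (n : ℝ) ^ P⁻¹ := by positivity
        nlinarith
      calc (48 : ℝ) ^ P⁻¹ * ((n : ℝ) ^ 2) ^ P⁻¹ ≤ 48 * 9 :=
            mul_le_mul f1 f2 (by positivity) (by norm_num)
        _ = 432 := by norm_num
    have e5 : ((k : ℝ) * b) ^ P⁻¹ * (k * b) ^ (1 - P⁻¹) = k * b := by
      rw [← Real.rpow_add_of_nonneg kb0 hα.le hβ.le]
      have : P⁻¹ + (1 - P⁻¹) = 1 := by ring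
      rw [this, Real.rpow_one]
    have hkb' : 0 ≤ ((k : ℝ) * b) ^ (1 - P⁻¹) := Real.rpow_nonneg kb0 _
    calc (24 * ((n : ℝ) * m) * b) ^ P⁻¹ * (k * b) ^ (1 - P⁻¹)
        ≤ ((48 * (n : ℝ) ^ 2) ^ P⁻¹ * (k * b) ^ P⁻¹) * (k * b) ^ (1 - P⁻¹) := by
          rw [← e3]; exact mul_le_mul_of_nonneg_right e2 hkb'
      _ = (48 * (n : ℝ) ^ 2) ^ P⁻¹ * (((k : ℝ) * b) ^ P⁻¹ * (k * b) ^ (1 - P⁻¹)) := by ring
      _ = (48 * (n : ℝ) ^ 2) ^ P⁻¹ * (k * b) := by rw [e5]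
      _ ≤ 432 * (k * b) := mul_le_mul_of_nonneg_right e4 kb0
  have hbr : 3 * (n : ℝ) ^ (1 / q) + l * (ck r ^ P⁻¹ * (n : ℝ) ^ (P⁻¹ / q)) ≤
      3 * (n : ℝ) ^ (1 / q) + l * (4.25 * Λ * 3) := by
    gcongr
  have h4' : 4 * ((k : ℝ) * l) ≤ m := by exact_mod_cast h4
  have hm0 : (0 : ℝ) ≤ m := by positivity
  calc ((24 * ((n : ℝ) * m) * b) ^ P⁻¹ * (k * b) ^ (1 - P⁻¹)) *
        (3 * (n : ℝ) ^ (1 / q) + l * (ck r ^ P⁻¹ * (n : ℝ) ^ (P⁻¹ / q)))
      ≤ (432 * (k * b)) * (3 * (n : ℝ) ^ (1 / q) + l * (4.25 * Λ * 3)) :=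
        mul_le_mul hfac hbr (by positivity) (by positivity)
    _ = 432 * b * (3 * (k * (n : ℝ) ^ (1 / q)) + (k * l) * (4.25 * Λ * 3)) := by ring
    _ ≤ 432 * b * (3 * m + (m / 4) * (4.25 * Λ * 3)) := by
        gcongr
        linarith
    _ ≤ 3000 * Λ * (m * b) := by
        have hmb : 0 ≤ (m : ℝ) * b := by positivity
        have : 432 * (3 + 3.1875 * Λ) ≤ 3000 * Λ := by nlinarith
        calc 432 * b * (3 * (m : ℝ) + (m / 4) * (4.25 * Λ * 3))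
            = (432 * (3 + 3.1875 * Λ)) * (m * b) := by ring
          _ ≤ 3000 * Λ * (m * b) := mul_le_mul_of_nonneg_right this hmb

end num

end TH364.SG
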