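import Mathlib
import Pool.Agent.TH364.SG.W8
set_option autoImplicit false
set_option linter.unusedSectionVars false

/-! The metric cotype inequality on the discrete torus. -/

namespace TH364.SG

open scoped ENNReal InnerProductSpace
open Finset
open Pool.Agent.Results.MP_fd02da_an.SchattenIsometries

universe u v

/-- the value of a pattern and a sign -/
def vv (c : Fin 3 × Bool) : ℤ := if c.1 = 0 then 0 else sgz c.2

theorem vv_mem (c : Fin 3 × Bool) : vv c ∈ ({-1, 0, 1} : Finset ℤ) := by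
  obtain ⟨c, s⟩ := c
  unfold vv
  split_ifs
  · simp
  · cases s <;> simp [sgz]

theorem vv_card {t : ℤ} (ht : t ∈ ({-1, 0, 1} : Finset ℤ)) :
    (Finset.univ.filter (fun c : Fin 3 × Bool => vv c = t)).card = 2 := by
  simp only [Finset.mem_insert, Finset.mem_singleton] at ht
  rcases ht with h | h | h <;> subst h <;> decide

theorem tri_sum (n : ℕ) (φ : (Fin n → ℤ) → ℝ) :
    ∑ a : Fin n → Fin 3, ∑ ε : Fin n → Bool, φ (fun j => vv (a j, ε j)) =
      2 ^ n * ∑ τ ∈ Fintype.piFinset (fun _ : Fin n => ({-1, 0, 1} : Finset ℤ)), φ τ := by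
  classical
  have h1 : ∑ a : Fin n → Fin 3, ∑ ε : Fin n → Bool, φ (fun j => vv (a j, ε j)) =
      ∑ p : Fin n → Fin 3 × Bool, φ (fun j => vv (p j)) := by
    rw [← Fintype.sum_prod_type' (fun (a : Fin n → Fin 3) (ε : Fin n → Bool) =>
      φ (fun j => vv (a j, ε j)))]
    symm
    refine Fintype.sum_equiv ⟨fun p => (fun j => (p j).1, fun j => (p j).2),
      fun x j => (x.1 j, x.2 j), fun p => rfl, fun x => rfl⟩ _ _ fun p => rfl
  rw [h1, ← Finset.sum_fiberwise_of_maps_to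
    (g := fun p : Fin n → Fin 3 × Bool => (fun j => vv (p j)))
    (t := Fintype.piFinset (fun _ : Fin n => ({-1, 0, 1} : Finset ℤ)))
    (fun p _ => Fintype.mem_piFinset.2 fun j => vv_mem _), Finset.mul_sum]
  refine Finset.sum_congr rfl fun τ hτ => ?_
  have hτ' := Fintype.mem_piFinset.1 hτ
  have h2 : (Finset.univ.filter (fun p : Fin n → Fin 3 × Bool => (fun j => vv (p j)) = τ)) =
      Fintype.piFinset (fun j => Finset.univ.filter (fun c : Fin 3 × Bool => vv c = τ j)) := by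
    ext p
    simp only [Finset.mem_filter, Finset.mem_univ, true_and, Fintype.mem_piFinset]
    exact funext_iff
  have h3 : ∀ p ∈ Finset.univ.filter (fun p : Fin n → Fin 3 × Bool => (fun j => vv (p j)) = τ),
      φ (fun j => vv (p j)) = φ τ := by
    intro p hp
    rw [(Finset.mem_filter.1 hp).2]
  rw [Finset.sum_congr rfl h3, Finset.sum_const, h2, Fintype.card_piFinset]
  have h4 : ∀ j ∈ (Finset.univ : Finset (Fin n)),
      (Finset.univ.filter (fun c : Fin 3 × Bool => vv c = τ j)).card = 2 :=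
    fun j _ => vv_card (hτ' j)
  rw [Finset.prod_congr rfl h4, Finset.prod_const, Finset.card_univ, Fintype.card_fin,
    nsmul_eq_mul]
  push_cast; rfl

variable {H : Type u} [NormedAddCommGroup H] [InnerProductSpace ℂ H] [CompleteSpace H]

/-- the coordinate vectors -/
def cu (n m : ℕ) (j : Fin n) : Fin n → ZMod m := Pi.single j 1

theorem dv_cu (n m : ℕ) (a : Fin n → Fin 3) (ε : Fin n → Bool) :
    dv (cu n m) a ε = fun j => ((vv (a j, ε j) : ℤ) : ZMod m) := by
  unfold dv cu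
  funext j
  rw [Finset.sum_apply, Finset.sum_eq_single j]
  · rw [Pi.smul_apply, Pi.single_eq_same, zsmul_one]
    rfl
  · intro i _ hi
    rw [Pi.smul_apply, Pi.single_eq_of_ne (Ne.symm hi), smul_zero]
  · intro h; exact absurd (Finset.mem_univ j) h

theorem cu_span (n m : ℕ) [NeZero m] (z : Fin n → ZMod m) :
    z = ∑ j, (z j).val • cu n m j := by
  funext i
  rw [Finset.sum_apply, Finset.sum_eq_single i]
  · unfold cu
    rw [Pi.smul_apply, Pi.single_eq_same, nsmul_one, ZMod.natCast_zmod_val]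
  · intro j _ hj
    unfold cu
    rw [Pi.smul_apply, Pi.single_eq_of_ne (Ne.symm hj), smul_zero]
  · intro h; exact absurd (Finset.mem_univ i) h

theorem torus_main (n m : ℕ) [NeZero m] (hn : 1 ≤ n) (F : (Fin n → ZMod m) → SchattenClass 1 H)
    {q b : ℝ} (hq : 2 ≤ q) (b0 : 0 ≤ b) (hmn : (n : ℝ) ^ (1 / q) ≤ m)
    (hb : ∑ a : Fin n → Fin 3, ∑ ε : Fin n → Bool, ∑ x, ‖F (x + dv (cu n m) a ε) - F x‖ ^ q ≤
      2 ^ n * (3 ^ n * ((Fintype.card (Fin n → ZMod m) : ℝ) * b ^ q))) :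
    (∑ j, ∑ x, ‖F (x + (m / 2) • cu n m j) - F x‖ ^ q) ^ (1 / q) ≤
      2000000 * Real.sqrt (Real.log (n + 1 : ℕ)) *
        (m * ((Fintype.card (Fin n → ZMod m) : ℝ) ^ (1 / q) * b)) := by
  have hq0 : 0 < q := by linarith
  have hq1 : 1 ≤ q := by linarith
  have hne : Nonempty (Fin n) := ⟨⟨0, hn⟩⟩
  have hn' : (1 : ℝ) ≤ n := by exact_mod_cast hn
  have hcn : Fintype.card (Fin n) = n := Fintype.card_fin n
  have hN : (0 : ℝ) < Fintype.card (Fin n → ZMod m) := by exact_mod_cast Fintype.card_pos_iff.2 ⟨0⟩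
  have hb' : ∑ a : Fin n → Fin 3, ∑ ε : Fin n → Bool, ∑ x, ‖F (x + dv (cu n m) a ε) - F x‖ ^ q ≤
      2 ^ (Fintype.card (Fin n)) * (3 ^ (Fintype.card (Fin n)) *
        ((Fintype.card (Fin n → ZMod m) : ℝ) * b ^ q)) := by rw [hcn]; exact hb
  have stp := step_bound (cu n m) F hq1 b0 hb'
  obtain ⟨N, hNd⟩ : ∃ N : ℝ, N = (Fintype.card (Fin n → ZMod m) : ℝ) := ⟨_, rfl⟩
  obtain ⟨B, hB⟩ : ∃ B : ℝ, B = N ^ (1 / q) * b := ⟨_, rfl⟩
  have hN' : 0 < N := by rw [hNd]; exact hN
  have hB0 : 0 ≤ B := by rw [hB]; positivity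
  rw [← hNd, ← hB] at stp
  -- all translations
  have all : ∀ z, hm F q z ≤ 24 * (n * m) * B := by
    intro z
    have h1 : hm F q z ≤ ∑ j, hm F q ((z j).val • cu n m j) := by
      conv_lhs => rw [cu_span n m z]
      exact hm_sum F hq1 _ _
    refine h1.trans ?_
    have h2 : ∀ j ∈ (Finset.univ : Finset (Fin n)), hm F q ((z j).val • cu n m j) ≤
        m * (24 * B) := by
      intro j _
      refine (hm_nsmul F hq1 _ _).trans ?_
      have h3 : ((z j).val : ℝ) ≤ m := by exact_mod_cast (ZMod.val_lt (z j)).le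
      exact mul_le_mul h3 (stp j) (hm_nonneg F q _) (by positivity)
    refine (Finset.sum_le_card_nsmul _ _ _ h2).trans_eq ?_
    rw [Finset.card_univ, hcn, nsmul_eq_mul]; ring
  have hNr : (N ^ (1 / q)) ^ q = N := by
    rw [← Real.rpow_mul hN'.le, one_div_mul_cancel hq0.ne', Real.rpow_one]
  have hM : ∀ z, ∑ x, ‖F (x + z) - F x‖ ^ q ≤
      (Fintype.card (Fin n → ZMod m) : ℝ) * (24 * (n * m) * b) ^ q := by
    intro z
    rw [← hm_pow F hq0, ← hNd]
    refine (Real.rpow_le_rpow (hm_nonneg F q z) (all z) hq0.le).trans (le_of_eq ?_)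
    have e1 : 24 * ((n : ℝ) * m) * B = N ^ (1 / q) * (24 * (n * m) * b) := by rw [hB]; ring
    rw [e1, Real.mul_rpow (by positivity) (by positivity), hNr]
  obtain ⟨k, l, s, hk1, hkl, hs, h4, h2, h1⟩ := scales hq1 hn hmn
  obtain ⟨r, hr1, hr2⟩ := exists_r (n := n + 1) (by omega)
  have main := avg_main r k l (cu n m) F hq b0 (M := 24 * (n * m) * b) (by positivity) hM hb'
  rw [hcn, ← hNd] at main
  have num := num_bound hq1 hn b0 hk1 h4 h2 h1 hr1 hr2
  obtain ⟨Λ, hΛ⟩ : ∃ Λ, Λ = Real.sqrt (Real.log (n + 1 : ℕ)) := ⟨_, rfl⟩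
  have hlog : 0.69 ≤ Real.log (n + 1 : ℕ) := by
    have h1 := Real.log_two_gt_d9
    have h2 : Real.log 2 ≤ Real.log (n + 1 : ℕ) := by
      refine Real.log_le_log (by norm_num) ?_
      push_cast; linarith
    linarith
  have hΛ2 : Λ ^ 2 = Real.log (n + 1 : ℕ) := by rw [hΛ]; exact Real.sq_sqrt (by linarith)
  have hΛ0 : 0 ≤ Λ := by rw [hΛ]; exact Real.sqrt_nonneg _
  have hΛ8 : 0.8 ≤ Λ := by nlinarith
  rw [← hΛ] at num ⊢
  rw [← hNd, ← hB]
  have first : (∑ j, ∑ x, ‖F (x + (2 * l) • (k • cu n m j)) - F x‖ ^ q) ^ (1 / q) ≤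
      512 * (3000 * Λ * (m * B)) := by
    refine main.trans ?_
    have h5 := mul_le_mul_of_nonneg_left num (show 0 ≤ 512 * N ^ (1 / q) by positivity)
    refine le_trans (le_of_eq ?_) (h5.trans (le_of_eq ?_))
    · ring
    · rw [hB]; ring
  -- combine with the remainder
  have mk := Real.Lp_add_le_of_nonneg (Finset.univ : Finset (Fin n)) hq1
    (f := fun j => hm F q ((2 * l) • (k • cu n m j))) (g := fun j => hm F q (s • cu n m j))
    (fun _ _ => hm_nonneg _ _ _) (fun _ _ => hm_nonneg _ _ _)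
  have hsplit : ∀ j, hm F q ((m / 2) • cu n m j) ≤
      hm F q ((2 * l) • (k • cu n m j)) + hm F q (s • cu n m j) := by
    intro j
    have e1 : (m / 2) • cu n m j = (2 * l) • (k • cu n m j) + s • cu n m j := by
      rw [← hkl, add_smul, mul_smul]
    rw [e1]
    exact hm_add F hq1 _ _
  have e2 : ∀ z : Fin n → (Fin n → ZMod m), ∑ j, hm F q (z j) ^ q =
      ∑ j, ∑ x, ‖F (x + z j) - F x‖ ^ q := fun z => Finset.sum_congr rfl fun j _ => hm_pow F hq0 _
  have second : (∑ j, hm F q (s • cu n m j) ^ q) ^ (1 / q) ≤ 48 * (m * B) := by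
    have h6 : ∑ j, hm F q (s • cu n m j) ^ q ≤ n * (s * (24 * B)) ^ q := by
      have h7 : ∀ j ∈ (Finset.univ : Finset (Fin n)), hm F q (s • cu n m j) ^ q ≤
          (s * (24 * B)) ^ q := by
        intro j _
        refine Real.rpow_le_rpow (hm_nonneg F q _) ?_ hq0.le
        exact (hm_nsmul F hq1 _ _).trans (mul_le_mul_of_nonneg_left (stp j) (by positivity))
      refine (Finset.sum_le_card_nsmul _ _ _ h7).trans_eq ?_
      rw [Finset.card_univ, hcn, nsmul_eq_mul]
    have h8 : 0 ≤ ∑ j, hm F q (s • cu n m j) ^ q :=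
      Finset.sum_nonneg fun j _ => Real.rpow_nonneg (hm_nonneg F q _) _
    refine (Real.rpow_le_rpow h8 h6 (by positivity)).trans ?_
    rw [Real.mul_rpow (by positivity) (by positivity), ← Real.rpow_mul (by positivity),
      mul_one_div_cancel hq0.ne', Real.rpow_one]
    have hs' : (s : ℝ) ≤ 2 * k := by exact_mod_cast hs
    calc (n : ℝ) ^ (1 / q) * (s * (24 * B)) ≤ (n : ℝ) ^ (1 / q) * ((2 * k) * (24 * B)) := by gcongr
      _ = 48 * ((k * (n : ℝ) ^ (1 / q)) * B) := by ring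
      _ ≤ 48 * (m * B) := by gcongr
  have h9 : 0 ≤ ∑ j, hm F q ((m / 2) • cu n m j) ^ q :=
    Finset.sum_nonneg fun j _ => Real.rpow_nonneg (hm_nonneg F q _) _
  have third : (∑ j, hm F q ((m / 2) • cu n m j) ^ q) ^ (1 / q) ≤
      512 * (3000 * Λ * (m * B)) + 48 * (m * B) := by
    refine (Real.rpow_le_rpow h9 (Finset.sum_le_sum fun j _ =>
      Real.rpow_le_rpow (hm_nonneg F q _) (hsplit j) hq0.le) (by positivity)).trans ?_
    refine mk.trans (add_le_add ?_ second)
    rw [e2 (fun j => (2 * l) • (k • cu n m j))]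
    exact first
  rw [← e2 (fun j => (m / 2) • cu n m j)]
  refine third.trans ?_
  have hmB : 0 ≤ (m : ℝ) * B := by positivity
  have h10 : 512 * 3000 * Λ + 48 ≤ 2000000 * Λ := by nlinarith
  calc 512 * (3000 * Λ * (m * B)) + 48 * (m * B) = (512 * 3000 * Λ + 48) * (m * B) := by ring
    _ ≤ 2000000 * Λ * (m * B) := mul_le_mul_of_nonneg_right h10 hmB

end TH364.SG
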