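import Mathlib
import Pool.Agent.TH364.SG.W9
set_option autoImplicit false
set_option linter.unusedSectionVars false

/-! Scalar tools for lattices: pieces of a real number at scales of ratio `ρ`. -/

namespace TH364.SG

open Finset

universe u v
variable {J : Type v} [Fintype J] [DecidableEq J]

/-- clamping -/
noncomputable def cl (s a : ℝ) : ℝ := max (-s) (min s a)

theorem cl_mono {s a a' : ℝ} (h : a ≤ a') : 0 ≤ cl s a' - cl s a ∧ cl s a' - cl s a ≤ a' - a := by
  unfold cl
  constructor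
  · have : max (-s) (min s a) ≤ max (-s) (min s a') := max_le_max le_rfl (min_le_min le_rfl h)
    linarith
  · rcases le_total s a with h1 | h1 <;> rcases le_total s a' with h2 | h2 <;>
      rcases le_total (-s) a with h3 | h3 <;> rcases le_total (-s) a' with h4 | h4 <;>
      rcases le_total (-s) s with h5 | h5 <;>
      simp only [min_eq_left, min_eq_right, h1, h2, max_eq_left, max_eq_right, h3, h4, h5] <;>
      linarith

theorem cl_bound {s : ℝ} (hs : 0 ≤ s) (a : ℝ) : -s ≤ cl s a ∧ cl s a ≤ s := by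
  unfold cl
  exact ⟨le_max_left _ _, max_le (by linarith) (min_le_left _ _)⟩

theorem cl_eq {s a : ℝ} (h : |a| ≤ s) : cl s a = a := by
  have h1 := abs_le.1 h
  unfold cl
  rw [min_eq_right h1.2, max_eq_right h1.1]

/-- the piece of `a` between two scales -/
noncomputable def pc (s s' a : ℝ) : ℝ := cl s' a - cl s a

theorem pc_lip {s s' : ℝ} (a a' : ℝ) : |pc s s' a - pc s s' a'| ≤ |a - a'| := by
  unfold pc
  rcases le_total a a' with h | h
  · have h1 := cl_mono (s := s) h
    have h2 := cl_mono (s := s') h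
    rw [abs_sub_comm a a', abs_of_nonneg (by linarith : 0 ≤ a' - a)]
    rw [abs_le]; constructor <;> linarith
  · have h1 := cl_mono (s := s) h
    have h2 := cl_mono (s := s') h
    rw [abs_of_nonneg (by linarith : 0 ≤ a - a')]
    rw [abs_le]; constructor <;> linarith

theorem pc_bd {s s' : ℝ} (hs : 0 ≤ s) (hss : s ≤ s') (a : ℝ) : |pc s s' a| ≤ s' := by
  unfold pc
  have h1 := cl_bound hs a
  have h2 := cl_bound (hs.trans hss) a
  rcases le_total |a| s with h | h
  · rw [cl_eq h, cl_eq (h.trans hss), sub_self, abs_zero]; linarith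
  · -- here cl s a = ± s and cl s' a has the same sign
    rcases le_total 0 a with h0 | h0
    · rw [abs_of_nonneg h0] at h
      have e1 : cl s a = s := by
        unfold cl; rw [min_eq_left h, max_eq_right (by linarith)]
      have e2 : 0 ≤ cl s' a := by
        unfold cl
        exact le_max_of_le_right (le_min (hs.trans hss) h0)
      rw [e1, abs_le]; constructor <;> linarith
    · rw [abs_of_nonpos h0] at h
      have e1 : cl s a = -s := by
        unfold cl; rw [min_eq_right (by linarith), max_eq_left (by linarith)]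
      have e2 : cl s' a ≤ 0 := by
        unfold cl
        exact max_le (by linarith) ((min_le_right _ _).trans h0)
      rw [e1, abs_le]; constructor <;> linarith

theorem pc_diff {s s' : ℝ} (hs : 0 ≤ s) (hs' : 0 < s') (hss : s ≤ s') (a a' : ℝ) :
    |pc s s' a - pc s s' a'| ≤ 2 * (s' * min 1 (|a - a'| / s')) := by
  have h1 := pc_lip (s := s) (s' := s') a a'
  have h2 := pc_bd hs hss a
  have h3 := pc_bd hs hss a'
  have h4 : |pc s s' a - pc s s' a'| ≤ |pc s s' a| + |pc s s' a'| := abs_sub _ _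
  rcases le_total 1 (|a - a'| / s') with h | h
  · rw [min_eq_left h]; linarith
  · rw [min_eq_right h]
    have : s' * (|a - a'| / s') = |a - a'| := by field_simp
    rw [this]
    have := abs_nonneg (a - a')
    linarith

/-- indicator that one of two numbers exceeds the scale -/
noncomputable def hi (s A : ℝ) : ℝ := if A ≤ s then 0 else 1

theorem hi_nonneg (s A : ℝ) : 0 ≤ hi s A := by unfold hi; split_ifs <;> norm_num

theorem pc_hi {s s' a a' A : ℝ} (hss : s ≤ s') (ha : |a| ≤ A) (ha' : |a'| ≤ A) :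
    pc s s' a - pc s s' a' = hi s A * (pc s s' a - pc s s' a') := by
  unfold hi
  split_ifs with h
  · unfold pc
    rw [cl_eq (ha.trans h), cl_eq (ha'.trans h), cl_eq ((ha.trans h).trans hss),
      cl_eq ((ha'.trans h).trans hss)]
    ring
  · ring

theorem pc_sum (s : ℕ → ℝ) (M : ℕ) (a : ℝ) :
    ∑ i ∈ Finset.range M, pc (s i) (s (i + 1)) a = cl (s M) a - cl (s 0) a := by
  unfold pc
  exact Finset.sum_range_sub (fun i => cl (s i) a) M

theorem hi_sum {ρ : ℝ} (hρ : 2 ≤ ρ) {s0 : ℝ} (hs : 0 < s0) {A : ℝ} (hA : 0 ≤ A) (M : ℕ) :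
    ∑ i ∈ Finset.range M, wsc ρ s0 i * hi (wsc ρ s0 i) A ≤ 4 * A := by
  have h := win_sum hρ one_pos (by rw [Real.rpow_one]; exact hρ) hs hA M
  refine le_trans (Finset.sum_le_sum fun i _ => ?_) h
  have hp := wsc_pos (by linarith : 0 < ρ) hs i
  refine mul_le_mul_of_nonneg_left ?_ hp.le
  unfold hi
  split_ifs with h1
  · exact Real.rpow_nonneg (le_min zero_le_one (by positivity)) _
  · push Not at h1
    have : min 1 (A / wsc ρ s0 i) = 1 := min_eq_left ((one_le_div hp).2 h1.le)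
    rw [this, Real.one_rpow]

/-- the middle term at one point, scalar version -/
theorem mid_sc (r M : ℕ) (w : ℕ → ℝ) (hw : ∀ i, 0 < w i) (H : ℕ → J → ℝ)
    (E : ℕ → (J → Bool) → ℝ) (hE : ∀ i ε, 0 ≤ E i ε) (c : J → ℝ) (k : (J → Bool) → ℝ)
    (hc : ∀ j, ∑ i ∈ Finset.range M, w i * H i j ^ (2 ^ (r + 1)) ≤ c j ^ (2 ^ (r + 1)))
    (hk : ∀ ε, ∑ i ∈ Finset.range M, w i * E i ε ≤ k ε) :
    ∑ ε : J → Bool, ∑ i ∈ Finset.range M, w i * (|∑ j, sg (ε j) * H i j| *
      E i ε ^ (1 - (((2 ^ (r + 1) : ℕ) : ℝ))⁻¹)) ≤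
    (2 ^ (Fintype.card J) * ck r) ^ ((((2 ^ (r + 1) : ℕ) : ℝ))⁻¹) * Real.sqrt (∑ j, c j ^ 2) *
      (∑ ε, k ε) ^ (1 - (((2 ^ (r + 1) : ℕ) : ℝ))⁻¹) := by
  have hP : 2 ≤ 2 ^ (r + 1) := two_le_P r
  have hck : 0 ≤ ck r := by unfold ck; positivity
  rw [← Finset.sum_product' (Finset.univ : Finset (J → Bool)) (Finset.range M)
    (fun ε i => w i * (|∑ j, sg (ε j) * H i j| * E i ε ^ (1 - (((2 ^ (r + 1) : ℕ) : ℝ))⁻¹)))]
  refine (whol _ (fun p : (J → Bool) × ℕ => w p.2) (fun p => |∑ j, sg (p.1 j) * H p.2 j|)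
    (fun p => E p.2 p.1) (fun p => (hw _).le) (fun p => abs_nonneg _) (fun p => hE _ _) hP).trans ?_
  have hev : ∀ x : ℝ, |x| ^ (2 ^ (r + 1)) = x ^ (2 ^ (r + 1)) := fun x => by
    rw [show 2 ^ (r + 1) = 2 * 2 ^ r by ring, pow_mul, pow_mul, sq_abs]
  simp only [hev]
  have ev0 : ∀ x : ℝ, 0 ≤ x ^ (2 ^ (r + 1)) := fun x => by
    rw [show 2 ^ (r + 1) = 2 * 2 ^ r by ring, pow_mul]; positivity
  have hA : ∑ p ∈ (Finset.univ : Finset (J → Bool)) ×ˢ Finset.range M,
      w p.2 * (∑ j, sg (p.1 j) * H p.2 j) ^ (2 ^ (r + 1)) ≤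
      (2 ^ (Fintype.card J) * ck r) * (∑ j, c j ^ 2) ^ (2 ^ r) := by
    rw [Finset.sum_product, Finset.sum_comm]
    have a1 : ∀ i ∈ Finset.range M, ∑ ε : J → Bool, w i * (∑ j, sg (ε j) * H i j) ^ (2 ^ (r + 1)) ≤
        (2 ^ (Fintype.card J) * ck r) * (w i * (∑ j, H i j ^ 2) ^ (2 ^ r)) := by
      intro i _
      rw [← Finset.mul_sum]
      have h := scalar_moment (fun j => H i j) (K := 2 ^ r) (by positivity)
      rw [show 2 ^ (r + 1) = 2 * 2 ^ r by ring]
      refine (mul_le_mul_of_nonneg_left h (hw i).le).trans_eq ?_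
      unfold ck
      push_cast
      ring
    refine (Finset.sum_le_sum a1).trans ?_
    rw [← Finset.mul_sum]
    refine mul_le_mul_of_nonneg_left ?_ (by positivity)
    refine wmink (Finset.range M) w (fun i j => H i j) c hw (by positivity) fun j => ?_
    rw [show 2 * 2 ^ r = 2 ^ (r + 1) by ring]
    exact hc j
  have hB : ∑ p ∈ (Finset.univ : Finset (J → Bool)) ×ˢ Finset.range M, w p.2 * E p.2 p.1 ≤
      ∑ ε, k ε := by
    rw [Finset.sum_product]
    exact Finset.sum_le_sum fun ε _ => hk ε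
  have hPp : (0 : ℝ) < ((2 ^ (r + 1) : ℕ) : ℝ) := by positivity
  have hC0 : 0 ≤ ∑ j, c j ^ 2 := Finset.sum_nonneg fun _ _ => sq_nonneg _
  have hβ := be_pos r
  unfold be at hβ
  have hroot : ((∑ j, c j ^ 2) ^ (2 ^ r)) ^ ((((2 ^ (r + 1) : ℕ) : ℝ))⁻¹) =
      Real.sqrt (∑ j, c j ^ 2) := by
    rw [← Real.rpow_natCast, ← Real.rpow_mul hC0, Real.sqrt_eq_rpow]
    congr 1
    push_cast
    have : ((2 : ℝ) ^ r) ≠ 0 := by positivity
    field_simp
    ring
  refine mul_le_mul ?_ (Real.rpow_le_rpow (Finset.sum_nonneg fun p _ =>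
    mul_nonneg (hw _).le (hE _ _)) hB hβ.le) (Real.rpow_nonneg (Finset.sum_nonneg fun p _ =>
    mul_nonneg (hw _).le (hE _ _)) _) (by positivity)
  refine (Real.rpow_le_rpow (Finset.sum_nonneg fun p _ =>
    mul_nonneg (hw _).le (ev0 _)) hA (by positivity)).trans_eq ?_
  rw [Real.mul_rpow (by positivity) (by positivity), hroot]

section ident
variable {Γ : Type*} [AddCommGroup Γ] [Fintype Γ] {e : J → Γ}

/-- the smoothing and telescoping identity for real functions -/
theorem mc_id (l : ℕ) (H : J → Γ → ℝ) (V : Γ → ℝ) :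
    (2 : ℝ) ^ (Fintype.card J) * ∑ x, ∑ j, H j x * (V (x + (2 * l) • e j) - V x) =
      (∑ x, ∑ j, ∑ ε : J → Bool, H j x * (V (x + (2 * l) • e j) - V (x + (2 * l) • e j + sfj e j ε))) +
      (∑ x, ∑ j, ∑ ε : J → Bool, H j x * (V (x + sfj e j ε) - V x)) +
      2 * ∑ m ∈ Finset.range l, ∑ y, ∑ ε : J → Bool,
        (∑ j, sg (ε j) * H j (y - (2 * m + 1) • e j)) * (V (y + sft e ε) - V y) := by
  have d1 : (2 ^ (Fintype.card J) : ℝ) * ∑ x, ∑ j, H j x * (V (x + (2 * l) • e j) - V x) =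
      (∑ x, ∑ j, ∑ ε : J → Bool,
        H j x * (V (x + (2 * l) • e j) - V (x + (2 * l) • e j + sfj e j ε))) +
      (∑ x, ∑ j, ∑ ε : J → Bool, H j x * (V (x + sfj e j ε) - V x)) +
      ∑ x, ∑ j, ∑ ε : J → Bool,
        H j x * (V (x + (2 * l) • e j + sfj e j ε) - V (x + sfj e j ε)) := by
    rw [← Finset.sum_add_distrib, ← Finset.sum_add_distrib, Finset.mul_sum]
    refine Finset.sum_congr rfl fun x _ => ?_
    rw [← Finset.sum_add_distrib, ← Finset.sum_add_distrib, Finset.mul_sum]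
    refine Finset.sum_congr rfl fun j _ => ?_
    rw [← Finset.sum_add_distrib, ← Finset.sum_add_distrib]
    have : ∀ ε : J → Bool,
        H j x * (V (x + (2 * l) • e j) - V (x + (2 * l) • e j + sfj e j ε)) +
        H j x * (V (x + sfj e j ε) - V x) +
        H j x * (V (x + (2 * l) • e j + sfj e j ε) - V (x + sfj e j ε)) =
        H j x * (V (x + (2 * l) • e j) - V x) := by
      intro ε; ring
    simp only [this]
    rw [Finset.sum_const, Finset.card_univ, Fintype.card_fun, Fintype.card_bool, nsmul_eq_mul]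
    push_cast; rfl
  have d2 : ∑ x, ∑ j, ∑ ε : J → Bool,
        H j x * (V (x + (2 * l) • e j + sfj e j ε) - V (x + sfj e j ε)) =
      2 * ∑ m ∈ Finset.range l, ∑ y, ∑ ε : J → Bool,
        (∑ j, sg (ε j) * H j (y - (2 * m + 1) • e j)) * (V (y + sft e ε) - V y) := by
    have t1 : ∀ x j, ∑ ε : J → Bool,
        H j x * (V (x + (2 * l) • e j + sfj e j ε) - V (x + sfj e j ε)) =
        ∑ m ∈ Finset.range l, ∑ ε : J → Bool, (2 * sg (ε j)) *
          (H j x * (V (x + (2 * m + 1) • e j + sft e ε) - V (x + (2 * m + 1) • e j))) := by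
      intro x j
      rw [← Finset.mul_sum, telescope e j V x l, Finset.mul_sum]
      refine Finset.sum_congr rfl fun m _ => ?_
      rw [Finset.mul_sum]
      refine Finset.sum_congr rfl fun ε _ => ?_
      rw [smul_eq_mul]; ring
    simp only [t1]
    have t2 : ∑ x, ∑ j, ∑ m ∈ Finset.range l, ∑ ε : J → Bool, (2 * sg (ε j)) *
          (H j x * (V (x + (2 * m + 1) • e j + sft e ε) - V (x + (2 * m + 1) • e j))) =
        ∑ m ∈ Finset.range l, ∑ j, ∑ x, ∑ ε : J → Bool, (2 * sg (ε j)) *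
          (H j x * (V (x + (2 * m + 1) • e j + sft e ε) - V (x + (2 * m + 1) • e j))) := by
      rw [Finset.sum_comm]
      rw [Finset.sum_comm (s := Finset.range l)]
      refine Finset.sum_congr rfl fun j _ => ?_
      rw [Finset.sum_comm]
    rw [t2, Finset.mul_sum]
    refine Finset.sum_congr rfl fun m _ => ?_
    have t3 : ∀ j, ∑ x, ∑ ε : J → Bool, (2 * sg (ε j)) *
          (H j x * (V (x + (2 * m + 1) • e j + sft e ε) - V (x + (2 * m + 1) • e j))) =
        ∑ y, ∑ ε : J → Bool, (2 * sg (ε j)) *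
          (H j (y - (2 * m + 1) • e j) * (V (y + sft e ε) - V y)) := by
      intro j
      rw [← Equiv.sum_comp (Equiv.subRight ((2 * m + 1) • e j))]
      refine Finset.sum_congr rfl fun y _ => ?_
      refine Finset.sum_congr rfl fun ε _ => ?_
      simp only [Equiv.subRight_apply, sub_add_cancel]
    simp only [t3]
    rw [Finset.sum_comm, Finset.mul_sum]
    refine Finset.sum_congr rfl fun y _ => ?_
    rw [Finset.sum_comm, Finset.mul_sum]
    refine Finset.sum_congr rfl fun ε _ => ?_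
    rw [Finset.sum_mul, Finset.mul_sum]
    refine Finset.sum_congr rfl fun j _ => ?_
    ring
  rw [d1, d2]

end ident

end TH364.SG
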