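import Mathlib
import Pool.Agent.TH364.SG.Z1
set_option autoImplicit false
set_option linter.unusedSectionVars false

/-! Lattice tools. -/

namespace TH364.SG

open Finset Filter Topology

universe u v
variable {J : Type v} [Fintype J] [DecidableEq J]
variable {Y : Type u} [NormedAddCommGroup Y] [NormedSpace ℝ Y]
variable {ι : Type} [Fintype ι] [DecidableEq ι]

/-- the Calderon product inequality for a lattice norm -/
theorem lat_cal (T : (ι → ℝ) →ₗ[ℝ] Y) (hmono : ∀ a b : ι → ℝ, (∀ i, |a i| ≤ |b i|) → ‖T a‖ ≤ ‖T b‖)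
    (A D : ι → ℝ) (hA : ∀ i, 0 ≤ A i) (hD : ∀ i, 0 ≤ D i) {α β : ℝ} (hα : 0 < α) (hβ : 0 < β)
    (h : α + β = 1) : ‖T (fun i => A i ^ α * D i ^ β)‖ ≤ ‖T A‖ ^ α * ‖T D‖ ^ β := by
  have key : ∀ t : ℝ, 0 < t → ‖T (fun i => A i ^ α * D i ^ β)‖ ≤
      α * (t ^ β * ‖T A‖) + β * (t ^ (-α) * ‖T D‖) := by
    intro t ht
    have h1 : ∀ i, |A i ^ α * D i ^ β| ≤
        |((α * t ^ β) • A + (β * t ^ (-α)) • D) i| := by
      intro i
      have hAi : 0 ≤ A i ^ α := Real.rpow_nonneg (hA i) _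
      have hDi : 0 ≤ D i ^ β := Real.rpow_nonneg (hD i) _
      have ht1 : 0 < t ^ β := Real.rpow_pos_of_pos ht _
      have ht2 : 0 < t ^ (-α) := Real.rpow_pos_of_pos ht _
      have hr : 0 ≤ ((α * t ^ β) • A + (β * t ^ (-α)) • D) i := by
        simp only [Pi.add_apply, Pi.smul_apply, smul_eq_mul]
        have := hA i; have := hD i
        positivity
      rw [abs_of_nonneg (mul_nonneg hAi hDi), abs_of_nonneg hr]
      have hg := Real.geom_mean_le_arith_mean2_weighted hα.le hβ.le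
        (mul_nonneg ht1.le (hA i)) (mul_nonneg ht2.le (hD i)) h
      rw [Real.mul_rpow ht1.le (hA i), Real.mul_rpow ht2.le (hD i), ← Real.rpow_mul ht.le,
        ← Real.rpow_mul ht.le] at hg
      have e1 : t ^ (β * α) * t ^ (-α * β) = 1 := by
        rw [← Real.rpow_add ht]
        have : β * α + -α * β = 0 := by ring
        rw [this, Real.rpow_zero]
      simp only [Pi.add_apply, Pi.smul_apply, smul_eq_mul]
      calc A i ^ α * D i ^ β = (t ^ (β * α) * t ^ (-α * β)) * (A i ^ α * D i ^ β) := by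
            rw [e1, one_mul]
        _ = t ^ (β * α) * A i ^ α * (t ^ (-α * β) * D i ^ β) := by ring
        _ ≤ _ := hg
        _ = _ := by ring
    refine (hmono _ _ h1).trans ?_
    rw [map_add, map_smul, map_smul]
    refine (norm_add_le _ _).trans (le_of_eq ?_)
    have ht1 : 0 < t ^ β := Real.rpow_pos_of_pos ht _
    have ht2 : 0 < t ^ (-α) := Real.rpow_pos_of_pos ht _
    rw [norm_smul, norm_smul, Real.norm_of_nonneg (by positivity), Real.norm_of_nonneg (by positivity)]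
    ring
  have hδ : ∀ δ : ℝ, 0 < δ → ‖T (fun i => A i ^ α * D i ^ β)‖ ≤
      (‖T A‖ + δ) ^ α * (‖T D‖ + δ) ^ β := by
    intro δ hδ
    obtain ⟨a, ha⟩ : ∃ a, a = ‖T A‖ + δ := ⟨_, rfl⟩
    obtain ⟨d, hd⟩ : ∃ d, d = ‖T D‖ + δ := ⟨_, rfl⟩
    have ha0 : 0 < a := by rw [ha]; have := norm_nonneg (T A); linarith
    have hd0 : 0 < d := by rw [hd]; have := norm_nonneg (T D); linarith
    have h1 := key (d / a) (by positivity)
    have haT : ‖T A‖ ≤ a := by rw [ha]; linarith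
    have hdT : ‖T D‖ ≤ d := by rw [hd]; linarith
    rw [← ha, ← hd]
    have e1 : (d / a) ^ β * a = a ^ α * d ^ β := by
      rw [Real.div_rpow hd0.le ha0.le]
      have : a = a ^ α * a ^ β := by rw [← Real.rpow_add ha0, h, Real.rpow_one]
      have hb : a ^ β ≠ 0 := (Real.rpow_pos_of_pos ha0 _).ne'
      calc d ^ β / a ^ β * a = d ^ β / a ^ β * (a ^ α * a ^ β) := by rw [← this]
        _ = _ := by field_simp
    have e2 : (d / a) ^ (-α) * d = a ^ α * d ^ β := by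
      rw [Real.rpow_neg (by positivity), Real.div_rpow hd0.le ha0.le]
      have : d = d ^ α * d ^ β := by rw [← Real.rpow_add hd0, h, Real.rpow_one]
      have hb : d ^ α ≠ 0 := (Real.rpow_pos_of_pos hd0 _).ne'
      have hb2 : a ^ α ≠ 0 := (Real.rpow_pos_of_pos ha0 _).ne'
      calc (d ^ α / a ^ α)⁻¹ * d = (d ^ α / a ^ α)⁻¹ * (d ^ α * d ^ β) := by rw [← this]
        _ = _ := by field_simp
    have hp1 : 0 ≤ (d / a) ^ β := by positivity
    have hp2 : 0 ≤ (d / a) ^ (-α) := by positivity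
    calc _ ≤ α * ((d / a) ^ β * ‖T A‖) + β * ((d / a) ^ (-α) * ‖T D‖) := h1
      _ ≤ α * ((d / a) ^ β * a) + β * ((d / a) ^ (-α) * d) := by gcongr
      _ = (α + β) * (a ^ α * d ^ β) := by rw [e1, e2]; ring
      _ = _ := by rw [h, one_mul]
  have hcont : Continuous (fun δ : ℝ => (‖T A‖ + δ) ^ α * (‖T D‖ + δ) ^ β) :=
    ((Real.continuous_rpow_const hα.le).comp (continuous_const.add continuous_id)).mul
      ((Real.continuous_rpow_const hβ.le).comp (continuous_const.add continuous_id))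
  have hlim : Tendsto (fun δ : ℝ => (‖T A‖ + δ) ^ α * (‖T D‖ + δ) ^ β) (𝓝[>] 0)
      (𝓝 (‖T A‖ ^ α * ‖T D‖ ^ β)) := by
    have := hcont.tendsto 0
    simp only [add_zero] at this
    exact this.mono_left nhdsWithin_le_nhds
  exact ge_of_tendsto hlim (eventually_nhdsWithin_of_forall fun δ h => hδ δ h)

theorem holder2 {α : Type*} (s : Finset α) (f g : α → ℝ) (hf : ∀ a, 0 ≤ f a) (hg : ∀ a, 0 ≤ g a)
    {q : ℝ} (hq : 1 < q) :
    ∑ a ∈ s, f a ^ (q - 1) * g a ≤ (∑ a ∈ s, f a ^ q) ^ ((q - 1) / q) *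
      (∑ a ∈ s, g a ^ q) ^ (1 / q) := by
  have h := holder3 s f g g hf hg hg hq (β := 1 / 2) (γ := 1 / 2) (by norm_num) (by norm_num)
    (by norm_num)
  have e1 : ∀ a, g a ^ (1 / 2 : ℝ) * g a ^ (1 / 2 : ℝ) = g a := by
    intro a
    rw [← Real.rpow_add_of_nonneg (hg a) (by norm_num) (by norm_num)]
    norm_num
  have hS : 0 ≤ ∑ a ∈ s, g a ^ q := Finset.sum_nonneg fun a _ => Real.rpow_nonneg (hg a) _
  have e2 : (∑ a ∈ s, g a ^ q) ^ (1 / 2 / q) * (∑ a ∈ s, g a ^ q) ^ (1 / 2 / q) =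
      (∑ a ∈ s, g a ^ q) ^ (1 / q) := by
    have : 0 < q := by linarith
    rw [← Real.rpow_add_of_nonneg hS (by positivity) (by positivity)]
    congr 1
    ring
  simp only [e1, e2] at h
  exact h

/-- duality with q-concavity -/
theorem lat_dual (T : (ι → ℝ) →ₗ[ℝ] Y) (hmono : ∀ a b : ι → ℝ, (∀ i, |a i| ≤ |b i|) → ‖T a‖ ≤ ‖T b‖)
    {q K : ℝ} (hq : 2 ≤ q) (hK : 0 ≤ K)
    (hconc : ∀ a : J → ι → ℝ, ∑ j, ‖T (a j)‖ ^ q ≤
      K ^ q * ‖T (fun i => (∑ j, |a j i| ^ q) ^ (1 / q))‖ ^ q)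
    (y : J → ι → ℝ) (hy : ∀ j c, ∑ i, y j i * c i ≤ ‖T c‖) (f : J → ℝ) (hf : ∀ j, 0 ≤ f j)
    (b : ι → ℝ) (hb : ∀ i, 0 ≤ b i) :
    ∑ i, Real.sqrt (∑ j, (f j ^ (q - 1) * |y j i|) ^ 2) * b i ≤
      K * ((∑ j, f j ^ q) ^ ((q - 1) / q) * ‖T b‖) := by
  have hq0 : 0 < q := by linarith
  set Z : ι → ℝ := fun i => Real.sqrt (∑ j, (f j ^ (q - 1) * |y j i|) ^ 2) with hZ
  have Z0 : ∀ i, 0 ≤ Z i := fun i => Real.sqrt_nonneg _
  have hs0 : ∀ i, 0 ≤ ∑ j, (f j ^ (q - 1) * |y j i|) ^ 2 := fun i =>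
    Finset.sum_nonneg fun j _ => sq_nonneg _
  have Zsq : ∀ i, Z i ^ 2 = ∑ j, (f j ^ (q - 1) * |y j i|) ^ 2 := fun i => Real.sq_sqrt (hs0 i)
  set c : J → ι → ℝ := fun j i => (f j ^ (q - 1) * |y j i|) / Z i with hc
  have c0 : ∀ j i, 0 ≤ c j i := fun j i =>
    div_nonneg (mul_nonneg (Real.rpow_nonneg (hf j) _) (abs_nonneg _)) (Z0 i)
  have csum : ∀ i, ∑ j, c j i ^ q ≤ 1 := by
    intro i
    rcases (Z0 i).eq_or_lt with h0 | h0
    · have : ∀ j, c j i = 0 := by intro j; rw [hc]; dsimp only; rw [← h0, div_zero]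
      simp [this, Real.zero_rpow hq0.ne']
    · have h1 : ∑ j, c j i ^ 2 = 1 := by
        rw [hc]; dsimp only
        simp only [div_pow]
        rw [← Finset.sum_div, ← Zsq, div_self (by positivity)]
      have h2 : ∀ j ∈ (Finset.univ : Finset J), c j i ^ q ≤ c j i ^ 2 := by
        intro j _
        have h3 : c j i ^ 2 ≤ 1 := by
          rw [← h1]
          exact Finset.single_le_sum (f := fun j => c j i ^ 2) (fun j _ => sq_nonneg _)
            (Finset.mem_univ j)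
        have h4 : c j i ≤ 1 := by
          have := c0 j i
          nlinarith
        rw [← Real.rpow_natCast]
        exact Real.rpow_le_rpow_of_exponent_ge_of_imp (c0 j i) h4 (by push_cast; exact hq)
          (by intro _ h; exact absurd h hq0.ne')
      calc _ ≤ ∑ j, c j i ^ 2 := Finset.sum_le_sum h2
        _ = 1 := h1
  have hZc : ∀ i, Z i = ∑ j, f j ^ (q - 1) * (|y j i| * c j i) := by
    intro i
    rcases (Z0 i).eq_or_lt with h0 | h0
    · have : ∀ j, c j i = 0 := by intro j; rw [hc]; dsimp only; rw [← h0, div_zero]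
      simp only [this, mul_zero, Finset.sum_const_zero]
      exact h0.symm
    · have h1 : ∑ j, f j ^ (q - 1) * (|y j i| * c j i) = (∑ j, (f j ^ (q - 1) * |y j i|) ^ 2) / Z i := by
        rw [Finset.sum_div]
        refine Finset.sum_congr rfl fun j _ => ?_
        rw [hc]; dsimp only; ring
      rw [h1, ← Zsq, sq, mul_div_assoc, div_self h0.ne', mul_one]
  have step1 : ∑ i, Z i * b i ≤ ∑ j, f j ^ (q - 1) * ‖T (fun i => c j i * b i)‖ := by
    calc ∑ i, Z i * b i = ∑ i, ∑ j, f j ^ (q - 1) * (|y j i| * (c j i * b i)) := by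
          refine Finset.sum_congr rfl fun i _ => ?_
          conv_lhs => rw [hZc i]
          rw [Finset.sum_mul]
          refine Finset.sum_congr rfl fun j _ => ?_
          ring
      _ = ∑ j, f j ^ (q - 1) * ∑ i, |y j i| * (c j i * b i) := by
          rw [Finset.sum_comm]
          refine Finset.sum_congr rfl fun j _ => ?_
          rw [Finset.mul_sum]
      _ ≤ _ := by
          refine Finset.sum_le_sum fun j _ => ?_
          refine mul_le_mul_of_nonneg_left ?_ (Real.rpow_nonneg (hf j) _)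
          have h1 := hy j (fun i => SignType.sign (y j i) * (c j i * b i))
          have h2 : ∑ i, y j i * ((SignType.sign (y j i) : ℝ) * (c j i * b i)) =
              ∑ i, |y j i| * (c j i * b i) := by
            refine Finset.sum_congr rfl fun i _ => ?_
            rw [← mul_assoc, self_mul_sign]
          rw [h2] at h1
          refine h1.trans (hmono _ _ fun i => ?_)
          rw [abs_mul]
          have h3 : |((SignType.sign (y j i) : SignType) : ℝ)| ≤ 1 := by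
            rcases lt_trichotomy (y j i) 0 with h | h | h
            · rw [sign_neg h]; simp
            · rw [h, sign_zero]; simp
            · rw [sign_pos h]; simp
          calc _ ≤ 1 * |c j i * b i| := mul_le_mul_of_nonneg_right h3 (abs_nonneg _)
            _ = _ := one_mul _
  refine step1.trans ?_
  refine (holder2 Finset.univ f (fun j => ‖T (fun i => c j i * b i)‖) hf (fun _ => norm_nonneg _)
    (by linarith)).trans ?_
  have hF0 : 0 ≤ (∑ j, f j ^ q) ^ ((q - 1) / q) :=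
    Real.rpow_nonneg (Finset.sum_nonneg fun j _ => Real.rpow_nonneg (hf j) _) _
  have step2 : (∑ j, ‖T (fun i => c j i * b i)‖ ^ q) ^ (1 / q) ≤ K * ‖T b‖ := by
    have h1 := hconc (fun j i => c j i * b i)
    have h2 : ‖T (fun i => (∑ j, |c j i * b i| ^ q) ^ (1 / q))‖ ≤ ‖T b‖ := by
      refine hmono _ _ fun i => ?_
      have e1 : ∀ j, |c j i * b i| ^ q = c j i ^ q * b i ^ q := by
        intro j
        rw [abs_of_nonneg (mul_nonneg (c0 j i) (hb i)), Real.mul_rpow (c0 j i) (hb i)]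
      simp only [e1]
      rw [← Finset.sum_mul]
      have h3 : 0 ≤ ∑ j, c j i ^ q := Finset.sum_nonneg fun j _ => Real.rpow_nonneg (c0 j i) _
      rw [Real.mul_rpow h3 (Real.rpow_nonneg (hb i) _), ← Real.rpow_mul (hb i),
        mul_one_div_cancel hq0.ne', Real.rpow_one]
      have h4 : (∑ j, c j i ^ q) ^ (1 / q) ≤ 1 := Real.rpow_le_one h3 (csum i) (by positivity)
      have h5 : 0 ≤ (∑ j, c j i ^ q) ^ (1 / q) := Real.rpow_nonneg h3 _
      rw [abs_of_nonneg (mul_nonneg h5 (hb i)), abs_of_nonneg (hb i)]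
      calc _ ≤ 1 * b i := mul_le_mul_of_nonneg_right h4 (hb i)
        _ = _ := one_mul _
    have h6 : ∑ j, ‖T (fun i => c j i * b i)‖ ^ q ≤ (K * ‖T b‖) ^ q := by
      refine h1.trans ?_
      rw [Real.mul_rpow hK (norm_nonneg _)]
      exact mul_le_mul_of_nonneg_left (Real.rpow_le_rpow (norm_nonneg _) h2 hq0.le)
        (Real.rpow_nonneg hK _)
    refine (Real.rpow_le_rpow (Finset.sum_nonneg fun j _ => Real.rpow_nonneg (norm_nonneg _) _) h6
      (by positivity)).trans (le_of_eq ?_)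
    rw [← Real.rpow_mul (by positivity), mul_one_div_cancel hq0.ne', Real.rpow_one]
  calc _ ≤ (∑ j, f j ^ q) ^ ((q - 1) / q) * (K * ‖T b‖) := mul_le_mul_of_nonneg_left step2 hF0
    _ = _ := by ring

/-- the piecewise comparison at one coordinate -/
theorem end_co {ρ : ℝ} (r : ℕ) (hρ : ρ = wr r) {s0 : ℝ} (hs : 0 < s0) (M : ℕ) {a a' A : ℝ}
    (hA : 0 ≤ A) :
    ∑ i ∈ Finset.range M, hi (wsc ρ s0 i) A *
      |pc (wsc ρ s0 i) (wsc ρ s0 (i + 1)) a - pc (wsc ρ s0 i) (wsc ρ s0 (i + 1)) a'| ≤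
    2 * ((4 * wr r * A) ^ ((((2 ^ (r + 1) : ℕ) : ℝ))⁻¹) *
      (4 * |a - a'|) ^ (1 - (((2 ^ (r + 1) : ℕ) : ℝ))⁻¹)) := by
  have hρ2 : 2 ≤ ρ := by rw [hρ]; exact wr_ge r
  have hρ0 : 0 < ρ := by linarith
  have hw : ∀ i, 0 < ρ * wsc ρ s0 i := fun i => mul_pos hρ0 (wsc_pos hρ0 hs i)
  have hβ := be_pos r
  have hth := th_pos r
  have hbe : (be r)⁻¹ = 1 + th r := by unfold th; ring
  set E : ℕ → ℝ := fun i => (min 1 (|a - a'| / (ρ * wsc ρ s0 i))) ^ (be r)⁻¹ with hE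
  have hmin : ∀ i, 0 ≤ min 1 (|a - a'| / (ρ * wsc ρ s0 i)) := fun i =>
    le_min zero_le_one (div_nonneg (abs_nonneg _) (hw i).le)
  have E0 : ∀ i, 0 ≤ E i := fun i => Real.rpow_nonneg (hmin i) _
  have Eb : ∀ i, E i ^ (be r) = min 1 (|a - a'| / (ρ * wsc ρ s0 i)) := by
    intro i
    rw [hE]; dsimp only
    rw [← Real.rpow_mul (hmin i), inv_mul_cancel₀ hβ.ne', Real.rpow_one]
  have h1 := whol (Finset.range M) (fun i => ρ * wsc ρ s0 i) (fun i => hi (wsc ρ s0 i) A) E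
    (fun i => (hw i).le) (fun i => hi_nonneg _ _) E0 (two_le_P r)
  have h2 : ∑ i ∈ Finset.range M, hi (wsc ρ s0 i) A *
      |pc (wsc ρ s0 i) (wsc ρ s0 (i + 1)) a - pc (wsc ρ s0 i) (wsc ρ s0 (i + 1)) a'| ≤
      2 * ∑ i ∈ Finset.range M, (ρ * wsc ρ s0 i) * (hi (wsc ρ s0 i) A *
        E i ^ (1 - (((2 ^ (r + 1) : ℕ) : ℝ))⁻¹)) := by
    rw [Finset.mul_sum]
    refine Finset.sum_le_sum fun i _ => ?_
    have e1 : E i ^ (1 - (((2 ^ (r + 1) : ℕ) : ℝ))⁻¹) = min 1 (|a - a'| / (ρ * wsc ρ s0 i)) := Eb i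
    rw [e1, wsc_succ]
    have h3 := pc_diff (wsc_pos hρ0 hs i).le (hw i)
      (by have := wsc_pos hρ0 hs i; nlinarith : wsc ρ s0 i ≤ ρ * wsc ρ s0 i) a a'
    calc _ ≤ hi (wsc ρ s0 i) A * (2 * (ρ * wsc ρ s0 i * min 1 (|a - a'| / (ρ * wsc ρ s0 i)))) :=
          mul_le_mul_of_nonneg_left h3 (hi_nonneg _ _)
      _ = _ := by ring
  refine h2.trans (mul_le_mul_of_nonneg_left (h1.trans ?_) (by norm_num))
  have hhi : ∀ i, hi (wsc ρ s0 i) A ^ (2 ^ (r + 1)) = hi (wsc ρ s0 i) A := by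
    intro i
    unfold hi
    split_ifs <;> simp
  simp only [hhi]
  have k1 : ∑ i ∈ Finset.range M, ρ * wsc ρ s0 i * hi (wsc ρ s0 i) A ≤ 4 * wr r * A := by
    have := mul_le_mul_of_nonneg_left (hi_sum hρ2 hs hA M) hρ0.le
    rw [Finset.mul_sum] at this
    simp only [← mul_assoc] at this
    rw [← hρ]
    linarith
  have k2 : ∑ i ∈ Finset.range M, ρ * wsc ρ s0 i * E i ≤ 4 * |a - a'| := by
    have h5 := win_sum hρ2 hth (by rw [hρ]; exact wr_th r) (s0 := ρ * s0) (by positivity)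
      (abs_nonneg (a - a')) M
    have hws : ∀ i, wsc ρ (ρ * s0) i = ρ * wsc ρ s0 i := by intro i; unfold wsc; ring
    simp only [hws] at h5
    rw [hE]; dsimp only
    rw [hbe]
    exact h5
  unfold be at hβ
  refine mul_le_mul (Real.rpow_le_rpow (Finset.sum_nonneg fun i _ =>
    mul_nonneg (hw i).le (hi_nonneg _ _)) k1 (by positivity))
    (Real.rpow_le_rpow (Finset.sum_nonneg fun i _ => mul_nonneg (hw i).le (E0 i)) k2 hβ.le)
    (Real.rpow_nonneg (Finset.sum_nonneg fun i _ => mul_nonneg (hw i).le (E0 i)) _)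
    (Real.rpow_nonneg (by have := wr_pos r; positivity) _)

/-- the piecewise comparison at one coordinate, middle term -/
theorem mid_co {ρ : ℝ} (r : ℕ) (hρ : ρ = wr r) {s0 : ℝ} (hs : 0 < s0) (M : ℕ)
    (g : J → ℝ) (A : J → ℝ) (hA : ∀ j, 0 ≤ A j) (a : ℝ) (a' : (J → Bool) → ℝ) :
    ∑ ε : J → Bool, ∑ i ∈ Finset.range M, |∑ j, sg (ε j) * (g j * hi (wsc ρ s0 i) (A j))| *
      |pc (wsc ρ s0 i) (wsc ρ s0 (i + 1)) (a' ε) - pc (wsc ρ s0 i) (wsc ρ s0 (i + 1)) a| ≤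
    2 * ((2 ^ (Fintype.card J) * ck r) ^ ((((2 ^ (r + 1) : ℕ) : ℝ))⁻¹) *
      Real.sqrt (∑ j, (|g j| * (4 * wr r * A j) ^ ((((2 ^ (r + 1) : ℕ) : ℝ))⁻¹)) ^ 2) *
      (∑ ε, 4 * |a' ε - a|) ^ (1 - (((2 ^ (r + 1) : ℕ) : ℝ))⁻¹)) := by
  have hρ2 : 2 ≤ ρ := by rw [hρ]; exact wr_ge r
  have hρ0 : 0 < ρ := by linarith
  have hw : ∀ i, 0 < ρ * wsc ρ s0 i := fun i => mul_pos hρ0 (wsc_pos hρ0 hs i)
  have hβ := be_pos r
  have hth := th_pos r
  have hwr := wr_pos r
  have hbe : (be r)⁻¹ = 1 + th r := by unfold th; ring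
  set E : ℕ → (J → Bool) → ℝ :=
    fun i ε => (min 1 (|a' ε - a| / (ρ * wsc ρ s0 i))) ^ (be r)⁻¹ with hE
  have hmin : ∀ i ε, 0 ≤ min 1 (|a' ε - a| / (ρ * wsc ρ s0 i)) := fun i ε =>
    le_min zero_le_one (div_nonneg (abs_nonneg _) (hw i).le)
  have E0 : ∀ i ε, 0 ≤ E i ε := fun i ε => Real.rpow_nonneg (hmin i ε) _
  have Eb : ∀ i ε, E i ε ^ (be r) = min 1 (|a' ε - a| / (ρ * wsc ρ s0 i)) := by
    intro i ε
    rw [hE]; dsimp only
    rw [← Real.rpow_mul (hmin i ε), inv_mul_cancel₀ hβ.ne', Real.rpow_one]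
  have h1 := mid_sc (J := J) r M (fun i => ρ * wsc ρ s0 i) hw
    (fun i j => g j * hi (wsc ρ s0 i) (A j)) E E0
    (fun j => |g j| * (4 * wr r * A j) ^ ((((2 ^ (r + 1) : ℕ) : ℝ))⁻¹))
    (fun ε => 4 * |a' ε - a|)
    (by
      intro j
      have hhi : ∀ i, hi (wsc ρ s0 i) (A j) ^ (2 ^ (r + 1)) = hi (wsc ρ s0 i) (A j) := by
        intro i
        unfold hi
        split_ifs <;> simp
      have e1 : ∀ i, ρ * wsc ρ s0 i * (g j * hi (wsc ρ s0 i) (A j)) ^ (2 ^ (r + 1)) =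
          |g j| ^ (2 ^ (r + 1)) * (ρ * (wsc ρ s0 i * hi (wsc ρ s0 i) (A j))) := by
        intro i
        rw [mul_pow, hhi]
        have : |g j| ^ (2 ^ (r + 1)) = g j ^ (2 ^ (r + 1)) := by
          rw [show 2 ^ (r + 1) = 2 * 2 ^ r by ring, pow_mul, pow_mul, sq_abs]
        rw [this]; ring
      simp only [e1, ← Finset.mul_sum]
      have h0 : 0 ≤ 4 * wr r * A j := mul_nonneg (by positivity) (hA j)
      have e2 : ((4 * wr r * A j) ^ ((((2 ^ (r + 1) : ℕ) : ℝ))⁻¹)) ^ (2 ^ (r + 1)) =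
          4 * wr r * A j := by
        rw [← Real.rpow_natCast, ← Real.rpow_mul h0, inv_mul_cancel₀ (by positivity), Real.rpow_one]
      rw [mul_pow, e2]
      refine mul_le_mul_of_nonneg_left ?_ (by positivity)
      have := mul_le_mul_of_nonneg_left (hi_sum hρ2 hs (hA j) M) hρ0.le
      rw [← hρ]
      linarith)
    (by
      intro ε
      have h5 := win_sum hρ2 hth (by rw [hρ]; exact wr_th r) (s0 := ρ * s0) (by positivity)
        (abs_nonneg (a' ε - a)) M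
      have hws : ∀ i, wsc ρ (ρ * s0) i = ρ * wsc ρ s0 i := by intro i; unfold wsc; ring
      simp only [hws] at h5
      rw [hE]; dsimp only
      rw [hbe]
      exact h5)
  refine le_trans ?_ (mul_le_mul_of_nonneg_left h1 (by norm_num : (0 : ℝ) ≤ 2))
  rw [Finset.mul_sum]
  refine Finset.sum_le_sum fun ε _ => ?_
  rw [Finset.mul_sum]
  refine Finset.sum_le_sum fun i _ => ?_
  have e1 : E i ε ^ (1 - (((2 ^ (r + 1) : ℕ) : ℝ))⁻¹) = min 1 (|a' ε - a| / (ρ * wsc ρ s0 i)) :=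
    Eb i ε
  rw [e1, wsc_succ]
  have h3 := pc_diff (wsc_pos hρ0 hs i).le (hw i)
    (by have := wsc_pos hρ0 hs i; nlinarith : wsc ρ s0 i ≤ ρ * wsc ρ s0 i) (a' ε) a
  calc _ ≤ |∑ j, sg (ε j) * (g j * hi (wsc ρ s0 i) (A j))| *
        (2 * (ρ * wsc ρ s0 i * min 1 (|a' ε - a| / (ρ * wsc ρ s0 i)))) :=
        mul_le_mul_of_nonneg_left h3 (abs_nonneg _)
    _ = _ := by ring

end TH364.SG
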