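import Mathlib
import Pool.Agent.TH364.SG.Z2
set_option autoImplicit false
set_option linter.unusedSectionVars false

/-! The weighted inequality in a q-concave lattice: one coordinate, and sums. -/

namespace TH364.SG

open Finset Filter Topology

universe u v
variable {J : Type v} [Fintype J] [DecidableEq J]
variable {Γ : Type*} [AddCommGroup Γ] [Fintype Γ] {e : J → Γ}

theorem mid_sum2 (r : ℕ) (T t : J → Γ → ℝ) (κ : Γ → (J → Bool) → ℝ) (hT : ∀ j x, 0 ≤ T j x)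
    (ht : ∀ j x, 0 ≤ t j x) (hκ : ∀ x ε, 0 ≤ κ x ε) {q a b : ℝ} (hq : 2 ≤ q) (a0 : 0 ≤ a)
    (b0 : 0 ≤ b) (Y : J → Γ → Γ) (hY : ∀ j, Function.Bijective (Y j))
    (hta : ∑ x, ∑ j, t j x ^ q ≤ (Fintype.card Γ : ℝ) * Fintype.card J * a ^ q)
    (hkb : ∑ x, ∑ ε : J → Bool, κ x ε ^ q ≤ 2 ^ (Fintype.card J) * ((Fintype.card Γ : ℝ) * b ^ q)) :
    ∑ y, (2 ^ (Fintype.card J) * ck r) ^ ((((2 ^ (r + 1) : ℕ) : ℝ))⁻¹) *
      ((∑ j, T j (Y j y) ^ q) ^ ((q - 1) / q) *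
        ((∑ j, t j (Y j y)) ^ ((((2 ^ (r + 1) : ℕ) : ℝ))⁻¹) *
      (∑ ε : J → Bool, κ y ε) ^ (1 - (((2 ^ (r + 1) : ℕ) : ℝ))⁻¹))) ≤
    (Fintype.card J : ℝ) ^ ((((2 ^ (r + 1) : ℕ) : ℝ))⁻¹) *
    (2 ^ (Fintype.card J) * (ck r ^ ((((2 ^ (r + 1) : ℕ) : ℝ))⁻¹) *
      ((∑ x, ∑ j, T j x ^ q) ^ ((q - 1) / q) *
      ((Fintype.card J : ℝ) ^ ((((2 ^ (r + 1) : ℕ) : ℝ))⁻¹ / q) * ((Fintype.card Γ : ℝ) ^ (1 / q) *
        (a ^ ((((2 ^ (r + 1) : ℕ) : ℝ))⁻¹) * b ^ (1 - (((2 ^ (r + 1) : ℕ) : ℝ))⁻¹))))))) := by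
  have hβ := be_pos r
  unfold be at hβ
  have hα : 0 < (((2 ^ (r + 1) : ℕ) : ℝ))⁻¹ := by positivity
  have hck : 0 ≤ ck r := by unfold ck; positivity
  have hq0 : 0 < q := by linarith
  set α := (((2 ^ (r + 1) : ℕ) : ℝ))⁻¹ with hαd
  set Tn : ℝ := 2 ^ (Fintype.card J) with hTn
  have hTn0 : 0 < Tn := by positivity
  set f : Γ → ℝ := fun y => (∑ j, T j (Y j y) ^ q) ^ (1 / q) with hf
  set R : Γ → ℝ := fun y => (∑ j, t j (Y j y) ^ q) ^ (1 / q) with hR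
  set B : Γ → ℝ := fun y => (∑ ε : J → Bool, κ y ε) / Tn with hB
  have sT : ∀ y, 0 ≤ ∑ j, T j (Y j y) ^ q := fun y =>
    Finset.sum_nonneg fun j _ => Real.rpow_nonneg (hT _ _) _
  have st : ∀ y, 0 ≤ ∑ j, t j (Y j y) ^ q := fun y =>
    Finset.sum_nonneg fun j _ => Real.rpow_nonneg (ht _ _) _
  have f0 : ∀ y, 0 ≤ f y := fun y => Real.rpow_nonneg (sT y) _
  have R0 : ∀ y, 0 ≤ R y := fun y => Real.rpow_nonneg (st y) _
  have B0 : ∀ y, 0 ≤ B y := fun y => div_nonneg (Finset.sum_nonneg fun ε _ => hκ _ _) hTn0.le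
  have fq : ∀ y, f y ^ q = ∑ j, T j (Y j y) ^ q := by
    intro y
    rw [hf]; dsimp only
    rw [← Real.rpow_mul (sT y), one_div_mul_cancel hq0.ne', Real.rpow_one]
  have Rq : ∀ y, R y ^ q = ∑ j, t j (Y j y) ^ q := by
    intro y
    rw [hR]; dsimp only
    rw [← Real.rpow_mul (st y), one_div_mul_cancel hq0.ne', Real.rpow_one]
  have Bq : ∀ y, B y ^ q ≤ (∑ ε : J → Bool, κ y ε ^ q) / Tn := by
    intro y
    have hcard : ∑ _ε : J → Bool, (1 / Tn) = 1 := by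
      rw [Finset.sum_const, Finset.card_univ, Fintype.card_fun, Fintype.card_bool, nsmul_eq_mul]
      push_cast
      rw [← hTn]
      field_simp
    have h := Real.rpow_arith_mean_le_arith_mean_rpow (Finset.univ : Finset (J → Bool))
      (fun _ => 1 / Tn) (fun ε => κ y ε) (fun _ _ => by positivity) hcard (fun ε _ => hκ _ _)
      (p := q) (by linarith)
    rw [← Finset.mul_sum, ← Finset.mul_sum, one_div_mul_eq_div, one_div_mul_eq_div] at h
    exact h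
  have pt : ∀ y, (Tn * ck r) ^ α * ((∑ j, T j (Y j y) ^ q) ^ ((q - 1) / q) *
        ((∑ j, t j (Y j y)) ^ α * (∑ ε : J → Bool, κ y ε) ^ (1 - α))) ≤
      (Fintype.card J : ℝ) ^ α * (Tn * (ck r ^ α * (f y ^ (q - 1) * (R y ^ α * B y ^ (1 - α))))) := by
    intro y
    have h1 : ∑ j, t j (Y j y) ≤ (Fintype.card J : ℝ) * R y := by
      refine (Finset.sum_le_card_nsmul _ _ (R y) fun j _ =>
        le_lq (fun j => t j (Y j y)) (fun j => ht _ _) hq0 j).trans_eq ?_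
      rw [Finset.card_univ, nsmul_eq_mul]
    have h2 : (∑ j, t j (Y j y)) ^ α ≤ (Fintype.card J : ℝ) ^ α * R y ^ α := by
      rw [← Real.mul_rpow (by positivity) (R0 y)]
      exact Real.rpow_le_rpow (Finset.sum_nonneg fun j _ => ht _ _) h1 hα.le
    have h3 : (∑ j, T j (Y j y) ^ q) ^ ((q - 1) / q) = f y ^ (q - 1) := by
      rw [hf]; dsimp only
      rw [← Real.rpow_mul (sT y)]
      congr 1
      ring
    have h5 : ∑ ε : J → Bool, κ y ε = Tn * B y := by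
      rw [hB]; dsimp only
      rw [mul_div_cancel₀ _ hTn0.ne']
    rw [h3, h5, Real.mul_rpow hTn0.le (B0 y), Real.mul_rpow hTn0.le hck]
    have h6 : Tn ^ α * Tn ^ (1 - α) = Tn := by
      rw [← Real.rpow_add hTn0]; simp
    have p1 : 0 ≤ f y ^ (q - 1) := Real.rpow_nonneg (f0 y) _
    have p2 : 0 ≤ B y ^ (1 - α) := Real.rpow_nonneg (B0 y) _
    have p3 : 0 ≤ ck r ^ α := Real.rpow_nonneg hck _
    have p4 : 0 ≤ Tn ^ α := by positivity
    have p5 : 0 ≤ Tn ^ (1 - α) := by positivity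
    calc Tn ^ α * ck r ^ α * (f y ^ (q - 1) * ((∑ j, t j (Y j y)) ^ α *
          (Tn ^ (1 - α) * B y ^ (1 - α))))
        ≤ Tn ^ α * ck r ^ α * (f y ^ (q - 1) * (((Fintype.card J : ℝ) ^ α * R y ^ α) *
          (Tn ^ (1 - α) * B y ^ (1 - α)))) := by gcongr
      _ = (Tn ^ α * Tn ^ (1 - α)) * ((Fintype.card J : ℝ) ^ α *
          (ck r ^ α * (f y ^ (q - 1) * (R y ^ α * B y ^ (1 - α))))) := by ring
      _ = _ := by rw [h6]; ring
  refine (Finset.sum_le_sum fun y _ => pt y).trans ?_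
  rw [← Finset.mul_sum, ← Finset.mul_sum, ← Finset.mul_sum]
  refine mul_le_mul_of_nonneg_left (mul_le_mul_of_nonneg_left (mul_le_mul_of_nonneg_left ?_
    (Real.rpow_nonneg hck _)) hTn0.le) (by positivity)
  refine (holder3 (Finset.univ : Finset Γ) f R B f0 R0 B0 (by linarith) hα hβ (by ring)).trans ?_
  have tr : ∀ g : J → Γ → ℝ, ∑ y, ∑ j, g j (Y j y) = ∑ x, ∑ j, g j x := by
    intro g
    rw [Finset.sum_comm]
    rw [Finset.sum_comm (s := (Finset.univ : Finset Γ))]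
    refine Finset.sum_congr rfl fun j _ => ?_
    exact Equiv.sum_comp (Equiv.ofBijective (Y j) (hY j)) (fun x => g j x)
  have s1 : ∑ y, f y ^ q = ∑ x, ∑ j, T j x ^ q := by
    simp only [fq]
    exact tr (fun j x => T j x ^ q)
  have s2 : ∑ y, R y ^ q ≤ (Fintype.card Γ : ℝ) * Fintype.card J * a ^ q := by
    simp only [Rq]
    rw [tr (fun j x => t j x ^ q)]
    exact hta
  have s3 : ∑ y, B y ^ q ≤ (Fintype.card Γ : ℝ) * b ^ q := by
    refine (Finset.sum_le_sum fun y _ => Bq y).trans ?_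
    rw [← Finset.sum_div, div_le_iff₀ hTn0]
    linarith
  rw [s1]
  have hX0 : 0 ≤ ∑ x, ∑ j, T j x ^ q := Finset.sum_nonneg fun x _ => Finset.sum_nonneg fun j _ =>
    Real.rpow_nonneg (hT j x) _
  refine mul_le_mul_of_nonneg_left ?_ (Real.rpow_nonneg hX0 _)
  rw [← comb2 (n := (Fintype.card J : ℝ)) (N := (Fintype.card Γ : ℝ)) (by positivity)
    (by positivity) a0 b0 (by linarith : 1 < q) hα.le hβ.le (by ring)]
  have sR : 0 ≤ ∑ y, R y ^ q := Finset.sum_nonneg fun y _ => Real.rpow_nonneg (R0 y) _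
  have sB : 0 ≤ ∑ y, B y ^ q := Finset.sum_nonneg fun y _ => Real.rpow_nonneg (B0 y) _
  refine mul_le_mul (Real.rpow_le_rpow sR s2 (by positivity)) (Real.rpow_le_rpow sB s3
    (by positivity)) (Real.rpow_nonneg sB _) (by positivity)

theorem abs_dual {Y : Type u} [NormedAddCommGroup Y] [NormedSpace ℝ Y] {ι : Type} [Fintype ι]
    (T : (ι → ℝ) →ₗ[ℝ] Y) (hmono : ∀ a b : ι → ℝ, (∀ i, |a i| ≤ |b i|) → ‖T a‖ ≤ ‖T b‖)
    (y : ι → ℝ) (hy : ∀ c, ∑ i, y i * c i ≤ ‖T c‖) (W : ι → ℝ) :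
    ∑ i, |y i| * W i ≤ ‖T W‖ := by
  have h1 := hy (fun i => SignType.sign (y i) * W i)
  have h2 : ∑ i, y i * ((SignType.sign (y i) : ℝ) * W i) = ∑ i, |y i| * W i := by
    refine Finset.sum_congr rfl fun i _ => ?_
    rw [← mul_assoc, self_mul_sign]
  rw [h2] at h1
  refine h1.trans (hmono _ _ fun i => ?_)
  rw [abs_mul]
  have h3 : |((SignType.sign (y i) : SignType) : ℝ)| ≤ 1 := by
    rcases lt_trichotomy (y i) 0 with h | h | h
    · rw [sign_neg h]; simp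
    · rw [h, sign_zero]; simp
    · rw [sign_pos h]; simp
  calc _ ≤ 1 * |W i| := mul_le_mul_of_nonneg_right h3 (abs_nonneg _)
    _ = _ := one_mul _

/-- the bound for one coordinate -/
theorem coord {ρ : ℝ} (r l M : ℕ) (hρ : ρ = wr r) {s0 : ℝ} (hs : 0 < s0) (u : Γ → ℝ)
    (lam : J → Γ → ℝ) :
    2 ^ (Fintype.card J) * |∑ i ∈ Finset.range M, ∑ x, ∑ j,
      (lam j x * hi (wsc ρ s0 i) (|u (x + (2 * l) • e j)| + |u x|)) *
      (pc (wsc ρ s0 i) (wsc ρ s0 (i + 1)) (u (x + (2 * l) • e j)) -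
        pc (wsc ρ s0 i) (wsc ρ s0 (i + 1)) (u x))| ≤
    (∑ x, ∑ j, ∑ ε : J → Bool, |lam j x| *
      (2 * ((4 * wr r * (|u (x + (2 * l) • e j)| + |u x|)) ^ ((((2 ^ (r + 1) : ℕ) : ℝ))⁻¹) *
      (4 * |u (x + (2 * l) • e j) - u (x + (2 * l) • e j + sfj e j ε)|) ^
        (1 - (((2 ^ (r + 1) : ℕ) : ℝ))⁻¹)))) +
    (∑ x, ∑ j, ∑ ε : J → Bool, |lam j x| *
      (2 * ((4 * wr r * (|u (x + (2 * l) • e j)| + |u x|)) ^ ((((2 ^ (r + 1) : ℕ) : ℝ))⁻¹) *
      (4 * |u (x + sfj e j ε) - u x|) ^ (1 - (((2 ^ (r + 1) : ℕ) : ℝ))⁻¹)))) +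
    2 * ∑ m ∈ Finset.range l, ∑ y,
      (2 * ((2 ^ (Fintype.card J) * ck r) ^ ((((2 ^ (r + 1) : ℕ) : ℝ))⁻¹) *
      Real.sqrt (∑ j, (|lam j (y - (2 * m + 1) • e j)| *
        (4 * wr r * (|u (y - (2 * m + 1) • e j + (2 * l) • e j)| + |u (y - (2 * m + 1) • e j)|)) ^
          ((((2 ^ (r + 1) : ℕ) : ℝ))⁻¹)) ^ 2) *
      (∑ ε, 4 * |u (y + sft e ε) - u y|) ^ (1 - (((2 ^ (r + 1) : ℕ) : ℝ))⁻¹))) := by
  set A : J → Γ → ℝ := fun j x => |u (x + (2 * l) • e j)| + |u x| with hA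
  have A0 : ∀ j x, 0 ≤ A j x := fun j x => by rw [hA]; positivity
  set P : ℕ → ℝ → ℝ := fun i => pc (wsc ρ s0 i) (wsc ρ s0 (i + 1)) with hP
  have id : ∀ i, (2 : ℝ) ^ (Fintype.card J) * ∑ x, ∑ j, (lam j x * hi (wsc ρ s0 i) (A j x)) *
      (P i (u (x + (2 * l) • e j)) - P i (u x)) = _ := fun i =>
    mc_id (e := e) l (fun j x => lam j x * hi (wsc ρ s0 i) (A j x)) (fun x => P i (u x))
  have e0 : (2 : ℝ) ^ (Fintype.card J) * |∑ i ∈ Finset.range M, ∑ x, ∑ j,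
      (lam j x * hi (wsc ρ s0 i) (A j x)) * (P i (u (x + (2 * l) • e j)) - P i (u x))| =
      |∑ i ∈ Finset.range M, ((2 : ℝ) ^ (Fintype.card J) * ∑ x, ∑ j,
        (lam j x * hi (wsc ρ s0 i) (A j x)) * (P i (u (x + (2 * l) • e j)) - P i (u x)))| := by
    rw [← Finset.mul_sum, abs_mul, abs_of_nonneg (by positivity : (0 : ℝ) ≤ 2 ^ (Fintype.card J))]
  change (2 : ℝ) ^ (Fintype.card J) * |∑ i ∈ Finset.range M, ∑ x, ∑ j,
      (lam j x * hi (wsc ρ s0 i) (A j x)) * (P i (u (x + (2 * l) • e j)) - P i (u x))| ≤ _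
  rw [e0]
  simp only [id]
  rw [Finset.sum_add_distrib, Finset.sum_add_distrib]
  refine (abs_add_le _ _).trans (add_le_add ((abs_add_le _ _).trans (add_le_add ?_ ?_)) ?_)
  · -- first end
    refine (Finset.abs_sum_le_sum_abs _ _).trans ?_
    have h1 : ∀ i ∈ Finset.range M, |∑ x, ∑ j, ∑ ε : J → Bool, lam j x * hi (wsc ρ s0 i) (A j x) *
        (P i (u (x + (2 * l) • e j)) - P i (u (x + (2 * l) • e j + sfj e j ε)))| ≤
        ∑ x, ∑ j, ∑ ε : J → Bool, |lam j x| * (hi (wsc ρ s0 i) (A j x) *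
        |P i (u (x + (2 * l) • e j)) - P i (u (x + (2 * l) • e j + sfj e j ε))|) := by
      intro i _
      refine (Finset.abs_sum_le_sum_abs _ _).trans (Finset.sum_le_sum fun x _ => ?_)
      refine (Finset.abs_sum_le_sum_abs _ _).trans (Finset.sum_le_sum fun j _ => ?_)
      refine (Finset.abs_sum_le_sum_abs _ _).trans (Finset.sum_le_sum fun ε _ => le_of_eq ?_)
      rw [abs_mul, abs_mul, abs_of_nonneg (hi_nonneg _ _)]; ring
    refine (Finset.sum_le_sum h1).trans ?_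
    rw [Finset.sum_comm]
    refine Finset.sum_le_sum fun x _ => ?_
    rw [Finset.sum_comm]
    refine Finset.sum_le_sum fun j _ => ?_
    rw [Finset.sum_comm]
    refine Finset.sum_le_sum fun ε _ => ?_
    rw [← Finset.mul_sum]
    exact mul_le_mul_of_nonneg_left (end_co r hρ hs M (A0 j x)) (abs_nonneg _)
  · refine (Finset.abs_sum_le_sum_abs _ _).trans ?_
    have h1 : ∀ i ∈ Finset.range M, |∑ x, ∑ j, ∑ ε : J → Bool, lam j x * hi (wsc ρ s0 i) (A j x) *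
        (P i (u (x + sfj e j ε)) - P i (u x))| ≤
        ∑ x, ∑ j, ∑ ε : J → Bool, |lam j x| * (hi (wsc ρ s0 i) (A j x) *
        |P i (u (x + sfj e j ε)) - P i (u x)|) := by
      intro i _
      refine (Finset.abs_sum_le_sum_abs _ _).trans (Finset.sum_le_sum fun x _ => ?_)
      refine (Finset.abs_sum_le_sum_abs _ _).trans (Finset.sum_le_sum fun j _ => ?_)
      refine (Finset.abs_sum_le_sum_abs _ _).trans (Finset.sum_le_sum fun ε _ => le_of_eq ?_)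
      rw [abs_mul, abs_mul, abs_of_nonneg (hi_nonneg _ _)]; ring
    refine (Finset.sum_le_sum h1).trans ?_
    rw [Finset.sum_comm]
    refine Finset.sum_le_sum fun x _ => ?_
    rw [Finset.sum_comm]
    refine Finset.sum_le_sum fun j _ => ?_
    rw [Finset.sum_comm]
    refine Finset.sum_le_sum fun ε _ => ?_
    rw [← Finset.mul_sum]
    exact mul_le_mul_of_nonneg_left (end_co r hρ hs M (A0 j x)) (abs_nonneg _)
  · rw [← Finset.mul_sum, abs_mul, abs_of_nonneg (by norm_num : (0 : ℝ) ≤ 2)]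
    refine mul_le_mul_of_nonneg_left ?_ (by norm_num)
    refine (Finset.abs_sum_le_sum_abs _ _).trans ?_
    have h1 : ∀ i ∈ Finset.range M, |∑ m ∈ Finset.range l, ∑ y, ∑ ε : J → Bool,
        (∑ j, sg (ε j) * (lam j (y - (2 * m + 1) • e j) *
          hi (wsc ρ s0 i) (A j (y - (2 * m + 1) • e j)))) * (P i (u (y + sft e ε)) - P i (u y))| ≤
        ∑ m ∈ Finset.range l, ∑ y, ∑ ε : J → Bool,
        |∑ j, sg (ε j) * (lam j (y - (2 * m + 1) • e j) *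
          hi (wsc ρ s0 i) (A j (y - (2 * m + 1) • e j)))| * |P i (u (y + sft e ε)) - P i (u y)| := by
      intro i _
      refine (Finset.abs_sum_le_sum_abs _ _).trans (Finset.sum_le_sum fun x _ => ?_)
      refine (Finset.abs_sum_le_sum_abs _ _).trans (Finset.sum_le_sum fun j _ => ?_)
      refine (Finset.abs_sum_le_sum_abs _ _).trans (Finset.sum_le_sum fun ε _ => le_of_eq ?_)
      rw [abs_mul]
    refine (Finset.sum_le_sum h1).trans ?_
    rw [Finset.sum_comm]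
    refine Finset.sum_le_sum fun m _ => ?_
    rw [Finset.sum_comm]
    refine Finset.sum_le_sum fun y _ => ?_
    rw [Finset.sum_comm]
    exact mid_co r hρ hs M (fun j => lam j (y - (2 * m + 1) • e j))
      (fun j => A j (y - (2 * m + 1) • e j)) (fun j => A0 _ _) (u y) (fun ε => u (y + sft e ε))

end TH364.SG
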