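import Mathlib
import Pool.Agent.TH364.SG.Z3
set_option autoImplicit false
set_option linter.unusedSectionVars false

/-! The weighted inequality in a q-concave lattice. -/

namespace TH364.SG

open Finset Filter Topology

universe u v
variable {J : Type v} [Fintype J] [DecidableEq J]
variable {Y : Type u} [NormedAddCommGroup Y] [NormedSpace ℝ Y]
variable {ι : Type} [Fintype ι] [DecidableEq ι]

theorem T_scale (T : (ι → ℝ) →ₗ[ℝ] Y) {c : ℝ} (hc : 0 ≤ c) (A : ι → ℝ) :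
    ‖T (fun i => c * A i)‖ = c * ‖T A‖ := by
  have : (fun i => c * A i) = c • A := rfl
  rw [this, map_smul, norm_smul, Real.norm_of_nonneg hc]

theorem pieceE (r : ℕ) (T : (ι → ℝ) →ₗ[ℝ] Y)
    (hmono : ∀ a b : ι → ℝ, (∀ i, |a i| ≤ |b i|) → ‖T a‖ ≤ ‖T b‖)
    (y : ι → ℝ) (hy : ∀ c, ∑ i, y i * c i ≤ ‖T c‖) (A D : ι → ℝ) (hA : ∀ i, 0 ≤ A i)
    (hD : ∀ i, 0 ≤ D i) {tA κD : ℝ} (hTA : ‖T A‖ ≤ tA) (hTD : ‖T D‖ ≤ κD) :
    ∑ i, |y i| * ((4 * wr r * A i) ^ ((((2 ^ (r + 1) : ℕ) : ℝ))⁻¹) *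
      (4 * D i) ^ (1 - (((2 ^ (r + 1) : ℕ) : ℝ))⁻¹)) ≤
    (4 * wr r * tA) ^ ((((2 ^ (r + 1) : ℕ) : ℝ))⁻¹) *
      (4 * κD) ^ (1 - (((2 ^ (r + 1) : ℕ) : ℝ))⁻¹) := by
  have hβ := be_pos r
  unfold be at hβ
  have hα : 0 < (((2 ^ (r + 1) : ℕ) : ℝ))⁻¹ := by positivity
  have hwr := wr_pos r
  refine (abs_dual T hmono y hy _).trans ?_
  refine (lat_cal T hmono (fun i => 4 * wr r * A i) (fun i => 4 * D i)
    (fun i => mul_nonneg (by positivity) (hA i)) (fun i => mul_nonneg (by norm_num) (hD i)) hα hβ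
    (by ring)).trans ?_
  rw [T_scale T (by positivity) A, T_scale T (by norm_num) D]
  exact mul_le_mul (Real.rpow_le_rpow (by positivity) (mul_le_mul_of_nonneg_left hTA (by positivity))
    hα.le) (Real.rpow_le_rpow (by positivity) (mul_le_mul_of_nonneg_left hTD (by norm_num)) hβ.le)
    (by positivity) (Real.rpow_nonneg (mul_nonneg (by positivity) ((norm_nonneg _).trans hTA)) _)

theorem pieceM (r : ℕ) (T : (ι → ℝ) →ₗ[ℝ] Y)
    (hmono : ∀ a b : ι → ℝ, (∀ i, |a i| ≤ |b i|) → ‖T a‖ ≤ ‖T b‖)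
    {q K : ℝ} (hq : 2 ≤ q) (hK : 0 ≤ K)
    (hconc : ∀ a : J → ι → ℝ, ∑ j, ‖T (a j)‖ ^ q ≤
      K ^ q * ‖T (fun i => (∑ j, |a j i| ^ q) ^ (1 / q))‖ ^ q)
    (y : J → ι → ℝ) (hy : ∀ j c, ∑ i, y j i * c i ≤ ‖T c‖) (F : J → ℝ) (hF : ∀ j, 0 ≤ F j)
    (A : J → ι → ℝ) (hA : ∀ j i, 0 ≤ A j i) (D : (J → Bool) → ι → ℝ) (hD : ∀ ε i, 0 ≤ D ε i)
    (t : J → ℝ) (κ : (J → Bool) → ℝ) (hTA : ∀ j, ‖T (A j)‖ ≤ t j) (hTD : ∀ ε, ‖T (D ε)‖ ≤ κ ε) :
    ∑ i, Real.sqrt (∑ j, (|F j ^ (q - 1) * y j i| *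
        (4 * wr r * A j i) ^ ((((2 ^ (r + 1) : ℕ) : ℝ))⁻¹)) ^ 2) *
      (∑ ε : J → Bool, 4 * D ε i) ^ (1 - (((2 ^ (r + 1) : ℕ) : ℝ))⁻¹) ≤
    8 * K * ((∑ j, F j ^ q) ^ ((q - 1) / q) * ((∑ j, t j) ^ ((((2 ^ (r + 1) : ℕ) : ℝ))⁻¹) *
      (∑ ε : J → Bool, κ ε) ^ (1 - (((2 ^ (r + 1) : ℕ) : ℝ))⁻¹))) := by
  have hβ := be_pos r
  unfold be at hβ
  have hα : 0 < (((2 ^ (r + 1) : ℕ) : ℝ))⁻¹ := by positivity
  have hwr := wr_pos r
  have h8 := eight r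
  set α := (((2 ^ (r + 1) : ℕ) : ℝ))⁻¹ with hαd
  set SA : ι → ℝ := fun i => ∑ j, A j i with hSA
  set SD : ι → ℝ := fun i => ∑ ε : J → Bool, D ε i with hSD
  have SA0 : ∀ i, 0 ≤ SA i := fun i => Finset.sum_nonneg fun j _ => hA j i
  have SD0 : ∀ i, 0 ≤ SD i := fun i => Finset.sum_nonneg fun ε _ => hD ε i
  have t0 : ∀ j, 0 ≤ t j := fun j => (norm_nonneg _).trans (hTA j)
  have κ0 : ∀ ε, 0 ≤ κ ε := fun ε => (norm_nonneg _).trans (hTD ε)
  have h1 : ∀ i, Real.sqrt (∑ j, (|F j ^ (q - 1) * y j i| * (4 * wr r * A j i) ^ α) ^ 2) *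
      (∑ ε : J → Bool, 4 * D ε i) ^ (1 - α) ≤
      Real.sqrt (∑ j, (F j ^ (q - 1) * |y j i|) ^ 2) *
        ((4 * wr r * SA i) ^ α * (4 * SD i) ^ (1 - α)) := by
    intro i
    have e1 : ∑ ε : J → Bool, 4 * D ε i = 4 * SD i := by rw [hSD, Finset.mul_sum]
    rw [e1]
    have h2 : Real.sqrt (∑ j, (|F j ^ (q - 1) * y j i| * (4 * wr r * A j i) ^ α) ^ 2) ≤
        Real.sqrt (∑ j, (F j ^ (q - 1) * |y j i|) ^ 2) * (4 * wr r * SA i) ^ α := by
      have hp : 0 ≤ (4 * wr r * SA i) ^ α := Real.rpow_nonneg (mul_nonneg (by positivity) (SA0 i)) _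
      have hs : 0 ≤ ∑ j, (F j ^ (q - 1) * |y j i|) ^ 2 := Finset.sum_nonneg fun j _ => sq_nonneg _
      refine Real.sqrt_le_iff.2 ⟨mul_nonneg (Real.sqrt_nonneg _) hp, ?_⟩
      rw [mul_pow, Real.sq_sqrt hs, Finset.sum_mul]
      refine Finset.sum_le_sum fun j _ => ?_
      rw [mul_pow, abs_mul, abs_of_nonneg (Real.rpow_nonneg (hF j) _)]
      refine mul_le_mul_of_nonneg_left ?_ (sq_nonneg _)
      have h3 : A j i ≤ SA i := Finset.single_le_sum (f := fun j => A j i) (fun j _ => hA j i)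
        (Finset.mem_univ j)
      have h4 : 0 ≤ 4 * wr r * A j i := mul_nonneg (by positivity) (hA j i)
      exact pow_le_pow_left₀ (Real.rpow_nonneg h4 _)
        (Real.rpow_le_rpow h4 (mul_le_mul_of_nonneg_left h3 (by positivity)) hα.le) 2
    calc _ ≤ (Real.sqrt (∑ j, (F j ^ (q - 1) * |y j i|) ^ 2) * (4 * wr r * SA i) ^ α) *
          (4 * SD i) ^ (1 - α) := mul_le_mul_of_nonneg_right h2
            (Real.rpow_nonneg (mul_nonneg (by norm_num) (SD0 i)) _)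
      _ = _ := by ring
  refine (Finset.sum_le_sum fun i _ => h1 i).trans ?_
  refine (lat_dual T hmono hq hK hconc y hy F hF
    (fun i => (4 * wr r * SA i) ^ α * (4 * SD i) ^ (1 - α)) (fun i =>
      mul_nonneg (Real.rpow_nonneg (mul_nonneg (by positivity) (SA0 i)) _)
      (Real.rpow_nonneg (mul_nonneg (by norm_num) (SD0 i)) _))).trans ?_
  have h5 := lat_cal T hmono (fun i => 4 * wr r * SA i) (fun i => 4 * SD i)
    (fun i => mul_nonneg (by positivity) (SA0 i)) (fun i => mul_nonneg (by norm_num) (SD0 i)) hα hβ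
    (by ring)
  rw [T_scale T (by positivity) SA, T_scale T (by norm_num) SD] at h5
  have hTSA : ‖T SA‖ ≤ ∑ j, t j := by
    have : SA = ∑ j, A j := by rw [hSA]; funext i; rw [Finset.sum_apply]
    rw [this, map_sum]
    exact (norm_sum_le _ _).trans (Finset.sum_le_sum fun j _ => hTA j)
  have hTSD : ‖T SD‖ ≤ ∑ ε : J → Bool, κ ε := by
    have : SD = ∑ ε : J → Bool, D ε := by rw [hSD]; funext i; rw [Finset.sum_apply]
    rw [this, map_sum]
    exact (norm_sum_le _ _).trans (Finset.sum_le_sum fun ε _ => hTD ε)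
  have st0 : 0 ≤ ∑ j, t j := Finset.sum_nonneg fun j _ => t0 j
  have sκ0 : 0 ≤ ∑ ε : J → Bool, κ ε := Finset.sum_nonneg fun ε _ => κ0 ε
  have h6 : (4 * wr r * ‖T SA‖) ^ α * (4 * ‖T SD‖) ^ (1 - α) ≤
      8 * ((∑ j, t j) ^ α * (∑ ε : J → Bool, κ ε) ^ (1 - α)) := by
    calc (4 * wr r * ‖T SA‖) ^ α * (4 * ‖T SD‖) ^ (1 - α)
        ≤ (4 * wr r * ∑ j, t j) ^ α * (4 * ∑ ε : J → Bool, κ ε) ^ (1 - α) :=
          mul_le_mul (Real.rpow_le_rpow (by positivity)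
            (mul_le_mul_of_nonneg_left hTSA (by positivity)) hα.le)
            (Real.rpow_le_rpow (by positivity) (mul_le_mul_of_nonneg_left hTSD (by norm_num)) hβ.le)
            (by positivity) (by positivity)
      _ = _ := by
          rw [Real.mul_rpow (by positivity) st0, Real.mul_rpow (by norm_num) sκ0, ← h8]
          ring
  have hF0 : 0 ≤ (∑ j, F j ^ q) ^ ((q - 1) / q) :=
    Real.rpow_nonneg (Finset.sum_nonneg fun j _ => Real.rpow_nonneg (hF j) _) _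
  calc _ ≤ K * ((∑ j, F j ^ q) ^ ((q - 1) / q) *
        (8 * ((∑ j, t j) ^ α * (∑ ε : J → Bool, κ ε) ^ (1 - α)))) := by
        refine mul_le_mul_of_nonneg_left (mul_le_mul_of_nonneg_left (h5.trans h6) hF0) hK
    _ = _ := by ring

theorem T_abs_add (T : (ι → ℝ) →ₗ[ℝ] Y)
    (hmono : ∀ a b : ι → ℝ, (∀ i, |a i| ≤ |b i|) → ‖T a‖ ≤ ‖T b‖) (u v : ι → ℝ) :
    ‖T (fun i => |u i| + |v i|)‖ ≤ ‖T u‖ + ‖T v‖ := by
  have e : (fun i => |u i| + |v i|) = (fun i => |u i|) + (fun i => |v i|) := rfl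
  rw [e, map_add]
  refine (norm_add_le _ _).trans (add_le_add (hmono _ _ fun i => ?_) (hmono _ _ fun i => ?_))
  · rw [abs_abs]
  · rw [abs_abs]

theorem T_abs_sub (T : (ι → ℝ) →ₗ[ℝ] Y)
    (hmono : ∀ a b : ι → ℝ, (∀ i, |a i| ≤ |b i|) → ‖T a‖ ≤ ‖T b‖) (u v : ι → ℝ) :
    ‖T (fun i => |u i - v i|)‖ ≤ ‖T u - T v‖ := by
  rw [← map_sub]
  refine hmono _ _ fun i => ?_
  rw [abs_abs, Pi.sub_apply]

theorem sw4 {α β γ δ : Type*} [Fintype α] [Fintype β] [Fintype γ] [Fintype δ]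
    (g : α → β → γ → δ → ℝ) :
    ∑ i, ∑ x, ∑ j, ∑ ε, g i x j ε = ∑ x, ∑ j, ∑ ε, ∑ i, g i x j ε := by
  rw [Finset.sum_comm]
  refine Finset.sum_congr rfl fun x _ => ?_
  rw [Finset.sum_comm]
  refine Finset.sum_congr rfl fun j _ => ?_
  rw [Finset.sum_comm]

variable {Γ : Type*} [AddCommGroup Γ] [Fintype Γ] {e : J → Γ}

theorem lat_err (r l : ℕ) (T : (ι → ℝ) →ₗ[ℝ] Y)
    (hmono : ∀ a b : ι → ℝ, (∀ i, |a i| ≤ |b i|) → ‖T a‖ ≤ ‖T b‖)
    {q K a b b1 : ℝ} (hq : 2 ≤ q) (hK : 0 ≤ K)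
    (hconc : ∀ a : J → ι → ℝ, ∑ j, ‖T (a j)‖ ^ q ≤
      K ^ q * ‖T (fun i => (∑ j, |a j i| ^ q) ^ (1 / q))‖ ^ q)
    (f : Γ → ι → ℝ) (a0 : 0 ≤ a) (b0 : 0 ≤ b) (b10 : 0 ≤ b1)
    (hta : ∑ x, ∑ j, (‖T (f (x + (2 * l) • e j))‖ + ‖T (f x)‖) ^ q ≤
      (Fintype.card Γ : ℝ) * Fintype.card J * a ^ q)
    (hb0 : ∑ x, ∑ ε : J → Bool, ‖T (f (x + sft e ε)) - T (f x)‖ ^ q ≤
      2 ^ (Fintype.card J) * ((Fintype.card Γ : ℝ) * b ^ q))
    (hb1 : ∑ x, ∑ j, ∑ ε : J → Bool, ‖T (f (x + sfj e j ε)) - T (f x)‖ ^ q ≤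
      2 ^ (Fintype.card J) * ((Fintype.card Γ : ℝ) * Fintype.card J * b1 ^ q))
    (hb2 : ∑ x, ∑ j, ∑ ε : J → Bool, ‖T (f (x + (2 * l) • e j)) -
      T (f (x + (2 * l) • e j + sfj e j ε))‖ ^ q ≤
      2 ^ (Fintype.card J) * ((Fintype.card Γ : ℝ) * Fintype.card J * b1 ^ q)) :
    ∃ Φ : ℝ, 0 ≤ Φ ∧ ∀ s0 : ℝ, 0 < s0 →
    ∑ x, ∑ j, ‖T (f (x + (2 * l) • e j)) - T (f x)‖ ^ q ≤
      32 * ((∑ x, ∑ j, ‖T (f (x + (2 * l) • e j)) - T (f x)‖ ^ q) ^ ((q - 1) / q) *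
      (((Fintype.card Γ : ℝ) * Fintype.card J) ^ (1 / q) * (a ^ ((((2 ^ (r + 1) : ℕ) : ℝ))⁻¹) *
        b1 ^ (1 - (((2 ^ (r + 1) : ℕ) : ℝ))⁻¹))) +
      K * (Fintype.card J : ℝ) ^ ((((2 ^ (r + 1) : ℕ) : ℝ))⁻¹) * (l *
      (ck r ^ ((((2 ^ (r + 1) : ℕ) : ℝ))⁻¹) *
      ((∑ x, ∑ j, ‖T (f (x + (2 * l) • e j)) - T (f x)‖ ^ q) ^ ((q - 1) / q) *
      ((Fintype.card J : ℝ) ^ ((((2 ^ (r + 1) : ℕ) : ℝ))⁻¹ / q) * ((Fintype.card Γ : ℝ) ^ (1 / q) *
        (a ^ ((((2 ^ (r + 1) : ℕ) : ℝ))⁻¹) * b ^ (1 - (((2 ^ (r + 1) : ℕ) : ℝ))⁻¹)))))))) +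
      Φ * s0 := by
  have hq0 : 0 < q := by linarith
  have hwr := wr_pos r
  choose g hg1 hg2 using fun (j : J) (x : Γ) =>
    exists_dual_vector'' ℝ (T (f (x + (2 * l) • e j)) - T (f x))
  obtain ⟨y, hy⟩ : ∃ y : J → Γ → ι → ℝ, ∀ j x c, ∑ i, y j x i * c i = g j x (T c) := by
    refine ⟨fun j x i => g j x (T fun i' => if i = i' then 1 else 0), fun j x c => ?_⟩
    rw [LinearMap.pi_apply_eq_sum_univ T c, map_sum]
    refine Finset.sum_congr rfl fun i _ => ?_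
    rw [map_smul, smul_eq_mul, mul_comm]
  have hyle : ∀ j x c, ∑ i, y j x i * c i ≤ ‖T c‖ := by
    intro j x c
    rw [hy]
    refine (le_abs_self _).trans ?_
    rw [← Real.norm_eq_abs]
    refine ((g j x).le_opNorm _).trans ?_
    calc ‖g j x‖ * ‖T c‖ ≤ 1 * ‖T c‖ := mul_le_mul_of_nonneg_right (hg1 j x) (norm_nonneg _)
      _ = _ := one_mul _
  set F : J → Γ → ℝ := fun j x => ‖T (f (x + (2 * l) • e j)) - T (f x)‖ with hF
  have F0 : ∀ j x, 0 ≤ F j x := fun j x => norm_nonneg _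
  have hFy : ∀ j x, F j x = ∑ i, y j x i * (f (x + (2 * l) • e j) i - f x i) := by
    intro j x
    have h1 := hy j x (f (x + (2 * l) • e j) - f x)
    rw [map_sub, hg2] at h1
    exact h1.symm
  set lam : ι → J → Γ → ℝ := fun i j x => F j x ^ (q - 1) * y j x i with hlam
  refine ⟨2 * ∑ i, ∑ x, ∑ j, |lam i j x|, by positivity, fun s0 hs => ?_⟩
  have hρ := wr_ge r
  have hρ0 := wr_pos r
  -- choose the number of scales
  obtain ⟨Bd, hBd⟩ : ∃ Bd : ℝ, ∀ x i, |f x i| ≤ Bd := by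
    refine ⟨∑ x, ∑ i, |f x i|, fun x i => ?_⟩
    refine le_trans ?_ (Finset.single_le_sum (f := fun x => ∑ i, |f x i|)
      (fun x _ => Finset.sum_nonneg fun i _ => abs_nonneg _) (Finset.mem_univ x))
    exact Finset.single_le_sum (f := fun i => |f x i|) (fun i _ => abs_nonneg _) (Finset.mem_univ i)
  obtain ⟨M, hM⟩ := pow_unbounded_of_one_lt (Bd / s0) (by linarith : (1 : ℝ) < wr r)
  have hMs : ∀ x i, |f x i| ≤ wsc (wr r) s0 M := by
    intro x i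
    refine (hBd x i).trans ?_
    unfold wsc
    rw [div_lt_iff₀ hs] at hM
    linarith
  have hdec : ∀ i j x, f (x + (2 * l) • e j) i - f x i =
      ∑ κ ∈ Finset.range M, hi (wsc (wr r) s0 κ) (|f (x + (2 * l) • e j) i| + |f x i|) *
        (pc (wsc (wr r) s0 κ) (wsc (wr r) s0 (κ + 1)) (f (x + (2 * l) • e j) i) -
          pc (wsc (wr r) s0 κ) (wsc (wr r) s0 (κ + 1)) (f x i)) +
      (cl s0 (f (x + (2 * l) • e j) i) - cl s0 (f x i)) := by
    intro i j x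
    have h1 : ∀ κ ∈ Finset.range M, hi (wsc (wr r) s0 κ) (|f (x + (2 * l) • e j) i| + |f x i|) *
        (pc (wsc (wr r) s0 κ) (wsc (wr r) s0 (κ + 1)) (f (x + (2 * l) • e j) i) -
          pc (wsc (wr r) s0 κ) (wsc (wr r) s0 (κ + 1)) (f x i)) =
        pc (wsc (wr r) s0 κ) (wsc (wr r) s0 (κ + 1)) (f (x + (2 * l) • e j) i) -
          pc (wsc (wr r) s0 κ) (wsc (wr r) s0 (κ + 1)) (f x i) := by
      intro κ _
      have hp := wsc_pos hρ0 hs κ
      exact (pc_hi (by rw [wsc_succ]; nlinarith) (le_add_of_nonneg_right (abs_nonneg _))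
        (le_add_of_nonneg_left (abs_nonneg _))).symm
    rw [Finset.sum_congr rfl h1, Finset.sum_sub_distrib, pc_sum (fun κ => wsc (wr r) s0 κ),
      pc_sum (fun κ => wsc (wr r) s0 κ), cl_eq (hMs _ _), cl_eq (hMs _ _)]
    have : wsc (wr r) s0 0 = s0 := by unfold wsc; simp
    rw [this]; ring
  -- X as a sum
  have hX : ∑ x, ∑ j, F j x ^ q = ∑ i, ((∑ κ ∈ Finset.range M, ∑ x, ∑ j,
      (lam i j x * hi (wsc (wr r) s0 κ) (|f (x + (2 * l) • e j) i| + |f x i|)) *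
      (pc (wsc (wr r) s0 κ) (wsc (wr r) s0 (κ + 1)) (f (x + (2 * l) • e j) i) -
        pc (wsc (wr r) s0 κ) (wsc (wr r) s0 (κ + 1)) (f x i))) +
      ∑ x, ∑ j, lam i j x * (cl s0 (f (x + (2 * l) • e j) i) - cl s0 (f x i))) := by
    have e1 : ∀ x j, F j x ^ q = ∑ i, lam i j x * (f (x + (2 * l) • e j) i - f x i) := by
      intro x j
      have h1 : F j x ^ q = F j x ^ (q - 1) * F j x := by
        have h2 : F j x ^ (q - 1 + 1) = F j x ^ (q - 1) * F j x ^ (1 : ℝ) :=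
          Real.rpow_add_of_nonneg (F0 j x) (by linarith) (by norm_num)
        rw [Real.rpow_one] at h2
        rw [← h2]; congr 1; ring
      rw [h1]
      conv_lhs => rw [hFy j x]
      rw [← hFy j x, hFy j x, Finset.mul_sum]
      refine Finset.sum_congr rfl fun i _ => ?_
      rw [hlam]; dsimp only
      rw [← hFy j x]; ring
    simp only [e1]
    have e2 : ∑ x, ∑ j, ∑ i, lam i j x * (f (x + (2 * l) • e j) i - f x i) =
        ∑ i, ∑ x, ∑ j, lam i j x * (f (x + (2 * l) • e j) i - f x i) := by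
      rw [Finset.sum_comm' (s := Finset.univ) (t := fun _ => Finset.univ) (t' := Finset.univ)
        (s' := fun _ => Finset.univ) (by simp)]
      rw [Finset.sum_comm]
      have : ∀ x : Γ, ∑ j, ∑ i, lam i j x * (f (x + (2 * l) • e j) i - f x i) =
          ∑ i, ∑ j, lam i j x * (f (x + (2 * l) • e j) i - f x i) := fun x => Finset.sum_comm
      simp only [this]
      exact Finset.sum_comm
    rw [e2]
    refine Finset.sum_congr rfl fun i _ => ?_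
    rw [Finset.sum_comm (s := Finset.range M), ← Finset.sum_add_distrib]
    refine Finset.sum_congr rfl fun x _ => ?_
    rw [Finset.sum_comm, ← Finset.sum_add_distrib]
    refine Finset.sum_congr rfl fun j _ => ?_
    conv_lhs => rw [hdec i j x]
    rw [mul_add, Finset.mul_sum]
    congr 1
    refine Finset.sum_congr rfl fun κ _ => ?_
    ring
  obtain ⟨X, hXd⟩ : ∃ X, X = ∑ x, ∑ j, F j x ^ q := ⟨_, rfl⟩
  obtain ⟨Tn, hTn⟩ : ∃ Tn : ℝ, Tn = 2 ^ (Fintype.card J) := ⟨_, rfl⟩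
  have hTn0 : 0 < Tn := by rw [hTn]; positivity
  set tt : J → Γ → ℝ := fun j x => ‖T (f (x + (2 * l) • e j))‖ + ‖T (f x)‖ with htt
  have tt0 : ∀ j x, 0 ≤ tt j x := fun j x => add_nonneg (norm_nonneg _) (norm_nonneg _)
  obtain ⟨S, hS⟩ : ∃ S : ι → ℝ, ∀ i, S i = ∑ κ ∈ Finset.range M, ∑ x, ∑ j,
      (lam i j x * hi (wsc (wr r) s0 κ) (|f (x + (2 * l) • e j) i| + |f x i|)) *
      (pc (wsc (wr r) s0 κ) (wsc (wr r) s0 (κ + 1)) (f (x + (2 * l) • e j) i) -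
        pc (wsc (wr r) s0 κ) (wsc (wr r) s0 (κ + 1)) (f x i)) := ⟨_, fun i => rfl⟩
  obtain ⟨Rr, hRr⟩ : ∃ Rr : ι → ℝ, ∀ i, Rr i = ∑ x, ∑ j, lam i j x *
      (cl s0 (f (x + (2 * l) • e j) i) - cl s0 (f x i)) := ⟨_, fun i => rfl⟩
  have hXS : X = ∑ i, (S i + Rr i) := by
    rw [hXd, hX]
    refine Finset.sum_congr rfl fun i _ => ?_
    rw [hS, hRr]
  have hRb : ∀ i, |Rr i| ≤ (∑ x, ∑ j, |lam i j x|) * (2 * s0) := by
    intro i
    rw [hRr, Finset.sum_mul]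
    refine (Finset.abs_sum_le_sum_abs _ _).trans (Finset.sum_le_sum fun x _ => ?_)
    rw [Finset.sum_mul]
    refine (Finset.abs_sum_le_sum_abs _ _).trans (Finset.sum_le_sum fun j _ => ?_)
    rw [abs_mul]
    refine mul_le_mul_of_nonneg_left ?_ (abs_nonneg _)
    have h1 := cl_bound hs.le (f (x + (2 * l) • e j) i)
    have h2 := cl_bound hs.le (f x i)
    rw [abs_le]; constructor <;> linarith
  have hR : ∑ i, |Rr i| ≤ 2 * (∑ i, ∑ x, ∑ j, |lam i j x|) * s0 := by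
    refine (Finset.sum_le_sum fun i _ => hRb i).trans (le_of_eq ?_)
    rw [← Finset.sum_mul]; ring
  -- the main part
  have hmain : Tn * ∑ i, |S i| ≤ 2 * (8 * (Tn * (X ^ ((q - 1) / q) *
      (((Fintype.card Γ : ℝ) * Fintype.card J) ^ (1 / q) * (a ^ ((((2 ^ (r + 1) : ℕ) : ℝ))⁻¹) *
        b1 ^ (1 - (((2 ^ (r + 1) : ℕ) : ℝ))⁻¹)))))) +
      2 * (8 * (Tn * (X ^ ((q - 1) / q) *
      (((Fintype.card Γ : ℝ) * Fintype.card J) ^ (1 / q) * (a ^ ((((2 ^ (r + 1) : ℕ) : ℝ))⁻¹) *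
        b1 ^ (1 - (((2 ^ (r + 1) : ℕ) : ℝ))⁻¹)))))) +
      2 * (l * (16 * K * ((Fintype.card J : ℝ) ^ ((((2 ^ (r + 1) : ℕ) : ℝ))⁻¹) *
      (Tn * (ck r ^ ((((2 ^ (r + 1) : ℕ) : ℝ))⁻¹) *
      (X ^ ((q - 1) / q) *
      ((Fintype.card J : ℝ) ^ ((((2 ^ (r + 1) : ℕ) : ℝ))⁻¹ / q) * ((Fintype.card Γ : ℝ) ^ (1 / q) *
        (a ^ ((((2 ^ (r + 1) : ℕ) : ℝ))⁻¹) * b ^ (1 - (((2 ^ (r + 1) : ℕ) : ℝ))⁻¹)))))))))) := by
    have hc := fun i => coord (e := e) r l M (rfl : wr r = wr r) hs (fun x => f x i) (lam i)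
    simp only [← hS] at hc
    rw [← hTn] at hc
    rw [Finset.mul_sum]
    refine (Finset.sum_le_sum fun i _ => hc i).trans ?_
    rw [Finset.sum_add_distrib, Finset.sum_add_distrib, ← Finset.mul_sum]
    refine add_le_add (add_le_add ?_ ?_) (mul_le_mul_of_nonneg_left ?_ (by norm_num))
    · rw [sw4]
      have h1 : ∀ x j (ε : J → Bool), ∑ i, |lam i j x| *
          (2 * ((4 * wr r * (|f (x + (2 * l) • e j) i| + |f x i|)) ^ ((((2 ^ (r + 1) : ℕ) : ℝ))⁻¹) *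
          (4 * |f (x + (2 * l) • e j) i - f (x + (2 * l) • e j + sfj e j ε) i|) ^
            (1 - (((2 ^ (r + 1) : ℕ) : ℝ))⁻¹))) ≤
          2 * ((F j x ^ (q - 1) * (4 * wr r * tt j x) ^ ((((2 ^ (r + 1) : ℕ) : ℝ))⁻¹)) *
            (4 * ‖T (f (x + (2 * l) • e j)) - T (f (x + (2 * l) • e j + sfj e j ε))‖) ^
              (1 - (((2 ^ (r + 1) : ℕ) : ℝ))⁻¹)) := by
        intro x j ε
        have h2 := pieceE r T hmono (y j x) (hyle j x)
          (fun i => |f (x + (2 * l) • e j) i| + |f x i|)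
          (fun i => |f (x + (2 * l) • e j) i - f (x + (2 * l) • e j + sfj e j ε) i|)
          (fun i => add_nonneg (abs_nonneg _) (abs_nonneg _)) (fun i => abs_nonneg _)
          (T_abs_add T hmono _ _) (T_abs_sub T hmono _ _)
        have h3 := mul_le_mul_of_nonneg_left h2
          (mul_nonneg (by norm_num : (0 : ℝ) ≤ 2) (Real.rpow_nonneg (F0 j x) (q - 1)))
        refine le_trans (le_of_eq ?_) (h3.trans (le_of_eq (by ring)))
        rw [Finset.mul_sum]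
        refine Finset.sum_congr rfl fun i _ => ?_
        rw [hlam]; dsimp only
        rw [abs_mul, abs_of_nonneg (Real.rpow_nonneg (F0 j x) _)]; ring
      refine (Finset.sum_le_sum fun x _ => Finset.sum_le_sum fun j _ =>
        Finset.sum_le_sum fun ε _ => h1 x j ε).trans ?_
      simp only [← Finset.mul_sum]
      refine mul_le_mul_of_nonneg_left ?_ (by norm_num)
      rw [hXd, hTn]
      have hes := end_sum r F tt (fun x j ε => ‖T (f (x + (2 * l) • e j)) -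
        T (f (x + (2 * l) • e j + sfj e j ε))‖) F0 tt0 (fun _ _ _ => norm_nonneg _) hq a0 b10 hta hb2
      simp only [← Finset.mul_sum] at hes
      exact hes
    · rw [sw4]
      have h1 : ∀ x j (ε : J → Bool), ∑ i, |lam i j x| *
          (2 * ((4 * wr r * (|f (x + (2 * l) • e j) i| + |f x i|)) ^ ((((2 ^ (r + 1) : ℕ) : ℝ))⁻¹) *
          (4 * |f (x + sfj e j ε) i - f x i|) ^ (1 - (((2 ^ (r + 1) : ℕ) : ℝ))⁻¹))) ≤
          2 * ((F j x ^ (q - 1) * (4 * wr r * tt j x) ^ ((((2 ^ (r + 1) : ℕ) : ℝ))⁻¹)) *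
            (4 * ‖T (f (x + sfj e j ε)) - T (f x)‖) ^ (1 - (((2 ^ (r + 1) : ℕ) : ℝ))⁻¹)) := by
        intro x j ε
        have h2 := pieceE r T hmono (y j x) (hyle j x)
          (fun i => |f (x + (2 * l) • e j) i| + |f x i|)
          (fun i => |f (x + sfj e j ε) i - f x i|)
          (fun i => add_nonneg (abs_nonneg _) (abs_nonneg _)) (fun i => abs_nonneg _)
          (T_abs_add T hmono _ _) (T_abs_sub T hmono _ _)
        have h3 := mul_le_mul_of_nonneg_left h2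
          (mul_nonneg (by norm_num : (0 : ℝ) ≤ 2) (Real.rpow_nonneg (F0 j x) (q - 1)))
        refine le_trans (le_of_eq ?_) (h3.trans (le_of_eq (by ring)))
        rw [Finset.mul_sum]
        refine Finset.sum_congr rfl fun i _ => ?_
        rw [hlam]; dsimp only
        rw [abs_mul, abs_of_nonneg (Real.rpow_nonneg (F0 j x) _)]; ring
      refine (Finset.sum_le_sum fun x _ => Finset.sum_le_sum fun j _ =>
        Finset.sum_le_sum fun ε _ => h1 x j ε).trans ?_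
      simp only [← Finset.mul_sum]
      refine mul_le_mul_of_nonneg_left ?_ (by norm_num)
      rw [hXd, hTn]
      have hes := end_sum r F tt (fun x j ε => ‖T (f (x + sfj e j ε)) - T (f x)‖) F0 tt0
        (fun _ _ _ => norm_nonneg _) hq a0 b10 hta hb1
      simp only [← Finset.mul_sum] at hes
      exact hes
    · rw [Finset.sum_comm]
      obtain ⟨Bm, hBm⟩ : ∃ Bm : ℝ, Bm = 16 * K * ((Fintype.card J : ℝ) ^ ((((2 ^ (r + 1) : ℕ) : ℝ))⁻¹) *
          (Tn * (ck r ^ ((((2 ^ (r + 1) : ℕ) : ℝ))⁻¹) *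
          (X ^ ((q - 1) / q) *
          ((Fintype.card J : ℝ) ^ ((((2 ^ (r + 1) : ℕ) : ℝ))⁻¹ / q) *
          ((Fintype.card Γ : ℝ) ^ (1 / q) *
          (a ^ ((((2 ^ (r + 1) : ℕ) : ℝ))⁻¹) * b ^ (1 - (((2 ^ (r + 1) : ℕ) : ℝ))⁻¹)))))))) := ⟨_, rfl⟩
      refine (Finset.sum_le_card_nsmul _ _ Bm fun m _ => ?_).trans (le_of_eq ?_)
      · rw [Finset.sum_comm]
        have hck : 0 ≤ ck r := by unfold ck; positivity
        have h1 : ∀ z : Γ, ∑ i, 2 * ((2 ^ (Fintype.card J) * ck r) ^ ((((2 ^ (r + 1) : ℕ) : ℝ))⁻¹) *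
            Real.sqrt (∑ j, (|lam i j (z - (2 * m + 1) • e j)| *
            (4 * wr r * (|f (z - (2 * m + 1) • e j + (2 * l) • e j) i| +
              |f (z - (2 * m + 1) • e j) i|)) ^ ((((2 ^ (r + 1) : ℕ) : ℝ))⁻¹)) ^ 2) *
            (∑ ε : J → Bool, 4 * |f (z + sft e ε) i - f z i|) ^
              (1 - (((2 ^ (r + 1) : ℕ) : ℝ))⁻¹)) ≤
            16 * K * ((2 ^ (Fintype.card J) * ck r) ^ ((((2 ^ (r + 1) : ℕ) : ℝ))⁻¹) *
            ((∑ j, F j (z - (2 * m + 1) • e j) ^ q) ^ ((q - 1) / q) *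
            ((∑ j, tt j (z - (2 * m + 1) • e j)) ^ ((((2 ^ (r + 1) : ℕ) : ℝ))⁻¹) *
            (∑ ε : J → Bool, ‖T (f (z + sft e ε)) - T (f z)‖) ^
              (1 - (((2 ^ (r + 1) : ℕ) : ℝ))⁻¹)))) := by
          intro z
          have h2 := pieceM r T hmono hq hK hconc (fun j => y j (z - (2 * m + 1) • e j))
            (fun j c => hyle j _ c) (fun j => F j (z - (2 * m + 1) • e j)) (fun j => F0 _ _)
            (fun j i => |f (z - (2 * m + 1) • e j + (2 * l) • e j) i| +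
              |f (z - (2 * m + 1) • e j) i|)
            (fun j i => add_nonneg (abs_nonneg _) (abs_nonneg _))
            (fun ε i => |f (z + sft e ε) i - f z i|) (fun ε i => abs_nonneg _)
            (fun j => tt j (z - (2 * m + 1) • e j))
            (fun ε => ‖T (f (z + sft e ε)) - T (f z)‖)
            (fun j => T_abs_add T hmono _ _) (fun ε => T_abs_sub T hmono _ _)
          have h3 := mul_le_mul_of_nonneg_left h2
            (mul_nonneg (by norm_num : (0 : ℝ) ≤ 2)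
              (Real.rpow_nonneg (mul_nonneg (by positivity : (0 : ℝ) ≤ 2 ^ (Fintype.card J)) hck)
                ((((2 ^ (r + 1) : ℕ) : ℝ))⁻¹)))
          refine le_trans (le_of_eq ?_) (h3.trans (le_of_eq (by ring)))
          rw [Finset.mul_sum]
          refine Finset.sum_congr rfl fun i _ => ?_
          ring
        simp only [← hTn] at h1
        refine (Finset.sum_le_sum fun z _ => h1 z).trans ?_
        rw [← Finset.mul_sum, hBm]
        refine mul_le_mul_of_nonneg_left ?_ (by positivity)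
        rw [hXd, hTn]
        exact mid_sum2 r F tt (fun z ε => ‖T (f (z + sft e ε)) - T (f z)‖) F0 tt0
          (fun _ _ => norm_nonneg _) hq a0 b0 (fun j z => z - (2 * m + 1) • e j)
          (fun j => (Equiv.subRight ((2 * m + 1) • e j)).bijective) hta hb0
      · rw [Finset.card_range, nsmul_eq_mul, hBm]
  have hfin : Tn * X ≤ Tn * (32 * (X ^ ((q - 1) / q) *
      (((Fintype.card Γ : ℝ) * Fintype.card J) ^ (1 / q) * (a ^ ((((2 ^ (r + 1) : ℕ) : ℝ))⁻¹) *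
        b1 ^ (1 - (((2 ^ (r + 1) : ℕ) : ℝ))⁻¹))) +
      K * (Fintype.card J : ℝ) ^ ((((2 ^ (r + 1) : ℕ) : ℝ))⁻¹) * (l *
      (ck r ^ ((((2 ^ (r + 1) : ℕ) : ℝ))⁻¹) *
      (X ^ ((q - 1) / q) *
      ((Fintype.card J : ℝ) ^ ((((2 ^ (r + 1) : ℕ) : ℝ))⁻¹ / q) * ((Fintype.card Γ : ℝ) ^ (1 / q) *
        (a ^ ((((2 ^ (r + 1) : ℕ) : ℝ))⁻¹) * b ^ (1 - (((2 ^ (r + 1) : ℕ) : ℝ))⁻¹)))))))) +
      2 * (∑ i, ∑ x, ∑ j, |lam i j x|) * s0) := by
    have h1 : X ≤ ∑ i, |S i| + ∑ i, |Rr i| := by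
      rw [hXS, ← Finset.sum_add_distrib]
      exact Finset.sum_le_sum fun i _ => add_le_add (le_abs_self _) (le_abs_self _)
    have h2 : Tn * X ≤ Tn * ∑ i, |S i| + Tn * ∑ i, |Rr i| := by
      rw [← mul_add]; exact mul_le_mul_of_nonneg_left h1 hTn0.le
    have h3 := mul_le_mul_of_nonneg_left hR hTn0.le
    refine (h2.trans (add_le_add hmain h3)).trans (le_of_eq ?_)
    ring
  have := le_of_mul_le_mul_left hfin hTn0
  rw [hXd] at this
  exact this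

end TH364.SG
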