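import Mathlib
import Pool.Agent.TH364.SG.Z4
set_option autoImplicit false
set_option linter.unusedSectionVars false

/-! The weighted inequality for functions with values in the range of a q-concave lattice model. -/

namespace TH364.SG

open Finset Filter Topology

universe u v
variable {J : Type v} [Fintype J] [DecidableEq J] [Nonempty J]
variable {Y : Type u} [NormedAddCommGroup Y] [NormedSpace ℝ Y]
variable {ι : Type} [Fintype ι] [DecidableEq ι]
variable {Γ : Type*} [AddCommGroup Γ] [Fintype Γ] {e : J → Γ}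

theorem lat_torus (r l : ℕ) (T : (ι → ℝ) →ₗ[ℝ] Y)
    (hmono : ∀ a b : ι → ℝ, (∀ i, |a i| ≤ |b i|) → ‖T a‖ ≤ ‖T b‖)
    {q K a b b1 : ℝ} (hq : 2 ≤ q) (hK : 1 ≤ K)
    (hconc : ∀ a : J → ι → ℝ, ∑ j, ‖T (a j)‖ ^ q ≤
      K ^ q * ‖T (fun i => (∑ j, |a j i| ^ q) ^ (1 / q))‖ ^ q)
    (F : Γ → Y) (hF : ∀ x, F x ∈ LinearMap.range T) (x0 : Γ) (a0 : 0 ≤ a) (b0 : 0 ≤ b) (b10 : 0 ≤ b1)
    (ha : ∑ x, ‖F x - F x0‖ ^ q ≤ (Fintype.card Γ : ℝ) * a ^ q)
    (hb0 : ∑ x, ∑ ε : J → Bool, ‖F (x + sft e ε) - F x‖ ^ q ≤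
      2 ^ (Fintype.card J) * ((Fintype.card Γ : ℝ) * b ^ q))
    (hb1 : ∑ x, ∑ j, ∑ ε : J → Bool, ‖F (x + sfj e j ε) - F x‖ ^ q ≤
      2 ^ (Fintype.card J) * ((Fintype.card Γ : ℝ) * Fintype.card J * b1 ^ q)) :
    (∑ x, ∑ j, ‖F (x + (2 * l) • e j) - F x‖ ^ q) ^ (1 / q) ≤
      64 * (K * (Fintype.card J : ℝ) ^ ((((2 ^ (r + 1) : ℕ) : ℝ))⁻¹)) *
        BB r l q a b b1 (Fintype.card Γ) (Fintype.card J) := by
  have hq0 : 0 < q := by linarith
  have hK0 : 0 ≤ K := by linarith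
  have hβ := be_pos r
  unfold be at hβ
  have hα : 0 < (((2 ^ (r + 1) : ℕ) : ℝ))⁻¹ := by positivity
  have hα1 : (((2 ^ (r + 1) : ℕ) : ℝ))⁻¹ ≤ 1 := by
    apply inv_le_one_of_one_le₀
    exact_mod_cast Nat.one_le_two_pow
  have hck : 0 ≤ ck r := by unfold ck; positivity
  have hn1 : (1 : ℝ) ≤ Fintype.card J := by exact_mod_cast Fintype.card_pos
  have hN0 : (0 : ℝ) < Fintype.card Γ := by exact_mod_cast Fintype.card_pos_iff.2 ⟨0⟩
  choose f0 hf0 using hF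
  set f : Γ → ι → ℝ := fun x => f0 x - f0 x0 with hf
  have hTf : ∀ x, T (f x) = F x - F x0 := by
    intro x; rw [hf]; dsimp only; rw [map_sub, hf0, hf0]
  have hdiff : ∀ x z, T (f x) - T (f z) = F x - F z := by
    intro x z; rw [hTf, hTf]; abel
  -- the bound on the sizes
  have hta : ∑ x, ∑ j, (‖T (f (x + (2 * l) • e j))‖ + ‖T (f x)‖) ^ q ≤
      (Fintype.card Γ : ℝ) * Fintype.card J * (2 * a) ^ q := by
    have h1 := Real.Lp_add_le_of_nonneg (Finset.univ : Finset (Γ × J)) (by linarith : 1 ≤ q)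
      (f := fun p => ‖T (f (p.1 + (2 * l) • e p.2))‖) (g := fun p => ‖T (f p.1)‖)
      (fun _ _ => norm_nonneg _) (fun _ _ => norm_nonneg _)
    simp only [Fintype.sum_prod_type] at h1
    have s2 : ∑ x, ∑ _j : J, ‖T (f x)‖ ^ q ≤ (Fintype.card Γ : ℝ) * Fintype.card J * a ^ q := by
      simp only [Finset.sum_const, Finset.card_univ, nsmul_eq_mul, ← Finset.mul_sum, hTf]
      have := mul_le_mul_of_nonneg_left ha (show (0 : ℝ) ≤ Fintype.card J by positivity)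
      linarith
    have s1 : ∑ x, ∑ j, ‖T (f (x + (2 * l) • e j))‖ ^ q ≤
        (Fintype.card Γ : ℝ) * Fintype.card J * a ^ q := by
      refine le_trans (le_of_eq ?_) s2
      rw [Finset.sum_comm]
      rw [Finset.sum_comm (s := (Finset.univ : Finset Γ))]
      refine Finset.sum_congr rfl fun j _ => ?_
      exact Equiv.sum_comp (Equiv.addRight ((2 * l) • e j)) (fun x => ‖T (f x)‖ ^ q)
    have p1 : 0 ≤ ∑ x, ∑ j, ‖T (f (x + (2 * l) • e j))‖ ^ q := Finset.sum_nonneg fun x _ =>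
      Finset.sum_nonneg fun j _ => Real.rpow_nonneg (norm_nonneg _) _
    have p2 : 0 ≤ ∑ x, ∑ _j : J, ‖T (f x)‖ ^ q := Finset.sum_nonneg fun x _ =>
      Finset.sum_nonneg fun j _ => Real.rpow_nonneg (norm_nonneg _) _
    have p3 : 0 ≤ ∑ x, ∑ j, (‖T (f (x + (2 * l) • e j))‖ + ‖T (f x)‖) ^ q :=
      Finset.sum_nonneg fun x _ => Finset.sum_nonneg fun j _ => Real.rpow_nonneg (by positivity) _
    obtain ⟨D, hD⟩ : ∃ D : ℝ, D = ((Fintype.card Γ : ℝ) * Fintype.card J) ^ (1 / q) * a := ⟨_, rfl⟩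
    have hD0 : 0 ≤ D := by rw [hD]; positivity
    have hDq : ((Fintype.card Γ : ℝ) * Fintype.card J * a ^ q) ^ (1 / q) = D := by
      rw [Real.mul_rpow (by positivity) (Real.rpow_nonneg a0 _), ← Real.rpow_mul a0,
        mul_one_div_cancel hq0.ne', Real.rpow_one, hD]
    have h2 : (∑ x, ∑ j, (‖T (f (x + (2 * l) • e j))‖ + ‖T (f x)‖) ^ q) ^ (1 / q) ≤ 2 * D := by
      refine h1.trans ?_
      have u1 := Real.rpow_le_rpow p1 s1 (by positivity : 0 ≤ 1 / q)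
      have u2 := Real.rpow_le_rpow p2 s2 (by positivity : 0 ≤ 1 / q)
      rw [hDq] at u1 u2
      linarith
    have h3 := Real.rpow_le_rpow (Real.rpow_nonneg p3 _) h2 hq0.le
    rw [← Real.rpow_mul p3, one_div_mul_cancel hq0.ne', Real.rpow_one] at h3
    refine h3.trans (le_of_eq ?_)
    rw [hD, show 2 * (((Fintype.card Γ : ℝ) * Fintype.card J) ^ (1 / q) * a) =
      ((Fintype.card Γ : ℝ) * Fintype.card J) ^ (1 / q) * (2 * a) by ring,
      Real.mul_rpow (by positivity) (by positivity), ← Real.rpow_mul (by positivity),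
      one_div_mul_cancel hq0.ne', Real.rpow_one]
  have hb2 : ∑ x, ∑ j, ∑ ε : J → Bool, ‖T (f (x + (2 * l) • e j)) -
      T (f (x + (2 * l) • e j + sfj e j ε))‖ ^ q ≤
      2 ^ (Fintype.card J) * ((Fintype.card Γ : ℝ) * Fintype.card J * b1 ^ q) := by
    simp only [hdiff]
    refine le_trans (le_of_eq ?_) hb1
    rw [Finset.sum_comm]
    rw [Finset.sum_comm (s := (Finset.univ : Finset Γ))]
    refine Finset.sum_congr rfl fun j _ => ?_
    rw [← Equiv.sum_comp (Equiv.addRight ((2 * l) • e j))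
      (fun x => ∑ ε : J → Bool, ‖F (x + sfj e j ε) - F x‖ ^ q)]
    refine Finset.sum_congr rfl fun x _ => Finset.sum_congr rfl fun ε _ => ?_
    rw [norm_sub_rev]
    rfl
  obtain ⟨Φ, hΦ0, hmain⟩ := lat_err r l T hmono hq hK0 hconc f (a := 2 * a) (b := b) (b1 := b1)
    (by positivity) b0 b10 hta (by simp only [hdiff]; exact hb0) (by simp only [hdiff]; exact hb1) hb2
  simp only [hdiff] at hmain
  obtain ⟨X, hX⟩ : ∃ X, X = ∑ x, ∑ j, ‖F (x + (2 * l) • e j) - F x‖ ^ q := ⟨_, rfl⟩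
  rw [← hX] at hmain ⊢
  have hX0 : 0 ≤ X := by
    rw [hX]
    exact Finset.sum_nonneg fun x _ => Finset.sum_nonneg fun j _ => Real.rpow_nonneg (norm_nonneg _) _
  have hnα : (1 : ℝ) ≤ (Fintype.card J : ℝ) ^ ((((2 ^ (r + 1) : ℕ) : ℝ))⁻¹) :=
    Real.one_le_rpow hn1 hα.le
  have hKn : 1 ≤ K * (Fintype.card J : ℝ) ^ ((((2 ^ (r + 1) : ℕ) : ℝ))⁻¹) := by nlinarith
  have h2a : (2 * a) ^ ((((2 ^ (r + 1) : ℕ) : ℝ))⁻¹) ≤ 2 * a ^ ((((2 ^ (r + 1) : ℕ) : ℝ))⁻¹) := by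
    rw [Real.mul_rpow (by norm_num) a0]
    refine mul_le_mul_of_nonneg_right ?_ (Real.rpow_nonneg a0 _)
    calc (2 : ℝ) ^ ((((2 ^ (r + 1) : ℕ) : ℝ))⁻¹) ≤ 2 ^ (1 : ℝ) :=
          Real.rpow_le_rpow_of_exponent_le (by norm_num) hα1
      _ = 2 := Real.rpow_one 2
  have hBB0 : 0 ≤ BB r l q a b b1 (Fintype.card Γ) (Fintype.card J) := by
    unfold BB; positivity
  have hXt : 0 ≤ X ^ ((q - 1) / q) := Real.rpow_nonneg hX0 _
  have key : X ≤ X ^ ((q - 1) / q) * (64 * (K * (Fintype.card J : ℝ) ^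
      ((((2 ^ (r + 1) : ℕ) : ℝ))⁻¹)) * BB r l q a b b1 (Fintype.card Γ) (Fintype.card J)) := by
    apply le_of_forall_pos_le_add
    intro δ hδ
    have h := hmain (δ / (Φ + 1)) (by positivity)
    refine h.trans (add_le_add ?_ ?_)
    · unfold BB
      set α := (((2 ^ (r + 1) : ℕ) : ℝ))⁻¹ with hαd
      set N : ℝ := (Fintype.card Γ : ℝ) with hNd
      set n : ℝ := (Fintype.card J : ℝ) with hnd
      set Kn := K * n ^ α with hKnd
      have e1 : 32 * (X ^ ((q - 1) / q) * ((N * n) ^ (1 / q) * ((2 * a) ^ α * b1 ^ (1 - α))) +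
          Kn * (l * (ck r ^ α * (X ^ ((q - 1) / q) * (n ^ (α / q) * (N ^ (1 / q) *
            ((2 * a) ^ α * b ^ (1 - α)))))))) ≤
          32 * (X ^ ((q - 1) / q) * ((N * n) ^ (1 / q) * ((2 * a ^ α) * b1 ^ (1 - α))) +
          Kn * (l * (ck r ^ α * (X ^ ((q - 1) / q) * (n ^ (α / q) * (N ^ (1 / q) *
            ((2 * a ^ α) * b ^ (1 - α)))))))) := by gcongr
      refine e1.trans ?_
      have e2 : X ^ ((q - 1) / q) * ((N * n) ^ (1 / q) * ((2 * a ^ α) * b1 ^ (1 - α))) ≤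
          Kn * (X ^ ((q - 1) / q) * ((N * n) ^ (1 / q) * ((2 * a ^ α) * b1 ^ (1 - α)))) :=
        le_mul_of_one_le_left (by positivity) hKn
      calc _ ≤ 32 * (Kn * (X ^ ((q - 1) / q) * ((N * n) ^ (1 / q) * ((2 * a ^ α) * b1 ^ (1 - α)))) +
          Kn * (l * (ck r ^ α * (X ^ ((q - 1) / q) * (n ^ (α / q) * (N ^ (1 / q) *
            ((2 * a ^ α) * b ^ (1 - α)))))))) := by gcongr
        _ = _ := by ring
    · have : Φ * (δ / (Φ + 1)) = Φ / (Φ + 1) * δ := by ring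
      rw [this]
      have h2 : Φ / (Φ + 1) ≤ 1 := by rw [div_le_one (by positivity)]; linarith
      calc _ ≤ 1 * δ := mul_le_mul_of_nonneg_right h2 hδ.le
        _ = δ := one_mul δ
  rcases hX0.eq_or_lt with h0 | h0
  · rw [← h0, Real.zero_rpow (by positivity)]
    positivity
  · have hXp : 0 < X ^ ((q - 1) / q) := Real.rpow_pos_of_pos h0 _
    refine le_of_mul_le_mul_left ?_ hXp
    have e1 : X ^ ((q - 1) / q) * X ^ (1 / q) = X := by
      rw [← Real.rpow_add h0]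
      have : (q - 1) / q + 1 / q = 1 := by field_simp; ring
      rw [this, Real.rpow_one]
    rw [e1]
    exact key

end TH364.SG
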