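import Mathlib
import Pool.Agent.TH364.SG.W9
import Pool.Agent.TH364.SG.Z5
set_option autoImplicit false
set_option linter.unusedSectionVars false

/-! The averaging over patterns and the torus inequality for a general target space. -/

namespace TH364.SG

open Finset

universe u v

section avg
variable {Y : Type u} [NormedAddCommGroup Y]
variable {J : Type v} [Fintype J] [DecidableEq J] [Nonempty J]
variable {G : Type*} [AddCommGroup G] [Fintype G]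

theorem avg_gen (r k l : ℕ) (u : J → G) (F : G → Y) {q b M C : ℝ} (hq : 2 ≤ q) (hC : 0 ≤ C)
    (tor : ∀ (e : J → G) (x0 : G) (a b b1 : ℝ), 0 ≤ a → 0 ≤ b → 0 ≤ b1 →
      ∑ x, ‖F x - F x0‖ ^ q ≤ (Fintype.card G : ℝ) * a ^ q →
      ∑ x, ∑ ε : J → Bool, ‖F (x + sft e ε) - F x‖ ^ q ≤
        2 ^ (Fintype.card J) * ((Fintype.card G : ℝ) * b ^ q) →
      ∑ x, ∑ j, ∑ ε : J → Bool, ‖F (x + sfj e j ε) - F x‖ ^ q ≤
        2 ^ (Fintype.card J) * ((Fintype.card G : ℝ) * Fintype.card J * b1 ^ q) →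
      (∑ x, ∑ j, ‖F (x + (2 * l) • e j) - F x‖ ^ q) ^ (1 / q) ≤
        C * BB r l q a b b1 (Fintype.card G) (Fintype.card J))
    (b0 : 0 ≤ b) (M0 : 0 ≤ M)
    (hM : ∀ z, ∑ x, ‖F (x + z) - F x‖ ^ q ≤ (Fintype.card G : ℝ) * M ^ q)
    (hb : ∑ a : J → Fin 3, ∑ ε : J → Bool, ∑ x, ‖F (x + dv u a ε) - F x‖ ^ q ≤
      2 ^ (Fintype.card J) * (3 ^ (Fintype.card J) * ((Fintype.card G : ℝ) * b ^ q))) :
    (∑ j, ∑ x, ‖F (x + (2 * l) • (k • u j)) - F x‖ ^ q) ^ (1 / q) ≤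
      (2 * C) * ((Fintype.card G : ℝ) ^ (1 / q) * (M ^ ((((2 ^ (r + 1) : ℕ) : ℝ))⁻¹) *
        (k * b) ^ (1 - (((2 ^ (r + 1) : ℕ) : ℝ))⁻¹)) *
        (3 * (Fintype.card J : ℝ) ^ (1 / q) + l * (ck r ^ ((((2 ^ (r + 1) : ℕ) : ℝ))⁻¹) *
          (Fintype.card J : ℝ) ^ ((((2 ^ (r + 1) : ℕ) : ℝ))⁻¹ / q)))) := by
  have hβ := be_pos r
  have hβ1 := (be_lt r).le
  unfold be at hβ hβ1
  have hα : 0 < (((2 ^ (r + 1) : ℕ) : ℝ))⁻¹ := by positivity
  have hck : 0 ≤ ck r := by unfold ck; positivity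
  have hq0 : 0 < q := by linarith
  have hq1 : 1 ≤ q := by linarith
  have hN : (0 : ℝ) < Fintype.card G := by exact_mod_cast Fintype.card_pos_iff.2 ⟨0⟩
  have hn : (0 : ℝ) < Fintype.card J := by exact_mod_cast Fintype.card_pos
  have h2n : (0 : ℝ) < 2 ^ (Fintype.card J) := by positivity
  have h3n : (0 : ℝ) < 3 ^ (Fintype.card J) := by positivity
  have hc3 : (Fintype.card (J → Fin 3) : ℝ) = 3 ^ (Fintype.card J) := by
    rw [Fintype.card_fun, Fintype.card_fin]; push_cast; rfl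
  set N : ℝ := (Fintype.card G : ℝ) with hNd
  set n : ℝ := (Fintype.card J : ℝ) with hnd
  set Tn : ℝ := 2 ^ (Fintype.card J) with hTn
  set g : G → ℝ := fun z => ∑ x, ‖F (x + z) - F x‖ ^ q with hg
  have g0 : ∀ z, 0 ≤ g z := fun z => gm_nonneg F q z
  set A0 : (J → Fin 3) → ℝ := fun a => ∑ ε : J → Bool, g (dv u a ε) with hA0
  have A00 : ∀ a, 0 ≤ A0 a := fun a => Finset.sum_nonneg fun ε _ => g0 _
  have hAb : ∑ a, A0 a ≤ Tn * (3 ^ (Fintype.card J) * (N * b ^ q)) := hb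
  set A1 : (J → Fin 3) → ℝ := fun a => ∑ j, A0 (Function.update a j 0) with hA1
  have A10 : ∀ a, 0 ≤ A1 a := fun a => Finset.sum_nonneg fun j _ => A00 _
  set ba : (J → Fin 3) → ℝ := fun a => k * (A0 a / (Tn * N)) ^ (1 / q) with hba
  set b1 : (J → Fin 3) → ℝ := fun a => k * (A1 a / (Tn * N * n)) ^ (1 / q) with hb1
  have ba0 : ∀ a, 0 ≤ ba a := fun a => mul_nonneg (by positivity)
    (Real.rpow_nonneg (div_nonneg (A00 a) (by positivity)) _)
  have b10 : ∀ a, 0 ≤ b1 a := fun a => mul_nonneg (by positivity)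
    (Real.rpow_nonneg (div_nonneg (A10 a) (by positivity)) _)
  have baq : ∀ a, ba a ^ q = (k : ℝ) ^ q * (A0 a / (Tn * N)) := by
    intro a
    rw [hba]; dsimp only
    rw [Real.mul_rpow (by positivity) (Real.rpow_nonneg (div_nonneg (A00 a) (by positivity)) _),
      ← Real.rpow_mul (div_nonneg (A00 a) (by positivity)), one_div_mul_cancel hq0.ne',
      Real.rpow_one]
  have b1q : ∀ a, b1 a ^ q = (k : ℝ) ^ q * (A1 a / (Tn * N * n)) := by
    intro a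
    rw [hb1]; dsimp only
    rw [Real.mul_rpow (by positivity) (Real.rpow_nonneg (div_nonneg (A10 a) (by positivity)) _),
      ← Real.rpow_mul (div_nonneg (A10 a) (by positivity)), one_div_mul_cancel hq0.ne',
      Real.rpow_one]
  obtain ⟨x0, hx0⟩ := base_pt F hM
  -- each pattern
  have per : ∀ a : J → Fin 3, (∑ x, ∑ j, ‖F (x + (2 * l) • ea u k a j) - F x‖ ^ q) ^ (1 / q) ≤
      C * BB r l q M (ba a) (b1 a) N n := by
    intro a
    refine tor (ea u k a) x0 M (ba a) (b1 a) M0 (ba0 a) (b10 a) hx0 ?_ ?_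
    · rw [Finset.sum_comm]
      simp only [sft_ea]
      refine (Finset.sum_le_sum fun ε _ => gm_nsmul F hq1 k (dv u a ε)).trans ?_
      rw [← Finset.mul_sum, baq]
      refine le_of_eq ?_
      change (k : ℝ) ^ q * A0 a = Tn * (N * ((k : ℝ) ^ q * (A0 a / (Tn * N))))
      field_simp
    · rw [Finset.sum_comm]
      have e1 : ∀ j, ∑ x, ∑ ε : J → Bool, ‖F (x + sfj (ea u k a) j ε) - F x‖ ^ q ≤
          (k : ℝ) ^ q * A0 (Function.update a j 0) := by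
        intro j
        rw [Finset.sum_comm]
        simp only [sfj_ea]
        refine (Finset.sum_le_sum fun ε _ => gm_nsmul F hq1 k (dv u _ ε)).trans ?_
        rw [← Finset.mul_sum]
      refine (Finset.sum_le_sum fun j _ => e1 j).trans ?_
      rw [← Finset.mul_sum, b1q]
      refine le_of_eq ?_
      change (k : ℝ) ^ q * A1 a = Tn * (N * n * ((k : ℝ) ^ q * (A1 a / (Tn * N * n))))
      field_simp
  -- the left side for each pattern
  have lhs : ∀ a : J → Fin 3, ∑ x, ∑ j, ‖F (x + (2 * l) • ea u k a j) - F x‖ ^ q =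
      ∑ j, (if a j = 0 then (0 : ℝ) else 1) * g ((2 * l) • (k • u j)) := by
    intro a
    rw [Finset.sum_comm]
    refine Finset.sum_congr rfl fun j _ => ?_
    unfold ea
    split_ifs with h
    · simp [Real.zero_rpow hq0.ne']
    · rw [one_mul]
  set X : (J → Fin 3) → ℝ := fun a => ∑ j, (if a j = 0 then (0 : ℝ) else 1) *
    g ((2 * l) • (k • u j)) with hX
  have X0 : ∀ a, 0 ≤ X a := fun a => Finset.sum_nonneg fun j _ => by
    refine mul_nonneg ?_ (g0 _)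
    split_ifs <;> norm_num
  have low : (3 : ℝ) ^ (Fintype.card J) * ∑ j, g ((2 * l) • (k • u j)) ≤ 2 * ∑ a, X a := by
    have e1 : ∑ a, X a = ∑ j, (∑ a : J → Fin 3, (if a j = 0 then (0 : ℝ) else 1)) *
        g ((2 * l) • (k • u j)) := by
      rw [hX]; dsimp only
      rw [Finset.sum_comm]
      refine Finset.sum_congr rfl fun j _ => ?_
      rw [Finset.sum_mul]
    rw [e1, Finset.mul_sum, Finset.mul_sum]
    refine Finset.sum_le_sum fun j _ => ?_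
    rw [← mul_assoc]
    exact mul_le_mul_of_nonneg_right (half_sum j) (g0 _)
  set c1 : ℝ := C * ((N * n) ^ (1 / q) * M ^ ((((2 ^ (r + 1) : ℕ) : ℝ))⁻¹)) with hc1
  set c2 : ℝ := C * (l * (ck r ^ ((((2 ^ (r + 1) : ℕ) : ℝ))⁻¹) *
    (n ^ ((((2 ^ (r + 1) : ℕ) : ℝ))⁻¹ / q) * (N ^ (1 / q) * M ^ ((((2 ^ (r + 1) : ℕ) : ℝ))⁻¹)))))
    with hc2
  have c10 : 0 ≤ c1 := by positivity
  have c20 : 0 ≤ c2 := by positivity
  have hXa : ∀ a, X a ≤ (c1 * b1 a ^ (1 - (((2 ^ (r + 1) : ℕ) : ℝ))⁻¹) +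
      c2 * ba a ^ (1 - (((2 ^ (r + 1) : ℕ) : ℝ))⁻¹)) ^ q := by
    intro a
    have h := per a
    rw [lhs a] at h
    have h2 := Real.rpow_le_rpow (Real.rpow_nonneg (X0 a) _) h hq0.le
    rw [← Real.rpow_mul (X0 a), one_div_mul_cancel hq0.ne', Real.rpow_one] at h2
    refine h2.trans_eq ?_
    congr 1
    rw [hc1, hc2]
    unfold BB
    ring
  have mk := Real.Lp_add_le_of_nonneg (Finset.univ : Finset (J → Fin 3)) hq1
    (f := fun a => c1 * b1 a ^ (1 - (((2 ^ (r + 1) : ℕ) : ℝ))⁻¹))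
    (g := fun a => c2 * ba a ^ (1 - (((2 ^ (r + 1) : ℕ) : ℝ))⁻¹))
    (fun a _ => mul_nonneg c10 (Real.rpow_nonneg (b10 a) _))
    (fun a _ => mul_nonneg c20 (Real.rpow_nonneg (ba0 a) _))
  have kb0 : (0 : ℝ) ≤ k * b := by positivity
  have sb : ∑ a, ba a ^ q ≤ (Fintype.card (J → Fin 3) : ℝ) * (k * b) ^ q := by
    simp only [baq]
    rw [← Finset.mul_sum, ← Finset.sum_div, hc3, Real.mul_rpow (by positivity) b0]
    calc (k : ℝ) ^ q * ((∑ a, A0 a) / (Tn * N))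
        ≤ (k : ℝ) ^ q * ((Tn * (3 ^ (Fintype.card J) * (N * b ^ q))) / (Tn * N)) := by gcongr
      _ = _ := by field_simp
  have sA1 : ∑ a, A1 a ≤ n * (3 * (Tn * (3 ^ (Fintype.card J) * (N * b ^ q)))) := by
    rw [hA1]; dsimp only
    rw [Finset.sum_comm]
    have e1 : ∀ j ∈ (Finset.univ : Finset J), ∑ a : J → Fin 3, A0 (Function.update a j 0) ≤
        3 * (Tn * (3 ^ (Fintype.card J) * (N * b ^ q))) := by
      intro j _
      have h := upd_sum j (0 : Fin 3) A0 A00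
      rw [Fintype.card_fin] at h
      push_cast at h
      linarith
    refine (Finset.sum_le_card_nsmul _ _ _ e1).trans_eq ?_
    rw [Finset.card_univ, nsmul_eq_mul]
  have sb1 : ∑ a, b1 a ^ q ≤ (Fintype.card (J → Fin 3) : ℝ) * (3 * (k * b)) ^ q := by
    simp only [b1q]
    rw [← Finset.mul_sum, ← Finset.sum_div, hc3, Real.mul_rpow (by norm_num) kb0,
      Real.mul_rpow (by positivity : (0 : ℝ) ≤ k) b0]
    have h3q : (3 : ℝ) ≤ 3 ^ q := by
      calc (3 : ℝ) = 3 ^ (1 : ℝ) := (Real.rpow_one 3).symm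
        _ ≤ 3 ^ q := Real.rpow_le_rpow_of_exponent_le (by norm_num) hq1
    have hkq : (0 : ℝ) ≤ (k : ℝ) ^ q := by positivity
    have hbq : 0 ≤ b ^ q := Real.rpow_nonneg b0 _
    calc (k : ℝ) ^ q * ((∑ a, A1 a) / (Tn * N * n))
        ≤ (k : ℝ) ^ q * ((n * (3 * (Tn * (3 ^ (Fintype.card J) * (N * b ^ q))))) / (Tn * N * n)) := by
          gcongr
      _ = 3 ^ (Fintype.card J) * (3 * ((k : ℝ) ^ q * b ^ q)) := by field_simp
      _ ≤ _ := by gcongr
  have r1 := avg_be b1 b10 c10 (by positivity : (0 : ℝ) ≤ 3 * (k * b)) hq0 hβ hβ1 sb1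
  have r2 := avg_be ba ba0 c20 kb0 hq0 hβ hβ1 sb
  rw [hc3] at r1 r2
  have sX0 : 0 ≤ ∑ a, X a := Finset.sum_nonneg fun a _ => X0 a
  have sg0 : 0 ≤ ∑ j, g ((2 * l) • (k • u j)) := Finset.sum_nonneg fun j _ => g0 _
  have tot : (∑ a, X a) ^ (1 / q) ≤ (3 ^ (Fintype.card J)) ^ (1 / q) *
      (c1 * (3 * (k * b)) ^ (1 - (((2 ^ (r + 1) : ℕ) : ℝ))⁻¹) +
        c2 * (k * b) ^ (1 - (((2 ^ (r + 1) : ℕ) : ℝ))⁻¹)) := by
    refine (Real.rpow_le_rpow sX0 (Finset.sum_le_sum fun a _ => hXa a) (by positivity)).trans ?_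
    refine mk.trans ((add_le_add r1 r2).trans (le_of_eq ?_))
    ring
  have h2q : (2 : ℝ) ^ (1 / q) ≤ 2 := by
    calc (2 : ℝ) ^ (1 / q) ≤ 2 ^ (1 : ℝ) := Real.rpow_le_rpow_of_exponent_le (by norm_num)
          (by rw [div_le_one hq0]; linarith)
      _ = 2 := Real.rpow_one 2
  have fin1 : (3 ^ (Fintype.card J)) ^ (1 / q) * (∑ j, g ((2 * l) • (k • u j))) ^ (1 / q) ≤
      (3 ^ (Fintype.card J)) ^ (1 / q) * (2 *
      (c1 * (3 * (k * b)) ^ (1 - (((2 ^ (r + 1) : ℕ) : ℝ))⁻¹) +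
        c2 * (k * b) ^ (1 - (((2 ^ (r + 1) : ℕ) : ℝ))⁻¹))) := by
    rw [← Real.mul_rpow h3n.le sg0]
    refine (Real.rpow_le_rpow (by positivity) low (by positivity)).trans ?_
    rw [Real.mul_rpow (by norm_num) sX0]
    have hpos : 0 ≤ (∑ a, X a) ^ (1 / q) := Real.rpow_nonneg sX0 _
    calc (2 : ℝ) ^ (1 / q) * (∑ a, X a) ^ (1 / q) ≤ 2 * (∑ a, X a) ^ (1 / q) :=
          mul_le_mul_of_nonneg_right h2q hpos
      _ ≤ 2 * ((3 ^ (Fintype.card J)) ^ (1 / q) *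
          (c1 * (3 * (k * b)) ^ (1 - (((2 ^ (r + 1) : ℕ) : ℝ))⁻¹) +
          c2 * (k * b) ^ (1 - (((2 ^ (r + 1) : ℕ) : ℝ))⁻¹))) :=
          mul_le_mul_of_nonneg_left tot (by norm_num)
      _ = _ := by ring
  have fin2 := le_of_mul_le_mul_left fin1 (Real.rpow_pos_of_pos h3n _)
  refine fin2.trans ?_
  have h3β : (3 * ((k : ℝ) * b)) ^ (1 - (((2 ^ (r + 1) : ℕ) : ℝ))⁻¹) ≤
      3 * (k * b) ^ (1 - (((2 ^ (r + 1) : ℕ) : ℝ))⁻¹) := by
    rw [Real.mul_rpow (by norm_num) kb0]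
    refine mul_le_mul_of_nonneg_right ?_ (Real.rpow_nonneg kb0 _)
    calc (3 : ℝ) ^ (1 - (((2 ^ (r + 1) : ℕ) : ℝ))⁻¹) ≤ 3 ^ (1 : ℝ) :=
          Real.rpow_le_rpow_of_exponent_le (by norm_num) hβ1
      _ = 3 := Real.rpow_one 3
  refine (mul_le_mul_of_nonneg_left (add_le_add (mul_le_mul_of_nonneg_left h3β c10) le_rfl)
    (by norm_num)).trans (le_of_eq ?_)
  rw [hc1, hc2, Real.mul_rpow hN.le hn.le]
  ring

end avg

section tor
variable {Y : Type u} [NormedAddCommGroup Y]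

theorem torus_gen (n m : ℕ) [NeZero m] (hn : 1 ≤ n) (F : (Fin n → ZMod m) → Y)
    {q b C : ℝ} (hq : 2 ≤ q) (b0 : 0 ≤ b) (hC : 1 ≤ C) (hmn : (n : ℝ) ^ (1 / q) ≤ m)
    (tor : ∀ (r l : ℕ), Real.log (n + 1 : ℕ) ≤ ((2 ^ (r + 1) : ℕ) : ℝ) →
      ∀ (e : Fin n → (Fin n → ZMod m)) (x0 : Fin n → ZMod m) (a b b1 : ℝ), 0 ≤ a → 0 ≤ b → 0 ≤ b1 →
      ∑ x, ‖F x - F x0‖ ^ q ≤ (Fintype.card (Fin n → ZMod m) : ℝ) * a ^ q →
      ∑ x, ∑ ε : Fin n → Bool, ‖F (x + sft e ε) - F x‖ ^ q ≤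
        2 ^ (Fintype.card (Fin n)) * ((Fintype.card (Fin n → ZMod m) : ℝ) * b ^ q) →
      ∑ x, ∑ j, ∑ ε : Fin n → Bool, ‖F (x + sfj e j ε) - F x‖ ^ q ≤
        2 ^ (Fintype.card (Fin n)) *
          ((Fintype.card (Fin n → ZMod m) : ℝ) * Fintype.card (Fin n) * b1 ^ q) →
      (∑ x, ∑ j, ‖F (x + (2 * l) • e j) - F x‖ ^ q) ^ (1 / q) ≤
        C * BB r l q a b b1 (Fintype.card (Fin n → ZMod m)) (Fintype.card (Fin n)))
    (hb : ∑ a : Fin n → Fin 3, ∑ ε : Fin n → Bool, ∑ x, ‖F (x + dv (cu n m) a ε) - F x‖ ^ q ≤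
      2 ^ n * (3 ^ n * ((Fintype.card (Fin n → ZMod m) : ℝ) * b ^ q))) :
    (∑ j, ∑ x, ‖F (x + (m / 2) • cu n m j) - F x‖ ^ q) ^ (1 / q) ≤
      (6060 * C) * Real.sqrt (Real.log (n + 1 : ℕ)) *
        (m * ((Fintype.card (Fin n → ZMod m) : ℝ) ^ (1 / q) * b)) := by
  have hq0 : 0 < q := by linarith
  have hq1 : 1 ≤ q := by linarith
  have hne : Nonempty (Fin n) := ⟨⟨0, hn⟩⟩
  have hn' : (1 : ℝ) ≤ n := by exact_mod_cast hn
  have hcn : Fintype.card (Fin n) = n := Fintype.card_fin n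
  have hN : (0 : ℝ) < Fintype.card (Fin n → ZMod m) := by exact_mod_cast Fintype.card_pos_iff.2 ⟨0⟩
  have hb' : ∑ a : Fin n → Fin 3, ∑ ε : Fin n → Bool, ∑ x, ‖F (x + dv (cu n m) a ε) - F x‖ ^ q ≤
      2 ^ (Fintype.card (Fin n)) * (3 ^ (Fintype.card (Fin n)) *
        ((Fintype.card (Fin n → ZMod m) : ℝ) * b ^ q)) := by rw [hcn]; exact hb
  have stp := step_bound (cu n m) F hq1 b0 hb'
  obtain ⟨N, hNd⟩ : ∃ N : ℝ, N = (Fintype.card (Fin n → ZMod m) : ℝ) := ⟨_, rfl⟩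
  obtain ⟨B, hB⟩ : ∃ B : ℝ, B = N ^ (1 / q) * b := ⟨_, rfl⟩
  have hN' : 0 < N := by rw [hNd]; exact hN
  have hB0 : 0 ≤ B := by rw [hB]; positivity
  rw [← hNd, ← hB] at stp
  -- all translations
  have all : ∀ z, hm F q z ≤ 24 * (n * m) * B := by
    intro z
    have h1 : hm F q z ≤ ∑ j, hm F q ((z j).val • cu n m j) := by
      conv_lhs => rw [cu_span n m z]
      exact hm_sum F hq1 _ _
    refine h1.trans ?_
    have h2 : ∀ j ∈ (Finset.univ : Finset (Fin n)), hm F q ((z j).val • cu n m j) ≤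
        m * (24 * B) := by
      intro j _
      refine (hm_nsmul F hq1 _ _).trans ?_
      have h3 : ((z j).val : ℝ) ≤ m := by exact_mod_cast (ZMod.val_lt (z j)).le
      exact mul_le_mul h3 (stp j) (hm_nonneg F q _) (by positivity)
    refine (Finset.sum_le_card_nsmul _ _ _ h2).trans_eq ?_
    rw [Finset.card_univ, hcn, nsmul_eq_mul]; ring
  have hNr : (N ^ (1 / q)) ^ q = N := by
    rw [← Real.rpow_mul hN'.le, one_div_mul_cancel hq0.ne', Real.rpow_one]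
  have hM : ∀ z, ∑ x, ‖F (x + z) - F x‖ ^ q ≤
      (Fintype.card (Fin n → ZMod m) : ℝ) * (24 * (n * m) * b) ^ q := by
    intro z
    rw [← hm_pow F hq0, ← hNd]
    refine (Real.rpow_le_rpow (hm_nonneg F q z) (all z) hq0.le).trans (le_of_eq ?_)
    have e1 : 24 * ((n : ℝ) * m) * B = N ^ (1 / q) * (24 * (n * m) * b) := by rw [hB]; ring
    rw [e1, Real.mul_rpow (by positivity) (by positivity), hNr]
  obtain ⟨k, l, s, hk1, hkl, hs, h4, h2, h1⟩ := scales hq1 hn hmn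
  obtain ⟨r, hr1, hr2⟩ := exists_r (n := n + 1) (by omega)
  have main := avg_gen r k l (cu n m) F hq (by linarith) (tor r l hr1) b0 (M := 24 * (n * m) * b)
    (by positivity) hM hb'
  rw [hcn, ← hNd] at main
  have num := num_bound hq1 hn b0 hk1 h4 h2 h1 hr1 hr2
  obtain ⟨Λ, hΛ⟩ : ∃ Λ, Λ = Real.sqrt (Real.log (n + 1 : ℕ)) := ⟨_, rfl⟩
  have hlog : 0.69 ≤ Real.log (n + 1 : ℕ) := by
    have h1 := Real.log_two_gt_d9
    have h2 : Real.log 2 ≤ Real.log (n + 1 : ℕ) := by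
      refine Real.log_le_log (by norm_num) ?_
      push_cast; linarith
    linarith
  have hΛ2 : Λ ^ 2 = Real.log (n + 1 : ℕ) := by rw [hΛ]; exact Real.sq_sqrt (by linarith)
  have hΛ0 : 0 ≤ Λ := by rw [hΛ]; exact Real.sqrt_nonneg _
  have hΛ8 : 0.8 ≤ Λ := by nlinarith
  rw [← hΛ] at num ⊢
  rw [← hNd, ← hB]
  have first : (∑ j, ∑ x, ‖F (x + (2 * l) • (k • cu n m j)) - F x‖ ^ q) ^ (1 / q) ≤
      (2 * C) * (3000 * Λ * (m * B)) := by
    refine main.trans ?_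
    have h5 := mul_le_mul_of_nonneg_left num (show 0 ≤ (2 * C) * N ^ (1 / q) by positivity)
    refine le_trans (le_of_eq ?_) (h5.trans (le_of_eq ?_))
    · ring
    · rw [hB]; ring
  -- combine with the remainder
  have mk := Real.Lp_add_le_of_nonneg (Finset.univ : Finset (Fin n)) hq1
    (f := fun j => hm F q ((2 * l) • (k • cu n m j))) (g := fun j => hm F q (s • cu n m j))
    (fun _ _ => hm_nonneg _ _ _) (fun _ _ => hm_nonneg _ _ _)
  have hsplit : ∀ j, hm F q ((m / 2) • cu n m j) ≤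
      hm F q ((2 * l) • (k • cu n m j)) + hm F q (s • cu n m j) := by
    intro j
    have e1 : (m / 2) • cu n m j = (2 * l) • (k • cu n m j) + s • cu n m j := by
      rw [← hkl, add_smul, mul_smul]
    rw [e1]
    exact hm_add F hq1 _ _
  have e2 : ∀ z : Fin n → (Fin n → ZMod m), ∑ j, hm F q (z j) ^ q =
      ∑ j, ∑ x, ‖F (x + z j) - F x‖ ^ q := fun z => Finset.sum_congr rfl fun j _ => hm_pow F hq0 _
  have second : (∑ j, hm F q (s • cu n m j) ^ q) ^ (1 / q) ≤ 48 * (m * B) := by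
    have h6 : ∑ j, hm F q (s • cu n m j) ^ q ≤ n * (s * (24 * B)) ^ q := by
      have h7 : ∀ j ∈ (Finset.univ : Finset (Fin n)), hm F q (s • cu n m j) ^ q ≤
          (s * (24 * B)) ^ q := by
        intro j _
        refine Real.rpow_le_rpow (hm_nonneg F q _) ?_ hq0.le
        exact (hm_nsmul F hq1 _ _).trans (mul_le_mul_of_nonneg_left (stp j) (by positivity))
      refine (Finset.sum_le_card_nsmul _ _ _ h7).trans_eq ?_
      rw [Finset.card_univ, hcn, nsmul_eq_mul]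
    have h8 : 0 ≤ ∑ j, hm F q (s • cu n m j) ^ q :=
      Finset.sum_nonneg fun j _ => Real.rpow_nonneg (hm_nonneg F q _) _
    refine (Real.rpow_le_rpow h8 h6 (by positivity)).trans ?_
    rw [Real.mul_rpow (by positivity) (by positivity), ← Real.rpow_mul (by positivity),
      mul_one_div_cancel hq0.ne', Real.rpow_one]
    have hs' : (s : ℝ) ≤ 2 * k := by exact_mod_cast hs
    calc (n : ℝ) ^ (1 / q) * (s * (24 * B)) ≤ (n : ℝ) ^ (1 / q) * ((2 * k) * (24 * B)) := by gcongr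
      _ = 48 * ((k * (n : ℝ) ^ (1 / q)) * B) := by ring
      _ ≤ 48 * (m * B) := by gcongr
  have h9 : 0 ≤ ∑ j, hm F q ((m / 2) • cu n m j) ^ q :=
    Finset.sum_nonneg fun j _ => Real.rpow_nonneg (hm_nonneg F q _) _
  have third : (∑ j, hm F q ((m / 2) • cu n m j) ^ q) ^ (1 / q) ≤
      (2 * C) * (3000 * Λ * (m * B)) + 48 * (m * B) := by
    refine (Real.rpow_le_rpow h9 (Finset.sum_le_sum fun j _ =>
      Real.rpow_le_rpow (hm_nonneg F q _) (hsplit j) hq0.le) (by positivity)).trans ?_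
    refine mk.trans (add_le_add ?_ second)
    rw [e2 (fun j => (2 * l) • (k • cu n m j))]
    exact first
  rw [← e2 (fun j => (m / 2) • cu n m j)]
  refine third.trans ?_
  have hmB : 0 ≤ (m : ℝ) * B := by positivity
  have h10 : (2 * C) * 3000 * Λ + 48 ≤ (6060 * C) * Λ := by nlinarith
  calc (2 * C) * (3000 * Λ * (m * B)) + 48 * (m * B) = ((2 * C) * 3000 * Λ + 48) * (m * B) := by ring
    _ ≤ (6060 * C) * Λ * (m * B) := mul_le_mul_of_nonneg_right h10 hmB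

end tor

end TH364.SG
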