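import Mathlib
import Pool.Agent.TH364.SG.Z6
set_option autoImplicit false
set_option linter.unusedSectionVars false

/-! The metric cotype inequality for spaces locally modelled by q-concave lattices. -/

namespace TH364.SG

open Finset

universe u v

variable {Y : Type u} [NormedAddCommGroup Y] [NormedSpace ℝ Y]

theorem lat_main (n m : ℕ) [NeZero m] (hn : 1 ≤ n) {d : ℕ} (T : (Fin d → ℝ) →ₗ[ℝ] Y)
    (hmono : ∀ a b : Fin d → ℝ, (∀ i, |a i| ≤ |b i|) → ‖T a‖ ≤ ‖T b‖)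
    {q K b : ℝ} (hq : 2 ≤ q) (hK : 1 ≤ K)
    (hconc : ∀ a : Fin n → Fin d → ℝ, ∑ j, ‖T (a j)‖ ^ q ≤
      K ^ q * ‖T (fun i => (∑ j, |a j i| ^ q) ^ (1 / q))‖ ^ q)
    (F : (Fin n → ZMod m) → Y) (hF : ∀ x, F x ∈ LinearMap.range T)
    (b0 : 0 ≤ b) (hmn : (n : ℝ) ^ (1 / q) ≤ m)
    (hb : ∑ a : Fin n → Fin 3, ∑ ε : Fin n → Bool, ∑ x, ‖F (x + dv (cu n m) a ε) - F x‖ ^ q ≤
      2 ^ n * (3 ^ n * ((Fintype.card (Fin n → ZMod m) : ℝ) * b ^ q))) :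
    (∑ j, ∑ x, ‖F (x + (m / 2) • cu n m j) - F x‖ ^ q) ^ (1 / q) ≤
      (2000000 * K) * Real.sqrt (Real.log (n + 1 : ℕ)) *
        (m * ((Fintype.card (Fin n → ZMod m) : ℝ) ^ (1 / q) * b)) := by
  have hne : Nonempty (Fin n) := ⟨⟨0, hn⟩⟩
  have h := torus_gen n m hn F hq b0 (C := 192 * K) (by linarith) hmn (by
    intro r l hr e x0 a b b1 a0 b0 b10 ha hb0 hb1
    have h1 := lat_torus r l T hmono hq hK hconc F hF x0 a0 b0 b10 ha hb0 hb1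
    refine h1.trans ?_
    have hck : 0 ≤ ck r := by unfold ck; positivity
    have hBB : 0 ≤ BB r l q a b b1 (Fintype.card (Fin n → ZMod m)) (Fintype.card (Fin n)) := by
      unfold BB; positivity
    refine mul_le_mul_of_nonneg_right ?_ hBB
    have h2 := n_root hn hr
    rw [Fintype.card_fin]
    have h3 := mul_le_mul_of_nonneg_left h2 (show 0 ≤ K by linarith)
    linarith) hb
  refine h.trans ?_
  have h4 : (6060 * (192 * K)) ≤ 2000000 * K := by linarith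
  have h5 : 0 ≤ Real.sqrt (Real.log (n + 1 : ℕ)) := Real.sqrt_nonneg _
  have h6 : 0 ≤ (m * ((Fintype.card (Fin n → ZMod m) : ℝ) ^ (1 / q) * b)) := by positivity
  exact mul_le_mul_of_nonneg_right (mul_le_mul_of_nonneg_right h4 h5) h6

theorem lat_fin (n m : ℕ) [NeZero m] (hn : 1 ≤ n) {d : ℕ} (T : (Fin d → ℝ) →ₗ[ℝ] Y)
    (hmono : ∀ a b : Fin d → ℝ, (∀ i, |a i| ≤ |b i|) → ‖T a‖ ≤ ‖T b‖)
    {q K : ℝ} (hq : 2 ≤ q) (hK : 1 ≤ K)
    (hconc : ∀ a : Fin n → Fin d → ℝ, ∑ j, ‖T (a j)‖ ^ q ≤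
      K ^ q * ‖T (fun i => (∑ j, |a j i| ^ q) ^ (1 / q))‖ ^ q)
    (f : (Fin n → ZMod m) → Y) (hF : ∀ x, f x ∈ LinearMap.range T)
    (hmn : (n : ℝ) ^ (1 / q) ≤ m) :
    ∑ j : Fin n, (∑ x : Fin n → ZMod m, ‖f (x + (m / 2) • Pi.single j 1) - f x‖ ^ q) /
        (m : ℝ) ^ n ≤
      (2000000 * K * Real.sqrt (Real.log (n + 1))) ^ q * (m : ℝ) ^ q * ((∑ x : Fin n → ZMod m,
        ∑ ε ∈ Fintype.piFinset (fun _ : Fin n => ({-1, 0, 1} : Finset ℤ)),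
          ‖f (x + fun j => (ε j : ZMod m)) - f x‖ ^ q) / ((m : ℝ) ^ n * 3 ^ n)) := by
  have hq0 : 0 < q := by linarith
  have hm0 : (0 : ℝ) < m := by
    have : 0 < m := Nat.pos_of_ne_zero (NeZero.ne m)
    exact_mod_cast this
  have hcard : (Fintype.card (Fin n → ZMod m) : ℝ) = (m : ℝ) ^ n := by
    rw [Fintype.card_fun, ZMod.card, Fintype.card_fin]; push_cast; rfl
  obtain ⟨A, hA⟩ : ∃ A : ℝ, A = (∑ x : Fin n → ZMod m,
        ∑ ε ∈ Fintype.piFinset (fun _ : Fin n => ({-1, 0, 1} : Finset ℤ)),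
          ‖f (x + fun j => (ε j : ZMod m)) - f x‖ ^ q) / ((m : ℝ) ^ n * 3 ^ n) := ⟨_, rfl⟩
  have hS0 : 0 ≤ ∑ x : Fin n → ZMod m,
      ∑ ε ∈ Fintype.piFinset (fun _ : Fin n => ({-1, 0, 1} : Finset ℤ)),
        ‖f (x + fun j => (ε j : ZMod m)) - f x‖ ^ q :=
    Finset.sum_nonneg fun x _ => Finset.sum_nonneg fun ε _ => Real.rpow_nonneg (norm_nonneg _) _
  have hA0 : 0 ≤ A := by rw [hA]; positivity
  obtain ⟨b, hb⟩ : ∃ b : ℝ, b = A ^ (1 / q) := ⟨_, rfl⟩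
  have hb0 : 0 ≤ b := by rw [hb]; exact Real.rpow_nonneg hA0 _
  have hbq : b ^ q = A := by
    rw [hb, ← Real.rpow_mul hA0, one_div_mul_cancel hq0.ne', Real.rpow_one]
  have hmain := lat_main n m hn T hmono hq hK hconc f hF hb0 hmn (by
    rw [hcard, hbq]
    have e1 : ∀ (a : Fin n → Fin 3) (ε : Fin n → Bool),
        ∑ x, ‖f (x + TH364.SG.dv (TH364.SG.cu n m) a ε) - f x‖ ^ q =
        (fun τ : Fin n → ℤ => ∑ x, ‖f (x + fun j => (τ j : ZMod m)) - f x‖ ^ q)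
          (fun j => TH364.SG.vv (a j, ε j)) := by
      intro a ε
      rw [TH364.SG.dv_cu]
    simp only [e1]
    rw [TH364.SG.tri_sum n (fun τ : Fin n → ℤ => ∑ x, ‖f (x + fun j => (τ j : ZMod m)) - f x‖ ^ q),
      Finset.sum_comm]
    refine le_of_eq ?_
    rw [hA]
    field_simp)
  obtain ⟨L, hL⟩ : ∃ L : ℝ, L = 2000000 * K * Real.sqrt (Real.log (n + 1)) := ⟨_, rfl⟩
  have hL0 : 0 ≤ L := by rw [hL]; positivity
  have hlog : 2000000 * K * Real.sqrt (Real.log (n + 1 : ℕ)) = L := by rw [hL]; push_cast; rfl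
  rw [hlog, hcard] at hmain
  rw [← hL, ← hA]
  obtain ⟨X, hX⟩ : ∃ X : ℝ, X = ∑ j, ∑ x, ‖f (x + (m / 2) • TH364.SG.cu n m j) - f x‖ ^ q :=
    ⟨_, rfl⟩
  have hX0 : 0 ≤ X := by
    rw [hX]
    exact Finset.sum_nonneg fun j _ => Finset.sum_nonneg fun x _ =>
      Real.rpow_nonneg (norm_nonneg _) _
  rw [← hX] at hmain
  have hN : (0 : ℝ) < (m : ℝ) ^ n := by positivity
  have h1 := Real.rpow_le_rpow (Real.rpow_nonneg hX0 _) hmain hq0.le
  rw [← Real.rpow_mul hX0, one_div_mul_cancel hq0.ne', Real.rpow_one,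
    Real.mul_rpow hL0 (by positivity), Real.mul_rpow hm0.le (by positivity),
    Real.mul_rpow (by positivity) hb0, ← Real.rpow_mul hN.le, one_div_mul_cancel hq0.ne',
    Real.rpow_one, hbq] at h1
  rw [← Finset.sum_div]
  have e2 : ∑ j : Fin n, ∑ x : Fin n → ZMod m, ‖f (x + (m / 2) • Pi.single j 1) - f x‖ ^ q = X := by
    rw [hX]; rfl
  rw [e2, div_le_iff₀ hN]
  calc X ≤ L ^ q * ((m : ℝ) ^ q * ((m : ℝ) ^ n * A)) := h1
    _ = L ^ q * (m : ℝ) ^ q * A * (m : ℝ) ^ n := by ring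

/-- the inequality passes to limits -/
theorem lat_all (n m : ℕ) [NeZero m] (hn : 1 ≤ n) {q K : ℝ} (hq : 2 ≤ q) (hK : 1 ≤ K)
    (hY : ∀ (s : Finset Y) (δ : ℝ), 0 < δ → ∃ (d : ℕ) (T : (Fin d → ℝ) →ₗ[ℝ] Y),
      (∀ a b : Fin d → ℝ, (∀ i, |a i| ≤ |b i|) → ‖T a‖ ≤ ‖T b‖) ∧
      (∀ (k : ℕ) (a : Fin k → Fin d → ℝ), ∑ j, ‖T (a j)‖ ^ q ≤
        K ^ q * ‖T (fun i => (∑ j, |a j i| ^ q) ^ (1 / q))‖ ^ q) ∧
      ∀ y ∈ s, ∃ c : Fin d → ℝ, ‖y - T c‖ ≤ δ)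
    (hmn : (n : ℝ) ^ (1 / q) ≤ m) (f : (Fin n → ZMod m) → Y) :
    ∑ j : Fin n, (∑ x : Fin n → ZMod m, ‖f (x + (m / 2) • Pi.single j 1) - f x‖ ^ q) /
        (m : ℝ) ^ n ≤
      (2000000 * K * Real.sqrt (Real.log (n + 1))) ^ q * (m : ℝ) ^ q * ((∑ x : Fin n → ZMod m,
        ∑ ε ∈ Fintype.piFinset (fun _ : Fin n => ({-1, 0, 1} : Finset ℤ)),
          ‖f (x + fun j => (ε j : ZMod m)) - f x‖ ^ q) / ((m : ℝ) ^ n * 3 ^ n)) := by
  classical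
  have hq0 : 0 < q := by linarith
  have ct : ∀ u v : Fin n → ZMod m, Continuous fun g : (Fin n → ZMod m) → Y => ‖g u - g v‖ ^ q :=
    fun u v => (((continuous_apply u).sub (continuous_apply v)).norm).rpow_const
      fun _ => Or.inr hq0.le
  have hcl : IsClosed {g : (Fin n → ZMod m) → Y |
      ∑ j : Fin n, (∑ x : Fin n → ZMod m, ‖g (x + (m / 2) • Pi.single j 1) - g x‖ ^ q) /
        (m : ℝ) ^ n ≤
      (2000000 * K * Real.sqrt (Real.log (n + 1))) ^ q * (m : ℝ) ^ q * ((∑ x : Fin n → ZMod m,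
        ∑ ε ∈ Fintype.piFinset (fun _ : Fin n => ({-1, 0, 1} : Finset ℤ)),
          ‖g (x + fun j => (ε j : ZMod m)) - g x‖ ^ q) / ((m : ℝ) ^ n * 3 ^ n))} := by
    refine isClosed_le ?_ ?_
    · refine continuous_finsetSum _ fun j _ => ?_
      exact (continuous_finsetSum _ fun x _ => ct _ _).div_const _
    · refine continuous_const.mul ?_
      exact (continuous_finsetSum _ fun x _ => continuous_finsetSum _ fun ε _ =>
        ct _ _).div_const _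
  refine hcl.closure_subset ?_
  rw [Metric.mem_closure_iff]
  intro ε hε
  obtain ⟨d, T, hmono, hconc, happ⟩ := hY (Finset.univ.image f) (ε / 2) (by linarith)
  have h1 : ∀ x, ∃ c : Fin d → ℝ, ‖f x - T c‖ ≤ ε / 2 := fun x =>
    happ (f x) (Finset.mem_image_of_mem f (Finset.mem_univ x))
  choose c hc using h1
  refine ⟨fun x => T (c x), ?_, ?_⟩
  · exact lat_fin n m hn T hmono hq hK (hconc n) (fun x => T (c x)) (fun x => ⟨c x, rfl⟩) hmn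
  · refine lt_of_le_of_lt ?_ (half_lt_self hε)
    refine (dist_pi_le_iff (by linarith)).2 fun x => ?_
    rw [dist_eq_norm]
    exact hc x

end TH364.SG
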