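import Mathlib
import Pool.Agent.TH364.SG.Grid2
import Pool.Agent.TH364.SG.Z7
set_option autoImplicit false
set_option linter.unusedSectionVars false

/-! Grids in spaces locally modelled by q-concave lattices. -/

namespace TH364.SG

open Finset

universe u
variable {Y : Type u} [NormedAddCommGroup Y]

theorem grid_of_mc (l n : ℕ) [NeZero l] (hn : 1 ≤ n) {q C : ℝ} (hq : 2 ≤ q) (hC : 0 ≤ C)
    (mc : ∀ f : (Fin n → ZMod (4 * l)) → Y,
      ∑ j : Fin n, (∑ x : Fin n → ZMod (4 * l),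
        ‖f (x + ((4 * l) / 2) • Pi.single j 1) - f x‖ ^ q) / ((4 * l : ℕ) : ℝ) ^ n ≤
      C ^ q * ((4 * l : ℕ) : ℝ) ^ q * ((∑ x : Fin n → ZMod (4 * l),
        ∑ ε ∈ Fintype.piFinset (fun _ : Fin n => ({-1, 0, 1} : Finset ℤ)),
          ‖f (x + fun j => (ε j : ZMod (4 * l))) - f x‖ ^ q) / (((4 * l : ℕ) : ℝ) ^ n * 3 ^ n)))
    (f : Grid (2 * l) n → Y) {lam D : ℝ} (hlam : 0 < lam) (hD : 0 < D)
    (hf : ∀ x y, lam * dist x y ≤ dist (f x) (f y) ∧ dist (f x) (f y) ≤ D * lam * dist x y) :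
    (n : ℝ) ^ (1 / q) ≤ 4 * C * D := by
  have hq0 : 0 < q := by linarith
  have hl0 : (0 : ℝ) < l := by
    have : 0 < l := Nat.pos_of_ne_zero (NeZero.ne l)
    exact_mod_cast this
  obtain ⟨F, hF⟩ : ∃ F : (Fin n → ZMod (4 * l)) → Y,
    F = fun x => f (clip (2 * l) (fold l x)) := ⟨_, rfl⟩
  have hfl : ∀ (x : Fin n → ZMod (4 * l)) j, fold l x j ≤ 2 * l := fun x j => fo_le l _
  have hlow : ∀ x x' : Fin n → ZMod (4 * l), lam * gd (fold l x) (fold l x') ≤ ‖F x - F x'‖ := by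
    intro x x'
    have h2 := (hf (clip (2 * l) (fold l x)) (clip (2 * l) (fold l x'))).1
    rw [dist_eq_norm (f _), Subtype.dist_eq, clip_eq (hfl x), clip_eq (hfl x')] at h2
    rw [hF]
    exact h2
  have hupp : ∀ x x' : Fin n → ZMod (4 * l), ‖F x - F x'‖ ≤ D * lam * gd (fold l x) (fold l x') := by
    intro x x'
    have h2 := (hf (clip (2 * l) (fold l x)) (clip (2 * l) (fold l x'))).2
    rw [dist_eq_norm (f _), Subtype.dist_eq, clip_eq (hfl x), clip_eq (hfl x')] at h2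
    rw [hF]
    exact h2
  have hDl : 0 < D * lam := by positivity
  have hstep : ∀ x x' : Fin n → ZMod (4 * l), near (ev l n) x x' → ‖F x - F x'‖ ≤ D * lam := by
    intro x x' hx
    refine (hupp x x').trans ?_
    calc D * lam * gd (fold l x) (fold l x') ≤ D * lam * 1 :=
          mul_le_mul_of_nonneg_left (fold_near l hx) hDl.le
      _ = _ := mul_one _
  have h := mc F
  obtain ⟨G, hG⟩ : ∃ G : ℝ, G = ((4 * l : ℕ) : ℝ) ^ n := ⟨_, rfl⟩
  have hcard : (Fintype.card (Fin n → ZMod (4 * l)) : ℝ) = G := by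
    rw [hG, Fintype.card_fun, ZMod.card, Fintype.card_fin]; push_cast; rfl
  have h4l : (0 : ℝ) < ((4 * l : ℕ) : ℝ) := by push_cast; linarith
  have hG0 : 0 < G := by rw [hG]; positivity
  rw [← hG] at h
  -- the right side
  have hR : (∑ x : Fin n → ZMod (4 * l),
      ∑ ε ∈ Fintype.piFinset (fun _ : Fin n => ({-1, 0, 1} : Finset ℤ)),
        ‖F (x + fun j => (ε j : ZMod (4 * l))) - F x‖ ^ q) / (G * 3 ^ n) ≤ (D * lam) ^ q := by
    rw [div_le_iff₀ (by positivity)]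
    have h1 : ∀ x ∈ (Finset.univ : Finset (Fin n → ZMod (4 * l))),
        ∑ ε ∈ Fintype.piFinset (fun _ : Fin n => ({-1, 0, 1} : Finset ℤ)),
        ‖F (x + fun j => (ε j : ZMod (4 * l))) - F x‖ ^ q ≤ 3 ^ n * (D * lam) ^ q := by
      intro x _
      have h2 : ∀ ε ∈ Fintype.piFinset (fun _ : Fin n => ({-1, 0, 1} : Finset ℤ)),
          ‖F (x + fun j => (ε j : ZMod (4 * l))) - F x‖ ^ q ≤ (D * lam) ^ q := by
        intro ε hε
        refine Real.rpow_le_rpow (norm_nonneg _) (hstep _ _ ⟨ε, fun k => ?_, ?_⟩) hq0.le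
        · have h3 := Fintype.mem_piFinset.1 hε k
          simp only [Finset.mem_insert, Finset.mem_singleton] at h3
          rcases h3 with h3 | h3 | h3 <;> rw [h3] <;> simp
        · congr 1
          funext i
          exact (sum_ev l ε i).symm
      refine (Finset.sum_le_card_nsmul _ _ _ h2).trans_eq ?_
      rw [Fintype.card_piFinset]
      simp [nsmul_eq_mul]
    refine (Finset.sum_le_card_nsmul _ _ _ h1).trans_eq ?_
    rw [Finset.card_univ, nsmul_eq_mul, hcard]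
    ring
  -- the left side
  have hL : ∀ j : Fin n, (lam * l) ^ q ≤ (∑ x : Fin n → ZMod (4 * l),
        ‖F (x + ((4 * l) / 2) • Pi.single j 1) - F x‖ ^ q) / G := by
    intro j
    have e0 : (4 * l) / 2 = 2 * l := by omega
    rw [e0]
    have h1 : lam * (l * G) ≤ ∑ x : Fin n → ZMod (4 * l), ‖F (x + (2 * l) • ev l n j) - F x‖ := by
      have h2 : ∑ x : Fin n → ZMod (4 * l), lam * ad l (x j) ≤
          ∑ x : Fin n → ZMod (4 * l), ‖F (x + (2 * l) • ev l n j) - F x‖ := by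
        refine Finset.sum_le_sum fun x _ => ?_
        refine le_trans ?_ (hlow _ _)
        exact mul_le_mul_of_nonneg_left (fold_anti l x j) hlam.le
      rw [← Finset.mul_sum, sum_ad, hcard] at h2
      exact h2
    have hw : ∑ _x : Fin n → ZMod (4 * l), 1 / G = 1 := by
      rw [Finset.sum_const, Finset.card_univ, nsmul_eq_mul, hcard]
      field_simp
    have h2 := Real.rpow_arith_mean_le_arith_mean_rpow
      (Finset.univ : Finset (Fin n → ZMod (4 * l))) (fun _ => 1 / G)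
      (fun x => ‖F (x + (2 * l) • ev l n j) - F x‖) (fun _ _ => by positivity) hw
      (fun x _ => norm_nonneg _) (p := q) (by linarith)
    rw [← Finset.mul_sum, ← Finset.mul_sum] at h2
    have h3 : lam * l ≤ 1 / G * ∑ x : Fin n → ZMod (4 * l), ‖F (x + (2 * l) • ev l n j) - F x‖ := by
      rw [one_div, ← div_eq_inv_mul, le_div_iff₀ hG0]
      linarith
    have h4 := (Real.rpow_le_rpow (by positivity) h3 hq0.le).trans h2
    rw [one_div, ← div_eq_inv_mul] at h4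
    exact h4
  have hS : (n : ℝ) * (lam * l) ^ q ≤ C ^ q * ((4 * l : ℕ) : ℝ) ^ q * (D * lam) ^ q := by
    have h5 : (n : ℝ) * (lam * l) ^ q ≤ ∑ j : Fin n, (∑ x : Fin n → ZMod (4 * l),
        ‖F (x + ((4 * l) / 2) • Pi.single j 1) - F x‖ ^ q) / G := by
      have h6 := Finset.sum_le_sum fun (j : Fin n) (_ : j ∈ Finset.univ) => hL j
      rw [Finset.sum_const, Finset.card_univ, Fintype.card_fin, nsmul_eq_mul] at h6
      exact h6
    refine h5.trans (h.trans ?_)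
    exact mul_le_mul_of_nonneg_left hR (by positivity)
  have hn0 : (0 : ℝ) ≤ n := Nat.cast_nonneg _
  have e1 : (n : ℝ) * (lam * l) ^ q = ((n : ℝ) ^ (1 / q) * (lam * l)) ^ q := by
    rw [Real.mul_rpow (x := (n : ℝ) ^ (1 / q)) (y := lam * l) (by positivity) (by positivity),
      ← Real.rpow_mul hn0, one_div_mul_cancel hq0.ne', Real.rpow_one]
  have e2 : C ^ q * ((4 * l : ℕ) : ℝ) ^ q * (D * lam) ^ q = (C * ((4 * l : ℕ) : ℝ) * (D * lam)) ^ q := by
    rw [Real.mul_rpow (x := C * ((4 * l : ℕ) : ℝ)) (y := D * lam) (by positivity) (by positivity),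
      Real.mul_rpow hC (by positivity)]
  rw [e1, e2] at hS
  have h7 := (Real.rpow_le_rpow_iff (by positivity) (by positivity) hq0).1 hS
  have h8 : (lam * l) * (n : ℝ) ^ (1 / q) ≤ (lam * l) * (4 * C * D) := by
    refine le_trans (le_of_eq (by ring)) (h7.trans (le_of_eq ?_))
    push_cast; ring
  exact le_of_mul_le_mul_left h8 (by positivity)

theorem lat_grid {Y : Type u} [NormedAddCommGroup Y] [NormedSpace ℝ Y] (n m : ℕ) (hn : 1 ≤ n)
    {q K : ℝ} (hq : 2 ≤ q) (hK : 1 ≤ K)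
    (hY : ∀ (s : Finset Y) (δ : ℝ), 0 < δ → ∃ (d : ℕ) (T : (Fin d → ℝ) →ₗ[ℝ] Y),
      (∀ a b : Fin d → ℝ, (∀ i, |a i| ≤ |b i|) → ‖T a‖ ≤ ‖T b‖) ∧
      (∀ (k : ℕ) (a : Fin k → Fin d → ℝ), ∑ j, ‖T (a j)‖ ^ q ≤
        K ^ q * ‖T (fun i => (∑ j, |a j i| ^ q) ^ (1 / q))‖ ^ q) ∧
      ∀ y ∈ s, ∃ c : Fin d → ℝ, ‖y - T c‖ ≤ δ)
    (hmn : (n : ℝ) ^ (1 / q) ≤ m) (f : Grid m n → Y) {lam D : ℝ} (hlam : 0 < lam)
    (hf : ∀ x y, lam * dist x y ≤ dist (f x) (f y) ∧ dist (f x) (f y) ≤ D * lam * dist x y) :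
    (n : ℝ) ^ (1 / q) ≤ 8000000 * K * Real.sqrt (Real.log (n + 1)) * D := by
  have hn' : (1 : ℝ) ≤ n := by exact_mod_cast hn
  have hroot : (1 : ℝ) ≤ (n : ℝ) ^ (1 / q) := Real.one_le_rpow hn' (by positivity)
  have hm : 1 ≤ m := by
    have : (1 : ℝ) ≤ m := hroot.trans hmn
    exact_mod_cast this
  have hD : 1 ≤ D := by
    obtain ⟨x, y, hxy⟩ := dist_ge_one (m := m) (n := n) hm hn
    have h := (hf x y).1.trans (hf x y).2
    have h1 : 0 < lam * dist x y := by positivity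
    by_contra hcon
    push Not at hcon
    nlinarith
  have hlog : 0.69 ≤ Real.log ((n : ℝ) + 1) := by
    have h1 := Real.log_two_gt_d9
    have h2 : Real.log 2 ≤ Real.log ((n : ℝ) + 1) := Real.log_le_log (by norm_num) (by linarith)
    linarith
  obtain ⟨Λ, hΛ⟩ : ∃ Λ, Λ = Real.sqrt (Real.log ((n : ℝ) + 1)) := ⟨_, rfl⟩
  have hΛ2 : Λ ^ 2 = Real.log ((n : ℝ) + 1) := by rw [hΛ]; exact Real.sq_sqrt (by linarith)
  have hΛ0 : 0 ≤ Λ := by rw [hΛ]; exact Real.sqrt_nonneg _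
  have hΛ8 : 0.8 ≤ Λ := by nlinarith
  rw [← hΛ]
  rcases Nat.lt_or_ge m 2 with hm2 | hm2
  · have h1 : (m : ℝ) ≤ 1 := by exact_mod_cast (by omega : m ≤ 1)
    have h2 : 0.8 ≤ K * Λ := by nlinarith
    have h3 : 0.8 ≤ K * Λ * D := by nlinarith
    have h4 : 8000000 * K * Λ * D = 8000000 * (K * Λ * D) := by ring
    rw [h4]
    linarith
  · obtain ⟨l, hl⟩ : ∃ l, l = m / 2 := ⟨_, rfl⟩
    have hlm : 2 * l ≤ m := by omega
    have : NeZero l := ⟨by omega⟩
    have hml : m ≤ 4 * l := by omega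
    have hmn2 : (n : ℝ) ^ (1 / q) ≤ ((4 * l : ℕ) : ℝ) := hmn.trans (by exact_mod_cast hml)
    have h := grid_of_mc l n hn hq (C := 2000000 * K * Λ) (by positivity)
      (fun g => by rw [hΛ]; exact lat_all n (4 * l) hn hq hK hY hmn2 g)
      (fun x => f ⟨x.1, fun j => (x.2 j).trans hlm⟩) hlam (by linarith)
      (fun x y => hf ⟨x.1, fun j => (x.2 j).trans hlm⟩ ⟨y.1, fun j => (y.2 j).trans hlm⟩)
    refine h.trans (le_of_eq ?_)
    ring

end TH364.SG
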