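import Mathlib
set_option autoImplicit false
set_option linter.unusedSectionVars false

/-! L_1 spaces are locally modelled by q-concave lattices. -/

namespace TH364.SG

open Finset MeasureTheory

theorem mink {ι κ : Type*} [Fintype κ] (s : Finset ι) (x : ι → κ → ℝ) (hx : ∀ i j, 0 ≤ x i j)
    {q : ℝ} (hq : 1 ≤ q) :
    (∑ j, (∑ i ∈ s, x i j) ^ q) ^ (1 / q) ≤ ∑ i ∈ s, (∑ j, x i j ^ q) ^ (1 / q) := by
  classical
  have hq0 : 0 < q := by linarith
  induction s using Finset.induction_on with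
  | empty => simp [Real.zero_rpow hq0.ne', hq0.ne']
  | insert a s ha ih =>
    simp only [Finset.sum_insert ha]
    refine (Real.Lp_add_le_of_nonneg (Finset.univ : Finset κ) hq
      (f := fun j => x a j) (g := fun j => ∑ i ∈ s, x i j)
      (fun _ _ => hx _ _) (fun _ _ => Finset.sum_nonneg fun i _ => hx _ _)).trans ?_
    linarith

theorem abs_ind {d : ℕ} (a : Fin d → ℝ) (P : Fin d → Prop) [DecidablePred P]
    (hP : ∀ i j, P i → P j → i = j) :
    |∑ i, a i * (if P i then (1 : ℝ) else 0)| = ∑ i, |a i| * (if P i then (1 : ℝ) else 0) := by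
  by_cases h : ∃ i0, P i0
  · obtain ⟨i0, h0⟩ := h
    rw [Finset.sum_eq_single i0, Finset.sum_eq_single i0]
    · rw [if_pos h0]; simp
    · intro i _ hi
      rw [if_neg fun h => hi (hP _ _ h h0)]; simp
    · intro h; exact absurd (Finset.mem_univ i0) h
    · intro i _ hi
      rw [if_neg fun h => hi (hP _ _ h h0)]; simp
    · intro h; exact absurd (Finset.mem_univ i0) h
  · push Not at h
    simp [h]

variable {Ω : Type*} [MeasurableSpace Ω] {μ : Measure Ω}

/-- the step function -/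
noncomputable def stp {d : ℕ} (A : Fin d → Set Ω) (a : Fin d → ℝ) (ω : Ω) : ℝ :=
  ∑ i, a i * (A i).indicator (fun _ => (1 : ℝ)) ω

theorem stp_int {d : ℕ} (A : Fin d → Set Ω) (hA : ∀ i, MeasurableSet (A i))
    (hm : ∀ i, μ (A i) ≠ ⊤) (a : Fin d → ℝ) : Integrable (stp A a) μ := by
  unfold stp
  refine integrable_finsetSum _ fun i _ => Integrable.const_mul ?_ _
  exact (integrable_indicator_iff (hA i)).2 (integrableOn_const (hm i))

/-- the step map -/
noncomputable def stT {d : ℕ} (A : Fin d → Set Ω) (hA : ∀ i, MeasurableSet (A i))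
    (hm : ∀ i, μ (A i) ≠ ⊤) : (Fin d → ℝ) →ₗ[ℝ] (Lp ℝ 1 μ) where
  toFun a := (stp_int A hA hm a).toL1 (stp A a)
  map_add' a b := by
    rw [← Integrable.toL1_add]
    refine (Integrable.toL1_eq_toL1_iff _ _ _ _).2 (Filter.Eventually.of_forall fun ω => ?_)
    simp only [stp, Pi.add_apply, add_mul, Finset.sum_add_distrib]
  map_smul' c a := by
    rw [RingHom.id_apply, ← Integrable.toL1_smul]
    refine (Integrable.toL1_eq_toL1_iff _ _ _ _).2 (Filter.Eventually.of_forall fun ω => ?_)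
    simp only [stp, Pi.smul_apply, smul_eq_mul, Finset.mul_sum, mul_assoc]

theorem stT_norm {d : ℕ} (A : Fin d → Set Ω) (hA : ∀ i, MeasurableSet (A i))
    (hm : ∀ i, μ (A i) ≠ ⊤) (hd : ∀ i j ω, ω ∈ A i → ω ∈ A j → i = j) (a : Fin d → ℝ) :
    ‖stT A hA hm a‖ = ∑ i, |a i| * μ.real (A i) := by
  classical
  change ‖(stp_int A hA hm a).toL1 (stp A a)‖ = _
  rw [L1.norm_of_fun_eq_integral_norm]
  have h1 : ∀ ω, ‖stp A a ω‖ = ∑ i, |a i| * (A i).indicator (fun _ => (1 : ℝ)) ω := by
    intro ω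
    rw [Real.norm_eq_abs]
    unfold stp
    have e1 : ∀ i, (A i).indicator (fun _ => (1 : ℝ)) ω = if ω ∈ A i then 1 else 0 := fun i => by
      rw [Set.indicator_apply]
    simp only [e1]
    exact abs_ind a (fun i => ω ∈ A i) fun i j => hd i j ω
  simp only [h1]
  rw [integral_finsetSum _ fun i _ => Integrable.const_mul
    ((integrable_indicator_iff (hA i)).2 (integrableOn_const (hm i))) _]
  refine Finset.sum_congr rfl fun i _ => ?_
  rw [integral_const_mul, integral_indicator (hA i)]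
  simp

theorem L1_model {q : ℝ} (hq : 1 ≤ q) (s : Finset (Lp ℝ 1 μ)) (δ : ℝ) (hδ : 0 < δ) :
    ∃ (d : ℕ) (T : (Fin d → ℝ) →ₗ[ℝ] (Lp ℝ 1 μ)),
      (∀ a b : Fin d → ℝ, (∀ i, |a i| ≤ |b i|) → ‖T a‖ ≤ ‖T b‖) ∧
      (∀ (k : ℕ) (a : Fin k → Fin d → ℝ), ∑ j, ‖T (a j)‖ ^ q ≤
        (1 : ℝ) ^ q * ‖T (fun i => (∑ j, |a j i| ^ q) ^ (1 / q))‖ ^ q) ∧
      ∀ y ∈ s, ∃ c : Fin d → ℝ, ‖y - T c‖ ≤ δ := by
  classical
  have hq0 : 0 < q := by linarith
  -- the joint function
  set Φ : Ω → (s → ℝ) := fun ω y => (y : Lp ℝ 1 μ) ω with hΦ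
  have hΦi : Integrable Φ μ := Integrable.of_eval fun y => L1.integrable_coeFn (y : Lp ℝ 1 μ)
  obtain ⟨G, hG1, hG2⟩ := (memLp_one_iff_integrable.2 hΦi).exists_simpleFunc_eLpNorm_sub_lt
    (by norm_num) (ε := ENNReal.ofReal δ) (by simpa using hδ)
  have hGi : Integrable G μ := memLp_one_iff_integrable.1 hG2
  set R : Finset (s → ℝ) := G.range.filter (fun v => v ≠ 0) with hR
  set e : Fin R.card ≃ R := R.equivFin.symm with he
  set A : Fin R.card → Set Ω := fun i => G ⁻¹' {((e i : R) : s → ℝ)} with hAd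
  have hA : ∀ i, MeasurableSet (A i) := fun i => G.measurableSet_fiber _
  have hm : ∀ i, μ (A i) ≠ ⊤ := fun i => by
    have hne : ((e i : R) : s → ℝ) ≠ 0 := (Finset.mem_filter.1 (e i).2).2
    exact (SimpleFunc.measure_preimage_lt_top_of_integrable G hGi hne).ne
  have hd : ∀ i j ω, ω ∈ A i → ω ∈ A j → i = j := by
    intro i j ω h1 h2
    have h3 : ((e i : R) : s → ℝ) = ((e j : R) : s → ℝ) := by
      rw [← show G ω = ((e i : R) : s → ℝ) from h1, ← show G ω = ((e j : R) : s → ℝ) from h2]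
    exact e.injective (Subtype.ext h3)
  refine ⟨R.card, stT A hA hm, ?_, ?_, ?_⟩
  · intro a b hab
    rw [stT_norm A hA hm hd, stT_norm A hA hm hd]
    exact Finset.sum_le_sum fun i _ => mul_le_mul_of_nonneg_right (hab i) measureReal_nonneg
  · intro k a
    simp only [stT_norm A hA hm hd]
    rw [Real.one_rpow, one_mul]
    have h1 := mink (Finset.univ : Finset (Fin R.card)) (fun i (j : Fin k) => |a j i| * μ.real (A i))
      (fun i j => mul_nonneg (abs_nonneg _) measureReal_nonneg) hq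
    have h2 : ∀ i, (∑ j, (|a j i| * μ.real (A i)) ^ q) ^ (1 / q) =
        |(∑ j, |a j i| ^ q) ^ (1 / q)| * μ.real (A i) := by
      intro i
      have e1 : ∀ j, (|a j i| * μ.real (A i)) ^ q = |a j i| ^ q * μ.real (A i) ^ q := fun j =>
        Real.mul_rpow (abs_nonneg _) measureReal_nonneg
      have e2 : 0 ≤ ∑ j, |a j i| ^ q := Finset.sum_nonneg fun j _ =>
        Real.rpow_nonneg (abs_nonneg _) _
      simp only [e1]
      rw [← Finset.sum_mul, Real.mul_rpow e2 (Real.rpow_nonneg measureReal_nonneg _),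
        ← Real.rpow_mul measureReal_nonneg, mul_one_div_cancel hq0.ne', Real.rpow_one,
        abs_of_nonneg (Real.rpow_nonneg e2 _)]
    simp only [h2] at h1
    have e3 : 0 ≤ ∑ j, (∑ i, |a j i| * μ.real (A i)) ^ q := Finset.sum_nonneg fun j _ =>
      Real.rpow_nonneg (Finset.sum_nonneg fun i _ => mul_nonneg (abs_nonneg _) measureReal_nonneg) _
    have h3 := Real.rpow_le_rpow (Real.rpow_nonneg e3 _) h1 hq0.le
    rw [← Real.rpow_mul e3, one_div_mul_cancel hq0.ne', Real.rpow_one] at h3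
    exact h3
  · intro y hy
    refine ⟨fun i => ((e i : R) : s → ℝ) ⟨y, hy⟩, ?_⟩
    have hval : ∀ ω, stp A (fun i => ((e i : R) : s → ℝ) ⟨y, hy⟩) ω = G ω ⟨y, hy⟩ := by
      intro ω
      unfold stp
      by_cases h0 : G ω = 0
      · rw [h0]
        refine Finset.sum_eq_zero fun i _ => ?_
        rw [Set.indicator_of_notMem, mul_zero]
        intro h
        have hne : ((e i : R) : s → ℝ) ≠ 0 := (Finset.mem_filter.1 (e i).2).2
        exact hne (by rw [← show G ω = ((e i : R) : s → ℝ) from h]; exact h0)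
      · have hmem : G ω ∈ R := Finset.mem_filter.2 ⟨SimpleFunc.mem_range_self G ω, h0⟩
        rw [Finset.sum_eq_single (e.symm ⟨G ω, hmem⟩)]
        · rw [Set.indicator_of_mem]
          · simp
          · simp [hAd]
        · intro i _ hi
          rw [Set.indicator_of_notMem, mul_zero]
          intro h
          refine hi (e.injective ?_)
          rw [Equiv.apply_symm_apply]
          exact Subtype.ext (show G ω = ((e i : R) : s → ℝ) from h).symm
        · intro h; exact absurd (Finset.mem_univ _) h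
    have h1 : y - stT A hA hm (fun i => ((e i : R) : s → ℝ) ⟨y, hy⟩) =
        ((L1.integrable_coeFn y).sub (stp_int A hA hm
          (fun i => ((e i : R) : s → ℝ) ⟨y, hy⟩))).toL1
          (⇑y - stp A (fun i => ((e i : R) : s → ℝ) ⟨y, hy⟩)) := by
      rw [Integrable.toL1_sub _ _ (L1.integrable_coeFn y) (stp_int A hA hm _),
        Integrable.toL1_coeFn]
      rfl
    rw [h1, L1.norm_of_fun_eq_integral_norm]
    have h2 : ∫ ω, ‖Φ ω - G ω‖ ∂μ ≤ δ := by
      have h3 := hG1.le
      rw [eLpNorm_one_eq_lintegral_enorm] at h3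
      have h4 : ∫ ω, ‖Φ ω - G ω‖ ∂μ = (∫⁻ ω, ‖(Φ - ⇑G) ω‖ₑ ∂μ).toReal := by
        rw [← integral_norm_eq_lintegral_enorm (hΦi.sub hGi).aestronglyMeasurable]
        rfl
      rw [h4]
      exact ENNReal.toReal_le_of_le_ofReal hδ.le h3
    refine le_trans (integral_mono ?_ (hΦi.sub hGi).norm fun ω => ?_) h2
    · exact ((L1.integrable_coeFn y).sub (stp_int A hA hm _)).norm
    · simp only [Pi.sub_apply]
      rw [hval]
      exact norm_le_pi_norm (Φ ω - G ω) ⟨y, hy⟩

end TH364.SG
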